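import Pool.Agent.RX.RCM.EpC

/-! Density errors: norms of the tails (MP_73ccd0_lc, route M). -/

namespace Pool.Agent.RX.RCM

open Set Finset

set_option linter.unusedSectionVars false

variable {V : Type*} [Fintype V] [DecidableEq V]

/-- the norm of a vector of backward primitives -/
theorem nm_bk {X : Finset V} {t : ℝ} (h0 : 0 ≤ t) {F : V → ℝ → ℝ} {W W' : ℝ → ℝ}
    (cF : ∀ e ∈ X, ContinuousOn (F e) (Icc 0 t)) (F0 : ∀ e ∈ X, ∀ r ∈ Icc 0 t, 0 ≤ F e r)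
    (dW : ∀ r ∈ Icc 0 t, HasDerivAt W (W' r) r) (W0 : ∀ r ∈ Icc 0 t, 0 ≤ W r)
    (h : ∀ r ∈ Icc 0 t, nm X (fun e => F e r) ≤ -W' r) :
    ∀ r ∈ Icc 0 t, nm X (fun e => bk (F e) t r) ≤ W r := by
  intro r0 hr0
  set w : V → ℝ := fun e => bk (F e) t r0 with hw
  have w0 : ∀ e ∈ X, 0 ≤ w e := fun e he => bk_nonneg hr0 fun z hz => F0 e he z hz
  have m : ∀ r ∈ Icc r0 t, r ∈ Icc 0 t := fun r hr => ⟨hr0.1.trans hr.1, hr.2⟩
  have d1 : ∀ r ∈ Icc r0 t, HasDerivAt (fun r => ∑ e ∈ X, w e * bk (F e) t r)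
      (∑ e ∈ X, w e * -F e r) r := fun r hr =>
    HasDerivAt.fun_sum fun e he => (bk_deriv h0 (cF e he) (m r hr)).const_mul (w e)
  have d2 : ∀ r ∈ Icc r0 t, HasDerivAt (fun r => nm X w * W r) (nm X w * W' r) r := fun r hr =>
    (dW r (m r hr)).const_mul _
  have key := back_le d1 d2 (fun r hr => by
    have h1 := ip_le X w (fun e => F e r)
    have h2 := mul_le_mul_of_nonneg_left (h r (m r hr)) (nm_nonneg X w)
    have h3 : ∑ e ∈ X, w e * -F e r = -∑ e ∈ X, w e * F e r := by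
      rw [← Finset.sum_neg_distrib]; exact Finset.sum_congr rfl fun e _ => by ring
    rw [h3]
    linarith) (by
      have : ∑ e ∈ X, w e * bk (F e) t t = 0 := Finset.sum_eq_zero fun e _ => by
        rw [bk_self, mul_zero]
      rw [this]
      exact mul_nonneg (nm_nonneg _ _) (W0 t ⟨h0, le_rfl⟩)) r0 ⟨le_rfl, hr0.2⟩
  have e1 : ∑ e ∈ X, w e * bk (F e) t r0 = nm X w * nm X w := by
    rw [← pow_two, nm_sq]; exact Finset.sum_congr rfl fun e _ => by rw [hw]; ring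
  rw [e1] at key
  rcases (nm_nonneg X w).eq_or_lt with h1 | h1
  · rw [← h1]; exact W0 r0 hr0
  · exact le_of_mul_le_mul_left key h1

/-- linearity of the backward primitive -/
theorem bk_sum {ι : Type*} (I : Finset ι) (f : ι → ℝ) {g : ι → ℝ → ℝ} {t : ℝ} (h0 : 0 ≤ t)
    (cg : ∀ i ∈ I, ContinuousOn (g i) (Icc 0 t)) :
    ∀ r ∈ Icc 0 t, ∑ i ∈ I, f i * bk (g i) t r = bk (fun ρ => ∑ i ∈ I, f i * g i ρ) t r := by
  refine back_eq (f' := fun r => -∑ i ∈ I, f i * g i r) (fun r hr => ?_) (fun r hr => ?_) ?_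
  · refine (HasDerivAt.fun_sum fun i hi => (bk_deriv h0 (cg i hi) hr).const_mul (f i)).congr_deriv ?_
    rw [← Finset.sum_neg_distrib]; exact Finset.sum_congr rfl fun i _ => by ring
  · exact bk_deriv h0 (continuousOn_finsetSum _ fun i hi => continuousOn_const.mul (cg i hi)) hr
  · rw [bk_self]; exact Finset.sum_eq_zero fun i _ => by rw [bk_self, mul_zero]

theorem two_nm {X : Finset V} {p : V → ℝ} (pz : ∀ e ∉ X, p e = 0) {e f : V}
    (hef : e ≠ f) : p e + p f ≤ Real.sqrt 2 * nm X p := by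
  have hsq : p e ^ 2 + p f ^ 2 ≤ nm X p ^ 2 := by
    rw [nm_sq]
    have h1 : p e ^ 2 + p f ^ 2 = ∑ z ∈ ({e, f} : Finset V), p z ^ 2 := by
      rw [Finset.sum_pair hef]
    have h2 : ∑ z ∈ ({e, f} : Finset V), p z ^ 2 ≤ ∑ z ∈ X ∪ {e, f}, p z ^ 2 :=
      Finset.sum_le_sum_of_subset_of_nonneg Finset.subset_union_right fun z _ _ => sq_nonneg _
    have h3 : ∑ z ∈ X ∪ {e, f}, p z ^ 2 = ∑ z ∈ X, p z ^ 2 := by
      symm
      refine Finset.sum_subset Finset.subset_union_left fun z _ hz => ?_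
      rw [pz z hz]; norm_num
    linarith
  have h4 : (p e + p f) ^ 2 ≤ 2 * nm X p ^ 2 := by nlinarith [sq_nonneg (p e - p f)]
  have h5 := Real.le_sqrt_of_sq_le h4
  rwa [Real.sqrt_mul (by norm_num), Real.sqrt_sq (nm_nonneg X p)] at h5

end Pool.Agent.RX.RCM

namespace Pool.Agent.RX.RCN.K

open Set Finset MeasureTheory Pool.Agent.RX.RCRSHalf Pool.Agent.RX.RCG Pool.Agent.RX.RCG.Ct

set_option linter.unusedSectionVars false

variable {V : Type*} [Fintype V] [DecidableEq V]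
variable {Z : Hzd} {B E1 : ℝ → ℝ → ℝ} {s : RCM.Us} {C mb : ℝ → ℝ} {τ : ℝ}
variable {x : V → V → ℝ} {P : V → Prop} [DecidablePred P] {sl : ℝ → ℝ → ℝ} {A D : Finset V}
variable {f : V → ℝ} {M : ℝ} {gp gm : V → V → ℝ → ℝ}

section

variable (hs : s.Ok) (k : Ck Z B s C mb τ) (hC : Z.Cf B E1) (hZ : Z.Ok sl) (hx : Wt x P 1)
include hs k hC hZ hx

/-- bound of the direct sources -/
theorem dd_le {σ : ℝ} (hσ : σ ≤ τ) (c e : V) {r : ℝ} (hr : r ∈ Icc 0 σ) :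
    Z.Dd x P σ c e r ≤ s.be (C τ - C r) * x c e := by
  have hr' : r ∈ Icc 0 τ := ⟨hr.1, hr.2.trans hσ⟩
  have h1 := hZ.Dd_mono hx hσ k.τ1 c e hr
  have h2 := hC.Dd_le hZ hx ⟨k.τ0, k.τ1⟩ c e hr'
  have h3 := mul_le_mul_of_nonneg_left (k.cb r hr') (hx.nonneg c e)
  linarith

theorem d3_le {σ : ℝ} (hσ : σ ≤ τ) (c e : V) {r : ℝ} (hr : r ∈ Icc 0 σ) :
    D3f Z x P B τ s.q s.m σ c e r
      ≤ s.be (C τ - C r) * (x c e * s.ψ (C τ - C r) (x c e)) := by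
  have hr' : r ∈ Icc 0 τ := ⟨hr.1, hr.2.trans hσ⟩
  have h1 := dd_le hs k hC hZ hx hσ c e hr
  have hm := xw_mem hx c e
  have B0 := hC.B_nonneg hr'.1 hr'.2 k.τ1
  have Bb := k.cb r hr'
  have b0 := hs.be0 _ (k.um hr')
  have qm := mul_nonneg hs.q0 hs.m0
  set b := s.be (C τ - C r) with hb
  set y := x c e with hy
  have y4 : y * (1 - y) ≤ 1 / 4 := by nlinarith [sq_nonneg (y - 1 / 2)]
  have y0 : 0 ≤ y * (1 - y) := mul_nonneg hm.1 (by linarith [hm.2])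
  have B2 : B τ r ^ 2 ≤ b ^ 2 := pow_le_pow_left₀ B0 Bb 2
  have t1 : (1 + s.q * s.m) * B τ r ^ 2 * (y ^ 2 * (1 - y))
      ≤ (1 + s.q * s.m) * b ^ 2 * (y * (1 / 4)) := by
    have a1 : y ^ 2 * (1 - y) ≤ y * (1 / 4) := by
      have := mul_le_mul_of_nonneg_left y4 hm.1
      nlinarith
    have a2 : 0 ≤ y ^ 2 * (1 - y) := mul_nonneg (sq_nonneg _) (by linarith [hm.2])
    exact mul_le_mul (mul_le_mul_of_nonneg_left B2 (by linarith)) a1 a2
      (mul_nonneg (by linarith) (sq_nonneg _))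
  have t2 : s.q * s.m * B τ r * y ^ 2 ≤ s.q * s.m * b * y ^ 2 :=
    mul_le_mul_of_nonneg_right (mul_le_mul_of_nonneg_left Bb qm) (sq_nonneg _)
  unfold D3f RCM.Us.ψ
  rw [← hy, ← hb]
  nlinarith

theorem c1_le (c e : V) {r : ℝ} (hr : r ∈ Icc 0 τ) :
    C1f Z x P τ s.q c e r ≤ s.c1 (C τ - C r) := by
  have h1 := dd_le hs k hC hZ hx le_rfl c e hr
  have hm := xw_mem hx c e
  have b0 := hs.be0 _ (k.um hr)
  have h2 : s.be (C τ - C r) * x c e ≤ s.be (C τ - C r) := mul_le_of_le_one_right b0 hm.2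
  unfold C1f RCM.Us.c1
  exact mul_le_mul_of_nonneg_left (by linarith) hs.q0

theorem c4_le (c e : V) {r : ℝ} (hr : r ∈ Icc 0 τ) :
    C4f Z x P B τ s.q c e r ≤ s.c4 (C τ - C r) := by
  have h1 := dd_le hs k hC hZ hx le_rfl c e hr
  have hm := xw_mem hx c e
  have b0 := hs.be0 _ (k.um hr)
  have Bb := k.cb r hr
  have h2 : s.be (C τ - C r) * x c e ≤ s.be (C τ - C r) := mul_le_of_le_one_right b0 hm.2
  unfold C4f RCM.Us.c4
  exact mul_le_mul_of_nonneg_left (by linarith) hs.q0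

/-- continuity of the source of the leading function -/
theorem src_cont (hD : Dok D) (σ : ℝ) (hσ : σ ≤ τ) (c e : V) (S : Finset V) :
    ContinuousOn (fun ρ => ∑ b ∈ S, K1 Z (Fz s Z x P D C τ) x P ρ e b * Z.Dd x P σ c b ρ)
      (Icc 0 σ) := by
  have cK : ∀ b, ContinuousOn (fun r => K1 Z (Fz s Z x P D C τ) x P r e b) (Icc 0 τ) := fun b =>
    Tb_cont hZ hx k.τ1 (fz_cy hs k hZ hx hD) e b
  exact continuousOn_finsetSum _ fun b _ => ((cK b).mono (Icc_subset_Icc_right hσ)).mul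
    ((hZ.Dd_cont hx σ c b).mono (Icc_subset_Icc_right (hσ.trans k.τ1)))

/-- the norm of the leading lower function -/
theorem n1_nm (hD : Dok D) {z : V} (hz : z ∈ Dᶜ) {σ : ℝ} (hσ : σ ∈ Icc 0 τ) :
    ∀ r ∈ Icc 0 σ, RCM.nm (Dᶜ.erase z) (fun e => N1 Z (Fz s Z x P D C τ) x P D σ z e r)
      ≤ s.W (C τ - C r) := by
  have σ1 : σ ∈ Icc (0 : ℝ) bt := ⟨hσ.1, hσ.2.trans k.τ1⟩
  have m : ∀ r ∈ Icc 0 σ, r ∈ Icc 0 τ := fun r hr => ⟨hr.1, hr.2.trans hσ.2⟩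
  refine RCM.nm_bk hσ.1 (fun e _ => src_cont hs k hC hZ hx hD σ hσ.2 z e _) (fun e _ r hr =>
    Finset.sum_nonneg fun b _ => mul_nonneg ((kc1 hs k hZ hx hD (m r hr)).T0 e b)
      (hZ.Dd_nonneg hx σ1 z b hr)) (W' := fun r => -(s.W' (C τ - C r) * mb r))
    (fun r hr => k.comp hs.dW (m r hr)) (fun r hr => hs.W0 _ (k.um (m r hr)))
    fun r hr => ?_
  have a0 : ∀ e, 0 ≤ (if r ∈ Icc 0 σ then Z.Dd x P σ z e r else 0) := fun e => by
    rw [if_pos hr]; exact hZ.Dd_nonneg hx σ1 z e hr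
  have h1 := (kc1 hs k hZ hx hD (m r hr)).lead hs (k.um (m r hr)) (wt_of hx) hz
    (a := fun e => Z.Dd x P σ z e r) (fun e => hZ.Dd_nonneg hx σ1 z e hr)
    (fun e _ => dd_le hs k hC hZ hx hσ.2 z e hr)
  have h2 := mul_le_mul_of_nonneg_left (hs.oW _ (k.um (m r hr))) (k.m0 (m r hr))
  refine h1.trans (h2.trans (le_of_eq ?_))
  ring

/-- the norm of the weighted sum of the leading lower functions -/
theorem n1_nmf (hD : Dok D) (hf : EPS.Fw Dᶜ (RCM.kap x D) f M) :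
    ∀ r ∈ Icc 0 τ, RCM.nm Dᶜ (fun e => ∑ c ∈ Dᶜ.erase e,
      f c * N1 Z (Fz s Z x P D C τ) x P D τ c e r) ≤ s.W (C τ - C r) * Real.sqrt M := by
  have τm : τ ∈ Icc (0 : ℝ) bt := ⟨k.τ0, k.τ1⟩
  have e1 : ∀ r ∈ Icc 0 τ, ∀ e, ∑ c ∈ Dᶜ.erase e, f c * N1 Z (Fz s Z x P D C τ) x P D τ c e r
      = RCM.bk (fun ρ => ∑ c ∈ Dᶜ.erase e, f c * ∑ b ∈ Dᶜ.erase c,
        K1 Z (Fz s Z x P D C τ) x P ρ e b * Z.Dd x P τ c b ρ) τ r := fun r hr e =>
    RCM.bk_sum _ f k.τ0 (fun c _ => src_cont hs k hC hZ hx hD τ le_rfl c e _) r hr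
  have key := RCM.nm_bk (X := Dᶜ) k.τ0 (F := fun e ρ => ∑ c ∈ Dᶜ.erase e, f c * ∑ b ∈ Dᶜ.erase c,
        K1 Z (Fz s Z x P D C τ) x P ρ e b * Z.Dd x P τ c b ρ)
    (W := fun r => s.W (C τ - C r) * Real.sqrt M)
    (W' := fun r => -(s.W' (C τ - C r) * mb r) * Real.sqrt M)
    (fun e _ => continuousOn_finsetSum _ fun c _ => continuousOn_const.mul
      (src_cont hs k hC hZ hx hD τ le_rfl c e _))
    (fun e _ r hr => Finset.sum_nonneg fun c _ => mul_nonneg (hf.f0 c)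
      (Finset.sum_nonneg fun b _ => mul_nonneg ((kc1 hs k hZ hx hD hr).T0 e b)
        (hZ.Dd_nonneg hx τm c b hr)))
    (fun r hr => (k.comp hs.dW hr).mul_const _)
    (fun r hr => mul_nonneg (hs.W0 _ (k.um hr)) (Real.sqrt_nonneg M)) (fun r hr => ?_)
  · intro r hr
    have : (fun e => ∑ c ∈ Dᶜ.erase e, f c * N1 Z (Fz s Z x P D C τ) x P D τ c e r)
        = fun e => RCM.bk (fun ρ => ∑ c ∈ Dᶜ.erase e, f c * ∑ b ∈ Dᶜ.erase c,
        K1 Z (Fz s Z x P D C τ) x P ρ e b * Z.Dd x P τ c b ρ) τ r := funext fun e => e1 r hr e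
    rw [this]
    exact key r hr
  · have K := kc1 hs k hZ hx hD hr
    have h1 := K.leadf hs (k.um hr) (wt_of hx) hf (a := fun c e => Z.Dd x P τ c e r)
      (fun c e => hZ.Dd_nonneg hx τm c e hr)
      (fun c _ e _ => dd_le hs k hC hZ hx le_rfl c e hr)
    have h2 := mul_le_mul_of_nonneg_right (mul_le_mul_of_nonneg_left (hs.oW _ (k.um hr))
      (k.m0 hr)) (Real.sqrt_nonneg M)
    refine le_trans (RCM.nm_mono (fun e _ => Finset.sum_nonneg fun c _ => mul_nonneg (hf.f0 c)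
      (Finset.sum_nonneg fun b _ => mul_nonneg (K.T0 e b) (hZ.Dd_nonneg hx τm c b hr)))
      fun e _ => ?_) (h1.trans (h2.trans (le_of_eq (by ring))))
    exact RCM.sum_swap (U := Dᶜ) (e := e) hf.f0 (q := fun b => K1 Z (Fz s Z x P D C τ) x P r e b)
      (fun b => K.T0 e b) (a := fun c b => Z.Dd x P τ c b r)
      (fun c b => hZ.Dd_nonneg hx τm c b hr)

end

end Pool.Agent.RX.RCN.K
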