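import Pool.Agent.RX.RCM.L2b

/-! Euclidean norms of the tail systems, with sharp bounds of the sources (MP_73ccd0_lc, route M,
density errors). -/

namespace Pool.Agent.RX.RCM

open Set Finset Pool.Agent.RX.RCRSHalf Pool.Agent.RX.RCG

set_option linter.unusedSectionVars false

variable {V : Type*} [Fintype V] [DecidableEq V]

/-- scalar conditions: `l` norm of the kernel, `q` row plus norm, `Gp`, `Gs` norms of level 1/2,
`W` norm of the leading lower function, `dq` the source operator -/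
structure Sq (t : ℝ) (l q Gp Gs W dq c1 c4 Vv Vv' Uu Uu' : ℝ → ℝ) : Prop where
  dV : ∀ r ∈ Icc 0 t, HasDerivAt Vv (Vv' r) r
  dU : ∀ r ∈ Icc 0 t, HasDerivAt Uu (Uu' r) r
  V0 : ∀ r ∈ Icc 0 t, 0 ≤ Vv r
  U0 : ∀ r ∈ Icc 0 t, 0 ≤ Uu r
  oV : ∀ r ∈ Icc 0 t, (l r + q r * Gs r) * (W r + Uu r) + Gp r * (dq r + q r * c4 r * Vv r)
    ≤ -Vv' r
  oU : ∀ r ∈ Icc 0 t, l r * (c1 r * Vv r) + q r * Gp r * (W r + Uu r)
    + Gs r * (dq r + q r * c4 r * Vv r) ≤ -Uu' r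

theorem Sq.mono {t t' : ℝ} {l q Gp Gs W dq c1 c4 Vv Vv' Uu Uu' : ℝ → ℝ}
    (h : Sq t l q Gp Gs W dq c1 c4 Vv Vv' Uu Uu') (ht : t' ≤ t) :
    Sq t' l q Gp Gs W dq c1 c4 Vv Vv' Uu Uu' := by
  have m : ∀ r ∈ Icc 0 t', r ∈ Icc 0 t := fun r hr => ⟨hr.1, hr.2.trans ht⟩
  exact ⟨fun r hr => h.dV r (m r hr), fun r hr => h.dU r (m r hr), fun r hr => h.V0 r (m r hr),
    fun r hr => h.U0 r (m r hr), fun r hr => h.oV r (m r hr), fun r hr => h.oU r (m r hr)⟩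

/-- multiples -/
theorem Sq.smul {t : ℝ} {l q Gp Gs W dq c1 c4 Vv Vv' Uu Uu' : ℝ → ℝ}
    (h : Sq t l q Gp Gs W dq c1 c4 Vv Vv' Uu Uu') {k : ℝ} (k0 : 0 ≤ k) :
    Sq t l q Gp Gs (fun r => W r * k) (fun r => dq r * k) c1 c4 (fun r => Vv r * k)
      (fun r => Vv' r * k) (fun r => Uu r * k) (fun r => Uu' r * k) := by
  refine ⟨fun r hr => (h.dV r hr).mul_const k, fun r hr => (h.dU r hr).mul_const k,
    fun r hr => mul_nonneg (h.V0 r hr) k0, fun r hr => mul_nonneg (h.U0 r hr) k0,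
    fun r hr => ?_, fun r hr => ?_⟩
  · have := mul_le_mul_of_nonneg_right (h.oV r hr) k0
    refine le_trans (le_of_eq ?_) (this.trans (le_of_eq ?_)) <;> ring
  · have := mul_le_mul_of_nonneg_right (h.oU r hr) k0
    refine le_trans (le_of_eq ?_) (this.trans (le_of_eq ?_)) <;> ring

/-- the source operator, tested with the rows of a kernel -/
theorem Qo_testD {X : Finset V} {T G : V → V → ℝ} {γ dq : ℝ} (γ0 : 0 ≤ γ) (dq0 : 0 ≤ dq)
    (G0 : ∀ x y, 0 ≤ G x y) (hG : Op X G γ) {a : V → ℝ}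
    (ha : ∀ g : V → ℝ, (∀ e ∈ X, 0 ≤ g e) → Qo X T g a ≤ dq * nm X g)
    {w : V → ℝ} (w0 : ∀ x ∈ X, 0 ≤ w x) :
    ∑ e ∈ X, w e * Qo X T (G e) a ≤ γ * dq * nm X w := by
  rw [Qo_sum1]
  have h1 := ha (fun x => ∑ e ∈ X, w e * G e x)
    (fun x _ => Finset.sum_nonneg fun e he => mul_nonneg (w0 e he) (G0 e x))
  have h2 := hG.nm_le G0 γ0 w0
  have h3 := mul_le_mul_of_nonneg_left h2 dq0
  linarith

/-- **norms of the tails for a fixed target** -/
theorem tail_q {X : Finset V} {t : ℝ} {T : ℝ → V → V → ℝ}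
    {D n1 p n : V → ℝ → ℝ} {gp gs : V → V → ℝ → ℝ} {k1 k4 : V → ℝ → ℝ} {c1 c4 : ℝ → ℝ}
    (hl : Tl X t T D n1 gp gs k1 k4 p n)
    (T0 : ∀ r ∈ Icc 0 t, ∀ i j, 0 ≤ T r i j)
    (n10 : ∀ i, ∀ r ∈ Icc 0 t, 0 ≤ n1 i r)
    (gp0 : ∀ i j, ∀ r ∈ Icc 0 t, 0 ≤ gp i j r) (gs0 : ∀ i j, ∀ r ∈ Icc 0 t, 0 ≤ gs i j r)
    (h1 : ∀ b ∈ X, ∀ r ∈ Icc 0 t, k1 b r ≤ c1 r) (h4 : ∀ b ∈ X, ∀ r ∈ Icc 0 t, k4 b r ≤ c4 r)
    (c10 : ∀ r ∈ Icc 0 t, 0 ≤ c1 r) (c40 : ∀ r ∈ Icc 0 t, 0 ≤ c4 r)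
    {lam Rb Gs Gp W dq Vv Vv' Uu Uu' : ℝ → ℝ}
    (lam0 : ∀ r ∈ Icc 0 t, 0 ≤ lam r) (Rb0 : ∀ r ∈ Icc 0 t, 0 ≤ Rb r)
    (Gs0 : ∀ r ∈ Icc 0 t, 0 ≤ Gs r) (Gp0 : ∀ r ∈ Icc 0 t, 0 ≤ Gp r)
    (dq0 : ∀ r ∈ Icc 0 t, 0 ≤ dq r)
    (cl : ContinuousOn lam (Icc 0 t)) (cR : ContinuousOn Rb (Icc 0 t))
    (cGs : ContinuousOn Gs (Icc 0 t)) (cGp : ContinuousOn Gp (Icc 0 t))
    (cc1 : ContinuousOn c1 (Icc 0 t)) (cc4 : ContinuousOn c4 (Icc 0 t))
    (hT : ∀ r ∈ Icc 0 t, Op X (T r) (lam r))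
    (hR : ∀ r ∈ Icc 0 t, ∀ e ∈ X, ∑ b ∈ X, T r e b ≤ Rb r)
    (hs : ∀ r ∈ Icc 0 t, Op X (fun e x => gs e x r) (Gs r))
    (hp : ∀ r ∈ Icc 0 t, Op X (fun e x => gp e x r) (Gp r))
    (hW : ∀ r ∈ Icc 0 t, nm X (fun e => n1 e r) ≤ W r)
    (hD : ∀ r ∈ Icc 0 t, ∀ g : V → ℝ, (∀ e ∈ X, 0 ≤ g e) →
      Qo X (T r) g (fun e => D e r) ≤ dq r * nm X g)
    (hsc : Sq t lam (fun r => Rb r + lam r) Gp Gs W dq c1 c4 Vv Vv' Uu Uu')
    (ep : nm X (fun e => p e t) ≤ Vv t) (en : nm X (fun e => n e t) ≤ Uu t) :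
    ∀ r ∈ Icc 0 t, nm X (fun e => p e r) ≤ Vv r ∧ nm X (fun e => n e r) ≤ Uu r := by
  have RL : ∀ r ∈ Icc 0 t, 0 ≤ Rb r + lam r := fun r hr => add_nonneg (Rb0 r hr) (lam0 r hr)
  obtain ⟨p', n', ht⟩ := hl.toTu (D' := D) (E := fun _ _ => 0) (C1 := c1) (C4 := c4) T0 gp0 gs0
    (fun b hb r hr => by
      rw [zero_add]; exact mul_le_mul_of_nonneg_right (h1 b hb r hr) (hl.p0 b r hr))
    (fun b hb r hr => add_le_add le_rfl
      (mul_le_mul_of_nonneg_right (h4 b hb r hr) (hl.p0 b r hr)))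
  have cL11 : ContinuousOn (fun r => Gp r * ((Rb r + lam r) * c4 r)) (Icc 0 t) :=
    cGp.mul ((cR.add cl).mul cc4)
  have cL12 : ContinuousOn (fun r => lam r + (Rb r + lam r) * Gs r) (Icc 0 t) :=
    cl.add ((cR.add cl).mul cGs)
  have cL21 : ContinuousOn (fun r => lam r * c1 r + Gs r * ((Rb r + lam r) * c4 r)) (Icc 0 t) :=
    (cl.mul cc1).add (cGs.mul ((cR.add cl).mul cc4))
  have cL22 : ContinuousOn (fun r => (Rb r + lam r) * Gp r) (Icc 0 t) := (cR.add cl).mul cGp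
  obtain ⟨C1, hC1⟩ := isCompact_Icc.exists_bound_of_continuousOn (cL11.add cL12)
  obtain ⟨C2, hC2⟩ := isCompact_Icc.exists_bound_of_continuousOn (cL21.add cL22)
  have na : ∀ r ∈ Icc 0 t, nm X (fun x => n1 x r + n x r) ≤ W r + nm X (fun x => n x r) :=
    fun r hr => (nm_add_le X _ _).trans (by linarith [hW r hr])
  have np : ∀ r ∈ Icc 0 t, nm X (fun x => c4 r * p x r) = c4 r * nm X (fun x => p x r) :=
    fun r hr => nm_smul X (c40 r hr) _
  have n1p : ∀ r ∈ Icc 0 t, nm X (fun x => c1 r * p x r) = c1 r * nm X (fun x => p x r) :=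
    fun r hr => nm_smul X (c10 r hr) _
  refine l2_two (L := max C1 C2)
    (L11 := fun r => Gp r * ((Rb r + lam r) * c4 r)) (L12 := fun r => lam r + (Rb r + lam r) * Gs r)
    (L21 := fun r => lam r * c1 r + Gs r * ((Rb r + lam r) * c4 r))
    (L22 := fun r => (Rb r + lam r) * Gp r)
    (S1 := fun r => (lam r + (Rb r + lam r) * Gs r) * W r + Gp r * dq r)
    (S2 := fun r => (Rb r + lam r) * Gp r * W r + Gs r * dq r)
    (fun e he r hr => ht.dp e he r hr) (fun e he r hr => ht.dn e he r hr)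
    (fun e _ r hr => ht.p0 e r hr) (fun e _ r hr => ht.n0 e r hr) hsc.dV hsc.dU hsc.V0 hsc.U0
    (fun r hr => mul_nonneg (Gp0 r hr) (mul_nonneg (RL r hr) (c40 r hr)))
    (fun r hr => add_nonneg (lam0 r hr) (mul_nonneg (RL r hr) (Gs0 r hr)))
    (fun r hr => add_nonneg (mul_nonneg (lam0 r hr) (c10 r hr))
      (mul_nonneg (Gs0 r hr) (mul_nonneg (RL r hr) (c40 r hr))))
    (fun r hr => mul_nonneg (RL r hr) (Gp0 r hr))
    (fun r hr => ⟨((le_abs_self _).trans (hC1 r hr)).trans (le_max_left _ _),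
      ((le_abs_self _).trans (hC2 r hr)).trans (le_max_right _ _)⟩)
    ?_ ?_ (fun r hr => ?_) (fun r hr => ?_) ep en
  · intro r hr w w0
    have a0 : ∀ x ∈ X, 0 ≤ n1 x r + n x r := fun x _ => add_nonneg (n10 x r hr) (ht.n0 x r hr)
    have t1 := hT r hr w (fun x => n1 x r + n x r) w0 a0
    have t2 := Qo_test (T0 r hr) (lam0 r hr) (Gs0 r hr) (Rb0 r hr) (hT r hr) (hR r hr)
      (fun x y => gs0 x y r hr) (hs r hr) w0 a0
    have t3 := Qo_testD (T := T r) (Gp0 r hr) (dq0 r hr) (fun x y => gp0 x y r hr) (hp r hr)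
      (hD r hr) w0
    have t4 := Qo_test (T0 r hr) (lam0 r hr) (Gp0 r hr) (Rb0 r hr) (hT r hr) (hR r hr)
      (fun x y => gp0 x y r hr) (hp r hr) w0 (a := fun x => c4 r * p x r)
      (fun x _ => mul_nonneg (c40 r hr) (ht.p0 x r hr))
    rw [np r hr] at t4
    have e1 : ∑ e ∈ X, w e * -p' e r
        ≤ ∑ e ∈ X, w e * ∑ b ∈ X, T r e b * (n1 b r + n b r)
          + ∑ e ∈ X, w e * Qo X (T r) (fun x => gs e x r) (fun x => n1 x r + n x r)
          + ∑ e ∈ X, w e * Qo X (T r) (fun x => gp e x r) (fun x => D x r)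
          + ∑ e ∈ X, w e * Qo X (T r) (fun x => gp e x r) (fun x => c4 r * p x r) := by
      rw [← Finset.sum_add_distrib, ← Finset.sum_add_distrib, ← Finset.sum_add_distrib]
      refine Finset.sum_le_sum fun e he => ?_
      have h := ht.op e he r hr
      rw [Qo_add X (T r) (fun x => gp e x r) (fun x => D x r) (fun x => c4 r * p x r)] at h
      have := mul_le_mul_of_nonneg_left h (w0 e he)
      linarith
    refine e1.trans ?_
    have nw := nm_nonneg X w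
    have u1 := mul_le_mul_of_nonneg_left (mul_le_mul_of_nonneg_left (na r hr) nw)
      (add_nonneg (lam0 r hr) (mul_nonneg (RL r hr) (Gs0 r hr)))
    nlinarith
  · intro r hr w w0
    have a0 : ∀ x ∈ X, 0 ≤ n1 x r + n x r := fun x _ => add_nonneg (n10 x r hr) (ht.n0 x r hr)
    have t1 := hT r hr w (fun x => c1 r * p x r) w0 (fun x _ =>
      mul_nonneg (c10 r hr) (ht.p0 x r hr))
    rw [n1p r hr] at t1
    have t2 := Qo_test (T0 r hr) (lam0 r hr) (Gp0 r hr) (Rb0 r hr) (hT r hr) (hR r hr)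
      (fun x y => gp0 x y r hr) (hp r hr) w0 a0
    have t3 := Qo_testD (T := T r) (Gs0 r hr) (dq0 r hr) (fun x y => gs0 x y r hr) (hs r hr)
      (hD r hr) w0
    have t4 := Qo_test (T0 r hr) (lam0 r hr) (Gs0 r hr) (Rb0 r hr) (hT r hr) (hR r hr)
      (fun x y => gs0 x y r hr) (hs r hr) w0 (a := fun x => c4 r * p x r)
      (fun x _ => mul_nonneg (c40 r hr) (ht.p0 x r hr))
    rw [np r hr] at t4
    have e1 : ∑ e ∈ X, w e * -n' e r
        ≤ ∑ e ∈ X, w e * ∑ b ∈ X, T r e b * (c1 r * p b r)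
          + ∑ e ∈ X, w e * Qo X (T r) (fun x => gp e x r) (fun x => n1 x r + n x r)
          + ∑ e ∈ X, w e * Qo X (T r) (fun x => gs e x r) (fun x => D x r)
          + ∑ e ∈ X, w e * Qo X (T r) (fun x => gs e x r) (fun x => c4 r * p x r) := by
      rw [← Finset.sum_add_distrib, ← Finset.sum_add_distrib, ← Finset.sum_add_distrib]
      refine Finset.sum_le_sum fun e he => ?_
      have h := ht.on e he r hr
      rw [Qo_add X (T r) (fun x => gs e x r) (fun x => D x r) (fun x => c4 r * p x r)] at h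
      simp only [zero_add] at h
      have := mul_le_mul_of_nonneg_left h (w0 e he)
      linarith
    refine e1.trans ?_
    have nw := nm_nonneg X w
    have u1 := mul_le_mul_of_nonneg_left (mul_le_mul_of_nonneg_left (na r hr) nw)
      (mul_nonneg (RL r hr) (Gp0 r hr))
    nlinarith
  · have := hsc.oV r hr
    linarith
  · have := hsc.oU r hr
    linarith

/-- **norms of the weighted sums of the tails over the targets** -/
theorem tail_sum_q {U : Finset V} {t : ℝ} {T : ℝ → V → V → ℝ}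
    {D n1 p n : V → V → ℝ → ℝ} {gp gs : V → V → ℝ → ℝ} {k1 k4 : V → V → ℝ → ℝ} {c1 c4 : ℝ → ℝ}
    (hl : ∀ c ∈ U, Tl (U.erase c) t T (D c) (n1 c) gp gs (k1 c) (k4 c) (p c) (n c))
    (T0 : ∀ r ∈ Icc 0 t, ∀ i j, 0 ≤ T r i j)
    (D0 : ∀ c i, ∀ r ∈ Icc 0 t, 0 ≤ D c i r) (n10 : ∀ c i, ∀ r ∈ Icc 0 t, 0 ≤ n1 c i r)
    (gp0 : ∀ i j, ∀ r ∈ Icc 0 t, 0 ≤ gp i j r) (gs0 : ∀ i j, ∀ r ∈ Icc 0 t, 0 ≤ gs i j r)
    (h1 : ∀ c ∈ U, ∀ b ∈ U.erase c, ∀ r ∈ Icc 0 t, k1 c b r ≤ c1 r)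
    (h4 : ∀ c ∈ U, ∀ b ∈ U.erase c, ∀ r ∈ Icc 0 t, k4 c b r ≤ c4 r)
    (c10 : ∀ r ∈ Icc 0 t, 0 ≤ c1 r) (c40 : ∀ r ∈ Icc 0 t, 0 ≤ c4 r)
    {f : V → ℝ} (f0 : ∀ c, 0 ≤ f c) {lam Rb Gs Gp W dq Vv Vv' Uu Uu' : ℝ → ℝ}
    (lam0 : ∀ r ∈ Icc 0 t, 0 ≤ lam r) (Rb0 : ∀ r ∈ Icc 0 t, 0 ≤ Rb r)
    (Gs0 : ∀ r ∈ Icc 0 t, 0 ≤ Gs r) (Gp0 : ∀ r ∈ Icc 0 t, 0 ≤ Gp r)
    (dq0 : ∀ r ∈ Icc 0 t, 0 ≤ dq r)
    (cl : ContinuousOn lam (Icc 0 t)) (cR : ContinuousOn Rb (Icc 0 t))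
    (cGs : ContinuousOn Gs (Icc 0 t)) (cGp : ContinuousOn Gp (Icc 0 t))
    (cc1 : ContinuousOn c1 (Icc 0 t)) (cc4 : ContinuousOn c4 (Icc 0 t))
    (hT : ∀ r ∈ Icc 0 t, Op U (T r) (lam r))
    (hR : ∀ r ∈ Icc 0 t, ∀ e ∈ U, ∑ b ∈ U, T r e b ≤ Rb r)
    (hs : ∀ r ∈ Icc 0 t, Op U (fun e x => gs e x r) (Gs r))
    (hp : ∀ r ∈ Icc 0 t, Op U (fun e x => gp e x r) (Gp r))
    (hW : ∀ r ∈ Icc 0 t, nm U (fun e => ∑ c ∈ U.erase e, f c * n1 c e r) ≤ W r)
    (hD : ∀ r ∈ Icc 0 t, ∀ g : V → ℝ, (∀ e ∈ U, 0 ≤ g e) →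
      Qo U (T r) g (fun e => ∑ c ∈ U.erase e, f c * D c e r) ≤ dq r * nm U g)
    (hsc : Sq t lam (fun r => Rb r + lam r) Gp Gs W dq c1 c4 Vv Vv' Uu Uu')
    (ep : nm U (fun e => ∑ c ∈ U.erase e, f c * p c e t) ≤ Vv t)
    (en : nm U (fun e => ∑ c ∈ U.erase e, f c * n c e t) ≤ Uu t) :
    ∀ r ∈ Icc 0 t, nm U (fun e => ∑ c ∈ U.erase e, f c * p c e r) ≤ Vv r ∧
      nm U (fun e => ∑ c ∈ U.erase e, f c * n c e r) ≤ Uu r := by
  have RL : ∀ r ∈ Icc 0 t, 0 ≤ Rb r + lam r := fun r hr => add_nonneg (Rb0 r hr) (lam0 r hr)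
  have hu : ∀ c, ∃ p' n', c ∈ U → Tu (U.erase c) t T (D c) (fun _ _ => 0) (n1 c) gp gs c1 c4
      (p c) p' (n c) n' := by
    intro c
    by_cases hc : c ∈ U
    · obtain ⟨p', n', h⟩ := (hl c hc).toTu (D' := D c) (E := fun _ _ => 0) (C1 := c1) (C4 := c4)
        T0 gp0 gs0 (fun b hb r hr => by
          rw [zero_add]; exact mul_le_mul_of_nonneg_right (h1 c hc b hb r hr) ((hl c hc).p0 b r hr))
        (fun b hb r hr => add_le_add le_rfl
          (mul_le_mul_of_nonneg_right (h4 c hc b hb r hr) ((hl c hc).p0 b r hr)))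
      exact ⟨p', n', fun _ => h⟩
    · exact ⟨fun _ _ => 0, fun _ _ => 0, fun h => absurd h hc⟩
  choose p' n' hu using hu
  have cL11 : ContinuousOn (fun r => Gp r * ((Rb r + lam r) * c4 r)) (Icc 0 t) :=
    cGp.mul ((cR.add cl).mul cc4)
  have cL12 : ContinuousOn (fun r => lam r + (Rb r + lam r) * Gs r) (Icc 0 t) :=
    cl.add ((cR.add cl).mul cGs)
  have cL21 : ContinuousOn (fun r => lam r * c1 r + Gs r * ((Rb r + lam r) * c4 r)) (Icc 0 t) :=
    (cl.mul cc1).add (cGs.mul ((cR.add cl).mul cc4))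
  have cL22 : ContinuousOn (fun r => (Rb r + lam r) * Gp r) (Icc 0 t) := (cR.add cl).mul cGp
  obtain ⟨C1, hC1⟩ := isCompact_Icc.exists_bound_of_continuousOn (cL11.add cL12)
  obtain ⟨C2, hC2⟩ := isCompact_Icc.exists_bound_of_continuousOn (cL21.add cL22)
  -- zero extension in the target
  let pp : V → V → ℝ → ℝ := fun c z r => if c ∈ U then p c z r else 0
  let nn : V → V → ℝ → ℝ := fun c z r => if c ∈ U then n c z r else 0
  have pp0 : ∀ c z, ∀ r ∈ Icc 0 t, 0 ≤ pp c z r := fun c z r hr => by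
    simp only [pp]; split_ifs with hc
    · exact (hl c hc).p0 z r hr
    · exact le_rfl
  have nn0 : ∀ c z, ∀ r ∈ Icc 0 t, 0 ≤ nn c z r := fun c z r hr => by
    simp only [nn]; split_ifs with hc
    · exact (hl c hc).n0 z r hr
    · exact le_rfl
  have pe : ∀ c ∈ U, ∀ z r, p c z r = pp c z r := fun c hc z r => by simp [pp, hc]
  have ne : ∀ c ∈ U, ∀ z r, n c z r = nn c z r := fun c hc z r => by simp [nn, hc]
  have Fs : ∀ (a b : V → V → ℝ), (∀ c ∈ U, ∀ z, a c z = b c z) → ∀ e,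
      ∑ c ∈ U.erase e, f c * a c e = ∑ c ∈ U.erase e, f c * b c e := fun a b h e =>
    Finset.sum_congr rfl fun c hc => by rw [h c (Finset.mem_of_mem_erase hc)]
  have S0 : ∀ {a : V → V → ℝ}, (∀ c z, 0 ≤ a c z) → ∀ x, 0 ≤ ∑ c ∈ U.erase x, f c * a c x :=
    fun ha x => Finset.sum_nonneg fun c _ => mul_nonneg (f0 c) (ha c x)
  -- the sources
  have a0 : ∀ r ∈ Icc 0 t, ∀ c z, 0 ≤ n1 c z r + nn c z r := fun r hr c z =>
    add_nonneg (n10 c z r hr) (nn0 c z r hr)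
  have na : ∀ r ∈ Icc 0 t, nm U (fun x => ∑ c ∈ U.erase x, f c * (n1 c x r + nn c x r))
      ≤ W r + nm U (fun x => ∑ c ∈ U.erase x, f c * n c x r) := fun r hr => by
    have e1 : (fun x => ∑ c ∈ U.erase x, f c * (n1 c x r + nn c x r))
        = fun x => ∑ c ∈ U.erase x, f c * n1 c x r + ∑ c ∈ U.erase x, f c * n c x r := by
      funext x
      rw [Fs (fun c z => n c z r) (fun c z => nn c z r) (fun c hc z => ne c hc z r),
        ← Finset.sum_add_distrib]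
      exact Finset.sum_congr rfl fun c _ => by ring
    rw [e1]
    exact (nm_add_le U _ _).trans (by linarith [hW r hr])
  have sp : ∀ r k, (fun x => ∑ c ∈ U.erase x, f c * (k * pp c x r))
      = fun x => k * ∑ c ∈ U.erase x, f c * p c x r := fun r k => by
    funext x
    rw [Fs (fun c z => p c z r) (fun c z => pp c z r) (fun c hc z => pe c hc z r),
      Finset.mul_sum]
    exact Finset.sum_congr rfl fun c _ => by ring
  have sD : ∀ r, (fun x => ∑ c ∈ U.erase x, f c * (D c x r + c4 r * pp c x r))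
      = fun x => ∑ c ∈ U.erase x, f c * D c x r
        + c4 r * ∑ c ∈ U.erase x, f c * p c x r := fun r => by
    have h := sp r (c4 r)
    funext x
    have h' := congrFun h x
    rw [← h', ← Finset.sum_add_distrib]
    exact Finset.sum_congr rfl fun c _ => by ring
  have P0 : ∀ r ∈ Icc 0 t, ∀ x, 0 ≤ ∑ c ∈ U.erase x, f c * p c x r := fun r hr x =>
    Finset.sum_nonneg fun c hc => mul_nonneg (f0 c) ((hl c (Finset.mem_of_mem_erase hc)).p0 x r hr)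
  have b0 : ∀ r ∈ Icc 0 t, ∀ c z, 0 ≤ D c z r + c4 r * pp c z r := fun r hr c z =>
    add_nonneg (D0 c z r hr) (mul_nonneg (c40 r hr) (pp0 c z r hr))
  -- the pair operator with the rows of a kernel
  have tD : ∀ r ∈ Icc 0 t, ∀ (G : V → V → ℝ) (γ : ℝ), 0 ≤ γ → (∀ x y, 0 ≤ G x y) → Op U G γ →
      ∀ w : V → ℝ, (∀ e ∈ U, 0 ≤ w e) →
      ∑ e ∈ U, w e * Qo U (T r) (G e) (fun x => ∑ c ∈ U.erase x, f c * (D c x r + c4 r * pp c x r))
      ≤ γ * (dq r + (Rb r + lam r) * c4 r * nm U (fun x => ∑ c ∈ U.erase x, f c * p c x r))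
        * nm U w := by
    intro r hr G γ γ0 G0 hG w w0
    have t3 := Qo_testD (T := T r) γ0 (dq0 r hr) G0 hG (hD r hr) w0
    have t4 := Qo_test (T0 r hr) (lam0 r hr) γ0 (Rb0 r hr) (hT r hr) (hR r hr) G0 hG w0
      (a := fun x => c4 r * ∑ c ∈ U.erase x, f c * p c x r)
      (fun x _ => mul_nonneg (c40 r hr) (P0 r hr x))
    rw [nm_smul U (c40 r hr)] at t4
    have e1 : ∑ e ∈ U, w e * Qo U (T r) (G e) (fun x => ∑ c ∈ U.erase x,
          f c * (D c x r + c4 r * pp c x r))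
        = ∑ e ∈ U, w e * Qo U (T r) (G e) (fun x => ∑ c ∈ U.erase x, f c * D c x r)
          + ∑ e ∈ U, w e * Qo U (T r) (G e)
            (fun x => c4 r * ∑ c ∈ U.erase x, f c * p c x r) := by
      rw [← Finset.sum_add_distrib]
      refine Finset.sum_congr rfl fun e _ => ?_
      rw [sD r, Qo_add U (T r) (G e) (fun x => ∑ c ∈ U.erase x, f c * D c x r)
        (fun x => c4 r * ∑ c ∈ U.erase x, f c * p c x r)]
      ring
    rw [e1]
    linarith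
  refine l2_two (L := max C1 C2)
    (p' := fun e r => ∑ c ∈ U.erase e, f c * p' c e r)
    (n' := fun e r => ∑ c ∈ U.erase e, f c * n' c e r)
    (L11 := fun r => Gp r * ((Rb r + lam r) * c4 r)) (L12 := fun r => lam r + (Rb r + lam r) * Gs r)
    (L21 := fun r => lam r * c1 r + Gs r * ((Rb r + lam r) * c4 r))
    (L22 := fun r => (Rb r + lam r) * Gp r)
    (S1 := fun r => (lam r + (Rb r + lam r) * Gs r) * W r + Gp r * dq r)
    (S2 := fun r => (Rb r + lam r) * Gp r * W r + Gs r * dq r)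
    (fun e he r hr => HasDerivAt.fun_sum fun c hc => ((hu c (Finset.mem_of_mem_erase hc)).dp e
      (Finset.mem_erase.2 ⟨(Finset.ne_of_mem_erase hc).symm, he⟩) r hr).const_mul (f c))
    (fun e he r hr => HasDerivAt.fun_sum fun c hc => ((hu c (Finset.mem_of_mem_erase hc)).dn e
      (Finset.mem_erase.2 ⟨(Finset.ne_of_mem_erase hc).symm, he⟩) r hr).const_mul (f c))
    (fun e _ r hr => Finset.sum_nonneg fun c hc => mul_nonneg (f0 c)
      ((hl c (Finset.mem_of_mem_erase hc)).p0 e r hr))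
    (fun e _ r hr => Finset.sum_nonneg fun c hc => mul_nonneg (f0 c)
      ((hl c (Finset.mem_of_mem_erase hc)).n0 e r hr)) hsc.dV hsc.dU hsc.V0 hsc.U0
    (fun r hr => mul_nonneg (Gp0 r hr) (mul_nonneg (RL r hr) (c40 r hr)))
    (fun r hr => add_nonneg (lam0 r hr) (mul_nonneg (RL r hr) (Gs0 r hr)))
    (fun r hr => add_nonneg (mul_nonneg (lam0 r hr) (c10 r hr))
      (mul_nonneg (Gs0 r hr) (mul_nonneg (RL r hr) (c40 r hr))))
    (fun r hr => mul_nonneg (RL r hr) (Gp0 r hr))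
    (fun r hr => ⟨((le_abs_self _).trans (hC1 r hr)).trans (le_max_left _ _),
      ((le_abs_self _).trans (hC2 r hr)).trans (le_max_right _ _)⟩)
    ?_ ?_ (fun r hr => ?_) (fun r hr => ?_) ep en
  · intro r hr w w0
    have t1 := hT r hr w (fun x => ∑ c ∈ U.erase x, f c * (n1 c x r + nn c x r)) w0
      (fun x _ => S0 (a0 r hr) x)
    have t2 := Qo_test (T0 r hr) (lam0 r hr) (Gs0 r hr) (Rb0 r hr) (hT r hr) (hR r hr)
      (fun x y => gs0 x y r hr) (hs r hr) w0 (a := fun x => ∑ c ∈ U.erase x,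
        f c * (n1 c x r + nn c x r)) (fun x _ => S0 (a0 r hr) x)
    have t3 := tD r hr (fun e x => gp e x r) (Gp r) (Gp0 r hr) (fun x y => gp0 x y r hr)
      (hp r hr) w w0
    have e1 : ∑ e ∈ U, w e * -∑ c ∈ U.erase e, f c * p' c e r
        ≤ ∑ e ∈ U, w e * ∑ b ∈ U, T r e b * ∑ c ∈ U.erase b, f c * (n1 c b r + nn c b r)
          + ∑ e ∈ U, w e * Qo U (T r) (fun x => gs e x r)
            (fun x => ∑ c ∈ U.erase x, f c * (n1 c x r + nn c x r))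
          + ∑ e ∈ U, w e * Qo U (T r) (fun x => gp e x r)
            (fun x => ∑ c ∈ U.erase x, f c * (D c x r + c4 r * pp c x r)) := by
      rw [← Finset.sum_add_distrib, ← Finset.sum_add_distrib]
      refine Finset.sum_le_sum fun e he => ?_
      have q1 := sum_swap (U := U) (e := e) f0 (q := fun z => T r e z) (fun z => T0 r hr e z)
        (a0 r hr)
      have q2 := Qo_swap_tg (U := U) (e := e) (T0 r hr) (g := fun x => gs e x r)
        (fun x => gs0 e x r hr) f0 (a0 r hr)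
      have q3 := Qo_swap_tg (U := U) (e := e) (T0 r hr) (g := fun x => gp e x r)
        (fun x => gp0 e x r hr) f0 (b0 r hr)
      have e2 : -∑ c ∈ U.erase e, f c * p' c e r
          ≤ ∑ c ∈ U.erase e, f c * ∑ b ∈ U.erase c, T r e b * (n1 c b r + nn c b r)
          + ∑ c ∈ U.erase e, f c * Qo (U.erase c) (T r) (fun x => gs e x r)
            (fun x => n1 c x r + nn c x r)
          + ∑ c ∈ U.erase e, f c * Qo (U.erase c) (T r) (fun x => gp e x r)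
            (fun x => D c x r + c4 r * pp c x r) := by
        rw [← Finset.sum_neg_distrib, ← Finset.sum_add_distrib, ← Finset.sum_add_distrib]
        refine Finset.sum_le_sum fun c hc => ?_
        have hc' := Finset.mem_of_mem_erase hc
        have hec : e ∈ U.erase c := Finset.mem_erase.2 ⟨(Finset.ne_of_mem_erase hc).symm, he⟩
        have g1 : (fun x => n1 c x r + n c x r) = fun x => n1 c x r + nn c x r := by
          funext x; rw [ne c hc']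
        have g2 : (fun x => D c x r + c4 r * p c x r)
            = fun x => D c x r + c4 r * pp c x r := by funext x; rw [pe c hc']
        have g3 : ∑ b ∈ U.erase c, T r e b * (n1 c b r + n c b r)
            = ∑ b ∈ U.erase c, T r e b * (n1 c b r + nn c b r) :=
          Finset.sum_congr rfl fun b _ => by rw [ne c hc']
        have g4 := mul_le_mul_of_nonneg_left ((hu c hc').op e hec r hr) (f0 c)
        rw [g1, g2, g3] at g4
        linarith
      rw [← mul_add, ← mul_add]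
      exact mul_le_mul_of_nonneg_left (e2.trans (add_le_add (add_le_add q1 q2) q3)) (w0 e he)
    refine e1.trans ?_
    have nw := nm_nonneg U w
    have u1 := mul_le_mul_of_nonneg_left (mul_le_mul_of_nonneg_left (na r hr) nw)
      (add_nonneg (lam0 r hr) (mul_nonneg (RL r hr) (Gs0 r hr)))
    nlinarith
  · intro r hr w w0
    have t1 := hT r hr w (fun x => ∑ c ∈ U.erase x, f c * (c1 r * pp c x r)) w0
      (fun x _ => S0 (fun c z => mul_nonneg (c10 r hr) (pp0 c z r hr)) x)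
    rw [sp r (c1 r), nm_smul U (c10 r hr)] at t1
    have t2 := Qo_test (T0 r hr) (lam0 r hr) (Gp0 r hr) (Rb0 r hr) (hT r hr) (hR r hr)
      (fun x y => gp0 x y r hr) (hp r hr) w0 (a := fun x => ∑ c ∈ U.erase x,
        f c * (n1 c x r + nn c x r)) (fun x _ => S0 (a0 r hr) x)
    have t3 := tD r hr (fun e x => gs e x r) (Gs r) (Gs0 r hr) (fun x y => gs0 x y r hr)
      (hs r hr) w w0
    have e1 : ∑ e ∈ U, w e * -∑ c ∈ U.erase e, f c * n' c e r
        ≤ ∑ e ∈ U, w e * ∑ b ∈ U, T r e b * ∑ c ∈ U.erase b, f c * (c1 r * pp c b r)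
          + ∑ e ∈ U, w e * Qo U (T r) (fun x => gp e x r)
            (fun x => ∑ c ∈ U.erase x, f c * (n1 c x r + nn c x r))
          + ∑ e ∈ U, w e * Qo U (T r) (fun x => gs e x r)
            (fun x => ∑ c ∈ U.erase x, f c * (D c x r + c4 r * pp c x r)) := by
      rw [← Finset.sum_add_distrib, ← Finset.sum_add_distrib]
      refine Finset.sum_le_sum fun e he => ?_
      have q1 := sum_swap (U := U) (e := e) f0 (q := fun z => T r e z) (fun z => T0 r hr e z)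
        (a := fun c z => c1 r * pp c z r) (fun c z => mul_nonneg (c10 r hr) (pp0 c z r hr))
      have q2 := Qo_swap_tg (U := U) (e := e) (T0 r hr) (g := fun x => gp e x r)
        (fun x => gp0 e x r hr) f0 (a0 r hr)
      have q3 := Qo_swap_tg (U := U) (e := e) (T0 r hr) (g := fun x => gs e x r)
        (fun x => gs0 e x r hr) f0 (b0 r hr)
      have e2 : -∑ c ∈ U.erase e, f c * n' c e r
          ≤ ∑ c ∈ U.erase e, f c * ∑ b ∈ U.erase c, T r e b * (c1 r * pp c b r)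
          + ∑ c ∈ U.erase e, f c * Qo (U.erase c) (T r) (fun x => gp e x r)
            (fun x => n1 c x r + nn c x r)
          + ∑ c ∈ U.erase e, f c * Qo (U.erase c) (T r) (fun x => gs e x r)
            (fun x => D c x r + c4 r * pp c x r) := by
        rw [← Finset.sum_neg_distrib, ← Finset.sum_add_distrib, ← Finset.sum_add_distrib]
        refine Finset.sum_le_sum fun c hc => ?_
        have hc' := Finset.mem_of_mem_erase hc
        have hec : e ∈ U.erase c := Finset.mem_erase.2 ⟨(Finset.ne_of_mem_erase hc).symm, he⟩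
        have g1 : (fun x => n1 c x r + n c x r) = fun x => n1 c x r + nn c x r := by
          funext x; rw [ne c hc']
        have g2 : (fun x => D c x r + c4 r * p c x r)
            = fun x => D c x r + c4 r * pp c x r := by funext x; rw [pe c hc']
        have g3 : ∑ b ∈ U.erase c, T r e b * (0 + c1 r * p c b r)
            = ∑ b ∈ U.erase c, T r e b * (c1 r * pp c b r) :=
          Finset.sum_congr rfl fun b _ => by rw [pe c hc', zero_add]
        have g4 := mul_le_mul_of_nonneg_left ((hu c hc').on e hec r hr) (f0 c)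
        rw [g1, g2, g3] at g4
        linarith
      rw [← mul_add, ← mul_add]
      exact mul_le_mul_of_nonneg_left (e2.trans (add_le_add (add_le_add q1 q2) q3)) (w0 e he)
    refine e1.trans ?_
    have nw := nm_nonneg U w
    have u1 := mul_le_mul_of_nonneg_left (mul_le_mul_of_nonneg_left (na r hr) nw)
      (mul_nonneg (RL r hr) (Gp0 r hr))
    nlinarith
  · have := hsc.oV r hr
    linarith
  · have := hsc.oU r hr
    linarith

/-- a tested pair operator with the rows of a kernel -/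
theorem Qo_row {X : Finset V} {T G : V → V → ℝ} (T0 : ∀ x y, 0 ≤ T x y) {l Rb γ : ℝ}
    (l0 : 0 ≤ l) (Rb0 : 0 ≤ Rb)
    (hT : Op X T l) (hR : ∀ e ∈ X, ∑ b ∈ X, T e b ≤ Rb) (G0 : ∀ x y, 0 ≤ G x y)
    {w a : V → ℝ} (w0 : ∀ x ∈ X, 0 ≤ w x) (hG : nm X (fun x => ∑ e ∈ X, w e * G e x) ≤ γ)
    (a0 : ∀ x ∈ X, 0 ≤ a x) :
    ∑ e ∈ X, w e * Qo X T (G e) a ≤ (Rb + l) * γ * nm X a := by
  rw [Qo_sum1]
  have h1 := Qo_nm T0 hT hR (g := fun x => ∑ e ∈ X, w e * G e x)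
    (fun x _ => Finset.sum_nonneg fun e he => mul_nonneg (w0 e he) (G0 e x)) a0
  have h3 := mul_le_mul_of_nonneg_right hG (nm_nonneg X a)
  have h4 := mul_le_mul_of_nonneg_left h3 (add_nonneg Rb0 l0)
  linarith

theorem Qo_rowD {X : Finset V} {T G : V → V → ℝ} {γ dq : ℝ} (dq0 : 0 ≤ dq)
    (G0 : ∀ x y, 0 ≤ G x y) {a : V → ℝ}
    (ha : ∀ g : V → ℝ, (∀ e ∈ X, 0 ≤ g e) → Qo X T g a ≤ dq * nm X g)
    {w : V → ℝ} (w0 : ∀ x ∈ X, 0 ≤ w x) (hG : nm X (fun x => ∑ e ∈ X, w e * G e x) ≤ γ) :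
    ∑ e ∈ X, w e * Qo X T (G e) a ≤ γ * dq := by
  rw [Qo_sum1]
  have h1 := ha (fun x => ∑ e ∈ X, w e * G e x)
    (fun x _ => Finset.sum_nonneg fun e he => mul_nonneg (w0 e he) (G0 e x))
  have h3 := mul_le_mul_of_nonneg_left hG dq0
  linarith

/-- **the lower function of the tails, tested** -/
theorem tail_test {X : Finset V} {t : ℝ} {T : ℝ → V → V → ℝ}
    {D n1 p n : V → ℝ → ℝ} {gp gs : V → V → ℝ → ℝ} {k1 k4 : V → ℝ → ℝ} {c1 c4 : ℝ → ℝ}
    (hl : Tl X t T D n1 gp gs k1 k4 p n)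
    (T0 : ∀ r ∈ Icc 0 t, ∀ i j, 0 ≤ T r i j) (n10 : ∀ i, ∀ r ∈ Icc 0 t, 0 ≤ n1 i r)
    (gp0 : ∀ i j, ∀ r ∈ Icc 0 t, 0 ≤ gp i j r) (gs0 : ∀ i j, ∀ r ∈ Icc 0 t, 0 ≤ gs i j r)
    (h1 : ∀ b ∈ X, ∀ r ∈ Icc 0 t, k1 b r ≤ c1 r) (h4 : ∀ b ∈ X, ∀ r ∈ Icc 0 t, k4 b r ≤ c4 r)
    (c10 : ∀ r ∈ Icc 0 t, 0 ≤ c1 r) (c40 : ∀ r ∈ Icc 0 t, 0 ≤ c4 r)
    {lam Rb W dq Vv Uu : ℝ → ℝ}
    (lam0 : ∀ r ∈ Icc 0 t, 0 ≤ lam r) (Rb0 : ∀ r ∈ Icc 0 t, 0 ≤ Rb r)
    (dq0 : ∀ r ∈ Icc 0 t, 0 ≤ dq r)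
    (hT : ∀ r ∈ Icc 0 t, Op X (T r) (lam r))
    (hR : ∀ r ∈ Icc 0 t, ∀ e ∈ X, ∑ b ∈ X, T r e b ≤ Rb r)
    (hW : ∀ r ∈ Icc 0 t, nm X (fun e => n1 e r) ≤ W r)
    (hD : ∀ r ∈ Icc 0 t, ∀ g : V → ℝ, (∀ e ∈ X, 0 ≤ g e) →
      Qo X (T r) g (fun e => D e r) ≤ dq r * nm X g)
    (hV : ∀ r ∈ Icc 0 t, nm X (fun e => p e r) ≤ Vv r)
    (hU : ∀ r ∈ Icc 0 t, nm X (fun e => n e r) ≤ Uu r)
    {φ : V → ℝ} (φ0 : ∀ e, 0 ≤ φ e) {fT Pf Sf Tt Tt' : ℝ → ℝ}
    (Pf0 : ∀ r ∈ Icc 0 t, 0 ≤ Pf r) (Sf0 : ∀ r ∈ Icc 0 t, 0 ≤ Sf r)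
    (fT0 : ∀ r ∈ Icc 0 t, 0 ≤ fT r)
    (tT : ∀ r ∈ Icc 0 t, nm X (fun b => ∑ e ∈ X, φ e * T r e b) ≤ fT r)
    (tp : ∀ r ∈ Icc 0 t, nm X (fun b => ∑ e ∈ X, φ e * gp e b r) ≤ Pf r)
    (ts : ∀ r ∈ Icc 0 t, nm X (fun b => ∑ e ∈ X, φ e * gs e b r) ≤ Sf r)
    (dTt : ∀ r ∈ Icc 0 t, HasDerivAt Tt (Tt' r) r)
    (oT : ∀ r ∈ Icc 0 t, fT r * (c1 r * Vv r) + (Rb r + lam r) * Pf r * (W r + Uu r)
      + Sf r * (dq r + (Rb r + lam r) * c4 r * Vv r) ≤ -Tt' r)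
    (e : ∑ e ∈ X, φ e * n e t ≤ Tt t) :
    ∀ r ∈ Icc 0 t, ∑ e ∈ X, φ e * n e r ≤ Tt r := by
  obtain ⟨p', n', ht⟩ := hl.toTu (D' := D) (E := fun _ _ => 0) (C1 := c1) (C4 := c4) T0 gp0 gs0
    (fun b hb r hr => by
      rw [zero_add]; exact mul_le_mul_of_nonneg_right (h1 b hb r hr) (hl.p0 b r hr))
    (fun b hb r hr => add_le_add le_rfl
      (mul_le_mul_of_nonneg_right (h4 b hb r hr) (hl.p0 b r hr)))
  have RL : ∀ r ∈ Icc 0 t, 0 ≤ Rb r + lam r := fun r hr => add_nonneg (Rb0 r hr) (lam0 r hr)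
  have key : ∀ r ∈ Icc 0 t, ∑ e ∈ X, φ e * -n' e r ≤ -Tt' r := by
    intro r hr
    refine le_trans ?_ (oT r hr)
    have a0 : ∀ x ∈ X, 0 ≤ n1 x r + n x r := fun x _ => add_nonneg (n10 x r hr) (ht.n0 x r hr)
    have na : nm X (fun x => n1 x r + n x r) ≤ W r + Uu r :=
      (nm_add_le X _ _).trans (add_le_add (hW r hr) (hU r hr))
    have np : nm X (fun x => c4 r * p x r) ≤ c4 r * Vv r := by
      rw [nm_smul X (c40 r hr)]
      exact mul_le_mul_of_nonneg_left (hV r hr) (c40 r hr)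
    have n1p : nm X (fun x => c1 r * p x r) ≤ c1 r * Vv r := by
      rw [nm_smul X (c10 r hr)]
      exact mul_le_mul_of_nonneg_left (hV r hr) (c10 r hr)
    have t1 : ∑ e ∈ X, φ e * ∑ b ∈ X, T r e b * (c1 r * p b r) ≤ fT r * (c1 r * Vv r) := by
      have e1 : ∑ e ∈ X, φ e * ∑ b ∈ X, T r e b * (c1 r * p b r)
          = ∑ b ∈ X, (∑ e ∈ X, φ e * T r e b) * (c1 r * p b r) := by
        simp only [Finset.mul_sum, Finset.sum_mul]
        rw [Finset.sum_comm]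
        exact Finset.sum_congr rfl fun _ _ => Finset.sum_congr rfl fun _ _ => by ring
      rw [e1]
      exact (ip_le X _ _).trans (mul_le_mul (tT r hr) n1p (nm_nonneg _ _) (fT0 r hr))
    have t2 := Qo_row (T0 r hr) (lam0 r hr) (Rb0 r hr) (hT r hr) (hR r hr)
      (G := fun e x => gp e x r) (fun x y => gp0 x y r hr) (fun x _ => φ0 x) (tp r hr) a0
    have t2' := mul_le_mul_of_nonneg_left na (mul_nonneg (RL r hr) (Pf0 r hr))
    have t3 := Qo_rowD (T := T r) (dq0 r hr) (G := fun e x => gs e x r)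
      (fun x y => gs0 x y r hr) (hD r hr) (fun x _ => φ0 x) (ts r hr)
    have t4 := Qo_row (T0 r hr) (lam0 r hr) (Rb0 r hr) (hT r hr) (hR r hr)
      (G := fun e x => gs e x r) (fun x y => gs0 x y r hr) (fun x _ => φ0 x) (ts r hr)
      (a := fun x => c4 r * p x r) (fun x _ => mul_nonneg (c40 r hr) (ht.p0 x r hr))
    have t4' := mul_le_mul_of_nonneg_left np (mul_nonneg (RL r hr) (Sf0 r hr))
    have e1 : ∑ e ∈ X, φ e * -n' e r
        ≤ ∑ e ∈ X, φ e * ∑ b ∈ X, T r e b * (c1 r * p b r)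
          + ∑ e ∈ X, φ e * Qo X (T r) (fun x => gp e x r) (fun x => n1 x r + n x r)
          + ∑ e ∈ X, φ e * Qo X (T r) (fun x => gs e x r) (fun x => D x r)
          + ∑ e ∈ X, φ e * Qo X (T r) (fun x => gs e x r) (fun x => c4 r * p x r) := by
      rw [← Finset.sum_add_distrib, ← Finset.sum_add_distrib, ← Finset.sum_add_distrib]
      refine Finset.sum_le_sum fun e he => ?_
      have h := ht.on e he r hr
      rw [Qo_add X (T r) (fun x => gs e x r) (fun x => D x r) (fun x => c4 r * p x r)] at h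
      simp only [zero_add] at h
      have := mul_le_mul_of_nonneg_left h (φ0 e)
      linarith
    refine e1.trans ?_
    linarith
  intro r hr
  have := nonneg_of_backward (U := fun r => Tt r - ∑ e ∈ X, φ e * n e r)
    (U' := fun r => Tt' r - ∑ e ∈ X, φ e * n' e r) (a := 0)
    (s := t) (fun r hr => (dTt r hr).sub (HasDerivAt.fun_sum fun e he =>
      (ht.dn e he r hr).const_mul (φ e))) (sub_nonneg.2 e)
    (fun r hr _ => by
      have h := key r hr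
      have h2 : ∑ e ∈ X, φ e * -n' e r = -∑ e ∈ X, φ e * n' e r := by
        rw [← Finset.sum_neg_distrib]; exact Finset.sum_congr rfl fun e _ => by ring
      rw [h2] at h
      linarith) r hr
  linarith

end Pool.Agent.RX.RCM
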