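import Pool.Agent.RX.RCM.EpD
import Pool.Agent.RX.RCM.EpE
import Pool.Agent.RX.RCM.L2c

/-! Density errors: norms of the tails in the clock variable (MP_73ccd0_lc, route M). -/

namespace Pool.Agent.RX.RCM

open Set

set_option linter.unusedSectionVars false

/-- the rate of the tested tails -/
noncomputable def Us.tt (s : Us) (u : ℝ) : ℝ :=
  s.ss u * s.sl u * (s.c1 u * s.Vv u) + (s.Rb u + s.lam u) * s.Pf u * (s.W u + s.Uu u)
    + s.Mf u * s.dT u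

namespace Us.Ok

variable {s : Us} (hs : s.Ok)
include hs

theorem cc1 : Continuous s.c1 := by
  unfold Us.c1
  exact continuous_const.mul (continuous_const.add hs.cbe)

theorem cc4 : Continuous s.c4 := by
  unfold Us.c4
  exact continuous_const.mul ((continuous_const.add hs.cbe).add (hs.cbe.div_const 4))

theorem cV : Continuous s.Vv := continuous_iff_continuousAt.2 fun u => (hs.dV u).continuousAt
theorem cU : Continuous s.Uu := continuous_iff_continuousAt.2 fun u => (hs.dU u).continuousAt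
theorem cW : Continuous s.W := continuous_iff_continuousAt.2 fun u => (hs.dW u).continuousAt
theorem cGp : Continuous s.Gp := continuous_iff_continuousAt.2 fun u => (hs.dGp u).continuousAt
theorem cGm : Continuous s.Gm := continuous_iff_continuousAt.2 fun u => (hs.dGm u).continuousAt
theorem cPf : Continuous s.Pf := continuous_iff_continuousAt.2 fun u => (hs.dPf u).continuousAt
theorem cMf : Continuous s.Mf := continuous_iff_continuousAt.2 fun u => (hs.dMf u).continuousAt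

theorem cdq : Continuous s.dq := by
  unfold Us.dq
  exact hs.cc3.mul (hs.cbe.mul (((hs.csl.mul hs.cg).div_const 2).add hs.crd))

theorem cdT : Continuous s.dT := by
  unfold Us.dT
  exact hs.cdq.add (((hs.cRb.add hs.clam).mul hs.cc4).mul hs.cV)

theorem ctt : Continuous s.tt := by
  unfold Us.tt
  exact (((hs.css.mul hs.csl).mul (hs.cc1.mul hs.cV)).add
    (((hs.cRb.add hs.clam).mul hs.cPf).mul (hs.cW.add hs.cU))).add (hs.cMf.mul hs.cdT)

theorem tt0 {u : ℝ} (hu : u ∈ Icc 0 s.U0) : 0 ≤ s.tt u := by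
  have h1 := hs.ss0 u hu
  have h2 := hs.sl0 u hu
  have h3 := hs.c10 hu
  have h4 := hs.V0 u hu
  have h5 := hs.RL hu
  have h6 := hs.Pf0 u hu
  have h7 := add_nonneg (hs.W0 u hu) (hs.Uu0 u hu)
  have h8 := hs.Mf0 u hu
  have h9 := hs.dT0 hu
  unfold Us.tt
  positivity

end Us.Ok

end Pool.Agent.RX.RCM

namespace Pool.Agent.RX.RCN.K

open Set Finset MeasureTheory Pool.Agent.RX.RCRSHalf Pool.Agent.RX.RCG Pool.Agent.RX.RCG.Ct

set_option linter.unusedSectionVars false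

variable {V : Type*} [Fintype V] [DecidableEq V]
variable {Z : Hzd} {B E1 : ℝ → ℝ → ℝ} {s : RCM.Us} {C mb : ℝ → ℝ} {τ : ℝ}
variable {x : V → V → ℝ} {P : V → Prop} [DecidablePred P] {sl : ℝ → ℝ → ℝ} {A D : Finset V}
variable {f : V → ℝ} {M : ℝ} {gp gm : V → V → ℝ → ℝ}

section

variable (hs : s.Ok) (k : Ck Z B s C mb τ)
include hs k

/-- the scalar conditions of the tails in the time variable -/
theorem sq_t : RCM.Sq τ (fun r => mb r * s.lam (C τ - C r))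
    (fun r => mb r * s.Rb (C τ - C r) + mb r * s.lam (C τ - C r))
    (fun r => s.Gp (C τ - C r)) (fun r => s.Gm (C τ - C r)) (fun r => s.W (C τ - C r))
    (fun r => mb r * s.dq (C τ - C r)) (fun r => s.c1 (C τ - C r)) (fun r => s.c4 (C τ - C r))
    (fun r => s.Vv (C τ - C r)) (fun r => -(s.Vv' (C τ - C r) * mb r))
    (fun r => s.Uu (C τ - C r)) (fun r => -(s.Uu' (C τ - C r) * mb r)) := by
  refine ⟨fun r hr => k.comp hs.dV hr, fun r hr => k.comp hs.dU hr,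
    fun r hr => hs.V0 _ (k.um hr), fun r hr => hs.Uu0 _ (k.um hr), fun r hr => ?_,
    fun r hr => ?_⟩
  · have h1 := mul_le_mul_of_nonneg_left (hs.oV _ (k.um hr)) (k.m0 hr)
    have h2 : s.dT (C τ - C r) = s.dq (C τ - C r) + (s.Rb (C τ - C r) + s.lam (C τ - C r))
      * s.c4 (C τ - C r) * s.Vv (C τ - C r) := rfl
    rw [h2] at h1
    refine le_trans (le_of_eq ?_) (h1.trans (le_of_eq ?_)) <;> ring
  · have h1 := mul_le_mul_of_nonneg_left (hs.oU _ (k.um hr)) (k.m0 hr)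
    have h2 : s.dT (C τ - C r) = s.dq (C τ - C r) + (s.Rb (C τ - C r) + s.lam (C τ - C r))
      * s.c4 (C τ - C r) * s.Vv (C τ - C r) := rfl
    rw [h2] at h1
    -- the upper function carries the factor of the kernel
    refine le_trans (le_of_eq ?_) (h1.trans (le_of_eq ?_)) <;> ring

end

/-- abbreviation: level 1/2 of the horizon -/
def Gz (s : RCM.Us) (Z : Hzd) (x : V → V → ℝ) (P : V → Prop) [DecidablePred P] (D : Finset V)
    (C mb : ℝ → ℝ) (τ : ℝ) (f : V → ℝ) (M : ℝ) (gp gm : V → V → ℝ → ℝ) : Prop :=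
  RCM.Gop Dᶜ τ (K1 Z (Fz s Z x P D C τ) x P)
      (RCM.Ab (Z.hh x P) (Fz s Z x P D C τ).y1) (RCM.Bw (Z.hh x P) (Fz s Z x P D C τ).n1) f
      (gq s C mb τ M) gp gm

theorem Gz.gp0 (hG : Gz s Z x P D C mb τ f M gp gm) (i j : V) {r : ℝ} (hr : r ∈ Icc 0 τ) :
    0 ≤ gp i j r := by
  obtain ⟨gp', gm', hg⟩ := RCM.Gop.g hG
  exact hg.gp0 i j r hr

theorem Gz.gm0 (hG : Gz s Z x P D C mb τ f M gp gm) (i j : V) {r : ℝ} (hr : r ∈ Icc 0 τ) :
    0 ≤ gm i j r := by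
  obtain ⟨gp', gm', hg⟩ := RCM.Gop.g hG
  exact hg.gm0 i j r hr

section

variable (hs : s.Ok) (k : Ck Z B s C mb τ) (hC : Z.Cf B E1) (hZ : Z.Ok sl) (hx : Wt x P 1)
  (hD : Dok D) (hG : Gz s Z x P D C mb τ f M gp gm)
include hs k hC hZ hx hD

/-- the source operator, fixed target -/
theorem src_z {z : V} (hz : z ∈ Dᶜ) {σ : ℝ} (hσ : σ ∈ Icc 0 τ) {r : ℝ} (hr : r ∈ Icc 0 σ)
    (w : V → ℝ) : RCM.Qo (Dᶜ.erase z) (K1 Z (Fz s Z x P D C τ) x P r) w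
      (fun e => D3f Z x P B τ s.q s.m σ z e r)
      ≤ mb r * s.dq (C τ - C r) * RCM.nm (Dᶜ.erase z) w := by
  have hr' : r ∈ Icc 0 τ := ⟨hr.1, hr.2.trans hσ.2⟩
  exact (kc1 hs k hZ hx hD hr').src hs (k.um hr') (wt_of hx) (hD.kap (wt_of hx)) hz
    (fun e => D3f_nonneg hC hZ hx k.τ1 hs.q0 hs.m0 hσ.2 z e hr)
    (fun e _ => d3_le hs k hC hZ hx hσ.2 z e hr) w

theorem opz {X : Finset V} (hX : X ⊆ Dᶜ) {r : ℝ} (hr : r ∈ Icc 0 τ) :
    RCM.Op X (K1 Z (Fz s Z x P D C τ) x P r) (mb r * s.lam (C τ - C r)) :=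
  ((kc1 hs k hZ hx hD hr).op hs (k.um hr) (wt_of hx)).sub hX

theorem rowz {X : Finset V} (hX : X ⊆ Dᶜ) {r : ℝ} (hr : r ∈ Icc 0 τ) :
    ∀ e ∈ X, ∑ b ∈ X, K1 Z (Fz s Z x P D C τ) x P r e b ≤ mb r * s.Rb (C τ - C r) :=
  fun e he => (Finset.sum_le_sum_of_subset_of_nonneg hX fun b _ _ =>
    (kc1 hs k hZ hx hD hr).T0 e b).trans
    (((kc1 hs k hZ hx hD hr).rz hs (k.um hr) (wt_of hx) (hD.kap (wt_of hx))).1 e (hX he))

include hG in
/-- **the tails of a fixed target** -/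
theorem tail_z {z : V} (hz : z ∈ Dᶜ) {σ : ℝ} (hσ : σ ∈ Icc 0 τ) {p n : V → ℝ → ℝ}
    (hl : Tls Z (Fz s Z x P D C τ) x P τ D gp gm B s.q s.m σ z p n)
    (ep : ∀ e ∈ Dᶜ.erase z, p e σ = 0) (en : ∀ e ∈ Dᶜ.erase z, n e σ = 0) :
    ∀ r ∈ Icc 0 σ, RCM.nm (Dᶜ.erase z) (fun e => p e r) ≤ s.Vv (C τ - C r) ∧
      RCM.nm (Dᶜ.erase z) (fun e => n e r) ≤ s.Uu (C τ - C r) := by
  have m : ∀ r ∈ Icc 0 σ, r ∈ Icc 0 τ := fun r hr => ⟨hr.1, hr.2.trans hσ.2⟩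
  have sub : Icc 0 σ ⊆ Icc 0 τ := fun r hr => m r hr
  have hE : Dᶜ.erase z ⊆ Dᶜ := Finset.erase_subset _ _
  have σ1 : σ ∈ Icc (0 : ℝ) bt := ⟨hσ.1, hσ.2.trans k.τ1⟩
  have z0 : ∀ {g : V → ℝ → ℝ}, (∀ e ∈ Dᶜ.erase z, g e σ = 0) →
      RCM.nm (Dᶜ.erase z) (fun e => g e σ) = 0 := fun {g} hg => by
    unfold RCM.nm
    rw [Finset.sum_eq_zero fun e he => by simp only [hg e he]; norm_num, Real.sqrt_zero]
  have σm : σ ∈ Icc 0 σ := ⟨hσ.1, le_rfl⟩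
  refine RCM.tail_q hl (fun r hr i j => (kc1 hs k hZ hx hD (m r hr)).T0 i j)
    (fun i r hr => N1_nonneg hZ hx σ1 z i hr) (fun i j r hr => hG.gp0 i j (m r hr))
    (fun i j r hr => hG.gm0 i j (m r hr))
    (c1 := fun r => s.c1 (C τ - C r)) (c4 := fun r => s.c4 (C τ - C r))
    (fun b _ r hr => c1_le hs k hC hZ hx z b (m r hr))
    (fun b _ r hr => c4_le hs k hC hZ hx z b (m r hr))
    (fun r hr => hs.c10 (k.um (m r hr))) (fun r hr => hs.c40 (k.um (m r hr)))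
    (lam := fun r => mb r * s.lam (C τ - C r)) (Rb := fun r => mb r * s.Rb (C τ - C r))
    (Gs := fun r => s.Gm (C τ - C r)) (Gp := fun r => s.Gp (C τ - C r))
    (W := fun r => s.W (C τ - C r)) (dq := fun r => mb r * s.dq (C τ - C r))
    (fun r hr => mul_nonneg (k.m0 (m r hr)) (hs.lam0 (k.um (m r hr))))
    (fun r hr => mul_nonneg (k.m0 (m r hr)) (hs.Rb0 (k.um (m r hr))))
    (fun r hr => hs.Gm0 _ (k.um (m r hr))) (fun r hr => hs.Gp0 _ (k.um (m r hr)))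
    (fun r hr => mul_nonneg (k.m0 (m r hr)) (hs.dq0 (k.um (m r hr))))
    ((k.cmb.mul (k.cont hs.clam)).mono sub) ((k.cmb.mul (k.cont hs.cRb)).mono sub)
    ((k.cont hs.cGm).mono sub) ((k.cont hs.cGp).mono sub)
    ((k.cont hs.cc1).mono sub) ((k.cont hs.cc4).mono sub)
    (fun r hr => opz hs k hC hZ hx hD hE (m r hr))
    (fun r hr => rowz hs k hC hZ hx hD hE (m r hr))
    (fun r hr => (RCM.Gop.om hG r (m r hr)).sub hE)
    (fun r hr => (RCM.Gop.op hG r (m r hr)).sub hE)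
    (fun r hr => n1_nm hs k hC hZ hx hD hz hσ r hr)
    (fun r hr g _ => src_z hs k hC hZ hx hD hz hσ hr g)
    ((sq_t hs k).mono hσ.2) ?_ ?_
  · rw [z0 ep]; exact hs.V0 _ (k.um (m σ σm))
  · rw [z0 en]; exact hs.Uu0 _ (k.um (m σ σm))

include hG in
/-- two tails -/
theorem tail_m {z : V} (hz : z ∈ Dᶜ) {σ : ℝ} (hσ : σ ∈ Icc 0 τ) {p n : V → ℝ → ℝ}
    (hl : Tls Z (Fz s Z x P D C τ) x P τ D gp gm B s.q s.m σ z p n)
    (ep : ∀ e ∈ Dᶜ.erase z, p e σ = 0) (en : ∀ e ∈ Dᶜ.erase z, n e σ = 0)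
    (e f : V) (hef : e ≠ f) (r : ℝ) (hr : r ∈ Icc 0 σ) : p e r + p f r ≤ s.m := by
  have h1 := (tail_z hs k hC hZ hx hD hG hz hσ hl ep en r hr).1
  have h2 := RCM.two_nm (X := Dᶜ.erase z) (p := fun e => p e r)
    (fun e he => hl.pz e he r) hef
  have h3 := hs.hm _ (k.um ⟨hr.1, hr.2.trans hσ.2⟩)
  have h4 := mul_le_mul_of_nonneg_left h1 (Real.sqrt_nonneg 2)
  exact h2.trans (h4.trans h3)

include hG in
/-- **the weighted sums of the tails over the targets** -/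
theorem tail_f (hf : EPS.Fw Dᶜ (RCM.kap x D) f M) {p n : V → V → ℝ → ℝ}
    (hl : ∀ c, Tls Z (Fz s Z x P D C τ) x P τ D gp gm B s.q s.m τ c (p c) (n c))
    (e0 : ∀ c, ∀ e ∈ Dᶜ.erase c, p c e τ = 0 ∧ n c e τ = 0) :
    ∀ r ∈ Icc 0 τ, RCM.nm Dᶜ (fun e => ∑ c ∈ Dᶜ.erase e, f c * p c e r)
        ≤ s.Vv (C τ - C r) * Real.sqrt M ∧
      RCM.nm Dᶜ (fun e => ∑ c ∈ Dᶜ.erase e, f c * n c e r)
        ≤ s.Uu (C τ - C r) * Real.sqrt M := by
  have M0 := Real.sqrt_nonneg M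
  have τm : τ ∈ Icc 0 τ := ⟨k.τ0, le_rfl⟩
  have τ1 : τ ∈ Icc (0 : ℝ) bt := ⟨k.τ0, k.τ1⟩
  have z0 : ∀ {g : V → V → ℝ → ℝ}, (∀ c, ∀ e ∈ Dᶜ.erase c, g c e τ = 0) →
      RCM.nm Dᶜ (fun e => ∑ c ∈ Dᶜ.erase e, f c * g c e τ) = 0 := fun {g} hg => by
    unfold RCM.nm
    rw [Finset.sum_eq_zero fun e he => ?_, Real.sqrt_zero]
    have h0 : ∑ c ∈ Dᶜ.erase e, f c * g c e τ = 0 := Finset.sum_eq_zero fun c hc => by
      rw [hg c e (Finset.mem_erase.2 ⟨(Finset.ne_of_mem_erase hc).symm, he⟩), mul_zero]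
    simp only [h0]
    norm_num
  have ksq := (sq_t hs k).smul M0
  refine RCM.tail_sum_q (U := Dᶜ) (D := fun c e r => D3f Z x P B τ s.q s.m τ c e r)
    (n1 := fun c e r => N1 Z (Fz s Z x P D C τ) x P D τ c e r)
    (k1 := fun c e r => C1f Z x P τ s.q c e r) (k4 := fun c e r => C4f Z x P B τ s.q c e r)
    (fun c _ => hl c) (fun r hr i j => (kc1 hs k hZ hx hD hr).T0 i j)
    (fun c i r hr => D3f_nonneg hC hZ hx k.τ1 hs.q0 hs.m0 le_rfl c i hr)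
    (fun c i r hr => N1_nonneg hZ hx τ1 c i hr) (fun i j r hr => hG.gp0 i j hr)
    (fun i j r hr => hG.gm0 i j hr)
    (c1 := fun r => s.c1 (C τ - C r)) (c4 := fun r => s.c4 (C τ - C r))
    (fun c _ b _ r hr => c1_le hs k hC hZ hx c b hr)
    (fun c _ b _ r hr => c4_le hs k hC hZ hx c b hr)
    (fun r hr => hs.c10 (k.um hr)) (fun r hr => hs.c40 (k.um hr)) (f := f) hf.f0
    (lam := fun r => mb r * s.lam (C τ - C r)) (Rb := fun r => mb r * s.Rb (C τ - C r))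
    (Gs := fun r => s.Gm (C τ - C r)) (Gp := fun r => s.Gp (C τ - C r))
    (W := fun r => s.W (C τ - C r) * Real.sqrt M)
    (dq := fun r => mb r * s.dq (C τ - C r) * Real.sqrt M)
    (fun r hr => mul_nonneg (k.m0 hr) (hs.lam0 (k.um hr)))
    (fun r hr => mul_nonneg (k.m0 hr) (hs.Rb0 (k.um hr)))
    (fun r hr => hs.Gm0 _ (k.um hr)) (fun r hr => hs.Gp0 _ (k.um hr))
    (fun r hr => mul_nonneg (mul_nonneg (k.m0 hr) (hs.dq0 (k.um hr))) M0)
    (k.cmb.mul (k.cont hs.clam)) (k.cmb.mul (k.cont hs.cRb))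
    (k.cont hs.cGm) (k.cont hs.cGp) (k.cont hs.cc1) (k.cont hs.cc4)
    (fun r hr => opz hs k hC hZ hx hD (Finset.Subset.refl _) hr)
    (fun r hr => rowz hs k hC hZ hx hD (Finset.Subset.refl _) hr)
    (fun r hr => RCM.Gop.om hG r hr) (fun r hr => RCM.Gop.op hG r hr)
    (fun r hr => n1_nmf hs k hC hZ hx hD hf r hr)
    (fun r hr g _ => ?_) ksq ?_ ?_
  · exact (kc1 hs k hZ hx hD hr).srcf hs (k.um hr) (wt_of hx) (hD.kap (wt_of hx)) hf
      (a := fun c e => D3f Z x P B τ s.q s.m τ c e r)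
      (fun c e => D3f_nonneg hC hZ hx k.τ1 hs.q0 hs.m0 le_rfl c e hr)
      (fun c _ e _ => d3_le hs k hC hZ hx le_rfl c e hr) g
  · rw [z0 fun c e he => (e0 c e he).1]
    exact mul_nonneg (hs.V0 _ (k.um τm)) M0
  · rw [z0 fun c e he => (e0 c e he).2]
    exact mul_nonneg (hs.Uu0 _ (k.um τm)) M0

include hG in
/-- **the tested tails** -/
theorem tail_t (hf : EPS.Fw Dᶜ (RCM.kap x D) f M) {z : V} (hz : z ∈ Dᶜ) {σ : ℝ}
    (hσ : σ ∈ Icc 0 τ) {p n : V → ℝ → ℝ}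
    (hl : Tls Z (Fz s Z x P D C τ) x P τ D gp gm B s.q s.m σ z p n)
    (ep : ∀ e ∈ Dᶜ.erase z, p e σ = 0) (en : ∀ e ∈ Dᶜ.erase z, n e σ = 0) :
    ∀ r ∈ Icc 0 σ, ∑ e ∈ Dᶜ.erase z, f e * n e r
      ≤ RCM.bk (fun ρ => mb ρ * s.tt (C τ - C ρ) * Real.sqrt M) σ r := by
  have m : ∀ r ∈ Icc 0 σ, r ∈ Icc 0 τ := fun r hr => ⟨hr.1, hr.2.trans hσ.2⟩
  have sub : Icc 0 σ ⊆ Icc 0 τ := fun r hr => m r hr
  have hE : Dᶜ.erase z ⊆ Dᶜ := Finset.erase_subset _ _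
  have σ1 : σ ∈ Icc (0 : ℝ) bt := ⟨hσ.1, hσ.2.trans k.τ1⟩
  have M0 := Real.sqrt_nonneg M
  have cI : ContinuousOn (fun ρ => mb ρ * s.tt (C τ - C ρ) * Real.sqrt M) (Icc 0 σ) :=
    ((k.cmb.mul (k.cont hs.ctt)).mul continuousOn_const).mono sub
  have er : ∀ {K : V → V → ℝ} (K0 : ∀ i j, 0 ≤ K i j),
      RCM.nm (Dᶜ.erase z) (fun b => ∑ e ∈ Dᶜ.erase z, f e * K e b)
        ≤ RCM.nm Dᶜ (fun b => ∑ e ∈ Dᶜ, f e * K e b) := fun {K} K0 => by
    have n0 : ∀ b, 0 ≤ ∑ e ∈ Dᶜ.erase z, f e * K e b := fun b =>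
      Finset.sum_nonneg fun e _ => mul_nonneg (hf.f0 e) (K0 e b)
    refine (RCM.nm_mono (fun b _ => n0 b) fun b _ =>
      Finset.sum_le_sum_of_subset_of_nonneg hE fun e _ _ => mul_nonneg (hf.f0 e) (K0 e b)).trans ?_
    exact Real.sqrt_le_sqrt (Finset.sum_le_sum_of_subset_of_nonneg hE fun _ _ _ => sq_nonneg _)
  have tq := tail_z hs k hC hZ hx hD hG hz hσ hl ep en
  refine RCM.tail_test hl (fun r hr i j => (kc1 hs k hZ hx hD (m r hr)).T0 i j)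
    (fun i r hr => N1_nonneg hZ hx σ1 z i hr) (fun i j r hr => hG.gp0 i j (m r hr))
    (fun i j r hr => hG.gm0 i j (m r hr))
    (c1 := fun r => s.c1 (C τ - C r)) (c4 := fun r => s.c4 (C τ - C r))
    (fun b _ r hr => c1_le hs k hC hZ hx z b (m r hr))
    (fun b _ r hr => c4_le hs k hC hZ hx z b (m r hr))
    (fun r hr => hs.c10 (k.um (m r hr))) (fun r hr => hs.c40 (k.um (m r hr)))
    (lam := fun r => mb r * s.lam (C τ - C r)) (Rb := fun r => mb r * s.Rb (C τ - C r))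
    (W := fun r => s.W (C τ - C r)) (dq := fun r => mb r * s.dq (C τ - C r))
    (Vv := fun r => s.Vv (C τ - C r)) (Uu := fun r => s.Uu (C τ - C r))
    (fun r hr => mul_nonneg (k.m0 (m r hr)) (hs.lam0 (k.um (m r hr))))
    (fun r hr => mul_nonneg (k.m0 (m r hr)) (hs.Rb0 (k.um (m r hr))))
    (fun r hr => mul_nonneg (k.m0 (m r hr)) (hs.dq0 (k.um (m r hr))))
    (fun r hr => opz hs k hC hZ hx hD hE (m r hr))
    (fun r hr => rowz hs k hC hZ hx hD hE (m r hr))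
    (fun r hr => n1_nm hs k hC hZ hx hD hz hσ r hr)
    (fun r hr g _ => src_z hs k hC hZ hx hD hz hσ hr g)
    (fun r hr => (tq r hr).1) (fun r hr => (tq r hr).2) hf.f0
    (fT := fun r => mb r * (s.ss (C τ - C r) * s.sl (C τ - C r)) * Real.sqrt M)
    (Pf := fun r => s.Pf (C τ - C r) * Real.sqrt M)
    (Sf := fun r => s.Mf (C τ - C r) * Real.sqrt M)
    (Tt' := fun r => -(mb r * s.tt (C τ - C r) * Real.sqrt M))
    (fun r hr => mul_nonneg (hs.Pf0 _ (k.um (m r hr))) M0)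
    (fun r hr => mul_nonneg (hs.Mf0 _ (k.um (m r hr))) M0)
    (fun r hr => mul_nonneg (mul_nonneg (k.m0 (m r hr)) (mul_nonneg (hs.ss0 _ (k.um (m r hr)))
      (hs.sl0 _ (k.um (m r hr))))) M0)
    (fun r hr => (er (fun i j => (kc1 hs k hZ hx hD (m r hr)).T0 i j)).trans
      ((kc1 hs k hZ hx hD (m r hr)).ft hs (k.um (m r hr)) (wt_of hx) hf))
    (fun r hr => (er (fun i j => hG.gp0 i j (m r hr))).trans (RCM.Gop.tp hG r (m r hr)))
    (fun r hr => (er (fun i j => hG.gm0 i j (m r hr))).trans (RCM.Gop.tm hG r (m r hr)))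
    (fun r hr => RCM.bk_deriv hσ.1 cI hr) (fun r hr => ?_) ?_
  · have h2 : s.dT (C τ - C r) = s.dq (C τ - C r) + (s.Rb (C τ - C r) + s.lam (C τ - C r))
      * s.c4 (C τ - C r) * s.Vv (C τ - C r) := rfl
    unfold RCM.Us.tt
    rw [h2]
    refine le_of_eq ?_
    ring
  · rw [RCM.bk_self, Finset.sum_eq_zero fun e he => by rw [en e he, mul_zero]]

end

end Pool.Agent.RX.RCN.K
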