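import Pool.Agent.RX.RCM.Cts
import Pool.Agent.RX.RCM.EpF

/-! Density errors: the weighted sums of the parts of the exponents (MP_73ccd0_lc, route M). -/

namespace Pool.Agent.RX.RCM

open Set Finset

set_option linter.unusedSectionVars false

variable {V : Type*} [Fintype V] [DecidableEq V]

theorem nm_ent {U : Finset V} {u : V → ℝ} {e : V} (he : e ∈ U) : u e ≤ nm U u :=
  Real.le_sqrt_of_sq_le (Finset.single_le_sum (f := fun e => u e ^ 2) (fun _ _ => sq_nonneg _) he)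

theorem nm_zero {U : Finset V} {z : V} (hz : z ∈ U) (g : V → ℝ) :
    nm U (fun e => if e = z then 0 else g e) = nm (U.erase z) g := by
  unfold nm
  congr 1
  rw [← Finset.add_sum_erase U _ hz]
  have h1 : ∑ e ∈ U.erase z, (if e = z then 0 else g e) ^ 2 = ∑ e ∈ U.erase z, g e ^ 2 :=
    Finset.sum_congr rfl fun e he => by rw [if_neg (Finset.ne_of_mem_erase he)]
  simp only [if_true, h1]
  norm_num

theorem nm_sub {U X : Finset V} (h : X ⊆ U) (u : V → ℝ) : nm X u ≤ nm U u :=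
  Real.sqrt_le_sqrt (Finset.sum_le_sum_of_subset_of_nonneg h fun _ _ _ => sq_nonneg _)

end Pool.Agent.RX.RCM

namespace Pool.Agent.RX.RCN.K

open Set Finset MeasureTheory Pool.Agent.RX.RCRSHalf Pool.Agent.RX.RCG Pool.Agent.RX.RCG.Ct

set_option linter.unusedSectionVars false

variable {V : Type*} [Fintype V] [DecidableEq V]
variable {Z : Hzd} {B E1 : ℝ → ℝ → ℝ} {s : RCM.Us} {C mb : ℝ → ℝ} {τ : ℝ}
variable {x : V → V → ℝ} {P : V → Prop} [DecidablePred P] {sl : ℝ → ℝ → ℝ} {A D : Finset V}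
variable {f : V → ℝ} {M : ℝ} {gp gm : V → V → ℝ → ℝ}

section

variable (hs : s.Ok) (k : Ck Z B s C mb τ) (hC : Z.Cf B E1) (hZ : Z.Ok sl) (hx : Wt x P 1)
  (hD : Dok D) (hG : Gz s Z x P D C mb τ f M gp gm)
include hs k hC hZ hx hD hG

/-- **level 2 at a fixed time, summed over the first target** -/
theorem kd_pt (hf : EPS.Fw Dᶜ (RCM.kap x D) f M) {p n : V → V → ℝ → ℝ}
    (hl : ∀ c, Tls Z (Fz s Z x P D C τ) x P τ D gp gm B s.q s.m τ c (p c) (n c))
    (e0 : ∀ c, ∀ e ∈ Dᶜ.erase c, p c e τ = 0 ∧ n c e τ = 0)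
    {z : V} (hz : z ∈ Dᶜ) {σ : ℝ} (hσ : σ ∈ Icc 0 τ) {pd nd : V → ℝ → ℝ}
    (hd : Tls Z (Fz s Z x P D C τ) x P τ D gp gm B s.q s.m σ z pd nd)
    (ep : ∀ e ∈ Dᶜ.erase z, pd e σ = 0) (en : ∀ e ∈ Dᶜ.erase z, nd e σ = 0)
    {r : ℝ} (hr : r ∈ Icc 0 σ) :
    ∑ c ∈ Dᶜ.erase z, f c *
      (RCM.Qo ((Dᶜ.erase c).erase z) (K1 Z (Fz s Z x P D C τ) x P r)
          (fun e => N1 Z (Fz s Z x P D C τ) x P D τ c e r + n c e r)
          (fun e => D3f Z x P B τ s.q s.m σ z e r + C4f Z x P B τ s.q z e r * pd e r)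
        + RCM.Qo ((Dᶜ.erase c).erase z) (K1 Z (Fz s Z x P D C τ) x P r)
          (fun e => N1 Z (Fz s Z x P D C τ) x P D σ z e r + nd e r)
          (fun e => D3f Z x P B τ s.q s.m τ c e r + C4f Z x P B τ s.q c e r * p c e r))
      ≤ mb r * (2 * (s.W (C τ - C r) + s.Uu (C τ - C r)) * s.dT (C τ - C r)) * Real.sqrt M := by
  have hr' : r ∈ Icc 0 τ := ⟨hr.1, hr.2.trans hσ.2⟩
  have τ1 : τ ∈ Icc (0 : ℝ) bt := ⟨k.τ0, k.τ1⟩
  have σ1 : σ ∈ Icc (0 : ℝ) bt := ⟨hσ.1, hσ.2.trans k.τ1⟩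
  have hu := k.um hr'
  have M0 := Real.sqrt_nonneg M
  have m0 := k.m0 hr'
  have K := kc1 hs k hZ hx hD hr'
  have Ts := K.Ts
  have T0 := K.T0
  set F := Fz s Z x P D C τ with hF
  set T := K1 Z F x P r with hT
  set u := C τ - C r with hu'
  set X := Dᶜ.erase z with hX
  have hE : X ⊆ Dᶜ := Finset.erase_subset _ _
  have Xe : X.erase z = X := by rw [hX, Finset.erase_idem]
  have Xc : ∀ c, (Dᶜ.erase c).erase z = X.erase c := fun c => by
    rw [hX, Finset.erase_right_comm]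
  have N10 : ∀ c e, 0 ≤ N1 Z F x P D τ c e r := fun c e => N1_nonneg hZ hx τ1 c e hr'
  have n0 : ∀ c e, 0 ≤ n c e r := fun c e => (hl c).n0 e r hr'
  have p0 : ∀ c e, 0 ≤ p c e r := fun c e => (hl c).p0 e r hr'
  have D30 : ∀ c e, 0 ≤ D3f Z x P B τ s.q s.m τ c e r := fun c e =>
    D3f_nonneg hC hZ hx k.τ1 hs.q0 hs.m0 le_rfl c e hr'
  have C40 : ∀ c e, 0 ≤ C4f Z x P B τ s.q c e r := fun c e =>
    C4f_nonneg hC hZ hx τ1 hs.q0 c e hr'
  have Nz0 : ∀ e, 0 ≤ N1 Z F x P D σ z e r := fun e => N1_nonneg hZ hx σ1 z e hr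
  have nd0 : ∀ e, 0 ≤ nd e r := fun e => hd.n0 e r hr
  have pd0 : ∀ e, 0 ≤ pd e r := fun e => hd.p0 e r hr
  have D3z : ∀ e, 0 ≤ D3f Z x P B τ s.q s.m σ z e r := fun e =>
    D3f_nonneg hC hZ hx k.τ1 hs.q0 hs.m0 hσ.2 z e hr
  have tf := tail_f hs k hC hZ hx hD hG hf hl e0 r hr'
  have tz := tail_z hs k hC hZ hx hD hG hz hσ hd ep en r hr
  have W1 := n1_nmf hs k hC hZ hx hD hf r hr'
  have W2 := n1_nm hs k hC hZ hx hD hz hσ r hr
  have WU0 : 0 ≤ s.W u + s.Uu u := add_nonneg (hs.W0 u hu) (hs.Uu0 u hu)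
  have RL := hs.RL hu
  have c40 := hs.c40 hu
  have V0 := hs.V0 u hu
  have dq0 := hs.dq0 hu
  have opX := opz hs k hC hZ hx hD hE hr'
  have rowX := rowz hs k hC hZ hx hD hE hr'
  have opD := opz hs k hC hZ hx hD (Finset.Subset.refl Dᶜ) hr'
  have rowD := rowz hs k hC hZ hx hD (Finset.Subset.refl Dᶜ) hr'
  have RLm : 0 ≤ mb r * s.Rb u + mb r * s.lam u := by
    have := mul_nonneg m0 RL; linarith
  -- the first part
  have P1 : ∑ c ∈ X, f c * RCM.Qo ((Dᶜ.erase c).erase z) T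
      (fun e => N1 Z F x P D τ c e r + n c e r)
      (fun e => D3f Z x P B τ s.q s.m σ z e r + C4f Z x P B τ s.q z e r * pd e r)
      ≤ mb r * ((s.W u + s.Uu u) * s.dT u) * Real.sqrt M := by
    set b : V → ℝ := fun e => D3f Z x P B τ s.q s.m σ z e r + C4f Z x P B τ s.q z e r * pd e r
      with hb
    have b0 : ∀ e, 0 ≤ b e := fun e => add_nonneg (D3z e) (mul_nonneg (C40 z e) (pd0 e))
    set w : V → ℝ := fun e => ∑ c ∈ X.erase e, f c * (N1 Z F x P D τ c e r + n c e r) with hw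
    have w0 : ∀ e, 0 ≤ w e := fun e => Finset.sum_nonneg fun c _ => mul_nonneg (hf.f0 c)
      (add_nonneg (N10 c e) (n0 c e))
    have h1 := RCM.Qo_swap_tg (U := X) (e := z) T0 b0 hf.f0
      (a := fun c e => N1 Z F x P D τ c e r + n c e r) (fun c e => add_nonneg (N10 c e) (n0 c e))
    rw [Xe] at h1
    have e1 : ∑ c ∈ X, f c * RCM.Qo ((Dᶜ.erase c).erase z) T
        (fun e => N1 Z F x P D τ c e r + n c e r) b
        = ∑ c ∈ X, f c * RCM.Qo (X.erase c) T b
          (fun e => N1 Z F x P D τ c e r + n c e r) := Finset.sum_congr rfl fun c _ => by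
      rw [Xc c, RCM.Qo_swap _ Ts]
    rw [e1]
    refine h1.trans ?_
    change RCM.Qo X T b w ≤ _
    rw [RCM.Qo_swap _ Ts]
    have nw : RCM.nm X w ≤ (s.W u + s.Uu u) * Real.sqrt M := by
      have q1 : RCM.nm X w ≤ RCM.nm Dᶜ (fun e => ∑ c ∈ Dᶜ.erase e,
          f c * N1 Z F x P D τ c e r + ∑ c ∈ Dᶜ.erase e, f c * n c e r) := by
        refine (RCM.nm_mono (fun e _ => w0 e) fun e _ => ?_).trans (RCM.nm_sub hE _)
        rw [← Finset.sum_add_distrib]
        refine (Finset.sum_le_sum_of_subset_of_nonneg (Finset.erase_subset_erase e hE)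
          fun c _ _ => mul_nonneg (hf.f0 c) (add_nonneg (N10 c e) (n0 c e))).trans (le_of_eq ?_)
        exact Finset.sum_congr rfl fun c _ => by ring
      refine q1.trans ((RCM.nm_add_le _ _ _).trans ?_)
      linarith [tf.2]
    have s1 := src_z hs k hC hZ hx hD hz hσ hr w
    have s2 := RCM.Qo_nm T0 opX rowX (g := w) (a := fun e => C4f Z x P B τ s.q z e r * pd e r)
      (fun e _ => w0 e) (fun e _ => mul_nonneg (C40 z e) (pd0 e))
    have nc : RCM.nm X (fun e => C4f Z x P B τ s.q z e r * pd e r) ≤ s.c4 u * s.Vv u := by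
      refine (RCM.nm_mono (fun e _ => mul_nonneg (C40 z e) (pd0 e)) fun e _ =>
        mul_le_mul_of_nonneg_right (c4_le hs k hC hZ hx z e hr') (pd0 e)).trans ?_
      rw [RCM.nm_smul X c40]
      exact mul_le_mul_of_nonneg_left tz.1 c40
    rw [RCM.Qo_add]
    have s3 := mul_le_mul_of_nonneg_left nw (mul_nonneg m0 dq0)
    have s4 := mul_le_mul_of_nonneg_left (mul_le_mul nw nc (RCM.nm_nonneg _ _)
      (mul_nonneg WU0 M0)) RLm
    refine (add_le_add (s1.trans s3) (s2.trans s4)).trans (le_of_eq ?_)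
    unfold RCM.Us.dT
    ring
  -- the second part
  have P2 : ∑ c ∈ X, f c * RCM.Qo ((Dᶜ.erase c).erase z) T
      (fun e => N1 Z F x P D σ z e r + nd e r)
      (fun e => D3f Z x P B τ s.q s.m τ c e r + C4f Z x P B τ s.q c e r * p c e r)
      ≤ mb r * ((s.W u + s.Uu u) * s.dT u) * Real.sqrt M := by
    set g : V → ℝ := fun e => N1 Z F x P D σ z e r + nd e r with hg
    have g0 : ∀ e, 0 ≤ g e := fun e => add_nonneg (Nz0 e) (nd0 e)
    have a0 : ∀ c e, 0 ≤ D3f Z x P B τ s.q s.m τ c e r + C4f Z x P B τ s.q c e r * p c e r :=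
      fun c e => add_nonneg (D30 c e) (mul_nonneg (C40 c e) (p0 c e))
    have h1 := RCM.Qo_swap_tg (U := X) (e := z) T0 g0 hf.f0
      (a := fun c e => D3f Z x P B τ s.q s.m τ c e r + C4f Z x P B τ s.q c e r * p c e r) a0
    rw [Xe] at h1
    have e1 : ∑ c ∈ X, f c * RCM.Qo ((Dᶜ.erase c).erase z) T g
        (fun e => D3f Z x P B τ s.q s.m τ c e r + C4f Z x P B τ s.q c e r * p c e r)
        = ∑ c ∈ X, f c * RCM.Qo (X.erase c) T g
          (fun e => D3f Z x P B τ s.q s.m τ c e r + C4f Z x P B τ s.q c e r * p c e r) :=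
      Finset.sum_congr rfl fun c _ => by rw [Xc c]
    rw [e1]
    refine h1.trans ?_
    set g' : V → ℝ := fun e => if e = z then 0 else g e with hg'
    have g'0 : ∀ e, 0 ≤ g' e := fun e => by
      rw [hg']; simp only; split_ifs
      · exact le_rfl
      · exact g0 e
    set F1 : V → ℝ := fun e => ∑ c ∈ Dᶜ.erase e, f c * D3f Z x P B τ s.q s.m τ c e r with hF1
    set F2 : V → ℝ := fun e => ∑ c ∈ Dᶜ.erase e, f c * (C4f Z x P B τ s.q c e r * p c e r)
      with hF2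
    have F10 : ∀ e, 0 ≤ F1 e := fun e => Finset.sum_nonneg fun c _ =>
      mul_nonneg (hf.f0 c) (D30 c e)
    have F20 : ∀ e, 0 ≤ F2 e := fun e => Finset.sum_nonneg fun c _ =>
      mul_nonneg (hf.f0 c) (mul_nonneg (C40 c e) (p0 c e))
    have h2 : RCM.Qo X T g (fun e => ∑ c ∈ X.erase e, f c * (D3f Z x P B τ s.q s.m τ c e r
        + C4f Z x P B τ s.q c e r * p c e r)) ≤ RCM.Qo Dᶜ T g' (fun e => F1 e + F2 e) := by
      refine RCM.Qo_mono hE T0 (fun e he => ?_) (fun e _ => ?_)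
        (fun e => Finset.sum_nonneg fun c _ => mul_nonneg (hf.f0 c) (a0 c e)) g'0
        (fun e => add_nonneg (F10 e) (F20 e))
      · rw [hg']; simp only
        rw [if_neg (Finset.ne_of_mem_erase he)]
      · rw [hF1, hF2]
        simp only
        rw [← Finset.sum_add_distrib]
        refine (Finset.sum_le_sum_of_subset_of_nonneg (Finset.erase_subset_erase e hE)
          fun c _ _ => mul_nonneg (hf.f0 c) (a0 c e)).trans (le_of_eq ?_)
        exact Finset.sum_congr rfl fun c _ => by ring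
    refine h2.trans ?_
    have ng : RCM.nm Dᶜ g' ≤ s.W u + s.Uu u := by
      rw [hg', RCM.nm_zero hz]
      refine (RCM.nm_add_le _ _ _).trans ?_
      linarith [tz.2]
    have s1 := K.srcf hs hu (wt_of hx) (hD.kap (wt_of hx)) hf
      (a := fun c e => D3f Z x P B τ s.q s.m τ c e r) D30
      (fun c _ e _ => d3_le hs k hC hZ hx le_rfl c e hr') g'
    have s2 := RCM.Qo_nm T0 opD rowD (g := g') (a := F2) (fun e _ => g'0 e) (fun e _ => F20 e)
    have nc : RCM.nm Dᶜ F2 ≤ s.c4 u * (s.Vv u * Real.sqrt M) := by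
      refine (RCM.nm_mono (v := fun e => s.c4 u * ∑ c ∈ Dᶜ.erase e, f c * p c e r)
        (fun e _ => F20 e) fun e _ => ?_).trans ?_
      · rw [hF2, Finset.mul_sum]
        refine Finset.sum_le_sum fun c _ => ?_
        have := mul_le_mul_of_nonneg_left (mul_le_mul_of_nonneg_right
          (c4_le hs k hC hZ hx c e hr') (p0 c e)) (hf.f0 c)
        linarith
      · rw [RCM.nm_smul _ c40]
        exact mul_le_mul_of_nonneg_left tf.1 c40
    rw [RCM.Qo_add]
    have s3 := mul_le_mul_of_nonneg_left ng (mul_nonneg (mul_nonneg m0 dq0) M0)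
    have s4 := mul_le_mul_of_nonneg_left (mul_le_mul ng nc (RCM.nm_nonneg _ _) WU0) RLm
    refine (add_le_add (s1.trans s3) (s2.trans s4)).trans (le_of_eq ?_)
    unfold RCM.Us.dT
    ring
  have e2 : ∑ c ∈ X, f c *
      (RCM.Qo ((Dᶜ.erase c).erase z) T
          (fun e => N1 Z F x P D τ c e r + n c e r)
          (fun e => D3f Z x P B τ s.q s.m σ z e r + C4f Z x P B τ s.q z e r * pd e r)
        + RCM.Qo ((Dᶜ.erase c).erase z) T
          (fun e => N1 Z F x P D σ z e r + nd e r)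
          (fun e => D3f Z x P B τ s.q s.m τ c e r + C4f Z x P B τ s.q c e r * p c e r))
      = ∑ c ∈ X, f c * RCM.Qo ((Dᶜ.erase c).erase z) T
          (fun e => N1 Z F x P D τ c e r + n c e r)
          (fun e => D3f Z x P B τ s.q s.m σ z e r + C4f Z x P B τ s.q z e r * pd e r)
        + ∑ c ∈ X, f c * RCM.Qo ((Dᶜ.erase c).erase z) T
          (fun e => N1 Z F x P D σ z e r + nd e r)
          (fun e => D3f Z x P B τ s.q s.m τ c e r + C4f Z x P B τ s.q c e r * p c e r) := by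
    rw [← Finset.sum_add_distrib]
    exact Finset.sum_congr rfl fun c _ => by ring
  rw [e2]
  refine (add_le_add P1 P2).trans (le_of_eq ?_)
  ring

end

end Pool.Agent.RX.RCN.K
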