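import Pool.Agent.RX.EPS.DiI
import Pool.Agent.RX.RCM.EpG

/-! Density errors: the weighted sum of the exponents (MP_73ccd0_lc, route M). -/

namespace Pool.Agent.RX.RCM

open Set Finset

/-- a primitive with nonnegative rate is nonnegative -/
theorem prim_nn {f f' : ℝ → ℝ} {U : ℝ} (h : ∀ u, HasDerivAt f (f' u) u) (f0 : 0 ≤ f 0)
    (f1 : ∀ u ∈ Icc 0 U, 0 ≤ f' u) {u : ℝ} (hu : u ∈ Icc 0 U) : 0 ≤ f u := by
  have hU : 0 ≤ U := hu.1.trans hu.2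
  have mono : MonotoneOn f (Icc 0 U) := monotoneOn_of_deriv_nonneg (convex_Icc 0 U)
    (fun z _ => (h z).continuousAt.continuousWithinAt)
    (fun z _ => (h z).differentiableAt.differentiableWithinAt) fun z hz => by
      rw [interior_Icc] at hz
      rw [(h z).deriv]
      exact f1 z (Ioo_subset_Icc_self hz)
  exact f0.trans (mono ⟨le_rfl, hU⟩ hu hu.1)

/-- the integral of a continuous function, compared with a primitive -/
theorem int_le {f g g' : ℝ → ℝ} {r : ℝ} (r0 : 0 ≤ r) (cf : ContinuousOn f (Icc 0 r))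
    (dg : ∀ z ∈ Icc 0 r, HasDerivAt g (g' z) z) (h : ∀ z ∈ Icc 0 r, f z ≤ g' z) :
    ∫ z in (0 : ℝ)..r, f z ≤ g r - g 0 := by
  have h1 := bk_le_of (f := f) (g := fun z => g r - g z) (g' := fun z => -g' z) r0 cf
    (fun z hz => (dg z hz).const_sub _) (fun z hz => by rw [neg_neg]; exact h z hz) (by simp) 0
    ⟨le_rfl, r0⟩
  rwa [bk_eq ⟨le_rfl, r0⟩] at h1

end Pool.Agent.RX.RCM

namespace Pool.Agent.RX.RCN.K

open Set Finset MeasureTheory Pool.Agent.RX.RCRSHalf Pool.Agent.RX.RCG Pool.Agent.RX.RCG.Ct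

set_option linter.unusedSectionVars false

variable {V : Type*} [Fintype V] [DecidableEq V]
variable {Z : Hzd} {B E1 : ℝ → ℝ → ℝ} {s : RCM.Us} {C mb : ℝ → ℝ} {τ : ℝ}
variable {x : V → V → ℝ} {P : V → Prop} [DecidablePred P] {sl : ℝ → ℝ → ℝ} {A D : Finset V}
variable {f : V → ℝ} {M : ℝ} {gp gm : V → V → ℝ → ℝ}

section

variable (hs : s.Ok) (k : Ck Z B s C mb τ) (hC : Z.Cf B E1) (hZ : Z.Ok sl) (hx : Wt x P 1)
  (hD : Dok D)
include hs k hC hZ hx hD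

theorem k1_cont (e f : V) :
    ContinuousOn (fun r => K1 Z (Fz s Z x P D C τ) x P r e f) (Icc 0 τ) :=
  Tb_cont hZ hx k.τ1 (fz_cy hs k hZ hx hD) e f

theorem n1_cont {σ : ℝ} (hσ : σ ∈ Icc 0 τ) (c e : V) :
    ContinuousOn (N1 Z (Fz s Z x P D C τ) x P D σ c e) (Icc 0 σ) := fun _ hr =>
  (RCM.bk_deriv hσ.1 (src_cont hs k hC hZ hx hD σ hσ.2 c e _) hr).continuousAt.continuousWithinAt

/-- the kernel of two times -/
theorem k2_le (hAD : A ⊆ D) {σ : ℝ} (hσ : σ ∈ Icc 0 τ) {r : ℝ} (hr : r ∈ Icc 0 τ) (e f : V) :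
    K2 Z (Fz s Z x P D C τ) x P τ σ r e f ≤ K1 Z (Fz s Z x P D C τ) x P r e f :=
  K2_le (fz_ok hs k hZ hx hD hAD) hZ hx ⟨le_rfl, le_rfl⟩ hσ hσ.2 hr e f

theorem k2_cont (hAD : A ⊆ D) {σ : ℝ} (hσ : σ ∈ Icc 0 τ) (e f : V) :
    ContinuousOn (fun r => K2 Z (Fz s Z x P D C τ) x P τ σ r e f) (Icc 0 τ) :=
  Tb_cont hZ hx k.τ1 (fun e => (fz_cy2 hs k hZ hx e).slice ⟨le_rfl, le_rfl⟩ hσ) e f

theorem n2_le (hAD : A ⊆ D) {σ ρ : ℝ} (hσ : σ ∈ Icc 0 τ) (hρ : ρ ∈ Icc 0 τ) (c e : V) :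
    N2 Z (Fz s Z x P D C τ) x P D τ σ ρ c e 0 ≤ N1 Z (Fz s Z x P D C τ) x P D ρ c e 0 := by
  have ρ1 : ρ ∈ Icc (0 : ℝ) bt := ⟨hρ.1, hρ.2.trans k.τ1⟩
  have m : ∀ r ∈ Icc 0 ρ, r ∈ Icc 0 τ := fun r hr => ⟨hr.1, hr.2.trans hρ.2⟩
  refine RCM.bk_le ⟨le_rfl, hρ.1⟩ le_rfl
    (continuousOn_finsetSum _ fun f _ => ((k2_cont hs k hC hZ hx hD hAD hσ e f).mono
      (Icc_subset_Icc_right hρ.2)).mul ((hZ.Dd_cont hx ρ c f).mono (Icc_subset_Icc_right ρ1.2)))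
    (src_cont hs k hC hZ hx hD ρ hρ.2 c e _) (fun r hr => Finset.sum_le_sum fun f _ => ?_)
    (fun r hr => Finset.sum_nonneg fun f _ => mul_nonneg
      ((kc1 hs k hZ hx hD (m r hr)).T0 e f) (hZ.Dd_nonneg hx ρ1 c f hr))
  exact mul_le_mul_of_nonneg_right (k2_le hs k hC hZ hx hD hAD hσ (m r hr) e f)
    (hZ.Dd_nonneg hx ρ1 c f hr)

theorem n2_nn {σ ρ : ℝ} (hσ : σ ∈ Icc 0 τ) (hρ : ρ ∈ Icc 0 τ) (c e : V) :
    0 ≤ N2 Z (Fz s Z x P D C τ) x P D τ σ ρ c e 0 :=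
  RCM.bk_nonneg ⟨le_rfl, hρ.1⟩ fun r hr => Finset.sum_nonneg fun f _ => mul_nonneg
    (K2_nonneg hZ hx τ σ ⟨hr.1, (hr.2.trans hρ.2).trans k.τ1⟩ e f)
    (hZ.Dd_nonneg hx ⟨hρ.1, hρ.2.trans k.τ1⟩ c f hr)

/-- the leading lower functions of the first targets at the vertex `z` -/
theorem na_le (hf : EPS.Fw Dᶜ (RCM.kap x D) f M) {z : V} (hz : z ∈ Dᶜ) :
    ∑ c ∈ Dᶜ.erase z, f c * N1 Z (Fz s Z x P D C τ) x P D τ c z 0
      ≤ RCM.bk (fun r => mb r * (s.sl (C τ - C r) * s.be (C τ - C r) * s.g (C τ - C r) / 4)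
        * Real.sqrt M) τ 0 := by
  have τ1 : τ ∈ Icc (0 : ℝ) bt := ⟨k.τ0, k.τ1⟩
  have m0 : (0 : ℝ) ∈ Icc 0 τ := ⟨le_rfl, k.τ0⟩
  have e1 := RCM.bk_sum (Dᶜ.erase z) f k.τ0
    (fun c _ => src_cont hs k hC hZ hx hD τ le_rfl c z (Dᶜ.erase c)) 0 m0
  refine (le_of_eq e1).trans (RCM.bk_le m0 le_rfl
    (continuousOn_finsetSum _ fun c _ => continuousOn_const.mul
      (src_cont hs k hC hZ hx hD τ le_rfl c z (Dᶜ.erase c)))
    ((k.cmb.mul (((k.cont hs.csl).mul (k.cont hs.cbe)).mul (k.cont hs.cg)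
      |>.div_const 4)).mul continuousOn_const) (fun r hr => ?_) fun r hr => ?_)
  · exact (kc1 hs k hZ hx hD hr).bty hs (k.um hr) (wt_of hx) hf hz
      (a := fun c b => Z.Dd x P τ c b r) (fun c e => hZ.Dd_nonneg hx τ1 c e hr)
      (fun c _ e _ => dd_le hs k hC hZ hx le_rfl c e hr)
  · have h1 := hs.sl0 _ (k.um hr)
    have h2 := hs.be0 _ (k.um hr)
    have h3 := hs.g0 (k.um hr)
    have h4 := k.m0 hr
    positivity

/-- the leading lower functions of the target `z` -/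
theorem nb_le (hf : EPS.Fw Dᶜ (RCM.kap x D) f M) {z : V} (hz : z ∈ Dᶜ) {σ : ℝ}
    (hσ : σ ∈ Icc 0 τ) :
    ∑ c ∈ Dᶜ.erase z, f c * N1 Z (Fz s Z x P D C τ) x P D σ z c 0
      ≤ RCM.bk (fun r => mb r * (s.ss (C τ - C r) * s.be (C τ - C r) * s.g (C τ - C r) / 2)
        * Real.sqrt M) σ 0 := by
  have σ1 : σ ∈ Icc (0 : ℝ) bt := ⟨hσ.1, hσ.2.trans k.τ1⟩
  have m0 : (0 : ℝ) ∈ Icc 0 σ := ⟨le_rfl, hσ.1⟩
  have m : ∀ r ∈ Icc 0 σ, r ∈ Icc 0 τ := fun r hr => ⟨hr.1, hr.2.trans hσ.2⟩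
  have sub : Icc 0 σ ⊆ Icc 0 τ := fun r hr => m r hr
  have e1 := RCM.bk_sum (Dᶜ.erase z) f hσ.1
    (fun c _ => src_cont hs k hC hZ hx hD σ hσ.2 z c (Dᶜ.erase z)) 0 m0
  refine (le_of_eq e1).trans (RCM.bk_le m0 le_rfl
    (continuousOn_finsetSum _ fun c _ => continuousOn_const.mul
      (src_cont hs k hC hZ hx hD σ hσ.2 z c (Dᶜ.erase z)))
    (((k.cmb.mul (((k.cont hs.css).mul (k.cont hs.cbe)).mul (k.cont hs.cg)
      |>.div_const 2)).mul continuousOn_const).mono sub) (fun r hr => ?_) fun r hr => ?_)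
  · exact (kc1 hs k hZ hx hD (m r hr)).aty hs (k.um (m r hr)) (wt_of hx) hf hz
      (a := fun b => Z.Dd x P σ z b r) (fun e => hZ.Dd_nonneg hx σ1 z e hr)
      (fun e _ => dd_le hs k hC hZ hx hσ.2 z e hr)
  · have h1 := hs.ss0 _ (k.um (m r hr))
    have h2 := hs.be0 _ (k.um (m r hr))
    have h3 := hs.g0 (k.um (m r hr))
    have h4 := k.m0 (m r hr)
    positivity

end

section

variable (hs : s.Ok) (k : Ck Z B s C mb τ) (hC : Z.Cf B E1) (hZ : Z.Ok sl) (hx : Wt x P 1)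
  (hD : Dok D) (hG : Gz s Z x P D C mb τ f M gp gm)
include hs k hC hZ hx hD hG

/-- continuity of the integrand of level 2 -/
theorem kdd_cont {p n : V → ℝ → ℝ} {c : V}
    (hl : Tls Z (Fz s Z x P D C τ) x P τ D gp gm B s.q s.m τ c p n)
    (cB : ContinuousOn (B τ) (Icc 0 τ))
    (z : V) {σ : ℝ} (hσ : σ ∈ Icc 0 τ) {pd nd : V → ℝ → ℝ}
    (hd : Tls Z (Fz s Z x P D C τ) x P τ D gp gm B s.q s.m σ z pd nd) :
    ContinuousOn (fun r => RCM.Qo ((Dᶜ.erase c).erase z) (K1 Z (Fz s Z x P D C τ) x P r)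
          (fun e => N1 Z (Fz s Z x P D C τ) x P D τ c e r + n e r)
          (fun e => D3f Z x P B τ s.q s.m σ z e r + C4f Z x P B τ s.q z e r * pd e r)
        + RCM.Qo ((Dᶜ.erase c).erase z) (K1 Z (Fz s Z x P D C τ) x P r)
          (fun e => N1 Z (Fz s Z x P D C τ) x P D σ z e r + nd e r)
          (fun e => D3f Z x P B τ s.q s.m τ c e r + C4f Z x P B τ s.q c e r * p e r))
      (Icc 0 σ) := by
  have sub : Icc 0 σ ⊆ Icc 0 τ := Icc_subset_Icc_right hσ.2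
  have τm : τ ∈ Icc 0 τ := ⟨k.τ0, le_rfl⟩
  have d3 : ∀ {ρ : ℝ}, ρ ∈ Icc 0 τ → ∀ c e, ContinuousOn (D3f Z x P B τ s.q s.m ρ c e) (Icc 0 τ) :=
    fun {ρ} hρ c e => (D3f_cont2 (P := P) hZ hx k.τ1 cB s.q s.m c e).comp
      (f := fun r : ℝ => (ρ, r)) (by fun_prop) fun _ hr => ⟨hρ, hr⟩
  have c4 := C4f_cont (P := P) hZ hx k.τ1 cB s.q
  have cK := fun e f => (k1_cont hs k hC hZ hx hD e f).mono sub
  refine (RCM.Qo_cont cK (fun e => ?_) fun e => ?_).add (RCM.Qo_cont cK (fun e => ?_) fun e => ?_)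
  · exact ((n1_cont hs k hC hZ hx hD τm c e).mono sub).add ((tl_cont hl e).2.mono sub)
  · exact ((d3 hσ z e).mono sub).add (((c4 z e).mono sub).mul (tl_cont hd e).1)
  · exact (n1_cont hs k hC hZ hx hD hσ z e).add (tl_cont hd e).2
  · exact ((d3 τm c e).mono sub).add (((c4 c e).mono sub).mul ((tl_cont hl e).1.mono sub))

/-- **level 2, summed over the first target** -/
theorem kd_le (hf : EPS.Fw Dᶜ (RCM.kap x D) f M) {p n : V → V → ℝ → ℝ}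
    (hl : ∀ c, Tls Z (Fz s Z x P D C τ) x P τ D gp gm B s.q s.m τ c (p c) (n c))
    (e0 : ∀ c, ∀ e ∈ Dᶜ.erase c, p c e τ = 0 ∧ n c e τ = 0)
    (cB : ContinuousOn (B τ) (Icc 0 τ))
    {z : V} (hz : z ∈ Dᶜ) {σ : ℝ} (hσ : σ ∈ Icc 0 τ) {pd nd : V → ℝ → ℝ}
    (hd : Tls Z (Fz s Z x P D C τ) x P τ D gp gm B s.q s.m σ z pd nd)
    (ep : ∀ e ∈ Dᶜ.erase z, pd e σ = 0) (en : ∀ e ∈ Dᶜ.erase z, nd e σ = 0) :
    ∑ c ∈ Dᶜ.erase z, f c * Kdd Z (Fz s Z x P D C τ) x P D c z τ σ (D3f Z x P B τ s.q s.m)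
        (C4f Z x P B τ s.q) (p c) (n c) pd nd
      ≤ RCM.bk (fun r => mb r * (2 * (s.W (C τ - C r) + s.Uu (C τ - C r)) * s.dT (C τ - C r))
        * Real.sqrt M) σ 0 := by
  have m0 : (0 : ℝ) ∈ Icc 0 σ := ⟨le_rfl, hσ.1⟩
  have m : ∀ r ∈ Icc 0 σ, r ∈ Icc 0 τ := fun r hr => ⟨hr.1, hr.2.trans hσ.2⟩
  have sub : Icc 0 σ ⊆ Icc 0 τ := fun r hr => m r hr
  have cI := fun c => kdd_cont hs k hC hZ hx hD hG (hl c) cB z hσ hd
  have e2 : ∀ c, Kdd Z (Fz s Z x P D C τ) x P D c z τ σ (D3f Z x P B τ s.q s.m)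
        (C4f Z x P B τ s.q) (p c) (n c) pd nd = RCM.bk (fun r =>
        RCM.Qo ((Dᶜ.erase c).erase z) (K1 Z (Fz s Z x P D C τ) x P r)
          (fun e => N1 Z (Fz s Z x P D C τ) x P D τ c e r + n c e r)
          (fun e => D3f Z x P B τ s.q s.m σ z e r + C4f Z x P B τ s.q z e r * pd e r)
        + RCM.Qo ((Dᶜ.erase c).erase z) (K1 Z (Fz s Z x P D C τ) x P r)
          (fun e => N1 Z (Fz s Z x P D C τ) x P D σ z e r + nd e r)
          (fun e => D3f Z x P B τ s.q s.m τ c e r + C4f Z x P B τ s.q c e r * p c e r)) σ 0 :=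
    fun c => by rw [RCM.bk_eq m0]; rfl
  rw [Finset.sum_congr rfl fun c _ => by rw [e2 c]]
  refine (le_of_eq (RCM.bk_sum (Dᶜ.erase z) f hσ.1 (fun c _ => cI c) 0 m0)).trans
    (RCM.bk_le m0 le_rfl (continuousOn_finsetSum _ fun c _ => continuousOn_const.mul (cI c))
    (((k.cmb.mul ((continuousOn_const.mul ((k.cont hs.cW).add (k.cont hs.cU))).mul
      (k.cont hs.cdT))).mul continuousOn_const).mono sub) (fun r hr => ?_) fun r hr => ?_)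
  · exact kd_pt hs k hC hZ hx hD hG hf hl e0 hz hσ hd ep en hr
  · have h1 := hs.W0 _ (k.um (m r hr))
    have h2 := hs.Uu0 _ (k.um (m r hr))
    have h3 := hs.dT0 (k.um (m r hr))
    have h4 := k.m0 (m r hr)
    positivity

/-- one insertion term -/
theorem di_le (hAD : A ⊆ D) {c z : V} (hc : c ∈ Dᶜ) (hz : z ∈ Dᶜ) (hcz : c ≠ z)
    {σ : ℝ} (hσ : σ ∈ Icc 0 τ) {p n pd nd : V → ℝ → ℝ}
    (hl : Tls Z (Fz s Z x P D C τ) x P τ D gp gm B s.q s.m τ c p n)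
    (e0 : ∀ e ∈ Dᶜ.erase c, p e τ = 0 ∧ n e τ = 0)
    (hd : Tls Z (Fz s Z x P D C τ) x P τ D gp gm B s.q s.m σ z pd nd)
    (ep : ∀ e ∈ Dᶜ.erase z, pd e σ = 0) (en : ∀ e ∈ Dᶜ.erase z, nd e σ = 0) :
    Di Z (Fz s Z x P D C τ) x P D c z τ σ
        (N2 Z (Fz s Z x P D C τ) x P D τ σ τ c z 0 + n z 0)
        (N2 Z (Fz s Z x P D C τ) x P D τ σ σ z c 0 + nd c 0)
      ≤ x c z * ((max 0 (s.Zx (C τ - C 0) (x c z) - 17 / 25)) ^ 2 / 2) := by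
  have τm : τ ∈ Icc 0 τ := ⟨k.τ0, le_rfl⟩
  have z0τ : (0 : ℝ) ∈ Icc 0 τ := ⟨le_rfl, k.τ0⟩
  have z0σ : (0 : ℝ) ∈ Icc 0 σ := ⟨le_rfl, hσ.1⟩
  have m : ∀ r ∈ Icc 0 σ, r ∈ Icc 0 τ := fun r hr => ⟨hr.1, hr.2.trans hσ.2⟩
  have m1 : ∀ r ∈ Icc 0 τ, r ∈ Icc (0 : ℝ) bt := fun r hr => ⟨hr.1, hr.2.trans k.τ1⟩
  have hy := xw_mem hx c z
  have hx' := wt_of hx
  set y := x c z with hyd
  have yz : x z c = y := hx.symm z c
  set F := Fz s Z x P D C τ with hF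
  set u0 := C τ - C 0 with hu0
  have hu := k.um z0τ
  -- the constants
  have hn1 : N2 Z F x P D τ σ τ c z 0 + n z 0 ≤ s.W u0 + s.Uu u0 := by
    have a1 := n2_le hs k hC hZ hx hD hAD hσ τm c z
    have a2 := n1_nm hs k hC hZ hx hD hc τm 0 z0τ
    have a3 : N1 Z F x P D τ c z 0 ≤ RCM.nm (Dᶜ.erase c) (fun e => N1 Z F x P D τ c e 0) :=
      RCM.nm_ent (u := fun e => N1 Z F x P D τ c e 0) (Finset.mem_erase.2 ⟨hcz.symm, hz⟩)
    have b1 := (tail_z hs k hC hZ hx hD hG hc τm hl (fun e he => (e0 e he).1)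
      (fun e he => (e0 e he).2) 0 z0τ).2
    have b2 : n z 0 ≤ RCM.nm (Dᶜ.erase c) (fun e => n e 0) :=
      RCM.nm_ent (u := fun e => n e 0) (Finset.mem_erase.2 ⟨hcz.symm, hz⟩)
    linarith
  have hn2 : N2 Z F x P D τ σ σ z c 0 + nd c 0 ≤ s.W u0 + s.Uu u0 := by
    have a1 := n2_le hs k hC hZ hx hD hAD hσ hσ z c
    have a2 := n1_nm hs k hC hZ hx hD hz hσ 0 z0σ
    have a3 : N1 Z F x P D σ z c 0 ≤ RCM.nm (Dᶜ.erase z) (fun e => N1 Z F x P D σ z e 0) :=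
      RCM.nm_ent (u := fun e => N1 Z F x P D σ z e 0) (Finset.mem_erase.2 ⟨hcz, hc⟩)
    have b1 := (tail_z hs k hC hZ hx hD hG hz hσ hd ep en 0 z0σ).2
    have b2 : nd c 0 ≤ RCM.nm (Dᶜ.erase z) (fun e => nd e 0) :=
      RCM.nm_ent (u := fun e => nd e 0) (Finset.mem_erase.2 ⟨hcz, hc⟩)
    linarith
  -- the direct hazard
  have hH : ∀ r ∈ Icc 0 σ, Z.Hh x P r c z 0 ≤ y * (C r - C 0) := fun r hr => by
    have r1 := m r hr
    have key := RCM.back_le (a := 0) (τ := r) (f := fun ρ => Z.Hh x P r c z ρ)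
      (g := fun ρ => y * (C r - C ρ)) (f' := fun ρ => -Z.hh x P ρ c z) (g' := fun ρ => y * -mb ρ)
      (fun ρ hρ => hZ.Hh_deriv hx c z (m1 ρ ⟨hρ.1, hρ.2.trans r1.2⟩))
      (fun ρ hρ => ((k.dC ρ (m1 ρ ⟨hρ.1, hρ.2.trans r1.2⟩)).const_sub _).const_mul y)
      (fun ρ hρ => by
        have := hh_mb hs k hZ hx hD (r := ρ) ⟨hρ.1, hρ.2.trans r1.2⟩ c z
        rw [← hyd] at this
        linarith) (by rw [Hzd.Hh_self]; simp)
    exact key 0 ⟨le_rfl, hr.1⟩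
  -- rows
  have K'1 : ∀ {r : ℝ}, r ∈ Icc 0 τ → ∀ {v : ℝ}, v ∈ Icc (0 : ℝ) 1 →
      s.g (C τ - C r) ^ 2 * (1 + s.c (C τ - C r) * (1 - (1 - v) / 3))
        ≤ s.I0' (C τ - C r) + v * s.I1' (C τ - C r) := fun {r} hr {v} hv => by
    have h1 := hs.oI0 _ (k.um hr)
    have h2 := mul_le_mul_of_nonneg_left (hs.oI1 _ (k.um hr)) hv.1
    refine le_trans (le_of_eq ?_) (add_le_add h1 h2)
    ring
  have row : ∀ {a b : V}, a ∈ Dᶜ → b ∈ Dᶜ → a ≠ b → ∀ S ⊆ Dᶜ.erase a, ∀ r ∈ Icc 0 σ,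
      ∫ ρ in (0 : ℝ)..r, ∑ f ∈ S, K2 Z F x P τ σ ρ b f
        ≤ (1 - x a b) * ((s.I0 u0 + x a b * s.I1 u0)
          - (s.I0 (C τ - C r) + x a b * s.I1 (C τ - C r))) := by
    intro a b ha hb hab S hS r hr
    have r1 := m r hr
    have hv := xw_mem hx a b
    have sub : Icc 0 r ⊆ Icc 0 τ := Icc_subset_Icc_right r1.2
    have h1 := RCM.int_le (f := fun ρ => ∑ f ∈ S, K2 Z F x P τ σ ρ b f)
      (g := fun ρ => -((1 - x a b) * (s.I0 (C τ - C ρ) + x a b * s.I1 (C τ - C ρ))))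
      (g' := fun ρ => -((1 - x a b) * (-(s.I0' (C τ - C ρ) * mb ρ)
        + x a b * -(s.I1' (C τ - C ρ) * mb ρ)))) hr.1
      (continuousOn_finsetSum _ fun f _ => (k2_cont hs k hC hZ hx hD hAD hσ b f).mono sub)
      (fun ρ hρ => (((k.comp hs.dI0 (sub hρ)).add ((k.comp hs.dI1 (sub hρ)).const_mul _)).const_mul
        _).neg) (fun ρ hρ => ?_)
    · refine h1.trans (le_of_eq ?_)
      rw [hu0]
      ring
    · have hρ' := sub hρ
      have e1 : ∑ f ∈ S, K2 Z F x P τ σ ρ b f ≤ ∑ f ∈ S, K1 Z F x P ρ b f :=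
        Finset.sum_le_sum fun f _ => k2_le hs k hC hZ hx hD hAD hσ hρ' b f
      have e2 := ((kc1 hs k hZ hx hD hρ').rz hs (k.um hρ') hx' (hD.kap hx')).2 a ha b
        (Finset.mem_erase.2 ⟨hab.symm, hb⟩) S hS
      have e3 := mul_le_mul_of_nonneg_left (mul_le_mul_of_nonneg_left (K'1 hρ' hv)
        (by linarith [hv.2] : 0 ≤ 1 - x a b)) (k.m0 hρ')
      refine (e1.trans (e2.trans e3)).trans (le_of_eq ?_)
      ring
  set Zf : ℝ → ℝ := fun r => s.W u0 + s.Uu u0 + (y * (C r - C 0)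
    + (1 - y) * ((s.I0 u0 + y * s.I1 u0) - (s.I0 (C τ - C r) + y * s.I1 (C τ - C r)))) with hZf
  have dZ : ∀ r ∈ Icc 0 σ, HasDerivAt Zf (y * mb r + (1 - y) * ((s.I0' (C τ - C r)
      + y * s.I1' (C τ - C r)) * mb r)) r := fun r hr => by
    have h1 := ((k.dC r (m1 r (m r hr))).sub_const (C 0)).const_mul y
    have h2 := (((k.comp hs.dI0 (m r hr)).add ((k.comp hs.dI1 (m r hr)).const_mul y)).const_sub
      (s.I0 u0 + y * s.I1 u0)).const_mul (1 - y)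
    refine ((h1.add h2).const_add (s.W u0 + s.Uu u0)).congr_deriv ?_
    ring
  have prim : ∀ {R : ℝ → ℝ}, ContinuousOn R (Icc 0 σ) →
      ContinuousOn (fun r => ∫ ρ in (0 : ℝ)..r, R ρ) (Icc 0 σ) := by
    intro R cR
    have := intervalIntegral.continuousOn_primitive_interval (μ := volume) (a := (0 : ℝ))
      (b := σ) (f := R) (by rw [uIcc_of_le hσ.1]; exact cR.integrableOn_Icc)
    rwa [uIcc_of_le hσ.1] at this
  have sub : Icc 0 σ ⊆ Icc 0 τ := fun r hr => m r hr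
  have sub1 : Icc 0 σ ⊆ Icc (0 : ℝ) bt := fun r hr => m1 r (m r hr)
  have cS : ∀ (S : Finset V) (a : V), ContinuousOn (fun r => ∫ ρ in (0 : ℝ)..r,
      ∑ f ∈ S, K2 Z F x P τ σ ρ a f) (Icc 0 σ) := fun S a => prim
    (continuousOn_finsetSum _ fun f _ => (k2_cont hs k hC hZ hx hD hAD hσ a f).mono sub)
  have key := EPS.Di_int (s := σ) (y := y) (hc := fun r => Z.hh x P r c z)
    (a := fun r => N2 Z F x P D τ σ τ c z 0 + n z 0 + Z.Hh x P r c z 0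
        + ∫ ρ in (0 : ℝ)..r, ∑ f ∈ (Dᶜ.erase c).erase z, K2 Z F x P τ σ ρ z f)
    (b := fun r => N2 Z F x P D τ σ σ z c 0 + nd c 0 + Z.Hh x P r c z 0
        + ∫ ρ in (0 : ℝ)..r, ∑ f ∈ (Dᶜ.erase z).erase c, K2 Z F x P τ σ ρ c f)
    (mm := mb) (Z := Zf) (Z' := fun r => y * mb r + (1 - y) * ((s.I0' (C τ - C r)
      + y * s.I1' (C τ - C r)) * mb r)) hσ.1 hy.1
    ((hZ.hh_cont hx c z).mono sub1)
    ((continuousOn_const.add ((hZ.Hh0_cont hx c z).mono sub1)).add (cS _ _))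
    ((continuousOn_const.add ((hZ.Hh0_cont hx c z).mono sub1)).add (cS _ _))
    (fun r hr => hZ.hh_nonneg hx (m1 r (m r hr)) c z)
    (fun r hr => hh_mb hs k hZ hx hD (m r hr) c z)
    (fun r hr => ?_) (fun r hr => ?_) dZ
    ((continuousOn_const.mul (k.cmb.mono sub)).add (continuousOn_const.mul
      (((((k.cont hs.cI0).add (continuousOn_const.mul (k.cont hs.cI1))).mul k.cmb)).mono sub)))
    (fun r hr => k.m0 (m r hr)) (fun r hr => ?_)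
  · refine le_trans (le_of_eq rfl) (key.trans ?_)
    refine mul_le_mul_of_nonneg_left ?_ hy.1
    have h1 : Zf σ ≤ s.Zx u0 y := by
      have a1 := k.mono hσ.1 hσ.2 le_rfl
      have i0 : 0 ≤ s.I0 (C τ - C σ) := RCM.prim_nn hs.dI0 hs.I00 (fun u hu =>
        (mul_nonneg (sq_nonneg _) (by have := hs.c0 hu; positivity)).trans (hs.oI0 u hu))
        (k.um hσ)
      have i1 : 0 ≤ s.I1 (C τ - C σ) := RCM.prim_nn hs.dI1 hs.I10 (fun u hu =>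
        (mul_nonneg (sq_nonneg _) (by have := hs.c0 hu; positivity)).trans (hs.oI1 u hu))
        (k.um hσ)
      have i2 := mul_nonneg (by linarith [hy.2] : 0 ≤ 1 - y) (add_nonneg i0 (mul_nonneg hy.1 i1))
      have i3 := mul_le_mul_of_nonneg_left a1 hy.1
      rw [hZf]
      unfold RCM.Us.Zx
      rw [hu0]
      simp only
      nlinarith
    have h2 : max 0 (Zf σ - 17 / 25) ≤ max 0 (s.Zx u0 y - 17 / 25) :=
      max_le_max le_rfl (by linarith)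
    have h3 := pow_le_pow_left₀ (le_max_left 0 (Zf σ - 17 / 25)) h2 2
    linarith
  · have h1 := row hc hz hcz ((Dᶜ.erase c).erase z) (Finset.erase_subset _ _) r hr
    have h2 := hH r hr
    rw [← hyd] at h1
    simp only [hZf]
    linarith
  · have h1 := row hz hc hcz.symm ((Dᶜ.erase z).erase c) (Finset.erase_subset _ _) r hr
    have h2 := hH r hr
    rw [yz] at h1
    simp only [hZf]
    linarith
  · have h1 := K'1 (m r hr) hy
    have c0 := hs.c0 (k.um (m r hr))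
    have g1 := hs.g1 (k.um (m r hr))
    have m0 := k.m0 (m r hr)
    have h2 : (1 : ℝ) ≤ s.I0' (C τ - C r) + y * s.I1' (C τ - C r) := by
      refine le_trans ?_ h1
      have a1 : (1 : ℝ) ≤ s.g (C τ - C r) ^ 2 := by nlinarith
      have a2 : (0 : ℝ) ≤ s.c (C τ - C r) * (1 - (1 - y) / 3) :=
        mul_nonneg c0 (by linarith [hy.1])
      nlinarith
    have h3 := mul_le_mul_of_nonneg_right h2 m0
    have h4 := mul_le_mul_of_nonneg_left h3 (by linarith [hy.2] : 0 ≤ 1 - y)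
    linarith

end

end Pool.Agent.RX.RCN.K
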