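import Mathlib

/-! The closures of level 1 as leading part plus tail, the tail being the solution of a linear
system (MP_73ccd0_lc, route M). -/

namespace Pool.Agent.RX.RCM

open Set Finset

set_option linter.unusedSectionVars false

variable {V : Type*} [Fintype V] [DecidableEq V]

/-- the pair operator -/
noncomputable def Qo (X : Finset V) (T : V → V → ℝ) (g a : V → ℝ) : ℝ :=
  ∑ x ∈ X, ∑ y ∈ X, T x y * (g x * (a x + a y))

/-- its coefficients -/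
noncomputable def qc (X : Finset V) (T : V → V → ℝ) (g : V → ℝ) (z : V) : ℝ :=
  g z * (∑ y ∈ X, T z y) + ∑ x ∈ X, T x z * g x

theorem Qo_eq (X : Finset V) (T : V → V → ℝ) (g a : V → ℝ) :
    Qo X T g a = ∑ z ∈ X, qc X T g z * a z := by
  unfold Qo qc
  have e1 : ∀ x ∈ X, ∑ y ∈ X, T x y * (g x * (a x + a y))
      = g x * (∑ y ∈ X, T x y) * a x + ∑ y ∈ X, T x y * g x * a y := fun x _ => by
    rw [Finset.mul_sum, Finset.sum_mul, ← Finset.sum_add_distrib]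
    exact Finset.sum_congr rfl fun y _ => by ring
  rw [Finset.sum_congr rfl e1, Finset.sum_add_distrib, Finset.sum_comm (s := X) (t := X),
    ← Finset.sum_add_distrib]
  exact Finset.sum_congr rfl fun z _ => by rw [add_mul, Finset.sum_mul]

theorem Qo_add (X : Finset V) (T : V → V → ℝ) (g a b : V → ℝ) :
    Qo X T g (fun x => a x + b x) = Qo X T g a + Qo X T g b := by
  simp only [Qo_eq, mul_add, Finset.sum_add_distrib]

theorem qc_nonneg {X : Finset V} {T : V → V → ℝ} {g : V → ℝ} (hT : ∀ x y, 0 ≤ T x y)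
    (hg : ∀ x, 0 ≤ g x) (z : V) : 0 ≤ qc X T g z :=
  add_nonneg (mul_nonneg (hg z) (Finset.sum_nonneg fun y _ => hT z y))
    (Finset.sum_nonneg fun x _ => mul_nonneg (hT x z) (hg x))

/-- half of the symmetric double sum -/
theorem half_le_Qo {X Y : Finset V} (hYX : Y ⊆ X) {T : V → V → ℝ} (Ts : ∀ x y, T x y = T y x)
    (hT : ∀ x y, 0 ≤ T x y) {g a : V → ℝ} (hg : ∀ x, 0 ≤ g x) (ha : ∀ x, 0 ≤ a x) :
    (1 / 2) * ∑ x ∈ Y, ∑ y ∈ Y, T x y * ((a x + a y) * (g x + g y)) ≤ Qo X T g a := by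
  have e1 : (1 / 2) * ∑ x ∈ Y, ∑ y ∈ Y, T x y * ((a x + a y) * (g x + g y)) = Qo Y T g a := by
    unfold Qo
    have s1 : ∑ x ∈ Y, ∑ y ∈ Y, T x y * (g y * (a x + a y))
        = ∑ x ∈ Y, ∑ y ∈ Y, T x y * (g x * (a x + a y)) := by
      rw [Finset.sum_comm]
      exact Finset.sum_congr rfl fun x _ => Finset.sum_congr rfl fun y _ => by rw [Ts y x]; ring
    have s2 : ∑ x ∈ Y, ∑ y ∈ Y, T x y * ((a x + a y) * (g x + g y))
        = ∑ x ∈ Y, ∑ y ∈ Y, T x y * (g x * (a x + a y))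
          + ∑ x ∈ Y, ∑ y ∈ Y, T x y * (g y * (a x + a y)) := by
      rw [← Finset.sum_add_distrib]
      refine Finset.sum_congr rfl fun x _ => ?_
      rw [← Finset.sum_add_distrib]
      exact Finset.sum_congr rfl fun y _ => by ring
    rw [s2, s1]; ring
  rw [e1]
  unfold Qo
  have nn : ∀ x y, 0 ≤ T x y * (g x * (a x + a y)) := fun x y =>
    mul_nonneg (hT x y) (mul_nonneg (hg x) (add_nonneg (ha x) (ha y)))
  refine (Finset.sum_le_sum fun x _ =>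
    Finset.sum_le_sum_of_subset_of_nonneg hYX fun y _ _ => nn x y).trans ?_
  exact Finset.sum_le_sum_of_subset_of_nonneg hYX fun x _ _ => Finset.sum_nonneg fun y _ => nn x y

/-- the tail system -/
structure Tl (X : Finset V) (t : ℝ) (T : ℝ → V → V → ℝ) (D n1 : V → ℝ → ℝ)
    (gp gs : V → V → ℝ → ℝ) (c1 c4 : V → ℝ → ℝ) (p n : V → ℝ → ℝ) : Prop where
  dp : ∀ e ∈ X, ∀ r ∈ Icc 0 t, HasDerivAt (p e) (-(∑ b ∈ X, T r e b * (n1 b r + n b r)
    + Qo X (T r) (fun x => gs e x r) (fun x => n1 x r + n x r)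
    + Qo X (T r) (fun x => gp e x r) (fun x => D x r + c4 x r * p x r))) r
  dn : ∀ e ∈ X, ∀ r ∈ Icc 0 t, HasDerivAt (n e) (-(∑ b ∈ X, T r e b * (c1 b r * p b r)
    + Qo X (T r) (fun x => gp e x r) (fun x => n1 x r + n x r)
    + Qo X (T r) (fun x => gs e x r) (fun x => D x r + c4 x r * p x r))) r
  p0 : ∀ e, ∀ r ∈ Icc 0 t, 0 ≤ p e r
  n0 : ∀ e, ∀ r ∈ Icc 0 t, 0 ≤ n e r
  pz : ∀ e ∉ X, ∀ r, p e r = 0
  nz : ∀ e ∉ X, ∀ r, n e r = 0

/-- the tail system with scalar coefficients, as an inequality; `E` is an additional source of the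
lower function -/
structure Tu (X : Finset V) (t : ℝ) (T : ℝ → V → V → ℝ) (D E n1 : V → ℝ → ℝ)
    (gp gs : V → V → ℝ → ℝ) (c1 c4 : ℝ → ℝ) (p p' n n' : V → ℝ → ℝ) : Prop where
  dp : ∀ e ∈ X, ∀ r ∈ Icc 0 t, HasDerivAt (p e) (p' e r) r
  dn : ∀ e ∈ X, ∀ r ∈ Icc 0 t, HasDerivAt (n e) (n' e r) r
  op : ∀ e ∈ X, ∀ r ∈ Icc 0 t, -p' e r ≤ ∑ b ∈ X, T r e b * (n1 b r + n b r)
    + Qo X (T r) (fun x => gs e x r) (fun x => n1 x r + n x r)
    + Qo X (T r) (fun x => gp e x r) (fun x => D x r + c4 r * p x r)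
  on : ∀ e ∈ X, ∀ r ∈ Icc 0 t, -n' e r ≤ ∑ b ∈ X, T r e b * (E b r + c1 r * p b r)
    + Qo X (T r) (fun x => gp e x r) (fun x => n1 x r + n x r)
    + Qo X (T r) (fun x => gs e x r) (fun x => D x r + c4 r * p x r)
  p0 : ∀ e, ∀ r ∈ Icc 0 t, 0 ≤ p e r
  n0 : ∀ e, ∀ r ∈ Icc 0 t, 0 ≤ n e r

theorem Qo_mono_r {X : Finset V} {T : V → V → ℝ} {g a b : V → ℝ} (hT : ∀ x y, 0 ≤ T x y)
    (hg : ∀ x, 0 ≤ g x) (hab : ∀ x ∈ X, a x ≤ b x) : Qo X T g a ≤ Qo X T g b :=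
  Finset.sum_le_sum fun x hx => Finset.sum_le_sum fun y hy => mul_le_mul_of_nonneg_left
    (mul_le_mul_of_nonneg_left (add_le_add (hab x hx) (hab y hy)) (hg x)) (hT x y)

/-- scalar coefficients from vertex functions -/
theorem Tl.toTu {X : Finset V} {t : ℝ} {T : ℝ → V → V → ℝ} {D D' E n1 : V → ℝ → ℝ}
    {gp gs : V → V → ℝ → ℝ} {c1 c4 p n : V → ℝ → ℝ} {C1 C4 : ℝ → ℝ}
    (hl : Tl X t T D n1 gp gs c1 c4 p n) (T0 : ∀ r ∈ Icc 0 t, ∀ i j, 0 ≤ T r i j)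
    (gp0 : ∀ i j, ∀ r ∈ Icc 0 t, 0 ≤ gp i j r) (gs0 : ∀ i j, ∀ r ∈ Icc 0 t, 0 ≤ gs i j r)
    (h1 : ∀ b ∈ X, ∀ r ∈ Icc 0 t, c1 b r * p b r ≤ E b r + C1 r * p b r)
    (h4 : ∀ x ∈ X, ∀ r ∈ Icc 0 t, D x r + c4 x r * p x r ≤ D' x r + C4 r * p x r) :
    ∃ p' n', Tu X t T D' E n1 gp gs C1 C4 p p' n n' := by
  refine ⟨_, _, ⟨hl.dp, hl.dn, fun e he r hr => ?_, fun e he r hr => ?_, hl.p0, hl.n0⟩⟩
  · rw [neg_neg]
    exact add_le_add le_rfl (Qo_mono_r (T0 r hr) (fun x => gp0 e x r hr)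
      fun x hx => h4 x hx r hr)
  · rw [neg_neg]
    exact add_le_add (add_le_add (Finset.sum_le_sum fun b hb =>
      mul_le_mul_of_nonneg_left (h1 b hb r hr) (T0 r hr e b)) le_rfl)
      (Qo_mono_r (T0 r hr) (fun x => gs0 e x r hr) fun x hx => h4 x hx r hr)

end Pool.Agent.RX.RCM
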