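import Pool.Agent.RX.RCM.Mono_1
import Pool.Agent.RX.RCM.Tail_1

/-! Level 2 of the closures: existence, and weighted double sums over the two targets
(MP_73ccd0_lc, route M). -/

namespace Pool.Agent.RX.RCM

open Set Finset MeasureTheory

set_option linter.unusedSectionVars false

variable {V : Type*} [Fintype V] [DecidableEq V]

/-- continuity of the pair operator -/
theorem Qo_cont {X : Finset V} {s : ℝ} {T : ℝ → V → V → ℝ} {g a : V → ℝ → ℝ}
    (cT : ∀ i j, ContinuousOn (fun r => T r i j) (Icc 0 s))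
    (cg : ∀ i, ContinuousOn (g i) (Icc 0 s)) (ca : ∀ i, ContinuousOn (a i) (Icc 0 s)) :
    ContinuousOn (fun r => Qo X (T r) (fun x => g x r) (fun x => a x r)) (Icc 0 s) := by
  unfold Qo
  exact continuousOn_finsetSum _ fun x _ => continuousOn_finsetSum _ fun y _ =>
    (cT x y).mul ((cg x).mul ((ca x).add (ca y)))

/-- a backward primitive on `[0, s]` -/
theorem exists_back {f : ℝ → ℝ} {s : ℝ} (hs : 0 ≤ s) (hf : ContinuousOn f (Icc 0 s)) (c : ℝ) :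
    ∃ k : ℝ → ℝ, (∀ r ∈ Icc 0 s, HasDerivAt k (-f r) r) ∧ k s = c ∧
      ∀ r ∈ Icc 0 s, k r = c + ∫ z in r..s, f z := by
  set fe : ℝ → ℝ := fun r => f (max 0 (min r s)) with hfe
  have hmem : ∀ r, max 0 (min r s) ∈ Icc 0 s := fun r =>
    ⟨le_max_left _ _, max_le hs (min_le_right _ _)⟩
  have heq : ∀ r ∈ Icc 0 s, max 0 (min r s) = r := fun r hr => by
    rw [min_eq_left hr.2, max_eq_right hr.1]
  have hc : Continuous fe := hf.comp_continuous (by fun_prop) hmem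
  refine ⟨fun r => c + ((∫ z in (0 : ℝ)..s, fe z) - ∫ z in (0 : ℝ)..r, fe z), fun r hr => ?_, ?_,
    fun r hr => ?_⟩
  · have := ((hc.integral_hasStrictDerivAt 0 r).hasDerivAt.const_sub
      (∫ z in (0 : ℝ)..s, fe z)).const_add c
    refine this.congr_deriv ?_
    show -fe r = -f r
    simp only [hfe, heq r hr]
  · beta_reduce
    ring
  · beta_reduce
    rw [intervalIntegral.integral_interval_sub_left (hc.intervalIntegrable _ _)
      (hc.intervalIntegrable _ _)]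
    congr 1
    refine intervalIntegral.integral_congr fun z hz => ?_
    rw [uIcc_of_le hr.2] at hz
    show f _ = f z
    rw [heq z ⟨hr.1.trans hz.1, hz.2⟩]

/-- **existence of the closure function of level 2** -/
theorem exists_k {X : Finset V} {s : ℝ} (hs : 0 ≤ s) {T : ℝ → V → V → ℝ}
    (Ts : ∀ r ∈ Icc 0 s, ∀ x y, T r x y = T r y x) (T0 : ∀ r ∈ Icc 0 s, ∀ x y, 0 ≤ T r x y)
    (Tz : ∀ r ∈ Icc 0 s, ∀ x, T r x x = 0)
    (cT : ∀ i j, ContinuousOn (fun r => T r i j) (Icc 0 s))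
    {pc nc pd nd Ec Ed : V → ℝ → ℝ}
    (cnc : ∀ i, ContinuousOn (nc i) (Icc 0 s)) (cnd : ∀ i, ContinuousOn (nd i) (Icc 0 s))
    (cEc : ∀ i, ContinuousOn (Ec i) (Icc 0 s)) (cEd : ∀ i, ContinuousOn (Ed i) (Icc 0 s))
    (nc0 : ∀ i, ∀ r ∈ Icc 0 s, 0 ≤ nc i r) (nd0 : ∀ i, ∀ r ∈ Icc 0 s, 0 ≤ nd i r)
    (pd0 : ∀ i, ∀ r ∈ Icc 0 s, 0 ≤ pd i r)
    (Ec0 : ∀ i, ∀ r ∈ Icc 0 s, 0 ≤ Ec i r) (Ed0 : ∀ i, ∀ r ∈ Icc 0 s, 0 ≤ Ed i r)
    (hEc : ∀ x ∈ X, ∀ y ∈ X, x ≠ y → ∀ r ∈ Icc 0 s,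
      Real.exp (pc x r + pc y r) - 1 ≤ Ec x r + Ec y r)
    (hEd : ∀ x ∈ X, ∀ y ∈ X, x ≠ y → ∀ r ∈ Icc 0 s,
      Real.exp (pd x r + pd y r) - 1 ≤ Ed x r + Ed y r) (kT : ℝ) :
    ∃ k k' : ℝ → ℝ, Sk X s T pc nc pd nd k k' ∧ k s = kT ∧
      ∀ r ∈ Icc 0 s, k r = kT + ∫ z in r..s,
        (Qo X (T z) (fun x => nc x z) (fun x => Ed x z)
          + Qo X (T z) (fun x => nd x z) (fun x => Ec x z)) := by
  obtain ⟨k, dk, ks, k0⟩ := exists_back hs
    ((Qo_cont (X := X) cT cnc cEd).add (Qo_cont (X := X) cT cnd cEc)) kT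
  refine ⟨k, _, ⟨dk, fun r hr => ?_⟩, ks, k0⟩
  rw [neg_neg]
  have e1 : ∀ z : ℝ, 1 - Real.exp (-z) ≤ z := fun z => by
    have := Real.add_one_le_exp (-z); linarith
  have e1' : ∀ {z : ℝ}, 0 ≤ z → 0 ≤ 1 - Real.exp (-z) := fun {z} hz => by
    have := Real.exp_le_one_iff.2 (by linarith : -z ≤ 0); linarith
  have e2 : ∀ {z : ℝ}, 0 ≤ z → 0 ≤ Real.exp z - 1 := fun {z} hz => by
    have := Real.one_le_exp hz; linarith
  refine le_trans ?_ (add_le_add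
    (half_le_Qo (Finset.Subset.refl X) (Ts r hr) (T0 r hr) (g := fun x => nc x r)
      (a := fun x => Ed x r) (fun x => nc0 x r hr) (fun x => Ed0 x r hr))
    (half_le_Qo (Finset.Subset.refl X) (Ts r hr) (T0 r hr) (g := fun x => nd x r)
      (a := fun x => Ec x r) (fun x => nd0 x r hr) (fun x => Ec0 x r hr)))
  rw [← mul_add, ← Finset.sum_add_distrib]
  refine mul_le_mul_of_nonneg_left (Finset.sum_le_sum fun x hx => ?_) (by norm_num)
  rw [← Finset.sum_add_distrib]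
  refine Finset.sum_le_sum fun y hy => ?_
  rw [← mul_add]
  by_cases hxy : x = y
  · subst hxy
    rw [Tz r hr x]; simp
  refine mul_le_mul_of_nonneg_left ?_ (T0 r hr x y)
  have b1 := mul_le_mul (e1 (nc x r + nc y r)) (hEd x hx y hy hxy r hr)
    (e2 (add_nonneg (pd0 x r hr) (pd0 y r hr))) (add_nonneg (nc0 x r hr) (nc0 y r hr))
  have b2 := mul_le_mul (hEc x hx y hy hxy r hr) (e1 (nd x r + nd y r))
    (e1' (add_nonneg (nd0 x r hr) (nd0 y r hr))) (add_nonneg (Ec0 x r hr) (Ec0 y r hr))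
  have c1 := mul_nonneg (add_nonneg (nc0 x r hr) (nc0 y r hr))
    (add_nonneg (Ed0 x r hr) (Ed0 y r hr))
  have c2 := mul_nonneg (add_nonneg (nd0 x r hr) (nd0 y r hr))
    (add_nonneg (Ec0 x r hr) (Ec0 y r hr))
  refine max_le ?_ ?_
  · linarith
  · linarith

theorem Qo_mono {X Y : Finset V} (hXY : X ⊆ Y) {T : V → V → ℝ} {g g' a a' : V → ℝ}
    (hT : ∀ x y, 0 ≤ T x y) (hg : ∀ x ∈ X, g x ≤ g' x) (ha : ∀ x ∈ X, a x ≤ a' x)
    (a0 : ∀ x, 0 ≤ a x) (g0' : ∀ x, 0 ≤ g' x) (a0' : ∀ x, 0 ≤ a' x) :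
    Qo X T g a ≤ Qo Y T g' a' := by
  unfold Qo
  have nn : ∀ x y, 0 ≤ T x y * (g' x * (a' x + a' y)) := fun x y =>
    mul_nonneg (hT x y) (mul_nonneg (g0' x) (add_nonneg (a0' x) (a0' y)))
  refine (Finset.sum_le_sum fun x hx => Finset.sum_le_sum fun y hy =>
    mul_le_mul_of_nonneg_left (mul_le_mul (hg x hx) (add_le_add (ha x hx) (ha y hy))
      (add_nonneg (a0 x) (a0 y)) (g0' x)) (hT x y)).trans ?_
  refine (Finset.sum_le_sum fun x _ =>
    Finset.sum_le_sum_of_subset_of_nonneg hXY fun y _ _ => nn x y).trans ?_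
  exact Finset.sum_le_sum_of_subset_of_nonneg hXY fun x _ _ => Finset.sum_nonneg fun y _ => nn x y

theorem Qo_sum1 {ι : Type*} (X : Finset V) (T : V → V → ℝ) (a : V → ℝ) (I : Finset ι)
    (w : ι → ℝ) (g : ι → V → ℝ) :
    ∑ i ∈ I, w i * Qo X T (g i) a = Qo X T (fun x => ∑ i ∈ I, w i * g i x) a := by
  unfold Qo
  simp only [Finset.mul_sum, Finset.sum_mul]
  rw [Finset.sum_comm]
  refine Finset.sum_congr rfl fun x _ => ?_
  rw [Finset.sum_comm]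
  exact Finset.sum_congr rfl fun y _ => Finset.sum_congr rfl fun i _ => by ring

end Pool.Agent.RX.RCM
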