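import Mathlib

/-! The closures in terms of majorants of the removal rates: one system for both phases
(MP_73ccd0_lc, route M). -/

namespace Pool.Agent.RX.RCM

open Set Finset

set_option linter.unusedSectionVars false

variable {V : Type*} [Fintype V] [DecidableEq V]

/-- level 1/2 in terms of majorants: `T` for `h W`, `A` for `h (W - 1)`, `B` for `h (1 - T)` -/
structure S12 (U : Finset V) (t : ℝ) (T A B : ℝ → V → V → ℝ)
    (gp gp' gm gm' : V → V → ℝ → ℝ) : Prop where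
  dp : ∀ i ∈ U, ∀ j ∈ U, ∀ r ∈ Icc 0 t, HasDerivAt (gp i j) (gp' i j r) r
  dm : ∀ i ∈ U, ∀ j ∈ U, ∀ r ∈ Icc 0 t, HasDerivAt (gm i j) (gm' i j r) r
  gp0 : ∀ i j, ∀ r ∈ Icc 0 t, 0 ≤ gp i j r
  gm0 : ∀ i j, ∀ r ∈ Icc 0 t, 0 ≤ gm i j r
  op : ∀ i ∈ U, ∀ j ∈ U, i ≠ j → ∀ r ∈ Icc 0 t,
      A r i j
        + ∑ b ∈ (U.erase i).erase j, T r i b * (1 - Real.exp (-gm j b r))
        + ∑ b ∈ (U.erase i).erase j, T r j b * (1 - Real.exp (-gm i b r))
        + (1 / 2) * ∑ x ∈ (U.erase i).erase j, ∑ y ∈ (U.erase i).erase j, T r x y *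
          (max ((1 - Real.exp (-(gp j x r + gp j y r))) * (1 - Real.exp (-(gp i x r + gp i y r))))
            ((1 - Real.exp (-(gm j x r + gm j y r))) * (1 - Real.exp (-(gm i x r + gm i y r)))))
      ≤ -gp' i j r
  om : ∀ i ∈ U, ∀ j ∈ U, i ≠ j → ∀ r ∈ Icc 0 t,
      B r i j
        + ∑ b ∈ (U.erase i).erase j, T r i b * (1 - Real.exp (-gp j b r))
        + ∑ b ∈ (U.erase i).erase j, T r j b * (1 - Real.exp (-gp i b r))
        + (1 / 2) * ∑ x ∈ (U.erase i).erase j, ∑ y ∈ (U.erase i).erase j, T r x y *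
          (max ((1 - Real.exp (-(gp j x r + gp j y r))) * (1 - Real.exp (-(gm i x r + gm i y r))))
            ((1 - Real.exp (-(gm j x r + gm j y r))) * (1 - Real.exp (-(gp i x r + gp i y r)))))
      ≤ -gm' i j r

/-- level 2 in terms of majorants -/
structure Sk (X : Finset V) (s : ℝ) (T : ℝ → V → V → ℝ)
    (pc nc pd nd : V → ℝ → ℝ) (k k' : ℝ → ℝ) : Prop where
  d : ∀ r ∈ Icc 0 s, HasDerivAt k (k' r) r
  o : ∀ r ∈ Icc 0 s,
      (1 / 2) * ∑ x ∈ X, ∑ y ∈ X, T r x y *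
          (max ((1 - Real.exp (-(nc x r + nc y r))) * (Real.exp (pd x r + pd y r) - 1))
            ((Real.exp (pc x r + pc y r) - 1) * (1 - Real.exp (-(nd x r + nd y r)))))
      ≤ -k' r

variable {h : ℝ → V → V → ℝ} {H : V → V → ℝ → ℝ}

section

variable {c d : V} {A D : Finset V} {s t : ℝ} {U : Finset V} {Pa Pa' Na Na' P P' N N' : V → ℝ → ℝ}
  {T Am Bm : ℝ → V → V → ℝ} {gp gp' gm gm' : V → V → ℝ → ℝ}
  {pc pc' nc nc' pd pd' nd nd' : V → ℝ → ℝ}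
  {ptca ptca' ptc ptc' ptd ptd' k k' : ℝ → ℝ} {κc κd : ℝ → V → ℝ}

end

end Pool.Agent.RX.RCM
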