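import Mathlib

/-! Level 0 in the form used by the ratio closures (MP_73ccd0_lc, route M). -/

namespace Pool.Agent.RX.RCM

open Set Finset

set_option linter.unusedSectionVars false

variable {V : Type*} [Fintype V] [DecidableEq V]

/-- level 0 closure functions for killing rates `κ` on `[0, t]` -/
structure L0 (h : ℝ → V → V → ℝ) (κ : ℝ → V → ℝ) (U : Finset V) (t : ℝ)
    (P P' N N' : V → ℝ → ℝ) : Prop where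
  Pd : ∀ a ∈ U, ∀ r ∈ Icc 0 t, HasDerivAt (P a) (P' a r) r
  Nd : ∀ a ∈ U, ∀ r ∈ Icc 0 t, HasDerivAt (N a) (N' a r) r
  P0 : ∀ a, ∀ r ∈ Icc 0 t, 0 ≤ P a r
  N0 : ∀ a, ∀ r ∈ Icc 0 t, 0 ≤ N a r
  N1 : ∀ a, ∀ r ∈ Icc 0 t, N a r ≤ 1
  oP : ∀ a ∈ U, ∀ r ∈ Icc 0 t, (1 + P a r) * (κ r a + ∑ b ∈ U, h r a b * N b r) ≤ -P' a r
  oN : ∀ a ∈ U, ∀ r ∈ Icc 0 t, ∑ b ∈ U, h r a b * P b r ≤ -N' a r

/-- single removals at a fixed time -/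
def Inf0 (Φ : Finset V → ℝ → ℝ) (U : Finset V) (P N : V → ℝ → ℝ) (r : ℝ) : Prop :=
  ∀ G ⊆ U, ∀ a ∈ G, Φ (G.erase a) r ≤ (1 + P a r) * Φ G r ∧ (1 - N a r) * Φ G r ≤ Φ (G.erase a) r

end Pool.Agent.RX.RCM
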