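import Pool.Agent.RX.RCM.Cond
import Pool.Agent.RX.RCM.Mono_1
import Pool.Agent.RX.RCM.Zero_1

/-! The closures in terms of majorants of the removal rates: one system for both phases
(MP_73ccd0_lc, route M). -/

namespace Pool.Agent.RX.RCM

open Set Finset

set_option linter.unusedSectionVars false

variable {V : Type*} [Fintype V] [DecidableEq V]

/-- level 1 in terms of majorants; `κ` majorises the killing rate of the target -/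
structure SV (X : Finset V) (t : ℝ) (κ : ℝ → V → ℝ) (T : ℝ → V → V → ℝ)
    (gp gm : V → V → ℝ → ℝ) (p p' n n' : V → ℝ → ℝ) : Prop where
  dp : ∀ e ∈ X, ∀ r ∈ Icc 0 t, HasDerivAt (p e) (p' e r) r
  dn : ∀ e ∈ X, ∀ r ∈ Icc 0 t, HasDerivAt (n e) (n' e r) r
  p0 : ∀ e, ∀ r ∈ Icc 0 t, 0 ≤ p e r
  n0 : ∀ e, ∀ r ∈ Icc 0 t, 0 ≤ n e r
  op : ∀ e ∈ X, ∀ r ∈ Icc 0 t,
      κ r e
        + ∑ b ∈ X.erase e, T r e b * (1 - Real.exp (-n b r))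
        + (1 / 2) * ∑ x ∈ X.erase e, ∑ y ∈ X.erase e, T r x y *
          (max ((1 - Real.exp (-(n x r + n y r))) * (1 - Real.exp (-(gm e x r + gm e y r))))
            ((Real.exp (p x r + p y r) - 1) * (1 - Real.exp (-(gp e x r + gp e y r)))))
      ≤ -p' e r
  on : ∀ e ∈ X, ∀ r ∈ Icc 0 t,
      ∑ b ∈ X.erase e, T r e b * (Real.exp (p b r) - 1)
        + (1 / 2) * ∑ x ∈ X.erase e, ∑ y ∈ X.erase e, T r x y *
          (max ((1 - Real.exp (-(n x r + n y r))) * (1 - Real.exp (-(gp e x r + gp e y r))))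
            ((Real.exp (p x r + p y r) - 1) * (1 - Real.exp (-(gm e x r + gm e y r)))))
      ≤ -n' e r

variable {h : ℝ → V → V → ℝ} {H : V → V → ℝ → ℝ}

/-- the data of a world: level 0 in both phases, and the single system of majorants -/
structure Wld (h : ℝ → V → V → ℝ) (A D : Finset V) (s t : ℝ) (U : Finset V)
    (Pa Pa' Na Na' P P' N N' : V → ℝ → ℝ) (T Am Bm : ℝ → V → V → ℝ)
    (gp gp' gm gm' : V → V → ℝ → ℝ) : Prop where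
  La : L0 h (fun r v => ∑ w ∈ A, h r w v) U t Pa Pa' Na Na'
  L : L0 h (fun r v => ∑ w ∈ D, h r w v) U s P P' N N'
  mP : ∀ e ∈ U, Pa e s ≤ P e s
  mN : ∀ e ∈ U, Na e s ≤ N e s
  Ta : ∀ r ∈ Icc 0 t, ∀ i ∈ U, ∀ j ∈ U, h r i j * Wf Pa r i j ≤ T r i j
  Aa : ∀ r ∈ Icc 0 t, ∀ i ∈ U, ∀ j ∈ U, h r i j * (Wf Pa r i j - 1) ≤ Am r i j
  Ba : ∀ r ∈ Icc 0 t, ∀ i ∈ U, ∀ j ∈ U, h r i j * (1 - Tf Na r i j) ≤ Bm r i j
  Td : ∀ r ∈ Icc 0 s, ∀ i ∈ U, ∀ j ∈ U, h r i j * Wf P r i j ≤ T r i j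
  Ad : ∀ r ∈ Icc 0 s, ∀ i ∈ U, ∀ j ∈ U, h r i j * (Wf P r i j - 1) ≤ Am r i j
  Bd : ∀ r ∈ Icc 0 s, ∀ i ∈ U, ∀ j ∈ U, h r i j * (1 - Tf N r i j) ≤ Bm r i j
  g : S12 U t T Am Bm gp gp' gm gm'

section

variable {c d : V} {A D : Finset V} {s t : ℝ} {U : Finset V} {Pa Pa' Na Na' P P' N N' : V → ℝ → ℝ}
  {T Am Bm : ℝ → V → V → ℝ} {gp gp' gm gm' : V → V → ℝ → ℝ}
  {pc pc' nc nc' pd pd' nd nd' : V → ℝ → ℝ}
  {ptca ptca' ptc ptc' ptd ptd' k k' : ℝ → ℝ} {κc κd : ℝ → V → ℝ}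

end

end Pool.Agent.RX.RCM
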