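import Pool.Agent.RX.RCM.VGen

/-! Two-phase form of the closures: world `A` on `[0, t]`, world `D` on `[0, s]`, with terminal
conditions at `s`; logarithmic form of the constant (MP_73ccd0_lc, route M). -/

namespace Pool.Agent.RX.RCM

open Set Finset Pool.Agent.RX.RCRSHalf Pool.Agent.RX.RCG

set_option linter.unusedSectionVars false

variable {V : Type*} [Fintype V] [DecidableEq V]
variable {h : ℝ → V → V → ℝ} {H : V → V → ℝ → ℝ}

/-- logarithmic form of the constant -/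
theorem K_le_exp {k0 g0 H0 n1 n2 q1 q2 : ℝ}
    (a2 : 0 ≤ Real.exp n2 - q2) :
    Real.exp (k0 + g0 + H0) * ((Real.exp n1 - q1) * (Real.exp n2 - q2))
      ≤ Real.exp (k0 + g0 + n1 + n2 + (H0 - q1 * Real.exp (-n1) - q2 * Real.exp (-n2))) := by
  have key : ∀ n q : ℝ, Real.exp n - q ≤ Real.exp (n - q * Real.exp (-n)) := by
    intro n q
    have h1 : Real.exp n - q = Real.exp n * (1 - q * Real.exp (-n)) := by
      have : Real.exp n * Real.exp (-n) = 1 := by rw [← Real.exp_add]; simp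
      linear_combination q * this
    have h2 : 1 - q * Real.exp (-n) ≤ Real.exp (-(q * Real.exp (-n))) := by
      have := Real.add_one_le_exp (-(q * Real.exp (-n)))
      linarith
    rw [h1, sub_eq_add_neg n, Real.exp_add]
    exact mul_le_mul_of_nonneg_left h2 (Real.exp_pos _).le
  have h1 := mul_le_mul (key n1 q1) (key n2 q2) a2 (Real.exp_pos _).le
  have h2 := mul_le_mul_of_nonneg_left h1 (Real.exp_pos (k0 + g0 + H0)).le
  refine h2.trans (le_of_eq ?_)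
  rw [← Real.exp_add, ← Real.exp_add]
  congr 1
  ring

section

variable {c d : V} {A D : Finset V} {s t : ℝ} {U : Finset V} {Pa Pa' Na Na' P P' N N' : V → ℝ → ℝ}
  {gpa gpa' gma gma' gp gp' gm gm' : V → V → ℝ → ℝ}
  {pca pca' nca nca' pc pc' nc nc' pd pd' nd nd' : V → ℝ → ℝ}
  {ptca ptca' ptc ptc' ptd ptd' k k' : ℝ → ℝ} {Ra Rac : Finset V → ℝ → ℝ}

/-- the bounds in the world with the targets `A` on `[0, t]`, closures for the killing of `A` -/
theorem worldAV2 (hh : Haz h H) (hcd : c ≠ d) (hdU : d ∈ U) (ht : 0 ≤ t)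
    (hRa : Wd h (fun r v => ∑ w ∈ A, h r w v) t Ra) (a1 : ∀ F, Ra F t = 1)
    (hRac : Wd h (fun r v => ∑ w ∈ A, h r w v + h r c v) t Rac) (c1 : ∀ F, Rac F t = 1)
    (hL : L0 h (fun r v => ∑ w ∈ A, h r w v) U t Pa Pa' Na Na')
    (hG : G12 h U t (Wf Pa) (Tf Na) gpa gpa' gma gma')
    (hGc : GV h (U.erase c) c t (Wf Pa) gpa gma pca pca' nca nca')
    (hIc : Ipt h (U.erase c) c d t (Wf Pa) ptca ptca') (ptc0 : ptca t = 0) :
    (∀ r ∈ Icc 0 t, Inf0 Ra U Pa Na r) ∧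
    (∀ F ⊆ U, ∀ i ∈ U, ∀ j ∈ U, i ∉ F → j ∉ F → i ≠ j → ∀ r ∈ Icc 0 t, B12 Ra gpa gma i j F r) ∧
    (∀ F ⊆ U.erase c, ∀ e ∈ U.erase c, e ∉ F → ∀ r ∈ Icc 0 t, Bv Ra Rac pca nca e F r) ∧
    (∀ F ⊆ U.erase c, d ∉ F → ∀ r ∈ Icc 0 t,
      Rac (insert d F) r * Ra F r
        ≤ (Real.exp (nca d r) - ptca r) * (Rac F r * Ra (insert d F) r)) :=
  worldAVD hh Finset.Subset.rfl hcd hdU ht hRa a1 hRac c1 hL hG hGc hIc ptc0

/-- hypotheses of the two-phase closures -/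
structure Ph2 (h : ℝ → V → V → ℝ) (A D : Finset V) (c d : V) (s t : ℝ) (U : Finset V)
    (Pa Pa' Na Na' : V → ℝ → ℝ) (gpa gpa' gma gma' : V → V → ℝ → ℝ)
    (pca pca' nca nca' : V → ℝ → ℝ) (ptca ptca' : ℝ → ℝ)
    (P P' N N' : V → ℝ → ℝ) (gp gp' gm gm' : V → V → ℝ → ℝ)
    (pc pc' nc nc' : V → ℝ → ℝ) (ptc ptc' : ℝ → ℝ)
    (pd pd' nd nd' : V → ℝ → ℝ) (ptd ptd' k k' : ℝ → ℝ) : Prop where
  La : L0 h (fun r v => ∑ w ∈ A, h r w v) U t Pa Pa' Na Na'
  Ga : G12 h U t (Wf Pa) (Tf Na) gpa gpa' gma gma'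
  Gca : GV h (U.erase c) c t (Wf Pa) gpa gma pca pca' nca nca'
  Ica : Ipt h (U.erase c) c d t (Wf Pa) ptca ptca'
  ptca0 : ptca t = 0
  L : L0 h (fun r v => ∑ w ∈ D, h r w v) U s P P' N N'
  G : G12 h U s (Wf P) (Tf N) gp gp' gm gm'
  Gc : GV h (U.erase c) c s (Wf P) gp gm pc pc' nc nc'
  Ic : Ipt h (U.erase c) c d s (Wf P) ptc ptc'
  Gd : GV h (U.erase d) d s (Wf P) gp gm pd pd' nd nd'
  Id : Ipt h (U.erase d) d c s (Wf P) ptd ptd'
  ptd0 : ptd s = 0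
  Gk : Gk h ((U.erase c).erase d) s (Wf P) pc nc pd nd k k'
  mP : ∀ e ∈ U, Pa e s ≤ P e s
  mN : ∀ e ∈ U, Na e s ≤ N e s
  mgp : ∀ i ∈ U, ∀ j ∈ U, gpa i j s ≤ gp i j s
  mgm : ∀ i ∈ U, ∀ j ∈ U, gma i j s ≤ gm i j s
  mpc : ∀ e ∈ U.erase c, pca e s ≤ pc e s
  mnc : ∀ e ∈ U.erase c, nca e s ≤ nc e s
  mpt : ptc s ≤ ptca s

/-- (C), two-phase form: `d` removed at time `s` -/
theorem condVCD2 (hh : Haz h H) (hca : c ∉ D) (hda : d ∉ D) (hcd : c ≠ d) (ht : t ∈ Icc (0 : ℝ) 1) (hs : s ∈ Icc 0 t)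
    (hRa : Wd h (fun r v => ∑ w ∈ A, h r w v) t Ra) (a1 : ∀ F, Ra F t = 1)
    (hRac : Wd h (fun r v => ∑ w ∈ A, h r w v + h r c v) t Rac) (c1 : ∀ F, Rac F t = 1)
    (hU : U = Dᶜ)
    (hp : Ph2 h A D c d s t U Pa Pa' Na Na' gpa gpa' gma gma' pca pca' nca nca' ptca ptca'
      P P' N N' gp gp' gm gm' pc pc' nc nc' ptc ptc' pd pd' nd nd' ptd ptd' k k')
    (hk : 0 ≤ k s) :
    ex (lw h ∅ s) (insert d D) (fun F => Ra F s)
        * ex (lw h ∅ s) (insert c D) (fun F => Rac F s)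
      ≤ (Real.exp (k 0 + gm c d 0 + H c d s) *
          ((Real.exp (nc d 0) - ptc 0) * (Real.exp (nd c 0) - ptd 0))) *
        (ex (lw h ∅ s) ({c, d} ∪ D) (fun F => Rac F s)
          * ex (lw h ∅ s) D (fun F => Ra F s)) := by
  have hdU : d ∈ U := by
    rw [hU, Finset.mem_compl]
    exact hda
  obtain ⟨i0, l12, l1, li⟩ := worldAV2 hh hcd hdU ht.1 hRa a1 hRac c1 hp.La hp.Ga
    hp.Gca hp.Ica hp.ptca0
  have ss : s ∈ Icc 0 s := ⟨hs.1, le_rfl⟩
  have j0 : Inf0 (fun F _ => Ra F s) U P N s := fun G hG x hx => by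
    have w1 := hRa.pos G s hs
    obtain ⟨x1, x2⟩ := i0 s hs G hG x hx
    have m1 := mul_le_mul_of_nonneg_right (hp.mP x (hG hx)) w1.le
    have m2 := mul_le_mul_of_nonneg_right (hp.mN x (hG hx)) w1.le
    constructor
    · linarith
    · linarith
  have j12 : ∀ F ⊆ U, ∀ i ∈ U, ∀ j ∈ U, i ∉ F → j ∉ F → i ≠ j →
      B12 (fun F _ => Ra F s) gp gm i j F s := fun F hF i hi j hj hiF hjF hij => by
    obtain ⟨x1, x2⟩ := l12 F hF i hi j hj hiF hjF hij s hs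
    have e1 := Real.exp_le_exp.2 (hp.mgm i hi j hj)
    have e2 := Real.exp_le_exp.2 (hp.mgp i hi j hj)
    have w1 : 0 < Ra F s * Ra (insert i (insert j F)) s := mul_pos (hRa.pos _ s hs) (hRa.pos _ s hs)
    have w2 : 0 < Ra (insert j F) s * Ra (insert i F) s := mul_pos (hRa.pos _ s hs) (hRa.pos _ s hs)
    exact ⟨x1.trans (mul_le_mul_of_nonneg_right e1 w1.le),
      x2.trans (mul_le_mul_of_nonneg_right e2 w2.le)⟩
  have j1 : ∀ F ⊆ U.erase c, ∀ e ∈ U.erase c, e ∉ F →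
      Bv (fun F _ => Ra F s) (fun F _ => Rac F s) pc nc e F s := fun F hF e he heF => by
    obtain ⟨x1, x2⟩ := l1 F hF e he heF s hs
    have e1 := Real.exp_le_exp.2 (hp.mnc e he)
    have e2 := Real.exp_le_exp.2 (hp.mpc e he)
    have w1 : 0 < Rac F s * Ra (insert e F) s := mul_pos (hRac.pos _ s hs) (hRa.pos _ s hs)
    have w2 : 0 < Rac (insert e F) s * Ra F s := mul_pos (hRac.pos _ s hs) (hRa.pos _ s hs)
    exact ⟨x1.trans (mul_le_mul_of_nonneg_right e1 w1.le),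
      x2.trans (mul_le_mul_of_nonneg_right e2 w2.le)⟩
  have jic : ∀ F ⊆ U.erase c, d ∉ F → Rac (insert d F) s * Ra F s
      ≤ (Real.exp (nc d s) - ptc s) * (Rac F s * Ra (insert d F) s) := fun F hF hdF => by
    have x1 := li F hF hdF s hs
    have e1 := Real.exp_le_exp.2 (hp.mnc d (Finset.mem_erase.2 ⟨fun h => hcd h.symm, hdU⟩))
    have w1 : 0 < Rac F s * Ra (insert d F) s := mul_pos (hRac.pos _ s hs) (hRa.pos _ s hs)
    exact x1.trans (mul_le_mul_of_nonneg_right (by linarith [hp.mpt]) w1.le)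
  refine coreVD hh hca hda hcd ⟨hs.1, hs.2.trans ht.2⟩ hU hp.L hp.G hp.Gc hp.Gd hp.Ic hp.Id
    hp.Gk (fun F => hRa.pos F s hs) (fun F => hRac.pos F s hs) (fun F => hRa.pos F s hs)
    (fun F => hRac.pos F s hs) j0 j12 j1
    (fun F hF e he heF => ?_) jic (fun F hF hcF => ?_)
    (fun F hF => ?_)
  · unfold Bv
    have h1 := Real.one_le_exp (hp.Gd.n0 e s ss)
    have h2 := Real.one_le_exp (hp.Gd.p0 e s ss)
    have w1 : 0 < Ra F s * Ra (insert e F) s := mul_pos (hRa.pos _ s hs) (hRa.pos _ s hs)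
    simp only
    constructor <;> nlinarith
  · have h1 := Real.one_le_exp (hp.Gd.n0 c s ss)
    have w1 : 0 < Ra F s * Ra (insert c F) s := mul_pos (hRa.pos _ s hs) (hRa.pos _ s hs)
    rw [hp.ptd0]
    nlinarith
  · have h1 := Real.one_le_exp hk
    have w1 : 0 < Rac F s * Ra F s := mul_pos (hRac.pos _ s hs) (hRa.pos _ s hs)
    nlinarith

/-- (Ct), two-phase form: `d` released at time `s` -/
theorem condVCtD2 (hh : Haz h H) (hca : c ∉ D) (hda : d ∉ D) (hcd : c ≠ d) (ht : t ∈ Icc (0 : ℝ) 1) (hs : s ∈ Icc 0 t)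
    (hRa : Wd h (fun r v => ∑ w ∈ A, h r w v) t Ra) (a1 : ∀ F, Ra F t = 1)
    (hRac : Wd h (fun r v => ∑ w ∈ A, h r w v + h r c v) t Rac) (c1 : ∀ F, Rac F t = 1)
    (hU : U = Dᶜ)
    (hp : Ph2 h A D c d s t U Pa Pa' Na Na' gpa gpa' gma gma' pca pca' nca nca' ptca ptca'
      P P' N N' gp gp' gm gm' pc pc' nc nc' ptc ptc' pd pd' nd nd' ptd ptd' k k')
    (hde : ∀ e ∈ U, gma d e s ≤ pd e s ∧ gpa d e s ≤ nd e s) (hk : pca d s ≤ k s) :
    ex (lw h ∅ s) (insert d D) (fun F => Ra (insert d F) s)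
        * ex (lw h ∅ s) (insert c D) (fun F => Rac F s)
      ≤ (Real.exp (k 0 + gm c d 0 + H c d s) *
          ((Real.exp (nc d 0) - ptc 0) * (Real.exp (nd c 0) - ptd 0))) *
        (ex (lw h ∅ s) ({c, d} ∪ D) (fun F => Rac (insert d F) s)
          * ex (lw h ∅ s) D (fun F => Ra F s)) := by
  have hcU : c ∈ U := by
    rw [hU, Finset.mem_compl]
    exact hca
  have hdU : d ∈ U := by
    rw [hU, Finset.mem_compl]
    exact hda
  obtain ⟨i0, l12, l1, li⟩ := worldAV2 hh hcd hdU ht.1 hRa a1 hRac c1 hp.La hp.Ga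
    hp.Gca hp.Ica hp.ptca0
  have ss : s ∈ Icc 0 s := ⟨hs.1, le_rfl⟩
  have key : ∀ F ⊆ U.erase d, ∀ e ∈ U.erase d, e ∉ F →
      Bv (fun F _ => Ra F s) (fun F _ => Ra (insert d F) s) pd nd e F s := by
    intro F hF e he heF
    have heU := Finset.mem_of_mem_erase he
    have hed : d ≠ e := fun h => (Finset.notMem_erase d U) (h ▸ he)
    have hFU : F ⊆ U := hF.trans (Finset.erase_subset _ _)
    have hdF : d ∉ F := fun h => (Finset.notMem_erase d U) (hF h)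
    obtain ⟨x1, x2⟩ := l12 F hFU d hdU e heU hdF heF hed s hs
    obtain ⟨y1, y2⟩ := hde e heU
    have e1 := Real.exp_le_exp.2 y1
    have e2 := Real.exp_le_exp.2 y2
    have w1 : 0 < Ra F s * Ra (insert d (insert e F)) s := mul_pos (hRa.pos _ s hs) (hRa.pos _ s hs)
    have w2 : 0 < Ra (insert e F) s * Ra (insert d F) s := mul_pos (hRa.pos _ s hs) (hRa.pos _ s hs)
    unfold Bv
    simp only
    constructor
    · have z1 := x2.trans (mul_le_mul_of_nonneg_right e2 w2.le)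
      rw [mul_comm (Ra (insert d (insert e F)) s), mul_comm (Ra (insert d F) s)]
      exact z1
    · have z1 := x1.trans (mul_le_mul_of_nonneg_right e1 w1.le)
      rw [mul_comm (Ra (insert d (insert e F)) s), mul_comm (Ra (insert d F) s)]
      exact z1
  have j0 : Inf0 (fun F _ => Ra F s) U P N s := fun G hG x hx => by
    have w1 := hRa.pos G s hs
    obtain ⟨x1, x2⟩ := i0 s hs G hG x hx
    have m1 := mul_le_mul_of_nonneg_right (hp.mP x (hG hx)) w1.le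
    have m2 := mul_le_mul_of_nonneg_right (hp.mN x (hG hx)) w1.le
    constructor
    · linarith
    · linarith
  have j12 : ∀ F ⊆ U, ∀ i ∈ U, ∀ j ∈ U, i ∉ F → j ∉ F → i ≠ j →
      B12 (fun F _ => Ra F s) gp gm i j F s := fun F hF i hi j hj hiF hjF hij => by
    obtain ⟨x1, x2⟩ := l12 F hF i hi j hj hiF hjF hij s hs
    have e1 := Real.exp_le_exp.2 (hp.mgm i hi j hj)
    have e2 := Real.exp_le_exp.2 (hp.mgp i hi j hj)
    have w1 : 0 < Ra F s * Ra (insert i (insert j F)) s := mul_pos (hRa.pos _ s hs) (hRa.pos _ s hs)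
    have w2 : 0 < Ra (insert j F) s * Ra (insert i F) s := mul_pos (hRa.pos _ s hs) (hRa.pos _ s hs)
    exact ⟨x1.trans (mul_le_mul_of_nonneg_right e1 w1.le),
      x2.trans (mul_le_mul_of_nonneg_right e2 w2.le)⟩
  have j1 : ∀ F ⊆ U.erase c, ∀ e ∈ U.erase c, e ∉ F →
      Bv (fun F _ => Ra F s) (fun F _ => Rac F s) pc nc e F s := fun F hF e he heF => by
    obtain ⟨x1, x2⟩ := l1 F hF e he heF s hs
    have e1 := Real.exp_le_exp.2 (hp.mnc e he)
    have e2 := Real.exp_le_exp.2 (hp.mpc e he)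
    have w1 : 0 < Rac F s * Ra (insert e F) s := mul_pos (hRac.pos _ s hs) (hRa.pos _ s hs)
    have w2 : 0 < Rac (insert e F) s * Ra F s := mul_pos (hRac.pos _ s hs) (hRa.pos _ s hs)
    exact ⟨x1.trans (mul_le_mul_of_nonneg_right e1 w1.le),
      x2.trans (mul_le_mul_of_nonneg_right e2 w2.le)⟩
  have jic : ∀ F ⊆ U.erase c, d ∉ F → Rac (insert d F) s * Ra F s
      ≤ (Real.exp (nc d s) - ptc s) * (Rac F s * Ra (insert d F) s) := fun F hF hdF => by
    have x1 := li F hF hdF s hs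
    have e1 := Real.exp_le_exp.2 (hp.mnc d (Finset.mem_erase.2 ⟨fun h => hcd h.symm, hdU⟩))
    have w1 : 0 < Rac F s * Ra (insert d F) s := mul_pos (hRac.pos _ s hs) (hRa.pos _ s hs)
    exact x1.trans (mul_le_mul_of_nonneg_right (by linarith [hp.mpt]) w1.le)
  refine coreVD hh hca hda hcd ⟨hs.1, hs.2.trans ht.2⟩ hU hp.L hp.G hp.Gc hp.Gd hp.Ic hp.Id
    hp.Gk (fun F => hRa.pos F s hs) (fun F => hRac.pos F s hs) (fun F => hRa.pos _ s hs)
    (fun F => hRac.pos _ s hs) j0 j12 j1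
    key jic (fun F hF hcF => ?_)
    (fun F hF => ?_)
  · rw [hp.ptd0, sub_zero]
    exact (key F hF c (Finset.mem_erase.2 ⟨hcd, hcU⟩) hcF).1
  · have hFc : F ⊆ U.erase c := hF.trans (Finset.erase_subset _ _)
    have hdF : d ∉ F := fun h => (Finset.notMem_erase d (U.erase c)) (hF h)
    have x := (l1 F hFc d (Finset.mem_erase.2 ⟨fun h => hcd h.symm, hdU⟩) hdF s hs).2
    have e1 := Real.exp_le_exp.2 hk
    have w1 : 0 < Rac (insert d F) s * Ra F s := mul_pos (hRac.pos _ s hs) (hRa.pos _ s hs)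
    exact x.trans (mul_le_mul_of_nonneg_right e1 w1.le)

end

end Pool.Agent.RX.RCM
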