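import Pool.Agent.RX.RCM.BEps
import Pool.Agent.RX.RCM.BMl
import Pool.Agent.RX.RCM.Mono_2
import Pool.Agent.RX.RCM.VGen2

/-! The closures in terms of majorants of the removal rates: one system for both phases
(MP_73ccd0_lc, route M). -/

namespace Pool.Agent.RX.RCM

open Set Finset Pool.Agent.RX.RCRSHalf Pool.Agent.RX.RCRSGen Pool.Agent.RX.RCG

set_option linter.unusedSectionVars false

variable {V : Type*} [Fintype V] [DecidableEq V]

theorem S12.toG {U : Finset V} {s t : ℝ} {T A B : ℝ → V → V → ℝ}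
    {gp gp' gm gm' : V → V → ℝ → ℝ} (hS : S12 U t T A B gp gp' gm gm') (hst : s ≤ t)
    {h W W2 : ℝ → V → V → ℝ}
    (hT : ∀ r ∈ Icc 0 s, ∀ i ∈ U, ∀ j ∈ U, h r i j * W r i j ≤ T r i j)
    (hA : ∀ r ∈ Icc 0 s, ∀ i ∈ U, ∀ j ∈ U, h r i j * (W r i j - 1) ≤ A r i j)
    (hB : ∀ r ∈ Icc 0 s, ∀ i ∈ U, ∀ j ∈ U, h r i j * (1 - W2 r i j) ≤ B r i j) :
    G12 h U s W W2 gp gp' gm gm' := by
  have m : ∀ r ∈ Icc 0 s, r ∈ Icc 0 t := fun r hr => mem_of_le hst hr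
  have e1 : ∀ {z : ℝ}, 0 ≤ z → 0 ≤ 1 - Real.exp (-z) := fun {z} hz => by
    have := Real.exp_le_one_iff.2 (by linarith : -z ≤ 0); linarith
  have e2 : ∀ {z : ℝ}, 0 ≤ z → 0 ≤ Real.exp z - 1 := fun {z} hz => by
    have := Real.one_le_exp hz; linarith
  have k1 : ∀ r ∈ Icc 0 s, ∀ i ∈ U, ∀ j ∈ U, ∀ z : ℝ, 0 ≤ z →
      h r i j * (W r i j * z) ≤ T r i j * z := fun r hr i hi j hj z hz => by
    rw [← mul_assoc]; exact mul_le_mul_of_nonneg_right (hT r hr i hi j hj) hz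
  refine ⟨fun i hi j hj r hr => hS.dp i hi j hj r (m r hr),
    fun i hi j hj r hr => hS.dm i hi j hj r (m r hr), fun i j r hr => hS.gp0 i j r (m r hr),
    fun i j r hr => hS.gm0 i j r (m r hr), fun i hi j hj hij r hr => ?_,
    fun i hi j hj hij r hr => ?_⟩
  · have p1 := fun a b => hS.gp0 a b r (m r hr)
    have p2 := fun a b => hS.gm0 a b r (m r hr)
    refine le_trans ?_ (hS.op i hi j hj hij r (m r hr))
    refine add_le_add (add_le_add (add_le_add (hA r hr i hi j hj) ?_) ?_) ?_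
    · exact Finset.sum_le_sum fun b hb => k1 r hr i hi b
        (Finset.mem_of_mem_erase (Finset.mem_of_mem_erase hb)) _ (e1 (p2 j b))
    · exact Finset.sum_le_sum fun b hb => k1 r hr j hj b
        (Finset.mem_of_mem_erase (Finset.mem_of_mem_erase hb)) _ (e1 (p2 i b))
    · refine mul_le_mul_of_nonneg_left ?_ (by norm_num)
      refine Finset.sum_le_sum fun x hx => Finset.sum_le_sum fun y hy => ?_
      exact k1 r hr x (Finset.mem_of_mem_erase (Finset.mem_of_mem_erase hx)) y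
        (Finset.mem_of_mem_erase (Finset.mem_of_mem_erase hy)) _
        (le_max_of_le_left (mul_nonneg (e1 (add_nonneg (p1 _ _) (p1 _ _)))
          (e1 (add_nonneg (p1 _ _) (p1 _ _)))))
  · have p1 := fun a b => hS.gp0 a b r (m r hr)
    have p2 := fun a b => hS.gm0 a b r (m r hr)
    refine le_trans ?_ (hS.om i hi j hj hij r (m r hr))
    refine add_le_add (add_le_add (add_le_add (hB r hr i hi j hj) ?_) ?_) ?_
    · exact Finset.sum_le_sum fun b hb => k1 r hr i hi b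
        (Finset.mem_of_mem_erase (Finset.mem_of_mem_erase hb)) _ (e1 (p1 j b))
    · exact Finset.sum_le_sum fun b hb => k1 r hr j hj b
        (Finset.mem_of_mem_erase (Finset.mem_of_mem_erase hb)) _ (e1 (p1 i b))
    · refine mul_le_mul_of_nonneg_left ?_ (by norm_num)
      refine Finset.sum_le_sum fun x hx => Finset.sum_le_sum fun y hy => ?_
      exact k1 r hr x (Finset.mem_of_mem_erase (Finset.mem_of_mem_erase hx)) y
        (Finset.mem_of_mem_erase (Finset.mem_of_mem_erase hy)) _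
        (le_max_of_le_left (mul_nonneg (e1 (add_nonneg (p1 _ _) (p1 _ _)))
          (e1 (add_nonneg (p2 _ _) (p2 _ _)))))

theorem SV.toG {X : Finset V} {s t : ℝ} {κ : ℝ → V → ℝ} {T : ℝ → V → V → ℝ}
    {gp gm : V → V → ℝ → ℝ} {p p' n n' : V → ℝ → ℝ} (hS : SV X t κ T gp gm p p' n n')
    (hst : s ≤ t) {c : V} {h W : ℝ → V → V → ℝ}
    (gp0 : ∀ i j, ∀ r ∈ Icc 0 s, 0 ≤ gp i j r) (gm0 : ∀ i j, ∀ r ∈ Icc 0 s, 0 ≤ gm i j r)
    (hκ : ∀ r ∈ Icc 0 s, ∀ e ∈ X, h r c e ≤ κ r e)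
    (hT : ∀ r ∈ Icc 0 s, ∀ i ∈ X, ∀ j ∈ X, h r i j * W r i j ≤ T r i j) :
    GV h X c s W gp gm p p' n n' := by
  have m : ∀ r ∈ Icc 0 s, r ∈ Icc 0 t := fun r hr => mem_of_le hst hr
  have e1 : ∀ {z : ℝ}, 0 ≤ z → 0 ≤ 1 - Real.exp (-z) := fun {z} hz => by
    have := Real.exp_le_one_iff.2 (by linarith : -z ≤ 0); linarith
  have e2 : ∀ {z : ℝ}, 0 ≤ z → 0 ≤ Real.exp z - 1 := fun {z} hz => by
    have := Real.one_le_exp hz; linarith
  have k1 : ∀ r ∈ Icc 0 s, ∀ i ∈ X, ∀ j ∈ X, ∀ z : ℝ, 0 ≤ z →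
      h r i j * (W r i j * z) ≤ T r i j * z := fun r hr i hi j hj z hz => by
    rw [← mul_assoc]; exact mul_le_mul_of_nonneg_right (hT r hr i hi j hj) hz
  refine ⟨fun e he r hr => hS.dp e he r (m r hr), fun e he r hr => hS.dn e he r (m r hr),
    fun e r hr => hS.p0 e r (m r hr), fun e r hr => hS.n0 e r (m r hr),
    fun e he r hr => ?_, fun e he r hr => ?_⟩
  · have p1 := fun a => hS.p0 a r (m r hr)
    have p2 := fun a => hS.n0 a r (m r hr)
    have g1 := fun a b => gp0 a b r hr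
    have g2 := fun a b => gm0 a b r hr
    refine le_trans ?_ (hS.op e he r (m r hr))
    refine add_le_add (add_le_add (hκ r hr e he) ?_) ?_
    · exact Finset.sum_le_sum fun b hb => k1 r hr e he b (Finset.mem_of_mem_erase hb) _ (e1 (p2 b))
    · refine mul_le_mul_of_nonneg_left ?_ (by norm_num)
      refine Finset.sum_le_sum fun x hx => Finset.sum_le_sum fun y hy => ?_
      exact k1 r hr x (Finset.mem_of_mem_erase hx) y (Finset.mem_of_mem_erase hy) _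
        (le_max_of_le_left (mul_nonneg (e1 (add_nonneg (p2 _) (p2 _)))
          (e1 (add_nonneg (g2 _ _) (g2 _ _)))))
  · have p1 := fun a => hS.p0 a r (m r hr)
    have p2 := fun a => hS.n0 a r (m r hr)
    have g1 := fun a b => gp0 a b r hr
    have g2 := fun a b => gm0 a b r hr
    refine le_trans ?_ (hS.on e he r (m r hr))
    refine add_le_add ?_ ?_
    · exact Finset.sum_le_sum fun b hb => k1 r hr e he b (Finset.mem_of_mem_erase hb) _ (e2 (p1 b))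
    · refine mul_le_mul_of_nonneg_left ?_ (by norm_num)
      refine Finset.sum_le_sum fun x hx => Finset.sum_le_sum fun y hy => ?_
      exact k1 r hr x (Finset.mem_of_mem_erase hx) y (Finset.mem_of_mem_erase hy) _
        (le_max_of_le_left (mul_nonneg (e1 (add_nonneg (p2 _) (p2 _)))
          (e1 (add_nonneg (g1 _ _) (g1 _ _)))))

theorem Sk.toG {X : Finset V} {s : ℝ} {T : ℝ → V → V → ℝ}
    {pc nc pd nd : V → ℝ → ℝ} {k k' : ℝ → ℝ} (hS : Sk X s T pc nc pd nd k k')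
    {h W : ℝ → V → V → ℝ}
    (nc0 : ∀ e, ∀ r ∈ Icc 0 s, 0 ≤ nc e r) (pd0 : ∀ e, ∀ r ∈ Icc 0 s, 0 ≤ pd e r)
    (hT : ∀ r ∈ Icc 0 s, ∀ i ∈ X, ∀ j ∈ X, h r i j * W r i j ≤ T r i j) :
    Gk h X s W pc nc pd nd k k' := by
  have e1 : ∀ {z : ℝ}, 0 ≤ z → 0 ≤ 1 - Real.exp (-z) := fun {z} hz => by
    have := Real.exp_le_one_iff.2 (by linarith : -z ≤ 0); linarith
  have e2 : ∀ {z : ℝ}, 0 ≤ z → 0 ≤ Real.exp z - 1 := fun {z} hz => by
    have := Real.one_le_exp hz; linarith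
  refine ⟨hS.d, fun r hr => le_trans ?_ (hS.o r hr)⟩
  refine mul_le_mul_of_nonneg_left ?_ (by norm_num)
  refine Finset.sum_le_sum fun x hx => Finset.sum_le_sum fun y hy => ?_
  rw [← mul_assoc]
  exact mul_le_mul_of_nonneg_right (hT r hr x hx y hy)
    (le_max_of_le_left (mul_nonneg (e1 (add_nonneg (nc0 _ r hr) (nc0 _ r hr)))
      (e2 (add_nonneg (pd0 _ r hr) (pd0 _ r hr)))))

variable {h : ℝ → V → V → ℝ} {H : V → V → ℝ → ℝ}

section

variable {c d : V} {A D : Finset V} {s t : ℝ} {U : Finset V} {Pa Pa' Na Na' P P' N N' : V → ℝ → ℝ}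
  {T Am Bm : ℝ → V → V → ℝ} {gp gp' gm gm' : V → V → ℝ → ℝ}
  {pc pc' nc nc' pd pd' nd nd' : V → ℝ → ℝ}
  {ptca ptca' ptc ptc' ptd ptd' k k' : ℝ → ℝ} {κc κd : ℝ → V → ℝ}

theorem Wld.toPh2 (hs : s ∈ Icc 0 t)
    (hw : Wld h A D s t U Pa Pa' Na Na' P P' N N' T Am Bm gp gp' gm gm')
    (hκc : ∀ r ∈ Icc 0 t, ∀ e ∈ U.erase c, h r c e ≤ κc r e)
    (hκd : ∀ r ∈ Icc 0 s, ∀ e ∈ U.erase d, h r d e ≤ κd r e)
    (hc : SV (U.erase c) t κc T gp gm pc pc' nc nc')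
    (hd : SV (U.erase d) s κd T gp gm pd pd' nd nd')
    (hk : Sk ((U.erase c).erase d) s T pc nc pd nd k k')
    (hIca : Ipt h (U.erase c) c d t (Wf Pa) ptca ptca') (ptca0 : ptca t = 0)
    (hIc : Ipt h (U.erase c) c d s (Wf P) ptc ptc') (mpt : ptc s ≤ ptca s)
    (hId : Ipt h (U.erase d) d c s (Wf P) ptd ptd') (ptd0 : ptd s = 0) :
    Ph2 h A D c d s t U Pa Pa' Na Na' gp gp' gm gm' pc pc' nc nc' ptca ptca'
      P P' N N' gp gp' gm gm' pc pc' nc nc' ptc ptc' pd pd' nd nd' ptd ptd' k k' := by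
  have m : ∀ r ∈ Icc 0 s, r ∈ Icc 0 t := fun r hr => mem_of_le hs.2 hr
  have uc : ∀ e ∈ U.erase c, e ∈ U := fun e he => Finset.mem_of_mem_erase he
  have ud : ∀ e ∈ U.erase d, e ∈ U := fun e he => Finset.mem_of_mem_erase he
  refine ⟨hw.La, hw.g.toG le_rfl hw.Ta hw.Aa hw.Ba,
    hc.toG le_rfl hw.g.gp0 hw.g.gm0 hκc
      (fun r hr i hi j hj => hw.Ta r hr i (uc i hi) j (uc j hj)), hIca, ptca0, hw.L,
    hw.g.toG hs.2 hw.Td hw.Ad hw.Bd,
    hc.toG hs.2 (fun i j r hr => hw.g.gp0 i j r (m r hr)) (fun i j r hr => hw.g.gm0 i j r (m r hr))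
      (fun r hr => hκc r (m r hr))
      (fun r hr i hi j hj => hw.Td r hr i (uc i hi) j (uc j hj)), hIc,
    hd.toG le_rfl (fun i j r hr => hw.g.gp0 i j r (m r hr))
      (fun i j r hr => hw.g.gm0 i j r (m r hr)) hκd
      (fun r hr i hi j hj => hw.Td r hr i (ud i hi) j (ud j hj)), hId, ptd0,
    hk.toG (fun e r hr => hc.n0 e r (m r hr)) hd.p0
      (fun r hr i hi j hj => hw.Td r hr i (uc i (Finset.mem_of_mem_erase hi)) j
        (uc j (Finset.mem_of_mem_erase hj))),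
    hw.mP, hw.mN, fun _ _ _ _ => le_rfl, fun _ _ _ _ => le_rfl, fun _ _ => le_rfl,
    fun _ _ => le_rfl, mpt⟩

theorem CloDt.mono (hh : Haz h H) (ht : t ∈ Icc (0 : ℝ) 1) (hs : s ∈ Icc 0 t) {K K' : ℝ}
    (hC : CloDt h t s A D c d K) (hK : K ≤ K') : CloDt h t s A D c d K' := by
  intro Ra Rac h1 h2 h3 h4
  refine (hC Ra Rac h1 h2 h3 h4).trans (mul_le_mul_of_nonneg_right hK ?_)
  have hs1 : s ∈ Icc (0 : ℝ) 1 := ⟨hs.1, hs.2.trans ht.2⟩
  exact (mul_pos (ex_pos hh hs1 fun F => h3.pos _ s hs) (ex_pos hh hs1 fun F => h1.pos F s hs)).le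

/-- the deleted closure from the single system -/
theorem Wld.cloD (hh : Haz h H) (hca : c ∉ D) (hda : d ∉ D) (hcd : c ≠ d)
    (ht : t ∈ Icc (0 : ℝ) 1) (hs : s ∈ Icc 0 t) (hU : U = Dᶜ)
    (hw : Wld h A D s t U Pa Pa' Na Na' P P' N N' T Am Bm gp gp' gm gm')
    (hκc : ∀ r ∈ Icc 0 t, ∀ e ∈ U.erase c, h r c e ≤ κc r e)
    (hκd : ∀ r ∈ Icc 0 s, ∀ e ∈ U.erase d, h r d e ≤ κd r e)
    (hc : SV (U.erase c) t κc T gp gm pc pc' nc nc')
    (hd : SV (U.erase d) s κd T gp gm pd pd' nd nd')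
    (hk : Sk ((U.erase c).erase d) s T pc nc pd nd k k')
    (hIca : Ipt h (U.erase c) c d t (Wf Pa) ptca ptca') (ptca0 : ptca t = 0)
    (hIc : Ipt h (U.erase c) c d s (Wf P) ptc ptc') (mpt : ptc s ≤ ptca s)
    (hId : Ipt h (U.erase d) d c s (Wf P) ptd ptd') (ptd0 : ptd s = 0) (k0 : 0 ≤ k s) :
    CloD h t s A D c d (Real.exp (k 0 + gm c d 0 + nc d 0 + nd c 0
      + (H c d s - ptc 0 * Real.exp (-nc d 0) - ptd 0 * Real.exp (-nd c 0)))) := by
  have hp := hw.toPh2 hs hκc hκd hc hd hk hIca ptca0 hIc mpt hId ptd0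
  have z : (0 : ℝ) ∈ Icc 0 s := ⟨le_rfl, hs.1⟩
  have hn : 0 ≤ Real.exp (nd c 0) - ptd 0 := by
    have h1 := Real.one_le_exp (hd.n0 c 0 z)
    have h2 := hId.p1 0 z
    linarith
  have hC : CloD h t s A D c d (Real.exp (k 0 + gm c d 0 + H c d s) *
          ((Real.exp (nc d 0) - ptc 0) * (Real.exp (nd c 0) - ptd 0))) :=
    fun _ _ hRa a1 hRac c1 => condVCD2 hh hca hda hcd ht hs hRa a1 hRac c1 hU hp k0
  exact hC.mono hh ht hs (K_le_exp hn)

end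

end Pool.Agent.RX.RCM
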