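import Pool.Agent.RX.RCM.LevZ
import Pool.Agent.RX.RCN.Cst

/-! The closures with explicit constants: the tails of the cell and the two theorems
(MP_73ccd0_lc, route M). -/

namespace Pool.Agent.RX.RCN.K

open Set Finset MeasureTheory Pool.Agent.RX.RCRSHalf Pool.Agent.RX.RCG Pool.Agent.RX.RCG.Ct

set_option linter.unusedSectionVars false

variable {V : Type*} [Fintype V] [DecidableEq V]

/-- the functions of level 1/2 and the tails of the pair `a`, `b` in a cell: `p c e r`, `n c e r`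
the tails of the target `c` with the horizon of the cell, `pd s d e r`, `nd s d e r` those of the
target `d` with the horizon `s`, `pt`, `nt` the same for the released closure -/
structure Fm (V : Type*) where
  gp : V → V → ℝ → ℝ
  gm : V → V → ℝ → ℝ
  gs : V → V → ℝ → ℝ
  c1 : V → V → ℝ → ℝ
  d3 : ℝ → V → V → ℝ → ℝ
  c4 : V → V → ℝ → ℝ
  p : V → V → ℝ → ℝ
  n : V → V → ℝ → ℝ
  pd : ℝ → V → V → ℝ → ℝ
  nd : ℝ → V → V → ℝ → ℝ
  pt : ℝ → V → V → ℝ → ℝ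
  nt : ℝ → V → V → ℝ → ℝ

variable (Z : Hzd) (x : V → V → ℝ) (P : V → Prop) [DecidablePred P]

variable {Z F x P}
variable {sl : ℝ → ℝ → ℝ} {α τ sg : ℝ} {B E1 : ℝ → ℝ → ℝ} {m q : ℝ} {A D : Finset V} {G : Fm V}

/-- two exponents -/
theorem exp_two3 {H1 H2 D1 D2 p1 p2 m q B u v : ℝ} (h10 : 0 ≤ H1) (h20 : 0 ≤ H2)
    (hH1 : Real.exp H1 - 1 ≤ D1) (hH2 : Real.exp H2 - 1 ≤ D2) (hD1 : D1 ≤ u * B)
    (hD2 : D2 ≤ v * B) (hB : 0 ≤ B) (u0 : 0 ≤ u) (v0 : 0 ≤ v) (huv : u + v ≤ 1) (hp1 : 0 ≤ p1)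
    (hp2 : 0 ≤ p2) (hpm : p1 + p2 ≤ m) (q0 : 0 ≤ q) (hq : Real.exp m - 1 ≤ q * m) :
    Real.exp (H1 + p1 + (H2 + p2)) - 1
      ≤ (D1 + ((1 + q * m) * B ^ 2 * (u ^ 2 * (1 - u)) + q * m * B * u ^ 2)
          + q * (1 + D1 + B / 4) * p1)
        + (D2 + ((1 + q * m) * B ^ 2 * (v ^ 2 * (1 - v)) + q * m * B * v ^ 2)
          + q * (1 + D2 + B / 4) * p2) := by
  have a1 : 1 ≤ Real.exp H1 := Real.one_le_exp h10
  have a2 : 1 ≤ Real.exp H2 := Real.one_le_exp h20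
  have d1 : 0 ≤ D1 := by linarith
  have d2 : 0 ≤ D2 := by linarith
  have hp : 0 ≤ p1 + p2 := add_nonneg hp1 hp2
  have hm : 0 ≤ m := hp.trans hpm
  have he := expm_le hp hpm hq
  have he0 : 0 ≤ Real.exp (p1 + p2) := (Real.exp_pos _).le
  have e1 : Real.exp (H1 + p1 + (H2 + p2))
      = Real.exp H1 * Real.exp H2 * Real.exp (p1 + p2) := by
    rw [← Real.exp_add, ← Real.exp_add]; congr 1; ring
  have e2 : Real.exp H1 * Real.exp H2 ≤ (1 + D1) * (1 + D2) :=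
    mul_le_mul (by linarith) (by linarith) (by linarith) (by linarith)
  have e3 : Real.exp (H1 + p1 + (H2 + p2)) ≤ (1 + D1) * (1 + D2) * (1 + q * (p1 + p2)) := by
    rw [e1]
    exact mul_le_mul e2 (by linarith) he0 (mul_nonneg (by linarith) (by linarith))
  -- the product of the two weights
  have k1 : u * v ≤ u ^ 2 * (1 - u) + v ^ 2 * (1 - v) := by
    have h1 : 0 ≤ (1 - (u + v)) * (u ^ 2 - u * v + v ^ 2) :=
      mul_nonneg (by linarith) (by nlinarith [sq_nonneg (u - v), mul_nonneg u0 v0])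
    nlinarith [h1]
  have k2 : D1 * D2 ≤ B ^ 2 * (u ^ 2 * (1 - u) + v ^ 2 * (1 - v)) := by
    have h1 : D1 * D2 ≤ (u * B) * (v * B) := mul_le_mul hD1 hD2 d2 (mul_nonneg u0 hB)
    have h2 := mul_le_mul_of_nonneg_left k1 (sq_nonneg B)
    calc D1 * D2 ≤ (u * B) * (v * B) := h1
      _ = B ^ 2 * (u * v) := by ring
      _ ≤ _ := h2
  have k3 : (p1 + p2) * (D1 * D2) ≤ m * (B ^ 2 * (u ^ 2 * (1 - u) + v ^ 2 * (1 - v))) :=
    mul_le_mul hpm k2 (mul_nonneg d1 d2) hm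
  have k4 : ∀ {p w E : ℝ}, 0 ≤ p → p ≤ m → E ≤ w * B → p * E ≤ B / 4 * p + m * B * w ^ 2 := by
    intro p w E hp0 hpm' hE
    have h1 : w ≤ 1 / 4 + w ^ 2 := by nlinarith [sq_nonneg (w - 1 / 2)]
    have h2 : p * E ≤ p * (w * B) := mul_le_mul_of_nonneg_left hE hp0
    have h3 : p * (w * B) ≤ p * ((1 / 4 + w ^ 2) * B) :=
      mul_le_mul_of_nonneg_left (mul_le_mul_of_nonneg_right h1 hB) hp0
    have h4 : p * (w ^ 2 * B) ≤ m * (w ^ 2 * B) :=
      mul_le_mul_of_nonneg_right hpm' (mul_nonneg (sq_nonneg w) hB)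
    nlinarith
  have k5 := k4 hp1 (by linarith) hD2
  have k6 := k4 hp2 (by linarith) hD1
  have k7 := mul_le_mul_of_nonneg_left k3 q0
  have k8 := mul_le_mul_of_nonneg_left k5 q0
  have k9 := mul_le_mul_of_nonneg_left k6 q0
  have e4 : (1 + D1) * (1 + D2) * (1 + q * (p1 + p2)) - 1
      = D1 + D2 + D1 * D2 + q * (1 + D1) * p1 + q * (1 + D2) * p2 + q * (p1 * D2)
        + q * (p2 * D1) + q * ((p1 + p2) * (D1 * D2)) := by ring
  calc _ ≤ (1 + D1) * (1 + D2) * (1 + q * (p1 + p2)) - 1 := by linarith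
    _ ≤ _ := by
      rw [e4]
      nlinarith [k2, k7, k8, k9]

/-- conversion of the weights -/
theorem wt_of (hx : Wt x P 1) : RCM.Wt x := ⟨hx.symm, hx.nonneg, hx.diag, hx.row⟩

section

variable {h : ℝ → V → V → ℝ} {H : V → V → ℝ → ℝ} {t s : ℝ}

end

end Pool.Agent.RX.RCN.K
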