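import Pool.Agent.RX.RCM.Lin
import Pool.Agent.RX.RCM.Mono_2
import Pool.Agent.RX.RCM.Tail_1

/-! The closures of level 1 as leading part plus tail, the tail being the solution of a linear
system (MP_73ccd0_lc, route M). -/

namespace Pool.Agent.RX.RCM

open Set Finset Pool.Agent.RX.RCRSHalf Pool.Agent.RX.RCG

set_option linter.unusedSectionVars false

variable {V : Type*} [Fintype V] [DecidableEq V]

theorem exists_tail {t : ℝ} (ht : t ∈ Icc (0 : ℝ) 1) (X : Finset V) {T : ℝ → V → V → ℝ}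
    {D n1 : V → ℝ → ℝ} {gp gs : V → V → ℝ → ℝ} {c1 c4 : V → ℝ → ℝ}
    (cT : ∀ i j, ContinuousOn (fun r => T r i j) (Icc 0 t))
    (cD : ∀ i, ContinuousOn (D i) (Icc 0 t)) (cn : ∀ i, ContinuousOn (n1 i) (Icc 0 t))
    (cgp : ∀ i j, ContinuousOn (gp i j) (Icc 0 t)) (cgs : ∀ i j, ContinuousOn (gs i j) (Icc 0 t))
    (cc1 : ∀ i, ContinuousOn (c1 i) (Icc 0 t)) (cc4 : ∀ i, ContinuousOn (c4 i) (Icc 0 t))
    (T0 : ∀ r ∈ Icc 0 t, ∀ i j, 0 ≤ T r i j) (D0 : ∀ i, ∀ r ∈ Icc 0 t, 0 ≤ D i r)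
    (n10 : ∀ i, ∀ r ∈ Icc 0 t, 0 ≤ n1 i r)
    (gp0 : ∀ i j, ∀ r ∈ Icc 0 t, 0 ≤ gp i j r) (gs0 : ∀ i j, ∀ r ∈ Icc 0 t, 0 ≤ gs i j r)
    (c10 : ∀ i, ∀ r ∈ Icc 0 t, 0 ≤ c1 i r) (c40 : ∀ i, ∀ r ∈ Icc 0 t, 0 ≤ c4 i r)
    {pT nT : V → ℝ} (pT0 : ∀ i, 0 ≤ pT i) (nT0 : ∀ i, 0 ≤ nT i) :
    ∃ p n : V → ℝ → ℝ, Tl X t T D n1 gp gs c1 c4 p n ∧
      (∀ e ∈ X, p e t = pT e) ∧ ∀ e ∈ X, n e t = nT e := by
  have cT1 : ∀ z, ContinuousOn (fun r => ∑ y ∈ X, T r z y) (Icc 0 t) := fun z =>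
    continuousOn_finsetSum _ fun y _ => cT z y
  have cq : ∀ (g : V → V → ℝ → ℝ), (∀ i j, ContinuousOn (g i j) (Icc 0 t)) → ∀ e z,
      ContinuousOn (fun r => qc X (T r) (fun x => g e x r) z) (Icc 0 t) := fun g hg e z => by
    unfold qc
    exact ((hg e z).mul (cT1 z)).add (continuousOn_finsetSum _ fun x _ => (cT x z).mul (hg e x))
  let ind : V → ℝ := fun z => if z ∈ X then 1 else 0
  have ind0 : ∀ z, 0 ≤ ind z := fun z => by simp only [ind]; split_ifs <;> norm_num
  have isum : ∀ f : V → ℝ, ∑ z, ind z * f z = ∑ z ∈ X, f z := fun f => by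
    simp [ind, Finset.sum_ite_mem]
  let M : ℝ → V ⊕ V → V ⊕ V → ℝ := fun r i j => match i, j with
    | .inl e, .inl z => ind z * (c4 z r * qc X (T r) (fun x => gp e x r) z)
    | .inl e, .inr z => ind z * (T r e z + qc X (T r) (fun x => gs e x r) z)
    | .inr e, .inl z => ind z * (c1 z r * T r e z + c4 z r * qc X (T r) (fun x => gs e x r) z)
    | .inr e, .inr z => ind z * qc X (T r) (fun x => gp e x r) z
  let σ : ℝ → V ⊕ V → ℝ := fun r i => match i with
    | .inl e => ∑ z ∈ X, (T r e z * n1 z r + qc X (T r) (fun x => gs e x r) z * n1 z r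
        + qc X (T r) (fun x => gp e x r) z * D z r)
    | .inr e => ∑ z ∈ X, (qc X (T r) (fun x => gp e x r) z * n1 z r
        + qc X (T r) (fun x => gs e x r) z * D z r)
  have qn : ∀ r ∈ Icc 0 t, ∀ (g : V → V → ℝ → ℝ), (∀ i j, 0 ≤ g i j r) → ∀ e z,
      0 ≤ qc X (T r) (fun x => g e x r) z := fun r hr g hg e z =>
    qc_nonneg (T0 r hr) (fun x => hg e x) z
  obtain ⟨u, ut, ud, u0⟩ := exists_lin ht (T := M) (σ := σ)
    (fun i j => by
      rcases i with e | e <;> rcases j with z | z <;> simp only [M]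
      · exact continuousOn_const.mul ((cc4 z).mul (cq gp cgp e z))
      · exact continuousOn_const.mul ((cT e z).add (cq gs cgs e z))
      · exact continuousOn_const.mul (((cc1 z).mul (cT e z)).add ((cc4 z).mul (cq gs cgs e z)))
      · exact continuousOn_const.mul (cq gp cgp e z))
    (fun i => by
      rcases i with e | e <;> simp only [σ]
      · exact continuousOn_finsetSum _ fun z _ => (((cT e z).mul (cn z)).add
          ((cq gs cgs e z).mul (cn z))).add ((cq gp cgp e z).mul (cD z))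
      · exact continuousOn_finsetSum _ fun z _ =>
          ((cq gp cgp e z).mul (cn z)).add ((cq gs cgs e z).mul (cD z)))
    (fun r hr i j => by
      have q1 := qn r hr gp (fun i j => gp0 i j r hr)
      have q2 := qn r hr gs (fun i j => gs0 i j r hr)
      rcases i with e | e <;> rcases j with z | z <;> simp only [M]
      · exact mul_nonneg (ind0 z) (mul_nonneg (c40 z r hr) (q1 e z))
      · exact mul_nonneg (ind0 z) (add_nonneg (T0 r hr e z) (q2 e z))
      · exact mul_nonneg (ind0 z) (add_nonneg (mul_nonneg (c10 z r hr) (T0 r hr e z))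
          (mul_nonneg (c40 z r hr) (q2 e z)))
      · exact mul_nonneg (ind0 z) (q1 e z))
    (fun r hr i => by
      have q1 := qn r hr gp (fun i j => gp0 i j r hr)
      have q2 := qn r hr gs (fun i j => gs0 i j r hr)
      rcases i with e | e <;> simp only [σ]
      · exact Finset.sum_nonneg fun z _ => add_nonneg (add_nonneg
          (mul_nonneg (T0 r hr e z) (n10 z r hr)) (mul_nonneg (q2 e z) (n10 z r hr)))
          (mul_nonneg (q1 e z) (D0 z r hr))
      · exact Finset.sum_nonneg fun z _ => add_nonneg (mul_nonneg (q1 e z) (n10 z r hr))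
          (mul_nonneg (q2 e z) (D0 z r hr)))
    (u1 := Sum.elim pT nT) (fun i => by rcases i with e | e <;> simp [pT0, nT0])
  let p : V → ℝ → ℝ := fun e r => if e ∈ X then u (.inl e) r else 0
  let n : V → ℝ → ℝ := fun e r => if e ∈ X then u (.inr e) r else 0
  have pe : ∀ e ∈ X, p e = u (.inl e) := fun e he => by funext r; simp [p, he]
  have ne : ∀ e ∈ X, n e = u (.inr e) := fun e he => by funext r; simp [n, he]
  refine ⟨p, n, ⟨fun e he r hr => ?_, fun e he r hr => ?_, fun e r hr => ?_, fun e r hr => ?_,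
    fun e he r => ?_, fun e he r => ?_⟩, fun e he => ?_, fun e he => ?_⟩
  · rw [pe e he]
    refine (ud (.inl e) r hr).congr_deriv ?_
    congr 1
    rw [Fintype.sum_sum_type]
    simp only [M, σ]
    have s1 : ∑ z, ind z * (c4 z r * qc X (T r) (fun x => gp e x r) z) * u (.inl z) r
        = ∑ z ∈ X, qc X (T r) (fun x => gp e x r) z * (c4 z r * p z r) := by
      rw [← isum]
      refine Finset.sum_congr rfl fun z _ => ?_
      by_cases hz : z ∈ X
      · simp [ind, p, hz]; ring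
      · simp [ind, hz]
    have s2 : ∑ z, ind z * (T r e z + qc X (T r) (fun x => gs e x r) z) * u (.inr z) r
        = ∑ z ∈ X, (T r e z + qc X (T r) (fun x => gs e x r) z) * n z r := by
      rw [← isum]
      refine Finset.sum_congr rfl fun z _ => ?_
      by_cases hz : z ∈ X
      · simp [ind, n, hz]
      · simp [ind, hz]
    rw [s1, s2, Qo_eq, Qo_eq, ← Finset.sum_add_distrib, ← Finset.sum_add_distrib,
      ← Finset.sum_add_distrib, ← Finset.sum_add_distrib]
    exact Finset.sum_congr rfl fun z _ => by ring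
  · rw [ne e he]
    refine (ud (.inr e) r hr).congr_deriv ?_
    congr 1
    rw [Fintype.sum_sum_type]
    simp only [M, σ]
    have s1 : ∑ z, ind z * (c1 z r * T r e z + c4 z r * qc X (T r) (fun x => gs e x r) z)
          * u (.inl z) r
        = ∑ z ∈ X, (c1 z r * T r e z + c4 z r * qc X (T r) (fun x => gs e x r) z) * p z r := by
      rw [← isum]
      refine Finset.sum_congr rfl fun z _ => ?_
      by_cases hz : z ∈ X
      · simp [ind, p, hz]
      · simp [ind, hz]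
    have s2 : ∑ z, ind z * qc X (T r) (fun x => gp e x r) z * u (.inr z) r
        = ∑ z ∈ X, qc X (T r) (fun x => gp e x r) z * n z r := by
      rw [← isum]
      refine Finset.sum_congr rfl fun z _ => ?_
      by_cases hz : z ∈ X
      · simp [ind, n, hz]
      · simp [ind, hz]
    rw [s1, s2, Qo_eq, Qo_eq, ← Finset.sum_add_distrib,
      ← Finset.sum_add_distrib, ← Finset.sum_add_distrib, ← Finset.sum_add_distrib]
    exact Finset.sum_congr rfl fun z _ => by ring
  · simp only [p]; split_ifs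
    · exact u0 _ r hr
    · exact le_rfl
  · simp only [n]; split_ifs
    · exact u0 _ r hr
    · exact le_rfl
  · simp [p, he]
  · simp [n, he]
  · rw [pe e he, ut]; rfl
  · rw [ne e he, ut]; rfl

/-- **the closure of level 1 from the tail system**; the tail system has the larger kernel `Tm`
and the larger sources `Dm`, `nm`, `gq` -/
theorem SV_of_tail {X : Finset V} {t : ℝ} {T Tm : ℝ → V → V → ℝ} {κ : ℝ → V → ℝ}
    {Hk D Dm n1 n1' nm c1 c4 : V → ℝ → ℝ} {gp gm gq gs : V → V → ℝ → ℝ}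
    {p n : V → ℝ → ℝ}
    (hl : Tl X t Tm Dm nm gq gs c1 c4 p n) (TT : ∀ r ∈ Icc 0 t, ∀ x y, T r x y ≤ Tm r x y)
    (hnm : ∀ e, ∀ r ∈ Icc 0 t, n1 e r ≤ nm e r)
    (hgq : ∀ i j, ∀ r ∈ Icc 0 t, gp i j r ≤ gq i j r)
    (Dm0 : ∀ e, ∀ r ∈ Icc 0 t, 0 ≤ Dm e r)
    (Ts : ∀ r ∈ Icc 0 t, ∀ x y, Tm r x y = Tm r y x) (T0 : ∀ r ∈ Icc 0 t, ∀ x y, 0 ≤ T r x y)
    (Tz : ∀ r ∈ Icc 0 t, ∀ x, T r x x = 0)
    (hH : ∀ e ∈ X, ∀ r ∈ Icc 0 t, HasDerivAt (Hk e) (-κ r e) r)
    (H0 : ∀ e, ∀ r ∈ Icc 0 t, 0 ≤ Hk e r) (D0 : ∀ e, ∀ r ∈ Icc 0 t, 0 ≤ D e r)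
    (hn1 : ∀ e ∈ X, ∀ r ∈ Icc 0 t, HasDerivAt (n1 e) (n1' e r) r)
    (n1o : ∀ e ∈ X, ∀ r ∈ Icc 0 t, ∑ b ∈ X, T r e b * D b r ≤ -n1' e r)
    (n10 : ∀ e, ∀ r ∈ Icc 0 t, 0 ≤ n1 e r)
    (gp0 : ∀ i j, ∀ r ∈ Icc 0 t, 0 ≤ gp i j r) (gm0 : ∀ i j, ∀ r ∈ Icc 0 t, 0 ≤ gm i j r)
    (gs0 : ∀ i j, ∀ r ∈ Icc 0 t, 0 ≤ gs i j r) (c10 : ∀ i, ∀ r ∈ Icc 0 t, 0 ≤ c1 i r)
    (c40 : ∀ i, ∀ r ∈ Icc 0 t, 0 ≤ c4 i r)
    (hgs : ∀ e ∈ X, ∀ x ∈ X, ∀ y ∈ X, x ≠ y → ∀ r ∈ Icc 0 t,
      1 - Real.exp (-(gm e x r + gm e y r)) ≤ gs e x r + gs e y r)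
    (hE1 : ∀ e ∈ X, ∀ r ∈ Icc 0 t, Real.exp (Hk e r + p e r) - 1 ≤ D e r + c1 e r * p e r)
    (hE2 : ∀ x ∈ X, ∀ y ∈ X, x ≠ y → ∀ r ∈ Icc 0 t,
      Real.exp (Hk x r + p x r + (Hk y r + p y r)) - 1
        ≤ (Dm x r + c4 x r * p x r) + (Dm y r + c4 y r * p y r)) :
    ∃ p' n' : V → ℝ → ℝ, SV X t κ T gp gm (fun e r => Hk e r + p e r) p'
      (fun e r => n1 e r + n e r) n' := by
  refine ⟨_, _, fun e he r hr => (hH e he r hr).add (hl.dp e he r hr),
    fun e he r hr => (hn1 e he r hr).add (hl.dn e he r hr),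
    fun e r hr => add_nonneg (H0 e r hr) (hl.p0 e r hr),
    fun e r hr => add_nonneg (n10 e r hr) (hl.n0 e r hr), fun e he r hr => ?_,
    fun e he r hr => ?_⟩
  all_goals
    have N0 : ∀ x, 0 ≤ n1 x r + n x r := fun x => add_nonneg (n10 x r hr) (hl.n0 x r hr)
    have P0 : ∀ x, 0 ≤ Hk x r + p x r := fun x => add_nonneg (H0 x r hr) (hl.p0 x r hr)
    have E0 : ∀ x, 0 ≤ Dm x r + c4 x r * p x r := fun x =>
      add_nonneg (Dm0 x r hr) (mul_nonneg (c40 x r hr) (hl.p0 x r hr))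
    have NN : ∀ x, n1 x r + n x r ≤ nm x r + n x r := fun x => by linarith [hnm x r hr]
    have NM : ∀ x, 0 ≤ nm x r + n x r := fun x => (N0 x).trans (NN x)
    have gq0 : ∀ x, 0 ≤ gq e x r := fun x => (gp0 e x r hr).trans (hgq e x r hr)
    have GG : ∀ x y, gp e x r + gp e y r ≤ gq e x r + gq e y r := fun x y =>
      add_le_add (hgq e x r hr) (hgq e y r hr)
    have NX : ∀ x y, n1 x r + n x r + (n1 y r + n y r) ≤ nm x r + n x r + (nm y r + n y r) :=
      fun x y => add_le_add (NN x) (NN y)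
    have e1 : ∀ z : ℝ, 1 - Real.exp (-z) ≤ z := fun z => by
      have := Real.add_one_le_exp (-z); linarith
    have e1' : ∀ {z : ℝ}, 0 ≤ z → 0 ≤ 1 - Real.exp (-z) := fun {z} hz => by
      have := Real.exp_le_one_iff.2 (by linarith : -z ≤ 0); linarith
    have e2 : ∀ {z : ℝ}, 0 ≤ z → 0 ≤ Real.exp z - 1 := fun {z} hz => by
      have := Real.one_le_exp hz; linarith
    have sub : X.erase e ⊆ X := Finset.erase_subset _ _
    have M0 : ∀ x y, 0 ≤ Tm r x y := fun x y => (T0 r hr x y).trans (TT r hr x y)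
    have gsx : ∀ x, 0 ≤ gs e x r := fun x => gs0 e x r hr
    have gpx : ∀ x, 0 ≤ gp e x r := fun x => gp0 e x r hr
  · -- the upper function
    have a1 : ∑ b ∈ X.erase e, T r e b * (1 - Real.exp (-(n1 b r + n b r)))
        ≤ ∑ b ∈ X, Tm r e b * (nm b r + n b r) :=
      (Finset.sum_le_sum fun b _ => mul_le_mul (TT r hr e b) ((e1 _).trans (NN b)) (e1' (N0 b))
        (M0 e b)).trans
        (Finset.sum_le_sum_of_subset_of_nonneg sub fun b _ _ => mul_nonneg (M0 e b) (NM b))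
    have a2 : (1 / 2) * ∑ x ∈ X.erase e, ∑ y ∈ X.erase e, T r x y *
          (max ((1 - Real.exp (-(n1 x r + n x r + (n1 y r + n y r))))
              * (1 - Real.exp (-(gm e x r + gm e y r))))
            ((Real.exp (Hk x r + p x r + (Hk y r + p y r)) - 1)
              * (1 - Real.exp (-(gp e x r + gp e y r)))))
        ≤ Qo X (Tm r) (fun x => gs e x r) (fun x => nm x r + n x r)
          + Qo X (Tm r) (fun x => gq e x r) (fun x => Dm x r + c4 x r * p x r) := by
      refine le_trans ?_ (add_le_add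
        (half_le_Qo sub (Ts r hr) (M0) (g := fun x => gs e x r) gsx NM)
        (half_le_Qo sub (Ts r hr) (M0) (g := fun x => gq e x r) gq0 E0))
      rw [← mul_add, ← Finset.sum_add_distrib]
      refine mul_le_mul_of_nonneg_left (Finset.sum_le_sum fun x hx => ?_) (by norm_num)
      rw [← Finset.sum_add_distrib]
      refine Finset.sum_le_sum fun y hy => ?_
      rw [← mul_add]
      by_cases hxy : x = y
      · subst hxy
        rw [Tz r hr x, zero_mul]
        exact mul_nonneg (M0 x x) (add_nonneg (mul_nonneg (add_nonneg (NM x) (NM x))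
          (add_nonneg (gsx x) (gsx x))) (mul_nonneg (add_nonneg (E0 x) (E0 x))
          (add_nonneg (gq0 x) (gq0 x))))
      have hx' := Finset.mem_of_mem_erase hx
      have hy' := Finset.mem_of_mem_erase hy
      refine (mul_le_mul_of_nonneg_right (TT r hr x y) (le_max_of_le_left (mul_nonneg
        (e1' (add_nonneg (N0 x) (N0 y))) (e1' (add_nonneg (gm0 e x r hr) (gm0 e y r hr)))))).trans (mul_le_mul_of_nonneg_left ?_ (M0 x y))
      refine max_le ?_ ?_
      · have b1 := mul_le_mul ((e1 (n1 x r + n x r + (n1 y r + n y r))).trans (NX x y))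
          (hgs e he x hx' y hy' hxy r hr) (e1' (add_nonneg (gm0 e x r hr) (gm0 e y r hr)))
          (add_nonneg (NM x) (NM y))
        have b2 := mul_nonneg (add_nonneg (E0 x) (E0 y)) (add_nonneg (gq0 x) (gq0 y))
        linarith
      · have b1 := mul_le_mul (hE2 x hx' y hy' hxy r hr)
          ((e1 (gp e x r + gp e y r)).trans (GG x y))
          (e1' (add_nonneg (gpx x) (gpx y))) (add_nonneg (E0 x) (E0 y))
        have b2 := mul_nonneg (add_nonneg (NM x) (NM y)) (add_nonneg (gsx x) (gsx y))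
        linarith
    linarith
  · have a1 : ∑ b ∈ X.erase e, T r e b * (Real.exp (Hk b r + p b r) - 1)
        ≤ ∑ b ∈ X, T r e b * D b r + ∑ b ∈ X, Tm r e b * (c1 b r * p b r) := by
      rw [← Finset.sum_add_distrib]
      refine (Finset.sum_le_sum fun b hb => mul_le_mul_of_nonneg_left
        (hE1 b (Finset.mem_of_mem_erase hb) r hr) (T0 r hr e b)).trans ?_
      refine (Finset.sum_le_sum_of_subset_of_nonneg sub fun b _ _ => mul_nonneg (T0 r hr e b)
        (add_nonneg (D0 b r hr) (mul_nonneg (c10 b r hr) (hl.p0 b r hr)))).trans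
        (Finset.sum_le_sum fun b _ => ?_)
      have := mul_le_mul_of_nonneg_right (TT r hr e b) (mul_nonneg (c10 b r hr) (hl.p0 b r hr))
      linarith
    have a2 : (1 / 2) * ∑ x ∈ X.erase e, ∑ y ∈ X.erase e, T r x y *
          (max ((1 - Real.exp (-(n1 x r + n x r + (n1 y r + n y r))))
              * (1 - Real.exp (-(gp e x r + gp e y r))))
            ((Real.exp (Hk x r + p x r + (Hk y r + p y r)) - 1)
              * (1 - Real.exp (-(gm e x r + gm e y r)))))
        ≤ Qo X (Tm r) (fun x => gq e x r) (fun x => nm x r + n x r)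
          + Qo X (Tm r) (fun x => gs e x r) (fun x => Dm x r + c4 x r * p x r) := by
      refine le_trans ?_ (add_le_add
        (half_le_Qo sub (Ts r hr) (M0) (g := fun x => gq e x r) gq0 NM)
        (half_le_Qo sub (Ts r hr) (M0) (g := fun x => gs e x r) gsx E0))
      rw [← mul_add, ← Finset.sum_add_distrib]
      refine mul_le_mul_of_nonneg_left (Finset.sum_le_sum fun x hx => ?_) (by norm_num)
      rw [← Finset.sum_add_distrib]
      refine Finset.sum_le_sum fun y hy => ?_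
      rw [← mul_add]
      by_cases hxy : x = y
      · subst hxy
        rw [Tz r hr x, zero_mul]
        exact mul_nonneg (M0 x x) (add_nonneg (mul_nonneg (add_nonneg (NM x) (NM x))
          (add_nonneg (gq0 x) (gq0 x))) (mul_nonneg (add_nonneg (E0 x) (E0 x))
          (add_nonneg (gsx x) (gsx x))))
      have hx' := Finset.mem_of_mem_erase hx
      have hy' := Finset.mem_of_mem_erase hy
      refine (mul_le_mul_of_nonneg_right (TT r hr x y) (le_max_of_le_left (mul_nonneg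
        (e1' (add_nonneg (N0 x) (N0 y))) (e1' (add_nonneg (gpx x) (gpx y)))))).trans (mul_le_mul_of_nonneg_left ?_ (M0 x y))
      refine max_le ?_ ?_
      · have b1 := mul_le_mul ((e1 (n1 x r + n x r + (n1 y r + n y r))).trans (NX x y))
          ((e1 (gp e x r + gp e y r)).trans (GG x y))
          (e1' (add_nonneg (gpx x) (gpx y))) (add_nonneg (NM x) (NM y))
        have b2 := mul_nonneg (add_nonneg (E0 x) (E0 y)) (add_nonneg (gsx x) (gsx y))
        linarith
      · have b1 := mul_le_mul (hE2 x hx' y hy' hxy r hr) (hgs e he x hx' y hy' hxy r hr)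
          (e1' (add_nonneg (gm0 e x r hr) (gm0 e y r hr))) (add_nonneg (E0 x) (E0 y))
        have b2 := mul_nonneg (add_nonneg (NM x) (NM y)) (add_nonneg (gq0 x) (gq0 y))
        linarith
    linarith [n1o e he r hr]

end Pool.Agent.RX.RCM
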