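import Pool.Agent.RX.RCM.NuA
import Pool.Agent.RX.RCM.NuB_1
import Pool.Agent.RX.RCM.Tail_2

/-! The closures with explicit constants: the tails of the cell and the two theorems
(MP_73ccd0_lc, route M). -/

namespace Pool.Agent.RX.RCN.K

open Set Finset MeasureTheory Pool.Agent.RX.RCRSHalf Pool.Agent.RX.RCG Pool.Agent.RX.RCG.Ct

set_option linter.unusedSectionVars false

variable {V : Type*} [Fintype V] [DecidableEq V]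

variable (Z : Hzd) (F : Lz V) (x : V → V → ℝ) (P : V → Prop) [DecidablePred P]

/-- the properties of the family; `m`, `q` bound the sums of two tails; the second time is at most
`sg` -/
structure Fm.Ok (G : Fm V) (sg τ : ℝ) (D : Finset V) (B : ℝ → ℝ → ℝ) (m q : ℝ) : Prop where
  g : ∃ gp' gm', RCM.S12 Dᶜ τ (K1 Z F x P)
    (RCM.Ab (Z.hh x P) F.y1) (RCM.Bw (Z.hh x P) F.n1) G.gp gp' G.gm gm'
  pz : ∀ i r, G.gp i i r = 0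
  mz : ∀ i r, G.gm i i r = 0
  s0 : ∀ i j, ∀ r ∈ Icc 0 τ, 0 ≤ G.gs i j r
  es : ∀ e ∈ Dᶜ, ∀ i ∈ Dᶜ, ∀ j ∈ Dᶜ, i ≠ j →
    ∀ r ∈ Icc 0 τ, 1 - Real.exp (-(G.gm e i r + G.gm e j r)) ≤ G.gs e i r + G.gs e j r
  q0 : 0 ≤ q
  m0 : 0 ≤ m
  c1 : G.c1 = C1f Z x P τ q
  d3 : G.d3 = D3f Z x P B τ q m
  c4 : G.c4 = C4f Z x P B τ q
  hq : Real.exp m - 1 ≤ q * m
  tc : ∀ c ∈ Dᶜ, RCM.Tl (Dᶜ.erase c) τ (K1 Z F x P)
    (G.d3 τ c) (N1 Z F x P D τ c) G.gp G.gs (G.c1 c) (G.c4 c) (G.p c) (G.n c)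
  td : ∀ s ∈ Icc 0 sg, ∀ d ∈ Dᶜ,
    RCM.Tl (Dᶜ.erase d) s (K1 Z F x P)
    (G.d3 s d) (N1 Z F x P D s d) G.gp G.gs (G.c1 d) (G.c4 d) (G.pd s d) (G.nd s d)
  tt : ∀ s ∈ Icc 0 sg, ∀ d ∈ Dᶜ,
    RCM.Tl (Dᶜ.erase d) s (K1 Z F x P)
    (G.d3 s d) (N1 Z F x P D s d) G.gp G.gs (G.c1 d) (G.c4 d) (G.pt s d) (G.nt s d)
  ptT : ∀ s ∈ Icc 0 sg, ∀ d ∈ Dᶜ, ∀ e ∈ Dᶜ.erase d,
    G.pt s d e s = G.gm d e s
  ntT : ∀ s ∈ Icc 0 sg, ∀ d ∈ Dᶜ, ∀ e ∈ Dᶜ.erase d,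
    G.nt s d e s = G.gp d e s
  bc : ∀ c ∈ Dᶜ, ∀ e f, e ≠ f → ∀ r ∈ Icc 0 τ, G.p c e r + G.p c f r ≤ m
  bd : ∀ s ∈ Icc 0 sg, ∀ d ∈ Dᶜ, ∀ e f, e ≠ f → ∀ r ∈ Icc 0 s,
    G.pd s d e r + G.pd s d f r ≤ m
  btm : ∀ s ∈ Icc 0 sg, ∀ d ∈ Dᶜ, ∀ e f, e ≠ f → ∀ r ∈ Icc 0 s,
    G.pt s d e r + G.pt s d f r ≤ m

/-- the exponent of the deleted closure -/
noncomputable def Ld (G : Fm V) (τ : ℝ) (D : Finset V) (c d : V) (t s : ℝ) : ℝ :=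
  Kdd Z F x P D c d τ s G.d3 G.c4 (G.p c) (G.n c) (G.pd s d) (G.nd s d)
    + G.gm c d 0 + (N2 Z F x P D t s t c d 0 + G.n c d 0)
    + (N2 Z F x P D t s s d c 0 + G.nd s d c 0)
    + Di Z F x P D c d t s (N2 Z F x P D t s t c d 0 + G.n c d 0)
      (N2 Z F x P D t s s d c 0 + G.nd s d c 0)

variable {Z F x P}
variable {sl : ℝ → ℝ → ℝ} {α τ sg : ℝ} {B E1 : ℝ → ℝ → ℝ} {m q : ℝ} {A D : Finset V} {G : Fm V}

/-- the constants with a horizon before the end of the cell -/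
theorem Hzd.Ok.one' (hZ : Z.Ok sl) (hx : Wt x P 1) {s τ : ℝ} (hs : s ≤ τ)
    (hτ : τ ≤ bt) (u v : V) {r p m q : ℝ} (hr : r ∈ Icc 0 s) (hp : 0 ≤ p) (hpm : p ≤ m)
    (q0 : 0 ≤ q) (hq : Real.exp m - 1 ≤ q * m) :
    Real.exp (Z.Hh x P s u v r + p) - 1
      ≤ Z.Dd x P s u v r + C1f Z x P τ q u v r * p := by
  have h0 : 0 ≤ s := hr.1.trans hr.2
  have h1 := hZ.exp_Hh hx ⟨h0, hs.trans hτ⟩ u v hr
  have h2 : Real.exp (Z.Hh x P s u v r) ≤ 1 + Z.Dd x P τ u v r := by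
    have := hZ.Dd_mono hx hs hτ u v hr
    linarith
  have h3 := expm_le hp hpm hq
  have h4 : 0 ≤ Real.exp p - 1 := by have := Real.one_le_exp hp; linarith
  have h5 : Real.exp (Z.Hh x P s u v r) * (Real.exp p - 1)
      ≤ (1 + Z.Dd x P τ u v r) * (q * p) :=
    mul_le_mul h2 h3 h4 ((Real.exp_pos _).le.trans h2)
  rw [Real.exp_add]
  unfold C1f
  nlinarith

theorem Hzd.Cf.two' (hC : Z.Cf B E1) (hZ : Z.Ok sl) (hx : Wt x P 1) {s τ : ℝ} (hs : s ≤ τ)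
    (hτ : τ ≤ bt) {c u v : V} (huv : u ≠ v) {r p1 p2 m q : ℝ} (hr : r ∈ Icc 0 s) (hp1 : 0 ≤ p1)
    (hp2 : 0 ≤ p2) (hpm : p1 + p2 ≤ m) (q0 : 0 ≤ q) (hq : Real.exp m - 1 ≤ q * m) :
    Real.exp (Z.Hh x P s c u r + p1 + (Z.Hh x P s c v r + p2)) - 1
      ≤ (D3f Z x P B τ q m s c u r + C4f Z x P B τ q c u r * p1)
        + (D3f Z x P B τ q m s c v r + C4f Z x P B τ q c v r * p2) := by
  have h0 : 0 ≤ s := hr.1.trans hr.2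
  have hs1 : s ∈ Icc (0 : ℝ) bt := ⟨h0, hs.trans hτ⟩
  have ht1 : τ ∈ Icc (0 : ℝ) bt := ⟨h0.trans hs, hτ⟩
  have hrt : r ∈ Icc 0 τ := ⟨hr.1, hr.2.trans hs⟩
  have xx : x c u + x c v ≤ 1 := by
    refine le_trans ?_ (hx.row c)
    have h1 : ∑ w ∈ ({u, v} : Finset V), x c w = x c u + x c v := Finset.sum_pair huv
    rw [← h1]
    exact Finset.sum_le_sum_of_subset_of_nonneg (Finset.subset_univ _) fun w _ _ => hx.nonneg c w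
  have key := exp_two3 (hZ.Hh_nonneg hx hs1 c u hr) (hZ.Hh_nonneg hx hs1 c v hr)
    (hZ.exp_Hh hx hs1 c u hr) (hZ.exp_Hh hx hs1 c v hr)
    ((hZ.Dd_mono hx hs hτ c u hr).trans (hC.Dd_le hZ hx ht1 c u hrt))
    ((hZ.Dd_mono hx hs hτ c v hr).trans (hC.Dd_le hZ hx ht1 c v hrt))
    (hC.B_nonneg hrt.1 hrt.2 hτ) (hx.nonneg c u) (hx.nonneg c v) xx hp1 hp2 hpm q0 hq
  refine key.trans ?_
  have m1 := mul_le_mul_of_nonneg_right (mul_le_mul_of_nonneg_left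
    (hZ.Dd_mono hx hs hτ c u hr) q0) hp1
  have m2 := mul_le_mul_of_nonneg_right (mul_le_mul_of_nonneg_left
    (hZ.Dd_mono hx hs hτ c v hr) q0) hp2
  unfold D3f C4f
  nlinarith [m1, m2]

theorem C1f_nonneg (hZ : Z.Ok sl) (hx : Wt x P 1) {τ q : ℝ} (hτ : τ ∈ Icc (0 : ℝ) bt)
    (q0 : 0 ≤ q) (c e : V) {r : ℝ} (hr : r ∈ Icc 0 τ) : 0 ≤ C1f Z x P τ q c e r :=
  mul_nonneg q0 (by linarith [hZ.Dd_nonneg hx hτ c e hr])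

theorem C4f_nonneg (hC : Z.Cf B E1) (hZ : Z.Ok sl) (hx : Wt x P 1) {τ q : ℝ}
    (hτ : τ ∈ Icc (0 : ℝ) bt) (q0 : 0 ≤ q) (c e : V) {r : ℝ} (hr : r ∈ Icc 0 τ) :
    0 ≤ C4f Z x P B τ q c e r :=
  mul_nonneg q0 (by linarith [hZ.Dd_nonneg hx hτ c e hr, hC.B_nonneg hr.1 hr.2 hτ.2])

theorem Dd_le_D3f (hC : Z.Cf B E1) (hx : Wt x P 1) {τ q m : ℝ} (hτ : τ ≤ bt)
    (q0 : 0 ≤ q) (m0 : 0 ≤ m) (σ : ℝ) (c e : V) {r : ℝ} (hr : r ∈ Icc 0 τ) :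
    Z.Dd x P σ c e r ≤ D3f Z x P B τ q m σ c e r := by
  have hB := hC.B_nonneg hr.1 hr.2 hτ
  have hm := xw_mem hx c e
  unfold D3f
  have h1 : 0 ≤ (1 + q * m) * B τ r ^ 2 * (x c e ^ 2 * (1 - x c e)) :=
    mul_nonneg (mul_nonneg (by nlinarith) (sq_nonneg _))
      (mul_nonneg (sq_nonneg _) (by linarith [hm.2]))
  have h2 : 0 ≤ q * m * B τ r * x c e ^ 2 :=
    mul_nonneg (mul_nonneg (mul_nonneg q0 m0) hB) (sq_nonneg _)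
  linarith

theorem D3f_nonneg (hC : Z.Cf B E1) (hZ : Z.Ok sl) (hx : Wt x P 1) {τ q m σ : ℝ} (hτ : τ ≤ bt)
    (q0 : 0 ≤ q) (m0 : 0 ≤ m) (hσ : σ ≤ τ) (c e : V) {r : ℝ} (hr : r ∈ Icc 0 σ) :
    0 ≤ D3f Z x P B τ q m σ c e r :=
  (hZ.Dd_nonneg hx ⟨hr.1.trans hr.2, hσ.trans hτ⟩ c e hr).trans
    (Dd_le_D3f hC hx hτ q0 m0 σ c e ⟨hr.1, hr.2.trans hσ⟩)

theorem D3f_mono (hZ : Z.Ok sl) (hx : Wt x P 1) {τ q m σ σ' : ℝ} (h : σ ≤ σ') (h1 : σ' ≤ bt)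
    (c e : V) {r : ℝ} (hr : r ∈ Icc 0 σ) :
    D3f Z x P B τ q m σ c e r ≤ D3f Z x P B τ q m σ' c e r := by
  unfold D3f
  linarith [hZ.Dd_mono hx h h1 c e hr]

section

variable {h : ℝ → V → V → ℝ} {H : V → V → ℝ → ℝ} {t s : ℝ}

/-- continuity of the scalar functions and of the family in the variable `r` -/
structure Ctn (F : Lz V) (G : Fm V) (α τ : ℝ) : Prop where
  y2 : ∀ t ∈ Icc α τ, ∀ s ∈ Icc 0 t, ∀ e, ContinuousOn (F.y2 t s e) (Icc 0 t)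
  y1 : ∀ e, ContinuousOn (F.y1 e) (Icc 0 τ)
  d3 : ∀ σ ∈ Icc 0 τ, ∀ c e, ContinuousOn (G.d3 σ c e) (Icc 0 τ)
  c4 : ∀ c e, ContinuousOn (G.c4 c e) (Icc 0 τ)

theorem Ctn.K2 (hc : Ctn F G α τ) (hF : F.Ok Z x P A D sg α τ) (hZ : Z.Ok sl) (hx : Wt x P 1)
    (ht : t ∈ Icc α τ) (hs : s ∈ Icc 0 t) (e f : V) :
    ContinuousOn (fun r => K2 Z F x P t s r e f) (Icc 0 t) :=
  Tb_cont hZ hx (ht.2.trans hF.τ1) (hc.y2 t ht s hs) e f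

theorem Ctn.K1 (hc : Ctn F G α τ) (hF : F.Ok Z x P A D sg α τ) (hZ : Z.Ok sl) (hx : Wt x P 1)
    (e f : V) : ContinuousOn (fun r => K1 Z F x P r e f) (Icc 0 τ) :=
  Tb_cont hZ hx hF.τ1 hc.y1 e f

/-- the closure of level 1 of one target -/
theorem level1 (hC : Z.Cf B E1) (hG : G.Ok Z F x P sg τ D B m q) (hc : Ctn F G α τ)
    (hF : F.Ok Z x P A D sg α τ) (hZ : Z.Ok sl) (hx : Wt x P 1)
    (ht : t ∈ Icc α τ) (hs : s ∈ Icc 0 t) (hsg : s ≤ sg) {c : V} {σ σ' : ℝ} (hσ : σ ∈ Icc 0 t)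
    (hσ' : σ ≤ σ') (hσ1 : σ' ≤ τ) {pm nm : V → ℝ → ℝ}
    (hl : RCM.Tl (Dᶜ.erase c) σ' (K1 Z F x P)
      (G.d3 σ' c) (N1 Z F x P D σ' c) G.gp G.gs (G.c1 c) (G.c4 c) pm nm)
    (hm : ∀ e f, e ≠ f → ∀ r ∈ Icc 0 σ', pm e r + pm f r ≤ m) :
    ∃ p' n' : V → ℝ → ℝ, RCM.SV (Dᶜ.erase c) σ (fun r e => Z.hh x P r c e)
      (K2 Z F x P t s) G.gp G.gm (fun e r => Z.Hh x P σ c e r + pm e r) p'
      (fun e r => N2 Z F x P D t s σ c e r + nm e r) n' := by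
  have hτ0 : 0 ≤ τ := (hs.1.trans hs.2).trans ht.2
  have σt : σ ≤ τ := hσ.2.trans ht.2
  have σ1 : σ ∈ Icc (0 : ℝ) bt := ⟨hσ.1, σt.trans hF.τ1⟩
  have σ'1 : σ' ∈ Icc (0 : ℝ) bt := ⟨hσ.1.trans hσ', hσ1.trans hF.τ1⟩
  have mt : ∀ r ∈ Icc 0 σ, r ∈ Icc 0 t := fun r hr => ⟨hr.1, hr.2.trans hσ.2⟩
  have mσ : ∀ r ∈ Icc 0 σ, r ∈ Icc 0 σ' := fun r hr => ⟨hr.1, hr.2.trans hσ'⟩
  have mτ : ∀ r ∈ Icc 0 σ', r ∈ Icc 0 τ := fun r hr => ⟨hr.1, hr.2.trans hσ1⟩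
  have mτ' : ∀ r ∈ Icc 0 σ, r ∈ Icc 0 τ := fun r hr => mτ r (mσ r hr)
  have m1 : ∀ r ∈ Icc 0 τ, r ∈ Icc (0 : ℝ) bt := fun r hr => ⟨hr.1, hr.2.trans hF.τ1⟩
  obtain ⟨gp', gm', hg⟩ := hG.g
  have cK2 : ∀ e f, ContinuousOn (fun r => K2 Z F x P t s r e f) (Icc 0 t) :=
    hc.K2 hF hZ hx ht hs
  have cK1 : ∀ e f, ContinuousOn (fun r => K1 Z F x P r e f) (Icc 0 τ) := hc.K1 hF hZ hx
  have cD : ∀ ς c f, ContinuousOn (Z.Dd x P ς c f) (Icc 0 bt) := hZ.Dd_cont hx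
  have ci : ∀ e, ContinuousOn (fun ρ => ∑ f ∈ Dᶜ.erase c,
      K2 Z F x P t s ρ e f * Z.Dd x P σ c f ρ) (Icc 0 σ) := fun e =>
    continuousOn_finsetSum _ fun f _ => ((cK2 e f).mono (Icc_subset_Icc_right hσ.2)).mul
      ((cD σ c f).mono (Icc_subset_Icc_right σ1.2))
  have ci' : ∀ e, ContinuousOn (fun ρ => ∑ f ∈ Dᶜ.erase c,
      K1 Z F x P ρ e f * Z.Dd x P σ' c f ρ) (Icc 0 σ') := fun e =>
    continuousOn_finsetSum _ fun f _ => ((cK1 e f).mono (Icc_subset_Icc_right hσ1)).mul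
      ((cD σ' c f).mono (Icc_subset_Icc_right σ'1.2))
  have D0 : ∀ {ς : ℝ}, ς ∈ Icc (0 : ℝ) bt → ∀ f, ∀ r ∈ Icc 0 ς, 0 ≤ Z.Dd x P ς c f r :=
    fun hς f r hr => hZ.Dd_nonneg hx hς c f hr
  have τ1 : τ ∈ Icc (0 : ℝ) bt := ⟨hτ0, hF.τ1⟩
  have m0 : 0 ≤ m := hG.m0
  have hl' : RCM.Tl (Dᶜ.erase c) σ (K1 Z F x P)
      (G.d3 σ' c) (N1 Z F x P D σ' c) G.gp G.gs (G.c1 c) (G.c4 c) pm nm :=
    ⟨fun e he r hr => hl.dp e he r (mσ r hr), fun e he r hr => hl.dn e he r (mσ r hr),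
      fun e r hr => hl.p0 e r (mσ r hr), fun e r hr => hl.n0 e r (mσ r hr), hl.pz, hl.nz⟩
  refine RCM.SV_of_tail (T := K2 Z F x P t s) (Tm := K1 Z F x P)
    (Hk := fun e r => Z.Hh x P σ c e r) (D := Z.Dd x P σ c) (Dm := G.d3 σ' c)
    (n1 := fun e => N2 Z F x P D t s σ c e)
    (n1' := fun e r => -(∑ f ∈ Dᶜ.erase c,
      K2 Z F x P t s r e f * Z.Dd x P σ c f r))
    (nm := N1 Z F x P D σ' c) (gq := G.gp) (gs := G.gs) (gm := G.gm)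
    (c1 := G.c1 c) (c4 := G.c4 c) hl'
    (fun r hr e f => K2_le hF hZ hx ht hs hsg (mt r hr) e f)
    (fun e r hr => ?_) (fun _ _ _ _ => le_rfl)
    (fun f r hr => by
      rw [hG.d3]
      exact D3f_nonneg hC hZ hx hF.τ1 hG.q0 m0 hσ1 c f (mσ r hr)) (fun r _ e f => K1_symm hx r e f)
    (fun r hr e f => K2_nonneg hZ hx t s (m1 r (mτ' r hr)) e f)
    (fun r _ e => K2_diag hx t s r e)
    (fun e _ r hr => hZ.Hh_deriv hx c e (m1 r (mτ' r hr)))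
    (fun e r hr => hZ.Hh_nonneg hx σ1 c e hr) (fun e r hr => D0 σ1 e r hr)
    (fun e _ r hr => RCM.bk_deriv hσ.1 (ci e) hr) (fun e _ r hr => by rw [neg_neg])
    (fun e r hr => RCM.bk_nonneg hr fun z hz => Finset.sum_nonneg fun f _ =>
      mul_nonneg (K2_nonneg hZ hx t s (m1 z (mτ' z hz)) e f) (D0 σ1 f z hz))
    (fun i j r hr => hg.gp0 i j r (mτ' r hr)) (fun i j r hr => hg.gm0 i j r (mτ' r hr))
    (fun i j r hr => hG.s0 i j r (mτ' r hr))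
    (fun e r hr => by
      rw [hG.c1]
      exact C1f_nonneg hZ hx τ1 hG.q0 c e (mτ' r hr))
    (fun e r hr => by
      rw [hG.c4]
      exact C4f_nonneg hC hZ hx τ1 hG.q0 c e (mτ' r hr))
    (fun e he i hi j hj hij r hr => hG.es e (Finset.mem_of_mem_erase he) i
      (Finset.mem_of_mem_erase hi) j (Finset.mem_of_mem_erase hj) hij r (mτ' r hr))
    (fun e he r hr => ?_) (fun e he f hf hef r hr => ?_)
  · -- the majorant of the leading part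
    refine RCM.bk_le hr hσ' (ci e) (ci' e) (fun z hz => Finset.sum_le_sum fun f _ => ?_)
      (fun z hz => Finset.sum_nonneg fun f _ => mul_nonneg
        (K1_nonneg hZ hx (m1 z (mτ z hz)) e f) (D0 σ'1 f z hz))
    exact mul_le_mul (K2_le hF hZ hx ht hs hsg (mt z hz) e f)
      (hZ.Dd_mono hx hσ' σ'1.2 c f hz) (D0 σ1 f z hz)
      (K1_nonneg hZ hx (m1 z (mτ' z hz)) e f)
  · -- one exponent
    rw [hG.c1]
    have hex : ∃ f, e ≠ f := ⟨c, Finset.ne_of_mem_erase he⟩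
    obtain ⟨f, hf⟩ := hex
    have h1 := hm e f hf r (mσ r hr)
    have h2 := hl.p0 f r (mσ r hr)
    exact hZ.one' hx σt hF.τ1 c e hr (hl.p0 e r (mσ r hr)) (by linarith) hG.q0 hG.hq
  · -- two exponents
    rw [hG.d3, hG.c4]
    refine (hC.two' hZ hx σt hF.τ1 hef hr (hl.p0 e r (mσ r hr)) (hl.p0 f r (mσ r hr))
      (hm e f hef r (mσ r hr)) hG.q0 hG.hq).trans ?_
    have a1 : ∀ g, D3f Z x P B τ q m σ c g r ≤ D3f Z x P B τ q m σ' c g r :=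
      fun g => D3f_mono hZ hx hσ' σ'1.2 c g hr
    exact add_le_add (add_le_add (a1 e) le_rfl) (add_le_add (a1 f) le_rfl)

end

end Pool.Agent.RX.RCN.K
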