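import Pool.Agent.RX.RCM.NuB_1

/-! The closures with explicit constants: the two theorems (MP_73ccd0_lc, route M). -/

namespace Pool.Agent.RX.RCN.K

open Set Finset MeasureTheory Pool.Agent.RX.RCRSHalf Pool.Agent.RX.RCG Pool.Agent.RX.RCG.Ct

set_option linter.unusedSectionVars false

variable {V : Type*} [Fintype V] [DecidableEq V]
variable {Z : Hzd} {x : V → V → ℝ} {P : V → Prop} [DecidablePred P]

variable {sl : ℝ → ℝ → ℝ} {α τ sg : ℝ} {B E1 : ℝ → ℝ → ℝ} {m q : ℝ} {A D : Finset V} {G : Fm V}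
variable {h : ℝ → V → V → ℝ} {H : V → V → ℝ → ℝ} {t s : ℝ}

theorem Hzd.Ok.Hh0_cont (hZ : Z.Ok sl) (hx : Wt x P 1) (c d : V) :
    ContinuousOn (fun r => Z.Hh x P r c d 0) (Icc 0 bt) := by
  have hm := xw_mem hx c d
  unfold Hzd.Hh
  split_ifs
  · refine continuousOn_const.sub (ContinuousOn.log ?_ fun r hr => (hZ.den _ hm r hr).ne')
    exact continuousOn_const.sub (continuousOn_const.mul fun r hr =>
      (hZ.d _ hm r hr).continuousAt.continuousWithinAt)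
  · refine continuousOn_const.mul ((ContinuousOn.log (by fun_prop) fun r hr => ?_).sub
      continuousOn_const)
    linarith [hr.1]

/-- continuity of the tails -/
structure Ctl (G : Fm V) (sg τ : ℝ) : Prop where
  p : ∀ c e, ContinuousOn (G.p c e) (Icc 0 τ)
  n : ∀ c e, ContinuousOn (G.n c e) (Icc 0 τ)
  pd : ∀ s ∈ Icc 0 sg, ∀ d e, ContinuousOn (G.pd s d e) (Icc 0 s)
  nd : ∀ s ∈ Icc 0 sg, ∀ d e, ContinuousOn (G.nd s d e) (Icc 0 s)
  pt : ∀ s ∈ Icc 0 sg, ∀ d e, ContinuousOn (G.pt s d e) (Icc 0 s)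
  nt : ∀ s ∈ Icc 0 sg, ∀ d e, ContinuousOn (G.nt s d e) (Icc 0 s)

end Pool.Agent.RX.RCN.K
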