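import Pool.Agent.RX.RCM.Ins
import Pool.Agent.RX.RCM.Kt
import Pool.Agent.RX.RCM.Mono_3
import Pool.Agent.RX.RCM.NuB_2
import Pool.Agent.RX.RCM.NuC

/-! The deleted closures with explicit constants from the deleted tails alone (MP_73ccd0_lc, route
M, density errors). -/

namespace Pool.Agent.RX.RCN.K

open Set Finset MeasureTheory Pool.Agent.RX.RCRSHalf Pool.Agent.RX.RCG Pool.Agent.RX.RCG.Ct

set_option linter.unusedSectionVars false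

variable {V : Type*} [Fintype V] [DecidableEq V]

section

variable (Z : Hzd) (F : Lz V) (x : V → V → ℝ) (P : V → Prop) [DecidablePred P]

/-- the deleted part of the properties of the family; `m`, `q` bound the sums of two tails; the second time is at most
`sg` -/
structure Fm.Od (G : Fm V) (sg τ : ℝ) (D : Finset V) (B : ℝ → ℝ → ℝ) (m q : ℝ) : Prop where
  g : ∃ gp' gm', RCM.S12 Dᶜ τ (K1 Z F x P)
    (RCM.Ab (Z.hh x P) F.y1) (RCM.Bw (Z.hh x P) F.n1) G.gp gp' G.gm gm'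
  pz : ∀ i r, G.gp i i r = 0
  mz : ∀ i r, G.gm i i r = 0
  s0 : ∀ i j, ∀ r ∈ Icc 0 τ, 0 ≤ G.gs i j r
  es : ∀ e ∈ Dᶜ, ∀ i ∈ Dᶜ, ∀ j ∈ Dᶜ, i ≠ j →
    ∀ r ∈ Icc 0 τ, 1 - Real.exp (-(G.gm e i r + G.gm e j r)) ≤ G.gs e i r + G.gs e j r
  q0 : 0 ≤ q
  m0 : 0 ≤ m
  c1 : G.c1 = C1f Z x P τ q
  d3 : G.d3 = D3f Z x P B τ q m
  c4 : G.c4 = C4f Z x P B τ q
  hq : Real.exp m - 1 ≤ q * m
  tc : ∀ c ∈ Dᶜ, RCM.Tl (Dᶜ.erase c) τ (K1 Z F x P)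
    (G.d3 τ c) (N1 Z F x P D τ c) G.gp G.gs (G.c1 c) (G.c4 c) (G.p c) (G.n c)
  td : ∀ s ∈ Icc 0 sg, ∀ d ∈ Dᶜ,
    RCM.Tl (Dᶜ.erase d) s (K1 Z F x P)
    (G.d3 s d) (N1 Z F x P D s d) G.gp G.gs (G.c1 d) (G.c4 d) (G.pd s d) (G.nd s d)
  bc : ∀ c ∈ Dᶜ, ∀ e f, e ≠ f → ∀ r ∈ Icc 0 τ, G.p c e r + G.p c f r ≤ m
  bd : ∀ s ∈ Icc 0 sg, ∀ d ∈ Dᶜ, ∀ e f, e ≠ f → ∀ r ∈ Icc 0 s,
    G.pd s d e r + G.pd s d f r ≤ m

end

variable {Z : Hzd} {F : Lz V} {x : V → V → ℝ} {P : V → Prop} [DecidablePred P]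
variable {sl : ℝ → ℝ → ℝ} {α τ sg : ℝ} {B E1 : ℝ → ℝ → ℝ} {m q : ℝ} {A D : Finset V} {G : Fm V}
variable {h : ℝ → V → V → ℝ} {H : V → V → ℝ → ℝ} {t s : ℝ}

/-- the closure of level 1 of one target -/
theorem level1d (hC : Z.Cf B E1) (hG : G.Od Z F x P sg τ D B m q) (hc : Ctn F G α τ)
    (hF : F.Ok Z x P A D sg α τ) (hZ : Z.Ok sl) (hx : Wt x P 1)
    (ht : t ∈ Icc α τ) (hs : s ∈ Icc 0 t) (hsg : s ≤ sg) {c : V} {σ σ' : ℝ} (hσ : σ ∈ Icc 0 t)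
    (hσ' : σ ≤ σ') (hσ1 : σ' ≤ τ) {pm nm : V → ℝ → ℝ}
    (hl : RCM.Tl (Dᶜ.erase c) σ' (K1 Z F x P)
      (G.d3 σ' c) (N1 Z F x P D σ' c) G.gp G.gs (G.c1 c) (G.c4 c) pm nm)
    (hm : ∀ e f, e ≠ f → ∀ r ∈ Icc 0 σ', pm e r + pm f r ≤ m) :
    ∃ p' n' : V → ℝ → ℝ, RCM.SV (Dᶜ.erase c) σ (fun r e => Z.hh x P r c e)
      (K2 Z F x P t s) G.gp G.gm (fun e r => Z.Hh x P σ c e r + pm e r) p'
      (fun e r => N2 Z F x P D t s σ c e r + nm e r) n' := by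
  have hτ0 : 0 ≤ τ := (hs.1.trans hs.2).trans ht.2
  have σt : σ ≤ τ := hσ.2.trans ht.2
  have σ1 : σ ∈ Icc (0 : ℝ) bt := ⟨hσ.1, σt.trans hF.τ1⟩
  have σ'1 : σ' ∈ Icc (0 : ℝ) bt := ⟨hσ.1.trans hσ', hσ1.trans hF.τ1⟩
  have mt : ∀ r ∈ Icc 0 σ, r ∈ Icc 0 t := fun r hr => ⟨hr.1, hr.2.trans hσ.2⟩
  have mσ : ∀ r ∈ Icc 0 σ, r ∈ Icc 0 σ' := fun r hr => ⟨hr.1, hr.2.trans hσ'⟩
  have mτ : ∀ r ∈ Icc 0 σ', r ∈ Icc 0 τ := fun r hr => ⟨hr.1, hr.2.trans hσ1⟩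
  have mτ' : ∀ r ∈ Icc 0 σ, r ∈ Icc 0 τ := fun r hr => mτ r (mσ r hr)
  have m1 : ∀ r ∈ Icc 0 τ, r ∈ Icc (0 : ℝ) bt := fun r hr => ⟨hr.1, hr.2.trans hF.τ1⟩
  obtain ⟨gp', gm', hg⟩ := hG.g
  have cK2 : ∀ e f, ContinuousOn (fun r => K2 Z F x P t s r e f) (Icc 0 t) :=
    hc.K2 hF hZ hx ht hs
  have cK1 : ∀ e f, ContinuousOn (fun r => K1 Z F x P r e f) (Icc 0 τ) := hc.K1 hF hZ hx
  have cD : ∀ ς c f, ContinuousOn (Z.Dd x P ς c f) (Icc 0 bt) := hZ.Dd_cont hx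
  have ci : ∀ e, ContinuousOn (fun ρ => ∑ f ∈ Dᶜ.erase c,
      K2 Z F x P t s ρ e f * Z.Dd x P σ c f ρ) (Icc 0 σ) := fun e =>
    continuousOn_finsetSum _ fun f _ => ((cK2 e f).mono (Icc_subset_Icc_right hσ.2)).mul
      ((cD σ c f).mono (Icc_subset_Icc_right σ1.2))
  have ci' : ∀ e, ContinuousOn (fun ρ => ∑ f ∈ Dᶜ.erase c,
      K1 Z F x P ρ e f * Z.Dd x P σ' c f ρ) (Icc 0 σ') := fun e =>
    continuousOn_finsetSum _ fun f _ => ((cK1 e f).mono (Icc_subset_Icc_right hσ1)).mul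
      ((cD σ' c f).mono (Icc_subset_Icc_right σ'1.2))
  have D0 : ∀ {ς : ℝ}, ς ∈ Icc (0 : ℝ) bt → ∀ f, ∀ r ∈ Icc 0 ς, 0 ≤ Z.Dd x P ς c f r :=
    fun hς f r hr => hZ.Dd_nonneg hx hς c f hr
  have τ1 : τ ∈ Icc (0 : ℝ) bt := ⟨hτ0, hF.τ1⟩
  have m0 : 0 ≤ m := hG.m0
  have hl' : RCM.Tl (Dᶜ.erase c) σ (K1 Z F x P)
      (G.d3 σ' c) (N1 Z F x P D σ' c) G.gp G.gs (G.c1 c) (G.c4 c) pm nm :=
    ⟨fun e he r hr => hl.dp e he r (mσ r hr), fun e he r hr => hl.dn e he r (mσ r hr),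
      fun e r hr => hl.p0 e r (mσ r hr), fun e r hr => hl.n0 e r (mσ r hr), hl.pz, hl.nz⟩
  refine RCM.SV_of_tail (T := K2 Z F x P t s) (Tm := K1 Z F x P)
    (Hk := fun e r => Z.Hh x P σ c e r) (D := Z.Dd x P σ c) (Dm := G.d3 σ' c)
    (n1 := fun e => N2 Z F x P D t s σ c e)
    (n1' := fun e r => -(∑ f ∈ Dᶜ.erase c,
      K2 Z F x P t s r e f * Z.Dd x P σ c f r))
    (nm := N1 Z F x P D σ' c) (gq := G.gp) (gs := G.gs) (gm := G.gm)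
    (c1 := G.c1 c) (c4 := G.c4 c) hl'
    (fun r hr e f => K2_le hF hZ hx ht hs hsg (mt r hr) e f)
    (fun e r hr => ?_) (fun _ _ _ _ => le_rfl)
    (fun f r hr => by
      rw [hG.d3]
      exact D3f_nonneg hC hZ hx hF.τ1 hG.q0 m0 hσ1 c f (mσ r hr)) (fun r _ e f => K1_symm hx r e f)
    (fun r hr e f => K2_nonneg hZ hx t s (m1 r (mτ' r hr)) e f)
    (fun r _ e => K2_diag hx t s r e)
    (fun e _ r hr => hZ.Hh_deriv hx c e (m1 r (mτ' r hr)))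
    (fun e r hr => hZ.Hh_nonneg hx σ1 c e hr) (fun e r hr => D0 σ1 e r hr)
    (fun e _ r hr => RCM.bk_deriv hσ.1 (ci e) hr) (fun e _ r hr => by rw [neg_neg])
    (fun e r hr => RCM.bk_nonneg hr fun z hz => Finset.sum_nonneg fun f _ =>
      mul_nonneg (K2_nonneg hZ hx t s (m1 z (mτ' z hz)) e f) (D0 σ1 f z hz))
    (fun i j r hr => hg.gp0 i j r (mτ' r hr)) (fun i j r hr => hg.gm0 i j r (mτ' r hr))
    (fun i j r hr => hG.s0 i j r (mτ' r hr))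
    (fun e r hr => by
      rw [hG.c1]
      exact C1f_nonneg hZ hx τ1 hG.q0 c e (mτ' r hr))
    (fun e r hr => by
      rw [hG.c4]
      exact C4f_nonneg hC hZ hx τ1 hG.q0 c e (mτ' r hr))
    (fun e he i hi j hj hij r hr => hG.es e (Finset.mem_of_mem_erase he) i
      (Finset.mem_of_mem_erase hi) j (Finset.mem_of_mem_erase hj) hij r (mτ' r hr))
    (fun e he r hr => ?_) (fun e he f hf hef r hr => ?_)
  · -- the majorant of the leading part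
    refine RCM.bk_le hr hσ' (ci e) (ci' e) (fun z hz => Finset.sum_le_sum fun f _ => ?_)
      (fun z hz => Finset.sum_nonneg fun f _ => mul_nonneg
        (K1_nonneg hZ hx (m1 z (mτ z hz)) e f) (D0 σ'1 f z hz))
    exact mul_le_mul (K2_le hF hZ hx ht hs hsg (mt z hz) e f)
      (hZ.Dd_mono hx hσ' σ'1.2 c f hz) (D0 σ1 f z hz)
      (K1_nonneg hZ hx (m1 z (mτ' z hz)) e f)
  · -- one exponent
    rw [hG.c1]
    have hex : ∃ f, e ≠ f := ⟨c, Finset.ne_of_mem_erase he⟩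
    obtain ⟨f, hf⟩ := hex
    have h1 := hm e f hf r (mσ r hr)
    have h2 := hl.p0 f r (mσ r hr)
    exact hZ.one' hx σt hF.τ1 c e hr (hl.p0 e r (mσ r hr)) (by linarith) hG.q0 hG.hq
  · -- two exponents
    rw [hG.d3, hG.c4]
    refine (hC.two' hZ hx σt hF.τ1 hef hr (hl.p0 e r (mσ r hr)) (hl.p0 f r (mσ r hr))
      (hm e f hef r (mσ r hr)) hG.q0 hG.hq).trans ?_
    have a1 : ∀ g, D3f Z x P B τ q m σ c g r ≤ D3f Z x P B τ q m σ' c g r :=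
      fun g => D3f_mono hZ hx hσ' σ'1.2 c g hr
    exact add_le_add (add_le_add (a1 e) le_rfl) (add_le_add (a1 f) le_rfl)

/-- level 1/2 in the world of the two times -/
theorem Fm.Od.g2 (hG : G.Od Z F x P sg τ D B m q) (hF : F.Ok Z x P A D sg α τ) (hZ : Z.Ok sl)
    (hx : Wt x P 1) (ht : t ∈ Icc α τ) (hs : s ∈ Icc 0 t) (hsg : s ≤ sg) :
    ∃ gp' gm', RCM.S12 Dᶜ t (K2 Z F x P t s)
      (RCM.Ab (Z.hh x P) (F.y2 t s))
      (RCM.Bw (Z.hh x P) (F.n2 t s)) G.gp gp' G.gm gm' := by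
  obtain ⟨gp', gm', hg⟩ := hG.g
  have mτ : ∀ r ∈ Icc 0 t, r ∈ Icc 0 τ := fun r hr => ⟨hr.1, hr.2.trans ht.2⟩
  have m1 : ∀ r ∈ Icc 0 t, r ∈ Icc (0 : ℝ) bt := fun r hr => ⟨hr.1, (mτ r hr).2.trans hF.τ1⟩
  refine ⟨gp', gm', hg.mono ht.2 (fun r hr i _ j _ => K2_le hF hZ hx ht hs hsg hr i j)
    (fun r hr i _ j _ => ?_) (fun r hr i _ j _ => ?_)⟩
  · unfold RCM.Ab
    refine mul_le_mul_of_nonneg_left ?_ (hZ.hh_nonneg hx (m1 r hr) i j)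
    linarith [Real.exp_le_exp.2 (add_le_add (hF.ym t ht s hs hsg i r hr)
      (hF.ym t ht s hs hsg j r hr))]
  · unfold RCM.Bw
    refine mul_le_mul_of_nonneg_left ?_ (hZ.hh_nonneg hx (m1 r hr) i j)
    have h1 := hF.nm t ht s hs hsg i r hr
    have h2 := hF.nm t ht s hs hsg j r hr
    have h3 := hF.n11 i r (mτ r hr)
    have h4 := hF.n11 j r (mτ r hr)
    nlinarith

/-- the parts of the closures -/
theorem partsd (hh : Haz h H) (hC : Z.Cf B E1) (hG : G.Od Z F x P sg τ D B m q)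
    (hc : Ctn F G α τ) (hF : F.Ok Z x P A D sg α τ) (hZ : Z.Ok sl) (hx : Wt x P 1)
    (ht : t ∈ Icc α τ) (hs : s ∈ Icc 0 t) (hsg : s ≤ sg)
    (hle : ∀ u v, ∀ r ∈ Icc 0 t, h r u v ≤ Z.hh x P r u v)
    (hHle : ∀ u v, ∀ σ ∈ Icc 0 t, ∀ r ∈ Icc 0 σ, H u v σ - H u v r ≤ Z.Hh x P σ u v r)
    {c d : V} (hcU : c ∈ Dᶜ) (hdU : d ∈ Dᶜ) {pm nm : V → ℝ → ℝ}
    (hl : RCM.Tl (Dᶜ.erase d) s (K1 Z F x P)
      (G.d3 s d) (N1 Z F x P D s d) G.gp G.gs (G.c1 d) (G.c4 d) pm nm)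
    (hm : ∀ e f, e ≠ f → ∀ r ∈ Icc 0 s, pm e r + pm f r ≤ m)
    (cpm : ∀ e, ContinuousOn (pm e) (Icc 0 s)) (cnm : ∀ e, ContinuousOn (nm e) (Icc 0 s))
    (cp : ∀ e, ContinuousOn (G.p c e) (Icc 0 τ)) (cn : ∀ e, ContinuousOn (G.n c e) (Icc 0 τ))
    (kT : ℝ) :
    ∃ (Pa Pa' Na Na' Q Q' N N' : V → ℝ → ℝ) (gp' gm' : V → V → ℝ → ℝ)
      (pc' nc' pd' nd' : V → ℝ → ℝ) (k k' ptca ptca' ptc ptc' ptd ptd' : ℝ → ℝ),
      RCM.Wld h A D s t Dᶜ Pa Pa' Na Na' Q Q' N N'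
        (K2 Z F x P t s)
        (RCM.Ab (Z.hh x P) (F.y2 t s))
        (RCM.Bw (Z.hh x P) (F.n2 t s)) G.gp gp' G.gm gm' ∧
      RCM.SV (Dᶜ.erase c) t (fun r e => Z.hh x P r c e)
        (K2 Z F x P t s) G.gp G.gm (fun e r => Z.Hh x P t c e r + G.p c e r) pc'
        (fun e r => N2 Z F x P D t s t c e r + G.n c e r) nc' ∧
      RCM.SV (Dᶜ.erase d) s (fun r e => Z.hh x P r d e)
        (K2 Z F x P t s) G.gp G.gm (fun e r => Z.Hh x P s d e r + pm e r) pd'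
        (fun e r => N2 Z F x P D t s s d e r + nm e r) nd' ∧
      RCM.Sk ((Dᶜ.erase c).erase d) s (K2 Z F x P t s)
        (fun e r => Z.Hh x P t c e r + G.p c e r)
        (fun e r => N2 Z F x P D t s t c e r + G.n c e r)
        (fun e r => Z.Hh x P s d e r + pm e r)
        (fun e r => N2 Z F x P D t s s d e r + nm e r) k k' ∧
      k s = kT ∧
      RCM.Ipt h (Dᶜ.erase c) c d t (RCM.Wf Pa) ptca ptca' ∧ ptca t = 0 ∧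
      RCM.Ipt h (Dᶜ.erase c) c d s (RCM.Wf Q) ptc ptc' ∧ ptc s ≤ ptca s ∧
      RCM.Ipt h (Dᶜ.erase d) d c s (RCM.Wf Q) ptd ptd' ∧ ptd s = 0 ∧
      k 0 + G.gm c d 0 + (N2 Z F x P D t s t c d 0 + G.n c d 0)
        + (N2 Z F x P D t s s d c 0 + nm c 0)
        + (H c d s - ptc 0 * Real.exp (-(N2 Z F x P D t s t c d 0 + G.n c d 0))
          - ptd 0 * Real.exp (-(N2 Z F x P D t s s d c 0 + nm c 0)))
      ≤ kT + Kdd Z F x P D c d τ s G.d3 G.c4 (G.p c) (G.n c) pm nm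
        + G.gm c d 0 + (N2 Z F x P D t s t c d 0 + G.n c d 0)
        + (N2 Z F x P D t s s d c 0 + nm c 0)
        + Di Z F x P D c d t s (N2 Z F x P D t s t c d 0 + G.n c d 0)
          (N2 Z F x P D t s s d c 0 + nm c 0) := by
  have h0t : 0 ≤ t := hs.1.trans hs.2
  have hsτ : s ≤ τ := hs.2.trans ht.2
  have hτ0 : 0 ≤ τ := hs.1.trans hsτ
  have τ1 : τ ∈ Icc (0 : ℝ) bt := ⟨hτ0, hF.τ1⟩
  have t1 : t ∈ Icc (0 : ℝ) bt := ⟨h0t, ht.2.trans hF.τ1⟩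
  have s1 : s ∈ Icc (0 : ℝ) bt := ⟨hs.1, hs.2.trans t1.2⟩
  have mst : ∀ r ∈ Icc 0 s, r ∈ Icc 0 t := fun r hr => ⟨hr.1, hr.2.trans hs.2⟩
  have msτ : ∀ r ∈ Icc 0 s, r ∈ Icc 0 τ := fun r hr => ⟨hr.1, hr.2.trans hsτ⟩
  have ms1 : ∀ r ∈ Icc 0 s, r ∈ Icc (0 : ℝ) bt := fun r hr => ⟨hr.1, hr.2.trans s1.2⟩
  have mt1 : ∀ r ∈ Icc 0 t, r ∈ Icc (0 : ℝ) bt := fun r hr => ⟨hr.1, hr.2.trans t1.2⟩
  have mτ1 : ∀ r ∈ Icc 0 τ, r ∈ Icc (0 : ℝ) bt := fun r hr => ⟨hr.1, hr.2.trans hF.τ1⟩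
  obtain ⟨gp', gm', hg2⟩ := hG.g2 hF hZ hx ht hs hsg
  obtain ⟨Pa, Pa', Na, Na', Q, Q', N, N', hw0⟩ := hF.w0 h H hh t ht s hs hsg hle hHle
  have hw := hw0.wld hg2
  have hlc := hG.tc c hcU
  obtain ⟨pc', nc', hSc⟩ := level1d hC hG hc hF hZ hx ht hs hsg (c := c) (σ := t) (σ' := τ)
    ⟨h0t, le_rfl⟩ ht.2 le_rfl hlc (fun e f hef r hr => hG.bc c hcU e f hef r hr)
  obtain ⟨pd', nd', hSd⟩ := level1d hC hG hc hF hZ hx ht hs hsg (c := d) (σ := s) (σ' := s)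
    hs le_rfl hsτ hl hm
  -- continuity
  have cK2 : ∀ e f, ContinuousOn (fun r => K2 Z F x P t s r e f) (Icc 0 t) :=
    hc.K2 hF hZ hx ht hs
  have cK1 : ∀ e f, ContinuousOn (fun r => K1 Z F x P r e f) (Icc 0 τ) := hc.K1 hF hZ hx
  have cD : ∀ ς c f, ContinuousOn (Z.Dd x P ς c f) (Icc 0 bt) := hZ.Dd_cont hx
  have cN1 : ∀ {σ : ℝ}, 0 ≤ σ → σ ≤ τ → ∀ c e, ContinuousOn (N1 Z F x P D σ c e) (Icc 0 σ) :=
    fun {σ} h0 h1 c e r hr => (RCM.bk_deriv h0 (continuousOn_finsetSum _ fun f _ =>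
      ((cK1 e f).mono (Icc_subset_Icc_right h1)).mul
      ((cD σ c f).mono (Icc_subset_Icc_right (h1.trans hF.τ1)))) hr).continuousAt.continuousWithinAt
  have D0 : ∀ {ς : ℝ}, ς ∈ Icc (0 : ℝ) bt → ∀ c f, ∀ r ∈ Icc 0 ς, 0 ≤ Z.Dd x P ς c f r :=
    fun hς c f r hr => hZ.Dd_nonneg hx hς c f hr
  have N10 : ∀ {σ : ℝ}, 0 ≤ σ → σ ≤ τ → ∀ c e, ∀ r ∈ Icc 0 σ, 0 ≤ N1 Z F x P D σ c e r :=
    fun {σ} h0 h1 c e r hr => RCM.bk_nonneg hr fun z hz => Finset.sum_nonneg fun f _ =>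
      mul_nonneg (K1_nonneg hZ hx ⟨hz.1, hz.2.trans (h1.trans hF.τ1)⟩ e f)
        (D0 ⟨h0, h1.trans hF.τ1⟩ c f z hz)
  have N20 : ∀ {σ : ℝ}, σ ∈ Icc 0 t → ∀ c e, ∀ r ∈ Icc 0 σ, 0 ≤ N2 Z F x P D t s σ c e r :=
    fun {σ} hσ c e r hr => RCM.bk_nonneg hr fun z hz => Finset.sum_nonneg fun f _ =>
      mul_nonneg (K2_nonneg hZ hx t s ⟨hz.1, (hz.2.trans hσ.2).trans t1.2⟩ e f)
        (D0 ⟨hσ.1, hσ.2.trans t1.2⟩ c f z hz)
  have N21 : ∀ {σ σ' : ℝ}, σ ∈ Icc 0 t → σ ≤ σ' → σ' ≤ τ → ∀ c e, ∀ r ∈ Icc 0 σ,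
      N2 Z F x P D t s σ c e r ≤ N1 Z F x P D σ' c e r := fun {σ σ'} hσ h1 h2 c e r hr => by
    have hσ1 : σ ∈ Icc (0 : ℝ) bt := ⟨hσ.1, hσ.2.trans t1.2⟩
    have hσ'1 : σ' ∈ Icc (0 : ℝ) bt := ⟨hσ.1.trans h1, h2.trans hF.τ1⟩
    refine RCM.bk_le hr h1
      (continuousOn_finsetSum _ fun f _ => ((cK2 e f).mono (Icc_subset_Icc_right hσ.2)).mul
        ((cD σ c f).mono (Icc_subset_Icc_right hσ1.2)))
      (continuousOn_finsetSum _ fun f _ => ((cK1 e f).mono (Icc_subset_Icc_right h2)).mul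
        ((cD σ' c f).mono (Icc_subset_Icc_right hσ'1.2)))
      (fun z hz => Finset.sum_le_sum fun f _ => ?_)
      (fun z hz => Finset.sum_nonneg fun f _ => mul_nonneg
        (K1_nonneg hZ hx ⟨hz.1, hz.2.trans hσ'1.2⟩ e f) (D0 hσ'1 c f z hz))
    exact mul_le_mul (K2_le hF hZ hx ht hs hsg ⟨hz.1, hz.2.trans hσ.2⟩ e f)
      (hZ.Dd_mono hx h1 hσ'1.2 c f hz) (D0 hσ1 c f z hz)
      (K1_nonneg hZ hx ⟨hz.1, hz.2.trans hσ1.2⟩ e f)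
  have d30 : ∀ {ς : ℝ}, ς ∈ Icc 0 τ → ∀ c f, ∀ r ∈ Icc 0 ς, 0 ≤ G.d3 ς c f r :=
    fun {ς} hς c f r hr => by
      rw [hG.d3]
      exact D3f_nonneg hC hZ hx hF.τ1 hG.q0 hG.m0 hς.2 c f hr
  have c40 : ∀ c f, ∀ r ∈ Icc 0 τ, 0 ≤ G.c4 c f r := fun c f r hr => by
    rw [hG.c4]
    exact C4f_nonneg hC hZ hx τ1 hG.q0 c f hr
  -- level 2
  obtain ⟨k, k', hk, ks, k0⟩ := RCM.exists_k (X := (Dᶜ.erase c).erase d)
    hs.1 (T := K1 Z F x P) (fun r _ e f => K1_symm hx r e f)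
    (fun r hr e f => K1_nonneg hZ hx (ms1 r hr) e f) (fun r _ e => K1_diag hx r e)
    (fun e f => (cK1 e f).mono (Icc_subset_Icc_right hsτ))
    (pc := fun e r => Z.Hh x P τ c e r + G.p c e r)
    (nc := fun e r => N1 Z F x P D τ c e r + G.n c e r)
    (pd := fun e r => Z.Hh x P s d e r + pm e r)
    (nd := fun e r => N1 Z F x P D s d e r + nm e r)
    (Ec := fun e r => G.d3 τ c e r + G.c4 c e r * G.p c e r)
    (Ed := fun e r => G.d3 s d e r + G.c4 d e r * pm e r)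
    (fun e => ((cN1 hτ0 le_rfl c e).add (cn e)).mono (Icc_subset_Icc_right hsτ))
    (fun e => (cN1 hs.1 hsτ d e).add (cnm e))
    (fun e => ((hc.d3 τ ⟨hτ0, le_rfl⟩ c e).add
      ((hc.c4 c e).mul (cp e))).mono (Icc_subset_Icc_right hsτ))
    (fun e => ((hc.d3 s ⟨hs.1, hsτ⟩ d e).mono (Icc_subset_Icc_right hsτ)).add
      (((hc.c4 d e).mono (Icc_subset_Icc_right hsτ)).mul (cpm e)))
    (fun e r hr => add_nonneg (N10 hτ0 le_rfl c e r (msτ r hr)) (hlc.n0 e r (msτ r hr)))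
    (fun e r hr => add_nonneg (N10 hs.1 hsτ d e r hr) (hl.n0 e r hr))
    (fun e r hr => add_nonneg (hZ.Hh_nonneg hx s1 d e hr) (hl.p0 e r hr))
    (fun e r hr => add_nonneg (d30 ⟨hτ0, le_rfl⟩ c e r (msτ r hr))
      (mul_nonneg (c40 c e r (msτ r hr)) (hlc.p0 e r (msτ r hr))))
    (fun e r hr => add_nonneg (d30 ⟨hs.1, hsτ⟩ d e r hr)
      (mul_nonneg (c40 d e r (msτ r hr)) (hl.p0 e r hr)))
    (fun e _ f _ hef r hr => by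
      rw [hG.d3, hG.c4]
      exact hC.two' hZ hx le_rfl hF.τ1 hef (msτ r hr) (hlc.p0 e r (msτ r hr))
        (hlc.p0 f r (msτ r hr)) (hG.bc c hcU e f hef r (msτ r hr)) hG.q0 hG.hq)
    (fun e _ f _ hef r hr => by
      rw [hG.d3, hG.c4]
      exact hC.two' hZ hx hsτ hF.τ1 hef hr (hl.p0 e r hr) (hl.p0 f r hr)
        (hm e f hef r hr) hG.q0 hG.hq) kT
  have hk2 : RCM.Sk ((Dᶜ.erase c).erase d) s (K2 Z F x P t s)
        (fun e r => Z.Hh x P t c e r + G.p c e r)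
        (fun e r => N2 Z F x P D t s t c e r + G.n c e r)
        (fun e r => Z.Hh x P s d e r + pm e r)
        (fun e r => N2 Z F x P D t s s d e r + nm e r) k k' :=
    hk.mono (fun r hr e f => K2_nonneg hZ hx t s (ms1 r hr) e f)
      (fun r hr e _ f _ => K2_le hF hZ hx ht hs hsg (mst r hr) e f)
      (fun e r hr => add_nonneg (N20 ⟨h0t, le_rfl⟩ c e r (mst r hr)) (hlc.n0 e r (msτ r hr)))
      (fun e r hr => add_nonneg (hZ.Hh_nonneg hx s1 d e hr) (hl.p0 e r hr))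
      (fun e r hr => add_nonneg (N20 hs d e r hr) (hl.n0 e r hr))
      (fun e r hr => add_nonneg (hZ.Hh_nonneg hx t1 c e (mst r hr)) (hlc.p0 e r (msτ r hr)))
      (fun e _ r hr => add_le_add (hZ.Hh_mono hx ht.2 hF.τ1 c e (mst r hr)) le_rfl)
      (fun e _ r hr => add_le_add (N21 ⟨h0t, le_rfl⟩ ht.2 le_rfl c e r (mst r hr)) le_rfl)
      (fun e _ r _ => le_rfl)
      (fun e _ r hr => add_le_add (N21 hs le_rfl hsτ d e r hr) le_rfl)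
  -- insertion functions
  set Rc : ℝ → ℝ := fun r => ∑ f ∈ (Dᶜ.erase d).erase c,
    K2 Z F x P t s r c f with hRc
  set Rd : ℝ → ℝ := fun r => ∑ f ∈ (Dᶜ.erase c).erase d,
    K2 Z F x P t s r d f with hRd
  have cRc : ContinuousOn Rc (Icc 0 s) :=
    continuousOn_finsetSum _ fun f _ => (cK2 c f).mono (Icc_subset_Icc_right hs.2)
  have cRd : ContinuousOn Rd (Icc 0 t) := continuousOn_finsetSum _ fun f _ => cK2 d f
  have Rc0 : ∀ r ∈ Icc 0 t, 0 ≤ Rc r := fun r hr => Finset.sum_nonneg fun f _ =>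
    K2_nonneg hZ hx t s (mt1 r hr) c f
  have Rd0 : ∀ r ∈ Icc 0 t, 0 ≤ Rd r := fun r hr => Finset.sum_nonneg fun f _ =>
    K2_nonneg hZ hx t s (mt1 r hr) d f
  have uu : ∀ {f e e' : V}, f ∈ (Dᶜ.erase e).erase e' →
      f ∈ Dᶜ := fun hf =>
    Finset.mem_of_mem_erase (Finset.mem_of_mem_erase hf)
  obtain ⟨ptca, ptca', ptc, ptc', ptd, ptd', hIca, ptca0, hIc, mpt, hId, ptd0, epc, epd⟩ :=
    RCM.ins_exists hh (c := c) (d := d) (U := Dᶜ) hs (Pa := Pa) (P := Q)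
      cRc cRd (fun r hr => Rc0 r (mst r hr)) Rd0
      (fun r hr => Finset.sum_le_sum fun f hf => hw.Ta r hr d hdU f (uu hf))
      (fun r hr => Finset.sum_le_sum fun f hf => hw.Td r hr d hdU f (uu hf))
      (fun r hr => Finset.sum_le_sum fun f hf => hw.Td r hr c hcU f (uu hf))
  refine ⟨Pa, Pa', Na, Na', Q, Q', N, N', gp', gm', pc', nc', pd', nd', k, k', ptca, ptca', ptc,
    ptc', ptd, ptd', hw, hSc, hSd, hk2, ks, hIca, ptca0, hIc, mpt, hId, ptd0, ?_⟩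
  have e0 : k 0 = kT + Kdd Z F x P D c d τ s G.d3 G.c4 (G.p c) (G.n c) pm nm :=
    k0 0 ⟨le_rfl, hs.1⟩
  have prim : ∀ {R : ℝ → ℝ}, ContinuousOn R (Icc 0 s) →
      ContinuousOn (fun r => ∫ ρ in (0 : ℝ)..r, R ρ) (Icc 0 s) := by
    intro R cR
    have := intervalIntegral.continuousOn_primitive_interval (μ := volume) (a := (0 : ℝ))
      (b := s) (f := R) (by rw [uIcc_of_le hs.1]; exact cR.integrableOn_Icc)
    rwa [uIcc_of_le hs.1] at this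
  have hD := RCM.ins_bound hh hs cRc cRd epc epd
    (n1 := N2 Z F x P D t s t c d 0 + G.n c d 0) (n2 := N2 Z F x P D t s s d c 0 + nm c 0)
    (hb := fun r => Z.hh x P r c d) (Hb := fun r => Z.Hh x P r c d 0)
    (Sc := fun r => ∫ ρ in (0 : ℝ)..r, Rc ρ) (Sd := fun r => ∫ ρ in (0 : ℝ)..r, Rd ρ)
    le_rfl le_rfl ((hZ.hh_cont hx c d).mono (Icc_subset_Icc_right s1.2))
    ((hZ.Hh0_cont hx c d).mono (Icc_subset_Icc_right s1.2)) (prim cRc)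
    (prim (cRd.mono (Icc_subset_Icc_right hs.2)))
    (fun r hr => hle c d r (mst r hr))
    (fun r hr => by
      have := hHle c d r (mst r hr) 0 ⟨le_rfl, hr.1⟩
      rw [hh.H0, sub_zero] at this
      exact this)
    (fun _ _ => le_rfl) (fun _ _ => le_rfl)
  rw [e0]
  have hD' : H c d s - ptc 0 * Real.exp (-(N2 Z F x P D t s t c d 0 + G.n c d 0))
          - ptd 0 * Real.exp (-(N2 Z F x P D t s s d c 0 + nm c 0))
      ≤ Di Z F x P D c d t s (N2 Z F x P D t s t c d 0 + G.n c d 0)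
          (N2 Z F x P D t s s d c 0 + nm c 0) := hD
  linarith

/-- continuity of the deleted tails -/
structure Cte (G : Fm V) (sg τ : ℝ) : Prop where
  p : ∀ c e, ContinuousOn (G.p c e) (Icc 0 τ)
  n : ∀ c e, ContinuousOn (G.n c e) (Icc 0 τ)
  pd : ∀ s ∈ Icc 0 sg, ∀ d e, ContinuousOn (G.pd s d e) (Icc 0 s)
  nd : ∀ s ∈ Icc 0 sg, ∀ d e, ContinuousOn (G.nd s d e) (Icc 0 s)

/-- **the deleted closure with explicit constant** -/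
theorem clo_deld (hh : Haz h H) (hC : Z.Cf B E1) (hG : G.Od Z F x P sg τ D B m q)
    (hc : Ctn F G α τ) (hct : Cte G sg τ) (hF : F.Ok Z x P A D sg α τ) (hZ : Z.Ok sl) (hx : Wt x P 1)
    (ht : t ∈ Icc α τ) (hs : s ∈ Icc 0 t) (hsg : s ≤ sg)
    (hle : ∀ u v, ∀ r ∈ Icc 0 t, h r u v ≤ Z.hh x P r u v)
    (hHle : ∀ u v, ∀ σ ∈ Icc 0 t, ∀ r ∈ Icc 0 σ, H u v σ - H u v r ≤ Z.Hh x P σ u v r)
    {c d : V} (hcU : c ∈ Dᶜ) (hdU : d ∈ Dᶜ) (hcd : c ≠ d) :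
    RCM.CloD h t s A D c d (Real.exp (Ld Z F x P G τ D c d t s)) := by
  have hsτ : s ∈ Icc 0 sg := ⟨hs.1, hsg⟩
  have t1 : t ∈ Icc (0 : ℝ) bt := ⟨hs.1.trans hs.2, ht.2.trans hF.τ1⟩
  obtain ⟨Pa, Pa', Na, Na', Q, Q', N, N', gp', gm', pc', nc', pd', nd', k, k', ptca, ptca', ptc,
    ptc', ptd, ptd', hw, hSc, hSd, hk2, ks, hIca, ptca0, hIc, mpt, hId, ptd0, hL⟩ :=
    partsd hh hC hG hc hF hZ hx ht hs hsg hle hHle hcU hdU (hG.td s hsτ d hdU)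
      (fun e f hef r hr => hG.bd s hsτ d hdU e f hef r hr) (hct.pd s hsτ d) (hct.nd s hsτ d)
      (hct.p c) (hct.n c) 0
  have hC1 := hw.cloD hh (Finset.mem_compl.1 hcU) (Finset.mem_compl.1 hdU) hcd (btI t1) hs rfl
    (κc := fun r e => Z.hh x P r c e) (κd := fun r e => Z.hh x P r d e)
    (fun r hr e _ => hle c e r hr) (fun r hr e _ => hle d e r ⟨hr.1, hr.2.trans hs.2⟩)
    hSc hSd hk2 hIca ptca0 hIc mpt hId ptd0 (by rw [ks])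
  refine hC1.mono hh (btI t1) hs (Real.exp_le_exp.2 (hL.trans (le_of_eq ?_)))
  unfold Ld
  ring

end Pool.Agent.RX.RCN.K
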