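import Pool.Agent.RX.RCM.NuA
import Pool.Agent.RX.RCM.NuB_1
import Pool.Agent.RX.RCN.Par
import Pool.Agent.RX.RCRSHalf.Bounds

/-! Joint continuity of the exponents of the closures (MP_73ccd0_lc, route M). -/

namespace Pool.Agent.RX.RCN.K

open Set Finset MeasureTheory Pool.Agent.RX.RCRSHalf Pool.Agent.RX.RCG Pool.Agent.RX.RCG.Ct

set_option linter.unusedSectionVars false

/-- the triples `(t, s, r)` with `s, r ≤ t`, `t` in the cell -/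
def W3 (α τ : ℝ) : Set (ℝ × ℝ × ℝ) :=
  {p | (α ≤ p.1 ∧ p.1 ≤ τ) ∧ (0 ≤ p.2.1 ∧ p.2.1 ≤ p.1) ∧ 0 ≤ p.2.2 ∧ p.2.2 ≤ p.1}

/-- joint continuity -/
def C3 (α τ : ℝ) (F : ℝ → ℝ → ℝ → ℝ) : Prop :=
  ContinuousOn (fun p : ℝ × ℝ × ℝ => F p.1 p.2.1 p.2.2) (W3 α τ)

variable {α τ sg : ℝ}

theorem C3.of_r {f : ℝ → ℝ} (hf : ContinuousOn f (Icc 0 τ)) : C3 α τ fun _ _ r => f r :=
  hf.comp (f := fun p : ℝ × ℝ × ℝ => p.2.2) (by fun_prop) fun _ hp =>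
    ⟨hp.2.2.1, hp.2.2.2.trans hp.1.2⟩

theorem C3.of_w {f : ℝ → ℝ → ℝ} (hf : ContinuousOn (fun p : ℝ × ℝ => f p.1 p.2) (Wg α τ)) :
    C3 α τ fun t s _ => f t s :=
  hf.comp (f := fun p : ℝ × ℝ × ℝ => (p.1, p.2.1)) (by fun_prop) fun _ hp => ⟨hp.1, hp.2.1⟩

theorem C3.slice {F : ℝ → ℝ → ℝ → ℝ} (hF : C3 α τ F) {t s : ℝ} (ht : t ∈ Icc α τ)
    (hs : s ∈ Icc 0 t) : ContinuousOn (F t s) (Icc 0 t) :=
  hF.comp (f := fun r : ℝ => (t, s, r)) (by fun_prop) fun _ hr => ⟨ht, hs, hr⟩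

/-- integrals with a moving endpoint -/
theorem C3.int {F : ℝ → ℝ → ℝ → ℝ} (hF : C3 α τ F) (h0 : 0 ≤ α) (h : α ≤ τ) :
    C3 α τ fun t s r => ∫ ρ in (0 : ℝ)..r, F t s ρ := by
  let ct : ℝ → ℝ := fun t => max α (min t τ)
  have cct : Continuous ct := by fun_prop
  have ctm : ∀ t, ct t ∈ Icc α τ := fun t => ⟨le_max_left _ _, max_le h (min_le_right _ _)⟩
  have ct0 : ∀ t, 0 ≤ ct t := fun t => h0.trans (ctm t).1
  let cl : ℝ → ℝ → ℝ := fun t r => max 0 (min r (ct t))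
  have ccl : Continuous fun p : ℝ × ℝ => cl p.1 p.2 := by fun_prop
  have clm : ∀ t r, cl t r ∈ Icc 0 (ct t) := fun t r =>
    ⟨le_max_left _ _, max_le (ct0 t) (min_le_right _ _)⟩
  let G : (ℝ × ℝ × ℝ) → ℝ → ℝ := fun p ρ => F (ct p.1) (cl p.1 p.2.1) (cl p.1 ρ)
  have hG : Continuous fun q : (ℝ × ℝ × ℝ) × ℝ => G q.1 q.2 := by
    refine ContinuousOn.comp_continuous (f := fun q : (ℝ × ℝ × ℝ) × ℝ =>
      (ct q.1.1, cl q.1.1 q.1.2.1, cl q.1.1 q.2)) (s := W3 α τ) hF ?_ ?_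
    · exact (cct.comp (by fun_prop)).prodMk ((ccl.comp (by fun_prop :
        Continuous fun q : (ℝ × ℝ × ℝ) × ℝ => (q.1.1, q.1.2.1))).prodMk (ccl.comp (by fun_prop :
        Continuous fun q : (ℝ × ℝ × ℝ) × ℝ => (q.1.1, q.2))))
    · exact fun q => ⟨ctm _, clm _ _, clm _ _⟩
  have h1 : Continuous fun p : ℝ × ℝ × ℝ => ∫ ρ in (0 : ℝ)..p.2.2, G p ρ :=
    intervalIntegral.continuous_parametric_intervalIntegral_of_continuous (f := G) hG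
      (continuous_snd.comp continuous_snd)
  refine h1.continuousOn.congr fun p hp => ?_
  obtain ⟨⟨a1, a2⟩, ⟨b1, b2⟩, c1, c2⟩ := hp
  show ∫ ρ in (0 : ℝ)..p.2.2, F p.1 p.2.1 ρ = ∫ ρ in (0 : ℝ)..p.2.2, G p ρ
  refine intervalIntegral.integral_congr fun ρ hρ => ?_
  rw [uIcc_of_le c1] at hρ
  have e1 : ct p.1 = p.1 := by simp only [ct]; rw [min_eq_left a2, max_eq_right a1]
  have e2 : cl p.1 p.2.1 = p.2.1 := by simp only [cl]; rw [e1, min_eq_left b2, max_eq_right b1]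
  have e3 : cl p.1 ρ = ρ := by
    simp only [cl]; rw [e1, min_eq_left (hρ.2.trans c2), max_eq_right hρ.1]
  show F p.1 p.2.1 ρ = F (ct p.1) (cl p.1 p.2.1) (cl p.1 ρ)
  rw [e1, e2, e3]

theorem C3.int_t {F : ℝ → ℝ → ℝ → ℝ} (hF : C3 α τ F) (h0 : 0 ≤ α) (h : α ≤ τ) :
    ContinuousOn (fun p : ℝ × ℝ => ∫ ρ in (0 : ℝ)..p.1, F p.1 p.2 ρ) (Wg α τ) :=
  (hF.int h0 h).comp (f := fun p : ℝ × ℝ => (p.1, p.2, p.1)) (by fun_prop) fun _ hp =>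
    ⟨hp.1, hp.2, hp.2.1.trans hp.2.2, le_rfl⟩

theorem C3.int_s {F : ℝ → ℝ → ℝ → ℝ} (hF : C3 α τ F) (h0 : 0 ≤ α) (h : α ≤ τ) :
    ContinuousOn (fun p : ℝ × ℝ => ∫ ρ in (0 : ℝ)..p.2, F p.1 p.2 ρ) (Wg α τ) :=
  (hF.int h0 h).comp (f := fun p : ℝ × ℝ => (p.1, p.2, p.2)) (by fun_prop) fun _ hp =>
    ⟨hp.1, hp.2, hp.2⟩

theorem wg_snd {f : ℝ → ℝ} (hf : ContinuousOn f (Icc 0 τ)) :
    ContinuousOn (fun p : ℝ × ℝ => f p.2) (Wg α τ) :=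
  hf.comp continuousOn_snd fun _ hp => ⟨hp.2.1, hp.2.2.trans hp.1.2⟩

theorem wg_fst {f : ℝ → ℝ} (h0 : 0 ≤ α) (hf : ContinuousOn f (Icc 0 τ)) :
    ContinuousOn (fun p : ℝ × ℝ => f p.1) (Wg α τ) :=
  hf.comp continuousOn_fst fun _ hp => ⟨h0.trans hp.1.1, hp.1.2⟩

variable {V : Type*} [Fintype V] [DecidableEq V]
variable {Z : Hzd} {F : Lz V} {x : V → V → ℝ} {P : V → Prop} [DecidablePred P]
variable {sl : ℝ → ℝ → ℝ} {B E1 : ℝ → ℝ → ℝ} {m q : ℝ} {A D : Finset V} {G : Fm V}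

/-- joint continuity of `Dd` in horizon and time -/
theorem Hzd.Ok.Dd_cont2 (hZ : Z.Ok sl) (hx : Wt x P 1) (c f : V) :
    ContinuousOn (fun p : ℝ × ℝ => Z.Dd x P p.1 c f p.2) ((Set.Icc (0 : ℝ) bt) ×ˢ (Set.Icc (0 : ℝ) bt)) := by
  have hm := xw_mem hx c f
  have cS : ContinuousOn (Z.S (x c f)) (Icc 0 bt) := fun r hr =>
    (hZ.d _ hm r hr).continuousAt.continuousWithinAt
  have c1 : ContinuousOn (fun p : ℝ × ℝ => Z.S (x c f) p.1) ((Set.Icc (0 : ℝ) bt) ×ˢ (Set.Icc (0 : ℝ) bt)) :=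
    cS.comp continuousOn_fst fun p hp => hp.1
  have c2 : ContinuousOn (fun p : ℝ × ℝ => Z.S (x c f) p.2) ((Set.Icc (0 : ℝ) bt) ×ˢ (Set.Icc (0 : ℝ) bt)) :=
    cS.comp continuousOn_snd fun p hp => hp.2
  unfold Hzd.Dd
  split_ifs
  · exact (continuousOn_const.mul (c1.sub c2)).div (continuousOn_const.sub
      (continuousOn_const.mul c1)) fun p hp => (hZ.den _ hm p.1 hp.1).ne'
  · refine continuousOn_const.mul ((by fun_prop : ContinuousOn (fun p : ℝ × ℝ => p.1 - p.2) _).mul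
      (ContinuousOn.inv₀ (by fun_prop) fun p hp => ?_))
    have := hp.2.1
    linarith

/-- joint continuity of level 0, continuity of the family -/
structure Cj (F : Lz V) (G : Fm V) (α τ : ℝ) : Prop where
  y2 : ∀ e, C3 α τ fun t s r => F.y2 t s e r
  y1 : ∀ e, ContinuousOn (F.y1 e) (Icc 0 τ)
  c1 : ∀ c e, ContinuousOn (G.c1 c e) (Icc 0 τ)
  d3 : ∀ c e, ContinuousOn (fun p : ℝ × ℝ => G.d3 p.1 c e p.2) ((Set.Icc 0 τ) ×ˢ (Set.Icc 0 τ))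
  c4 : ∀ c e, ContinuousOn (G.c4 c e) (Icc 0 τ)
  gp : ∀ i j, ContinuousOn (G.gp i j) (Icc 0 τ)
  gm : ∀ i j, ContinuousOn (G.gm i j) (Icc 0 τ)
  gs : ∀ i j, ContinuousOn (G.gs i j) (Icc 0 τ)

/-- joint continuity of the bounds of the exponents -/
theorem D3f_cont2 (hZ : Z.Ok sl) (hx : Wt x P 1) (τ1 : τ ≤ bt) (cB : ContinuousOn (B τ) (Icc 0 τ))
    (q m : ℝ) (c e : V) : ContinuousOn (fun p : ℝ × ℝ => D3f Z x P B τ q m p.1 c e p.2)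
      ((Set.Icc 0 τ) ×ˢ (Set.Icc 0 τ)) := by
  have h1 : ContinuousOn (fun p : ℝ × ℝ => Z.Dd x P p.1 c e p.2)
      ((Set.Icc 0 τ) ×ˢ (Set.Icc 0 τ)) := (hZ.Dd_cont2 hx c e).mono fun p hp =>
    ⟨⟨hp.1.1, hp.1.2.trans τ1⟩, hp.2.1, hp.2.2.trans τ1⟩
  have h2 : ContinuousOn (fun p : ℝ × ℝ => B τ p.2) ((Set.Icc 0 τ) ×ˢ (Set.Icc 0 τ)) :=
    cB.comp continuousOn_snd fun p hp => hp.2
  unfold D3f
  exact h1.add (((continuousOn_const.mul (h2.pow 2)).mul continuousOn_const).add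
    ((continuousOn_const.mul h2).mul continuousOn_const))

theorem C4f_cont (hZ : Z.Ok sl) (hx : Wt x P 1) (τ1 : τ ≤ bt) (cB : ContinuousOn (B τ) (Icc 0 τ))
    (q : ℝ) (c e : V) : ContinuousOn (C4f Z x P B τ q c e) (Icc 0 τ) := by
  have h1 := (hZ.Dd_cont hx τ c e).mono (Icc_subset_Icc_right τ1)
  unfold C4f
  exact continuousOn_const.mul ((continuousOn_const.add h1).add (cB.div_const 4))

theorem C1f_cont (hZ : Z.Ok sl) (hx : Wt x P 1) (τ1 : τ ≤ bt) (q : ℝ) (c e : V) :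
    ContinuousOn (C1f Z x P τ q c e) (Icc 0 τ) := by
  have h1 := (hZ.Dd_cont hx τ c e).mono (Icc_subset_Icc_right τ1)
  unfold C1f
  exact continuousOn_const.mul (continuousOn_const.add h1)

/-- solutions of the tail systems are continuous -/
theorem tl_cont {X : Finset V} {t : ℝ} {T : ℝ → V → V → ℝ} {D n1 p n : V → ℝ → ℝ}
    {gp gs : V → V → ℝ → ℝ} {c1 c4 : V → ℝ → ℝ} (hl : RCM.Tl X t T D n1 gp gs c1 c4 p n)
    (e : V) : ContinuousOn (p e) (Icc 0 t) ∧ ContinuousOn (n e) (Icc 0 t) := by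
  by_cases he : e ∈ X
  · exact ⟨fun r hr => (hl.dp e he r hr).continuousAt.continuousWithinAt,
      fun r hr => (hl.dn e he r hr).continuousAt.continuousWithinAt⟩
  · exact ⟨continuousOn_const.congr fun r _ => hl.pz e he r,
      continuousOn_const.congr fun r _ => hl.nz e he r⟩

theorem K2_c3 (hc : Cj F G α τ) (hF : F.Ok Z x P A D sg α τ) (hZ : Z.Ok sl) (hx : Wt x P 1) (e f : V) :
    C3 α τ fun t s r => K2 Z F x P t s r e f := by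
  exact (C3.of_r ((hZ.hh_cont hx e f).mono (Icc_subset_Icc_right hF.τ1))).mul
    (Real.continuous_exp.comp_continuousOn ((hc.y2 e).add (hc.y2 f)))

theorem Dt_c3 (hF : F.Ok Z x P A D sg α τ) (hZ : Z.Ok sl) (hx : Wt x P 1) (c f : V) :
    C3 α τ fun t _ r => Z.Dd x P t c f r :=
  (hZ.Dd_cont2 hx c f).comp (f := fun p : ℝ × ℝ × ℝ => (p.1, p.2.2)) (by fun_prop)
    fun _ hp => ⟨⟨hF.α0.trans hp.1.1, hp.1.2.trans hF.τ1⟩, hp.2.2.1,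
      (hp.2.2.2.trans hp.1.2).trans hF.τ1⟩

theorem Ds_c3 (hF : F.Ok Z x P A D sg α τ) (hZ : Z.Ok sl) (hx : Wt x P 1) (c f : V) :
    C3 α τ fun _ s r => Z.Dd x P s c f r :=
  (hZ.Dd_cont2 hx c f).comp (f := fun p : ℝ × ℝ × ℝ => (p.2.1, p.2.2)) (by fun_prop)
    fun _ hp => ⟨⟨hp.2.1.1, (hp.2.1.2.trans hp.1.2).trans hF.τ1⟩, hp.2.2.1,
      (hp.2.2.2.trans hp.1.2).trans hF.τ1⟩

/-- continuity of the leading term with the horizon `t` -/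
theorem N2t_cont (hc : Cj F G α τ) (hF : F.Ok Z x P A D sg α τ) (hZ : Z.Ok sl) (hx : Wt x P 1)
    (c e : V) : ContinuousOn (fun p : ℝ × ℝ => N2 Z F x P D p.1 p.2 p.1 c e 0) (Wg α τ) := by
  have h1 : C3 α τ fun t s r => ∑ f ∈ Dᶜ.erase c,
      K2 Z F x P t s r e f * Z.Dd x P t c f r :=
    continuousOn_finsetSum _ fun f _ => (K2_c3 hc hF hZ hx e f).mul (Dt_c3 hF hZ hx c f)
  refine (h1.int_t hF.α0 hF.ατ).congr fun p hp => ?_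
  exact RCM.bk_eq ⟨le_rfl, hp.2.1.trans hp.2.2⟩

/-- continuity of the leading term with the horizon `s` -/
theorem N2s_cont (hc : Cj F G α τ) (hF : F.Ok Z x P A D sg α τ) (hZ : Z.Ok sl) (hx : Wt x P 1)
    (d e : V) : ContinuousOn (fun p : ℝ × ℝ => N2 Z F x P D p.1 p.2 p.2 d e 0) (Wg α τ) := by
  have h1 : C3 α τ fun t s r => ∑ f ∈ Dᶜ.erase d,
      K2 Z F x P t s r e f * Z.Dd x P s d f r :=
    continuousOn_finsetSum _ fun f _ => (K2_c3 hc hF hZ hx e f).mul (Ds_c3 hF hZ hx d f)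
  refine (h1.int_s hF.α0 hF.ατ).congr fun p hp => ?_
  exact RCM.bk_eq ⟨le_rfl, hp.2.1⟩

/-- the end data of the tails, and their continuity in the horizon -/
structure Fm.Ed (G : Fm V) (D : Finset V) (sg : ℝ) : Prop where
  pd : ∀ s ∈ Icc 0 sg, ∀ d ∈ Dᶜ, ∀ e ∈ Dᶜ.erase d, G.pd s d e s = 0
  nd : ∀ s ∈ Icc 0 sg, ∀ d ∈ Dᶜ, ∀ e ∈ Dᶜ.erase d, G.nd s d e s = 0

/-- the pairs of the cell with the second time at most `sg` -/
def Ws (α τ sg : ℝ) : Set (ℝ × ℝ) := {p | p ∈ Wg α τ ∧ p.2 ≤ sg}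

/-- the second time cut at `sg` -/
theorem ws_min {f : ℝ → ℝ → ℝ} (sg0 : 0 ≤ sg)
    (hf : ContinuousOn (fun p : ℝ × ℝ => f p.1 p.2) (Ws α τ sg)) :
    ContinuousOn (fun p : ℝ × ℝ => f p.1 (min p.2 sg)) (Wg α τ) :=
  hf.comp (f := fun p : ℝ × ℝ => (p.1, min p.2 sg)) (by fun_prop) fun p hp =>
    ⟨⟨hp.1, le_min hp.2.1 sg0, (min_le_left _ _).trans hp.2.2⟩, min_le_right _ _⟩

theorem wg_min {f : ℝ → ℝ} (sg0 : 0 ≤ sg) (hf : ContinuousOn f (Icc 0 sg)) :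
    ContinuousOn (fun p : ℝ × ℝ => f (min p.2 sg)) (Wg α τ) :=
  hf.comp (f := fun p : ℝ × ℝ => min p.2 sg) (by fun_prop) fun _ hp =>
    ⟨le_min hp.2.1 sg0, min_le_right _ _⟩

end Pool.Agent.RX.RCN.K
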