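import Pool.Agent.RX.RCM.Cts
import Pool.Agent.RX.RCM.NuB_2
import Pool.Agent.RX.RCM.NuD_1

/-! Joint continuity of the exponents of the closures (MP_73ccd0_lc, route M). -/

namespace Pool.Agent.RX.RCN.K

open Set Finset MeasureTheory Pool.Agent.RX.RCRSHalf Pool.Agent.RX.RCG Pool.Agent.RX.RCG.Ct

set_option linter.unusedSectionVars false

variable {α τ sg : ℝ}

variable {V : Type*} [Fintype V] [DecidableEq V]
variable {Z : Hzd} {F : Lz V} {x : V → V → ℝ} {P : V → Prop} [DecidablePred P]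
variable {sl : ℝ → ℝ → ℝ} {B E1 : ℝ → ℝ → ℝ} {m q : ℝ} {A D : Finset V} {G : Fm V}

theorem Cj.ctn (h : Cj F G α τ) : Ctn F G α τ :=
  ⟨fun _ ht _ hs e => (h.y2 e).slice ht hs, h.y1, fun σ hσ c e =>
    (h.d3 c e).comp (f := fun r : ℝ => (σ, r)) (by fun_prop) fun _ hr => ⟨hσ, hr⟩, h.c4⟩

theorem N1_cont2 (hc : Cj F G α τ) (hF : F.Ok Z x P A D sg α τ) (hZ : Z.Ok sl) (hx : Wt x P 1)
    (d e : V) : ContinuousOn (fun p : ℝ × ℝ => N1 Z F x P D p.1 d e p.2) (RCM.Tg τ) := by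
  have hτ0 : 0 ≤ τ := hF.α0.trans hF.ατ
  -- work on the larger set `0 ≤ s, r ≤ τ` with clamped variables
  let cl : ℝ → ℝ := fun r => max 0 (min r τ)
  have ccl : Continuous cl := by fun_prop
  have clm : ∀ r, cl r ∈ Icc 0 τ := fun r => RCM.clamp_mem hτ0 r
  have cle : ∀ r ∈ Icc 0 τ, cl r = r := fun r hr => RCM.clamp_eq hr
  let I : ℝ → ℝ → ℝ := fun s ρ => ∑ f ∈ Dᶜ.erase d, K1 Z F x P (cl ρ) e f
    * Z.Dd x P (cl s) d f (cl ρ)
  have cI : Continuous fun p : ℝ × ℝ => I p.1 p.2 := by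
    refine continuous_finset_sum _ fun f _ => ?_
    have k1 : ContinuousOn (fun r => K1 Z F x P r e f) (Icc 0 τ) :=
      Tb_cont hZ hx hF.τ1 hc.y1 e f
    refine (k1.comp_continuous (ccl.comp continuous_snd) fun p => clm _).mul ?_
    refine (hZ.Dd_cont2 hx d f).comp_continuous (f := fun p : ℝ × ℝ => (cl p.1, cl p.2))
      ((ccl.comp continuous_fst).prodMk (ccl.comp continuous_snd)) fun p => ?_
    exact ⟨⟨(clm _).1, (clm _).2.trans hF.τ1⟩, (clm _).1, (clm _).2.trans hF.τ1⟩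
  have c1 : Continuous fun p : ℝ × ℝ => ∫ ρ in (0 : ℝ)..p.1, I p.1 ρ :=
    intervalIntegral.continuous_parametric_intervalIntegral_of_continuous
      (f := fun (p : ℝ × ℝ) ρ => I p.1 ρ)
      (cI.comp (by fun_prop : Continuous fun q : (ℝ × ℝ) × ℝ => (q.1.1, q.2))) continuous_fst
  have c2 : Continuous fun p : ℝ × ℝ => ∫ ρ in (0 : ℝ)..p.2, I p.1 ρ :=
    intervalIntegral.continuous_parametric_intervalIntegral_of_continuous
      (f := fun (p : ℝ × ℝ) ρ => I p.1 ρ)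
      (cI.comp (by fun_prop : Continuous fun q : (ℝ × ℝ) × ℝ => (q.1.1, q.2))) continuous_snd
  refine (c1.sub c2).continuousOn.congr fun p hp => ?_
  obtain ⟨a1, a2, a3⟩ := hp
  have hk : ∀ s, Continuous fun ρ => I s ρ := fun s =>
    cI.comp (by fun_prop : Continuous fun ρ : ℝ => (s, ρ))
  show N1 Z F x P D p.1 d e p.2 = (∫ ρ in (0 : ℝ)..p.1, I p.1 ρ) - ∫ ρ in (0 : ℝ)..p.2, I p.1 ρ
  rw [intervalIntegral.integral_interval_sub_left ((hk _).intervalIntegrable _ _)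
    ((hk _).intervalIntegrable _ _)]
  unfold N1
  rw [RCM.bk_eq ⟨a1, a2⟩]
  refine intervalIntegral.integral_congr fun ρ hρ => ?_
  rw [uIcc_of_le a2] at hρ
  show ∑ f ∈ Dᶜ.erase d, K1 Z F x P ρ e f * Z.Dd x P p.1 d f ρ
    = ∑ f ∈ Dᶜ.erase d, K1 Z F x P (cl ρ) e f * Z.Dd x P (cl p.1) d f (cl ρ)
  rw [cle ρ ⟨a1.trans hρ.1, hρ.2.trans a3⟩, cle p.1 ⟨a1.trans a2, a3⟩]

/-- **continuity in the horizon of the tails at `0` and of level 2** -/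
theorem tails_cont (hC : Z.Cf B E1) (hG : G.Ok Z F x P sg τ D B m q) (hc : Cj F G α τ)
    (hF : F.Ok Z x P A D sg α τ) (hZ : Z.Ok sl) (hx : Wt x P 1) {c d : V} (hcU : c ∈ Dᶜ)
    {pd nd : ℝ → V → ℝ → ℝ} {pT nT : V → ℝ → ℝ}
    (hl : ∀ s ∈ Icc 0 sg, RCM.Tl (Dᶜ.erase d) s (K1 Z F x P)
      (G.d3 s d) (N1 Z F x P D s d) G.gp G.gs (G.c1 d) (G.c4 d) (pd s) (nd s))
    (ep : ∀ s ∈ Icc 0 sg, ∀ e ∈ Dᶜ.erase d, pd s e s = pT e s)
    (en : ∀ s ∈ Icc 0 sg, ∀ e ∈ Dᶜ.erase d, nd s e s = nT e s)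
    (cpT : ∀ e, ContinuousOn (pT e) (Icc 0 sg)) (cnT : ∀ e, ContinuousOn (nT e) (Icc 0 sg)) :
    (∀ e ∈ Dᶜ.erase d, ContinuousOn (fun s => nd s e 0) (Icc 0 sg)) ∧
    ContinuousOn (fun s => Kdd Z F x P D c d τ s G.d3 G.c4 (G.p c) (G.n c) (pd s) (nd s))
      (Icc 0 sg) := by
  have hτ0 : 0 ≤ τ := hF.α0.trans hF.ατ
  have τ1 : τ ∈ Icc (0 : ℝ) bt := ⟨hτ0, hF.τ1⟩
  have sg1 : sg ∈ Icc (0 : ℝ) bt := ⟨hF.sg0, hF.sgτ.trans hF.τ1⟩
  have hsub : Icc 0 sg ⊆ Icc 0 τ := Icc_subset_Icc_right hF.sgτ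
  have mτ1 : ∀ r ∈ Icc 0 τ, r ∈ Icc (0 : ℝ) bt := fun r hr => ⟨hr.1, hr.2.trans hF.τ1⟩
  obtain ⟨gp', gm', hg⟩ := hG.g
  have hlc := hG.tc c hcU
  have cK1 : ∀ e f, ContinuousOn (fun r => K1 Z F x P r e f) (Icc 0 τ) := fun e f =>
    Tb_cont hZ hx hF.τ1 hc.y1 e f
  have d30 : ∀ c f, ∀ r ∈ Icc 0 τ, 0 ≤ G.d3 τ c f r := fun c f r hr => by
    rw [hG.d3]
    exact D3f_nonneg hC hZ hx hF.τ1 hG.q0 hG.m0 le_rfl c f hr
  have c40 : ∀ c f, ∀ r ∈ Icc 0 τ, 0 ≤ G.c4 c f r := fun c f r hr => by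
    rw [hG.c4]
    exact C4f_nonneg hC hZ hx τ1 hG.q0 c f hr
  have c10 : ∀ c f, ∀ r ∈ Icc 0 τ, 0 ≤ G.c1 c f r := fun c f r hr => by
    rw [hG.c1]
    exact C1f_nonneg hZ hx τ1 hG.q0 c f hr
  have cN : ∀ e, ContinuousOn (N1 Z F x P D τ c e) (Icc 0 τ) := fun e =>
    (N1_cont2 hc hF hZ hx c e).comp (f := fun r : ℝ => (τ, r)) (by fun_prop)
      fun r hr => ⟨hr.1, hr.2, le_rfl⟩
  have D0 : ∀ c f, ∀ r ∈ Icc 0 τ, 0 ≤ Z.Dd x P τ c f r := fun c f r hr =>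
    hZ.Dd_nonneg hx τ1 c f hr
  have N10 : ∀ e, ∀ r ∈ Icc 0 τ, 0 ≤ N1 Z F x P D τ c e r := fun e r hr =>
    RCM.bk_nonneg hr fun z hz => Finset.sum_nonneg fun f _ =>
      mul_nonneg (K1_nonneg hZ hx (mτ1 z hz) e f) (D0 c f z hz)
  have cd3 : ∀ c e, ContinuousOn (G.d3 τ c e) (Icc 0 τ) := fun c e =>
    hc.ctn.d3 τ ⟨hτ0, le_rfl⟩ c e
  -- the weights of level 2
  let X' : Finset V := (Dᶜ.erase c).erase d
  let w1 : V → ℝ → ℝ := fun z r => RCM.qc X' (K1 Z F x P r)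
    (fun e => N1 Z F x P D τ c e r + G.n c e r) z
  let w2 : V → ℝ → ℝ := fun z r => RCM.qc X' (K1 Z F x P r)
    (fun e => G.d3 τ c e r + G.c4 c e r * G.p c e r) z
  have hX : X' ⊆ Dᶜ.erase d := by
    intro z hz
    have h1 := Finset.mem_erase.1 hz
    exact Finset.mem_erase.2 ⟨h1.1, Finset.mem_of_mem_erase h1.2⟩
  have key := RCM.cont_tail (X := Dᶜ.erase d) (X' := X') hX (btI sg1) (T := K1 Z F x P)
    (D := fun s => G.d3 s d) (n1 := fun s => N1 Z F x P D s d) (p := pd) (n := nd)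
    (w1 := w1) (w2 := w2) hl ep en (fun i j => (cK1 i j).mono hsub)
    (fun e => (hc.d3 d e).mono fun p hp =>
      ⟨⟨hp.1.trans hp.2.1, hp.2.2.trans hF.sgτ⟩, hp.1, (hp.2.1.trans hp.2.2).trans hF.sgτ⟩)
    (fun e => (N1_cont2 hc hF hZ hx d e).mono fun p hp => ⟨hp.1, hp.2.1, hp.2.2.trans hF.sgτ⟩)
    (fun i j => (hc.gp i j).mono hsub) (fun i j => (hc.gs i j).mono hsub)
    (fun i => (hc.c1 d i).mono hsub) (fun i => (hc.c4 d i).mono hsub) cpT cnT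
    (fun z => (RCM.qc_cont cK1 (g := fun e r => N1 Z F x P D τ c e r + G.n c e r)
      (fun e => (cN e).add (tl_cont hlc e).2) z).mono hsub)
    (fun z => (RCM.qc_cont cK1 (g := fun e r => G.d3 τ c e r + G.c4 c e r * G.p c e r)
      (fun e => (cd3 c e).add ((hc.c4 c e).mul (tl_cont hlc e).1)) z).mono hsub)
    (fun r hr e f => K1_nonneg hZ hx (mτ1 r (hsub hr)) e f)
    (fun i j r hr => hg.gp0 i j r (hsub hr))
    (fun i j r hr => hG.s0 i j r (hsub hr)) (fun i r hr => c10 d i r (hsub hr))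
    (fun i r hr => c40 d i r (hsub hr))
    (fun z r hr => RCM.qc_nonneg (fun e f => K1_nonneg hZ hx (mτ1 r (hsub hr)) e f)
      (fun e => add_nonneg (N10 e r (hsub hr)) (hlc.n0 e r (hsub hr))) z)
    (fun z r hr => RCM.qc_nonneg (fun e f => K1_nonneg hZ hx (mτ1 r (hsub hr)) e f)
      (fun e => add_nonneg (d30 c e r (hsub hr))
        (mul_nonneg (c40 c e r (hsub hr)) (hlc.p0 e r (hsub hr)))) z)
  refine ⟨key.2.1, key.2.2.congr fun s hs => ?_⟩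
  show Kdd Z F x P D c d τ s G.d3 G.c4 (G.p c) (G.n c) (pd s) (nd s) = _
  unfold Kdd
  refine intervalIntegral.integral_congr fun r hr => ?_
  rw [uIcc_of_le hs.1] at hr
  have e1 := RCM.Qo_eq X' (K1 Z F x P r) (fun e => N1 Z F x P D τ c e r + G.n c e r)
    (fun e => G.d3 s d e r + G.c4 d e r * pd s e r)
  have e2 := RCM.Qo_swap X' (T := K1 Z F x P r) (fun e f => K1_symm hx r e f)
    (fun e => N1 Z F x P D s d e r + nd s e r)
    (fun e => G.d3 τ c e r + G.c4 c e r * G.p c e r)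
  have e3 := RCM.Qo_eq X' (K1 Z F x P r)
    (fun e => G.d3 τ c e r + G.c4 c e r * G.p c e r)
    (fun e => N1 Z F x P D s d e r + nd s e r)
  show RCM.Qo X' (K1 Z F x P r) (fun e => N1 Z F x P D τ c e r + G.n c e r)
      (fun e => G.d3 s d e r + G.c4 d e r * pd s e r)
    + RCM.Qo X' (K1 Z F x P r) (fun e => N1 Z F x P D s d e r + nd s e r)
      (fun e => G.d3 τ c e r + G.c4 c e r * G.p c e r) = _
  rw [e1, e2, e3]

end Pool.Agent.RX.RCN.K
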