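import Pool.Agent.RX.EPS.DiS
import Pool.Agent.RX.RCM.EpH
import Pool.Agent.RX.RCM.FmF
import Pool.Agent.RX.RCM.NuD_2

/-! Density errors: the exponents of the deleted closures and their weighted sums
(MP_73ccd0_lc, route M). -/

namespace Pool.Agent.RX.RCN.K

open Set Finset MeasureTheory Pool.Agent.RX.RCRSHalf Pool.Agent.RX.RCG Pool.Agent.RX.RCG.Ct

set_option linter.unusedSectionVars false

variable {V : Type*} [Fintype V] [DecidableEq V]
variable {Z : Hzd} {B E1 : ℝ → ℝ → ℝ} {s : RCM.Us} {C mb : ℝ → ℝ} {τ : ℝ}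
variable {x : V → V → ℝ} {P : V → Prop} [DecidablePred P] {sl : ℝ → ℝ → ℝ} {A D : Finset V}
variable {f : V → ℝ} {M : ℝ} {gp gm : V → V → ℝ → ℝ}

section

variable (hs : s.Ok) (k : Ck Z B s C mb τ) (hC : Z.Cf B E1) (hZ : Z.Ok sl) (hx : Wt x P 1)
  (hD : Dok D)
include hs k hC hZ hx hD

theorem Di_nonneg (c z : V) {σ : ℝ} (hσ : σ ∈ Icc 0 τ) (n1 n2 : ℝ) :
    0 ≤ Di Z (Fz s Z x P D C τ) x P D c z τ σ n1 n2 := by
  unfold Di
  refine intervalIntegral.integral_nonneg hσ.1 fun r hr => mul_nonneg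
    (hZ.hh_nonneg hx ⟨hr.1, (hr.2.trans hσ.2).trans k.τ1⟩ c z) (le_max_left _ _)

/-- **the exponents of the deleted closures** -/
theorem ep_main (hAD : A ⊆ D) (cB : ContinuousOn (B τ) (Icc 0 τ))
    (hf : EPS.Fw Dᶜ (RCM.kap x D) f M) :
    ∃ L : ℝ → V → V → ℝ, (∀ σ ∈ Icc 0 τ, ∀ c ∈ Dᶜ, ∀ z ∈ Dᶜ, c ≠ z → 0 ≤ L σ c z ∧
      ∀ (h : ℝ → V → V → ℝ) (H : V → V → ℝ → ℝ), Haz h H →
        (∀ u v, ∀ r ∈ Icc 0 τ, h r u v ≤ Z.hh x P r u v) →
        (∀ u v, ∀ ς ∈ Icc 0 τ, ∀ r ∈ Icc 0 ς, H u v ς - H u v r ≤ Z.Hh x P ς u v r) →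
        RCM.CloD h τ σ A D c z (Real.exp (L σ c z))) ∧
      ∀ σ ∈ Icc 0 τ, ∀ z ∈ Dᶜ, ∑ c ∈ Dᶜ.erase z, f c * L σ c z
        ≤ Real.sqrt M * s.S (C τ - C 0) := by
  have τm : τ ∈ Icc 0 τ := ⟨k.τ0, le_rfl⟩
  have z0τ : (0 : ℝ) ∈ Icc 0 τ := ⟨le_rfl, k.τ0⟩
  have τ1 : τ ∈ Icc (0 : ℝ) bt := ⟨k.τ0, k.τ1⟩
  have M0 := Real.sqrt_nonneg M
  obtain ⟨gp, gm, hG⟩ := exists_gz hs k hZ hx hD hf
  have hG' : Gz s Z x P D C mb τ f M gp gm := hG
  have hF := fz_ok hs k hZ hx hD hAD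
  obtain ⟨G, rfl, rfl, egs, od, ed, cte, cj, gz, tc, td⟩ := exists_fd hC hZ hx hF
    (fz_cy2 hs k hZ hx) (fz_cy hs k hZ hx hD) (gd_of hG) cB hs.q0 hs.m0 hs.hq
    (fun c hc p n hl ep en e f hef r hr =>
      tail_m hs k hC hZ hx hD hG' hc τm hl ep en e f hef r hr)
    (fun σ hσ d hd p n hl ep en e f hef r hr =>
      tail_m hs k hC hZ hx hD hG' hd hσ hl ep en e f hef r hr)
  obtain ⟨ed1, ed2⟩ := ed
  refine ⟨fun σ c z => Ld Z (Fz s Z x P D C τ) x P G τ D c z τ σ,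
    fun σ hσ c hc z hz hcz => ⟨?_, fun h H hh hle hHle => ?_⟩, fun σ hσ z hz => ?_⟩
  · -- nonnegativity
    have d3e : G.d3 = D3f Z x P B τ s.q s.m := od.d3
    have c4e : G.c4 = C4f Z x P B τ s.q := od.c4
    have hd := td σ hσ z
    have hl := tc c
    have m : ∀ r ∈ Icc 0 σ, r ∈ Icc 0 τ := fun r hr => ⟨hr.1, hr.2.trans hσ.2⟩
    have σ1 : σ ∈ Icc (0 : ℝ) bt := ⟨hσ.1, hσ.2.trans k.τ1⟩
    have z0σ : (0 : ℝ) ∈ Icc 0 σ := ⟨le_rfl, hσ.1⟩
    have a1 : 0 ≤ Kdd Z (Fz s Z x P D C τ) x P D c z τ σ G.d3 G.c4 (G.p c) (G.n c)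
        (G.pd σ z) (G.nd σ z) := by
      rw [d3e, c4e]
      unfold Kdd
      refine intervalIntegral.integral_nonneg hσ.1 fun r hr => ?_
      have T0 := (kc1 hs k hZ hx hD (m r hr)).T0
      refine add_nonneg ?_ ?_
      · exact Finset.sum_nonneg fun i _ => Finset.sum_nonneg fun j _ => mul_nonneg (T0 i j)
          (mul_nonneg (add_nonneg (N1_nonneg hZ hx τ1 c i (m r hr)) (hl.n0 i r (m r hr)))
            (add_nonneg (add_nonneg (D3f_nonneg hC hZ hx k.τ1 hs.q0 hs.m0 hσ.2 z i hr)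
              (mul_nonneg (C4f_nonneg hC hZ hx τ1 hs.q0 z i (m r hr)) (hd.p0 i r hr)))
            (add_nonneg (D3f_nonneg hC hZ hx k.τ1 hs.q0 hs.m0 hσ.2 z j hr)
              (mul_nonneg (C4f_nonneg hC hZ hx τ1 hs.q0 z j (m r hr)) (hd.p0 j r hr)))))
      · exact Finset.sum_nonneg fun i _ => Finset.sum_nonneg fun j _ => mul_nonneg (T0 i j)
          (mul_nonneg (add_nonneg (N1_nonneg hZ hx σ1 z i hr) (hd.n0 i r hr))
            (add_nonneg (add_nonneg (D3f_nonneg hC hZ hx k.τ1 hs.q0 hs.m0 le_rfl c i (m r hr))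
              (mul_nonneg (C4f_nonneg hC hZ hx τ1 hs.q0 c i (m r hr)) (hl.p0 i r (m r hr))))
            (add_nonneg (D3f_nonneg hC hZ hx k.τ1 hs.q0 hs.m0 le_rfl c j (m r hr))
              (mul_nonneg (C4f_nonneg hC hZ hx τ1 hs.q0 c j (m r hr)) (hl.p0 j r (m r hr))))))
    have a2 := hG'.gm0 c z z0τ
    have a3 := n2_nn hs k hC hZ hx hD hσ τm c z
    have a4 := hl.n0 z 0 z0τ
    have a5 := n2_nn hs k hC hZ hx hD hσ hσ z c
    have a6 := hd.n0 c 0 z0σ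
    have a7 := Di_nonneg hs k hC hZ hx hD c z hσ
      (N2 Z (Fz s Z x P D C τ) x P D τ σ τ c z 0 + G.n c z 0)
      (N2 Z (Fz s Z x P D C τ) x P D τ σ σ z c 0 + G.nd σ z c 0)
    simp only [Ld]
    linarith
  · exact clo_deld hh hC od cj.ctn cte hF hZ hx ⟨le_rfl, le_rfl⟩ hσ hσ.2 hle hHle hc hz hcz
  · -- the weighted sum
    have d3e : G.d3 = D3f Z x P B τ s.q s.m := od.d3
    have c4e : G.c4 = C4f Z x P B τ s.q := od.c4
    have hd := td σ hσ z
    have hl := tc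
    have hE : Dᶜ.erase z ⊆ Dᶜ := Finset.erase_subset _ _
    have m : ∀ r ∈ Icc 0 σ, r ∈ Icc 0 τ := fun r hr => ⟨hr.1, hr.2.trans hσ.2⟩
    have z0σ : (0 : ℝ) ∈ Icc 0 σ := ⟨le_rfl, hσ.1⟩
    have hu := k.um z0τ
    have ep := ed1 σ hσ z hz
    have en := ed2 σ hσ z hz
    -- the parts
    have s1 := kd_le hs k hC hZ hx hD hG' hf (p := G.p) (n := G.n) hl gz cB hz hσ hd ep en
    have s2 : ∑ c ∈ Dᶜ.erase z, f c * G.gm c z 0 ≤ s.Mf (C τ - C 0) * Real.sqrt M := by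
      have h1 := RCM.Gop.tm hG 0 z0τ
      have h2 : ∑ e ∈ Dᶜ, f e * G.gm e z 0 ≤ RCM.nm Dᶜ (fun b => ∑ e ∈ Dᶜ, f e * G.gm e b 0) :=
        RCM.nm_ent (u := fun b => ∑ e ∈ Dᶜ, f e * G.gm e b 0) hz
      exact (Finset.sum_le_sum_of_subset_of_nonneg hE fun e _ _ => mul_nonneg (hf.f0 e)
        (hG'.gm0 e z z0τ)).trans (h2.trans h1)
    have s3 := na_le hs k hC hZ hx hD hf hz
    have s4 : ∑ c ∈ Dᶜ.erase z, f c * G.n c z 0 ≤ s.Uu (C τ - C 0) * Real.sqrt M := by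
      have h1 := (tail_f hs k hC hZ hx hD hG' hf hl gz 0 z0τ).2
      have h2 : ∑ c ∈ Dᶜ.erase z, f c * G.n c z 0
          ≤ RCM.nm Dᶜ (fun e => ∑ c ∈ Dᶜ.erase e, f c * G.n c e 0) :=
        RCM.nm_ent (u := fun e => ∑ c ∈ Dᶜ.erase e, f c * G.n c e 0) hz
      exact h2.trans h1
    have s5 := nb_le hs k hC hZ hx hD hf hz hσ
    have s6 := tail_t hs k hC hZ hx hD hG' hf hz hσ hd ep en 0 z0σ
    have s7 : ∑ c ∈ Dᶜ.erase z, f c * Di Z (Fz s Z x P D C τ) x P D c z τ σ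
        (N2 Z (Fz s Z x P D C τ) x P D τ σ τ c z 0 + G.n c z 0)
        (N2 Z (Fz s Z x P D C τ) x P D τ σ σ z c 0 + G.nd σ z c 0)
        ≤ s.δ (C τ - C 0) * Real.sqrt M := by
      refine EPS.Di_sum (RCM.wx_of (wt_of hx) D) hf hz
        (Φ := fun v => (max 0 (s.Zx (C τ - C 0) v - 17 / 25)) ^ 2 / 2) (hs.δ0 _ hu)
        (fun e he => ?_) (fun v _ => by positivity) (fun v hv => hs.hδ _ hu v hv)
      exact di_le hs k hC hZ hx hD hG' hAD (Finset.mem_of_mem_erase he) hz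
        (Finset.ne_of_mem_erase he) hσ (hl e) (gz e) hd ep en
    -- the total of the integrals
    have cst : ∀ {g : ℝ → ℝ}, Continuous g → ContinuousOn (fun r => mb r * g (C τ - C r)
        * Real.sqrt M) (Icc 0 τ) := fun {g} hg => (k.cmb.mul (k.cont hg)).mul continuousOn_const
    have ext : ∀ {g : ℝ → ℝ}, Continuous g → (∀ u ∈ Icc 0 s.U0, 0 ≤ g u) →
        RCM.bk (fun r => mb r * g (C τ - C r) * Real.sqrt M) σ 0
          ≤ RCM.bk (fun r => mb r * g (C τ - C r) * Real.sqrt M) τ 0 := fun {g} hg g0 =>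
      RCM.bk_le z0σ hσ.2 ((cst hg).mono fun r hr => m r hr) (cst hg) (fun _ _ => le_rfl)
        fun r hr => mul_nonneg (mul_nonneg (k.m0 hr) (g0 _ (k.um hr))) M0
    have tot : RCM.bk (fun r => mb r * (s.sl (C τ - C r) * s.be (C τ - C r)
          * s.g (C τ - C r) / 4) * Real.sqrt M) τ 0
        + RCM.bk (fun r => mb r * (s.ss (C τ - C r) * s.be (C τ - C r)
          * s.g (C τ - C r) / 2) * Real.sqrt M) σ 0
        + RCM.bk (fun ρ => mb ρ * s.tt (C τ - C ρ) * Real.sqrt M) σ 0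
        + RCM.bk (fun r => mb r * (2 * (s.W (C τ - C r) + s.Uu (C τ - C r))
          * s.dT (C τ - C r)) * Real.sqrt M) σ 0 ≤ s.Q (C τ - C 0) * Real.sqrt M := by
      have g1 : Continuous fun u => s.sl u * s.be u * s.g u / 4 :=
        ((hs.csl.mul hs.cbe).mul hs.cg).div_const 4
      have g2 : Continuous fun u => s.ss u * s.be u * s.g u / 2 :=
        ((hs.css.mul hs.cbe).mul hs.cg).div_const 2
      have g4 : Continuous fun u => 2 * (s.W u + s.Uu u) * s.dT u :=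
        (continuous_const.mul (hs.cW.add hs.cU)).mul hs.cdT
      have h2 := ext g2 fun u hu => by
        have h1 := hs.ss0 _ hu
        have h2 := hs.be0 _ hu
        have h3 := hs.g0 hu
        positivity
      have h3 := ext hs.ctt fun u hu => hs.tt0 hu
      have h4 := ext g4 fun u hu => mul_nonneg (mul_nonneg (by norm_num)
        (add_nonneg (hs.W0 u hu) (hs.Uu0 u hu))) (hs.dT0 hu)
      have c1 := cst g1
      have c2 := cst g2
      have c3 := cst hs.ctt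
      have c4 := cst g4
      have e := RCM.bk_sum (Finset.univ : Finset (Fin 4)) (fun _ => (1 : ℝ))
        (g := ![fun r => mb r * (s.sl (C τ - C r) * s.be (C τ - C r) * s.g (C τ - C r) / 4)
            * Real.sqrt M,
          fun r => mb r * (s.ss (C τ - C r) * s.be (C τ - C r) * s.g (C τ - C r) / 2)
            * Real.sqrt M,
          fun r => mb r * s.tt (C τ - C r) * Real.sqrt M,
          fun r => mb r * (2 * (s.W (C τ - C r) + s.Uu (C τ - C r)) * s.dT (C τ - C r))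
            * Real.sqrt M]) k.τ0 (fun i _ => by fin_cases i <;> assumption) 0 z0τ
      simp only [Fin.sum_univ_four, one_mul, Matrix.cons_val_zero, Matrix.cons_val_one,
        Matrix.cons_val_two, Matrix.cons_val_three, Matrix.head_cons, Matrix.tail_cons] at e
      have fin := RCM.bk_le_of (f := fun r => mb r * (s.sl (C τ - C r) * s.be (C τ - C r)
            * s.g (C τ - C r) / 4) * Real.sqrt M
          + mb r * (s.ss (C τ - C r) * s.be (C τ - C r) * s.g (C τ - C r) / 2) * Real.sqrt M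
          + mb r * s.tt (C τ - C r) * Real.sqrt M
          + mb r * (2 * (s.W (C τ - C r) + s.Uu (C τ - C r)) * s.dT (C τ - C r)) * Real.sqrt M)
        (g := fun r => s.Q (C τ - C r) * Real.sqrt M)
        (g' := fun r => -(s.Q' (C τ - C r) * mb r) * Real.sqrt M) k.τ0
        (((c1.add c2).add c3).add c4) (fun r hr => (k.comp hs.dQ hr).mul_const _)
        (fun r hr => by
          have h5 := mul_le_mul_of_nonneg_right (mul_le_mul_of_nonneg_left
            (hs.oQ _ (k.um hr)) (k.m0 hr)) M0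
          refine le_trans (le_of_eq ?_) (h5.trans (le_of_eq ?_))
          · unfold RCM.Us.tt; ring
          · ring) (by simpa using mul_nonneg hs.Q0 M0) 0 z0τ
      rw [← e] at fin
      linarith
    -- the sum
    have e2 : ∑ c ∈ Dᶜ.erase z, f c * Ld Z (Fz s Z x P D C τ) x P G τ D c z τ σ
        ≤ ∑ c ∈ Dᶜ.erase z, f c * Kdd Z (Fz s Z x P D C τ) x P D c z τ σ
            (D3f Z x P B τ s.q s.m) (C4f Z x P B τ s.q) (G.p c) (G.n c) (G.pd σ z) (G.nd σ z)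
          + ∑ c ∈ Dᶜ.erase z, f c * G.gm c z 0
          + ∑ c ∈ Dᶜ.erase z, f c * N1 Z (Fz s Z x P D C τ) x P D τ c z 0
          + ∑ c ∈ Dᶜ.erase z, f c * G.n c z 0
          + ∑ c ∈ Dᶜ.erase z, f c * N1 Z (Fz s Z x P D C τ) x P D σ z c 0
          + ∑ c ∈ Dᶜ.erase z, f c * G.nd σ z c 0
          + ∑ c ∈ Dᶜ.erase z, f c * Di Z (Fz s Z x P D C τ) x P D c z τ σ
            (N2 Z (Fz s Z x P D C τ) x P D τ σ τ c z 0 + G.n c z 0)
            (N2 Z (Fz s Z x P D C τ) x P D τ σ σ z c 0 + G.nd σ z c 0) := by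
      simp only [← Finset.sum_add_distrib]
      refine Finset.sum_le_sum fun c _ => ?_
      have a1 := n2_le hs k hC hZ hx hD hAD hσ τm c z
      have a2 := n2_le hs k hC hZ hx hD hAD hσ hσ z c
      simp only [← mul_add]
      refine mul_le_mul_of_nonneg_left ?_ (hf.f0 c)
      simp only [Ld]
      rw [d3e, c4e]
      linarith
    refine e2.trans ?_
    unfold RCM.Us.S
    linarith

end

end Pool.Agent.RX.RCN.K
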