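import Pool.Agent.RX.EPS.Jens
import Pool.Agent.RX.RCM.EpI

/-! Density errors: the density bound of the certified process with the rates of the density
errors (MP_73ccd0_lc, route M). -/

namespace Pool.Agent.RX.RCM

open Set Finset Pool.Agent.RX.RCRSHalf Pool.Agent.RX.RCRSGen Pool.Agent.RX.RCG

set_option linter.unusedSectionVars false

variable {V : Type*} [Fintype V] [DecidableEq V]
variable {h : ℝ → V → V → ℝ} {H : V → V → ℝ → ℝ}

/-- symmetry of the closure at equal times -/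
theorem CloD.swap (hh : Haz h H) {r : ℝ} (hr : r ∈ Icc (0 : ℝ) 1) {A D : Finset V} {c d : V}
    {K : ℝ} (hdA : d ∉ A) (hC : CloD h r r A D d c K) : CloD h r r A D c d K := by
  intro Ra Rac h1 e1 h2 e2
  obtain ⟨Rb, Rbd, g1, f1, g2, f2⟩ := exists_worlds hh A hdA hr
  have key := hC Rb Rbd g1 f1 g2 f2
  simp only [e1, e2, f1, f2] at key ⊢
  rw [Finset.pair_comm c d]
  linarith

/-- every closure holds with some constant -/
theorem ex_cloD (hh : Haz h H) {A : Finset V} (D : Finset V) {c : V} (d : V) (hcA : c ∉ A)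
    {t s : ℝ} (ht : t ∈ Icc (0 : ℝ) 1) (hs : s ∈ Icc 0 t) : ∃ K, CloD h t s A D c d K := by
  obtain ⟨R1, R2, h1, e1, h2, e2⟩ := exists_worlds hh A hcA ht
  have hs1 : s ∈ Icc (0 : ℝ) 1 := ⟨hs.1, hs.2.trans ht.2⟩
  have p := mul_pos (ex_pos hh (W := {c, d} ∪ D) hs1 fun F => h2.pos F s hs)
    (ex_pos hh (W := D) hs1 fun F => h1.pos F s hs)
  refine ⟨ex (lw h ∅ s) (insert d D) (fun F => R1 F s)
    * ex (lw h ∅ s) (insert c D) (fun F => R2 F s)
      / (ex (lw h ∅ s) ({c, d} ∪ D) (fun F => R2 F s)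
        * ex (lw h ∅ s) D (fun F => R1 F s)), ?_⟩
  intro Ra Rac g1 f1 g2 f2
  have u1 : ∀ F, Ra F s = R1 F s := fun F => IsEv.unique hh.nonneg
    (fun r v => Finset.sum_nonneg fun w _ => hh.nonneg r w v) (fun _ => le_rfl) g1.ev h1.ev
    (fun F => by rw [f1, e1]) F s hs
  have u2 : ∀ F, Rac F s = R2 F s := fun F => IsEv.unique hh.nonneg
    (fun r v => add_nonneg (Finset.sum_nonneg fun w _ => hh.nonneg r w v) (hh.nonneg r c v))
    (fun _ => le_rfl) g2.ev h2.ev (fun F => by rw [f2, e2]) F s hs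
  simp only [u1, u2]
  rw [div_mul_cancel₀ _ p.ne']

theorem two_e {l1 l2 : ℝ} : (1 - (1 - Real.exp (-(l1 + l2)))) * (Real.exp l1 * Real.exp l2) ≤ 1 := by
  rw [← Real.exp_add, sub_sub_cancel, ← Real.exp_add, neg_add_cancel, Real.exp_zero]

theorem one_e {l1 : ℝ} : (1 - (1 - Real.exp (-l1))) * Real.exp l1 ≤ 1 := by
  rw [sub_sub_cancel, ← Real.exp_add, neg_add_cancel, Real.exp_zero]

end Pool.Agent.RX.RCM

namespace Pool.Agent.RX.RCN.K

open Set Finset MeasureTheory Pool.Agent.RX.RCRSHalf Pool.Agent.RX.RCG Pool.Agent.RX.RCG.Ct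
open Pool.Agent.RX.RCN Pool.Agent.RX.RCM

set_option linter.unusedSectionVars false

variable {V : Type*} [Fintype V] [DecidableEq V]
variable {Z : Hzd} {B E1 : ℝ → ℝ → ℝ} {s : RCM.Us} {C mb : ℝ → ℝ} {τ : ℝ}
variable {x : V → V → ℝ} {P : V → Prop} [DecidablePred P] {sl : ℝ → ℝ → ℝ} {A D : Finset V}
variable {h : ℝ → V → V → ℝ} {H : V → V → ℝ → ℝ}

/-- the weights -/
theorem fw_one (hx : Wt x P 1) {a b c : V} (hab : a ≠ b) (hac : a ≠ c) (hbc : b ≠ c)
    {D : Finset V} (haD : a ∈ D) (hD : D ⊆ {a, b, c}) :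
    EPS.Fw Dᶜ (RCM.kap x D) (fun e => if e ∈ ({a, b, c} : Finset V) then 0 else x a e)
      (1 - (x a b + x a c)) := by
  have hx' := wt_of hx
  have h1 : ∑ e ∈ ({a, b, c} : Finset V)ᶜ, x a e ≤ 1 - (x a b + x a c) := by
    have h2 := hx'.row a
    rw [← Finset.sum_add_sum_compl ({a, b, c} : Finset V)] at h2
    rw [Finset.sum_insert (by simp [hab, hac]), Finset.sum_pair hbc, hx.diag a] at h2
    linarith
  have h0 : 0 ≤ ∑ e ∈ ({a, b, c} : Finset V)ᶜ, x a e := Finset.sum_nonneg fun e _ =>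
    hx.nonneg a e
  refine ⟨fun e => ?_, fun e he => ?_, by linarith, ?_⟩
  · split_ifs
    · exact le_rfl
    · exact hx.nonneg a e
  · have h3 : x a e ≤ RCM.kap x D e :=
      Finset.single_le_sum (f := fun w => x w e) (fun w _ => hx.nonneg w e) haD
    split_ifs
    · exact (hx.nonneg a e).trans h3
    · exact h3
  · refine le_trans ?_ h1
    have h4 : ∑ e ∈ Dᶜ, (if e ∈ ({a, b, c} : Finset V) then 0 else x a e)
        = ∑ e ∈ ({a, b, c} : Finset V)ᶜ, (if e ∈ ({a, b, c} : Finset V) then 0 else x a e) := by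
      symm
      refine Finset.sum_subset (Finset.compl_subset_compl.2 hD) fun e _ he => ?_
      rw [Finset.mem_compl, not_not] at he
      rw [if_pos he]
    rw [h4]
    refine le_of_eq (Finset.sum_congr rfl fun e he => ?_)
    rw [if_neg (Finset.mem_compl.1 he)]

theorem fw_two (hx : Wt x P 1) {a b c : V} (hab : a ≠ b) (hac : a ≠ c) (hbc : b ≠ c) :
    EPS.Fw ({b, c} : Finset V)ᶜ (RCM.kap x {b, c})
      (fun e => if e ∈ ({a, b, c} : Finset V) then 0 else x b e + x c e) 2 := by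
  have hx' := wt_of hx
  refine ⟨fun e => ?_, fun e he => ?_, by norm_num, ?_⟩
  · split_ifs
    · exact le_rfl
    · exact add_nonneg (hx.nonneg b e) (hx.nonneg c e)
  · have h3 : RCM.kap x {b, c} e = x b e + x c e := by
      unfold RCM.kap; rw [Finset.sum_pair hbc]
    rw [h3]
    split_ifs
    · exact add_nonneg (hx.nonneg b e) (hx.nonneg c e)
    · exact le_rfl
  · have h1 : ∑ e ∈ ({b, c} : Finset V)ᶜ, (if e ∈ ({a, b, c} : Finset V) then 0
        else x b e + x c e) ≤ ∑ e, (x b e + x c e) := by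
      refine (Finset.sum_le_sum (g := fun e => x b e + x c e) fun e _ => ?_).trans
        (Finset.sum_le_sum_of_subset_of_nonneg (Finset.subset_univ _) fun e _ _ =>
          add_nonneg (hx.nonneg b e) (hx.nonneg c e))
      split_ifs
      · exact add_nonneg (hx.nonneg b e) (hx.nonneg c e)
      · exact le_rfl
    refine h1.trans ?_
    rw [Finset.sum_add_distrib]
    linarith [hx'.row b, hx'.row c]

/-- restriction of a weighted sum to the vertices outside the triple -/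
theorem sum_trip {a b c : V} {D : Finset V} {z : V} (hD : D ⊆ {a, b, c})
    (hz : z ∈ ({a, b, c} : Finset V)) {g : V → ℝ} {L : V → ℝ} :
    ∑ e ∈ Dᶜ.erase z, (if e ∈ ({a, b, c} : Finset V) then 0 else g e) * L e
      = ∑ e ∈ ({a, b, c} : Finset V)ᶜ, g e * L e := by
  have hsub : ({a, b, c} : Finset V)ᶜ ⊆ Dᶜ.erase z := fun e he => by
    have he' := Finset.mem_compl.1 he
    refine Finset.mem_erase.2 ⟨fun h => he' (h ▸ hz), Finset.mem_compl.2 fun h => he' (hD h)⟩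
  rw [← Finset.sum_subset hsub fun e _ he => ?_]
  · exact Finset.sum_congr rfl fun e he => by rw [if_neg (Finset.mem_compl.1 he)]
  · rw [Finset.mem_compl, not_not] at he
    rw [if_pos he, zero_mul]

/-- **two closures at one time** -/
theorem two_rate (hs : s.Ok) {r : ℝ} (k : Ck Z B s C mb r) (hC : Z.Cf B E1) (hZ : Z.Ok sl)
    (hx : Wt x P 1) (cB : ContinuousOn (B r) (Icc 0 r)) (hh : Haz h H)
    (hle : ∀ u v, ∀ ρ ∈ Icc 0 r, h ρ u v ≤ Z.hh x P ρ u v)
    (hHle : ∀ u v, ∀ ς ∈ Icc 0 r, ∀ ρ ∈ Icc 0 ς, H u v ς - H u v ρ ≤ Z.Hh x P ς u v ρ)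
    {a b c : V} (hab : a ≠ b) (hac : a ≠ c) (hbc : b ≠ c) {A2 : Finset V} (hA : A2 ⊆ {a, b})
    {σ : ℝ} (hσ : σ ∈ Icc 0 r) :
    ∃ L1 L2 : V → ℝ, (∀ d ∈ ({a, b, c} : Finset V)ᶜ,
      RCM.CloD h r σ {a} {a} d b (Real.exp (L1 d)) ∧
      RCM.CloD h r σ A2 {a, b} d c (Real.exp (L2 d)) ∧ 0 ≤ L1 d + L2 d) ∧
    ∑ d ∈ ({a, b, c} : Finset V)ᶜ, x a d * (1 - Real.exp (-(L1 d + L2 d)))
      ≤ (1 - (x a b + x a c) / 2) * (1 - Real.exp (-(2 * s.S (C r - C 0)))) := by
  have hx' := wt_of hx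
  have d1 : Dok ({a} : Finset V) := Or.inl ⟨a, rfl⟩
  have d2 : Dok ({a, b} : Finset V) := Or.inr ⟨a, b, hab, rfl⟩
  have s1 : ({a} : Finset V) ⊆ {a, b, c} := by
    intro e he; rw [Finset.mem_singleton] at he; subst he; simp
  have s2 : ({a, b} : Finset V) ⊆ {a, b, c} := by
    intro e he
    rcases Finset.mem_insert.1 he with rfl | he
    · simp
    · rw [Finset.mem_singleton] at he; subst he; simp
  have f1 := fw_one hx hab hac hbc (D := {a}) (by simp) s1
  have f2 := fw_one hx hab hac hbc (D := {a, b}) (by simp) s2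
  obtain ⟨L1, p1, q1⟩ := ep_main hs k hC hZ hx d1 (Finset.Subset.refl _) cB f1
  obtain ⟨L2, p2, q2⟩ := ep_main hs k hC hZ hx d2 hA cB f2
  have hb : b ∈ ({a} : Finset V)ᶜ := by simp [hab.symm]
  have hc : c ∈ ({a, b} : Finset V)ᶜ := by simp [hac.symm, hbc.symm]
  have m1 : ∀ {d : V}, d ∈ ({a, b, c} : Finset V)ᶜ → d ∈ ({a} : Finset V)ᶜ := fun hd =>
    Finset.compl_subset_compl.2 s1 hd
  have m2 : ∀ {d : V}, d ∈ ({a, b, c} : Finset V)ᶜ → d ∈ ({a, b} : Finset V)ᶜ := fun hd =>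
    Finset.compl_subset_compl.2 s2 hd
  have nb : ∀ {d : V}, d ∈ ({a, b, c} : Finset V)ᶜ → d ≠ b ∧ d ≠ c := fun hd => by
    simp only [Finset.mem_compl, Finset.mem_insert, Finset.mem_singleton, not_or] at hd
    exact ⟨hd.2.1, hd.2.2⟩
  refine ⟨fun d => L1 σ d b, fun d => L2 σ d c, fun d hd => ?_, ?_⟩
  · have g1 := p1 σ hσ d (m1 hd) b hb (nb hd).1
    have g2 := p2 σ hσ d (m2 hd) c hc (nb hd).2
    exact ⟨g1.2 h H hh hle hHle, g2.2 h H hh hle hHle, add_nonneg g1.1 g2.1⟩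
  · have e1 := q1 σ hσ b hb
    have e2 := q2 σ hσ c hc
    rw [sum_trip s1 (by simp)] at e1
    rw [sum_trip s2 (by simp)] at e2
    have h2 := hx'.row a
    rw [← Finset.sum_add_sum_compl ({a, b, c} : Finset V)] at h2
    rw [Finset.sum_insert (by simp [hab, hac]), Finset.sum_pair hbc, hx.diag a] at h2
    have h0 : 0 ≤ ∑ e ∈ ({a, b, c} : Finset V)ᶜ, x a e := Finset.sum_nonneg fun e _ =>
      hx.nonneg a e
    have S0 : 0 ≤ s.S (C r - C 0) := by
      have hu := k.um ⟨le_rfl, k.τ0⟩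
      have q0 : 0 ≤ s.Q (C r - C 0) := RCM.prim_nn hs.dQ hs.Q0 (fun u hu =>
        le_trans (by
          have h1 := hs.ss0 _ hu
          have h2 := hs.be0 _ hu
          have h3 := hs.g0 hu
          have h4 := hs.sl0 _ hu
          have h5 := hs.tt0 hu
          have h6 := mul_nonneg (mul_nonneg (by norm_num : (0 : ℝ) ≤ 2)
            (add_nonneg (hs.W0 u hu) (hs.Uu0 u hu))) (hs.dT0 hu)
          unfold RCM.Us.tt at h5
          positivity) (hs.oQ u hu)) hu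
      unfold RCM.Us.S
      have h1 := hs.Mf0 _ hu
      have h2 := hs.Uu0 _ hu
      have h3 := hs.δ0 _ hu
      linarith
    refine EPS.jens1 (w := x a b + x a c) (fun d _ => hx.nonneg a d)
      (add_nonneg (hx.nonneg a b) (hx.nonneg a c)) (by linarith) (mul_nonneg (by norm_num) S0)
      (fun d hd => ?_) (by linarith) ?_
    · exact add_nonneg (p1 σ hσ d (m1 hd) b hb (nb hd).1).1
        (p2 σ hσ d (m2 hd) c hc (nb hd).2).1
    · have e3 : ∑ d ∈ ({a, b, c} : Finset V)ᶜ, x a d * (L1 σ d b + L2 σ d c)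
          = ∑ d ∈ ({a, b, c} : Finset V)ᶜ, x a d * L1 σ d b
            + ∑ d ∈ ({a, b, c} : Finset V)ᶜ, x a d * L2 σ d c := by
        rw [← Finset.sum_add_distrib]
        exact Finset.sum_congr rfl fun d _ => by ring
      rw [e3]
      linarith

/-- **one closure at one time** -/
theorem one_rate (hs : s.Ok) {r : ℝ} (k : Ck Z B s C mb r) (hC : Z.Cf B E1) (hZ : Z.Ok sl)
    (hx : Wt x P 1) (cB : ContinuousOn (B r) (Icc 0 r)) (hh : Haz h H)
    (hle : ∀ u v, ∀ ρ ∈ Icc 0 r, h ρ u v ≤ Z.hh x P ρ u v)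
    (hHle : ∀ u v, ∀ ς ∈ Icc 0 r, ∀ ρ ∈ Icc 0 ς, H u v ς - H u v ρ ≤ Z.Hh x P ς u v ρ)
    {a b c : V} (hab : a ≠ b) (hac : a ≠ c) (hbc : b ≠ c) :
    ∃ L : V → ℝ, (∀ d ∈ ({a, b, c} : Finset V)ᶜ,
      RCM.CloD h r r {b, c} {b, c} a d (Real.exp (L d)) ∧ 0 ≤ L d) ∧
    ∑ d ∈ ({a, b, c} : Finset V)ᶜ, (x b d + x c d) * (1 - Real.exp (-L d))
      ≤ 2 * (1 - Real.exp (-(7072 / 10000 * s.S (C r - C 0)))) := by
  have hx' := wt_of hx
  have rm : r ∈ Icc 0 r := ⟨k.τ0, le_rfl⟩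
  have r1 : r ∈ Icc (0 : ℝ) bt := ⟨k.τ0, k.τ1⟩
  have d2 : Dok ({b, c} : Finset V) := Or.inr ⟨b, c, hbc, rfl⟩
  have s2 : ({b, c} : Finset V) ⊆ {a, b, c} := fun e he => Finset.mem_insert_of_mem he
  have f2 := fw_two hx hab hac hbc
  obtain ⟨L2, p2, q2⟩ := ep_main hs k hC hZ hx d2 (Finset.Subset.refl _) cB f2
  have ha : a ∈ ({b, c} : Finset V)ᶜ := by simp [hab, hac]
  have m2 : ∀ {d : V}, d ∈ ({a, b, c} : Finset V)ᶜ → d ∈ ({b, c} : Finset V)ᶜ := fun hd =>
    Finset.compl_subset_compl.2 s2 hd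
  have nb : ∀ {d : V}, d ∈ ({a, b, c} : Finset V)ᶜ → d ≠ a := fun hd => by
    simp only [Finset.mem_compl, Finset.mem_insert, Finset.mem_singleton, not_or] at hd
    exact hd.1
  refine ⟨fun d => L2 r d a, fun d hd => ?_, ?_⟩
  · have g2 := p2 r rm d (m2 hd) a ha (nb hd)
    refine ⟨RCM.CloD.swap hh (btI r1) (Finset.mem_compl.1 (m2 hd)) (g2.2 h H hh hle hHle), g2.1⟩
  · have e2 := q2 r rm a ha
    rw [sum_trip s2 (by simp)] at e2
    have S0 : 0 ≤ s.S (C r - C 0) := by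
      have hu := k.um ⟨le_rfl, k.τ0⟩
      have q0 : 0 ≤ s.Q (C r - C 0) := RCM.prim_nn hs.dQ hs.Q0 (fun u hu =>
        le_trans (by
          have h1 := hs.ss0 _ hu
          have h2 := hs.be0 _ hu
          have h3 := hs.g0 hu
          have h4 := hs.sl0 _ hu
          have h5 := hs.tt0 hu
          have h6 := mul_nonneg (mul_nonneg (by norm_num : (0 : ℝ) ≤ 2)
            (add_nonneg (hs.W0 u hu) (hs.Uu0 u hu))) (hs.dT0 hu)
          unfold RCM.Us.tt at h5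
          positivity) (hs.oQ u hu)) hu
      unfold RCM.Us.S
      have h1 := hs.Mf0 _ hu
      have h2 := hs.Uu0 _ hu
      have h3 := hs.δ0 _ hu
      linarith
    refine EPS.jens2 (fun d _ => add_nonneg (hx.nonneg b d) (hx.nonneg c d)) S0
      (fun d hd => (p2 r rm d (m2 hd) a ha (nb hd)).1) ?_ (by linarith)
    refine (Finset.sum_le_sum_of_subset_of_nonneg (Finset.subset_univ _) fun e _ _ =>
      add_nonneg (hx.nonneg b e) (hx.nonneg c e)).trans ?_
    rw [Finset.sum_add_distrib]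
    linarith [hx'.row b, hx'.row c]

end Pool.Agent.RX.RCN.K
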