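import Pool.Agent.RX.RCE.KnDens
import Pool.Agent.RX.RCM.EpJ

/-! Density errors: the density bound of the certified process with the rates of the density
errors (MP_73ccd0_lc, route M). -/

namespace Pool.Agent.RX.RCN.K

open Set Finset MeasureTheory Pool.Agent.RX.RCRSHalf Pool.Agent.RX.RCG Pool.Agent.RX.RCG.Ct
open Pool.Agent.RX.RCN Pool.Agent.RX.RCE Pool.Agent.RX.RCM

set_option linter.unusedSectionVars false

variable {V : Type*} [Fintype V] [DecidableEq V]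
variable {Z : Hzd} {B E1 : ℝ → ℝ → ℝ} {S : RCM.Us} {C mb : ℝ → ℝ} {t tU : ℝ}
variable {x : V → V → ℝ} {P : V → Prop} [DecidablePred P] {sl : ℝ → ℝ → ℝ}
variable {h : ℝ → V → V → ℝ} {H : V → V → ℝ → ℝ} {φ : V → V → ℝ → ℝ} {ab : ℝ → ℝ → ℝ}

/-- the first rate of the density errors: `w` the weight of the pair, `χ` a cut-off -/
noncomputable def rt1 (S : RCM.Us) (C bq χ : ℝ → ℝ) (w r : ℝ) : ℝ :=
  bq r * (χ r * ((1 - w / 2) * (1 - Real.exp (-(2 * S.S (C r - C 0))))) + (1 - χ r) * (1 - w))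

/-- the second rate of the density errors -/
noncomputable def rt2 (S : RCM.Us) (C mb χ : ℝ → ℝ) (r : ℝ) : ℝ :=
  mb r * (χ r * (2 * (1 - Real.exp (-(7072 / 10000 * S.S (C r - C 0))))) + (1 - χ r) * 2)

theorem mix_le {a b q χ : ℝ} (h1 : q ≤ a) (h2 : q ≤ b) (χ0 : 0 ≤ χ) (χ1 : χ ≤ 1) :
    q ≤ χ * a + (1 - χ) * b := by
  have a1 := mul_le_mul_of_nonneg_left h1 χ0
  have a2 := mul_le_mul_of_nonneg_left h2 (by linarith : 0 ≤ 1 - χ)
  linarith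

/-- **The density bound with explicit density errors.** -/
theorem Kn.dens_ep (hK : Kn x P φ ab h H t) (hS : S.Ok) (U0 : 0 ≤ tU)
    (ck : ∀ r ∈ Icc 0 tU, Ck Z B S C mb r) (hC : Z.Cf B E1) (hZ : Z.Ok sl) (hx : Wt x P 1)
    (cB : ∀ r ∈ Icc 0 tU, ContinuousOn (B r) (Icc 0 r))
    (hle : ∀ u v, ∀ r ∈ Icc 0 t, h r u v ≤ Z.hh x P r u v)
    (hHle : ∀ u v, ∀ σ ∈ Icc 0 t, ∀ r ∈ Icc 0 σ, H u v σ - H u v r ≤ Z.Hh x P σ u v r)
    {a b c : V} (hab : a ≠ b) (hac : a ≠ c) (hbc : b ≠ c)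
    {Em Em' ε1 ε1' ε2 ε2' bq χ χ2 : ℝ → ℝ} {Bm : ℝ}
    (dP : ∀ r ∈ Icc 0 t, HasDerivAt Em (Em' r) r)
    (hP : ∀ r ∈ Icc 0 t, (x a b * φ a b r + x a c * φ a c r) / bb h ∅ a r ≤ Em' r)
    (hBm : Real.exp (Em t - Em 0) ≤ Bm)
    (hbq : ∀ r ∈ Icc 0 t, ∀ d, dE h a d r ≤ x a d * bq r) (bq0 : ∀ r ∈ Icc 0 t, 0 ≤ bq r)
    (χ01 : ∀ r ∈ Icc 0 t, χ r ∈ Icc (0 : ℝ) 1) (χz : ∀ r ∈ Icc 0 t, tU < r → χ r = 0)
    (χ201 : ∀ r ∈ Icc 0 t, χ2 r ∈ Icc (0 : ℝ) 1) (χ2z : ∀ r ∈ Icc 0 t, tU < r → χ2 r = 0)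
    (d1 : ∀ r ∈ Icc 0 t, HasDerivAt ε1 (ε1' r) r) (d2 : ∀ r ∈ Icc 0 t, HasDerivAt ε2 (ε2' r) r)
    (o1 : ∀ r ∈ Icc 0 t, rt1 S C bq χ (x a b + x a c) r ≤ ε1' r)
    (o2 : ∀ r ∈ Icc 0 t, rt2 S C mb χ2 r ≤ ε2' r)
    {s : ℝ} (hs : s ∈ Icc 0 t) :
    RCM.Dens h t s a b c (Bm * Real.exp ((ε1 t - ε1 0) + (ε2 s - ε2 0))) := by
  have hx' := wt_of hx
  have hh := hK.hh
  have ht := hK.ht
  have m1' : ∀ r ∈ Icc 0 t, r ∈ Icc (0 : ℝ) bt := fun r hr => ⟨hr.1, hr.2.trans ht.2⟩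
  have hle' : ∀ {r : ℝ}, r ∈ Icc 0 t → ∀ u v, ∀ ρ ∈ Icc 0 r, h ρ u v ≤ Z.hh x P ρ u v :=
    fun hr u v ρ hρ => hle u v ρ ⟨hρ.1, hρ.2.trans hr.2⟩
  have hHle' : ∀ {r : ℝ}, r ∈ Icc 0 t → ∀ u v, ∀ ς ∈ Icc 0 r, ∀ ρ ∈ Icc 0 ς,
      H u v ς - H u v ρ ≤ Z.Hh x P ς u v ρ :=
    fun hr u v ς hς ρ hρ => hHle u v ς ⟨hς.1, hς.2.trans hr.2⟩ ρ hρ
  have k0 := ck 0 ⟨le_rfl, U0⟩
  have mb0 : ∀ r ∈ Icc 0 t, 0 ≤ mb r := fun r hr => zero_le_one.trans (k0.m1 r (m1' r hr))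
  have hmb : ∀ r ∈ Icc 0 t, ∀ u v, h r u v ≤ x u v * mb r := fun r hr u v =>
    (hle u v r hr).trans (Hzd.hh_le hx k0.hmb k0.m1 (m1' r hr) u v)
  have nb : ∀ {d : V}, d ∈ ({a, b, c} : Finset V)ᶜ → d ≠ a ∧ d ≠ b ∧ d ≠ c := fun hd => by
    simp only [Finset.mem_compl, Finset.mem_insert, Finset.mem_singleton, not_or] at hd
    exact hd
  have rowc : ∑ e ∈ ({a, b, c} : Finset V)ᶜ, x a e ≤ 1 - (x a b + x a c) := by
    have h2 := hx'.row a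
    rw [← Finset.sum_add_sum_compl ({a, b, c} : Finset V)] at h2
    rw [Finset.sum_insert (by simp [hab, hac]), Finset.sum_pair hbc, hx.diag a] at h2
    linarith
  -- the sum of the first rate
  have sum1 : ∀ r ∈ Icc 0 t, ∀ m : V → ℝ, (∀ d ∈ ({a, b, c} : Finset V)ᶜ, m d ≤ 1) →
      (∀ d ∈ ({a, b, c} : Finset V)ᶜ, 0 ≤ m d) →
      (r ∈ Icc 0 tU → ∑ d ∈ ({a, b, c} : Finset V)ᶜ, x a d * m d
        ≤ (1 - (x a b + x a c) / 2) * (1 - Real.exp (-(2 * S.S (C r - C 0))))) →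
      ∑ d ∈ ({a, b, c} : Finset V)ᶜ, dE h a d r * m d ≤ ε1' r := by
    intro r hr m hm1 hm0 hm
    refine le_trans ?_ (o1 r hr)
    have e1 : ∑ d ∈ ({a, b, c} : Finset V)ᶜ, dE h a d r * m d
        ≤ bq r * ∑ d ∈ ({a, b, c} : Finset V)ᶜ, x a d * m d := by
      rw [Finset.mul_sum]
      refine Finset.sum_le_sum fun d hd => ?_
      have := mul_le_mul_of_nonneg_right (hbq r hr d) (hm0 d hd)
      linarith
    refine e1.trans (mul_le_mul_of_nonneg_left ?_ (bq0 r hr))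
    have e2 : ∑ d ∈ ({a, b, c} : Finset V)ᶜ, x a d * m d ≤ 1 - (x a b + x a c) := by
      refine (Finset.sum_le_sum fun d hd => ?_).trans rowc
      exact mul_le_of_le_one_right (hx.nonneg a d) (hm1 d hd)
    by_cases hrU : r ∈ Icc 0 tU
    · exact mix_le (hm hrU) e2 (χ01 r hr).1 (χ01 r hr).2
    · have hlt : tU < r := by
        by_contra hcon
        exact hrU ⟨hr.1, not_lt.1 hcon⟩
      rw [χz r hr hlt]
      linarith
  have e01 : ∀ {l : ℝ}, 0 ≤ l → 1 - Real.exp (-l) ≤ 1 ∧ 0 ≤ 1 - Real.exp (-l) := fun {l} hl => by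
    have h1 := (Real.exp_pos (-l)).le
    have h2 : Real.exp (-l) ≤ 1 := Real.exp_le_one_iff.2 (by linarith)
    exact ⟨by linarith, by linarith⟩
  have bA : b ∉ ({a} : Finset V) := by simp [hab.symm]
  have cA : c ∉ ({a, b} : Finset V) := by simp [hac.symm, hbc.symm]
  -- equal times
  have ex1 : ∀ r, ∃ m : V → ℝ, r ∈ Icc 0 t → (∀ d ∈ ({a, b, c} : Finset V)ᶜ, ∃ K1 K2,
      RCM.CloD h r r {a, b} {a, b} c d K1 ∧ RCM.CloD h r r {a} {a} b d K2 ∧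
        (1 - m d) * (K1 * K2) ≤ 1) ∧
      ∑ d ∈ ({a, b, c} : Finset V)ᶜ, dE h a d r * m d ≤ ε1' r := by
    intro r
    by_cases hr : r ∈ Icc 0 t
    · have rm : r ∈ Icc 0 r := ⟨hr.1, le_rfl⟩
      by_cases hrU : r ∈ Icc 0 tU
      · obtain ⟨L1, L2, p, q⟩ := two_rate hS (ck r hrU) hC hZ hx (cB r hrU) hh (hle' hr)
          (hHle' hr) hab hac hbc (Finset.Subset.refl ({a, b} : Finset V)) rm
        refine ⟨fun d => 1 - Real.exp (-(L1 d + L2 d)), fun _ => ⟨fun d hd => ?_, ?_⟩⟩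
        · have hd' := nb hd
          refine ⟨_, _, RCM.CloD.swap hh (btI (m1' r hr)) (by simp [hd'.1, hd'.2.1]) (p d hd).2.1,
            RCM.CloD.swap hh (btI (m1' r hr)) (by simp [hd'.1]) (p d hd).1, ?_⟩
          have e := RCM.two_e (l1 := L2 d) (l2 := L1 d)
          rw [add_comm (L2 d)] at e
          exact e
        · exact sum1 r hr _ (fun d hd => (e01 (p d hd).2.2).1) (fun d hd => (e01 (p d hd).2.2).2)
            fun _ => q
      · refine ⟨fun _ => 1, fun _ => ⟨fun d hd => ?_, ?_⟩⟩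
        · obtain ⟨K1, h1⟩ := RCM.ex_cloD hh ({a, b} : Finset V) d cA (btI (m1' r hr)) rm
          obtain ⟨K2, h2⟩ := RCM.ex_cloD hh ({a} : Finset V) d bA (btI (m1' r hr)) rm
          exact ⟨K1, K2, h1, h2, by norm_num⟩
        · exact sum1 r hr _ (fun _ _ => le_rfl) (fun _ _ => zero_le_one) fun h => absurd h hrU
    · exact ⟨fun _ => 1, fun h => absurd h hr⟩
  choose m1 hm1 using ex1
  -- the pair `b`, `c`
  have ex2 : ∀ r, ∃ m : V → ℝ, r ∈ Icc 0 t → (∀ d ∈ ({a, b, c} : Finset V)ᶜ, 0 ≤ m d) ∧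
      (∀ d ∈ ({a, b, c} : Finset V)ᶜ, ∃ K3,
      RCM.CloD h r r {b, c} {b, c} a d K3 ∧ (1 - m d) * K3 ≤ 1) ∧
      ∑ d ∈ ({a, b, c} : Finset V)ᶜ, (h r b d + h r c d) * m d ≤ ε2' r := by
    intro r
    by_cases hr : r ∈ Icc 0 t
    · have rm : r ∈ Icc 0 r := ⟨hr.1, le_rfl⟩
      have e1 : ∀ m : V → ℝ, (∀ d ∈ ({a, b, c} : Finset V)ᶜ, 0 ≤ m d) →
          ∑ d ∈ ({a, b, c} : Finset V)ᶜ, (h r b d + h r c d) * m d
          ≤ mb r * ∑ d ∈ ({a, b, c} : Finset V)ᶜ, (x b d + x c d) * m d := by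
        intro m hm
        rw [Finset.mul_sum]
        refine Finset.sum_le_sum fun d hd => ?_
        have := mul_le_mul_of_nonneg_right (add_le_add (hmb r hr b d) (hmb r hr c d)) (hm d hd)
        linarith
      have e2 : ∀ m : V → ℝ, (∀ d ∈ ({a, b, c} : Finset V)ᶜ, m d ≤ 1) →
          ∑ d ∈ ({a, b, c} : Finset V)ᶜ, (x b d + x c d) * m d ≤ 2 := by
        intro m hm
        refine (Finset.sum_le_sum (g := fun d => x b d + x c d) fun d hd => ?_).trans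
          ((Finset.sum_le_sum_of_subset_of_nonneg (Finset.subset_univ _) fun e _ _ =>
            add_nonneg (hx.nonneg b e) (hx.nonneg c e)).trans ?_)
        · exact mul_le_of_le_one_right (add_nonneg (hx.nonneg b d) (hx.nonneg c d)) (hm d hd)
        · rw [Finset.sum_add_distrib]
          linarith [hx'.row b, hx'.row c]
      by_cases hrU : r ∈ Icc 0 tU
      · obtain ⟨L, p, q⟩ := one_rate hS (ck r hrU) hC hZ hx (cB r hrU) hh (hle' hr)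
          (hHle' hr) hab hac hbc
        refine ⟨fun d => 1 - Real.exp (-L d), fun _ => ⟨fun d hd => (e01 (p d hd).2).2,
          fun d hd => ⟨_, (p d hd).1, RCM.one_e⟩, ?_⟩⟩
        refine ((e1 _ fun d hd => (e01 (p d hd).2).2).trans ?_).trans (o2 r hr)
        refine mul_le_mul_of_nonneg_left ?_ (mb0 r hr)
        exact mix_le q (e2 _ fun d hd => (e01 (p d hd).2).1) (χ201 r hr).1 (χ201 r hr).2
      · have hlt : tU < r := by
          by_contra hcon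
          exact hrU ⟨hr.1, not_lt.1 hcon⟩
        refine ⟨fun _ => 1, fun _ => ⟨fun _ _ => zero_le_one, fun d hd => ?_, ?_⟩⟩
        · have aA : a ∉ ({b, c} : Finset V) := by simp [hab, hac]
          obtain ⟨K1, h1⟩ := RCM.ex_cloD hh ({b, c} : Finset V) d aA (btI (m1' r hr)) rm
          exact ⟨K1, h1, by norm_num⟩
        · refine ((e1 _ fun _ _ => zero_le_one).trans ?_).trans (o2 r hr)
          refine mul_le_mul_of_nonneg_left ?_ (mb0 r hr)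
          rw [χ2z r hr hlt]
          have := e2 (fun _ => 1) fun _ _ => le_rfl
          linarith
    · exact ⟨fun _ => 1, fun h => absurd h hr⟩
  choose m2 hm2 using ex2
  -- different times
  have ex3 : ∀ σ r, ∃ m : V → ℝ, σ ∈ Icc 0 t → r ∈ Icc σ t →
      (∀ d ∈ ({a, b, c} : Finset V)ᶜ, ∃ K4 K5,
      RCM.CloD h r σ {a} {a} d b K4 ∧ RCM.CloD h r σ {a} {a, b} d c K5 ∧
        (1 - m d) * (K4 * K5) ≤ 1) ∧
      ∑ d ∈ ({a, b, c} : Finset V)ᶜ, dE h a d r * m d ≤ ε1' r := by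
    intro σ r
    by_cases hσ : σ ∈ Icc 0 t
    · by_cases hrσ : r ∈ Icc σ t
      · have hr : r ∈ Icc 0 t := ⟨hσ.1.trans hrσ.1, hrσ.2⟩
        have rm : σ ∈ Icc 0 r := ⟨hσ.1, hrσ.1⟩
        by_cases hrU : r ∈ Icc 0 tU
        · obtain ⟨L1, L2, p, q⟩ := two_rate hS (ck r hrU) hC hZ hx (cB r hrU) hh (hle' hr)
            (hHle' hr) hab hac hbc (A2 := ({a} : Finset V)) (by
              intro e he; rw [Finset.mem_singleton] at he; subst he; simp) rm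
          refine ⟨fun d => 1 - Real.exp (-(L1 d + L2 d)), fun _ _ => ⟨fun d hd =>
            ⟨_, _, (p d hd).1, (p d hd).2.1, RCM.two_e⟩, ?_⟩⟩
          exact sum1 r hr _ (fun d hd => (e01 (p d hd).2.2).1) (fun d hd => (e01 (p d hd).2.2).2)
            fun _ => q
        · refine ⟨fun _ => 1, fun _ _ => ⟨fun d hd => ?_, ?_⟩⟩
          · have dA : d ∉ ({a} : Finset V) := by simp [(nb hd).1]
            obtain ⟨K1, h1⟩ := RCM.ex_cloD hh ({a} : Finset V) b dA (btI (m1' r hr)) rm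
            obtain ⟨K2, h2⟩ := RCM.ex_cloD hh ({a, b} : Finset V) c dA (btI (m1' r hr)) rm
            exact ⟨K1, K2, h1, h2, by norm_num⟩
          · exact sum1 r hr _ (fun _ _ => le_rfl) (fun _ _ => zero_le_one) fun h => absurd h hrU
      · exact ⟨fun _ => 1, fun _ h => absurd h hrσ⟩
    · exact ⟨fun _ => 1, fun h => absurd h hσ⟩
  choose m3 hm3 using ex3
  exact Kn.dens hK hab hac hbc (m1 := fun d r => m1 r d) (m2 := fun d r => m2 r d)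
    (ν := fun d σ r => m3 σ r d) dP hP hBm d1 d2
    (fun r hr d hd _ => (hm1 r hr).1 d hd) (fun r hr => (hm1 r hr).2)
    (fun r hr d hd => (hm2 r hr).1 d hd) (fun r hr d hd _ => (hm2 r hr).2.1 d hd)
    (fun r hr => (hm2 r hr).2.2)
    (fun σ hσ r hr d hd _ => (hm3 σ r hσ hr).1 d hd) (fun σ hσ r hr => (hm3 σ r hσ hr).2) hs

end Pool.Agent.RX.RCN.K
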