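import Pool.Agent.RX.EPS.Defs

/-! Density errors: the scalar functions of the clock variable (MP_73ccd0_lc, route M). -/

namespace Pool.Agent.RX.RCM

open Set Finset

set_option linter.unusedSectionVars false

/-- the scalar functions of the clock variable `u` -/
structure Us where
  th : ℝ → ℝ
  be : ℝ → ℝ
  Y : ℝ → ℝ
  Y' : ℝ → ℝ
  N : ℝ → ℝ
  N' : ℝ → ℝ
  g : ℝ → ℝ
  c : ℝ → ℝ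
  lam : ℝ → ℝ
  sl : ℝ → ℝ
  ss : ℝ → ℝ
  lA : ℝ → ℝ
  sA : ℝ → ℝ
  FA : ℝ → ℝ
  Rb : ℝ → ℝ
  rd : ℝ → ℝ
  c3 : ℝ → ℝ
  Gp : ℝ → ℝ
  Gp' : ℝ → ℝ
  Gm : ℝ → ℝ
  Gm' : ℝ → ℝ
  Pf : ℝ → ℝ
  Pf' : ℝ → ℝ
  Mf : ℝ → ℝ
  Mf' : ℝ → ℝ
  W : ℝ → ℝ
  W' : ℝ → ℝ
  Vv : ℝ → ℝ
  Vv' : ℝ → ℝ
  Uu : ℝ → ℝ
  Uu' : ℝ → ℝ
  Q : ℝ → ℝ
  Q' : ℝ → ℝ
  I0 : ℝ → ℝ
  I0' : ℝ → ℝ
  I1 : ℝ → ℝ
  I1' : ℝ → ℝ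
  δ : ℝ → ℝ
  m : ℝ
  q : ℝ
  U0 : ℝ

namespace Us

variable (s : Us)

/-- coefficient of the tail in one exponent -/
noncomputable def c1 (u : ℝ) : ℝ := s.q * (1 + s.be u)

/-- coefficient of the tail in two exponents -/
noncomputable def c4 (u : ℝ) : ℝ := s.q * (1 + s.be u + s.be u / 4)

/-- the profile of the bound of two exponents -/
noncomputable def ψ (u v : ℝ) : ℝ := 1 + (1 + s.q * s.m) * s.be u / 4 + s.q * s.m * v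

/-- norm of the source operator -/
noncomputable def dq (u : ℝ) : ℝ := s.c3 u * (s.be u * (s.sl u * s.g u / 2 + s.rd u))

/-- the rate of the target term -/
noncomputable def dT (u : ℝ) : ℝ := s.dq u + (s.Rb u + s.lam u) * s.c4 u * s.Vv u

/-- the exponent of the insertion -/
noncomputable def Zx (u x : ℝ) : ℝ := s.W u + s.Uu u + x * u + (1 - x) * (s.I0 u + x * s.I1 u)

/-- **the scalar conditions** -/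
structure Ok : Prop where
  U0 : 0 ≤ s.U0
  m0 : 0 ≤ s.m
  q0 : 0 ≤ s.q
  hq : Real.exp s.m - 1 ≤ s.q * s.m
  cth : Continuous s.th
  cbe : Continuous s.be
  cg : Continuous s.g
  clam : Continuous s.lam
  csl : Continuous s.sl
  cRb : Continuous s.Rb
  css : Continuous s.ss
  cc3 : Continuous s.c3
  crd : Continuous s.rd
  cI0 : Continuous s.I0'
  cI1 : Continuous s.I1'
  be0 : ∀ u ∈ Icc 0 s.U0, 0 ≤ s.be u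
  Y0 : ∀ u ∈ Icc 0 s.U0, 0 ≤ s.Y u
  Yth : ∀ u ∈ Icc 0 s.U0, s.Y u ≤ s.th u
  aY : ∀ u ∈ Icc 0 s.U0, s.th u - s.Y u ≤ 1
  th2 : ∀ u ∈ Icc 0 s.U0, s.th u ≤ 2
  N0 : ∀ u ∈ Icc 0 s.U0, 0 ≤ s.N u
  N1 : ∀ u ∈ Icc 0 s.U0, s.N u ≤ 1
  dY : ∀ u, HasDerivAt s.Y (s.Y' u) u
  dN : ∀ u, HasDerivAt s.N (s.N' u) u
  oY : ∀ u ∈ Icc 0 s.U0, s.N u ≤ s.Y' u
  oN : ∀ u ∈ Icc 0 s.U0, Real.exp (2 / 3 * s.th u + s.Y u / 3) - 1 ≤ s.N' u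
  hg : ∀ u ∈ Icc 0 s.U0, Real.exp (s.Y u) ≤ s.g u
  hc : ∀ u ∈ Icc 0 s.U0, Real.exp (s.th u - s.Y u) - 1 ≤ s.c u
  hc3 : ∀ u ∈ Icc 0 s.U0, s.c u / 3 ≤ (1 - (s.th u - s.Y u)) * (1 + 2 / 3 * (s.th u - s.Y u))
  hlam : ∀ u ∈ Icc 0 s.U0,
    s.g u ^ 2 * (1 + (max 0 (2 * (s.th u - s.Y u) - 1)) ^ 2 / 2) ≤ s.lam u
  sl0 : ∀ u ∈ Icc 0 s.U0, 0 ≤ s.sl u
  hsl : ∀ u ∈ Icc 0 s.U0, s.lam u ≤ s.sl u ^ 2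
  ss0 : ∀ u ∈ Icc 0 s.U0, 0 ≤ s.ss u
  hss : ∀ u ∈ Icc 0 s.U0,
    Real.exp (2 * s.Y u + ((s.th u - s.Y u) + (s.th u - s.Y u) ^ 2 / 4)) / 4 ≤ s.ss u ^ 2
  lA0 : ∀ u ∈ Icc 0 s.U0, 0 ≤ s.lA u
  hlA : ∀ u ∈ Icc 0 s.U0, ∀ k ∈ Icc (0 : ℝ) 1, ∀ l ∈ Icc (0 : ℝ) 1, Real.sqrt (1 - k) * Real.sqrt (1 - l)
    * (Real.exp ((s.th u - s.Y u) * (k + l) + 2 * s.Y u) - 1) ≤ s.lA u
  sA0 : ∀ u ∈ Icc 0 s.U0, 0 ≤ s.sA u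
  hsA : ∀ u ∈ Icc 0 s.U0, ∀ k ∈ Icc (0 : ℝ) 1, ∀ l ∈ Icc (0 : ℝ) 1, k * (Real.sqrt (1 - k) * Real.sqrt (1 - l)
    * (Real.exp ((s.th u - s.Y u) * (k + l) + 2 * s.Y u) - 1)) ≤ s.sA u
  FA0 : ∀ u ∈ Icc 0 s.U0, 0 ≤ s.FA u
  hFA : ∀ u ∈ Icc 0 s.U0, s.lA u * s.sA u ≤ s.FA u ^ 2
  hRb : ∀ u ∈ Icc 0 s.U0, s.g u ^ 2 * (1 + s.c u * (2 / 3)) ≤ s.Rb u
  rd0 : ∀ u ∈ Icc 0 s.U0, s.Rb u / 2 ≤ s.rd u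
  hrd : ∀ u ∈ Icc 0 s.U0, ∀ v ∈ Icc (0 : ℝ) 1,
    v * ((1 - v) * (s.g u ^ 2 * (1 + s.c u * (1 - (1 - v) / 3))) * s.ψ u v) ^ 2
      ≤ (s.c3 u * s.rd u) ^ 2
  c30 : ∀ u ∈ Icc 0 s.U0, 0 ≤ s.c3 u
  hψ : ∀ u ∈ Icc 0 s.U0, ∀ v ∈ Icc (0 : ℝ) 1, v * (1 - v) * s.ψ u v ^ 2 ≤ (s.c3 u / 2) ^ 2
  dGp : ∀ u, HasDerivAt s.Gp (s.Gp' u) u
  dGm : ∀ u, HasDerivAt s.Gm (s.Gm' u) u
  dPf : ∀ u, HasDerivAt s.Pf (s.Pf' u) u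
  dMf : ∀ u, HasDerivAt s.Mf (s.Mf' u) u
  dW : ∀ u, HasDerivAt s.W (s.W' u) u
  dV : ∀ u, HasDerivAt s.Vv (s.Vv' u) u
  dU : ∀ u, HasDerivAt s.Uu (s.Uu' u) u
  dQ : ∀ u, HasDerivAt s.Q (s.Q' u) u
  dI0 : ∀ u, HasDerivAt s.I0 (s.I0' u) u
  dI1 : ∀ u, HasDerivAt s.I1 (s.I1' u) u
  Gp0 : ∀ u ∈ Icc 0 s.U0, 0 ≤ s.Gp u
  Gm0 : ∀ u ∈ Icc 0 s.U0, 0 ≤ s.Gm u
  Pf0 : ∀ u ∈ Icc 0 s.U0, 0 ≤ s.Pf u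
  Mf0 : ∀ u ∈ Icc 0 s.U0, 0 ≤ s.Mf u
  W0 : ∀ u ∈ Icc 0 s.U0, 0 ≤ s.W u
  V0 : ∀ u ∈ Icc 0 s.U0, 0 ≤ s.Vv u
  Uu0 : ∀ u ∈ Icc 0 s.U0, 0 ≤ s.Uu u
  Q0 : 0 ≤ s.Q 0
  I00 : 0 ≤ s.I0 0
  I10 : 0 ≤ s.I1 0
  oGp : ∀ u ∈ Icc 0 s.U0, s.lA u + 2 * (s.lam u * s.Gm u)
    + (s.Rb u + s.lam u) * (s.Gp u ^ 2 + s.Gm u ^ 2) ≤ s.Gp' u
  oGm : ∀ u ∈ Icc 0 s.U0, 2 * s.N u + 2 * (s.lam u * s.Gp u)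
    + 2 * ((s.Rb u + s.lam u) * (s.Gp u * s.Gm u)) ≤ s.Gm' u
  oPf : ∀ u ∈ Icc 0 s.U0, s.FA u + (s.ss u * s.sl u * s.Gm u + s.Mf u * s.lam u)
    + (s.Rb u + s.lam u) * (s.Pf u * s.Gp u + s.Mf u * s.Gm u) ≤ s.Pf' u
  oMf : ∀ u ∈ Icc 0 s.U0, s.N u + (s.ss u * s.sl u * s.Gp u + s.Pf u * s.lam u)
    + (s.Rb u + s.lam u) * (s.Mf u * s.Gp u + s.Pf u * s.Gm u) ≤ s.Mf' u
  oW : ∀ u ∈ Icc 0 s.U0, s.sl u * s.be u * s.g u / 2 ≤ s.W' u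
  oV : ∀ u ∈ Icc 0 s.U0, (s.lam u + (s.Rb u + s.lam u) * s.Gm u) * (s.W u + s.Uu u)
    + s.Gp u * s.dT u ≤ s.Vv' u
  oU : ∀ u ∈ Icc 0 s.U0, s.lam u * (s.c1 u * s.Vv u)
    + (s.Rb u + s.lam u) * s.Gp u * (s.W u + s.Uu u) + s.Gm u * s.dT u ≤ s.Uu' u
  oQ : ∀ u ∈ Icc 0 s.U0, s.ss u * s.be u * s.g u / 2 + s.sl u * s.be u * s.g u / 4
    + (s.ss u * s.sl u * (s.c1 u * s.Vv u) + (s.Rb u + s.lam u) * s.Pf u * (s.W u + s.Uu u)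
      + s.Mf u * s.dT u)
    + 2 * (s.W u + s.Uu u) * s.dT u ≤ s.Q' u
  oI0 : ∀ u ∈ Icc 0 s.U0, s.g u ^ 2 * (1 + s.c u * (2 / 3)) ≤ s.I0' u
  oI1 : ∀ u ∈ Icc 0 s.U0, s.g u ^ 2 * (s.c u / 3) ≤ s.I1' u
  hm : ∀ u ∈ Icc 0 s.U0, Real.sqrt 2 * s.Vv u ≤ s.m
  δ0 : ∀ u ∈ Icc 0 s.U0, 0 ≤ s.δ u
  hδ : ∀ u ∈ Icc 0 s.U0, ∀ x ∈ Icc (0 : ℝ) 1,
    x * (1 - x) * ((max 0 (s.Zx u x - 17 / 25)) ^ 2 / 2) ^ 2 ≤ s.δ u ^ 2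

/-- the final bound -/
noncomputable def S (u : ℝ) : ℝ := s.Mf u + s.Uu u + s.Q u + s.δ u

variable {s}

namespace Ok

variable (h : s.Ok) {u : ℝ}
include h

theorem a0 (hu : u ∈ Icc 0 s.U0) : 0 ≤ s.th u - s.Y u := sub_nonneg.2 (h.Yth u hu)

theorem g0 (hu : u ∈ Icc 0 s.U0) : 0 ≤ s.g u := (Real.exp_pos _).le.trans (h.hg u hu)

theorem g1 (hu : u ∈ Icc 0 s.U0) : 1 ≤ s.g u := (Real.one_le_exp (h.Y0 u hu)).trans (h.hg u hu)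

theorem c0 (hu : u ∈ Icc 0 s.U0) : 0 ≤ s.c u := by
  have h1 := Real.one_le_exp (h.a0 hu)
  have h2 := h.hc u hu
  linarith

theorem lam0 (hu : u ∈ Icc 0 s.U0) : 0 ≤ s.lam u :=
  (mul_nonneg (sq_nonneg _) (by positivity)).trans (h.hlam u hu)

theorem Rb0 (hu : u ∈ Icc 0 s.U0) : 0 ≤ s.Rb u :=
  (mul_nonneg (sq_nonneg _) (by have := h.c0 hu; positivity)).trans (h.hRb u hu)

theorem rdn (hu : u ∈ Icc 0 s.U0) : 0 ≤ s.rd u := by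
  have h1 := h.rd0 u hu
  have h2 := h.Rb0 hu
  linarith

theorem c10 (hu : u ∈ Icc 0 s.U0) : 0 ≤ s.c1 u :=
  mul_nonneg h.q0 (by have := h.be0 u hu; linarith)

theorem c40 (hu : u ∈ Icc 0 s.U0) : 0 ≤ s.c4 u :=
  mul_nonneg h.q0 (by have := h.be0 u hu; linarith)

theorem ψ0 (hu : u ∈ Icc 0 s.U0) {v : ℝ} (hv : 0 ≤ v) : 0 ≤ s.ψ u v := by
  have h1 := h.be0 u hu
  have h2 := mul_nonneg h.q0 h.m0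
  unfold Us.ψ
  positivity

theorem dq0 (hu : u ∈ Icc 0 s.U0) : 0 ≤ s.dq u := by
  have h1 := h.be0 u hu
  have h2 := h.c30 u hu
  have h3 := h.sl0 u hu
  have h4 := h.g0 hu
  have h5 := h.rdn hu
  unfold Us.dq
  positivity

theorem RL (hu : u ∈ Icc 0 s.U0) : 0 ≤ s.Rb u + s.lam u := add_nonneg (h.Rb0 hu) (h.lam0 hu)

theorem dT0 (hu : u ∈ Icc 0 s.U0) : 0 ≤ s.dT u :=
  add_nonneg (h.dq0 hu) (mul_nonneg (mul_nonneg (h.RL hu) (h.c40 hu)) (h.V0 u hu))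

/-- the profile -/
theorem ps (hu : u ∈ Icc 0 s.U0) : EPS.Ps (s.ψ u) (s.c3 u) := by
  have h2 := mul_nonneg h.q0 h.m0
  refine ⟨fun v hv => h.ψ0 hu hv.1, fun a b ha hab _ => ?_, h.c30 u hu, h.hψ u hu⟩
  unfold Us.ψ
  have := mul_le_mul_of_nonneg_left hab h2
  linarith

end Ok

end Us

/-- the trivial profile -/
theorem ps_one : EPS.Ps (fun _ => (1 : ℝ)) 1 := by
  refine ⟨fun _ _ => zero_le_one, fun _ _ _ _ _ => le_rfl, zero_le_one, fun v hv => ?_⟩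
  nlinarith [sq_nonneg (v - 1 / 2)]

end Pool.Agent.RX.RCM
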