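import Pool.Agent.RX.RCM.Lin
import Pool.Agent.RX.RCN.Par

/-! The value at `0` of a linear backward system through the forward adjoint solution; continuity
in the horizon (MP_73ccd0_lc, route M). -/

namespace Pool.Agent.RX.RCM

open Set Finset MeasureTheory Pool.Agent.RX.RCRSHalf Pool.Agent.RX.RCG

variable {ι : Type*} [Fintype ι] [DecidableEq ι]

/-- **adjoint representation** -/
theorem adj_formula {t : ℝ} (ht : t ∈ Icc (0 : ℝ) 1) {M : ℝ → ι → ι → ℝ}
    (cM : ∀ i j, ContinuousOn (fun r => M r i j) (Icc 0 t))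
    (M0 : ∀ r ∈ Icc 0 t, ∀ i j, 0 ≤ M r i j) (i : ι) :
    ∃ φ : ι → ℝ → ℝ, (∀ j, ContinuousOn (φ j) (Icc 0 t)) ∧ (∀ j, ∀ r ∈ Icc 0 t, 0 ≤ φ j r) ∧
      ∀ s ∈ Icc 0 t, ∀ σ : ℝ → ι → ℝ, (∀ j, ContinuousOn (fun r => σ r j) (Icc 0 s)) →
      ∀ u : ι → ℝ → ℝ,
        (∀ j, ∀ r ∈ Icc 0 s, HasDerivAt (u j) (-(∑ k, M r j k * u k r + σ r j)) r) →
        u i 0 = ∑ j, φ j s * u j s + ∫ r in (0 : ℝ)..s, ∑ j, φ j r * σ r j := by
  have hrev : ∀ r ∈ Icc 0 t, t - r ∈ Icc 0 t := fun r hr => ⟨by linarith [hr.2], by linarith [hr.1]⟩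
  obtain ⟨v, vt, dv, v0⟩ := exists_lin ht (T := fun ρ j k => M (t - ρ) k j)
    (σ := fun _ _ => (0 : ℝ))
    (fun j k => (cM k j).comp (by fun_prop) hrev) (fun _ => continuousOn_const)
    (fun r hr j k => M0 _ (hrev r hr) k j) (fun _ _ _ => le_rfl)
    (u1 := fun j => if j = i then 1 else 0) (fun j => by split_ifs <;> norm_num)
  let φ : ι → ℝ → ℝ := fun j r => v j (t - r)
  have dφ : ∀ j, ∀ r ∈ Icc 0 t, HasDerivAt (φ j) (∑ k, φ k r * M r k j) r := by
    intro j r hr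
    have h1 := dv j (t - r) (hrev r hr)
    have h2 : HasDerivAt (fun r : ℝ => t - r) (-1) r := by
      simpa using (hasDerivAt_id r).const_sub t
    have h3 := h1.comp r h2
    refine h3.congr_deriv ?_
    have e : t - (t - r) = r := by ring
    simp only [e, add_zero, φ]
    rw [mul_neg_one, neg_neg]
    exact Finset.sum_congr rfl fun k _ => mul_comm _ _
  refine ⟨φ, fun j r hr => (dφ j r hr).continuousAt.continuousWithinAt,
    fun j r hr => v0 j _ (hrev r hr), ?_⟩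
  intro s hs σ cσ u du
  have m : ∀ r ∈ Icc 0 s, r ∈ Icc 0 t := fun r hr => ⟨hr.1, hr.2.trans hs.2⟩
  have dS : ∀ r ∈ Icc 0 s, HasDerivAt (fun r => ∑ j, φ j r * u j r)
      (-(∑ j, φ j r * σ r j)) r := by
    intro r hr
    refine (HasDerivAt.fun_sum fun j _ => (dφ j r (m r hr)).mul (du j r hr)).congr_deriv ?_
    rw [Finset.sum_add_distrib]
    have e1 : ∑ j, (∑ k, φ k r * M r k j) * u j r = ∑ j, φ j r * ∑ k, M r j k * u k r := by
      simp only [Finset.sum_mul, Finset.mul_sum]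
      rw [Finset.sum_comm]
      exact Finset.sum_congr rfl fun k _ => Finset.sum_congr rfl fun j _ => by ring
    rw [e1, ← Finset.sum_add_distrib, ← Finset.sum_neg_distrib]
    exact Finset.sum_congr rfl fun j _ => by ring
  have cφ' : ∀ j, ContinuousOn (φ j) (Icc 0 s) := fun j r hr =>
    (dφ j r (m r hr)).continuousAt.continuousWithinAt
  have cf : ContinuousOn (fun r => -(∑ j, φ j r * σ r j)) (Icc 0 s) :=
    (continuousOn_finsetSum _ fun j _ => (cφ' j).mul (cσ j)).neg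
  have hI : IntervalIntegrable (fun r => -(∑ j, φ j r * σ r j)) volume 0 s := by
    rw [← uIcc_of_le hs.1] at cf
    exact cf.intervalIntegrable
  have key := intervalIntegral.integral_eq_sub_of_hasDerivAt (a := 0) (b := s)
    (f := fun r => ∑ j, φ j r * u j r) (f' := fun r => -(∑ j, φ j r * σ r j))
    (fun r hr => by rw [uIcc_of_le hs.1] at hr; exact dS r hr) hI
  have e0 : ∑ j, φ j 0 * u j 0 = u i 0 := by
    simp only [φ, sub_zero, vt]
    simp
  rw [e0, intervalIntegral.integral_neg] at key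
  linarith

/-- **continuity in the horizon** of the value at `0` -/
theorem cont_zero {t : ℝ} (ht : t ∈ Icc (0 : ℝ) 1) {M : ℝ → ι → ι → ℝ}
    (cM : ∀ i j, ContinuousOn (fun r => M r i j) (Icc 0 t))
    (M0 : ∀ r ∈ Icc 0 t, ∀ i j, 0 ≤ M r i j) (i : ι) {σ : ℝ → ℝ → ι → ℝ} {u : ℝ → ι → ℝ → ℝ}
    {uT : ℝ → ι → ℝ}
    (cσ : ∀ j, ContinuousOn (fun p : ℝ × ℝ => σ p.1 p.2 j) {p | 0 ≤ p.2 ∧ p.2 ≤ p.1 ∧ p.1 ≤ t})
    (cu : ∀ j, ContinuousOn (fun s => uT s j) (Icc 0 t))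
    (du : ∀ s ∈ Icc 0 t, ∀ j, ∀ r ∈ Icc 0 s,
      HasDerivAt (u s j) (-(∑ k, M r j k * u s k r + σ s r j)) r)
    (eu : ∀ s ∈ Icc 0 t, ∀ j, u s j s = uT s j) :
    ContinuousOn (fun s => u s i 0) (Icc 0 t) := by
  obtain ⟨φ, cφ, _, hφ⟩ := adj_formula ht cM M0 i
  -- clamp to `[0, t]`
  let c : ℝ → ℝ := fun r => max 0 (min t r)
  have cc : Continuous c := by fun_prop
  have cm : ∀ r, c r ∈ Icc 0 t := fun r => ⟨le_max_left _ _, max_le ht.1 (min_le_left _ _)⟩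
  have cid : ∀ r ∈ Icc 0 t, c r = r := fun r hr => by
    simp only [c]; rw [min_eq_right hr.2, max_eq_right hr.1]
  have sl : ∀ s ∈ Icc 0 t, ∀ j, ContinuousOn (fun r => σ s r j) (Icc 0 s) := fun s hs j =>
    (cσ j).comp (f := fun r : ℝ => (s, r)) (by fun_prop) fun r hr => ⟨hr.1, hr.2, hs.2⟩
  let F : ℝ → ℝ → ℝ := fun s r => ∑ j, φ j (c r) * σ (c s) (c r) j
  have hF : ContinuousOn (fun p : ℝ × ℝ => F p.1 p.2) (Pool.Agent.RX.RCN.Wg 0 1) := by
    refine continuousOn_finsetSum _ fun j _ => ContinuousOn.mul ?_ ?_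
    · exact ((cφ j).comp_continuous (cc.comp continuous_snd) fun p => cm _).continuousOn
    · refine (cσ j).comp (f := fun p : ℝ × ℝ => (c p.1, c p.2)) (by fun_prop) ?_
      intro p hp
      refine ⟨(cm _).1, ?_, (cm _).2⟩
      simp only [c]
      exact max_le_max le_rfl (min_le_min le_rfl hp.2.2)
  have h1 := Pool.Agent.RX.RCN.wg_int le_rfl zero_le_one hF
  have h2 : ContinuousOn (fun s => ∑ j, φ j s * uT s j + ∫ r in (0 : ℝ)..s, F s r) (Icc 0 t) :=
    (continuousOn_finsetSum _ fun j _ => (cφ j).mul (cu j)).add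
      (h1.mono fun s hs => ⟨hs.1, hs.2.trans ht.2⟩)
  refine h2.congr fun s hs => ?_
  show u s i 0 = _
  rw [hφ s hs (σ s) (sl s hs) (u s) (du s hs)]
  congr 1
  · exact Finset.sum_congr rfl fun j _ => by rw [eu s hs j]
  · refine intervalIntegral.integral_congr fun r hr => ?_
    rw [uIcc_of_le hs.1] at hr
    have e1 : c r = r := cid r ⟨hr.1, hr.2.trans hs.2⟩
    have e2 : c s = s := cid s hs
    show ∑ j, φ j r * σ s r j = ∑ j, φ j (c r) * σ (c s) (c r) j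
    rw [e1, e2]

end Pool.Agent.RX.RCM
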