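import Pool.Agent.RX.RCM.Alg

/-! Level 1/2: correlation of two removals (MP_73ccd0_lc, route M). -/

namespace Pool.Agent.RX.RCM

open Set Finset

set_option linter.unusedSectionVars false

variable {V : Type*} [Fintype V] [DecidableEq V]

theorem bterm_low {A B C D P Q E W : ℝ} (hB : 0 < B) (hC : 0 < C) (hD : 0 < D)
    (hQ : 0 < Q) (hE : 1 ≤ E) (hv : A * B ≤ C * D) (hu : P * C ≤ E * (A * Q)) (hW : Q ≤ W * B) :
    -(W * (E - 1)) ≤ Q / B - P / D := by
  have h1 : P * B ≤ E * Q * D := by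
    have e1 : (P * B) * C ≤ (E * Q * D) * C := by
      calc (P * B) * C = (P * C) * B := by ring
        _ ≤ (E * (A * Q)) * B := mul_le_mul_of_nonneg_right hu hB.le
        _ = (E * Q) * (A * B) := by ring
        _ ≤ (E * Q) * (C * D) := mul_le_mul_of_nonneg_left hv (by positivity)
        _ = (E * Q * D) * C := by ring
    exact le_of_mul_le_mul_right e1 hC
  have h2 : P / D ≤ E * (Q / B) := by
    rw [div_le_iff₀ hD, mul_assoc, div_mul_eq_mul_div, mul_div_assoc', le_div_iff₀ hB]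
    linarith
  have h3 : Q / B ≤ W := by rw [div_le_iff₀ hB]; exact hW
  have h4 : (E - 1) * (Q / B) ≤ (E - 1) * W := mul_le_mul_of_nonneg_left h3 (by linarith)
  linarith

theorem bterm_up {A B C D P Q E W : ℝ} (hB : 0 < B) (hC : 0 < C) (hD : 0 < D) (_hP : 0 < P)
    (hE : 1 ≤ E) (hv : C * D ≤ A * B) (hQ0 : 0 < Q) (hu : A * Q ≤ E * (P * C)) (hW : Q ≤ W * B) :
    Q / B - P / D ≤ W * (1 - 1 / E) := by
  have hE0 : 0 < E := by linarith
  have h1 : D * Q ≤ E * P * B := by
    have e1 : (D * Q) * C ≤ (E * P * B) * C := by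
      calc (D * Q) * C = (C * D) * Q := by ring
        _ ≤ (A * B) * Q := mul_le_mul_of_nonneg_right hv hQ0.le
        _ = (A * Q) * B := by ring
        _ ≤ (E * (P * C)) * B := mul_le_mul_of_nonneg_right hu hB.le
        _ = (E * P * B) * C := by ring
    exact le_of_mul_le_mul_right e1 hC
  have h2 : (1 / E) * (Q / B) ≤ P / D := by
    rw [le_div_iff₀ hD, one_div_mul_eq_div, div_div, div_mul_eq_mul_div, div_le_iff₀ (by positivity)]
    linarith
  have h3 : Q / B ≤ W := by rw [div_le_iff₀ hB]; exact hW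
  have h5 : 0 ≤ 1 - 1 / E := by
    have : 1 / E ≤ 1 := by rw [div_le_iff₀ hE0]; linarith
    linarith
  have h4 : (1 - 1 / E) * (Q / B) ≤ (1 - 1 / E) * W := mul_le_mul_of_nonneg_left h3 h5
  linarith

/-- lower bound with the other factor as base -/
theorem bterm_lowW {A B C D P Q E W : ℝ} (hB : 0 < B) (hC : 0 < C) (hD : 0 < D)
    (hQ : 0 < Q) (hE : 1 ≤ E) (hv : A * B ≤ C * D) (hu : P * C ≤ E * (A * Q)) (hW : P ≤ W * D) :
    -(W * (1 - 1 / E)) ≤ Q / B - P / D := by
  have hE0 : 0 < E := by linarith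
  have h1 : P * B ≤ E * Q * D := by
    have e1 : (P * B) * C ≤ (E * Q * D) * C := by
      calc (P * B) * C = (P * C) * B := by ring
        _ ≤ (E * (A * Q)) * B := mul_le_mul_of_nonneg_right hu hB.le
        _ = (E * Q) * (A * B) := by ring
        _ ≤ (E * Q) * (C * D) := mul_le_mul_of_nonneg_left hv (by positivity)
        _ = (E * Q * D) * C := by ring
    exact le_of_mul_le_mul_right e1 hC
  have h2 : (1 / E) * (P / D) ≤ Q / B := by
    rw [le_div_iff₀ hB, one_div_mul_eq_div, div_div, div_mul_eq_mul_div, div_le_iff₀ (by positivity)]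
    linarith
  have h3 : P / D ≤ W := by rw [div_le_iff₀ hD]; exact hW
  have h5 : 0 ≤ 1 - 1 / E := by
    have : 1 / E ≤ 1 := by rw [div_le_iff₀ hE0]; linarith
    linarith
  have h4 : (1 - 1 / E) * (P / D) ≤ (1 - 1 / E) * W := mul_le_mul_of_nonneg_left h3 h5
  linarith

/-- level 0 bounds of the removal of a pair, on subsets of `U` -/
structure Lv0 (U : Finset V) (s : ℝ) (Φ : Finset V → ℝ → ℝ) (W T : ℝ → V → V → ℝ) : Prop where
  up : ∀ F ⊆ U, ∀ x ∈ F, ∀ y ∈ F, x ≠ y → ∀ r ∈ Icc 0 s,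
    Φ ((F.erase x).erase y) r ≤ W r x y * Φ F r
  low : ∀ F ⊆ U, ∀ x ∈ F, ∀ y ∈ F, x ≠ y → ∀ r ∈ Icc 0 s,
    T r x y * Φ F r ≤ Φ ((F.erase x).erase y) r
  W0 : ∀ r ∈ Icc 0 s, ∀ x y, 0 ≤ W r x y

/-- the two bounds for a pair of removals -/
def B12 (Φ : Finset V → ℝ → ℝ) (gp gm : V → V → ℝ → ℝ) (i j : V) (F : Finset V) (r : ℝ) : Prop :=
  Φ (insert j F) r * Φ (insert i F) r
      ≤ Real.exp (gm i j r) * (Φ F r * Φ (insert i (insert j F)) r) ∧
    Φ F r * Φ (insert i (insert j F)) r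
      ≤ Real.exp (gp i j r) * (Φ (insert j F) r * Φ (insert i F) r)

/-- the deviation of the removal factor of the pair `x y` under the removal of `j` -/
theorem pair_dev {Φ : Finset V → ℝ → ℝ} {gp gm : V → V → ℝ → ℝ}
    {j x y : V} {F : Finset V} {r : ℝ}
    (pos : ∀ F, 0 < Φ F r) (hx : x ∈ F) (hy : y ∈ F) (hxy : x ≠ y)
    (h1 : B12 Φ gp gm j x (F.erase x) r) (h2 : B12 Φ gp gm j y ((F.erase x).erase y) r) :
    Φ (insert j ((F.erase x).erase y)) r * Φ F r
        ≤ Real.exp (gm j x r + gm j y r) * (Φ ((F.erase x).erase y) r * Φ (insert j F) r) ∧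
      Φ ((F.erase x).erase y) r * Φ (insert j F) r
        ≤ Real.exp (gp j x r + gp j y r) * (Φ (insert j ((F.erase x).erase y)) r * Φ F r) := by
  have ex : insert x (F.erase x) = F := Finset.insert_erase hx
  have hy' : y ∈ F.erase x := Finset.mem_erase.2 ⟨fun e => hxy e.symm, hy⟩
  have ey : insert y ((F.erase x).erase y) = F.erase x := Finset.insert_erase hy'
  obtain ⟨a1, a2⟩ := h1
  obtain ⟨b1, b2⟩ := h2
  rw [ex] at a1 a2
  rw [ey] at b1 b2
  constructor
  · rw [Real.exp_add]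
    exact chain (P0 := Φ F r) (P1 := Φ (F.erase x) r) (P2 := Φ ((F.erase x).erase y) r)
      (J0 := Φ (insert j F) r) (J1 := Φ (insert j (F.erase x)) r)
      (J2 := Φ (insert j ((F.erase x).erase y)) r)
      (pos _) (pos _) (pos _) (pos _) (Real.exp_pos _) (Real.exp_pos _)
      (by linarith) (by linarith)
  · rw [Real.exp_add]
    exact chain (P0 := Φ (insert j F) r) (P1 := Φ (insert j (F.erase x)) r)
      (P2 := Φ (insert j ((F.erase x).erase y)) r)
      (J0 := Φ F r) (J1 := Φ (F.erase x) r) (J2 := Φ ((F.erase x).erase y) r)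
      (pos _) (pos _) (pos _) (pos _) (Real.exp_pos _) (Real.exp_pos _)
      (by linarith) (by linarith)

end Pool.Agent.RX.RCM
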