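import Pool.Agent.RX.RCM.MDer
import Pool.Agent.RX.RCM.Zero_2

/-! The (M) lemma: upper bound for `p_abc p_a / (p_ab p_ac)` (MP_73ccd0_lc, route M). -/

namespace Pool.Agent.RX.RCM

open Set Finset Pool.Agent.RX.RCRSHalf Pool.Agent.RX.RCG

set_option linter.unusedSectionVars false

/-- analytic part of the (M) lemma -/
theorem mlem_abs {ι : Type*} (S : Finset ι) {t : ℝ} (ht : 0 ≤ t) {C Z B A hab hbc Yc Ytc : ℝ → ℝ}
    {hb X Xt Y Yt nu nut : ι → ℝ → ℝ} {Λ Λ' q q' : ℝ → ℝ}
    (dC : ∀ s ∈ Icc 0 t, HasDerivAt C (-((hab s + hbc s) * C s) - ∑ d ∈ S, hb d s * Xt d s) s)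
    (dZ : ∀ s ∈ Icc 0 t, HasDerivAt Z
      (-(hab s * Z s) - (hbc s * Ytc s + ∑ d ∈ S, hb d s * Yt d s)) s)
    (dB : ∀ s ∈ Icc 0 t, HasDerivAt B (-∑ d ∈ S, hb d s * X d s) s)
    (dA : ∀ s ∈ Icc 0 t, HasDerivAt A (-(hbc s * Yc s + ∑ d ∈ S, hb d s * Y d s)) s)
    (C0 : ∀ s ∈ Icc 0 t, 0 < C s) (Z0 : ∀ s ∈ Icc 0 t, 0 < Z s)
    (hbc0 : ∀ s ∈ Icc 0 t, 0 ≤ hbc s) (hb0 : ∀ d, ∀ s ∈ Icc 0 t, 0 ≤ hb d s)
    (Y0 : ∀ d, ∀ s ∈ Icc 0 t, 0 ≤ Y d s) (Ytc1 : ∀ s ∈ Icc 0 t, Ytc s ≤ Z s)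
    (nu1 : ∀ d ∈ S, ∀ s ∈ Icc 0 t, nu d s ≤ 1)
    (hC : ∀ d ∈ S, ∀ s ∈ Icc 0 t, (1 - nu d s) * (Y d s * C s) ≤ X d s * Z s)
    (hCt : ∀ d ∈ S, ∀ s ∈ Icc 0 t, (1 - nut d s) * (Yt d s * C s) ≤ Xt d s * Z s)
    (dΛ : ∀ s ∈ Icc 0 t, HasDerivAt Λ (Λ' s) s) (dq : ∀ s ∈ Icc 0 t, HasDerivAt q (q' s) s)
    (oΛ : ∀ s ∈ Icc 0 t, ∑ d ∈ S, hb d s * (nut d s * Yt d s) ≤ Λ' s * Z s)
    (oq : ∀ s ∈ Icc 0 t, hbc s * Yc s
      + ∑ d ∈ S, hb d s * (Y d s * (1 - (1 - nu d s) * Real.exp (-(Λ t - Λ s)))) ≤ A 0 * q' s)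
    (eB : B t = C t) (eA : A t = Z t) :
    C t * A 0 * (1 - (q t - q 0)) ≤ Z t * B 0 := by
  have tt : t ∈ Icc 0 t := ⟨ht, le_rfl⟩
  -- monotonicity of the ratio
  have mono : ∀ s ∈ Icc 0 t, C t * Z s * Real.exp (-(Λ t - Λ s)) ≤ C s * Z t := by
    intro s hs
    have key := nonneg_of_forward (U := fun r => C s * Real.exp (-Λ s) / Z s
        - C r * Real.exp (-Λ r) / Z r)
      (U' := fun r => -((((-((hab r + hbc r) * C r) - ∑ d ∈ S, hb d r * Xt d r)
          * Real.exp (-Λ r) + C r * (Real.exp (-Λ r) * -Λ' r)) * Z r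
        - C r * Real.exp (-Λ r) * (-(hab r * Z r) - (hbc r * Ytc r + ∑ d ∈ S, hb d r * Yt d r)))
          / Z r ^ 2)) (a := s) (s := t) (fun r hr => by
        have hr' : r ∈ Icc 0 t := ⟨hs.1.trans hr.1, hr.2⟩
        have h1 := (dΛ r hr').neg.exp
        have h2 := ((dC r hr').mul h1).div (dZ r hr') (Z0 r hr').ne'
        exact h2.const_sub _) (by simp) (fun r hr _ => ?_) t ⟨hs.2, le_rfl⟩
    · have z1 := Z0 s hs
      have z2 := Z0 t tt
      have k2 : C t * Real.exp (-Λ t) / Z t ≤ C s * Real.exp (-Λ s) / Z s := by linarith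
      rw [div_le_div_iff₀ z2 z1] at k2
      have e1 : Real.exp (-(Λ t - Λ s)) = Real.exp (-Λ t) * Real.exp (Λ s) := by
        rw [← Real.exp_add]; congr 1; ring
      have e2 : Real.exp (-Λ s) * Real.exp (Λ s) = 1 := by rw [← Real.exp_add]; simp
      rw [e1]
      have k3 := mul_le_mul_of_nonneg_right k2 (Real.exp_pos (Λ s)).le
      calc C t * Z s * (Real.exp (-Λ t) * Real.exp (Λ s))
          = C t * Real.exp (-Λ t) * Z s * Real.exp (Λ s) := by ring
        _ ≤ C s * Real.exp (-Λ s) * Z t * Real.exp (Λ s) := k3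
        _ = C s * Z t * (Real.exp (-Λ s) * Real.exp (Λ s)) := by ring
        _ = C s * Z t := by rw [e2, mul_one]
    · have hr' : r ∈ Icc 0 t := ⟨hs.1.trans hr.1, hr.2⟩
      have zr := Z0 r hr'
      have cr := C0 r hr'
      rw [neg_nonneg]
      refine div_nonpos_of_nonpos_of_nonneg ?_ (sq_nonneg _)
      have s1 : C r * ∑ d ∈ S, hb d r * Yt d r
          ≤ (∑ d ∈ S, hb d r * Xt d r) * Z r + C r * ∑ d ∈ S, hb d r * (nut d r * Yt d r) := by
        rw [Finset.mul_sum, Finset.sum_mul, Finset.mul_sum, ← Finset.sum_add_distrib]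
        refine Finset.sum_le_sum fun d hd => ?_
        have := mul_le_mul_of_nonneg_left (hCt d hd r hr') (hb0 d r hr')
        nlinarith
      have s2 := mul_le_mul_of_nonneg_left (oΛ r hr') cr.le
      have s3 : hbc r * C r * Ytc r ≤ hbc r * C r * Z r :=
        mul_le_mul_of_nonneg_left (Ytc1 r hr') (mul_nonneg (hbc0 r hr') cr.le)
      have e := (Real.exp_pos (-Λ r)).le
      have : ((-((hab r + hbc r) * C r) - ∑ d ∈ S, hb d r * Xt d r)
          * Real.exp (-Λ r) + C r * (Real.exp (-Λ r) * -Λ' r)) * Z r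
        - C r * Real.exp (-Λ r) * (-(hab r * Z r) - (hbc r * Ytc r + ∑ d ∈ S, hb d r * Yt d r))
        = Real.exp (-Λ r) * (-(hbc r * C r * Z r) + hbc r * C r * Ytc r
          - (∑ d ∈ S, hb d r * Xt d r) * Z r + C r * ∑ d ∈ S, hb d r * Yt d r
          - C r * (Λ' r * Z r)) := by ring
      rw [this]
      refine mul_nonpos_of_nonneg_of_nonpos e ?_
      linarith
  have zt := Z0 t tt
  have ct := C0 t tt
  -- the main function
  have main := nonneg_of_forward (U := fun s => (Z t * B 0 - C t * A 0 - C t * A 0 * q 0)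
      - (Z t * B s - C t * A s - C t * A 0 * q s))
    (U' := fun s => -((Z t * (-∑ d ∈ S, hb d s * X d s)
      - C t * (-(hbc s * Yc s + ∑ d ∈ S, hb d s * Y d s))) - C t * A 0 * q' s))
    (a := 0) (s := t) (fun s hs => by
      have h1 := (((dB s hs).const_mul (Z t)).sub ((dA s hs).const_mul (C t))).sub
        ((dq s hs).const_mul (C t * A 0))
      exact h1.const_sub _) (by simp) (fun s hs _ => ?_) t tt
  · rw [eB, eA] at main
    nlinarith
  · have cs := C0 s hs
    have zs := Z0 s hs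
    have o := mul_le_mul_of_nonneg_left (oq s hs) ct.le
    have s1 : C t * ∑ d ∈ S, hb d s * Y d s - Z t * ∑ d ∈ S, hb d s * X d s
        ≤ C t * ∑ d ∈ S, hb d s * (Y d s * (1 - (1 - nu d s) * Real.exp (-(Λ t - Λ s)))) := by
      rw [Finset.mul_sum, Finset.mul_sum, Finset.mul_sum, ← Finset.sum_sub_distrib]
      refine Finset.sum_le_sum fun d hd => ?_
      have h1 := hC d hd s hs
      have h2 := mono s hs
      have n0 : 0 ≤ 1 - nu d s := by linarith [nu1 d hd s hs]
      have h3 : C t * Real.exp (-(Λ t - Λ s)) * ((1 - nu d s) * Y d s) * Z s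
          ≤ Z t * X d s * Z s := by
        have h4 := mul_le_mul_of_nonneg_right h2 (mul_nonneg n0 (Y0 d s hs))
        have h5 := mul_le_mul_of_nonneg_left h1 zt.le
        nlinarith
      have h6 := le_of_mul_le_mul_right h3 zs
      have h7 := mul_le_mul_of_nonneg_left h6 (hb0 d s hs)
      nlinarith
    nlinarith

variable {V : Type*} [Fintype V] [DecidableEq V]
variable {h : ℝ → V → V → ℝ} {H : V → V → ℝ → ℝ}

/-- `Z(s)`: `a, b` free at time `s`, `b` deleted, `a` free at `t` -/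
noncomputable def eZ (h : ℝ → V → V → ℝ) (a b : V) (Ra : Finset V → ℝ → ℝ) (s : ℝ) : ℝ :=
  ex (lw h ∅ s) {a, b} (fun F => Ra F s)

/-- `Z_c(s)`: `a, b, c` free at time `s`, `b` deleted, `a, c` free at `t` -/
noncomputable def eZc (h : ℝ → V → V → ℝ) (a b c : V) (Rac : Finset V → ℝ → ℝ) (s : ℝ) : ℝ :=
  ex (lw h ∅ s) (insert c {a, b}) (fun F => Rac F s)

/-- `Y_d(s)`: `a, b, d` free at time `s`, `b, d` deleted, `a` free at `t` -/
noncomputable def eY (h : ℝ → V → V → ℝ) (a b d : V) (Ra : Finset V → ℝ → ℝ) (s : ℝ) : ℝ :=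
  ex (lw h ∅ s) (insert d {a, b}) (fun F => Ra F s)

/-- `X_d(s)`: `a, b, c, d` free at time `s`, `b, d` deleted, `a, c` free at `t` -/
noncomputable def eX (h : ℝ → V → V → ℝ) (a b c d : V) (Rac : Finset V → ℝ → ℝ) (s : ℝ) : ℝ :=
  ex (lw h ∅ s) ({c, d} ∪ {a, b} : Finset V) (fun F => Rac F s)

/-- as `Y_d`, but `d` stays -/
noncomputable def eYt (h : ℝ → V → V → ℝ) (a b d : V) (Ra : Finset V → ℝ → ℝ) (s : ℝ) : ℝ :=
  ex (lw h ∅ s) (insert d {a, b}) (fun F => Ra (insert d F) s)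

/-- as `X_d`, but `d` stays -/
noncomputable def eXt (h : ℝ → V → V → ℝ) (a b c d : V) (Rac : Finset V → ℝ → ℝ) (s : ℝ) : ℝ :=
  ex (lw h ∅ s) ({c, d} ∪ {a, b} : Finset V) (fun F => Rac (insert d F) s)

theorem ex_zero_time (hh : Haz h H) (W : Finset V) (ψ : Finset V → ℝ) :
    ex (lw h ∅ 0) W ψ = ψ Wᶜ := by
  unfold ex
  have e : ∀ F, lw h ∅ 0 F = pt (∅ : Finset V)ᶜ F := fun F => by rw [(hh.lw _).start]
  simp only [e, pt, ite_mul, one_mul, zero_mul, Finset.sum_ite_eq', Finset.mem_univ, if_true]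
  rw [Finset.compl_empty, if_pos (Finset.subset_univ W), Finset.compl_eq_univ_sdiff]

theorem ex_pos (hh : Haz h H) {W : Finset V} {s : ℝ} (hs : s ∈ Icc (0 : ℝ) 1)
    {ψ : Finset V → ℝ} (hψ : ∀ F, 0 < ψ F) : 0 < ex (lw h ∅ s) W ψ := by
  obtain ⟨Φ, hΦ, hΦs⟩ := exists_wd hh W hs ψ hψ
  have d0 := duality2 hh (hh.lw ∅) (W := W) (by rw [Finset.compl_empty]; exact Finset.subset_univ W)
    hs hΦ.ev
  simp only [hΦs] at d0
  rw [d0]
  exact mul_pos (Real.exp_pos _) (hΦ.pos _ 0 ⟨le_rfl, hs.1⟩)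

/-- keeping one more vertex free -/
theorem eYt_le (hh : Haz h H) {a b c : V} (hac : a ≠ c) (hbc : b ≠ c) {t : ℝ} (ht : t ≤ 1)
    {κ : ℝ → V → ℝ} {Ra : Finset V → ℝ → ℝ} (hRa : Wd h κ t Ra) {s : ℝ} (hs : s ∈ Icc 0 t) :
    eYt h a b c Ra s ≤ eZ h a b Ra s := by
  unfold eYt eZ ex
  refine Finset.sum_le_sum fun F _ => ?_
  refine mul_le_mul_of_nonneg_left ?_ ((hh.lw ∅).nonneg F s ⟨hs.1, hs.2.trans ht⟩)
  by_cases hF : insert c ({a, b} : Finset V) ⊆ F
  · have hF2 : ({a, b} : Finset V) ⊆ F := (Finset.subset_insert _ _).trans hF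
    have hc : c ∈ F := hF (Finset.mem_insert_self _ _)
    rw [if_pos hF, if_pos hF2]
    refine le_of_eq ?_
    beta_reduce
    congr 1
    ext z
    simp only [Finset.mem_insert, Finset.mem_sdiff, Finset.mem_singleton]
    constructor
    · rintro (rfl | hz)
      · exact ⟨hc, fun h => h.elim (fun e => hac e.symm) fun e => hbc e.symm⟩
      · tauto
    · rintro ⟨h1, h2⟩
      by_cases hz : z = c
      · exact Or.inl hz
      · exact Or.inr ⟨h1, by tauto⟩
  · rw [if_neg hF]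
    split_ifs
    · exact (hRa.pos _ s hs).le
    · exact le_rfl

/-- **the (M) lemma** -/
theorem mlem (hh : Haz h H) {a b c : V} (hab : a ≠ b) (hac : a ≠ c) (hbc : b ≠ c) {t : ℝ}
    (ht : t ∈ Icc (0 : ℝ) 1) {Ra Rac : Finset V → ℝ → ℝ}
    (hRa : Wd h (fun r v => h r a v) t Ra) (a1 : ∀ F, Ra F t = 1)
    (hRac : Wd h (fun r v => h r a v + h r c v) t Rac) (c1 : ∀ F, Rac F t = 1)
    {nu nut : V → ℝ → ℝ}
    (nu1 : ∀ d ∈ ({a, b, c} : Finset V)ᶜ, ∀ s ∈ Icc 0 t, nu d s ≤ 1)
    (hC : ∀ d ∈ ({a, b, c} : Finset V)ᶜ, ∀ s ∈ Icc 0 t,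
      (1 - nu d s) * (eY h a b d Ra s * eZc h a b c Rac s) ≤ eX h a b c d Rac s * eZ h a b Ra s)
    (hCt : ∀ d ∈ ({a, b, c} : Finset V)ᶜ, ∀ s ∈ Icc 0 t,
      (1 - nut d s) * (eYt h a b d Ra s * eZc h a b c Rac s) ≤ eXt h a b c d Rac s * eZ h a b Ra s)
    {Λ Λ' q q' : ℝ → ℝ}
    (dΛ : ∀ s ∈ Icc 0 t, HasDerivAt Λ (Λ' s) s) (dq : ∀ s ∈ Icc 0 t, HasDerivAt q (q' s) s)
    (oΛ : ∀ s ∈ Icc 0 t, ∑ d ∈ ({a, b, c} : Finset V)ᶜ, h s b d * (nut d s * eYt h a b d Ra s)
      ≤ Λ' s * eZ h a b Ra s)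
    (oq : ∀ s ∈ Icc 0 t, h s b c * eY h a b c Ra s
      + ∑ d ∈ ({a, b, c} : Finset V)ᶜ, h s b d
        * (eY h a b d Ra s * (1 - (1 - nu d s) * Real.exp (-(Λ t - Λ s))))
      ≤ pr (lw h ∅ t) {a} * q' s) :
    pr (lw h ∅ t) {a, b, c} * pr (lw h ∅ t) {a} * (1 - (q t - q 0))
      ≤ pr (lw h ∅ t) {a, b} * pr (lw h ∅ t) {a, c} := by
  have hm : ∀ s ∈ Icc 0 t, s ∈ Icc (0 : ℝ) 1 := fun s hs => ⟨hs.1, hs.2.trans ht.2⟩
  have sW : (insert c ({a, b} : Finset V))ᶜ = ({a, b, c} : Finset V)ᶜ := by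
    congr 1; ext z; simp only [Finset.mem_insert, Finset.mem_singleton]; tauto
  have sW2 : (insert b ({a, c} : Finset V))ᶜ = ({a, b, c} : Finset V)ᶜ := by
    congr 1; ext z; simp only [Finset.mem_insert, Finset.mem_singleton]; tauto
  have cU : c ∈ ({a, b} : Finset V)ᶜ := by
    rw [Finset.mem_compl]; simp only [Finset.mem_insert, Finset.mem_singleton, not_or]
    exact ⟨fun e => hac e.symm, fun e => hbc e.symm⟩
  have sU : ({a, b} : Finset V)ᶜ = insert c ({a, b, c} : Finset V)ᶜ := by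
    ext z; simp only [Finset.mem_compl, Finset.mem_insert, Finset.mem_singleton]
    constructor
    · intro hz; by_cases h1 : z = c
      · exact Or.inl h1
      · exact Or.inr (by tauto)
    · rintro (rfl | hz)
      · rintro (e | e)
        · exact hac e.symm
        · exact hbc e.symm
      · tauto
  have cS : c ∉ ({a, b, c} : Finset V)ᶜ := by
    rw [Finset.mem_compl, not_not]; simp
  have s4 : ∀ d : V, insert d (insert c ({a, b} : Finset V)) = ({c, d} ∪ {a, b} : Finset V) := by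
    intro d; ext z
    simp only [Finset.mem_union, Finset.mem_insert, Finset.mem_singleton]; tauto
  have s4' : ∀ d : V, insert d (insert b ({a, c} : Finset V)) = ({c, d} ∪ {a, b} : Finset V) := by
    intro d; ext z
    simp only [Finset.mem_union, Finset.mem_insert, Finset.mem_singleton]; tauto
  have ba : insert b ({a} : Finset V) = {a, b} := by
    ext z; simp only [Finset.mem_insert, Finset.mem_singleton]; tauto
  have hca : c ∉ ({a, b} : Finset V) := Finset.mem_compl.1 cU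
  have hbac : b ∉ ({a, c} : Finset V) := by
    simp only [Finset.mem_insert, Finset.mem_singleton, not_or]; exact ⟨fun e => hab e.symm, hbc⟩
  -- the exponential factor
  set E : ℝ → ℝ := fun s => Real.exp (-(H a c t - H a c s)) with hE
  have dE : ∀ s, HasDerivAt E (E s * h s a c) s := fun s => by
    have h1 := ((hh.Hd a c s).const_sub (H a c t)).neg.exp
    simpa [hE] using h1
  have E0 : ∀ s, 0 < E s := fun s => Real.exp_pos _
  have hev : IsEv h (fun r v => ∑ w ∈ ({a} : Finset V), h r w v) (fun _ => 0) (fun _ => 0) t Ra := by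
    have := hRa.ev; simpa using this
  have hev2 : IsEv h (fun r v => ∑ w ∈ ({a, c} : Finset V), h r w v) (fun _ => 0) (fun _ => 0) t
      Rac := by
    have e : (fun (r : ℝ) (v : V) => ∑ w ∈ ({a, c} : Finset V), h r w v)
        = fun r v => h r a v + h r c v := by
      funext r v; exact Finset.sum_pair hac
    rw [e]; exact hRac.ev
  set Bf : ℝ → ℝ := fun s => ex (lw h ∅ s) (insert b {a}) (fun F => Ra (insert b F) s) with hBf
  set Bc : ℝ → ℝ := fun s => ex (lw h ∅ s) (insert b {a, c}) (fun F => Rac (insert b F) s) with hBc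
  have vA : Bf 0 = pr (lw h ∅ t) {a} := by
    have d0 := duality2 hh (hh.lw ∅) (W := {a})
      (by rw [Finset.compl_empty]; exact Finset.subset_univ _) ht hev
    have e1 : ex (lw h ∅ t) {a} (fun F => Ra F t) = pr (lw h ∅ t) {a} := by
      rw [← ex_one]; congr 1; funext F; exact a1 F
    have e3 : HW H {a} t = 0 := by unfold HW; simp [hh.Hdiag]
    rw [e1, e3, neg_zero, Real.exp_zero, one_mul] at d0
    rw [d0, hBf]
    simp only
    rw [ex_zero_time hh]
    congr 1
    ext z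
    simp only [Finset.mem_insert, Finset.mem_compl, Finset.mem_sdiff, Finset.mem_singleton,
      Finset.notMem_empty, not_false_eq_true, true_and]
    constructor
    · rintro (rfl | hz)
      · exact fun e => hab e.symm
      · tauto
    · intro hz
      by_cases hzb : z = b
      · exact Or.inl hzb
      · exact Or.inr (by tauto)
  have key := mlem_abs ({a, b, c} : Finset V)ᶜ ht.1 (C := fun s => E s * eZc h a b c Rac s)
    (Z := eZ h a b Ra) (B := fun s => E s * Bc s) (A := Bf) (hab := fun s => h s a b)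
    (hbc := fun s => h s b c) (Yc := eY h a b c Ra) (Ytc := eYt h a b c Ra)
    (hb := fun d s => h s b d) (X := fun d s => E s * eX h a b c d Rac s)
    (Xt := fun d s => E s * eXt h a b c d Rac s) (Y := fun d s => eY h a b d Ra s)
    (Yt := fun d s => eYt h a b d Ra s) (nu := nu) (nut := nut) (Λ := Λ) (Λ' := Λ') (q := q)
    (q' := q') ?_ ?_ ?_ ?_ ?_ ?_ ?_ ?_ ?_
    (fun s hs => eYt_le hh hac hbc ht.2 hRa hs) nu1 ?_ ?_ dΛ dq oΛ ?_ ?_ ?_
  · -- conclusion
    have vB : E 0 * Bc 0 = pr (lw h ∅ t) {a, c} := by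
      have d0 := duality2 hh (hh.lw ∅) (W := {a, c})
        (by rw [Finset.compl_empty]; exact Finset.subset_univ _) ht hev2
      have e1 : ex (lw h ∅ t) {a, c} (fun F => Rac F t) = pr (lw h ∅ t) {a, c} := by
        rw [← ex_one]; congr 1; funext F; exact c1 F
      have e3 : HW H {a, c} t = H a c t := by
        unfold HW
        rw [Finset.sum_pair hac, Finset.sum_pair hac, Finset.sum_pair hac, hh.Hdiag, hh.Hdiag,
          hh.Hsymm c a]
        ring
      rw [e1, e3] at d0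
      rw [d0]
      simp only [hE, hBc]
      rw [ex_zero_time hh, hh.H0, sub_zero]
      congr 2
      ext z
      simp only [Finset.mem_insert, Finset.mem_compl, Finset.mem_sdiff, Finset.mem_singleton,
        Finset.notMem_empty, not_false_eq_true, true_and]
      constructor
      · rintro (rfl | hz)
        · rintro (e | e)
          · exact hab e.symm
          · exact hbc e
        · tauto
      · intro hz
        by_cases hzb : z = b
        · exact Or.inl hzb
        · exact Or.inr (by tauto)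
    have vC : E t * eZc h a b c Rac t = pr (lw h ∅ t) {a, b, c} := by
      have : E t = 1 := by simp [hE]
      rw [this, one_mul]
      unfold eZc
      have e : (insert c ({a, b} : Finset V)) = ({a, b, c} : Finset V) := by
        ext z; simp only [Finset.mem_insert, Finset.mem_singleton]; tauto
      rw [← ex_one, e]; congr 1; funext F; exact c1 F
    have vZ : eZ h a b Ra t = pr (lw h ∅ t) {a, b} := by
      unfold eZ
      rw [← ex_one]; congr 1; funext F; exact a1 F
    rw [vC, vA, vZ, vB] at key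
    exact key
  · -- dC
    intro s hs
    have h1 := (dE s).mul (ex_deriv hh ∅ (insert c {a, b}) ht.2 hRac.ev hs)
    refine h1.congr_deriv ?_
    rw [sW]
    have e1 : (1 / 2 : ℝ) * ∑ x ∈ insert c ({a, b} : Finset V), ∑ y ∈ insert c ({a, b} : Finset V),
        h s x y = h s a b + h s b c + h s a c := by
      rw [Finset.sum_insert hca, Finset.sum_pair hab, Finset.sum_insert hca, Finset.sum_pair hab,
        Finset.sum_insert hca, Finset.sum_pair hab, Finset.sum_insert hca, Finset.sum_pair hab,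
        hh.diag, hh.diag, hh.diag, hh.symm s c a, hh.symm s c b, hh.symm s b a]
      ring
    rw [e1]
    have e2 : ∑ v ∈ ({a, b, c} : Finset V)ᶜ, (∑ w ∈ insert c ({a, b} : Finset V), h s w v
          - (h s a v + h s c v))
          * ex (lw h ∅ s) (insert v (insert c {a, b})) (fun F => Rac (insert v F) s)
        = ∑ v ∈ ({a, b, c} : Finset V)ᶜ, h s b v * eXt h a b c v Rac s := by
      refine Finset.sum_congr rfl fun v _ => ?_
      rw [Finset.sum_insert hca, Finset.sum_pair hab, s4 v]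
      unfold eXt
      ring
    rw [e2]
    have e3 : ∑ d ∈ ({a, b, c} : Finset V)ᶜ, h s b d * (E s * eXt h a b c d Rac s)
        = E s * ∑ v ∈ ({a, b, c} : Finset V)ᶜ, h s b v * eXt h a b c v Rac s := by
      rw [Finset.mul_sum]; exact Finset.sum_congr rfl fun v _ => by ring
    rw [e3]
    unfold eZc
    ring
  · -- dZ
    intro s hs
    have h1 := ex_deriv hh ∅ {a, b} ht.2 hRa.ev hs
    refine h1.congr_deriv ?_
    have e1 : (1 / 2 : ℝ) * ∑ x ∈ ({a, b} : Finset V), ∑ y ∈ ({a, b} : Finset V),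
        h s x y = h s a b := by
      rw [Finset.sum_pair hab, Finset.sum_pair hab, Finset.sum_pair hab, hh.diag, hh.diag,
        hh.symm s b a]
      ring
    rw [e1, sU, Finset.sum_insert cS]
    have e2 : ∀ v, (∑ w ∈ ({a, b} : Finset V), h s w v - h s a v)
          * ex (lw h ∅ s) (insert v {a, b}) (fun F => Ra (insert v F) s)
        = h s b v * eYt h a b v Ra s := by
      intro v
      rw [Finset.sum_pair hab]
      unfold eYt
      ring
    rw [e2, Finset.sum_congr rfl fun v _ => e2 v]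
    rfl
  · -- dB
    intro s hs
    have h1 := (dE s).mul (ex_deriv_rel hh ∅ {a, c} hbac ht.2 hev2 hs)
    refine h1.congr_deriv ?_
    have e1 : (1 / 2 : ℝ) * ∑ x ∈ ({a, c} : Finset V), ∑ y ∈ ({a, c} : Finset V),
        h s x y = h s a c := by
      rw [Finset.sum_pair hac, Finset.sum_pair hac, Finset.sum_pair hac, hh.diag, hh.diag,
        hh.symm s c a]
      ring
    rw [e1, sW2]
    have e3 : ∑ d ∈ ({a, b, c} : Finset V)ᶜ, h s b d * (E s * eX h a b c d Rac s)
        = E s * ∑ v ∈ ({a, b, c} : Finset V)ᶜ, h s b v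
          * ex (lw h ∅ s) (insert v (insert b {a, c})) (fun F => Rac F s) := by
      rw [Finset.mul_sum]
      refine Finset.sum_congr rfl fun v _ => ?_
      rw [s4' v]
      unfold eX
      ring
    rw [e3]
    ring
  · -- dA
    intro s hs
    have h1 := ex_deriv_rel hh ∅ {a} (b := b) (by
      rw [Finset.mem_singleton]; exact fun e => hab e.symm) ht.2 hev hs
    refine h1.congr_deriv ?_
    rw [ba, sU, Finset.sum_insert cS]
    simp only [Finset.sum_singleton, hh.diag, mul_zero, zero_mul, neg_zero, zero_sub]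
    rfl
  · intro s hs
    exact mul_pos (E0 s) (ex_pos hh (hm s hs) fun F => hRac.pos F s hs)
  · intro s hs
    exact ex_pos hh (hm s hs) fun F => hRa.pos F s hs
  · intro s _; exact hh.nonneg s b c
  · intro d s _; exact hh.nonneg s b d
  · intro d s hs
    exact (ex_pos hh (hm s hs) fun F => hRa.pos F s hs).le
  · intro d hd s hs
    have := mul_le_mul_of_nonneg_left (hC d hd s hs) (E0 s).le
    nlinarith
  · intro d hd s hs
    have := mul_le_mul_of_nonneg_left (hCt d hd s hs) (E0 s).le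
    nlinarith
  · intro s hs
    rw [vA]
    exact oq s hs
  · -- eB
    simp only [hBc]
    unfold eZc
    have e : (insert c ({a, b} : Finset V)) = insert b ({a, c} : Finset V) := by
      ext z; simp only [Finset.mem_insert, Finset.mem_singleton]; tauto
    rw [e]
    congr 2
    funext F
    rw [c1, c1]
  · -- eA
    simp only [hBf]
    unfold eZ
    rw [ba]
    congr 1
    funext F
    rw [a1, a1]

end Pool.Agent.RX.RCM
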