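import Pool.Agent.RX.RCM.Adj
import Pool.Agent.RX.RCM.Kt

/-! Continuity in the horizon of the tails at `0` and of level 2 (MP_73ccd0_lc, route M). -/

namespace Pool.Agent.RX.RCM

open Set Finset MeasureTheory Pool.Agent.RX.RCRSHalf Pool.Agent.RX.RCG

set_option linter.unusedSectionVars false

variable {V : Type*} [Fintype V] [DecidableEq V]

/-- the pair operator is symmetric -/
theorem Qo_swap (X : Finset V) {T : V → V → ℝ} (Ts : ∀ x y, T x y = T y x) (g a : V → ℝ) :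
    Qo X T g a = Qo X T a g := by
  have h1 : ∀ g a : V → ℝ, Qo X T g a = ∑ x ∈ X, ∑ y ∈ X, T x y * (g x * a x)
      + ∑ x ∈ X, ∑ y ∈ X, T x y * (g x * a y) := fun g a => by
    unfold Qo
    rw [← Finset.sum_add_distrib]
    refine Finset.sum_congr rfl fun x _ => ?_
    rw [← Finset.sum_add_distrib]
    exact Finset.sum_congr rfl fun y _ => by ring
  rw [h1, h1]
  congr 1
  · exact Finset.sum_congr rfl fun x _ => Finset.sum_congr rfl fun y _ => by ring
  · rw [Finset.sum_comm]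
    exact Finset.sum_congr rfl fun x _ => Finset.sum_congr rfl fun y _ => by rw [Ts y x]; ring

theorem qc_cont {X : Finset V} {t : ℝ} {T : ℝ → V → V → ℝ} {g : V → ℝ → ℝ}
    (cT : ∀ i j, ContinuousOn (fun r => T r i j) (Icc 0 t))
    (cg : ∀ i, ContinuousOn (g i) (Icc 0 t)) (z : V) :
    ContinuousOn (fun r => qc X (T r) (fun x => g x r) z) (Icc 0 t) := by
  unfold qc
  exact ((cg z).mul (continuousOn_finsetSum _ fun y _ => cT z y)).add
    (continuousOn_finsetSum _ fun x _ => (cT x z).mul (cg x))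

/-- the triangle of the pairs (horizon, time) -/
def Tg (τ : ℝ) : Set (ℝ × ℝ) := {p | 0 ≤ p.2 ∧ p.2 ≤ p.1 ∧ p.1 ≤ τ}

theorem Tg_slice {τ : ℝ} {f : ℝ → ℝ → ℝ}
    (hf : ContinuousOn (fun p : ℝ × ℝ => f p.1 p.2) (Tg τ)) {s : ℝ} (hs : s ∈ Icc 0 τ) :
    ContinuousOn (f s) (Icc 0 s) :=
  hf.comp (f := fun r : ℝ => (s, r)) (by fun_prop) fun r hr => ⟨hr.1, hr.2, hs.2⟩

theorem Tg_snd {τ : ℝ} {f : ℝ → ℝ} (hf : ContinuousOn f (Icc 0 τ)) :
    ContinuousOn (fun p : ℝ × ℝ => f p.2) (Tg τ) :=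
  hf.comp continuousOn_snd fun _ hp => ⟨hp.1, hp.2.1.trans hp.2.2⟩

/-- **continuity in the horizon** of the tails at `0` and of the second level -/
theorem cont_tail {X X' : Finset V} (hX : X' ⊆ X) {τ : ℝ} (hτ : τ ∈ Icc (0 : ℝ) 1)
    {T : ℝ → V → V → ℝ} {D n1 p n : ℝ → V → ℝ → ℝ} {gp gs : V → V → ℝ → ℝ} {c1 c4 : V → ℝ → ℝ}
    {pT nT w1 w2 : V → ℝ → ℝ}
    (hl : ∀ s ∈ Icc 0 τ, Tl X s T (D s) (n1 s) gp gs c1 c4 (p s) (n s))
    (pe : ∀ s ∈ Icc 0 τ, ∀ e ∈ X, p s e s = pT e s)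
    (ne : ∀ s ∈ Icc 0 τ, ∀ e ∈ X, n s e s = nT e s)
    (cT : ∀ i j, ContinuousOn (fun r => T r i j) (Icc 0 τ))
    (cD : ∀ e, ContinuousOn (fun p : ℝ × ℝ => D p.1 e p.2) (Tg τ))
    (cn : ∀ e, ContinuousOn (fun p : ℝ × ℝ => n1 p.1 e p.2) (Tg τ))
    (cgp : ∀ i j, ContinuousOn (gp i j) (Icc 0 τ)) (cgs : ∀ i j, ContinuousOn (gs i j) (Icc 0 τ))
    (cc1 : ∀ i, ContinuousOn (c1 i) (Icc 0 τ)) (cc4 : ∀ i, ContinuousOn (c4 i) (Icc 0 τ))
    (cpT : ∀ e, ContinuousOn (pT e) (Icc 0 τ)) (cnT : ∀ e, ContinuousOn (nT e) (Icc 0 τ))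
    (cw1 : ∀ e, ContinuousOn (w1 e) (Icc 0 τ)) (cw2 : ∀ e, ContinuousOn (w2 e) (Icc 0 τ))
    (T0 : ∀ r ∈ Icc 0 τ, ∀ i j, 0 ≤ T r i j)
    (gp0 : ∀ i j, ∀ r ∈ Icc 0 τ, 0 ≤ gp i j r) (gs0 : ∀ i j, ∀ r ∈ Icc 0 τ, 0 ≤ gs i j r)
    (c10 : ∀ i, ∀ r ∈ Icc 0 τ, 0 ≤ c1 i r) (c40 : ∀ i, ∀ r ∈ Icc 0 τ, 0 ≤ c4 i r)
    (w10 : ∀ e, ∀ r ∈ Icc 0 τ, 0 ≤ w1 e r) (w20 : ∀ e, ∀ r ∈ Icc 0 τ, 0 ≤ w2 e r) :
    (∀ e ∈ X, ContinuousOn (fun s => p s e 0) (Icc 0 τ)) ∧
    (∀ e ∈ X, ContinuousOn (fun s => n s e 0) (Icc 0 τ)) ∧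
    ContinuousOn (fun s => ∫ r in (0 : ℝ)..s,
      (∑ z ∈ X', w1 z r * (D s z r + c4 z r * p s z r)
        + ∑ z ∈ X', w2 z r * (n1 s z r + n s z r))) (Icc 0 τ) := by
  have ms : ∀ {s : ℝ}, s ∈ Icc 0 τ → Icc 0 s ⊆ Icc 0 τ := fun hs => Icc_subset_Icc_right hs.2
  -- the second level as a function
  have hk : ∀ s : ℝ, ∃ k : ℝ → ℝ, s ∈ Icc 0 τ → (∀ r ∈ Icc 0 s, HasDerivAt k
      (-(∑ z ∈ X', w1 z r * (D s z r + c4 z r * p s z r)
        + ∑ z ∈ X', w2 z r * (n1 s z r + n s z r))) r) ∧ k s = 0 ∧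
      ∀ r ∈ Icc 0 s, k r = 0 + ∫ ρ in r..s,
        (∑ z ∈ X', w1 z ρ * (D s z ρ + c4 z ρ * p s z ρ)
        + ∑ z ∈ X', w2 z ρ * (n1 s z ρ + n s z ρ)) := by
    intro s
    by_cases hs : s ∈ Icc 0 τ
    · obtain ⟨k, h1, h2, h3⟩ := exists_back hs.1
        (f := fun r => ∑ z ∈ X', w1 z r * (D s z r + c4 z r * p s z r)
          + ∑ z ∈ X', w2 z r * (n1 s z r + n s z r)) ((continuousOn_finsetSum _ fun z hz =>
          ((cw1 z).mono (ms hs)).mul ((Tg_slice (f := fun s r => D s z r)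
            (cD z) hs).add (((cc4 z).mono (ms hs)).mul fun r hr =>
            ((hl s hs).dp z (hX hz) r hr).continuousAt.continuousWithinAt))).add
          (continuousOn_finsetSum _ fun z hz =>
          ((cw2 z).mono (ms hs)).mul ((Tg_slice (f := fun s r => n1 s z r) (cn z) hs).add fun r hr =>
            ((hl s hs).dn z (hX hz) r hr).continuousAt.continuousWithinAt))) 0
      exact ⟨k, fun _ => ⟨h1, h2, h3⟩⟩
    · exact ⟨fun _ => 0, fun h => absurd h hs⟩
  choose k hk using hk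
  let ι := {e // e ∈ X} ⊕ {e // e ∈ X} ⊕ Unit
  let ind : V → ℝ := fun z => if z ∈ X' then 1 else 0
  have ind0 : ∀ z, 0 ≤ ind z := fun z => by simp only [ind]; split_ifs <;> norm_num
  let M : ℝ → ι → ι → ℝ := fun r i j => match i, j with
    | .inl e, .inl z => c4 z r * qc X (T r) (fun x => gp e x r) z
    | .inl e, .inr (.inl z) => T r e z + qc X (T r) (fun x => gs e x r) z
    | .inl _, .inr (.inr _) => 0
    | .inr (.inl e), .inl z => c1 z r * T r e z + c4 z r * qc X (T r) (fun x => gs e x r) z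
    | .inr (.inl e), .inr (.inl z) => qc X (T r) (fun x => gp e x r) z
    | .inr (.inl _), .inr (.inr _) => 0
    | .inr (.inr _), .inl z => ind z * (w1 z r * c4 z r)
    | .inr (.inr _), .inr (.inl z) => ind z * w2 z r
    | .inr (.inr _), .inr (.inr _) => 0
  let σ : ℝ → ℝ → ι → ℝ := fun s r i => match i with
    | .inl e => ∑ z ∈ X, (T r e z * n1 s z r + qc X (T r) (fun x => gs e x r) z * n1 s z r
        + qc X (T r) (fun x => gp e x r) z * D s z r)
    | .inr (.inl e) => ∑ z ∈ X, (qc X (T r) (fun x => gp e x r) z * n1 s z r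
        + qc X (T r) (fun x => gs e x r) z * D s z r)
    | .inr (.inr _) => ∑ z ∈ X', (w1 z r * D s z r + w2 z r * n1 s z r)
  let u : ℝ → ι → ℝ → ℝ := fun s i r => match i with
    | .inl e => p s e r
    | .inr (.inl e) => n s e r
    | .inr (.inr _) => k s r
  let uT : ℝ → ι → ℝ := fun s i => match i with
    | .inl e => pT e s
    | .inr (.inl e) => nT e s
    | .inr (.inr _) => 0
  have qn : ∀ r ∈ Icc 0 τ, ∀ (g : V → V → ℝ → ℝ), (∀ i j, 0 ≤ g i j r) → ∀ e z,
      0 ≤ qc X (T r) (fun x => g e x r) z := fun r hr g hg e z =>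
    qc_nonneg (T0 r hr) (fun x => hg e x) z
  have cqp : ∀ e z, ContinuousOn (fun r => qc X (T r) (fun x => gp e x r) z) (Icc 0 τ) :=
    fun e z => qc_cont cT (cgp e) z
  have cqs : ∀ e z, ContinuousOn (fun r => qc X (T r) (fun x => gs e x r) z) (Icc 0 τ) :=
    fun e z => qc_cont cT (cgs e) z
  have cM : ∀ i j, ContinuousOn (fun r => M r i j) (Icc 0 τ) := by
    intro i j
    rcases i with e | e | e <;> rcases j with z | z | z <;> simp only [M]
    · exact (cc4 z).mul (cqp e z)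
    · exact (cT e z).add (cqs e z)
    · exact continuousOn_const
    · exact ((cc1 z).mul (cT e z)).add ((cc4 z).mul (cqs e z))
    · exact cqp e z
    · exact continuousOn_const
    · exact continuousOn_const.mul ((cw1 z).mul (cc4 z))
    · exact continuousOn_const.mul (cw2 z)
    · exact continuousOn_const
  have M0 : ∀ r ∈ Icc 0 τ, ∀ i j, 0 ≤ M r i j := by
    intro r hr i j
    have q1 := qn r hr gp (fun i j => gp0 i j r hr)
    have q2 := qn r hr gs (fun i j => gs0 i j r hr)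
    rcases i with e | e | e <;> rcases j with z | z | z <;> simp only [M]
    · exact mul_nonneg (c40 z r hr) (q1 e z)
    · exact add_nonneg (T0 r hr e z) (q2 e z)
    · exact le_rfl
    · exact add_nonneg (mul_nonneg (c10 z r hr) (T0 r hr e z)) (mul_nonneg (c40 z r hr) (q2 e z))
    · exact q1 e z
    · exact le_rfl
    · exact mul_nonneg (ind0 z) (mul_nonneg (w10 z r hr) (c40 z r hr))
    · exact mul_nonneg (ind0 z) (w20 z r hr)
    · exact le_rfl
  have cσ : ∀ j, ContinuousOn (fun p : ℝ × ℝ => σ p.1 p.2 j)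
      {p | 0 ≤ p.2 ∧ p.2 ≤ p.1 ∧ p.1 ≤ τ} := by
    intro j
    rcases j with e | e | e <;> simp only [σ]
    · exact continuousOn_finsetSum _ fun z _ => (((Tg_snd (cT e z)).mul (cn z)).add
        ((Tg_snd (cqs e z)).mul (cn z))).add ((Tg_snd (cqp e z)).mul (cD z))
    · exact continuousOn_finsetSum _ fun z _ => ((Tg_snd (cqp e z)).mul (cn z)).add
        ((Tg_snd (cqs e z)).mul (cD z))
    · exact continuousOn_finsetSum _ fun z _ =>
        ((Tg_snd (cw1 z)).mul (cD z)).add ((Tg_snd (cw2 z)).mul (cn z))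
  have sm : ∀ f : V → ℝ, ∑ z : {e // e ∈ X}, f z = ∑ z ∈ X, f z := fun f =>
    Finset.sum_coe_sort X f
  have isum : ∀ f : V → ℝ, ∑ z ∈ X, ind z * f z = ∑ z ∈ X', f z := fun f => by
    have h1 : ∑ z ∈ X, ind z * f z = ∑ z ∈ X, if z ∈ X' then f z else 0 :=
      Finset.sum_congr rfl fun z _ => by
        simp only [ind]; split_ifs <;> ring
    rw [h1, Finset.sum_ite_mem, Finset.inter_eq_right.2 hX]
  have split : ∀ f : ι → ℝ, ∑ j, f j = ∑ z : {e // e ∈ X}, f (.inl z)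
      + (∑ z : {e // e ∈ X}, f (.inr (.inl z)) + f (.inr (.inr ()))) := fun f => by
    rw [Fintype.sum_sum_type, Fintype.sum_sum_type]
    simp
  have du : ∀ s ∈ Icc 0 τ, ∀ j, ∀ r ∈ Icc 0 s,
      HasDerivAt (u s j) (-(∑ k, M r j k * u s k r + σ s r j)) r := by
    intro s hs j r hr
    rcases j with e | e | e
    · refine ((hl s hs).dp e e.2 r hr).congr_deriv ?_
      rw [split]
      simp only [M, u, σ]
      rw [sm (fun z => c4 z r * qc X (T r) (fun x => gp e x r) z * p s z r),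
        sm (fun z => (T r e z + qc X (T r) (fun x => gs e x r) z) * n s z r), Qo_eq, Qo_eq,
        ← Finset.sum_add_distrib, ← Finset.sum_add_distrib, zero_mul, add_zero,
        ← Finset.sum_add_distrib, ← Finset.sum_add_distrib]
      congr 1
      exact Finset.sum_congr rfl fun z _ => by ring
    · refine ((hl s hs).dn e e.2 r hr).congr_deriv ?_
      rw [split]
      simp only [M, u, σ]
      rw [sm (fun z => (c1 z r * T r e z + c4 z r * qc X (T r) (fun x => gs e x r) z) * p s z r),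
        sm (fun z => qc X (T r) (fun x => gp e x r) z * n s z r), Qo_eq, Qo_eq,
        ← Finset.sum_add_distrib, ← Finset.sum_add_distrib, zero_mul, add_zero,
        ← Finset.sum_add_distrib, ← Finset.sum_add_distrib]
      congr 1
      exact Finset.sum_congr rfl fun z _ => by ring
    · refine ((hk s hs).1 r hr).congr_deriv ?_
      rw [split]
      simp only [M, u, σ]
      have e1 : ∑ z : {e // e ∈ X}, ind z * (w1 z r * c4 z r) * p s z r
          = ∑ z ∈ X', w1 z r * c4 z r * p s z r := by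
        rw [sm (fun z => ind z * (w1 z r * c4 z r) * p s z r), ← isum]
        exact Finset.sum_congr rfl fun z _ => by ring
      have e2 : ∑ z : {e // e ∈ X}, ind z * w2 z r * n s z r
          = ∑ z ∈ X', w2 z r * n s z r := by
        rw [sm (fun z => ind z * w2 z r * n s z r), ← isum]
        exact Finset.sum_congr rfl fun z _ => by ring
      rw [e1, e2, zero_mul, add_zero, ← Finset.sum_add_distrib, ← Finset.sum_add_distrib,
        ← Finset.sum_add_distrib]
      congr 1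
      exact Finset.sum_congr rfl fun z _ => by ring
  have key := fun i => cont_zero hτ cM M0 i (σ := σ) (u := u) (uT := uT) cσ
    (fun j => by
      rcases j with e | e | e
      · exact cpT e
      · exact cnT e
      · exact continuousOn_const)
    du
    (fun s hs j => by
      rcases j with e | e | e
      · exact pe s hs e e.2
      · exact ne s hs e e.2
      · exact (hk s hs).2.1)
  refine ⟨fun e he => key (.inl ⟨e, he⟩), fun e he => key (.inr (.inl ⟨e, he⟩)), ?_⟩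
  refine (key (.inr (.inr ()))).congr fun s hs => ?_
  show _ = k s 0
  rw [(hk s hs).2.2 0 ⟨le_rfl, hs.1⟩, zero_add]

end Pool.Agent.RX.RCM
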