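import Mathlib

/-! Euclidean norms of the tails: the Schur test and a comparison lemma for coupled systems
(MP_73ccd0_lc, route M). -/

namespace Pool.Agent.RX.RCM

open Set Finset

set_option linter.unusedSectionVars false

variable {V : Type*} [Fintype V] [DecidableEq V]

/-- the Euclidean norm on `U` -/
noncomputable def nm (U : Finset V) (u : V → ℝ) : ℝ := Real.sqrt (∑ e ∈ U, u e ^ 2)

theorem nm_nonneg (U : Finset V) (u : V → ℝ) : 0 ≤ nm U u := Real.sqrt_nonneg _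

theorem nm_sq (U : Finset V) (u : V → ℝ) : nm U u ^ 2 = ∑ e ∈ U, u e ^ 2 :=
  Real.sq_sqrt (Finset.sum_nonneg fun e _ => sq_nonneg (u e))

theorem nm_le {U : Finset V} {u : V → ℝ} {N : ℝ} (hN : 0 ≤ N) (h : ∑ e ∈ U, u e ^ 2 ≤ N ^ 2) :
    nm U u ≤ N := by
  unfold nm
  calc Real.sqrt (∑ e ∈ U, u e ^ 2) ≤ Real.sqrt (N ^ 2) := Real.sqrt_le_sqrt h
    _ = N := Real.sqrt_sq hN

theorem ip_le (U : Finset V) (w u : V → ℝ) : ∑ e ∈ U, w e * u e ≤ nm U w * nm U u :=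
  Real.sum_mul_le_sqrt_mul_sqrt U w u

theorem nm_mono {U : Finset V} {u v : V → ℝ} (hu : ∀ e ∈ U, 0 ≤ u e) (h : ∀ e ∈ U, u e ≤ v e) :
    nm U u ≤ nm U v := Real.sqrt_le_sqrt (Finset.sum_le_sum fun e he =>
  pow_le_pow_left₀ (hu e he) (h e he) 2)

theorem nm_smul (U : Finset V) {c : ℝ} (hc : 0 ≤ c) (u : V → ℝ) :
    nm U (fun e => c * u e) = c * nm U u := by
  unfold nm
  have : ∑ e ∈ U, (c * u e) ^ 2 = c ^ 2 * ∑ e ∈ U, u e ^ 2 := by
    rw [Finset.mul_sum]; exact Finset.sum_congr rfl fun e _ => by ring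
  rw [this, Real.sqrt_mul (sq_nonneg c), Real.sqrt_sq hc]

theorem nm_add_le (U : Finset V) (u v : V → ℝ) : nm U (fun e => u e + v e) ≤ nm U u + nm U v := by
  refine nm_le (add_nonneg (nm_nonneg U u) (nm_nonneg U v)) ?_
  have h := ip_le U u v
  have e1 : ∑ e ∈ U, (u e + v e) ^ 2
      = ∑ e ∈ U, u e ^ 2 + 2 * ∑ e ∈ U, u e * v e + ∑ e ∈ U, v e ^ 2 := by
    rw [Finset.mul_sum, ← Finset.sum_add_distrib, ← Finset.sum_add_distrib]
    exact Finset.sum_congr rfl fun e _ => by ring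
  rw [e1, add_sq, nm_sq, nm_sq]
  linarith

/-- **comparison of norms for coupled pairs** -/
theorem l2_two {U : Finset V} {t : ℝ} {p p' n n' : V → ℝ → ℝ}
    {L11 L12 L21 L22 S1 S2 Vv Vv' Uu Uu' : ℝ → ℝ} {L : ℝ}
    (dp : ∀ e ∈ U, ∀ r ∈ Icc 0 t, HasDerivAt (p e) (p' e r) r)
    (dn : ∀ e ∈ U, ∀ r ∈ Icc 0 t, HasDerivAt (n e) (n' e r) r)
    (p0 : ∀ e ∈ U, ∀ r ∈ Icc 0 t, 0 ≤ p e r) (n0 : ∀ e ∈ U, ∀ r ∈ Icc 0 t, 0 ≤ n e r)
    (dV : ∀ r ∈ Icc 0 t, HasDerivAt Vv (Vv' r) r) (dU : ∀ r ∈ Icc 0 t, HasDerivAt Uu (Uu' r) r)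
    (V0 : ∀ r ∈ Icc 0 t, 0 ≤ Vv r) (U0 : ∀ r ∈ Icc 0 t, 0 ≤ Uu r)
    (l11 : ∀ r ∈ Icc 0 t, 0 ≤ L11 r) (l12 : ∀ r ∈ Icc 0 t, 0 ≤ L12 r)
    (l21 : ∀ r ∈ Icc 0 t, 0 ≤ L21 r) (l22 : ∀ r ∈ Icc 0 t, 0 ≤ L22 r)
    (lL : ∀ r ∈ Icc 0 t, L11 r + L12 r ≤ L ∧ L21 r + L22 r ≤ L)
    (hp : ∀ r ∈ Icc 0 t, ∀ w : V → ℝ, (∀ e ∈ U, 0 ≤ w e) → ∑ e ∈ U, w e * -p' e r
      ≤ nm U w * (L11 r * nm U (fun e => p e r) + L12 r * nm U (fun e => n e r) + S1 r))
    (hn : ∀ r ∈ Icc 0 t, ∀ w : V → ℝ, (∀ e ∈ U, 0 ≤ w e) → ∑ e ∈ U, w e * -n' e r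
      ≤ nm U w * (L21 r * nm U (fun e => p e r) + L22 r * nm U (fun e => n e r) + S2 r))
    (oV : ∀ r ∈ Icc 0 t, L11 r * Vv r + L12 r * Uu r + S1 r ≤ -Vv' r)
    (oU : ∀ r ∈ Icc 0 t, L21 r * Vv r + L22 r * Uu r + S2 r ≤ -Uu' r)
    (ep : nm U (fun e => p e t) ≤ Vv t) (en : nm U (fun e => n e t) ≤ Uu t) :
    ∀ r ∈ Icc 0 t, nm U (fun e => p e r) ≤ Vv r ∧ nm U (fun e => n e r) ≤ Uu r := by
  intro r0 hr0
  have ht0 : (0 : ℝ) ≤ t := hr0.1.trans hr0.2
  have tt : t ∈ Icc (0 : ℝ) t := ⟨ht0, le_rfl⟩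
  have L0 : 0 ≤ L := by linarith [(lL r0 hr0).1, l11 r0 hr0, l12 r0 hr0]
  -- an a priori bound
  have cV : ContinuousOn Vv (Icc 0 t) := fun r hr => (dV r hr).continuousAt.continuousWithinAt
  have cU : ContinuousOn Uu (Icc 0 t) := fun r hr => (dU r hr).continuousAt.continuousWithinAt
  have cp : ContinuousOn (fun r => nm U (fun e => p e r)) (Icc 0 t) :=
    (continuousOn_finsetSum _ fun e he => ContinuousOn.pow (fun r hr =>
      (dp e he r hr).continuousAt.continuousWithinAt) 2).sqrt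
  have cn : ContinuousOn (fun r => nm U (fun e => n e r)) (Icc 0 t) :=
    (continuousOn_finsetSum _ fun e he => ContinuousOn.pow (fun r hr =>
      (dn e he r hr).continuousAt.continuousWithinAt) 2).sqrt
  obtain ⟨C1, hC1⟩ := isCompact_Icc.exists_bound_of_continuousOn (cp.sub cV)
  obtain ⟨C2, hC2⟩ := isCompact_Icc.exists_bound_of_continuousOn (cn.sub cU)
  set K : ℝ := max C1 (max C2 0) with hK
  have K0 : 0 ≤ K := (le_max_right _ _).trans (le_max_right _ _)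
  have b1 : ∀ r ∈ Icc 0 t, nm U (fun e => p e r) ≤ Vv r + K := fun r hr => by
    have h1 := (le_abs_self _).trans (hC1 r hr)
    have h2 : C1 ≤ K := le_max_left _ _
    simp only [Pi.sub_apply] at h1
    linarith
  have b2 : ∀ r ∈ Icc 0 t, nm U (fun e => n e r) ≤ Uu r + K := fun r hr => by
    have h1 := (le_abs_self _).trans (hC2 r hr)
    have h2 : C2 ≤ K := (le_max_left _ _).trans (le_max_right _ _)
    simp only [Pi.sub_apply] at h1
    linarith
  -- one step of the iteration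
  have step : ∀ {f f' : V → ℝ → ℝ} {A B S F F' : ℝ → ℝ} (j : ℕ),
      (∀ e ∈ U, ∀ r ∈ Icc 0 t, HasDerivAt (f e) (f' e r) r) →
      (∀ e ∈ U, ∀ r ∈ Icc 0 t, 0 ≤ f e r) →
      (∀ r ∈ Icc 0 t, HasDerivAt F (F' r) r) → (∀ r ∈ Icc 0 t, 0 ≤ F r) →
      (∀ r ∈ Icc 0 t, 0 ≤ A r) → (∀ r ∈ Icc 0 t, 0 ≤ B r) → (∀ r ∈ Icc 0 t, A r + B r ≤ L) →
      (∀ r ∈ Icc 0 t, ∀ w : V → ℝ, (∀ e ∈ U, 0 ≤ w e) → ∑ e ∈ U, w e * -f' e r
        ≤ nm U w * (A r * nm U (fun e => p e r) + B r * nm U (fun e => n e r) + S r)) →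
      (∀ r ∈ Icc 0 t, A r * Vv r + B r * Uu r + S r ≤ -F' r) →
      nm U (fun e => f e t) ≤ F t →
      (∀ r ∈ Icc 0 t, nm U (fun e => p e r) ≤ Vv r + K * ((L * (t - r)) ^ j / (j.factorial : ℝ)) ∧
        nm U (fun e => n e r) ≤ Uu r + K * ((L * (t - r)) ^ j / (j.factorial : ℝ))) →
      ∀ r ∈ Icc 0 t, nm U (fun e => f e r)
        ≤ F r + K * ((L * (t - r)) ^ (j + 1) / ((j + 1).factorial : ℝ)) := by
    intro f f' A B S F F' j df f0 dF F0 A0 B0 AB hf oF ef ih r1 hr1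
    set w : V → ℝ := fun e => f e r1 with hw
    have w0 : ∀ e ∈ U, 0 ≤ w e := fun e he => f0 e he r1 hr1
    set G : ℝ → ℝ := fun r => F r + K * ((L * (t - r)) ^ (j + 1) / ((j + 1).factorial : ℝ)) with hG
    set g : ℝ → ℝ := fun r => K * (L * ((L * (t - r)) ^ j / (j.factorial : ℝ))) with hg
    have jf : (0 : ℝ) < (j.factorial : ℝ) := by exact_mod_cast Nat.factorial_pos j
    have dG : ∀ r ∈ Icc r1 t, HasDerivAt G (F' r - g r) r := by
      intro r hr
      have hr' : r ∈ Icc 0 t := ⟨hr1.1.trans hr.1, hr.2⟩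
      have h1 : HasDerivAt (fun r : ℝ => L * (t - r)) (-L) r := by
        have := ((hasDerivAt_id r).const_sub t).const_mul L
        simpa using this
      have h2 := ((h1.pow (j + 1)).div_const ((j + 1).factorial : ℝ)).const_mul K
      refine ((dF r hr').add h2).congr_deriv ?_
      have e1 : (((j + 1).factorial : ℕ) : ℝ) = ((j : ℝ) + 1) * (j.factorial : ℝ) := by
        rw [Nat.factorial_succ]; push_cast; ring
      have hj : ((j : ℝ) + 1) ≠ 0 := by positivity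
      simp only [hg, Nat.add_sub_cancel]
      rw [e1]
      push_cast
      field_simp
      ring
    have dφ : ∀ r ∈ Icc r1 t, HasDerivAt (fun r => ∑ e ∈ U, w e * f e r)
        (∑ e ∈ U, w e * f' e r) r := fun r hr =>
      HasDerivAt.fun_sum fun e he => (df e he r ⟨hr1.1.trans hr.1, hr.2⟩).const_mul (w e)
    have gn : ∀ r ∈ Icc r1 t, 0 ≤ (L * (t - r)) ^ j / (j.factorial : ℝ) := fun r hr =>
      div_nonneg (pow_nonneg (mul_nonneg L0 (by linarith [hr.2])) _) jf.le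
    have mono : AntitoneOn (fun r => nm U w * G r - ∑ e ∈ U, w e * f e r) (Icc r1 t) := by
      have dd : ∀ r ∈ Icc r1 t, HasDerivAt (fun r => nm U w * G r - ∑ e ∈ U, w e * f e r)
          (nm U w * (F' r - g r) - ∑ e ∈ U, w e * f' e r) r := fun r hr =>
        ((dG r hr).const_mul _).sub (dφ r hr)
      refine antitoneOn_of_deriv_nonpos (convex_Icc r1 t)
        (fun r hr => (dd r hr).continuousAt.continuousWithinAt)
        (fun r hr => (dd r (interior_subset hr)).differentiableAt.differentiableWithinAt)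
        fun r hr => ?_
      have hr' := interior_subset hr
      rw [(dd r hr').deriv]
      have hr0' : r ∈ Icc 0 t := ⟨hr1.1.trans hr'.1, hr'.2⟩
      have h1 := hf r hr0' w w0
      have h2 := ih r hr0'
      have h3 := oF r hr0'
      have h4 : A r * nm U (fun e => p e r) + B r * nm U (fun e => n e r) + S r
          ≤ -F' r + g r := by
        have q1 := mul_le_mul_of_nonneg_left h2.1 (A0 r hr0')
        have q2 := mul_le_mul_of_nonneg_left h2.2 (B0 r hr0')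
        have q3 := mul_le_mul_of_nonneg_right (AB r hr0') (mul_nonneg K0 (gn r hr'))
        have q4 : g r = L * (K * ((L * (t - r)) ^ j / (j.factorial : ℝ))) := by
          simp only [hg]; ring
        rw [q4]
        nlinarith
      have h5 := mul_le_mul_of_nonneg_left h4 (nm_nonneg U w)
      have h6 : ∑ e ∈ U, w e * -f' e r = -∑ e ∈ U, w e * f' e r := by
        rw [← Finset.sum_neg_distrib]; exact Finset.sum_congr rfl fun e _ => by ring
      rw [h6] at h1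
      nlinarith
    have hm := mono ⟨le_rfl, hr1.2⟩ ⟨hr1.2, le_rfl⟩ hr1.2
    simp only at hm
    have e1 : ∑ e ∈ U, w e * f e r1 = nm U w ^ 2 := by
      rw [nm_sq]; exact Finset.sum_congr rfl fun e _ => by simp only [hw]; ring
    have e2 : ∑ e ∈ U, w e * f e t ≤ nm U w * F t :=
      (ip_le U w (fun e => f e t)).trans (mul_le_mul_of_nonneg_left ef (nm_nonneg _ _))
    have e3 : G t = F t := by
      simp only [hG, sub_self, mul_zero]
      rw [zero_pow (Nat.succ_ne_zero j), zero_div, mul_zero, add_zero]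
    rw [e1, e3] at hm
    have e4 : nm U w ^ 2 ≤ nm U w * G r1 := by linarith
    show nm U w ≤ G r1
    rcases (nm_nonneg U w).eq_or_lt with h0 | h0
    · rw [← h0]
      exact add_nonneg (F0 r1 hr1) (mul_nonneg K0 (div_nonneg
        (pow_nonneg (mul_nonneg L0 (by linarith [hr1.2])) _) (by positivity)))
    · exact le_of_mul_le_mul_left (by nlinarith) h0
  -- the iteration
  have it : ∀ j : ℕ, ∀ r ∈ Icc 0 t,
      nm U (fun e => p e r) ≤ Vv r + K * ((L * (t - r)) ^ j / (j.factorial : ℝ)) ∧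
        nm U (fun e => n e r) ≤ Uu r + K * ((L * (t - r)) ^ j / (j.factorial : ℝ)) := by
    intro j
    induction j with
    | zero => intro r hr; simpa using And.intro (b1 r hr) (b2 r hr)
    | succ j ih =>
      intro r hr
      exact ⟨step j dp p0 dV V0 l11 l12 (fun r hr => (lL r hr).1) hp oV ep ih r hr,
        step j dn n0 dU U0 l21 l22 (fun r hr => (lL r hr).2) hn oU en ih r hr⟩
  have lim : Filter.Tendsto (fun j : ℕ => K * ((L * (t - r0)) ^ j / (j.factorial : ℝ)))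
      Filter.atTop (nhds 0) := by
    have := (FloorSemiring.tendsto_pow_div_factorial_atTop (L * (t - r0))).const_mul K
    simpa using this
  constructor
  · have h1 := (lim.const_add (Vv r0))
    rw [add_zero] at h1
    exact ge_of_tendsto h1 (Filter.Eventually.of_forall fun j => (it j r0 hr0).1)
  · have h1 := (lim.const_add (Uu r0))
    rw [add_zero] at h1
    exact ge_of_tendsto h1 (Filter.Eventually.of_forall fun j => (it j r0 hr0).2)

end Pool.Agent.RX.RCM
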