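import Pool.Agent.RX.RCM.Gauge
import Pool.Agent.RX.RCM.Tail_1

/-! Weighted sums over the targets, and over the positions, of the tails in a gauge
(MP_73ccd0_lc, route M). -/

namespace Pool.Agent.RX.RCM

open Set Finset Pool.Agent.RX.RCRSHalf Pool.Agent.RX.RCG

set_option linter.unusedSectionVars false

variable {V : Type*} [Fintype V] [DecidableEq V]

/-- a common bound of finitely many continuous functions -/
theorem exists_bound {κ : Type*} [Finite κ] {t : ℝ} {f : κ → ℝ → ℝ}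
    (hf : ∀ k, ContinuousOn (f k) (Icc 0 t)) : ∃ C : ℝ, 0 ≤ C ∧ ∀ k, ∀ r ∈ Icc 0 t, f k r ≤ C := by
  cases nonempty_fintype κ
  have h1 : ∀ k, ∃ C : ℝ, 0 ≤ C ∧ ∀ r ∈ Icc 0 t, f k r ≤ C := fun k => by
    obtain ⟨C, hC⟩ := isCompact_Icc.exists_bound_of_continuousOn (hf k)
    exact ⟨max C 0, le_max_right _ _, fun r hr =>
      ((le_abs_self _).trans (hC r hr)).trans (le_max_left _ _)⟩
  choose C C0 hC using h1
  exact ⟨∑ k, C k, Finset.sum_nonneg fun k _ => C0 k, fun k r hr => (hC k r hr).trans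
    (Finset.single_le_sum (f := C) (fun k _ => C0 k) (Finset.mem_univ k))⟩

/-- comparison for coupled pairs on a finite set -/
theorem two_le {U : Finset V} {t : ℝ} {a11 a12 a21 a22 : ℝ → V → V → ℝ} {s1 s2 : ℝ → V → ℝ}
    {p p' n n' P P' N N' : V → ℝ → ℝ} {C : ℝ}
    (a0 : ∀ r ∈ Icc 0 t, ∀ e ∈ U, ∀ z ∈ U, (0 ≤ a11 r e z ∧ 0 ≤ a12 r e z) ∧
      0 ≤ a21 r e z ∧ 0 ≤ a22 r e z)
    (aC : ∀ r ∈ Icc 0 t, ∀ e ∈ U, ∀ z ∈ U, (a11 r e z ≤ C ∧ a12 r e z ≤ C) ∧
      a21 r e z ≤ C ∧ a22 r e z ≤ C)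
    (dp : ∀ e ∈ U, ∀ r ∈ Icc 0 t, HasDerivAt (p e) (p' e r) r)
    (dn : ∀ e ∈ U, ∀ r ∈ Icc 0 t, HasDerivAt (n e) (n' e r) r)
    (dP : ∀ e ∈ U, ∀ r ∈ Icc 0 t, HasDerivAt (P e) (P' e r) r)
    (dN : ∀ e ∈ U, ∀ r ∈ Icc 0 t, HasDerivAt (N e) (N' e r) r)
    (P0 : ∀ e ∈ U, ∀ r ∈ Icc 0 t, 0 ≤ P e r) (N0 : ∀ e ∈ U, ∀ r ∈ Icc 0 t, 0 ≤ N e r)
    (op : ∀ e ∈ U, ∀ r ∈ Icc 0 t,
      -p' e r ≤ ∑ z ∈ U, (a11 r e z * p z r + a12 r e z * n z r) + s1 r e)
    (on : ∀ e ∈ U, ∀ r ∈ Icc 0 t,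
      -n' e r ≤ ∑ z ∈ U, (a21 r e z * p z r + a22 r e z * n z r) + s2 r e)
    (oP : ∀ e ∈ U, ∀ r ∈ Icc 0 t,
      ∑ z ∈ U, (a11 r e z * P z r + a12 r e z * N z r) + s1 r e ≤ -P' e r)
    (oN : ∀ e ∈ U, ∀ r ∈ Icc 0 t,
      ∑ z ∈ U, (a21 r e z * P z r + a22 r e z * N z r) + s2 r e ≤ -N' e r)
    (ep : ∀ e ∈ U, p e t ≤ P e t) (en : ∀ e ∈ U, n e t ≤ N e t) :
    ∀ e ∈ U, ∀ r ∈ Icc 0 t, p e r ≤ P e r ∧ n e r ≤ N e r := by
  let ι := {x // x ∈ U} ⊕ {x // x ∈ U}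
  let M : ℝ → ι → ι → ℝ := fun r i j => match i, j with
    | .inl e, .inl z => a11 r e z
    | .inl e, .inr z => a12 r e z
    | .inr e, .inl z => a21 r e z
    | .inr e, .inr z => a22 r e z
  have sm : ∀ f : V → ℝ, ∑ z : {x // x ∈ U}, f z = ∑ z ∈ U, f z := fun f =>
    Finset.sum_coe_sort U f
  let sg : ℝ → ι → ℝ := fun r i => match i with
    | .inl e => s1 r e
    | .inr e => s2 r e
  let uu : ι → ℝ → ℝ := fun i => match i with
    | .inl e => p e
    | .inr e => n e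
  let uu' : ι → ℝ → ℝ := fun i => match i with
    | .inl e => p' e
    | .inr e => n' e
  let vv : ι → ℝ → ℝ := fun i => match i with
    | .inl e => P e
    | .inr e => N e
  let vv' : ι → ℝ → ℝ := fun i => match i with
    | .inl e => P' e
    | .inr e => N' e
  have key := lin_mono (ι := ι) (t := t) (T := M) (T2 := M) (σ := sg) (σ2 := sg) (C := C)
    (u := uu) (u' := uu') (v := vv) (v' := vv')
    (fun r hr i j => by
      rcases i with e | e <;> rcases j with z | z <;> simp only [M]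
      · exact (a0 r hr e e.2 z z.2).1.1
      · exact (a0 r hr e e.2 z z.2).1.2
      · exact (a0 r hr e e.2 z z.2).2.1
      · exact (a0 r hr e e.2 z z.2).2.2)
    (fun r hr i j => by
      rcases i with e | e <;> rcases j with z | z <;> simp only [M]
      · exact (aC r hr e e.2 z z.2).1.1
      · exact (aC r hr e e.2 z z.2).1.2
      · exact (aC r hr e e.2 z z.2).2.1
      · exact (aC r hr e e.2 z z.2).2.2)
    (fun _ _ _ _ => le_rfl) (fun _ _ _ => le_rfl)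
    (fun i r hr => by
      rcases i with e | e
      · exact dp e e.2 r hr
      · exact dn e e.2 r hr)
    (fun i r hr => by
      rcases i with e | e
      · exact dP e e.2 r hr
      · exact dN e e.2 r hr)
    (fun i r hr => by
      rcases i with e | e
      · exact P0 e e.2 r hr
      · exact N0 e e.2 r hr)
    (fun i r hr => by
      rcases i with e | e
      · refine (op e e.2 r hr).trans (le_of_eq ?_)
        rw [Fintype.sum_sum_type, Finset.sum_add_distrib]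
        congr 2
        · exact (sm (fun z => a11 r e z * p z r)).symm
        · exact (sm (fun z => a12 r e z * n z r)).symm
      · refine (on e e.2 r hr).trans (le_of_eq ?_)
        rw [Fintype.sum_sum_type, Finset.sum_add_distrib]
        congr 2
        · exact (sm (fun z => a21 r e z * p z r)).symm
        · exact (sm (fun z => a22 r e z * n z r)).symm)
    (fun i r hr => by
      rcases i with e | e
      · refine le_trans (le_of_eq ?_) (oP e e.2 r hr)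
        rw [Fintype.sum_sum_type, Finset.sum_add_distrib]
        congr 2
        · exact sm (fun z => a11 r e z * P z r)
        · exact sm (fun z => a12 r e z * N z r)
      · refine le_trans (le_of_eq ?_) (oN e e.2 r hr)
        rw [Fintype.sum_sum_type, Finset.sum_add_distrib]
        congr 2
        · exact sm (fun z => a21 r e z * P z r)
        · exact sm (fun z => a22 r e z * N z r))
    (fun i => by
      rcases i with e | e
      · exact ep e e.2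
      · exact en e e.2)
  intro e he r hr
  exact ⟨key (.inl ⟨e, he⟩) r hr, key (.inr ⟨e, he⟩) r hr⟩

theorem qc_mono {X U : Finset V} (hXU : X ⊆ U) {T : V → V → ℝ} {g : V → ℝ}
    (hT : ∀ x y, 0 ≤ T x y) (hg : ∀ x, 0 ≤ g x) (z : V) : qc X T g z ≤ qc U T g z := by
  unfold qc
  refine add_le_add (mul_le_mul_of_nonneg_left ?_ (hg z)) ?_
  · exact Finset.sum_le_sum_of_subset_of_nonneg hXU fun y _ _ => hT z y
  · exact Finset.sum_le_sum_of_subset_of_nonneg hXU fun x _ _ => mul_nonneg (hT x z) (hg x)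

/-- exchange of the sums over targets and positions -/
theorem sum_swap {U : Finset V} {e : V} {f q : V → ℝ} {a : V → V → ℝ} (f0 : ∀ c, 0 ≤ f c)
    (q0 : ∀ z, 0 ≤ q z) (a0 : ∀ c z, 0 ≤ a c z) :
    ∑ c ∈ U.erase e, f c * ∑ z ∈ U.erase c, q z * a c z
      ≤ ∑ z ∈ U, q z * ∑ c ∈ U.erase z, f c * a c z := by
  have nn : ∀ c z, 0 ≤ f c * (q z * a c z) := fun c z =>
    mul_nonneg (f0 c) (mul_nonneg (q0 z) (a0 c z))
  have h1 : ∑ c ∈ U.erase e, f c * ∑ z ∈ U.erase c, q z * a c z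
      ≤ ∑ c ∈ U, ∑ z ∈ U.erase c, f c * (q z * a c z) := by
    simp only [Finset.mul_sum]
    exact Finset.sum_le_sum_of_subset_of_nonneg (Finset.erase_subset _ _)
      fun c _ _ => Finset.sum_nonneg fun z _ => nn c z
  refine h1.trans (le_of_eq ?_)
  rw [Finset.sum_comm' (t' := U) (s' := fun z => U.erase z)]
  · exact Finset.sum_congr rfl fun z _ => by
      rw [Finset.mul_sum]
      exact Finset.sum_congr rfl fun c _ => by ring
  · intro c z
    simp only [Finset.mem_erase]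
    constructor
    · rintro ⟨h1, h2, h3⟩; exact ⟨⟨fun h => h2 h.symm, h1⟩, h3⟩
    · rintro ⟨⟨h1, h2⟩, h3⟩; exact ⟨h2, fun h => h1 h.symm, h3⟩

/-- the scalar conditions for the gauge sums of the tails -/
structure Sc (t : ℝ) (lam As Ap W Dl Ee c1 c4 Vv Vv' Uu Uu' : ℝ → ℝ) : Prop where
  dV : ∀ r ∈ Icc 0 t, HasDerivAt Vv (Vv' r) r
  dU : ∀ r ∈ Icc 0 t, HasDerivAt Uu (Uu' r) r
  W0 : ∀ r ∈ Icc 0 t, 0 ≤ W r
  D0 : ∀ r ∈ Icc 0 t, 0 ≤ Dl r
  E0 : ∀ r ∈ Icc 0 t, 0 ≤ Ee r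
  V0 : ∀ r ∈ Icc 0 t, 0 ≤ Vv r
  U0 : ∀ r ∈ Icc 0 t, 0 ≤ Uu r
  oV : ∀ r ∈ Icc 0 t, (lam r + As r) * (W r + Uu r) + Ap r * (Dl r + c4 r * Vv r) ≤ -Vv' r
  oU : ∀ r ∈ Icc 0 t, lam r * (Ee r + c1 r * Vv r) + Ap r * (W r + Uu r)
    + As r * (Dl r + c4 r * Vv r) ≤ -Uu' r

end Pool.Agent.RX.RCM
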