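import Pool.Agent.RX.RCM.Kt
import Pool.Agent.RX.RCM.L2
import Pool.Agent.RX.RCM.Row

/-! Euclidean norms of the tail systems for a fixed target and for weighted sums over the targets
(MP_73ccd0_lc, route M). -/

namespace Pool.Agent.RX.RCM

open Set Finset Pool.Agent.RX.RCRSHalf Pool.Agent.RX.RCG

set_option linter.unusedSectionVars false

variable {V : Type*} [Fintype V] [DecidableEq V]

/-- a kernel with norm at most `l` on nonnegative vectors -/
def Op (X : Finset V) (K : V → V → ℝ) (l : ℝ) : Prop :=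
  ∀ w u : V → ℝ, (∀ e ∈ X, 0 ≤ w e) → (∀ e ∈ X, 0 ≤ u e) →
    ∑ e ∈ X, w e * ∑ b ∈ X, K e b * u b ≤ l * (nm X w * nm X u)

theorem Op.sub {X Y : Finset V} (hYX : Y ⊆ X) {K : V → V → ℝ} {l : ℝ}
    (h : Op X K l) : Op Y K l := by
  intro w u w0 u0
  have key := h (fun e => if e ∈ Y then w e else 0) (fun e => if e ∈ Y then u e else 0)
    (fun e _ => by split_ifs with h1; exacts [w0 e h1, le_rfl])
    (fun e _ => by split_ifs with h1; exacts [u0 e h1, le_rfl])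
  have hf : ∀ (f : V → ℝ), ∑ e ∈ X, (if e ∈ Y then f e else 0) = ∑ e ∈ Y, f e := fun f => by
    rw [← Finset.sum_filter]
    congr 1
    ext e; simp only [Finset.mem_filter]
    exact ⟨fun h => h.2, fun h => ⟨hYX h, h⟩⟩
  have n1 : ∀ v : V → ℝ, nm X (fun e => if e ∈ Y then v e else 0) = nm Y v := fun v => by
    unfold nm
    congr 1
    rw [← hf]
    exact Finset.sum_congr rfl fun e _ => by by_cases he : e ∈ Y <;> simp [he]
  rw [n1, n1] at key
  refine le_trans (le_of_eq ?_) key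
  rw [← hf]
  refine Finset.sum_congr rfl fun e _ => ?_
  have h2 : ∑ b ∈ X, K e b * (if b ∈ Y then u b else 0) = ∑ b ∈ Y, K e b * u b := by
    rw [← hf]; exact Finset.sum_congr rfl fun b _ => by by_cases hb : b ∈ Y <;> simp [hb]
  rw [h2]
  by_cases he : e ∈ Y <;> simp [he]

/-- the norm of the image -/
theorem Op.nm_le {X : Finset V} {K : V → V → ℝ} (K0 : ∀ x y, 0 ≤ K x y) {l : ℝ} (l0 : 0 ≤ l)
    (h : Op X K l) {w : V → ℝ} (w0 : ∀ e ∈ X, 0 ≤ w e) :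
    nm X (fun x => ∑ e ∈ X, w e * K e x) ≤ l * nm X w := by
  set z : V → ℝ := fun x => ∑ e ∈ X, w e * K e x with hz
  have z0 : ∀ x ∈ X, 0 ≤ z x := fun x _ => Finset.sum_nonneg fun e he => mul_nonneg (w0 e he) (K0 e x)
  have h1 := h w z w0 z0
  have e1 : ∑ e ∈ X, w e * ∑ b ∈ X, K e b * z b = nm X z ^ 2 := by
    rw [nm_sq]
    simp only [Finset.mul_sum]
    rw [Finset.sum_comm]
    refine Finset.sum_congr rfl fun b _ => ?_
    rw [pow_two, hz]
    dsimp only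
    rw [Finset.sum_mul]
    exact Finset.sum_congr rfl fun e _ => by ring
  rw [e1] at h1
  rcases (nm_nonneg X z).eq_or_lt with h0 | h0
  · rw [← h0]; exact mul_nonneg l0 (nm_nonneg _ _)
  · have : nm X z * nm X z ≤ (l * nm X w) * nm X z := by nlinarith
    exact le_of_mul_le_mul_right this h0

/-- the pair operator in norms -/
theorem Qo_nm {X : Finset V} {T : V → V → ℝ} (T0 : ∀ x y, 0 ≤ T x y) {l Rb : ℝ}
    (hT : Op X T l) (hR : ∀ e ∈ X, ∑ b ∈ X, T e b ≤ Rb) {g a : V → ℝ} (g0 : ∀ x ∈ X, 0 ≤ g x)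
    (a0 : ∀ x ∈ X, 0 ≤ a x) : Qo X T g a ≤ (Rb + l) * (nm X g * nm X a) := by
  have e1 : Qo X T g a = ∑ x ∈ X, (g x * a x) * ∑ y ∈ X, T x y
      + ∑ x ∈ X, g x * ∑ y ∈ X, T x y * a y := by
    unfold Qo
    rw [← Finset.sum_add_distrib]
    refine Finset.sum_congr rfl fun x _ => ?_
    rw [Finset.mul_sum, Finset.mul_sum, ← Finset.sum_add_distrib]
    exact Finset.sum_congr rfl fun y _ => by ring
  rw [e1]
  have h1 : ∑ x ∈ X, (g x * a x) * ∑ y ∈ X, T x y ≤ Rb * ∑ x ∈ X, g x * a x := by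
    rw [Finset.mul_sum]
    refine Finset.sum_le_sum fun x hx => ?_
    have := mul_le_mul_of_nonneg_left (hR x hx) (mul_nonneg (g0 x hx) (a0 x hx))
    linarith
  have h2 := ip_le X g a
  by_cases hne : X.Nonempty
  · obtain ⟨x, hx⟩ := hne
    have Rb0 : 0 ≤ Rb := (Finset.sum_nonneg fun b _ => T0 x b).trans (hR x hx)
    have h3 := mul_le_mul_of_nonneg_left h2 Rb0
    have h4 := hT g a g0 a0
    linarith
  · rw [Finset.not_nonempty_iff_eq_empty] at hne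
    subst hne
    simp [nm]

/-- the pair operator with a row of a kernel, tested -/
theorem Qo_test {X : Finset V} {T G : V → V → ℝ} (T0 : ∀ x y, 0 ≤ T x y) {l Rb γ : ℝ}
    (l0 : 0 ≤ l) (γ0 : 0 ≤ γ) (Rb0 : 0 ≤ Rb)
    (hT : Op X T l) (hR : ∀ e ∈ X, ∑ b ∈ X, T e b ≤ Rb) (G0 : ∀ x y, 0 ≤ G x y)
    (hG : Op X G γ) {w a : V → ℝ} (w0 : ∀ x ∈ X, 0 ≤ w x)
    (a0 : ∀ x ∈ X, 0 ≤ a x) :
    ∑ e ∈ X, w e * Qo X T (G e) a ≤ (Rb + l) * γ * (nm X w * nm X a) := by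
  rw [Qo_sum1]
  have h1 := Qo_nm T0 hT hR (g := fun x => ∑ e ∈ X, w e * G e x)
    (fun x _ => Finset.sum_nonneg fun e he => mul_nonneg (w0 e he) (G0 e x)) a0
  have h2 := hG.nm_le G0 γ0 w0
  have h3 := mul_le_mul_of_nonneg_right h2 (nm_nonneg X a)
  have h4 := mul_le_mul_of_nonneg_left h3 (add_nonneg Rb0 l0)
  linarith

/-- exchange of the sums over targets and positions for the pair operator -/
theorem Qo_swap_tg {U : Finset V} {e : V} {T : V → V → ℝ} (T0 : ∀ x y, 0 ≤ T x y) {g f : V → ℝ}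
    (g0 : ∀ x, 0 ≤ g x) (f0 : ∀ c, 0 ≤ f c) {a : V → V → ℝ} (a0 : ∀ c z, 0 ≤ a c z) :
    ∑ c ∈ U.erase e, f c * Qo (U.erase c) T g (a c)
      ≤ Qo U T g (fun z => ∑ c ∈ U.erase z, f c * a c z) := by
  simp only [Qo_eq]
  have h1 : ∑ c ∈ U.erase e, f c * ∑ z ∈ U.erase c, qc (U.erase c) T g z * a c z
      ≤ ∑ c ∈ U.erase e, f c * ∑ z ∈ U.erase c, qc U T g z * a c z :=
    Finset.sum_le_sum fun c _ => mul_le_mul_of_nonneg_left (Finset.sum_le_sum fun z _ =>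
      mul_le_mul_of_nonneg_right (qc_mono (Finset.erase_subset _ _) T0 g0 z) (a0 c z)) (f0 c)
  exact h1.trans (sum_swap f0 (fun z => qc_nonneg T0 g0 z) a0)

end Pool.Agent.RX.RCM
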