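import Mathlib

/-! Level 0 with scalar functions (MP_73ccd0_lc, route M). -/

namespace Pool.Agent.RX.RCM

open Set Finset

set_option linter.unusedSectionVars false

/-- pointwise form of the sup lemma -/
theorem exp_row_pt {c δ x k : ℝ} (c0 : 0 < c) (δ0 : 0 ≤ δ) (hδ : c * δ ≤ 1)
    (x0 : 0 ≤ x) (k0 : 0 ≤ k) (hxk : x + k ≤ 1) :
    x * Real.exp ((k - (1 - c)) * δ) ≤ (1 - (1 - c) * c * δ) * x + c ^ 2 * δ * k := by
  -- linear in `x`: enough at `x = 1 - k`
  have main : (1 - k) * (Real.exp ((k - (1 - c)) * δ) - 1) ≤ c * δ * (k - (1 - c)) := by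
    set z : ℝ := k - (1 - c) with hz
    have e1 : 1 - k = c - z := by rw [hz]; ring
    rw [e1]
    have hz1 : 0 ≤ c - z := by linarith
    rcases le_total 0 z with h | h
    · -- `exp w ≤ 1 / (1 - w)`
      have hw : z * δ ≤ 1 := by nlinarith
      rcases eq_or_lt_of_le hw with hw1 | hw1
      · have : c - z = 0 := by
          have : c * δ = z * δ := by nlinarith
          have hδ0 : δ ≠ 0 := fun e => by rw [e, mul_zero] at hw1; norm_num at hw1
          have := mul_right_cancel₀ hδ0 this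
          linarith
        rw [this, zero_mul]
        positivity
      · have h1 : Real.exp (z * δ) * (1 - z * δ) ≤ 1 := by
          have h2 := Real.add_one_le_exp (-(z * δ))
          have h3 : Real.exp (z * δ) * Real.exp (-(z * δ)) = 1 := by rw [← Real.exp_add]; simp
          have h4 := mul_le_mul_of_nonneg_left h2 (Real.exp_pos (z * δ)).le
          linarith
        have h5 : 0 < 1 - z * δ := by linarith
        have h6 : Real.exp (z * δ) - 1 ≤ z * δ / (1 - z * δ) := by
          rw [le_div_iff₀ h5]; linarith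
        refine (mul_le_mul_of_nonneg_left h6 hz1).trans ?_
        rw [mul_div_assoc', div_le_iff₀ h5]
        have h7 : (c - z) ≤ c * (1 - z * δ) := by nlinarith
        have h8 : 0 ≤ z * δ := mul_nonneg h δ0
        nlinarith [mul_le_mul_of_nonneg_right h7 h8]
    · set v : ℝ := -(z * δ) with hv
      have hv0 : 0 ≤ v := by rw [hv]; nlinarith
      have e2 : z * δ = -v := by rw [hv]; ring
      rw [e2]
      have h1 : Real.exp (-v) * (1 + v) ≤ 1 := by
        have h2 := Real.add_one_le_exp v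
        have h3 : Real.exp (-v) * Real.exp v = 1 := by rw [← Real.exp_add]; simp
        have h4 := mul_le_mul_of_nonneg_left h2 (Real.exp_pos (-v)).le
        linarith
      have h5 : 0 < 1 + v := by linarith
      have h6 : Real.exp (-v) - 1 ≤ -(v / (1 + v)) := by
        rw [← neg_div, le_div_iff₀ h5]; linarith
      refine (mul_le_mul_of_nonneg_left h6 hz1).trans ?_
      have h9 : c * (v / (1 + v)) ≤ (c - z) * (v / (1 + v)) :=
        mul_le_mul_of_nonneg_right (by linarith) (div_nonneg hv0 h5.le)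
      have e3 : c * δ * z = -(c * v) := by rw [hv]; ring
      rw [e3]
      have h10 : c * v ≤ (c - z) * (v / (1 + v)) := by
        rw [mul_div_assoc', le_div_iff₀ h5]
        have h11 : c * (1 + v) ≤ c - z := by nlinarith
        nlinarith [mul_le_mul_of_nonneg_right h11 hv0]
      linarith
  have hk1 : k ≤ 1 := by linarith
  rcases eq_or_lt_of_le hk1 with hk | hk
  · have hx : x = 0 := by linarith
    rw [hx, zero_mul, mul_zero, zero_add]
    positivity
  · have h1 : 0 < 1 - k := by linarith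
    have h2 : (1 - k) * Real.exp ((k - (1 - c)) * δ)
        ≤ (1 - (1 - c) * c * δ) * (1 - k) + c ^ 2 * δ * k := by nlinarith
    have h3 := mul_le_mul_of_nonneg_left h2 x0
    have h4 : x * (c ^ 2 * δ * k) ≤ (1 - k) * (c ^ 2 * δ * k) :=
      mul_le_mul_of_nonneg_right (by linarith) (by positivity)
    refine le_of_mul_le_mul_left ?_ h1
    nlinarith

/-- sup lemma for the rows -/
theorem exp_row {ι : Type*} (S : Finset ι) {c δ : ℝ} {x k : ι → ℝ} (c0 : 0 < c)
    (δ0 : 0 ≤ δ) (hδ : c * δ ≤ 1) (x0 : ∀ b ∈ S, 0 ≤ x b) (k0 : ∀ b ∈ S, 0 ≤ k b)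
    (hxk : ∀ b ∈ S, x b + k b ≤ 1) (hx : ∑ b ∈ S, x b ≤ 1) (hk : c * ∑ b ∈ S, k b ≤ 1 - c) :
    ∑ b ∈ S, x b * Real.exp (k b * δ) + (1 - ∑ b ∈ S, x b) ≤ Real.exp ((1 - c) * δ) := by
  set X : ℝ := ∑ b ∈ S, x b with hX
  have h1 : ∑ b ∈ S, x b * Real.exp ((k b - (1 - c)) * δ)
      ≤ (1 - (1 - c) * c * δ) * X + c ^ 2 * δ * ∑ b ∈ S, k b := by
    rw [hX, Finset.mul_sum, Finset.mul_sum, ← Finset.sum_add_distrib]
    exact Finset.sum_le_sum fun b hb => exp_row_pt c0 δ0 hδ (x0 b hb) (k0 b hb) (hxk b hb)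
  have X0 : 0 ≤ X := Finset.sum_nonneg x0
  have h2 := exp_row_pt (x := 1 - X) (k := 0) c0 δ0 hδ (by linarith) le_rfl (by linarith)
  have h4 : c ^ 2 * δ * ∑ b ∈ S, k b ≤ (1 - c) * c * δ := by
    have := mul_le_mul_of_nonneg_left hk (mul_nonneg c0.le δ0)
    nlinarith
  have h5 : ∑ b ∈ S, x b * Real.exp ((k b - (1 - c)) * δ)
      + (1 - X) * Real.exp ((0 - (1 - c)) * δ) ≤ 1 := by linarith
  have h6 : ∑ b ∈ S, x b * Real.exp (k b * δ)
      = Real.exp ((1 - c) * δ) * ∑ b ∈ S, x b * Real.exp ((k b - (1 - c)) * δ) := by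
    rw [Finset.mul_sum]
    refine Finset.sum_congr rfl fun b _ => ?_
    rw [mul_left_comm, ← Real.exp_add]
    congr 2
    ring
  have h7 : 1 - X = Real.exp ((1 - c) * δ) * ((1 - X) * Real.exp ((0 - (1 - c)) * δ)) := by
    rw [mul_left_comm, ← Real.exp_add]
    have : (1 - c) * δ + (0 - (1 - c)) * δ = 0 := by ring
    rw [this, Real.exp_zero, mul_one]
  rw [h6, h7, ← mul_add]
  have := mul_le_mul_of_nonneg_left h5 (Real.exp_pos ((1 - c) * δ)).le
  linarith

variable {V : Type*} [Fintype V] [DecidableEq V]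
variable {h : ℝ → V → V → ℝ} {H : V → V → ℝ → ℝ}

/-- weights with rows at most one -/
structure Wt (x : V → V → ℝ) : Prop where
  symm : ∀ a b, x a b = x b a
  nn : ∀ a b, 0 ≤ x a b
  diag : ∀ a, x a a = 0
  row : ∀ a, ∑ b, x a b ≤ 1

/-- weight of `v` to the base set -/
noncomputable def kx (x : V → V → ℝ) (D : Finset V) (v : V) : ℝ := ∑ w ∈ D, x w v

theorem kx0 {x : V → V → ℝ} (hx : Wt x) (D : Finset V) (v : V) : 0 ≤ kx x D v :=
  Finset.sum_nonneg fun w _ => hx.nn w v

theorem row_U {x : V → V → ℝ} (hx : Wt x) (D : Finset V) (v : V) :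
    ∑ b ∈ Dᶜ, x v b + kx x D v ≤ 1 := by
  have h1 := hx.row v
  rw [← Finset.sum_add_sum_compl D] at h1
  have h2 : ∑ w ∈ D, x v w = kx x D v := Finset.sum_congr rfl fun w _ => hx.symm v w
  linarith

theorem kx1 {x : V → V → ℝ} (hx : Wt x) (D : Finset V) (v : V) : kx x D v ≤ 1 := by
  have h1 := row_U hx D v
  have h2 : 0 ≤ ∑ b ∈ Dᶜ, x v b := Finset.sum_nonneg fun b _ => hx.nn v b
  linarith

theorem x_add_kx {x : V → V → ℝ} (hx : Wt x) (D : Finset V) {v b : V} (hb : b ∈ Dᶜ) :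
    x v b + kx x D v ≤ 1 := by
  have h1 := row_U hx D v
  have h2 : x v b ≤ ∑ b ∈ Dᶜ, x v b := Finset.single_le_sum (f := fun b => x v b)
    (fun b _ => hx.nn v b) hb
  linarith

theorem sum_kx {x : V → V → ℝ} (hx : Wt x) (D S : Finset V) : ∑ v ∈ S, kx x D v ≤ D.card := by
  unfold kx
  rw [Finset.sum_comm]
  refine (Finset.sum_le_card_nsmul D _ 1 fun w _ => ?_).trans (by simp)
  exact (Finset.sum_le_sum_of_subset_of_nonneg (Finset.subset_univ S)
    fun v _ _ => hx.nn w v).trans (hx.row w)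

end Pool.Agent.RX.RCM
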