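import Pool.Agent.RX.RCM.Glue_1
import Pool.Agent.RX.RCM.Mono_1

/-! Monotonicity of the systems in the majorants, backward primitives
(MP_73ccd0_lc, route M). -/

namespace Pool.Agent.RX.RCM

open Set Finset MeasureTheory

set_option linter.unusedSectionVars false

variable {V : Type*} [Fintype V] [DecidableEq V]

theorem S12.mono {U : Finset V} {t τ : ℝ} {T A B T' A' B' : ℝ → V → V → ℝ}
    {gp gp' gm gm' : V → V → ℝ → ℝ} (hS : S12 U τ T' A' B' gp gp' gm gm') (htτ : t ≤ τ)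
    (hT : ∀ r ∈ Icc 0 t, ∀ i ∈ U, ∀ j ∈ U, T r i j ≤ T' r i j)
    (hA : ∀ r ∈ Icc 0 t, ∀ i ∈ U, ∀ j ∈ U, A r i j ≤ A' r i j)
    (hB : ∀ r ∈ Icc 0 t, ∀ i ∈ U, ∀ j ∈ U, B r i j ≤ B' r i j) :
    S12 U t T A B gp gp' gm gm' := by
  have m : ∀ r ∈ Icc 0 t, r ∈ Icc 0 τ := fun r hr => mem_of_le htτ hr
  have e1 : ∀ {z : ℝ}, 0 ≤ z → 0 ≤ 1 - Real.exp (-z) := fun {z} hz => by
    have := Real.exp_le_one_iff.2 (by linarith : -z ≤ 0); linarith
  have e2 : ∀ {z : ℝ}, 0 ≤ z → 0 ≤ Real.exp z - 1 := fun {z} hz => by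
    have := Real.one_le_exp hz; linarith
  have ee : ∀ {i j b : V}, b ∈ (U.erase i).erase j → b ∈ U := fun hb =>
    Finset.mem_of_mem_erase (Finset.mem_of_mem_erase hb)
  have k1 : ∀ r ∈ Icc 0 t, ∀ i ∈ U, ∀ j ∈ U, ∀ z : ℝ, 0 ≤ z → T r i j * z ≤ T' r i j * z :=
    fun r hr i hi j hj z hz => mul_le_mul_of_nonneg_right (hT r hr i hi j hj) hz
  refine ⟨fun i hi j hj r hr => hS.dp i hi j hj r (m r hr),
    fun i hi j hj r hr => hS.dm i hi j hj r (m r hr), fun i j r hr => hS.gp0 i j r (m r hr),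
    fun i j r hr => hS.gm0 i j r (m r hr), fun i hi j hj hij r hr => ?_,
    fun i hi j hj hij r hr => ?_⟩
  · have p1 := fun a b => hS.gp0 a b r (m r hr)
    have p2 := fun a b => hS.gm0 a b r (m r hr)
    refine le_trans ?_ (hS.op i hi j hj hij r (m r hr))
    refine add_le_add (add_le_add (add_le_add (hA r hr i hi j hj) ?_) ?_) ?_
    · exact Finset.sum_le_sum fun b hb => k1 r hr i hi b (ee hb) _ (e1 (p2 j b))
    · exact Finset.sum_le_sum fun b hb => k1 r hr j hj b (ee hb) _ (e1 (p2 i b))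
    · refine mul_le_mul_of_nonneg_left ?_ (by norm_num)
      refine Finset.sum_le_sum fun x hx => Finset.sum_le_sum fun y hy => ?_
      exact k1 r hr x (ee hx) y (ee hy) _
        (le_max_of_le_left (mul_nonneg (e1 (add_nonneg (p1 _ _) (p1 _ _)))
          (e1 (add_nonneg (p1 _ _) (p1 _ _)))))
  · have p1 := fun a b => hS.gp0 a b r (m r hr)
    have p2 := fun a b => hS.gm0 a b r (m r hr)
    refine le_trans ?_ (hS.om i hi j hj hij r (m r hr))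
    refine add_le_add (add_le_add (add_le_add (hB r hr i hi j hj) ?_) ?_) ?_
    · exact Finset.sum_le_sum fun b hb => k1 r hr i hi b (ee hb) _ (e1 (p1 j b))
    · exact Finset.sum_le_sum fun b hb => k1 r hr j hj b (ee hb) _ (e1 (p1 i b))
    · refine mul_le_mul_of_nonneg_left ?_ (by norm_num)
      refine Finset.sum_le_sum fun x hx => Finset.sum_le_sum fun y hy => ?_
      exact k1 r hr x (ee hx) y (ee hy) _
        (le_max_of_le_left (mul_nonneg (e1 (add_nonneg (p1 _ _) (p1 _ _)))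
          (e1 (add_nonneg (p2 _ _) (p2 _ _)))))

theorem Sk.mono {X : Finset V} {s : ℝ} {T T' : ℝ → V → V → ℝ}
    {pc nc pd nd pc' nc' pd' nd' : V → ℝ → ℝ} {k k' : ℝ → ℝ}
    (hS : Sk X s T' pc' nc' pd' nd' k k')
    (T0 : ∀ r ∈ Icc 0 s, ∀ i j, 0 ≤ T r i j)
    (hT : ∀ r ∈ Icc 0 s, ∀ i ∈ X, ∀ j ∈ X, T r i j ≤ T' r i j)
    (nc0 : ∀ e, ∀ r ∈ Icc 0 s, 0 ≤ nc e r) (pd0 : ∀ e, ∀ r ∈ Icc 0 s, 0 ≤ pd e r)
    (nd0 : ∀ e, ∀ r ∈ Icc 0 s, 0 ≤ nd e r) (pc0 : ∀ e, ∀ r ∈ Icc 0 s, 0 ≤ pc e r)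
    (hpc : ∀ e ∈ X, ∀ r ∈ Icc 0 s, pc e r ≤ pc' e r)
    (hnc : ∀ e ∈ X, ∀ r ∈ Icc 0 s, nc e r ≤ nc' e r)
    (hpd : ∀ e ∈ X, ∀ r ∈ Icc 0 s, pd e r ≤ pd' e r)
    (hnd : ∀ e ∈ X, ∀ r ∈ Icc 0 s, nd e r ≤ nd' e r) :
    Sk X s T pc nc pd nd k k' := by
  have e1 : ∀ {z : ℝ}, 0 ≤ z → 0 ≤ 1 - Real.exp (-z) := fun {z} hz => by
    have := Real.exp_le_one_iff.2 (by linarith : -z ≤ 0); linarith
  have e2 : ∀ {z : ℝ}, 0 ≤ z → 0 ≤ Real.exp z - 1 := fun {z} hz => by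
    have := Real.one_le_exp hz; linarith
  have f1 : ∀ {z w : ℝ}, z ≤ w → 1 - Real.exp (-z) ≤ 1 - Real.exp (-w) := fun {z w} h => by
    have := Real.exp_le_exp.2 (neg_le_neg h); linarith
  have f2 : ∀ {z w : ℝ}, z ≤ w → Real.exp z - 1 ≤ Real.exp w - 1 := fun {z w} h => by
    have := Real.exp_le_exp.2 h; linarith
  refine ⟨hS.d, fun r hr => le_trans ?_ (hS.o r hr)⟩
  refine mul_le_mul_of_nonneg_left ?_ (by norm_num)
  refine Finset.sum_le_sum fun x hx => Finset.sum_le_sum fun y hy => ?_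
  have a1 := add_le_add (hnc x hx r hr) (hnc y hy r hr)
  have a2 := add_le_add (hpd x hx r hr) (hpd y hy r hr)
  have a3 := add_le_add (hpc x hx r hr) (hpc y hy r hr)
  have a4 := add_le_add (hnd x hx r hr) (hnd y hy r hr)
  have b1 := add_nonneg (nc0 x r hr) (nc0 y r hr)
  have b2 := add_nonneg (pd0 x r hr) (pd0 y r hr)
  have b3 := add_nonneg (pc0 x r hr) (pc0 y r hr)
  have b4 := add_nonneg (nd0 x r hr) (nd0 y r hr)
  have c1 : max ((1 - Real.exp (-(nc x r + nc y r))) * (Real.exp (pd x r + pd y r) - 1))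
      ((Real.exp (pc x r + pc y r) - 1) * (1 - Real.exp (-(nd x r + nd y r))))
      ≤ max ((1 - Real.exp (-(nc' x r + nc' y r))) * (Real.exp (pd' x r + pd' y r) - 1))
      ((Real.exp (pc' x r + pc' y r) - 1) * (1 - Real.exp (-(nd' x r + nd' y r)))) :=
    max_le_max (mul_le_mul (f1 a1) (f2 a2) (e2 b2) (e1 (b1.trans a1)))
      (mul_le_mul (f2 a3) (f1 a4) (e1 b4) (e2 (b3.trans a3)))
  exact mul_le_mul (hT r hr x hx y hy) c1
    (le_max_of_le_left (mul_nonneg (e1 b1) (e2 b2))) ((T0 r hr x y).trans (hT r hr x hx y hy))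

/-- the backward primitive with the integrand frozen outside `[0, t]` -/
noncomputable def bk (f : ℝ → ℝ) (t r : ℝ) : ℝ := ∫ z in r..t, f (max 0 (min z t))

theorem bk_self (f : ℝ → ℝ) (t : ℝ) : bk f t t = 0 := by
  unfold bk
  exact intervalIntegral.integral_same

theorem clamp_mem {t : ℝ} (ht : 0 ≤ t) (r : ℝ) : max 0 (min r t) ∈ Icc 0 t :=
  ⟨le_max_left _ _, max_le ht (min_le_right _ _)⟩

theorem clamp_eq {t r : ℝ} (hr : r ∈ Icc 0 t) : max 0 (min r t) = r := by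
  rw [min_eq_left hr.2, max_eq_right hr.1]

theorem bk_cont {f : ℝ → ℝ} {t : ℝ} (ht : 0 ≤ t) (hf : ContinuousOn f (Icc 0 t)) :
    Continuous fun z => f (max 0 (min z t)) :=
  hf.comp_continuous (by fun_prop) (clamp_mem ht)

theorem bk_deriv {f : ℝ → ℝ} {t : ℝ} (ht : 0 ≤ t) (hf : ContinuousOn f (Icc 0 t)) {r : ℝ}
    (hr : r ∈ Icc 0 t) : HasDerivAt (bk f t) (-f r) r := by
  have hc := bk_cont ht hf
  have h1 := intervalIntegral.integral_hasDerivAt_left (hc.intervalIntegrable r t)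
    (hc.stronglyMeasurableAtFilter _ _) hc.continuousAt
  rw [clamp_eq hr] at h1
  exact h1

theorem bk_eq {f : ℝ → ℝ} {t r : ℝ} (hr : r ∈ Icc 0 t) : bk f t r = ∫ z in r..t, f z := by
  unfold bk
  refine intervalIntegral.integral_congr fun z hz => ?_
  rw [uIcc_of_le hr.2] at hz
  show f _ = f z
  rw [clamp_eq ⟨hr.1.trans hz.1, hz.2⟩]

theorem bk_nonneg {f : ℝ → ℝ} {t r : ℝ} (hr : r ∈ Icc 0 t) (f0 : ∀ z ∈ Icc 0 t, 0 ≤ f z) :
    0 ≤ bk f t r := by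
  rw [bk_eq hr]
  exact intervalIntegral.integral_nonneg hr.2 fun z hz => f0 z ⟨hr.1.trans hz.1, hz.2⟩

/-- monotonicity in the integrand and the horizon -/
theorem bk_le {f g : ℝ → ℝ} {t τ r : ℝ} (hr : r ∈ Icc 0 t) (hτ : t ≤ τ)
    (cf : ContinuousOn f (Icc 0 t)) (cg : ContinuousOn g (Icc 0 τ))
    (hfg : ∀ z ∈ Icc 0 t, f z ≤ g z) (g0 : ∀ z ∈ Icc 0 τ, 0 ≤ g z) :
    bk f t r ≤ bk g τ r := by
  have h0t : 0 ≤ t := hr.1.trans hr.2
  rw [bk_eq hr, bk_eq ⟨hr.1, hr.2.trans hτ⟩]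
  have ii : ∀ {f : ℝ → ℝ} {a b c : ℝ}, ContinuousOn f (Icc 0 c) → 0 ≤ a → a ≤ b → b ≤ c →
      IntervalIntegrable f volume a b := fun {f a b c} hf ha hab hb =>
    (hf.mono (by rw [uIcc_of_le hab]; exact Icc_subset_Icc ha hb)).intervalIntegrable
  rw [← intervalIntegral.integral_add_adjacent_intervals (ii cg hr.1 hr.2 hτ)
    (ii cg h0t hτ le_rfl)]
  have h1 := intervalIntegral.integral_mono_on hr.2 (ii cf hr.1 hr.2 le_rfl)
    (ii cg hr.1 hr.2 hτ) fun z hz => hfg z ⟨hr.1.trans hz.1, hz.2⟩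
  have h2 : 0 ≤ ∫ z in t..τ, g z := intervalIntegral.integral_nonneg hτ fun z hz =>
    g0 z ⟨h0t.trans hz.1, hz.2⟩
  linarith

end Pool.Agent.RX.RCM
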