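import Mathlib

/-! The world of a pair `a` (to time `t`), `b` (to time `s`) from the weights and the clocks
(MP_73ccd0_lc, route M). -/

namespace Pool.Agent.RX.RCM

open Set Finset

set_option linter.unusedSectionVars false

variable {V : Type*} [Fintype V] [DecidableEq V]
variable {h : ℝ → V → V → ℝ} {H : V → V → ℝ → ℝ}

/-- the majorant of the removal rates -/
noncomputable def Tb (hb : ℝ → V → V → ℝ) (y : V → ℝ → ℝ) (r : ℝ) (e f : V) : ℝ :=
  hb r e f * Real.exp (y e r + y f r)

/-- the majorant of `h (W - 1)` -/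
noncomputable def Ab (hb : ℝ → V → V → ℝ) (y : V → ℝ → ℝ) (r : ℝ) (e f : V) : ℝ :=
  hb r e f * (Real.exp (y e r + y f r) - 1)

end Pool.Agent.RX.RCM
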