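import Pool.Agent.RX.RCG.Ctx_1
import Pool.Agent.RX.RCM.LevZ
import Pool.Agent.RX.RCM.MonoB
import Pool.Agent.RX.RCM.Mono_2
import Pool.Agent.RX.RCM.WldOf
import Pool.Agent.RX.RCRSHalf.Ode

/-! The world of the removed set `D` (the part `A` with the time `t`, the rest with the time `s`)
with vector valued functions of level 0 (MP_73ccd0_lc, route M). -/

namespace Pool.Agent.RX.RCM

open Set Finset MeasureTheory Pool.Agent.RX.RCRSHalf Pool.Agent.RX.RCG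

set_option linter.unusedSectionVars false

variable {V : Type*} [Fintype V] [DecidableEq V]

/-- the majorant of `h (1 - T)` -/
def Bw (hb : ℝ → V → V → ℝ) (N : V → ℝ → ℝ) (r : ℝ) (e f : V) : ℝ :=
  hb r e f * (1 - (1 - N e r) * (1 - N f r))

/-- level 0 of a world with its majorants -/
structure W0 (h : ℝ → V → V → ℝ) (A D : Finset V) (s t : ℝ) (U : Finset V)
    (Pa Pa' Na Na' P P' N N' : V → ℝ → ℝ) (T Am Bm : ℝ → V → V → ℝ) : Prop where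
  La : L0 h (fun r v => ∑ w ∈ A, h r w v) U t Pa Pa' Na Na'
  L : L0 h (fun r v => ∑ w ∈ D, h r w v) U s P P' N N'
  mP : ∀ e ∈ U, Pa e s ≤ P e s
  mN : ∀ e ∈ U, Na e s ≤ N e s
  Ta : ∀ r ∈ Icc 0 t, ∀ i ∈ U, ∀ j ∈ U, h r i j * Wf Pa r i j ≤ T r i j
  Aa : ∀ r ∈ Icc 0 t, ∀ i ∈ U, ∀ j ∈ U, h r i j * (Wf Pa r i j - 1) ≤ Am r i j
  Ba : ∀ r ∈ Icc 0 t, ∀ i ∈ U, ∀ j ∈ U, h r i j * (1 - Tf Na r i j) ≤ Bm r i j
  Td : ∀ r ∈ Icc 0 s, ∀ i ∈ U, ∀ j ∈ U, h r i j * Wf P r i j ≤ T r i j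
  Ad : ∀ r ∈ Icc 0 s, ∀ i ∈ U, ∀ j ∈ U, h r i j * (Wf P r i j - 1) ≤ Am r i j
  Bd : ∀ r ∈ Icc 0 s, ∀ i ∈ U, ∀ j ∈ U, h r i j * (1 - Tf N r i j) ≤ Bm r i j

theorem W0.wld {h : ℝ → V → V → ℝ} {A D : Finset V} {s t : ℝ} {U : Finset V}
    {Pa Pa' Na Na' P P' N N' : V → ℝ → ℝ} {T Am Bm : ℝ → V → V → ℝ}
    {gp gp' gm gm' : V → V → ℝ → ℝ} (w : W0 h A D s t U Pa Pa' Na Na' P P' N N' T Am Bm)
    (g : S12 U t T Am Bm gp gp' gm gm') :
    Wld h A D s t U Pa Pa' Na Na' P P' N N' T Am Bm gp gp' gm gm' :=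
  ⟨w.La, w.L, w.mP, w.mN, w.Ta, w.Aa, w.Ba, w.Td, w.Ad, w.Bd, g⟩

/-- the scalar exponent -/
noncomputable def yhat (x : V → V → ℝ) (D : Finset V) (θ : V → ℝ → ℝ) (Y : ℝ → ℝ) (e : V)
    (r : ℝ) : ℝ := ∑ w ∈ D, x w e * θ w r + (1 - ∑ w ∈ D, x w e) * Y r

/-- the lower functions of level 0 from exponents -/
noncomputable def nv (hb : ℝ → V → V → ℝ) (U : Finset V) (y : V → ℝ → ℝ) (t : ℝ) (e : V) :
    ℝ → ℝ := bk (fun ρ => ∑ f ∈ U, hb ρ e f * (Real.exp (y f ρ) - 1)) t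

/-- the exponents of level 0 from lower functions, without the clocks -/
noncomputable def yv (hb : ℝ → V → V → ℝ) (U : Finset V) (N : V → ℝ → ℝ) (t : ℝ) (e : V) :
    ℝ → ℝ := bk (fun ρ => ∑ f ∈ U, hb ρ e f * N f ρ) t

/-- the vector exponent -/
noncomputable def yx (hb : ℝ → V → V → ℝ) (x : V → V → ℝ) (D : Finset V) (θ : V → ℝ → ℝ)
    (Y : ℝ → ℝ) (t : ℝ) (e : V) (r : ℝ) : ℝ :=
  ∑ w ∈ D, x w e * θ w r + yv hb Dᶜ (nv hb Dᶜ (yhat x D θ Y) t) t e r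

/-- the vector lower function (zero on `D`) -/
noncomputable def nx (hb : ℝ → V → V → ℝ) (x : V → V → ℝ) (D : Finset V) (θ : V → ℝ → ℝ)
    (Y : ℝ → ℝ) (t : ℝ) (e : V) (r : ℝ) : ℝ :=
  if e ∈ D then 0 else nv hb Dᶜ (yx hb x D θ Y t) t e r

/-- the conditions of level 0 with scalars: clocks `θ w` of `w ∈ D` -/
structure L0s (hb : ℝ → V → V → ℝ) (x : V → V → ℝ) (D : Finset V) (t : ℝ) (mb : ℝ → ℝ)
    (θ : V → ℝ → ℝ) (Y Y' N N' : ℝ → ℝ) : Prop where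
  b0 : ∀ u v, ∀ r ∈ Icc 0 t, 0 ≤ hb r u v
  bc : ∀ u v, ContinuousOn (fun r => hb r u v) (Icc 0 t)
  lm : ∀ u v, ∀ r ∈ Icc 0 t, hb r u v ≤ x u v * mb r
  mb0 : ∀ r ∈ Icc 0 t, 0 ≤ mb r
  θ0 : ∀ w ∈ D, ∀ r ∈ Icc 0 t, 0 ≤ θ w r
  θc : ∀ w ∈ D, ContinuousOn (θ w) (Icc 0 t)
  dY : ∀ r ∈ Icc 0 t, HasDerivAt Y (Y' r) r
  dN : ∀ r ∈ Icc 0 t, HasDerivAt N (N' r) r
  Y0 : ∀ r ∈ Icc 0 t, 0 ≤ Y r
  N0 : ∀ r ∈ Icc 0 t, 0 ≤ N r
  N1 : ∀ r ∈ Icc 0 t, N r ≤ 1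
  oY : ∀ r ∈ Icc 0 t, mb r * N r ≤ -Y' r
  oN : ∀ e ∈ Dᶜ, ∀ r ∈ Icc 0 t,
    mb r * ∑ f ∈ Dᶜ, x e f * (Real.exp (yhat x D θ Y f r) - 1) ≤ -N' r

section

variable {hb : ℝ → V → V → ℝ} {x : V → V → ℝ} {D : Finset V} {t : ℝ} {mb : ℝ → ℝ}
  {θ : V → ℝ → ℝ} {Y Y' N N' : ℝ → ℝ}

theorem kD_le (hx : Wt x) (D : Finset V) (e : V) :
    ∑ f ∈ Dᶜ, x e f ≤ 1 - ∑ w ∈ D, x w e := by
  have h1 := hx.row e
  rw [← Finset.sum_add_sum_compl D] at h1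
  have h2 : ∑ w ∈ D, x e w = ∑ w ∈ D, x w e := Finset.sum_congr rfl fun w _ => hx.symm e w
  linarith

theorem kD_nonneg (hx : Wt x) (D : Finset V) (e : V) : 0 ≤ 1 - ∑ w ∈ D, x w e :=
  (Finset.sum_nonneg fun f _ => hx.nn e f).trans (kD_le hx D e)

theorem L0s.yhat_nonneg (hL : L0s hb x D t mb θ Y Y' N N') (hx : Wt x) (e : V) {r : ℝ}
    (hr : r ∈ Icc 0 t) : 0 ≤ yhat x D θ Y e r :=
  add_nonneg (Finset.sum_nonneg fun w hw => mul_nonneg (hx.nn w e) (hL.θ0 w hw r hr))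
    (mul_nonneg (kD_nonneg hx D e) (hL.Y0 r hr))

theorem L0s.yhat_cont (hL : L0s hb x D t mb θ Y Y' N N') (e : V) :
    ContinuousOn (yhat x D θ Y e) (Icc 0 t) := by
  unfold yhat
  exact (continuousOn_finsetSum _ fun w hw => continuousOn_const.mul (hL.θc w hw)).add
    (continuousOn_const.mul fun r hr => (hL.dY r hr).continuousAt.continuousWithinAt)

theorem nv_int_cont (bc : ∀ u v, ContinuousOn (fun r => hb r u v) (Icc 0 t)) {y : V → ℝ → ℝ}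
    (cy : ∀ f, ContinuousOn (y f) (Icc 0 t)) (U : Finset V) (e : V) :
    ContinuousOn (fun ρ => ∑ f ∈ U, hb ρ e f * (Real.exp (y f ρ) - 1)) (Icc 0 t) :=
  continuousOn_finsetSum _ fun f _ => (bc e f).mul
    ((Real.continuous_exp.comp_continuousOn (cy f)).sub continuousOn_const)

theorem nv_cont (h0 : 0 ≤ t) (bc : ∀ u v, ContinuousOn (fun r => hb r u v) (Icc 0 t))
    {y : V → ℝ → ℝ} (cy : ∀ f, ContinuousOn (y f) (Icc 0 t)) (U : Finset V) (e : V) :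
    ContinuousOn (nv hb U y t e) (Icc 0 t) := fun _ hr =>
  (bk_deriv h0 (nv_int_cont bc cy U e) hr).continuousAt.continuousWithinAt

theorem yv_int_cont (bc : ∀ u v, ContinuousOn (fun r => hb r u v) (Icc 0 t)) {n : V → ℝ → ℝ}
    (cn : ∀ f, ContinuousOn (n f) (Icc 0 t)) (U : Finset V) (e : V) :
    ContinuousOn (fun ρ => ∑ f ∈ U, hb ρ e f * n f ρ) (Icc 0 t) :=
  continuousOn_finsetSum _ fun f _ => (bc e f).mul (cn f)

theorem yv_cont (h0 : 0 ≤ t) (bc : ∀ u v, ContinuousOn (fun r => hb r u v) (Icc 0 t))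
    {n : V → ℝ → ℝ} (cn : ∀ f, ContinuousOn (n f) (Icc 0 t)) (U : Finset V) (e : V) :
    ContinuousOn (yv hb U n t e) (Icc 0 t) := fun _ hr =>
  (bk_deriv h0 (yv_int_cont bc cn U e) hr).continuousAt.continuousWithinAt

/-- backward comparison with a supersolution -/
theorem bk_le_of {f g g' : ℝ → ℝ} (h0 : 0 ≤ t) (cf : ContinuousOn f (Icc 0 t))
    (dg : ∀ r ∈ Icc 0 t, HasDerivAt g (g' r) r) (hfg : ∀ r ∈ Icc 0 t, f r ≤ -g' r)
    (gt : 0 ≤ g t) : ∀ r ∈ Icc 0 t, bk f t r ≤ g r := by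
  intro r hr
  have := nonneg_of_backward (U := fun r => g r - bk f t r) (U' := fun r => g' r - -f r) (a := 0)
    (s := t) (fun r hr => (dg r hr).sub (bk_deriv h0 cf hr)) (by
      show 0 ≤ g t - bk f t t
      rw [bk_self]; linarith)
    (fun r hr _ => by linarith [hfg r hr]) r hr
  linarith

theorem L0s.nv_le (hL : L0s hb x D t mb θ Y Y' N N') (hx : Wt x) (h0 : 0 ≤ t) :
    ∀ e ∈ Dᶜ, ∀ r ∈ Icc 0 t, nv hb Dᶜ (yhat x D θ Y) t e r ≤ N r := by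
  intro e he
  refine bk_le_of h0 (nv_int_cont hL.bc hL.yhat_cont _ e) hL.dN (fun r hr => ?_)
    (hL.N0 t ⟨h0, le_rfl⟩)
  refine le_trans ?_ (hL.oN e he r hr)
  rw [Finset.mul_sum]
  refine Finset.sum_le_sum fun f _ => ?_
  have h1 : 0 ≤ Real.exp (yhat x D θ Y f r) - 1 := by
    have := Real.one_le_exp (hL.yhat_nonneg hx f hr); linarith
  have h2 := mul_le_mul_of_nonneg_right (hL.lm e f r hr) h1
  linarith

theorem L0s.yv_le (hL : L0s hb x D t mb θ Y Y' N N') (hx : Wt x) (h0 : 0 ≤ t) (e : V) :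
    ∀ r ∈ Icc 0 t, yv hb Dᶜ (nv hb Dᶜ (yhat x D θ Y) t) t e r
      ≤ (1 - ∑ w ∈ D, x w e) * Y r := by
  refine bk_le_of h0 (yv_int_cont hL.bc (nv_cont h0 hL.bc hL.yhat_cont _) _ e)
    (g' := fun r => (1 - ∑ w ∈ D, x w e) * Y' r)
    (fun r hr => (hL.dY r hr).const_mul _) (fun r hr => ?_)
    (mul_nonneg (kD_nonneg hx D e) (hL.Y0 t ⟨h0, le_rfl⟩))
  have h1 : ∑ f ∈ Dᶜ, hb r e f * nv hb Dᶜ (yhat x D θ Y) t f r
      ≤ (∑ f ∈ Dᶜ, x e f) * (mb r * N r) := by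
    rw [Finset.sum_mul]
    refine Finset.sum_le_sum fun f hf => ?_
    have a1 := mul_le_mul_of_nonneg_left (hL.nv_le hx h0 f hf r hr) (hL.b0 e f r hr)
    have a2 := mul_le_mul_of_nonneg_right (hL.lm e f r hr) (hL.N0 r hr)
    linarith
  have h2 := mul_le_mul_of_nonneg_right (kD_le hx D e)
    (mul_nonneg (hL.mb0 r hr) (hL.N0 r hr))
  have h3 := mul_le_mul_of_nonneg_left (hL.oY r hr) (kD_nonneg hx D e)
  linarith

theorem L0s.nv_nonneg (hL : L0s hb x D t mb θ Y Y' N N') (hx : Wt x) (e : V) {r : ℝ}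
    (hr : r ∈ Icc 0 t) : 0 ≤ nv hb Dᶜ (yhat x D θ Y) t e r :=
  bk_nonneg hr fun z hz => Finset.sum_nonneg fun f _ => mul_nonneg (hL.b0 e f z hz) (by
    have := Real.one_le_exp (hL.yhat_nonneg hx f hz); linarith)

theorem L0s.yv_nonneg (hL : L0s hb x D t mb θ Y Y' N N') (hx : Wt x) (e : V) {r : ℝ}
    (hr : r ∈ Icc 0 t) : 0 ≤ yv hb Dᶜ (nv hb Dᶜ (yhat x D θ Y) t) t e r :=
  bk_nonneg hr fun z hz => Finset.sum_nonneg fun f _ => mul_nonneg (hL.b0 e f z hz)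
    (hL.nv_nonneg hx f hz)

theorem L0s.yx_nonneg (hL : L0s hb x D t mb θ Y Y' N N') (hx : Wt x) (e : V) {r : ℝ}
    (hr : r ∈ Icc 0 t) : 0 ≤ yx hb x D θ Y t e r :=
  add_nonneg (Finset.sum_nonneg fun w hw => mul_nonneg (hx.nn w e) (hL.θ0 w hw r hr))
    (hL.yv_nonneg hx e hr)

theorem L0s.yx_le (hL : L0s hb x D t mb θ Y Y' N N') (hx : Wt x) (h0 : 0 ≤ t) (e : V) {r : ℝ}
    (hr : r ∈ Icc 0 t) : yx hb x D θ Y t e r ≤ yhat x D θ Y e r :=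
  add_le_add le_rfl (hL.yv_le hx h0 e r hr)

theorem L0s.yx_cont (hL : L0s hb x D t mb θ Y Y' N N') (h0 : 0 ≤ t) (e : V) :
    ContinuousOn (yx hb x D θ Y t e) (Icc 0 t) :=
  (continuousOn_finsetSum _ fun w hw => continuousOn_const.mul (hL.θc w hw)).add
    (yv_cont h0 hL.bc (nv_cont h0 hL.bc hL.yhat_cont _) _ e)

theorem nx_eq {e : V} (he : e ∈ Dᶜ) : nx hb x D θ Y t e = nv hb Dᶜ (yx hb x D θ Y t) t e := by
  funext r
  unfold nx
  rw [if_neg (Finset.mem_compl.1 he)]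

theorem L0s.nx_nonneg (hL : L0s hb x D t mb θ Y Y' N N') (hx : Wt x) (e : V) {r : ℝ}
    (hr : r ∈ Icc 0 t) : 0 ≤ nx hb x D θ Y t e r := by
  unfold nx
  split_ifs
  · exact le_rfl
  · exact bk_nonneg hr fun z hz => Finset.sum_nonneg fun f _ => mul_nonneg (hL.b0 e f z hz) (by
      have := Real.one_le_exp (hL.yx_nonneg hx f hz); linarith)

theorem L0s.nx_le (hL : L0s hb x D t mb θ Y Y' N N') (hx : Wt x) (h0 : 0 ≤ t) (e : V) {r : ℝ}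
    (hr : r ∈ Icc 0 t) : nx hb x D θ Y t e r ≤ nv hb Dᶜ (yhat x D θ Y) t e r := by
  unfold nx
  split_ifs
  · exact hL.nv_nonneg hx e hr
  · refine bk_le hr le_rfl (nv_int_cont hL.bc (hL.yx_cont h0) _ e)
      (nv_int_cont hL.bc hL.yhat_cont _ e) (fun z hz => Finset.sum_le_sum fun f _ => ?_)
      (fun z hz => Finset.sum_nonneg fun f _ => mul_nonneg (hL.b0 e f z hz) (by
        have := Real.one_le_exp (hL.yhat_nonneg hx f hz); linarith))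
    have := Real.exp_le_exp.2 (hL.yx_le hx h0 f hz)
    exact mul_le_mul_of_nonneg_left (by linarith) (hL.b0 e f z hz)

theorem L0s.nx_one (hL : L0s hb x D t mb θ Y Y' N N') (hx : Wt x) (h0 : 0 ≤ t) (e : V) {r : ℝ}
    (hr : r ∈ Icc 0 t) : nx hb x D θ Y t e r ≤ 1 := by
  by_cases he : e ∈ D
  · unfold nx
    rw [if_pos he]
    exact zero_le_one
  · exact (hL.nx_le hx h0 e hr).trans ((hL.nv_le hx h0 e (Finset.mem_compl.2 he) r hr).trans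
      (hL.N1 r hr))

variable {h : ℝ → V → V → ℝ} {H : V → V → ℝ → ℝ}

/-- one phase of the world: `A` is removed with horizons `τ w` -/
theorem L0s.phase (hL : L0s hb x D t mb θ Y Y' N N') (hx : Wt x) (hh : Haz h H) (h0 : 0 ≤ t)
    (hle : ∀ u v, ∀ r ∈ Icc 0 t, h r u v ≤ hb r u v) {A : Finset V} (hAD : A ⊆ D) {s : ℝ}
    (hst : s ≤ t) {τ : V → ℝ} (hsτ : ∀ w ∈ A, s ≤ τ w)
    (hθ : ∀ w ∈ A, ∀ e, ∀ r ∈ Icc 0 s, H w e (τ w) - H w e r ≤ x w e * θ w r) :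
    ∃ P P' : V → ℝ → ℝ,
      L0 h (fun r v => ∑ w ∈ A, h r w v) Dᶜ s P P' (nx hb x D θ Y t)
        (fun e r => -(∑ f ∈ Dᶜ, hb r e f * (Real.exp (yx hb x D θ Y t f r) - 1))) ∧
      (∀ e, ∀ r ∈ Icc 0 s, P e r = Real.exp (∑ w ∈ A, (H w e (τ w) - H w e r)
        + yv hb Dᶜ (nv hb Dᶜ (yhat x D θ Y) t) t e r) - 1) ∧
      (∀ e, ∀ r ∈ Icc 0 s, 0 ≤ P e r ∧ P e r ≤ Real.exp (yx hb x D θ Y t e r) - 1) := by
  have m : ∀ r ∈ Icc 0 s, r ∈ Icc 0 t := fun r hr => ⟨hr.1, hr.2.trans hst⟩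
  set Yv : V → ℝ → ℝ := fun e r => yv hb Dᶜ (nv hb Dᶜ (yhat x D θ Y) t) t e r with hYv
  set E : V → ℝ → ℝ := fun e r => ∑ w ∈ A, (H w e (τ w) - H w e r) + Yv e r with hE
  have cnv := fun e => nv_cont (e := e) (U := Dᶜ) h0 hL.bc hL.yhat_cont
  have E0 : ∀ e, ∀ r ∈ Icc 0 s, 0 ≤ E e r := fun e r hr =>
    add_nonneg (Finset.sum_nonneg fun w hw => by
      linarith [hh.Hmono w e (hr.2.trans (hsτ w hw))]) (hL.yv_nonneg hx e (m r hr))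
  have El : ∀ e, ∀ r ∈ Icc 0 s, E e r ≤ yx hb x D θ Y t e r := fun e r hr => by
    refine add_le_add ?_ le_rfl
    refine (Finset.sum_le_sum fun w hw => hθ w hw e r hr).trans ?_
    exact Finset.sum_le_sum_of_subset_of_nonneg hAD fun w hw _ =>
      mul_nonneg (hx.nn w e) (hL.θ0 w hw r (m r hr))
  have dE : ∀ e, ∀ r ∈ Icc 0 s, HasDerivAt (E e) (∑ w ∈ A, (0 - h r w e)
      + -(∑ f ∈ Dᶜ, hb r e f * nv hb Dᶜ (yhat x D θ Y) t f r)) r := fun e r hr =>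
    (HasDerivAt.fun_sum fun w _ => (hasDerivAt_const _ _).sub (hh.Hd w e r)).add
      (bk_deriv h0 (yv_int_cont hL.bc cnv _ e) (m r hr))
  have P0 : ∀ e, ∀ r ∈ Icc 0 s, 0 ≤ Real.exp (E e r) - 1 := fun e r hr => by
    have := Real.one_le_exp (E0 e r hr); linarith
  have Pl : ∀ e, ∀ r ∈ Icc 0 s, Real.exp (E e r) - 1 ≤ Real.exp (yx hb x D θ Y t e r) - 1 :=
    fun e r hr => by have := Real.exp_le_exp.2 (El e r hr); linarith
  refine ⟨fun e r => Real.exp (E e r) - 1, fun e r => Real.exp (E e r)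
      * (∑ w ∈ A, (0 - h r w e) + -(∑ f ∈ Dᶜ, hb r e f * nv hb Dᶜ (yhat x D θ Y) t f r)),
    ⟨fun e _ r hr => ?_, fun e he r hr => ?_, fun e r hr => P0 e r hr,
      fun e r hr => hL.nx_nonneg hx e (m r hr), fun e r hr => hL.nx_one hx h0 e (m r hr),
      fun e he r hr => ?_, fun e he r hr => ?_⟩, fun e r _ => rfl,
    fun e r hr => ⟨P0 e r hr, Pl e r hr⟩⟩
  · exact (dE e r hr).exp.sub_const 1
  · rw [nx_eq he]
    exact bk_deriv h0 (nv_int_cont hL.bc (hL.yx_cont h0) _ e) (m r hr)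
  · have e1 : -(Real.exp (E e r) * (∑ w ∈ A, (0 - h r w e)
        + -(∑ f ∈ Dᶜ, hb r e f * nv hb Dᶜ (yhat x D θ Y) t f r)))
        = Real.exp (E e r) * (∑ w ∈ A, h r w e
          + ∑ f ∈ Dᶜ, hb r e f * nv hb Dᶜ (yhat x D θ Y) t f r) := by
      simp only [zero_sub, Finset.sum_neg_distrib]
      ring
    rw [e1]
    have e2 : 1 + (Real.exp (E e r) - 1) = Real.exp (E e r) := by ring
    rw [e2]
    refine mul_le_mul_of_nonneg_left (add_le_add le_rfl ?_) (Real.exp_pos _).le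
    refine Finset.sum_le_sum fun f _ => ?_
    exact mul_le_mul (hle e f r (m r hr)) (hL.nx_le hx h0 f (m r hr))
      (hL.nx_nonneg hx f (m r hr)) (hL.b0 e f r (m r hr))
  · rw [neg_neg]
    refine Finset.sum_le_sum fun f _ => ?_
    exact mul_le_mul (hle e f r (m r hr)) (Pl f r hr) (P0 f r hr) (hL.b0 e f r (m r hr))

/-- **level 0 of the world with vector functions** -/
theorem L0s.w0 (hL : L0s hb x D t mb θ Y Y' N N') (hx : Wt x) (hh : Haz h H)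
    (hle : ∀ u v, ∀ r ∈ Icc 0 t, h r u v ≤ hb r u v) {A : Finset V} (hAD : A ⊆ D) {s : ℝ}
    (hs : s ∈ Icc 0 t)
    (hθa : ∀ w ∈ A, ∀ e, ∀ r ∈ Icc 0 t, H w e t - H w e r ≤ x w e * θ w r)
    (hθs : ∀ w ∈ D, w ∉ A → ∀ e, ∀ r ∈ Icc 0 s, H w e s - H w e r ≤ x w e * θ w r) :
    ∃ Pa Pa' Na Na' P P' N N' : V → ℝ → ℝ,
      W0 h A D s t Dᶜ Pa Pa' Na Na' P P' N N' (Tb hb (yx hb x D θ Y t))
        (Ab hb (yx hb x D θ Y t)) (Bw hb (nx hb x D θ Y t)) := by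
  have h0 : 0 ≤ t := hs.1.trans hs.2
  have m : ∀ r ∈ Icc 0 s, r ∈ Icc 0 t := fun r hr => ⟨hr.1, hr.2.trans hs.2⟩
  obtain ⟨Pa, Pa', La, ea, ba⟩ := hL.phase hx hh h0 hle hAD le_rfl (τ := fun _ => t)
    (fun _ _ => le_rfl) hθa
  obtain ⟨P, P', Ld, ed, bd⟩ := hL.phase hx hh h0 hle (Finset.Subset.refl D) hs.2
    (τ := fun w => if w ∈ A then t else s)
    (fun w _ => by split_ifs; exacts [hs.2, le_rfl])
    (fun w hw e r hr => by
      by_cases hA : w ∈ A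
      · rw [if_pos hA]; exact hθa w hA e r (m r hr)
      · rw [if_neg hA]; exact hθs w hw hA e r hr)
  have key : ∀ {Q : V → ℝ → ℝ} {r : ℝ}, r ∈ Icc 0 t → (∀ e, 0 ≤ Q e r ∧
      Q e r ≤ Real.exp (yx hb x D θ Y t e r) - 1) → ∀ i j,
      h r i j * Wf Q r i j ≤ Tb hb (yx hb x D θ Y t) r i j ∧
      h r i j * (Wf Q r i j - 1) ≤ Ab hb (yx hb x D θ Y t) r i j := by
    intro Q r hr hQ i j
    have a1 : Wf Q r i j ≤ Real.exp (yx hb x D θ Y t i r + yx hb x D θ Y t j r) := by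
      unfold Wf
      rw [Real.exp_add]
      exact mul_le_mul (by linarith [(hQ i).2]) (by linarith [(hQ j).2])
        (by linarith [(hQ j).1]) (Real.exp_pos _).le
    have a2 : 1 ≤ Wf Q r i j := by
      unfold Wf
      nlinarith [(hQ i).1, (hQ j).1]
    unfold Tb Ab
    exact ⟨mul_le_mul (hle i j r hr) a1 (by linarith) (hL.b0 i j r hr),
      mul_le_mul (hle i j r hr) (by linarith) (by linarith) (hL.b0 i j r hr)⟩
  have kB : ∀ r ∈ Icc 0 t, ∀ i j, h r i j * (1 - Tf (nx hb x D θ Y t) r i j)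
      ≤ Bw hb (nx hb x D θ Y t) r i j := by
    intro r hr i j
    unfold Bw Tf
    have n1 := hL.nx_nonneg hx i hr
    have n2 := hL.nx_nonneg hx j hr
    have n3 := hL.nx_one hx h0 i hr
    have n4 := hL.nx_one hx h0 j hr
    exact mul_le_mul_of_nonneg_right (hle i j r hr) (by nlinarith)
  refine ⟨Pa, Pa', _, _, P, P', _, _, La, Ld, fun e _ => ?_, fun e _ => le_rfl,
    fun r hr i _ j _ => (key hr (fun e => ba e r hr) i j).1,
    fun r hr i _ j _ => (key hr (fun e => ba e r hr) i j).2,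
    fun r hr i _ j _ => kB r hr i j,
    fun r hr i _ j _ => (key (m r hr) (fun e => bd e r hr) i j).1,
    fun r hr i _ j _ => (key (m r hr) (fun e => bd e r hr) i j).2,
    fun r hr i _ j _ => kB r (m r hr) i j⟩
  have hss : s ∈ Icc 0 s := ⟨hs.1, le_rfl⟩
  rw [ea e s hs, ed e s hss]
  have e1 : ∑ w ∈ A, (H w e t - H w e s)
      ≤ ∑ w ∈ D, (H w e (if w ∈ A then t else s) - H w e s) := by
    refine le_trans (le_of_eq ?_) (Finset.sum_le_sum_of_subset_of_nonneg hAD fun w _ hw => ?_)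
    · exact Finset.sum_congr rfl fun w hw => by rw [if_pos hw]
    · rw [if_neg hw, sub_self]
  have := Real.exp_le_exp.2 (add_le_add_left e1
    (yv hb Dᶜ (nv hb Dᶜ (yhat x D θ Y) t) t e s))
  linarith

end

end Pool.Agent.RX.RCM
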