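import Pool.Agent.RX.EPS.ATy
import Pool.Agent.RX.EPS.BTy
import Pool.Agent.RX.EPS.DfN
import Pool.Agent.RX.EPS.OpA
import Pool.Agent.RX.EPS.OpB
import Pool.Agent.RX.EPS.OpT
import Pool.Agent.RX.EPS.QoCs
import Pool.Agent.RX.EPS.RowK
import Pool.Agent.RX.EPS.RzK
import Pool.Agent.RX.EPS.ScR
import Pool.Agent.RX.EPS.Sup1
import Pool.Agent.RX.EPS.TDf
import Pool.Agent.RX.EPS.TDz
import Pool.Agent.RX.EPS.XRow
import Pool.Agent.RX.EPS.fAN
import Pool.Agent.RX.EPS.fTN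
import Pool.Agent.RX.RCM.EpA
import Pool.Agent.RX.RCM.L2b
import Pool.Agent.RX.RCM.WldV

/-! Density errors: the kernels at a fixed time (MP_73ccd0_lc, route M). -/

namespace Pool.Agent.RX.RCM

open Set Finset

set_option linter.unusedSectionVars false

variable {V : Type*} [Fintype V] [DecidableEq V]

/-- the total weight to the removed vertices -/
noncomputable def kap (x : V → V → ℝ) (D : Finset V) (e : V) : ℝ := ∑ w ∈ D, x w e

theorem kap_nn {x : V → V → ℝ} (hx : Wt x) (D : Finset V) (e : V) : 0 ≤ kap x D e :=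
  Finset.sum_nonneg fun w _ => hx.nn w e

theorem kap_le {x : V → V → ℝ} (hx : Wt x) (D : Finset V) (e : V) : kap x D e ≤ 1 := by
  have := kD_nonneg hx D e
  unfold kap
  linarith

theorem wx_of {x : V → V → ℝ} (hx : Wt x) (D : Finset V) : EPS.Wx Dᶜ x (kap x D) :=
  ⟨hx.symm, hx.nn, hx.diag, fun u _ => kap_nn hx D u, fun u _ => kD_le hx D u⟩

/-- the vertex factor -/
noncomputable def Gx (s : Us) (u : ℝ) (x : V → V → ℝ) (D : Finset V) (e : V) : ℝ :=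
  Real.exp (s.Y u) * Real.exp ((s.th u - s.Y u) * kap x D e)

theorem Gx_pos (s : Us) (u : ℝ) (x : V → V → ℝ) (D : Finset V) (e : V) : 0 < Gx s u x D e :=
  mul_pos (Real.exp_pos _) (Real.exp_pos _)

/-- the kernel condition -/
structure Kc (s : Us) (u : ℝ) (x : V → V → ℝ) (D : Finset V) (mb : ℝ) (T : V → V → ℝ) :
    Prop where
  m0 : 0 ≤ mb
  Ts : ∀ i j, T i j = T j i
  T0 : ∀ i j, 0 ≤ T i j
  le : ∀ i ∈ Dᶜ, ∀ j ∈ Dᶜ, T i j ≤ mb * (x i j * (Gx s u x D i * Gx s u x D j))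

variable {s : Us} {u mb M : ℝ} {x : V → V → ℝ} {D : Finset V} {T : V → V → ℝ} {f : V → ℝ}

theorem Kc.kx (hT : Kc s u x D mb T) (h : s.Ok) (hu : u ∈ Icc 0 s.U0) (hx : Wt x) :
    EPS.Kx Dᶜ x (kap x D) (Gx s u x D) mb (s.lam u) (s.g u) (s.ss u) T := by
  have a0 := h.a0 hu
  have a1 := h.aY u hu
  have g0 := h.g0 hu
  have hg := h.hg u hu
  have eY := (Real.exp_pos (s.Y u)).le
  have g2 : Real.exp (s.Y u) ^ 2 ≤ s.g u ^ 2 := pow_le_pow_left₀ eY hg 2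
  have sq : ∀ e, Gx s u x D e ^ 2
      = Real.exp (s.Y u) ^ 2 * Real.exp (2 * ((s.th u - s.Y u) * kap x D e)) := fun e => by
    unfold Gx
    rw [mul_pow, ← Real.exp_nat_mul ((s.th u - s.Y u) * kap x D e) 2]
    norm_num
  refine ⟨hT.m0, hT.Ts, hT.T0, hT.le, fun e _ => (Gx_pos s u x D e).le, h.lam0 hu, g0,
    h.ss0 u hu, fun e _ => ?_, fun e _ => ?_, fun e _ => ?_⟩
  · have k0 := kap_nn hx D e
    have k1 := kap_le hx D e
    have h1 := EPS.sup_lam a0 a1 k0 k1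
    rw [sq]
    refine le_trans (le_of_eq (by ring)) ((mul_le_mul g2 h1 ?_ (sq_nonneg _)).trans (h.hlam u hu))
    exact mul_nonneg (by linarith) (Real.exp_pos _).le
  · have k0 := kap_nn hx D e
    have k1 := kap_le hx D e
    have h1 := EPS.sup_g a1 k0 k1
    unfold Gx
    have := mul_le_mul_of_nonneg_left h1 eY
    refine le_trans (le_of_eq (by ring)) (this.trans ?_)
    rw [mul_one]; exact hg
  · have h1 := EPS.sup_s (a := s.th u - s.Y u) (k := kap x D e)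
    rw [sq]
    have h2 := mul_le_mul_of_nonneg_left h1 (sq_nonneg (Real.exp (s.Y u)))
    refine le_trans (le_of_eq (by ring)) (h2.trans (le_trans (le_of_eq ?_) (h.hss u hu)))
    rw [Real.exp_add (2 * s.Y u) _, two_mul (s.Y u), Real.exp_add (s.Y u) (s.Y u)]
    ring

theorem sl_le (h : s.Ok) (hu : u ∈ Icc 0 s.U0) : Real.sqrt (s.lam u) ≤ s.sl u := by
  rw [show s.sl u = Real.sqrt (s.sl u ^ 2) from (Real.sqrt_sq (h.sl0 u hu)).symm]
  exact Real.sqrt_le_sqrt (h.hsl u hu)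

/-- the norm of the kernel -/
theorem Kc.op (hT : Kc s u x D mb T) (h : s.Ok) (hu : u ∈ Icc 0 s.U0) (hx : Wt x) :
    Op Dᶜ T (mb * s.lam u) := EPS.op_T (wx_of hx D) (hT.kx h hu hx)

theorem Kc.rz (hT : Kc s u x D mb T) (h : s.Ok) (hu : u ∈ Icc 0 s.U0) (hx : Wt x)
    (hκ : ∑ e ∈ Dᶜ, kap x D e ≤ 2) :
    (∀ e ∈ Dᶜ, ∑ b ∈ Dᶜ, T e b ≤ mb * s.Rb u) ∧
    ∀ z ∈ Dᶜ, ∀ e ∈ Dᶜ.erase z, ∀ S ⊆ Dᶜ.erase z, ∑ b ∈ S, T e b
      ≤ mb * ((1 - x z e) * (s.g u ^ 2 * (1 + s.c u * (1 - (1 - x z e) / 3)))) := by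
  have a0 := h.a0 hu
  have a1 := h.aY u hu
  have e1 := Real.one_le_exp a0
  have hc := h.hc u hu
  have c0 := h.c0 hu
  have g0 := h.g0 hu
  have eY := (Real.exp_pos (s.Y u)).le
  have g2 : Real.exp (s.Y u) ^ 2 ≤ s.g u ^ 2 := pow_le_pow_left₀ eY (h.hg u hu) 2
  have key := EPS.R_z (wx_of hx D) (hT.kx h hu hx) (w := Real.exp (s.Y u))
    (a := s.th u - s.Y u) (K := 2) eY a0 (by norm_num) (fun e _ => rfl) hκ
    (fun k k0 k1 => EPS.exp_chord k0 k1)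
    (fun S y k p y0 k0 yk hk hp p1 => EPS.row_K (by norm_num) y0 k0 yk hk hp p1 (by linarith))
    (fun k y k0 y0 ky => EPS.sc_R a0 a1 (by linarith) (by norm_num) k0 y0 ky (by
      have h1 := h.hc3 u hu
      have h2 := Real.add_one_le_exp (s.th u - s.Y u)
      have h4 : 0 ≤ 1 - (s.th u - s.Y u) := by linarith
      have h5 : (1 - (s.th u - s.Y u)) * (1 + 2 / 3 * (s.th u - s.Y u))
          ≤ (1 - (s.th u - s.Y u)) * (1 + (Real.exp (s.th u - s.Y u) - 1) * (1 - 1 / (2 + 1))) :=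
        mul_le_mul_of_nonneg_left (by norm_num; linarith) h4
      have h6 : (Real.exp (s.th u - s.Y u) - 1) / (2 + 1) ≤ s.c u / 3 := by
        norm_num
        linarith
      exact h6.trans (h1.trans h5)))
  refine ⟨fun e he => (key.1 e he).trans ?_, fun z hz e he S hS =>
    (key.2 z hz e he S hS).trans ?_⟩
  · refine mul_le_mul_of_nonneg_left (le_trans (mul_le_mul g2 ?_ ?_ (sq_nonneg _))
      (h.hRb u hu)) hT.m0
    · linarith
    · have : 0 ≤ (Real.exp (s.th u - s.Y u) - 1) * (1 - 1 / (2 + 1)) :=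
        mul_nonneg (by linarith) (by norm_num)
      linarith
  · refine mul_le_mul_of_nonneg_left ?_ hT.m0
    have hxe : x z e ≤ 1 := (Finset.single_le_sum (f := fun w => x z w)
      (fun w _ => hx.nn z w) (Finset.mem_univ e)).trans (hx.row z)
    have hx0 := hx.nn z e
    have p0 : 0 ≤ 1 - (1 - x z e) / 3 := by linarith
    have h1 : 1 + (Real.exp (s.th u - s.Y u) - 1) * (1 - (1 - x z e) / (2 + 1))
        ≤ 1 + s.c u * (1 - (1 - x z e) / 3) := by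
      have := mul_le_mul_of_nonneg_right hc p0
      norm_num at this ⊢
      linarith
    have h0 : 0 ≤ 1 + (Real.exp (s.th u - s.Y u) - 1) * (1 - (1 - x z e) / (2 + 1)) := by
      have : 0 ≤ (Real.exp (s.th u - s.Y u) - 1) * (1 - (1 - x z e) / (2 + 1)) :=
        mul_nonneg (by linarith) (by linarith)
      linarith
    have h2 := mul_le_mul g2 (mul_le_mul_of_nonneg_left h1 (by linarith : 0 ≤ 1 - x z e))
      (mul_nonneg (by linarith) h0) (sq_nonneg _)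
    refine h2.trans (le_of_eq (by ring))

/-- **the source operator, fixed target** -/
theorem Kc.src (hT : Kc s u x D mb T) (h : s.Ok) (hu : u ∈ Icc 0 s.U0) (hx : Wt x)
    (hκ : ∑ e ∈ Dᶜ, kap x D e ≤ 2) {z : V} (hz : z ∈ Dᶜ) {a : V → ℝ} (a0 : ∀ e, 0 ≤ a e)
    (ha : ∀ e ∈ Dᶜ.erase z, a e ≤ s.be u * (x z e * s.ψ u (x z e)))
    (w : V → ℝ) :
    Qo (Dᶜ.erase z) T w a ≤ mb * s.dq u * nm (Dᶜ.erase z) w := by
  have hW := wx_of hx D
  have hK := hT.kx h hu hx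
  have be0 := h.be0 u hu
  have m0 := hT.m0
  have h1 := EPS.Qo_cs (Dᶜ.erase z) T w a
  have h2 : nm (Dᶜ.erase z) (fun e => ∑ b ∈ Dᶜ.erase z, T e b * a b)
      ≤ mb * (Real.sqrt (s.lam u) * (s.be u * (s.c3 u / 2 * s.g u))) :=
    EPS.TD_z hW hK (h.ps hu) hz (fun φ => EPS.gxz hW (h.lam0 hu) hK.hl hz φ) be0 a0 ha
  have h3 : nm (Dᶜ.erase z) (fun e => (∑ b ∈ Dᶜ.erase z, T e b) * a e)
      ≤ mb * s.be u * (s.c3 u * s.rd u) := by
    refine EPS.RD_z hW hz (mul_nonneg (mul_nonneg m0 be0)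
      (mul_nonneg (h.c30 u hu) (h.rdn hu))) fun e he => ?_
    have hr := (hT.rz h hu hx hκ).2 z hz e he (Dᶜ.erase z) (Finset.Subset.refl _)
    have hxe : x z e ≤ 1 := (Finset.single_le_sum (f := fun w => x z w)
      (fun w _ => hx.nn z w) (Finset.mem_univ e)).trans (hx.row z)
    have hx0 := hx.nn z e
    have R0 : 0 ≤ ∑ b ∈ Dᶜ.erase z, T e b := Finset.sum_nonneg fun b _ => hT.T0 e b
    set R := (1 - x z e) * (s.g u ^ 2 * (1 + s.c u * (1 - (1 - x z e) / 3))) with hR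
    have p1 := mul_le_mul hr (ha e he) (a0 e) (R0.trans hr)
    have p2 : ((∑ b ∈ Dᶜ.erase z, T e b) * a e) ^ 2
        ≤ (mb * R * (s.be u * (x z e * s.ψ u (x z e)))) ^ 2 :=
      pow_le_pow_left₀ (mul_nonneg R0 (a0 e)) p1 2
    have p3 := h.hrd u hu (x z e) ⟨hx0, hxe⟩
    rw [← hR] at p3
    have p4 := mul_le_mul_of_nonneg_left p3 (mul_nonneg (sq_nonneg (mb * s.be u)) hx0)
    refine p2.trans (le_trans (le_of_eq ?_) (p4.trans (le_of_eq ?_))) <;> ring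
  have sl := sl_le h hu
  have g0 := h.g0 hu
  have c30 := h.c30 u hu
  have h2' : nm (Dᶜ.erase z) (fun e => ∑ b ∈ Dᶜ.erase z, T e b * a b)
      ≤ mb * (s.sl u * (s.be u * (s.c3 u / 2 * s.g u))) := h2.trans
    (mul_le_mul_of_nonneg_left (mul_le_mul_of_nonneg_right sl (by positivity)) m0)
  have h4 := mul_le_mul_of_nonneg_left (add_le_add h3 h2') (nm_nonneg (Dᶜ.erase z) w)
  refine h1.trans (h4.trans (le_of_eq ?_))
  unfold Us.dq
  ring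

/-- **the source operator, summed over the targets** -/
theorem Kc.srcf (hT : Kc s u x D mb T) (h : s.Ok) (hu : u ∈ Icc 0 s.U0) (hx : Wt x)
    (hκ : ∑ e ∈ Dᶜ, kap x D e ≤ 2) (hf : EPS.Fw Dᶜ (kap x D) f M) {a : V → V → ℝ}
    (a0 : ∀ c e, 0 ≤ a c e)
    (ha : ∀ c ∈ Dᶜ, ∀ e ∈ Dᶜ, a c e ≤ s.be u * (x c e * s.ψ u (x c e)))
    (w : V → ℝ) :
    Qo Dᶜ T w (fun e => ∑ c ∈ Dᶜ.erase e, f c * a c e)
      ≤ mb * s.dq u * Real.sqrt M * nm Dᶜ w := by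
  have hW := wx_of hx D
  have hK := hT.kx h hu hx
  have be0 := h.be0 u hu
  have m0 := hT.m0
  have g0 := h.g0 hu
  have c30 := h.c30 u hu
  have M0 := Real.sqrt_nonneg M
  set F : V → ℝ := fun e => ∑ c ∈ Dᶜ.erase e, f c * a c e with hF
  have F0 : ∀ e, 0 ≤ F e := fun e => Finset.sum_nonneg fun c _ => mul_nonneg (hf.f0 c) (a0 c e)
  have h1 := EPS.Qo_cs Dᶜ T w F
  have h2 : nm Dᶜ (fun e => ∑ b ∈ Dᶜ, T e b * F b)
      ≤ mb * (Real.sqrt (s.lam u) * (s.be u * (s.c3 u / 2 * s.g u))) * Real.sqrt M :=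
    EPS.TDf_norm hW hK hf (h.ps hu) (fun φ => EPS.gx hW (h.lam0 hu) hK.hl φ) be0 a0 ha
  have h3 : nm Dᶜ F ≤ s.be u * (s.c3 u / 2) * Real.sqrt M :=
    EPS.Df_norm hW hf (h.ps hu) be0 a0 ha
  have h4 : nm Dᶜ (fun e => (∑ b ∈ Dᶜ, T e b) * F e)
      ≤ mb * s.Rb u * (s.be u * (s.c3 u / 2) * Real.sqrt M) := by
    have q1 : nm Dᶜ (fun e => (∑ b ∈ Dᶜ, T e b) * F e) ≤ nm Dᶜ (fun e => mb * s.Rb u * F e) :=
      nm_mono (fun e _ => mul_nonneg (Finset.sum_nonneg fun b _ => hT.T0 e b) (F0 e))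
        (fun e he => mul_le_mul_of_nonneg_right ((hT.rz h hu hx hκ).1 e he) (F0 e))
    rw [nm_smul Dᶜ (mul_nonneg m0 (h.Rb0 hu))] at q1
    exact q1.trans (mul_le_mul_of_nonneg_left h3 (mul_nonneg m0 (h.Rb0 hu)))
  have sl := sl_le h hu
  have h2' : nm Dᶜ (fun e => ∑ b ∈ Dᶜ, T e b * F b)
      ≤ mb * (s.sl u * (s.be u * (s.c3 u / 2 * s.g u))) * Real.sqrt M := h2.trans
    (mul_le_mul_of_nonneg_right (mul_le_mul_of_nonneg_left
      (mul_le_mul_of_nonneg_right sl (by positivity)) m0) M0)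
  have h5 := mul_le_mul_of_nonneg_left (h.rd0 u hu)
    (mul_nonneg (mul_nonneg m0 (mul_nonneg be0 c30)) M0)
  have h6 := mul_le_mul_of_nonneg_left (add_le_add h4 h2') (nm_nonneg Dᶜ w)
  have h7 : mb * s.Rb u * (s.be u * (s.c3 u / 2) * Real.sqrt M)
      + mb * (s.sl u * (s.be u * (s.c3 u / 2 * s.g u))) * Real.sqrt M
      ≤ mb * s.dq u * Real.sqrt M := by
    unfold Us.dq
    nlinarith
  have h8 := mul_le_mul_of_nonneg_left h7 (nm_nonneg Dᶜ w)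
  exact h1.trans (h6.trans (h8.trans (le_of_eq (by ring))))

/-- the leading lower function, fixed target -/
theorem Kc.lead (hT : Kc s u x D mb T) (h : s.Ok) (hu : u ∈ Icc 0 s.U0) (hx : Wt x)
    {z : V} (hz : z ∈ Dᶜ) {a : V → ℝ} (a0 : ∀ e, 0 ≤ a e)
    (ha : ∀ e ∈ Dᶜ.erase z, a e ≤ s.be u * x z e) :
    nm (Dᶜ.erase z) (fun e => ∑ b ∈ Dᶜ.erase z, T e b * a b)
      ≤ mb * (s.sl u * s.be u * s.g u / 2) := by
  have hW := wx_of hx D
  have hK := hT.kx h hu hx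
  have be0 := h.be0 u hu
  have g0 := h.g0 hu
  have h2 := EPS.TD_z hW hK ps_one hz (fun φ => EPS.gxz hW (h.lam0 hu) hK.hl hz φ) be0 a0
    (fun e he => by rw [mul_one]; exact ha e he)
  have h3 := mul_le_mul_of_nonneg_left (mul_le_mul_of_nonneg_right (sl_le h hu)
    (by positivity : 0 ≤ s.be u * (1 / 2 * s.g u))) hT.m0
  exact h2.trans (h3.trans (le_of_eq (by ring)))

/-- the leading lower function, summed over the targets -/
theorem Kc.leadf (hT : Kc s u x D mb T) (h : s.Ok) (hu : u ∈ Icc 0 s.U0) (hx : Wt x)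
    (hf : EPS.Fw Dᶜ (kap x D) f M) {a : V → V → ℝ} (a0 : ∀ c e, 0 ≤ a c e)
    (ha : ∀ c ∈ Dᶜ, ∀ e ∈ Dᶜ, a c e ≤ s.be u * x c e) :
    nm Dᶜ (fun e => ∑ b ∈ Dᶜ, T e b * ∑ c ∈ Dᶜ.erase b, f c * a c b)
      ≤ mb * (s.sl u * s.be u * s.g u / 2) * Real.sqrt M := by
  have hW := wx_of hx D
  have hK := hT.kx h hu hx
  have be0 := h.be0 u hu
  have g0 := h.g0 hu
  have h2 := EPS.TDf_norm hW hK hf ps_one (fun φ => EPS.gx hW (h.lam0 hu) hK.hl φ) be0 a0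
    (fun c hc e he => by rw [mul_one]; exact ha c hc e he)
  have h3 := mul_le_mul_of_nonneg_right (mul_le_mul_of_nonneg_left
    (mul_le_mul_of_nonneg_right (sl_le h hu)
      (by positivity : 0 ≤ s.be u * (1 / 2 * s.g u))) hT.m0) (Real.sqrt_nonneg M)
  exact h2.trans (h3.trans (le_of_eq (by ring)))

/-- the direct terms of the second target -/
theorem Kc.aty (hT : Kc s u x D mb T) (h : s.Ok) (hu : u ∈ Icc 0 s.U0) (hx : Wt x)
    (hf : EPS.Fw Dᶜ (kap x D) f M) {z : V} (hz : z ∈ Dᶜ) {a : V → ℝ} (a0 : ∀ e, 0 ≤ a e)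
    (ha : ∀ e ∈ Dᶜ.erase z, a e ≤ s.be u * x z e) :
    ∑ d ∈ Dᶜ.erase z, f d * ∑ b ∈ Dᶜ.erase z, T d b * a b
      ≤ mb * (s.ss u * s.be u * s.g u / 2) * Real.sqrt M := by
  have hW := wx_of hx D
  have hK := hT.kx h hu hx
  have h2 := EPS.A_type (ψ := fun _ => 1) hW hK hf hz
    (fun b hb => EPS.pt_z hW hK ps_one hz hb) zero_le_one
    (h.be0 u hu) a0 (fun e he => by rw [mul_one]; exact ha e he)
  exact h2.trans (le_of_eq (by ring))

/-- the direct terms of the first target -/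
theorem Kc.bty (hT : Kc s u x D mb T) (h : s.Ok) (hu : u ∈ Icc 0 s.U0) (hx : Wt x)
    (hf : EPS.Fw Dᶜ (kap x D) f M) {z : V} (hz : z ∈ Dᶜ) {a : V → V → ℝ} (a0 : ∀ c e, 0 ≤ a c e)
    (ha : ∀ c ∈ Dᶜ, ∀ e ∈ Dᶜ, a c e ≤ s.be u * x c e) :
    ∑ d ∈ Dᶜ.erase z, f d * ∑ b ∈ Dᶜ.erase d, T z b * a d b
      ≤ mb * (s.sl u * s.be u * s.g u / 4) * Real.sqrt M := by
  have hW := wx_of hx D
  have hK := hT.kx h hu hx
  have be0 := h.be0 u hu
  have g0 := h.g0 hu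
  have h2 := EPS.B_type hW hK hf hz be0 a0 ha
  have h3 := mul_le_mul_of_nonneg_right (mul_le_mul_of_nonneg_left
    (mul_le_mul_of_nonneg_right (sl_le h hu)
      (by positivity : 0 ≤ s.be u * (s.g u / 4))) hT.m0) (Real.sqrt_nonneg M)
  exact h2.trans (h3.trans (le_of_eq (by ring)))

/-- the tested kernel -/
theorem Kc.ft (hT : Kc s u x D mb T) (h : s.Ok) (hu : u ∈ Icc 0 s.U0) (hx : Wt x)
    (hf : EPS.Fw Dᶜ (kap x D) f M) :
    nm Dᶜ (fun b => ∑ d ∈ Dᶜ, f d * T d b) ≤ mb * (s.ss u * s.sl u) * Real.sqrt M := by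
  have hW := wx_of hx D
  have hK := hT.kx h hu hx
  have h2 := EPS.fT_norm hW hK hf (fun φ => EPS.gx hW (h.lam0 hu) hK.hl φ)
  have h3 := mul_le_mul_of_nonneg_right (mul_le_mul_of_nonneg_left
    (mul_le_mul_of_nonneg_left (sl_le h hu) (h.ss0 u hu)) hT.m0) (Real.sqrt_nonneg M)
  exact h2.trans h3

/-- the sources of level 1/2 -/
structure Ac2 (s : Us) (u : ℝ) (x : V → V → ℝ) (D : Finset V) (mb : ℝ) (A B : V → V → ℝ) :
    Prop where
  m0 : 0 ≤ mb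
  A0 : ∀ i j, 0 ≤ A i j
  B0 : ∀ i j, 0 ≤ B i j
  leA : ∀ i ∈ Dᶜ, ∀ j ∈ Dᶜ, A i j ≤ mb * (x i j * (Gx s u x D i * Gx s u x D j - 1))
  leB : ∀ i ∈ Dᶜ, ∀ j ∈ Dᶜ, B i j ≤ mb * (x i j * (2 * s.N u))

theorem Gx_mul (s : Us) (u : ℝ) (x : V → V → ℝ) (D : Finset V) (i j : V) :
    Gx s u x D i * Gx s u x D j
      = Real.exp ((s.th u - s.Y u) * (kap x D i + kap x D j) + 2 * s.Y u) := by
  unfold Gx
  rw [← Real.exp_add, ← Real.exp_add, ← Real.exp_add]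
  congr 1
  ring

theorem Ac2.al (h : s.Ok) (hu : u ∈ Icc 0 s.U0) (hx : Wt x) (D : Finset V) (i j : V) :
    0 ≤ Gx s u x D i * Gx s u x D j - 1 := by
  rw [Gx_mul]
  have := Real.one_le_exp (add_nonneg (mul_nonneg (h.a0 hu)
    (add_nonneg (kap_nn hx D i) (kap_nn hx D j))) (by linarith [h.Y0 u hu] : 0 ≤ 2 * s.Y u))
  linarith

variable {A B : V → V → ℝ}

theorem Ac2.bds (hA : Ac2 s u x D mb A B) (h : s.Ok) (hu : u ∈ Icc 0 s.U0) (hx : Wt x)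
    (hf : EPS.Fw Dᶜ (kap x D) f M) :
    Op Dᶜ A (mb * s.lA u) ∧ Op Dᶜ B (mb * (2 * s.N u)) ∧
      nm Dᶜ (fun z => ∑ d ∈ Dᶜ, f d * A d z) ≤ mb * s.FA u * Real.sqrt M ∧
      nm Dᶜ (fun z => ∑ d ∈ Dᶜ, f d * B d z) ≤ mb * s.N u * Real.sqrt M := by
  have hW := wx_of hx D
  have N0 := h.N0 u hu
  have m0 := hA.m0
  have kI : ∀ i, kap x D i ∈ Icc (0 : ℝ) 1 := fun i => ⟨kap_nn hx D i, kap_le hx D i⟩
  have hα : ∀ i ∈ Dᶜ, ∀ j ∈ Dᶜ, Real.sqrt (1 - kap x D i) * Real.sqrt (1 - kap x D j)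
      * (Gx s u x D i * Gx s u x D j - 1) ≤ s.lA u := fun i _ j _ => by
    rw [Gx_mul]; exact h.hlA u hu _ (kI i) _ (kI j)
  have hs : ∀ i ∈ Dᶜ, ∀ j ∈ Dᶜ, kap x D i * (Real.sqrt (1 - kap x D i)
      * Real.sqrt (1 - kap x D j) * (Gx s u x D i * Gx s u x D j - 1)) ≤ s.sA u :=
    fun i _ j _ => by
      rw [Gx_mul]; exact h.hsA u hu _ (kI i) _ (kI j)
  refine ⟨EPS.op_A hW m0 (h.lA0 u hu) hA.A0 (fun i j => Ac2.al h hu hx D i j) hA.leA hα,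
    EPS.op_B hW m0 (by linarith) hA.leB, ?_, ?_⟩
  · have h1 := EPS.fA_norm hW hf m0 (h.lA0 u hu) (h.sA0 u hu) hA.A0
      (fun i j => Ac2.al h hu hx D i j) hA.leA hα hs
    have h2 : Real.sqrt (s.lA u * s.sA u) ≤ s.FA u := by
      rw [show s.FA u = Real.sqrt (s.FA u ^ 2) from (Real.sqrt_sq (h.FA0 u hu)).symm]
      exact Real.sqrt_le_sqrt (h.hFA u hu)
    exact h1.trans (mul_le_mul_of_nonneg_right (mul_le_mul_of_nonneg_left h2 m0)
      (Real.sqrt_nonneg M))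
  · have h1 := EPS.fB_norm hW hf m0 (by linarith : 0 ≤ 2 * s.N u) hA.B0 hA.leB
    refine h1.trans (le_of_eq ?_)
    ring

end Pool.Agent.RX.RCM
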