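import Mathlib

/-! The level 1/2 of a cell with the sharp closures: right sides (MP_73ccd0_lc, route M, density
errors). -/

namespace Pool.Agent.RX.RCM

open Set Finset

set_option linter.unusedSectionVars false

variable {V : Type*} [Fintype V] [DecidableEq V]

/-- right side of the system for `gp` without the source -/
noncomputable def Fps (U : Finset V) (T p m : V → V → ℝ) (i j : V) : ℝ :=
  ∑ b ∈ (U.erase i).erase j, T i b * (1 - Real.exp (-m j b))
    + ∑ b ∈ (U.erase i).erase j, T j b * (1 - Real.exp (-m i b))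
    + (1 / 2) * ∑ x ∈ (U.erase i).erase j, ∑ y ∈ (U.erase i).erase j, T x y *
      (max ((1 - Real.exp (-(p j x + p j y))) * (1 - Real.exp (-(p i x + p i y))))
        ((1 - Real.exp (-(m j x + m j y))) * (1 - Real.exp (-(m i x + m i y)))))

/-- right side of the system for `gm` without the source -/
noncomputable def Fms (U : Finset V) (T p m : V → V → ℝ) (i j : V) : ℝ :=
  ∑ b ∈ (U.erase i).erase j, T i b * (1 - Real.exp (-p j b))
    + ∑ b ∈ (U.erase i).erase j, T j b * (1 - Real.exp (-p i b))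
    + (1 / 2) * ∑ x ∈ (U.erase i).erase j, ∑ y ∈ (U.erase i).erase j, T x y *
      (max ((1 - Real.exp (-(p j x + p j y))) * (1 - Real.exp (-(m i x + m i y))))
        ((1 - Real.exp (-(m j x + m j y))) * (1 - Real.exp (-(p i x + p i y)))))

section elem

theorem ys1 {z : ℝ} (hz : 0 ≤ z) : 0 ≤ 1 - Real.exp (-z) := by
  have := Real.exp_le_one_iff.2 (by linarith : -z ≤ 0); linarith

theorem ys2 {z w : ℝ} (h : z ≤ w) : 1 - Real.exp (-z) ≤ 1 - Real.exp (-w) := by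
  have := Real.exp_le_exp.2 (neg_le_neg h); linarith

theorem ys3 (z : ℝ) : 1 - Real.exp (-z) ≤ z := by
  have := Real.add_one_le_exp (-z); linarith

end elem

/-- regularity of the data of a cell -/
structure Rds (τ : ℝ) (T A B : ℝ → V → V → ℝ) : Prop where
  τ0 : 0 ≤ τ
  cT : ∀ i j, ContinuousOn (fun r => T r i j) (Icc 0 τ)
  cA : ∀ i j, ContinuousOn (fun r => A r i j) (Icc 0 τ)
  cB : ∀ i j, ContinuousOn (fun r => B r i j) (Icc 0 τ)
  T0 : ∀ r ∈ Icc 0 τ, ∀ i j, 0 ≤ T r i j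
  A0 : ∀ r ∈ Icc 0 τ, ∀ i j, 0 ≤ A r i j
  B0 : ∀ r ∈ Icc 0 τ, ∀ i j, 0 ≤ B r i j
  Ts : ∀ r i j, T r i j = T r j i
  As : ∀ r i j, A r i j = A r j i
  Bs : ∀ r i j, B r i j = B r j i
  Tz : ∀ r i, T r i i = 0
  Az : ∀ r i, A r i i = 0

variable {U : Finset V} {T p m p' m' : V → V → ℝ}

theorem Fps_symm (i j : V) : Fps U T p m i j = Fps U T p m j i := by
  unfold Fps
  rw [Finset.erase_right_comm]
  congr 1
  · exact add_comm _ _
  · congr 1
    refine Finset.sum_congr rfl fun x _ => Finset.sum_congr rfl fun y _ => ?_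
    congr 2 <;> exact mul_comm _ _

theorem Fms_symm (i j : V) : Fms U T p m i j = Fms U T p m j i := by
  unfold Fms
  rw [Finset.erase_right_comm]
  congr 1
  · exact add_comm _ _
  · congr 1
    refine Finset.sum_congr rfl fun x _ => Finset.sum_congr rfl fun y _ => ?_
    congr 1
    rw [max_comm]
    congr 1 <;> exact mul_comm _ _

theorem Fps_nonneg (T0 : ∀ i j, 0 ≤ T i j) (p0 : ∀ i j, 0 ≤ p i j) (m0 : ∀ i j, 0 ≤ m i j)
    (i j : V) : 0 ≤ Fps U T p m i j := by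
  unfold Fps
  refine add_nonneg (add_nonneg ?_ ?_) (mul_nonneg (by norm_num) ?_)
  · exact Finset.sum_nonneg fun b _ => mul_nonneg (T0 _ _) (ys1 (m0 _ _))
  · exact Finset.sum_nonneg fun b _ => mul_nonneg (T0 _ _) (ys1 (m0 _ _))
  · exact Finset.sum_nonneg fun x _ => Finset.sum_nonneg fun y _ => mul_nonneg (T0 _ _)
      (le_max_of_le_left (mul_nonneg (ys1 (add_nonneg (p0 _ _) (p0 _ _)))
        (ys1 (add_nonneg (p0 _ _) (p0 _ _)))))

theorem Fms_nonneg (T0 : ∀ i j, 0 ≤ T i j) (p0 : ∀ i j, 0 ≤ p i j) (m0 : ∀ i j, 0 ≤ m i j)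
    (i j : V) : 0 ≤ Fms U T p m i j := by
  unfold Fms
  refine add_nonneg (add_nonneg ?_ ?_) (mul_nonneg (by norm_num) ?_)
  · exact Finset.sum_nonneg fun b _ => mul_nonneg (T0 _ _) (ys1 (p0 _ _))
  · exact Finset.sum_nonneg fun b _ => mul_nonneg (T0 _ _) (ys1 (p0 _ _))
  · exact Finset.sum_nonneg fun x _ => Finset.sum_nonneg fun y _ => mul_nonneg (T0 _ _)
      (le_max_of_le_left (mul_nonneg (ys1 (add_nonneg (p0 _ _) (p0 _ _)))
        (ys1 (add_nonneg (m0 _ _) (m0 _ _)))))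

theorem Fps_mono (T0 : ∀ i j, 0 ≤ T i j) (p0 : ∀ i j, 0 ≤ p i j) (m0 : ∀ i j, 0 ≤ m i j)
    (hp : ∀ i j, p i j ≤ p' i j) (hm : ∀ i j, m i j ≤ m' i j) (i j : V) :
    Fps U T p m i j ≤ Fps U T p' m' i j := by
  unfold Fps
  refine add_le_add (add_le_add ?_ ?_) (mul_le_mul_of_nonneg_left ?_ (by norm_num))
  · exact Finset.sum_le_sum fun b _ => mul_le_mul_of_nonneg_left (ys2 (hm _ _)) (T0 _ _)
  · exact Finset.sum_le_sum fun b _ => mul_le_mul_of_nonneg_left (ys2 (hm _ _)) (T0 _ _)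
  · refine Finset.sum_le_sum fun x _ => Finset.sum_le_sum fun y _ =>
      mul_le_mul_of_nonneg_left ?_ (T0 _ _)
    have a0 : ∀ e, 0 ≤ p e x + p e y := fun e => add_nonneg (p0 _ _) (p0 _ _)
    have b0 : ∀ e, 0 ≤ m e x + m e y := fun e => add_nonneg (m0 _ _) (m0 _ _)
    have a1 : ∀ e, p e x + p e y ≤ p' e x + p' e y := fun e => add_le_add (hp _ _) (hp _ _)
    have b1 : ∀ e, m e x + m e y ≤ m' e x + m' e y := fun e => add_le_add (hm _ _) (hm _ _)
    exact max_le_max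
      (mul_le_mul (ys2 (a1 j)) (ys2 (a1 i)) (ys1 (a0 i)) (ys1 ((a0 j).trans (a1 j))))
      (mul_le_mul (ys2 (b1 j)) (ys2 (b1 i)) (ys1 (b0 i)) (ys1 ((b0 j).trans (b1 j))))

theorem Fms_mono (T0 : ∀ i j, 0 ≤ T i j) (p0 : ∀ i j, 0 ≤ p i j) (m0 : ∀ i j, 0 ≤ m i j)
    (hp : ∀ i j, p i j ≤ p' i j) (hm : ∀ i j, m i j ≤ m' i j) (i j : V) :
    Fms U T p m i j ≤ Fms U T p' m' i j := by
  unfold Fms
  refine add_le_add (add_le_add ?_ ?_) (mul_le_mul_of_nonneg_left ?_ (by norm_num))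
  · exact Finset.sum_le_sum fun b _ => mul_le_mul_of_nonneg_left (ys2 (hp _ _)) (T0 _ _)
  · exact Finset.sum_le_sum fun b _ => mul_le_mul_of_nonneg_left (ys2 (hp _ _)) (T0 _ _)
  · refine Finset.sum_le_sum fun x _ => Finset.sum_le_sum fun y _ =>
      mul_le_mul_of_nonneg_left ?_ (T0 _ _)
    have a0 : ∀ e, 0 ≤ p e x + p e y := fun e => add_nonneg (p0 _ _) (p0 _ _)
    have b0 : ∀ e, 0 ≤ m e x + m e y := fun e => add_nonneg (m0 _ _) (m0 _ _)
    have a1 : ∀ e, p e x + p e y ≤ p' e x + p' e y := fun e => add_le_add (hp _ _) (hp _ _)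
    have b1 : ∀ e, m e x + m e y ≤ m' e x + m' e y := fun e => add_le_add (hm _ _) (hm _ _)
    exact max_le_max
      (mul_le_mul (ys2 (a1 j)) (ys2 (b1 i)) (ys1 (b0 i)) (ys1 ((a0 j).trans (a1 j))))
      (mul_le_mul (ys2 (b1 j)) (ys2 (a1 i)) (ys1 (a0 i)) (ys1 ((b0 j).trans (b1 j))))

theorem Fps_le (T0 : ∀ i j, 0 ≤ T i j) (p0 : ∀ i j, 0 ≤ p i j)
    (m0 : ∀ i j, 0 ≤ m i j) (i j : V) :
    Fps U T p m i j ≤ ∑ b ∈ (U.erase i).erase j, T i b * m j b
      + ∑ b ∈ (U.erase i).erase j, T j b * m i b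
      + (1 / 2) * ∑ x ∈ (U.erase i).erase j, ∑ y ∈ (U.erase i).erase j,
        T x y * ((p j x + p j y) * (p i x + p i y))
      + (1 / 2) * ∑ x ∈ (U.erase i).erase j, ∑ y ∈ (U.erase i).erase j,
        T x y * ((m j x + m j y) * (m i x + m i y)) := by
  unfold Fps
  rw [add_assoc (_ + _), ← mul_add]
  refine add_le_add (add_le_add ?_ ?_) (mul_le_mul_of_nonneg_left ?_ (by norm_num))
  · exact Finset.sum_le_sum fun b _ => mul_le_mul_of_nonneg_left (ys3 _) (T0 _ _)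
  · exact Finset.sum_le_sum fun b _ => mul_le_mul_of_nonneg_left (ys3 _) (T0 _ _)
  · rw [← Finset.sum_add_distrib]
    refine Finset.sum_le_sum fun x hx => ?_
    rw [← Finset.sum_add_distrib]
    refine Finset.sum_le_sum fun y hy => ?_
    rw [← mul_add]
    refine mul_le_mul_of_nonneg_left ?_ (T0 _ _)
    have a0 : ∀ e, 0 ≤ p e x + p e y := fun e => add_nonneg (p0 _ _) (p0 _ _)
    have b0 : ∀ e, 0 ≤ m e x + m e y := fun e => add_nonneg (m0 _ _) (m0 _ _)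
    have n1 : 0 ≤ (p j x + p j y) * (p i x + p i y) := mul_nonneg (a0 _) (a0 _)
    have n2 : 0 ≤ (m j x + m j y) * (m i x + m i y) := mul_nonneg (b0 _) (b0 _)
    refine max_le (le_trans ?_ (le_add_of_nonneg_right n2)) (le_trans ?_
      (le_add_of_nonneg_left n1))
    · exact mul_le_mul (ys3 _) (ys3 _) (ys1 (a0 _)) (a0 _)
    · exact mul_le_mul (ys3 _) (ys3 _) (ys1 (b0 _)) (b0 _)

theorem Fms_le (T0 : ∀ i j, 0 ≤ T i j) (p0 : ∀ i j, 0 ≤ p i j)
    (m0 : ∀ i j, 0 ≤ m i j) (i j : V) :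
    Fms U T p m i j ≤ ∑ b ∈ (U.erase i).erase j, T i b * p j b
      + ∑ b ∈ (U.erase i).erase j, T j b * p i b
      + (1 / 2) * ∑ x ∈ (U.erase i).erase j, ∑ y ∈ (U.erase i).erase j,
        T x y * ((p j x + p j y) * (m i x + m i y))
      + (1 / 2) * ∑ x ∈ (U.erase i).erase j, ∑ y ∈ (U.erase i).erase j,
        T x y * ((m j x + m j y) * (p i x + p i y)) := by
  unfold Fms
  rw [add_assoc (_ + _), ← mul_add]
  refine add_le_add (add_le_add ?_ ?_) (mul_le_mul_of_nonneg_left ?_ (by norm_num))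
  · exact Finset.sum_le_sum fun b _ => mul_le_mul_of_nonneg_left (ys3 _) (T0 _ _)
  · exact Finset.sum_le_sum fun b _ => mul_le_mul_of_nonneg_left (ys3 _) (T0 _ _)
  · rw [← Finset.sum_add_distrib]
    refine Finset.sum_le_sum fun x hx => ?_
    rw [← Finset.sum_add_distrib]
    refine Finset.sum_le_sum fun y hy => ?_
    rw [← mul_add]
    refine mul_le_mul_of_nonneg_left ?_ (T0 _ _)
    have a0 : ∀ e, 0 ≤ p e x + p e y := fun e => add_nonneg (p0 _ _) (p0 _ _)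
    have b0 : ∀ e, 0 ≤ m e x + m e y := fun e => add_nonneg (m0 _ _) (m0 _ _)
    have n1 : 0 ≤ (p j x + p j y) * (m i x + m i y) := mul_nonneg (a0 _) (b0 _)
    have n2 : 0 ≤ (m j x + m j y) * (p i x + p i y) := mul_nonneg (b0 _) (a0 _)
    refine max_le (le_trans ?_ (le_add_of_nonneg_right n2)) (le_trans ?_
      (le_add_of_nonneg_left n1))
    · exact mul_le_mul (ys3 _) (ys3 _) (ys1 (b0 _)) (a0 _)
    · exact mul_le_mul (ys3 _) (ys3 _) (ys1 (a0 _)) (b0 _)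

end Pool.Agent.RX.RCM
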