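import Pool.Agent.RX.RCM.Lev2
import Pool.Agent.RX.RCM.NuD_1

/-! Level 0 of a cell from clocks and scalar functions (MP_73ccd0_lc, route M). -/

namespace Pool.Agent.RX.RCM

open Set Finset MeasureTheory Pool.Agent.RX.RCRSHalf Pool.Agent.RX.RCG

variable {V : Type*} [Fintype V] [DecidableEq V]

section mono

variable {hb : ℝ → V → V → ℝ} {x : V → V → ℝ} {D : Finset V} {t t' : ℝ} {mb mb' : ℝ → ℝ}
  {θ θ' : V → ℝ → ℝ} {Y Y' N N' Y1 Y1' N1 N1' : ℝ → ℝ}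

theorem L0s.yx_mono (hL : L0s hb x D t mb θ Y Y' N N') (hL1 : L0s hb x D t' mb' θ' Y1 Y1' N1 N1')
    (hx : Wt x) (h0 : 0 ≤ t) (ht : t ≤ t') (hθ : ∀ w ∈ D, ∀ r ∈ Icc 0 t, θ w r ≤ θ' w r)
    (hY : ∀ r ∈ Icc 0 t, Y r ≤ Y1 r) (e : V) {r : ℝ} (hr : r ∈ Icc 0 t) :
    yx hb x D θ Y t e r ≤ yx hb x D θ' Y1 t' e r := by
  have h0' : 0 ≤ t' := h0.trans ht
  have yh : ∀ f, ∀ z ∈ Icc 0 t, yhat x D θ Y f z ≤ yhat x D θ' Y1 f z := fun f z hz =>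
    add_le_add (Finset.sum_le_sum fun w hw => mul_le_mul_of_nonneg_left (hθ w hw z hz) (hx.nn w f))
      (mul_le_mul_of_nonneg_left (hY z hz) (kD_nonneg hx D f))
  have nn : ∀ f, ∀ z ∈ Icc 0 t, nv hb Dᶜ (yhat x D θ Y) t f z ≤ nv hb Dᶜ (yhat x D θ' Y1) t' f z :=
    fun f z hz => bk_le hz ht (nv_int_cont hL.bc hL.yhat_cont _ f)
      (nv_int_cont hL1.bc hL1.yhat_cont _ f)
      (fun ρ hρ => Finset.sum_le_sum fun g _ => mul_le_mul_of_nonneg_left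
        (by linarith [Real.exp_le_exp.2 (yh g ρ hρ)]) (hL.b0 f g ρ hρ))
      (fun ρ hρ => Finset.sum_nonneg fun g _ => mul_nonneg (hL1.b0 f g ρ hρ) (by
        have := Real.one_le_exp (hL1.yhat_nonneg hx g hρ); linarith))
  refine add_le_add (Finset.sum_le_sum fun w hw =>
    mul_le_mul_of_nonneg_left (hθ w hw r hr) (hx.nn w e)) ?_
  exact bk_le hr ht (yv_int_cont hL.bc (nv_cont h0 hL.bc hL.yhat_cont _) _ e)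
    (yv_int_cont hL1.bc (nv_cont h0' hL1.bc hL1.yhat_cont _) _ e)
    (fun ρ hρ => Finset.sum_le_sum fun g _ => mul_le_mul_of_nonneg_left (nn g ρ hρ)
      (hL.b0 e g ρ hρ))
    (fun ρ hρ => Finset.sum_nonneg fun g _ => mul_nonneg (hL1.b0 e g ρ hρ)
      (hL1.nv_nonneg hx g hρ))

theorem L0s.nx_mono (hL : L0s hb x D t mb θ Y Y' N N') (hL1 : L0s hb x D t' mb' θ' Y1 Y1' N1 N1')
    (hx : Wt x) (h0 : 0 ≤ t) (ht : t ≤ t') (hθ : ∀ w ∈ D, ∀ r ∈ Icc 0 t, θ w r ≤ θ' w r)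
    (hY : ∀ r ∈ Icc 0 t, Y r ≤ Y1 r) (e : V) {r : ℝ} (hr : r ∈ Icc 0 t) :
    nx hb x D θ Y t e r ≤ nx hb x D θ' Y1 t' e r := by
  have h0' : 0 ≤ t' := h0.trans ht
  unfold nx
  split_ifs
  · exact le_rfl
  · exact bk_le hr ht (nv_int_cont hL.bc (hL.yx_cont h0) _ e)
      (nv_int_cont hL1.bc (hL1.yx_cont h0') _ e)
      (fun ρ hρ => Finset.sum_le_sum fun g _ => mul_le_mul_of_nonneg_left
        (by linarith [Real.exp_le_exp.2 (hL.yx_mono hL1 hx h0 ht hθ hY g hρ)]) (hL.b0 e g ρ hρ))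
      (fun ρ hρ => Finset.sum_nonneg fun g _ => mul_nonneg (hL1.b0 e g ρ hρ) (by
        have := Real.one_le_exp (hL1.yx_nonneg hx g hρ); linarith))

end mono

end Pool.Agent.RX.RCM

namespace Pool.Agent.RX.RCN.K

open Set Finset MeasureTheory Pool.Agent.RX.RCRSHalf Pool.Agent.RX.RCG Pool.Agent.RX.RCG.Ct

set_option linter.unusedSectionVars false

variable {V : Type*} [Fintype V] [DecidableEq V]

/-- level 0 of the cell from clocks and scalars -/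
noncomputable def lz (Z : Hzd) (x : V → V → ℝ) (P : V → Prop) [DecidablePred P] (D : Finset V)
    (θ2 : ℝ → ℝ → V → ℝ → ℝ) (Y2 : ℝ → ℝ → ℝ → ℝ) (θ1 : V → ℝ → ℝ) (Y1 : ℝ → ℝ) (τ : ℝ) :
    Lz V where
  y2 t s := RCM.yx (Z.hh x P) x D (θ2 t s) (Y2 t s) t
  n2 t s := RCM.nx (Z.hh x P) x D (θ2 t s) (Y2 t s) t
  y1 := RCM.yx (Z.hh x P) x D θ1 Y1 τ
  n1 := RCM.nx (Z.hh x P) x D θ1 Y1 τ

/-- the scalar system of one pair of times -/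
def Sy (Z : Hzd) (x : V → V → ℝ) (P : V → Prop) [DecidablePred P] (D : Finset V) (mb : ℝ → ℝ)
    (t : ℝ) (θ : V → ℝ → ℝ) (Y : ℝ → ℝ) : Prop :=
  ∃ Y' N N' : ℝ → ℝ, RCM.L0s (Z.hh x P) x D t mb θ Y Y' N N'

variable {Z : Hzd} {x : V → V → ℝ} {P : V → Prop} [DecidablePred P] {sl : ℝ → ℝ → ℝ}
variable {α τ sg : ℝ} {A D : Finset V} {θ2 : ℝ → ℝ → V → ℝ → ℝ} {Y2 : ℝ → ℝ → ℝ → ℝ}
variable {θ1 : V → ℝ → ℝ} {Y1 mb : ℝ → ℝ}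

/-- **level 0 of the cell** -/
theorem lz_ok (hx : Wt x P 1) (hAD : A ⊆ D) (α0 : 0 ≤ α) (ατ : α ≤ τ) (τ1 : τ ≤ bt)
    (sg0 : 0 ≤ sg) (sgτ : sg ≤ τ)
    (h2 : ∀ t ∈ Icc α τ, ∀ s ∈ Icc 0 t, Sy Z x P D mb t (θ2 t s) (Y2 t s))
    (h1 : Sy Z x P D mb τ θ1 Y1)
    (hθ : ∀ t ∈ Icc α τ, ∀ s ∈ Icc 0 t, s ≤ sg → ∀ w ∈ D, ∀ r ∈ Icc 0 t, θ2 t s w r ≤ θ1 w r)
    (hY : ∀ t ∈ Icc α τ, ∀ s ∈ Icc 0 t, ∀ r ∈ Icc 0 t, Y2 t s r ≤ Y1 r)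
    (ca : ∀ t ∈ Icc α τ, ∀ s ∈ Icc 0 t, ∀ w ∈ A, ∀ r ∈ Icc 0 t, Clt Z r t (θ2 t s w r))
    (cs : ∀ t ∈ Icc α τ, ∀ s ∈ Icc 0 t, ∀ w ∈ D, w ∉ A → ∀ r ∈ Icc 0 s,
      Clt Z r s (θ2 t s w r)) :
    (lz Z x P D θ2 Y2 θ1 Y1 τ).Ok Z x P A D sg α τ := by
  have hx' := wt_of hx
  have τ0 : 0 ≤ τ := α0.trans ατ
  obtain ⟨Y1', N1, N1', hL1⟩ := h1
  refine ⟨α0, ατ, τ1, sg0, sgτ, fun t ht s hs hsg e r hr => ?_,
    fun t ht s hs hsg e r hr => ?_,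
    fun e r hr => hL1.nx_one hx' τ0 e hr, fun h H hh t ht s hs _ hle hHle => ?_⟩
  · obtain ⟨Y2', N2, N2', hL2⟩ := h2 t ht s hs
    exact hL2.yx_mono hL1 hx' (α0.trans ht.1) ht.2 (hθ t ht s hs hsg) (hY t ht s hs) e hr
  · obtain ⟨Y2', N2, N2', hL2⟩ := h2 t ht s hs
    exact hL2.nx_mono hL1 hx' (α0.trans ht.1) ht.2 (hθ t ht s hs hsg) (hY t ht s hs) e hr
  · obtain ⟨Y2', N2, N2', hL2⟩ := h2 t ht s hs
    have ht0 : t ∈ Icc 0 t := ⟨α0.trans ht.1, le_rfl⟩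
    exact hL2.w0 hx' hh hle hAD hs
      (fun w hw e r hr => (hHle w e t ht0 r hr).trans
        ((ca t ht s hs w hw r hr).Hh_le hx hr.1 hr.2 w e))
      (fun w hw hA e r hr => (hHle w e s hs r hr).trans
        ((cs t ht s hs w hw hA r hr).Hh_le hx hr.1 hr.2 w e))

/-- joint continuity of a backward primitive -/
theorem bk_c3 {f : ℝ → ℝ → ℝ → ℝ} (hf : C3 α τ f) (h0 : 0 ≤ α) (h : α ≤ τ) :
    C3 α τ fun t s r => RCM.bk (f t s) t r := by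
  have h1 : C3 α τ fun t s _ => ∫ ρ in (0 : ℝ)..t, f t s ρ := C3.of_w (hf.int_t h0 h)
  have h2 := hf.int h0 h
  refine (h1.sub h2).congr fun p hp => ?_
  obtain ⟨⟨a1, a2⟩, ⟨b1, b2⟩, c1, c2⟩ := hp
  have ht0 : 0 ≤ p.1 := h0.trans a1
  have cf : ContinuousOn (f p.1 p.2.1) (Icc 0 p.1) := hf.slice ⟨a1, a2⟩ ⟨b1, b2⟩
  have ii : ∀ {u v : ℝ}, 0 ≤ u → u ≤ v → v ≤ p.1 →
      IntervalIntegrable (f p.1 p.2.1) volume u v := fun {u v} hu huv hv =>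
    (cf.mono (by rw [uIcc_of_le huv]; exact Icc_subset_Icc hu hv)).intervalIntegrable
  show RCM.bk (f p.1 p.2.1) p.1 p.2.2
    = (∫ ρ in (0 : ℝ)..p.1, f p.1 p.2.1 ρ) - ∫ ρ in (0 : ℝ)..p.2.2, f p.1 p.2.1 ρ
  rw [RCM.bk_eq ⟨c1, c2⟩, intervalIntegral.integral_interval_sub_left (ii le_rfl ht0 le_rfl)
    (ii le_rfl c1 c2)]

theorem hh_c3 (hZ : Z.Ok sl) (hx : Wt x P 1) (τ1 : τ ≤ bt) (e f : V) :
    C3 α τ fun _ _ r => Z.hh x P r e f :=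
  C3.of_r ((hZ.hh_cont hx e f).mono (Icc_subset_Icc_right τ1))

/-- joint continuity of the exponents -/
theorem lz_c3 (hZ : Z.Ok sl) (hx : Wt x P 1) (α0 : 0 ≤ α) (ατ : α ≤ τ) (τ1 : τ ≤ bt)
    (cθ : ∀ w ∈ D, C3 α τ fun t s r => θ2 t s w r) (cY : C3 α τ Y2) (e : V) :
    C3 α τ fun t s r => (lz Z x P D θ2 Y2 θ1 Y1 τ).y2 t s e r := by
  have ch : ∀ e f, C3 α τ fun _ _ r => Z.hh x P r e f := hh_c3 hZ hx τ1
  have c1 : ∀ f, C3 α τ fun t s r => RCM.yhat x D (θ2 t s) (Y2 t s) f r := fun f =>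
    (continuousOn_finsetSum _ fun w hw => continuousOn_const.mul (cθ w hw)).add
      (continuousOn_const.mul cY)
  have c2 : ∀ f, C3 α τ fun t s r =>
      RCM.nv (Z.hh x P) Dᶜ (RCM.yhat x D (θ2 t s) (Y2 t s)) t f r := fun f =>
    bk_c3 (f := fun t s ρ => ∑ g ∈ Dᶜ, Z.hh x P ρ f g
      * (Real.exp (RCM.yhat x D (θ2 t s) (Y2 t s) g ρ) - 1))
      (continuousOn_finsetSum _ fun g _ => (ch f g).mul
        ((Real.continuous_exp.comp_continuousOn (c1 g)).sub continuousOn_const)) α0 ατ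
  have c3 : C3 α τ fun t s r => RCM.yv (Z.hh x P) Dᶜ
      (RCM.nv (Z.hh x P) Dᶜ (RCM.yhat x D (θ2 t s) (Y2 t s)) t) t e r :=
    bk_c3 (f := fun t s ρ => ∑ g ∈ Dᶜ, Z.hh x P ρ e g
      * RCM.nv (Z.hh x P) Dᶜ (RCM.yhat x D (θ2 t s) (Y2 t s)) t g ρ)
      (continuousOn_finsetSum _ fun g _ => (ch e g).mul (c2 g)) α0 ατ
  exact (continuousOn_finsetSum _ fun w hw => continuousOn_const.mul (cθ w hw)).add c3

theorem lz_y1 (hx : Wt x P 1) (τ0 : 0 ≤ τ) (h1 : Sy Z x P D mb τ θ1 Y1) (e : V) :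
    ContinuousOn ((lz Z x P D θ2 Y2 θ1 Y1 τ).y1 e) (Icc 0 τ) := by
  obtain ⟨Y1', N1, N1', hL1⟩ := h1
  exact hL1.yx_cont τ0 e

/-- the scalar system for two removed vertices -/
theorem sy_two (hZ : Z.Ok sl) (hx : Wt x P 1) {a b : V} (hab : a ≠ b) {t : ℝ}
    (ht : t ∈ Icc (0 : ℝ) bt) {θ : V → ℝ → ℝ} {Y Y' N N' : ℝ → ℝ}
    (hmb : ∀ y ∈ Icc (0 : ℝ) 1, ∀ s ∈ Icc (0 : ℝ) bt, Z.rr y s ≤ mb s)
    (hm1 : ∀ s ∈ Icc (0 : ℝ) bt, 1 ≤ mb s)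
    (ca : ContinuousOn (θ a) (Icc 0 t)) (cb : ContinuousOn (θ b) (Icc 0 t))
    (Yb : ∀ r ∈ Icc 0 t, Y r ≤ θ b r) (ba : ∀ r ∈ Icc 0 t, θ b r ≤ θ a r)
    (a2 : ∀ r ∈ Icc 0 t, θ a r ≤ 2)
    (dY : ∀ r ∈ Icc 0 t, HasDerivAt Y (Y' r) r) (dN : ∀ r ∈ Icc 0 t, HasDerivAt N (N' r) r)
    (Y0 : ∀ r ∈ Icc 0 t, 0 ≤ Y r) (N0 : ∀ r ∈ Icc 0 t, 0 ≤ N r) (N1 : ∀ r ∈ Icc 0 t, N r ≤ 1)
    (oY : ∀ r ∈ Icc 0 t, mb r * N r ≤ -Y' r)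
    (oN : ∀ r ∈ Icc 0 t, mb r * (Real.exp (θ a r / 2 + θ b r / 6 + Y r / 3) - 1) ≤ -N' r) :
    Sy Z x P {a, b} mb t θ Y := by
  have m1 : ∀ r ∈ Icc 0 t, r ∈ Icc (0 : ℝ) bt := fun r hr => ⟨hr.1, hr.2.trans ht.2⟩
  have mb0 : ∀ r ∈ Icc 0 t, 0 ≤ mb r := fun r hr => zero_le_one.trans (hm1 r (m1 r hr))
  refine ⟨Y', N, N', fun u v r hr => hZ.hh_nonneg hx (m1 r hr) u v,
    fun u v => (hZ.hh_cont hx u v).mono (Icc_subset_Icc_right ht.2),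
    fun u v r hr => Hzd.hh_le hx hmb hm1 (m1 r hr) u v, mb0, fun w hw r hr => ?_,
    fun w hw => ?_, dY, dN, Y0, N0, N1, oY, fun e he r hr => ?_⟩
  · rcases Finset.mem_insert.1 hw with h | h
    · rw [h]; exact ((Y0 r hr).trans (Yb r hr)).trans (ba r hr)
    · rw [Finset.mem_singleton.1 h]; exact (Y0 r hr).trans (Yb r hr)
  · rcases Finset.mem_insert.1 hw with h | h
    · rw [h]; exact ca
    · rw [Finset.mem_singleton.1 h]; exact cb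
  · have h1 := RCM.row_two (wt_of hx) hab (U := ({a, b} : Finset V)ᶜ) (by simp) (by simp)
      (Y0 r hr) (Yb r hr) (ba r hr) (by linarith [a2 r hr, Y0 r hr]) (fun w => θ w r) rfl rfl e he
    exact (mul_le_mul_of_nonneg_left h1 (mb0 r hr)).trans (oN r hr)

/-- the scalar system for one removed vertex -/
theorem sy_one (hZ : Z.Ok sl) (hx : Wt x P 1) {a : V} {t : ℝ}
    (ht : t ∈ Icc (0 : ℝ) bt) {θ : V → ℝ → ℝ} {Y Y' N N' : ℝ → ℝ}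
    (hmb : ∀ y ∈ Icc (0 : ℝ) 1, ∀ s ∈ Icc (0 : ℝ) bt, Z.rr y s ≤ mb s)
    (hm1 : ∀ s ∈ Icc (0 : ℝ) bt, 1 ≤ mb s)
    (ca : ContinuousOn (θ a) (Icc 0 t)) (Ya : ∀ r ∈ Icc 0 t, Y r ≤ θ a r)
    (a2 : ∀ r ∈ Icc 0 t, θ a r ≤ 2)
    (dY : ∀ r ∈ Icc 0 t, HasDerivAt Y (Y' r) r) (dN : ∀ r ∈ Icc 0 t, HasDerivAt N (N' r) r)
    (Y0 : ∀ r ∈ Icc 0 t, 0 ≤ Y r) (N0 : ∀ r ∈ Icc 0 t, 0 ≤ N r) (N1 : ∀ r ∈ Icc 0 t, N r ≤ 1)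
    (oY : ∀ r ∈ Icc 0 t, mb r * N r ≤ -Y' r)
    (oN : ∀ r ∈ Icc 0 t, mb r * (Real.exp (θ a r / 2 + Y r / 2) - 1) ≤ -N' r) :
    Sy Z x P {a} mb t θ Y := by
  have m1 : ∀ r ∈ Icc 0 t, r ∈ Icc (0 : ℝ) bt := fun r hr => ⟨hr.1, hr.2.trans ht.2⟩
  have mb0 : ∀ r ∈ Icc 0 t, 0 ≤ mb r := fun r hr => zero_le_one.trans (hm1 r (m1 r hr))
  refine ⟨Y', N, N', fun u v r hr => hZ.hh_nonneg hx (m1 r hr) u v,
    fun u v => (hZ.hh_cont hx u v).mono (Icc_subset_Icc_right ht.2),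
    fun u v r hr => Hzd.hh_le hx hmb hm1 (m1 r hr) u v, mb0, fun w hw r hr => ?_,
    fun w hw => ?_, dY, dN, Y0, N0, N1, oY, fun e he r hr => ?_⟩
  · rw [Finset.mem_singleton.1 hw]; exact (Y0 r hr).trans (Ya r hr)
  · rw [Finset.mem_singleton.1 hw]; exact ca
  · have h1 := RCM.row_one (wt_of hx) (a := a) (U := ({a} : Finset V)ᶜ) (by simp)
      (θ := θ a r) (Y0 r hr) (Ya r hr) (by linarith [a2 r hr, Y0 r hr]) e he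
    refine le_trans (mul_le_mul_of_nonneg_left (le_trans (le_of_eq ?_) h1) (mb0 r hr)) (oN r hr)
    refine Finset.sum_congr rfl fun f _ => ?_
    unfold RCM.yhat RCM.kx
    rw [Finset.sum_singleton, Finset.sum_singleton, Finset.sum_singleton]

end Pool.Agent.RX.RCN.K
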