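import Pool.Agent.RX.RCG.Wk
import Pool.Agent.RX.RCM.EpB
import Pool.Agent.RX.RCM.GSa
import Pool.Agent.RX.RCM.LzI
import Pool.Agent.RX.RCM.Pic

/-! Density errors: level 0 and level 1/2 of a horizon in the clock variable
(MP_73ccd0_lc, route M). -/

namespace Pool.Agent.RX.RCN.K

open Set Finset MeasureTheory Pool.Agent.RX.RCRSHalf Pool.Agent.RX.RCG Pool.Agent.RX.RCG.Ct

set_option linter.unusedSectionVars false

variable {V : Type*} [Fintype V] [DecidableEq V]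

/-- a clock for the horizon `τ` -/
structure Ck (Z : Hzd) (B : ℝ → ℝ → ℝ) (s : RCM.Us) (C mb : ℝ → ℝ) (τ : ℝ) : Prop where
  τ0 : 0 ≤ τ
  τ1 : τ ≤ bt
  dC : ∀ r ∈ Icc (0 : ℝ) bt, HasDerivAt C (mb r) r
  cm : ContinuousOn mb (Icc 0 bt)
  m1 : ∀ r ∈ Icc (0 : ℝ) bt, 1 ≤ mb r
  hmb : ∀ y ∈ Icc (0 : ℝ) 1, ∀ r ∈ Icc (0 : ℝ) bt, Z.rr y r ≤ mb r
  cU : C τ - C 0 ≤ s.U0
  ct : ∀ r ∈ Icc 0 τ, Clt Z r τ (s.th (C τ - C r))
  cb : ∀ r ∈ Icc 0 τ, B τ r ≤ s.be (C τ - C r)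

variable {Z : Hzd} {B E1 : ℝ → ℝ → ℝ} {s : RCM.Us} {C mb : ℝ → ℝ} {τ : ℝ}

namespace Ck

variable (k : Ck Z B s C mb τ)
include k

theorem m0 {r : ℝ} (hr : r ∈ Icc 0 τ) : 0 ≤ mb r :=
  zero_le_one.trans (k.m1 r ⟨hr.1, hr.2.trans k.τ1⟩)

theorem mono {r r' : ℝ} (hr : 0 ≤ r) (h : r ≤ r') (h1 : r' ≤ τ) : C r ≤ C r' := by
  have m : ∀ z ∈ Icc r r', z ∈ Icc 0 τ := fun z hz => ⟨hr.trans hz.1, hz.2.trans h1⟩
  have := RCM.back_le (a := r) (τ := r') (f := fun z => -C z) (g := fun _ => -C r)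
    (f' := fun z => -mb z) (g' := fun _ => 0)
  have anti : MonotoneOn C (Icc r r') := by
    refine monotoneOn_of_deriv_nonneg (convex_Icc r r') (fun z hz =>
      (k.dC z ⟨(m z hz).1, (m z hz).2.trans k.τ1⟩).continuousAt.continuousWithinAt)
      (fun z hz => ?_) fun z hz => ?_
    · rw [interior_Icc] at hz
      have hz' := Ioo_subset_Icc_self hz
      exact (k.dC z ⟨(m z hz').1, (m z hz').2.trans k.τ1⟩).differentiableAt.differentiableWithinAt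
    · rw [interior_Icc] at hz
      have hz' := Ioo_subset_Icc_self hz
      rw [(k.dC z ⟨(m z hz').1, (m z hz').2.trans k.τ1⟩).deriv]
      exact k.m0 (m z hz')
  exact anti ⟨le_rfl, h⟩ ⟨h, le_rfl⟩ h

theorem um {r : ℝ} (hr : r ∈ Icc 0 τ) : C τ - C r ∈ Icc 0 s.U0 := by
  have h1 := k.mono hr.1 hr.2 le_rfl
  have h2 := k.mono le_rfl hr.1 hr.2
  have h3 := k.cU
  exact ⟨by linarith, by linarith⟩

theorem comp {g g' : ℝ → ℝ} (hg : ∀ u, HasDerivAt g (g' u) u) {r : ℝ} (hr : r ∈ Icc 0 τ) :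
    HasDerivAt (fun r => g (C τ - C r)) (-(g' (C τ - C r) * mb r)) r := by
  have h1 : HasDerivAt (fun r => C τ - C r) (-mb r) r :=
    (k.dC r ⟨hr.1, hr.2.trans k.τ1⟩).const_sub (C τ)
  have := (hg (C τ - C r)).comp r h1
  exact this.congr_deriv (by ring)

theorem cC : ContinuousOn (fun r => C τ - C r) (Icc 0 τ) := fun r hr =>
  ((k.dC r ⟨hr.1, hr.2.trans k.τ1⟩).const_sub (C τ)).continuousAt.continuousWithinAt

theorem cont {g : ℝ → ℝ} (hg : Continuous g) : ContinuousOn (fun r => g (C τ - C r)) (Icc 0 τ) :=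
  hg.comp_continuousOn k.cC

theorem cmb : ContinuousOn mb (Icc 0 τ) := k.cm.mono (Icc_subset_Icc_right k.τ1)

end Ck

variable {x : V → V → ℝ} {P : V → Prop} [DecidablePred P] {sl : ℝ → ℝ → ℝ} {A D : Finset V}

/-- `D` has one or two elements -/
def Dok (D : Finset V) : Prop := (∃ a, D = {a}) ∨ ∃ a b, a ≠ b ∧ D = {a, b}

theorem Dok.kap (hD : Dok D) (hx : RCM.Wt x) : ∑ e ∈ Dᶜ, RCM.kap x D e ≤ 2 := by
  have h1 : ∑ e ∈ Dᶜ, RCM.kap x D e ≤ ∑ e, RCM.kap x D e :=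
    Finset.sum_le_sum_of_subset_of_nonneg (Finset.subset_univ _) fun e _ _ => RCM.kap_nn hx D e
  refine h1.trans ?_
  unfold RCM.kap
  rw [Finset.sum_comm]
  rcases hD with ⟨a, rfl⟩ | ⟨a, b, hab, rfl⟩
  · rw [Finset.sum_singleton]
    linarith [hx.row a]
  · rw [Finset.sum_pair hab]
    linarith [hx.row a, hx.row b]

/-- level 0 of the horizon `τ` -/
noncomputable def Fz (s : RCM.Us) (Z : Hzd) (x : V → V → ℝ) (P : V → Prop) [DecidablePred P]
    (D : Finset V) (C : ℝ → ℝ) (τ : ℝ) : Lz V :=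
  lz Z x P D (fun _ _ _ r => s.th (C τ - C r)) (fun _ _ r => s.Y (C τ - C r))
    (fun _ r => s.th (C τ - C r)) (fun r => s.Y (C τ - C r)) τ

theorem sy_fz (hs : s.Ok) (k : Ck Z B s C mb τ) (hZ : Z.Ok sl) (hx : Wt x P 1) (hD : Dok D) :
    Sy Z x P D mb τ (fun _ r => s.th (C τ - C r)) (fun r => s.Y (C τ - C r)) := by
  have τm : τ ∈ Icc (0 : ℝ) bt := ⟨k.τ0, k.τ1⟩
  have dY := fun r (hr : r ∈ Icc 0 τ) => k.comp hs.dY hr
  have dN := fun r (hr : r ∈ Icc 0 τ) => k.comp hs.dN hr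
  have cth := k.cont hs.cth
  rcases hD with ⟨a, rfl⟩ | ⟨a, b, hab, rfl⟩
  · refine sy_one hZ hx τm k.hmb k.m1 cth (fun r hr => hs.Yth _ (k.um hr))
      (fun r hr => hs.th2 _ (k.um hr)) dY dN (fun r hr => hs.Y0 _ (k.um hr))
      (fun r hr => hs.N0 _ (k.um hr)) (fun r hr => hs.N1 _ (k.um hr)) (fun r hr => ?_)
      (fun r hr => ?_)
    · have := mul_le_mul_of_nonneg_left (hs.oY _ (k.um hr)) (k.m0 hr)
      linarith
    · have h1 := hs.oN _ (k.um hr)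
      have h2 := hs.Yth _ (k.um hr)
      have h3 : Real.exp (s.th (C τ - C r) / 2 + s.Y (C τ - C r) / 2)
          ≤ Real.exp (2 / 3 * s.th (C τ - C r) + s.Y (C τ - C r) / 3) :=
        Real.exp_le_exp.2 (by linarith)
      have := mul_le_mul_of_nonneg_left ((sub_le_sub_right h3 1).trans h1) (k.m0 hr)
      linarith
  · refine sy_two hZ hx hab τm k.hmb k.m1 cth cth (fun r hr => hs.Yth _ (k.um hr))
      (fun r hr => le_rfl) (fun r hr => hs.th2 _ (k.um hr)) dY dN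
      (fun r hr => hs.Y0 _ (k.um hr)) (fun r hr => hs.N0 _ (k.um hr))
      (fun r hr => hs.N1 _ (k.um hr)) (fun r hr => ?_) (fun r hr => ?_)
    · have := mul_le_mul_of_nonneg_left (hs.oY _ (k.um hr)) (k.m0 hr)
      linarith
    · have h1 := hs.oN _ (k.um hr)
      have e : s.th (C τ - C r) / 2 + s.th (C τ - C r) / 6 + s.Y (C τ - C r) / 3
          = 2 / 3 * s.th (C τ - C r) + s.Y (C τ - C r) / 3 := by ring
      have := mul_le_mul_of_nonneg_left h1 (k.m0 hr)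
      simp only [e]
      linarith

theorem Clt.horizon {r t t' θ : ℝ} (hZ : Z.Ok sl) (h : Clt Z r t θ) (ht' : t' ≤ t)
    (h0 : 0 ≤ t') (h1 : t ≤ bt) : Clt Z r t' θ := by
  refine ⟨fun y hy => ?_, by linarith [h.pe]⟩
  have h2 := h.re y hy
  have h3 := hZ.S_mono hy h0 ht' h1
  have h4 := hZ.den y hy t ⟨h0.trans ht', h1⟩
  have h5 : Real.log (1 - y * Z.S y t) ≤ Real.log (1 - y * Z.S y t') :=
    Real.log_le_log h4 (by have := mul_le_mul_of_nonneg_left h3 hy.1; linarith)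
  linarith

/-- **level 0** -/
theorem fz_ok (hs : s.Ok) (k : Ck Z B s C mb τ) (hZ : Z.Ok sl) (hx : Wt x P 1) (hD : Dok D)
    (hAD : A ⊆ D) : (Fz s Z x P D C τ).Ok Z x P A D τ τ τ := by
  have hsy := sy_fz hs k hZ hx hD
  refine lz_ok (mb := mb) hx hAD k.τ0 le_rfl k.τ1 k.τ0 le_rfl (fun t ht t' _ => ?_) hsy
    (fun _ _ _ _ _ _ _ _ _ => le_rfl) (fun _ _ _ _ _ _ => le_rfl)
    (fun t ht s' _ w _ r hr => ?_) (fun t ht s' hs' w _ _ r hr => ?_)
  · obtain rfl : t = τ := le_antisymm ht.2 ht.1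
    exact hsy
  · obtain rfl : t = τ := le_antisymm ht.2 ht.1
    exact k.ct r hr
  · obtain rfl : t = τ := le_antisymm ht.2 ht.1
    exact (k.ct r ⟨hr.1, hr.2.trans hs'.2⟩).horizon hZ hs'.2 hs'.1 k.τ1

theorem fz_cy (hs : s.Ok) (k : Ck Z B s C mb τ) (hZ : Z.Ok sl) (hx : Wt x P 1) (hD : Dok D)
    (e : V) : ContinuousOn ((Fz s Z x P D C τ).y1 e) (Icc 0 τ) :=
  lz_y1 (mb := mb) hx k.τ0 (sy_fz hs k hZ hx hD) e

theorem fz_cy2 (hs : s.Ok) (k : Ck Z B s C mb τ) (hZ : Z.Ok sl) (hx : Wt x P 1) (e : V) :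
    C3 τ τ fun t s' r => (Fz s Z x P D C τ).y2 t s' e r := by
  refine lz_c3 hZ hx k.τ0 le_rfl k.τ1 (fun w _ => ?_) ?_ e
  · exact C3.of_r (k.cont hs.cth)
  · exact C3.of_r (fun r hr => (k.comp hs.dY hr).continuousAt.continuousWithinAt)

section kernels

variable (hs : s.Ok) (k : Ck Z B s C mb τ) (hZ : Z.Ok sl) (hx : Wt x P 1) (hD : Dok D)
include hs k hZ hx hD

theorem fz_y (e : V) {r : ℝ} (hr : r ∈ Icc 0 τ) : (Fz s Z x P D C τ).y1 e r
    ≤ s.Y (C τ - C r) + (s.th (C τ - C r) - s.Y (C τ - C r)) * RCM.kap x D e := by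
  obtain ⟨Y', N, N', hL⟩ := sy_fz hs k hZ hx hD
  refine (hL.yx_le (wt_of hx) k.τ0 e hr).trans (le_of_eq ?_)
  unfold RCM.yhat RCM.kap
  rw [← Finset.sum_mul]
  ring

theorem fz_y0 (e : V) {r : ℝ} (hr : r ∈ Icc 0 τ) : 0 ≤ (Fz s Z x P D C τ).y1 e r := by
  obtain ⟨Y', N, N', hL⟩ := sy_fz hs k hZ hx hD
  exact hL.yx_nonneg (wt_of hx) e hr

theorem fz_n (e : V) {r : ℝ} (hr : r ∈ Icc 0 τ) : (Fz s Z x P D C τ).n1 e r ≤ s.N (C τ - C r) := by
  have dN := fun r (hr : r ∈ Icc 0 τ) => k.comp hs.dN hr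
  have hL : RCM.L0s (Z.hh x P) x D τ mb (fun _ r => s.th (C τ - C r)) (fun r => s.Y (C τ - C r))
      (fun r => -(s.Y' (C τ - C r) * mb r)) (fun r => s.N (C τ - C r))
      (fun r => -(s.N' (C τ - C r) * mb r)) := by
    obtain ⟨Y', N, N', hL⟩ := sy_fz hs k hZ hx hD
    refine ⟨hL.b0, hL.bc, hL.lm, hL.mb0, hL.θ0, hL.θc, fun r hr => k.comp hs.dY hr, dN,
      hL.Y0, fun r hr => hs.N0 _ (k.um hr), fun r hr => hs.N1 _ (k.um hr), fun r hr => ?_,
      fun e he r hr => ?_⟩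
    · have := mul_le_mul_of_nonneg_left (hs.oY _ (k.um hr)) (k.m0 hr)
      linarith
    · have h1 := hs.oN _ (k.um hr)
      have h2 := hs.Yth _ (k.um hr)
      have Y0 := hs.Y0 _ (k.um hr)
      have t2 := hs.th2 _ (k.um hr)
      have h3 : ∑ f ∈ Dᶜ, x e f * (Real.exp (RCM.yhat x D (fun _ r => s.th (C τ - C r))
          (fun r => s.Y (C τ - C r)) f r) - 1)
          ≤ Real.exp (2 / 3 * s.th (C τ - C r) + s.Y (C τ - C r) / 3) - 1 := by
        rcases hD with ⟨a, rfl⟩ | ⟨a, b, hab, rfl⟩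
        · have h4 := RCM.row_one (wt_of hx) (a := a) (U := ({a} : Finset V)ᶜ) (by simp)
            (θ := s.th (C τ - C r)) Y0 h2 (by linarith) e he
          have h5 : Real.exp (s.th (C τ - C r) / 2 + s.Y (C τ - C r) / 2)
              ≤ Real.exp (2 / 3 * s.th (C τ - C r) + s.Y (C τ - C r) / 3) :=
            Real.exp_le_exp.2 (by linarith)
          refine le_trans (le_of_eq ?_) (h4.trans (sub_le_sub_right h5 1))
          refine Finset.sum_congr rfl fun f _ => ?_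
          unfold RCM.yhat RCM.kx
          rw [Finset.sum_singleton, Finset.sum_singleton]
        · have h4 := RCM.row_two (wt_of hx) hab (U := ({a, b} : Finset V)ᶜ) (by simp) (by simp)
            Y0 h2 le_rfl (by linarith) (fun _ => s.th (C τ - C r)) rfl rfl e he
          have e1 : s.th (C τ - C r) / 2 + s.th (C τ - C r) / 6 + s.Y (C τ - C r) / 3
              = 2 / 3 * s.th (C τ - C r) + s.Y (C τ - C r) / 3 := by ring
          rw [e1] at h4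
          exact h4
      have := mul_le_mul_of_nonneg_left (h3.trans h1) (k.m0 hr)
      linarith
  by_cases he : e ∈ Dᶜ
  · exact (hL.nx_le (wt_of hx) k.τ0 e hr).trans (hL.nv_le (wt_of hx) k.τ0 e he r hr)
  · have he' : e ∈ D := by rwa [Finset.mem_compl, not_not] at he
    show RCM.nx (Z.hh x P) x D _ _ τ e r ≤ _
    unfold RCM.nx
    rw [if_pos he']
    exact hs.N0 _ (k.um hr)

theorem fz_n0 (e : V) {r : ℝ} (hr : r ∈ Icc 0 τ) : 0 ≤ (Fz s Z x P D C τ).n1 e r := by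
  obtain ⟨Y', N, N', hL⟩ := sy_fz hs k hZ hx hD
  exact hL.nx_nonneg (wt_of hx) e hr

theorem fz_n1 (e : V) {r : ℝ} (hr : r ∈ Icc 0 τ) : (Fz s Z x P D C τ).n1 e r ≤ 1 :=
  (fz_n hs k hZ hx hD e hr).trans (hs.N1 _ (k.um hr))

theorem hh_mb {r : ℝ} (hr : r ∈ Icc 0 τ) (u v : V) : Z.hh x P r u v ≤ x u v * mb r :=
  Hzd.hh_le hx k.hmb k.m1 ⟨hr.1, hr.2.trans k.τ1⟩ u v

theorem fz_exp (i j : V) {r : ℝ} (hr : r ∈ Icc 0 τ) :
    Real.exp ((Fz s Z x P D C τ).y1 i r + (Fz s Z x P D C τ).y1 j r)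
      ≤ RCM.Gx s (C τ - C r) x D i * RCM.Gx s (C τ - C r) x D j := by
  unfold RCM.Gx
  rw [← Real.exp_add, ← Real.exp_add, ← Real.exp_add]
  exact Real.exp_le_exp.2 (add_le_add (fz_y hs k hZ hx hD i hr) (fz_y hs k hZ hx hD j hr))

/-- the kernel of the horizon -/
theorem kc1 {r : ℝ} (hr : r ∈ Icc 0 τ) :
    RCM.Kc s (C τ - C r) x D (mb r) (K1 Z (Fz s Z x P D C τ) x P r) := by
  have hr1 : r ∈ Icc (0 : ℝ) bt := ⟨hr.1, hr.2.trans k.τ1⟩
  refine ⟨k.m0 hr, fun i j => K1_symm hx r i j, fun i j => K1_nonneg hZ hx hr1 i j,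
    fun i _ j _ => ?_⟩
  unfold K1 RCM.Tb
  have h1 := mul_le_mul (hh_mb hs k hZ hx hD hr i j) (fz_exp hs k hZ hx hD i j hr)
    (Real.exp_pos _).le (mul_nonneg (hx.nonneg i j) (k.m0 hr))
  refine h1.trans (le_of_eq (by ring))

/-- the sources of level 1/2 -/
theorem ac1 {r : ℝ} (hr : r ∈ Icc 0 τ) :
    RCM.Ac2 s (C τ - C r) x D (mb r) (RCM.Ab (Z.hh x P) (Fz s Z x P D C τ).y1 r)
      (RCM.Bw (Z.hh x P) (Fz s Z x P D C τ).n1 r) := by
  have hr1 : r ∈ Icc (0 : ℝ) bt := ⟨hr.1, hr.2.trans k.τ1⟩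
  have h0 := fun i j => hZ.hh_nonneg hx hr1 i j
  refine ⟨k.m0 hr, fun i j => ?_, fun i j => ?_, fun i _ j _ => ?_, fun i _ j _ => ?_⟩
  · unfold RCM.Ab
    refine mul_nonneg (h0 i j) ?_
    have := Real.one_le_exp (add_nonneg (fz_y0 hs k hZ hx hD i hr) (fz_y0 hs k hZ hx hD j hr))
    linarith
  · unfold RCM.Bw
    refine mul_nonneg (h0 i j) ?_
    have a0 := fz_n0 hs k hZ hx hD i hr
    have b0 := fz_n0 hs k hZ hx hD j hr
    have a1 := fz_n1 hs k hZ hx hD i hr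
    have b1 := fz_n1 hs k hZ hx hD j hr
    nlinarith
  · unfold RCM.Ab
    have e0 := Real.one_le_exp (add_nonneg (fz_y0 hs k hZ hx hD i hr) (fz_y0 hs k hZ hx hD j hr))
    have h1 := mul_le_mul (hh_mb hs k hZ hx hD hr i j)
      (sub_le_sub_right (fz_exp hs k hZ hx hD i j hr) 1) (by linarith)
      (mul_nonneg (hx.nonneg i j) (k.m0 hr))
    refine h1.trans (le_of_eq (by ring))
  · unfold RCM.Bw
    have a0 := fz_n0 hs k hZ hx hD i hr
    have b0 := fz_n0 hs k hZ hx hD j hr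
    have a1 := fz_n hs k hZ hx hD i hr
    have b1 := fz_n hs k hZ hx hD j hr
    have a2 := fz_n1 hs k hZ hx hD i hr
    have b2 := fz_n1 hs k hZ hx hD j hr
    have h2 : 1 - (1 - (Fz s Z x P D C τ).n1 i r) * (1 - (Fz s Z x P D C τ).n1 j r)
        ≤ 2 * s.N (C τ - C r) := by nlinarith
    have h3 : 0 ≤ 1 - (1 - (Fz s Z x P D C τ).n1 i r) * (1 - (Fz s Z x P D C τ).n1 j r) := by
      nlinarith
    have h1 := mul_le_mul (hh_mb hs k hZ hx hD hr i j) h2 h3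
      (mul_nonneg (hx.nonneg i j) (k.m0 hr))
    refine h1.trans (le_of_eq (by ring))

/-- regularity of the data of level 1/2 -/
theorem rd1 : RCM.Rds τ (K1 Z (Fz s Z x P D C τ) x P) (RCM.Ab (Z.hh x P) (Fz s Z x P D C τ).y1)
    (RCM.Bw (Z.hh x P) (Fz s Z x P D C τ).n1) := by
  have cy := fz_cy hs k hZ hx hD
  have ch : ∀ i j, ContinuousOn (fun r => Z.hh x P r i j) (Icc 0 τ) := fun i j =>
    (hZ.hh_cont hx i j).mono (Icc_subset_Icc_right k.τ1)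
  have cn : ∀ e, ContinuousOn ((Fz s Z x P D C τ).n1 e) (Icc 0 τ) := fun e => by
    obtain ⟨Y', N, N', hL⟩ := sy_fz hs k hZ hx hD
    show ContinuousOn (RCM.nx (Z.hh x P) x D _ _ τ e) (Icc 0 τ)
    by_cases he : e ∈ Dᶜ
    · rw [RCM.nx_eq he]
      exact RCM.nv_cont k.τ0 hL.bc (hL.yx_cont k.τ0) _ e
    · have he' : e ∈ D := by rwa [Finset.mem_compl, not_not] at he
      have : RCM.nx (Z.hh x P) x D (fun _ r => s.th (C τ - C r)) (fun r => s.Y (C τ - C r)) τ e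
          = fun _ => 0 := by
        funext r; unfold RCM.nx; rw [if_pos he']
      rw [this]; exact continuousOn_const
  refine ⟨k.τ0, fun i j => Tb_cont hZ hx k.τ1 cy i j, fun i j => ?_, fun i j => ?_,
    fun r hr i j => (kc1 hs k hZ hx hD hr).T0 i j, fun r hr i j => (ac1 hs k hZ hx hD hr).A0 i j,
    fun r hr i j => (ac1 hs k hZ hx hD hr).B0 i j, fun r i j => K1_symm hx r i j, fun r i j => ?_,
    fun r i j => ?_, fun r i => K1_diag hx r i, fun r i => ?_⟩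
  · unfold RCM.Ab
    exact (ch i j).mul ((Real.continuous_exp.comp_continuousOn ((cy i).add (cy j))).sub
      continuousOn_const)
  · unfold RCM.Bw
    exact (ch i j).mul (continuousOn_const.sub ((continuousOn_const.sub (cn i)).mul
      (continuousOn_const.sub (cn j))))
  · unfold RCM.Ab
    rw [Hzd.hh_symm hx r i j, add_comm]
  · unfold RCM.Bw
    rw [Hzd.hh_symm hx r i j]
    ring
  · unfold RCM.Ab
    rw [Hzd.hh_zero (hx.diag i), zero_mul]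

end kernels

end Pool.Agent.RX.RCN.K
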