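import Pool.Agent.RX.RCM.NuB_2
import Pool.Agent.RX.RCM.NuC
import Pool.Agent.RX.RCM.NuD_1

/-! Existence of the tails of a cell (MP_73ccd0_lc, route M). -/

namespace Pool.Agent.RX.RCN.K

open Set Finset MeasureTheory Pool.Agent.RX.RCRSHalf Pool.Agent.RX.RCG Pool.Agent.RX.RCG.Ct

set_option linter.unusedSectionVars false

variable {V : Type*} [Fintype V] [DecidableEq V]
variable {Z : Hzd} {x : V → V → ℝ} {P : V → Prop} [DecidablePred P] {sl : ℝ → ℝ → ℝ}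
variable {α τ sg : ℝ} {A D : Finset V} {F : Lz V} {B E1 : ℝ → ℝ → ℝ} {m q : ℝ}
variable {gp gm gs : V → V → ℝ → ℝ}

/-- the data of level 1/2 of a cell -/
structure Gd (Z : Hzd) (F : Lz V) (x : V → V → ℝ) (P : V → Prop) [DecidablePred P] (τ : ℝ)
    (D : Finset V) (gp gm gs : V → V → ℝ → ℝ) : Prop where
  g : ∃ gp' gm', RCM.S12 Dᶜ τ (K1 Z F x P) (RCM.Ab (Z.hh x P) F.y1) (RCM.Bw (Z.hh x P) F.n1)
    gp gp' gm gm'
  pz : ∀ i r, gp i i r = 0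
  mz : ∀ i r, gm i i r = 0
  s0 : ∀ i j, ∀ r ∈ Icc 0 τ, 0 ≤ gs i j r
  es : ∀ e ∈ Dᶜ, ∀ i ∈ Dᶜ, ∀ j ∈ Dᶜ, i ≠ j → ∀ r ∈ Icc 0 τ,
    1 - Real.exp (-(gm e i r + gm e j r)) ≤ gs e i r + gs e j r
  cp : ∀ i j, ContinuousOn (gp i j) (Icc 0 τ)
  cm : ∀ i j, ContinuousOn (gm i j) (Icc 0 τ)
  cs : ∀ i j, ContinuousOn (gs i j) (Icc 0 τ)

/-- the tail system of the target `c` with the horizon `s` in the cell `τ` -/
def Tls (Z : Hzd) (F : Lz V) (x : V → V → ℝ) (P : V → Prop) [DecidablePred P] (τ : ℝ)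
    (D : Finset V) (gp gs : V → V → ℝ → ℝ) (B : ℝ → ℝ → ℝ) (q m : ℝ) (s : ℝ) (c : V)
    (p n : V → ℝ → ℝ) : Prop :=
  RCM.Tl (Dᶜ.erase c) s (K1 Z F x P) (D3f Z x P B τ q m s c) (N1 Z F x P D s c) gp gs
    (C1f Z x P τ q c) (C4f Z x P B τ q c) p n

theorem N1_nonneg (hZ : Z.Ok sl) (hx : Wt x P 1) {s : ℝ} (hs : s ∈ Icc (0 : ℝ) bt) (c e : V)
    {r : ℝ} (hr : r ∈ Icc 0 s) : 0 ≤ N1 Z F x P D s c e r :=
  RCM.bk_nonneg hr fun z hz => Finset.sum_nonneg fun f _ =>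
    mul_nonneg (K1_nonneg hZ hx ⟨hz.1, hz.2.trans hs.2⟩ e f) (hZ.Dd_nonneg hx hs c f hz)

/-- **existence of the family of tails**; `hmT` bounds the sums of two tails with the horizon of the
cell and no data at the end, `hms` those with a horizon `s ≤ sg` and data at the end at most those
of level 1/2 -/
theorem exists_fm (hC : Z.Cf B E1) (hZ : Z.Ok sl) (hx : Wt x P 1)
    (hF : F.Ok Z x P A D sg α τ) (cy2 : ∀ e, C3 α τ fun t s r => F.y2 t s e r)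
    (cy : ∀ e, ContinuousOn (F.y1 e) (Icc 0 τ))
    (hG : Gd Z F x P τ D gp gm gs) (cB : ContinuousOn (B τ) (Icc 0 τ))
    (q0 : 0 ≤ q) (m0 : 0 ≤ m) (hq : Real.exp m - 1 ≤ q * m)
    (hmT : ∀ c ∈ Dᶜ, ∀ p n : V → ℝ → ℝ, Tls Z F x P τ D gp gs B q m τ c p n →
      (∀ e ∈ Dᶜ.erase c, p e τ = 0) → (∀ e ∈ Dᶜ.erase c, n e τ = 0) →
      ∀ e f, e ≠ f → ∀ r ∈ Icc 0 τ, p e r + p f r ≤ m)
    (hms : ∀ s ∈ Icc 0 sg, ∀ d ∈ Dᶜ, ∀ p n : V → ℝ → ℝ,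
      Tls Z F x P τ D gp gs B q m s d p n → (∀ e ∈ Dᶜ.erase d, p e s ≤ gm d e s) →
      (∀ e ∈ Dᶜ.erase d, n e s ≤ gp d e s) →
      ∀ e f, e ≠ f → ∀ r ∈ Icc 0 s, p e r + p f r ≤ m) :
    ∃ G : Fm V, G.gp = gp ∧ G.gm = gm ∧ G.gs = gs ∧ G.Ok Z F x P sg τ D B m q ∧ G.Ed D sg ∧
      Ctl G sg τ ∧ Cj F G α τ ∧
      (∀ c, ∀ e ∈ Dᶜ.erase c, G.p c e τ = 0 ∧ G.n c e τ = 0) ∧
      (∀ c, Tls Z F x P τ D gp gs B q m τ c (G.p c) (G.n c)) ∧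
      (∀ s ∈ Icc 0 sg, ∀ d, Tls Z F x P τ D gp gs B q m s d (G.pd s d) (G.nd s d)) ∧
      (∀ s ∈ Icc 0 sg, ∀ d, Tls Z F x P τ D gp gs B q m s d (G.pt s d) (G.nt s d)) := by
  have hτ0 : 0 ≤ τ := hF.α0.trans hF.ατ
  have τ1 : τ ∈ Icc (0 : ℝ) bt := ⟨hτ0, hF.τ1⟩
  have τm : τ ∈ Icc 0 τ := ⟨hτ0, le_rfl⟩
  have mτ1 : ∀ r ∈ Icc 0 τ, r ∈ Icc (0 : ℝ) bt := fun r hr => ⟨hr.1, hr.2.trans hF.τ1⟩
  have msg : ∀ s ∈ Icc 0 sg, s ∈ Icc 0 τ := fun s hs => ⟨hs.1, hs.2.trans hF.sgτ⟩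
  obtain ⟨gp', gm', hg⟩ := hG.g
  have cK1 : ∀ e f, ContinuousOn (fun r => K1 Z F x P r e f) (Icc 0 τ) := fun e f =>
    Tb_cont hZ hx hF.τ1 cy e f
  have k1 : ∀ c e, ContinuousOn (C1f Z x P τ q c e) (Icc 0 τ) := C1f_cont hZ hx hF.τ1 q
  have k4 : ∀ c e, ContinuousOn (C4f Z x P B τ q c e) (Icc 0 τ) := C4f_cont hZ hx hF.τ1 cB q
  have k3 := D3f_cont2 (P := P) hZ hx hF.τ1 cB q m
  -- existence for given end data
  have ex : ∀ s ∈ Icc 0 τ, ∀ c : V, ∀ pT nT : V → ℝ, (∀ e, 0 ≤ pT e) → (∀ e, 0 ≤ nT e) →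
      ∃ p n : V → ℝ → ℝ, Tls Z F x P τ D gp gs B q m s c p n ∧
        (∀ e ∈ Dᶜ.erase c, p e s = pT e) ∧ ∀ e ∈ Dᶜ.erase c, n e s = nT e := by
    intro s hs c pT nT hp hn
    have hsub : Icc 0 s ⊆ Icc 0 τ := Icc_subset_Icc_right hs.2
    have s1 : s ∈ Icc (0 : ℝ) bt := mτ1 s hs
    have cN : ∀ e, ContinuousOn (N1 Z F x P D s c e) (Icc 0 s) := fun e r hr =>
      (RCM.bk_deriv hs.1 (continuousOn_finsetSum _ fun f _ => ((cK1 e f).mono hsub).mul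
        ((hZ.Dd_cont hx s c f).mono (Icc_subset_Icc_right s1.2))) hr).continuousAt.continuousWithinAt
    exact RCM.exists_tail (btI s1) (Dᶜ.erase c) (fun i j => (cK1 i j).mono hsub)
      (fun i => (k3 c i).comp (f := fun r : ℝ => (s, r)) (by fun_prop)
        fun _ hr => ⟨hs, hsub hr⟩) cN
      (fun i j => (hG.cp i j).mono hsub) (fun i j => (hG.cs i j).mono hsub)
      (fun i => (k1 c i).mono hsub) (fun i => (k4 c i).mono hsub)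
      (fun r hr i j => K1_nonneg hZ hx (mτ1 r (hsub hr)) i j)
      (fun i r hr => D3f_nonneg hC hZ hx hF.τ1 q0 m0 hs.2 c i hr)
      (fun i r hr => N1_nonneg hZ hx s1 c i hr)
      (fun i j r hr => hg.gp0 i j r (hsub hr)) (fun i j r hr => hG.s0 i j r (hsub hr))
      (fun i r hr => C1f_nonneg hZ hx τ1 q0 c i (hsub hr))
      (fun i r hr => C4f_nonneg hC hZ hx τ1 q0 c i (hsub hr)) hp hn
  have hA : ∀ s c, ∃ p n : V → ℝ → ℝ, s ∈ Icc 0 τ → Tls Z F x P τ D gp gs B q m s c p n ∧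
      (∀ e ∈ Dᶜ.erase c, p e s = 0) ∧ ∀ e ∈ Dᶜ.erase c, n e s = 0 := fun s c => by
    by_cases hs : s ∈ Icc 0 τ
    · obtain ⟨p, n, h⟩ := ex s hs c (fun _ => 0) (fun _ => 0) (fun _ => le_rfl) (fun _ => le_rfl)
      exact ⟨p, n, fun _ => h⟩
    · exact ⟨fun _ _ => 0, fun _ _ => 0, fun h => absurd h hs⟩
  have hR : ∀ s c, ∃ p n : V → ℝ → ℝ, s ∈ Icc 0 τ → Tls Z F x P τ D gp gs B q m s c p n ∧
      (∀ e ∈ Dᶜ.erase c, p e s = gm c e s) ∧ ∀ e ∈ Dᶜ.erase c, n e s = gp c e s := fun s c => by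
    by_cases hs : s ∈ Icc 0 τ
    · obtain ⟨p, n, h⟩ := ex s hs c (fun e => gm c e s) (fun e => gp c e s)
        (fun e => hg.gm0 c e s hs) (fun e => hg.gp0 c e s hs)
      exact ⟨p, n, fun _ => h⟩
    · exact ⟨fun _ _ => 0, fun _ _ => 0, fun h => absurd h hs⟩
  choose pA nA hA using hA
  choose pR nR hR using hR
  refine ⟨⟨gp, gm, gs, C1f Z x P τ q, D3f Z x P B τ q m, C4f Z x P B τ q, fun c => pA τ c,
    fun c => nA τ c, fun s d => pA s d, fun s d => nA s d, fun s d => pR s d,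
    fun s d => nR s d⟩, rfl, rfl, rfl,
    { g := hG.g
      pz := hG.pz
      mz := hG.mz
      s0 := hG.s0
      es := hG.es
      q0 := q0
      m0 := m0
      c1 := rfl
      d3 := rfl
      c4 := rfl
      hq := hq
      tc := fun c _ => (hA τ c τm).1
      td := fun s hs d _ => (hA s d (msg s hs)).1
      tt := fun s hs d _ => (hR s d (msg s hs)).1
      ptT := fun s hs d _ e he => (hR s d (msg s hs)).2.1 e he
      ntT := fun s hs d _ e he => (hR s d (msg s hs)).2.2 e he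
      bc := fun c hc e f hef r hr => hmT c hc _ _ (hA τ c τm).1 (hA τ c τm).2.1
        (hA τ c τm).2.2 e f hef r hr
      bd := fun s hs d hd e f hef r hr => hms s hs d hd _ _ (hA s d (msg s hs)).1
        (fun e he => by rw [(hA s d (msg s hs)).2.1 e he]; exact hg.gm0 d e s (msg s hs))
        (fun e he => by rw [(hA s d (msg s hs)).2.2 e he]; exact hg.gp0 d e s (msg s hs))
        e f hef r hr
      btm := fun s hs d hd e f hef r hr => hms s hs d hd _ _ (hR s d (msg s hs)).1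
        (fun e he => ((hR s d (msg s hs)).2.1 e he).le)
        (fun e he => ((hR s d (msg s hs)).2.2 e he).le) e f hef r hr },
    ⟨fun s hs d _ e he => (hA s d (msg s hs)).2.1 e he,
      fun s hs d _ e he => (hA s d (msg s hs)).2.2 e he⟩,
    ⟨fun c e => (tl_cont (hA τ c τm).1 e).1, fun c e => (tl_cont (hA τ c τm).1 e).2,
      fun s hs d e => (tl_cont (hA s d (msg s hs)).1 e).1,
      fun s hs d e => (tl_cont (hA s d (msg s hs)).1 e).2,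
      fun s hs d e => (tl_cont (hR s d (msg s hs)).1 e).1,
      fun s hs d e => (tl_cont (hR s d (msg s hs)).1 e).2⟩,
    ⟨cy2, cy, k1, k3, k4, hG.cp, hG.cm, hG.cs⟩,
    fun c e he => ⟨(hA τ c τm).2.1 e he, (hA τ c τm).2.2 e he⟩,
    fun c => (hA τ c τm).1, fun s hs d => (hA s d (msg s hs)).1,
    fun s hs d => (hR s d (msg s hs)).1⟩

end Pool.Agent.RX.RCN.K
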