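import Pool.Agent.RX.RCM.GOa
import Pool.Agent.RX.RCM.Pic

/-! The level 1/2 of a cell: existence with bounds of the operator norms (MP_73ccd0_lc, route M,
density errors). -/

namespace Pool.Agent.RX.RCM

open Set Finset Filter Topology

set_option linter.unusedSectionVars false

variable {V : Type*} [Fintype V] [DecidableEq V]

/-- right side of the Picard iteration -/
noncomputable def Ro (U : Finset V) (T A B : ℝ → V → V → ℝ) (r : ℝ)
    (u : Bool × V × V → ℝ) (k : Bool × V × V) : ℝ :=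
  if k.2.1 ∈ U ∧ k.2.2 ∈ U ∧ k.2.1 ≠ k.2.2 then
    if k.1 = true then
      A r k.2.1 k.2.2 + Fps U (T r) (fun a b => u (true, a, b)) (fun a b => u (false, a, b))
        k.2.1 k.2.2
    else
      B r k.2.1 k.2.2 + Fms U (T r) (fun a b => u (true, a, b)) (fun a b => u (false, a, b))
        k.2.1 k.2.2
  else 0

/-- the scalar functions: norms of `gp`, `gm`, tested norms `Pf`, `Mf` -/
structure Gq where
  Gp : ℝ → ℝ
  Gp' : ℝ → ℝ
  Gm : ℝ → ℝ
  Gm' : ℝ → ℝ
  Pf : ℝ → ℝ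
  Pf' : ℝ → ℝ
  Mf : ℝ → ℝ
  Mf' : ℝ → ℝ

/-- the facts and the scalar inequalities of a cell, in operator norms -/
structure Goq (U : Finset V) (τ : ℝ) (T A B : ℝ → V → V → ℝ) (f : V → ℝ)
    (lA lB lam Rb fA fB fT : ℝ → ℝ) (s : Gq) : Prop where
  oA : ∀ r ∈ Icc 0 τ, Op U (A r) (lA r)
  oB : ∀ r ∈ Icc 0 τ, Op U (B r) (lB r)
  oT : ∀ r ∈ Icc 0 τ, Op U (T r) (lam r)
  hR : ∀ r ∈ Icc 0 τ, ∀ e ∈ U, ∑ b ∈ U, T r e b ≤ Rb r
  tA : ∀ r ∈ Icc 0 τ, nm U (Ac U (A r) f) ≤ fA r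
  tB : ∀ r ∈ Icc 0 τ, nm U (Ac U (B r) f) ≤ fB r
  tT : ∀ r ∈ Icc 0 τ, nm U (Ac U (T r) f) ≤ fT r
  f0 : ∀ e ∈ U, 0 ≤ f e
  lam0 : ∀ r ∈ Icc 0 τ, 0 ≤ lam r
  Rb0 : ∀ r ∈ Icc 0 τ, 0 ≤ Rb r
  Gp0 : ∀ r ∈ Icc 0 τ, 0 ≤ s.Gp r
  Gm0 : ∀ r ∈ Icc 0 τ, 0 ≤ s.Gm r
  Pf0 : ∀ r ∈ Icc 0 τ, 0 ≤ s.Pf r
  Mf0 : ∀ r ∈ Icc 0 τ, 0 ≤ s.Mf r
  dGp : ∀ r ∈ Icc 0 τ, HasDerivAt s.Gp (s.Gp' r) r
  dGm : ∀ r ∈ Icc 0 τ, HasDerivAt s.Gm (s.Gm' r) r
  dPf : ∀ r ∈ Icc 0 τ, HasDerivAt s.Pf (s.Pf' r) r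
  dMf : ∀ r ∈ Icc 0 τ, HasDerivAt s.Mf (s.Mf' r) r
  op : ∀ r ∈ Icc 0 τ, lA r + 2 * (lam r * s.Gm r)
    + (Rb r + lam r) * (s.Gp r ^ 2 + s.Gm r ^ 2) ≤ -s.Gp' r
  om : ∀ r ∈ Icc 0 τ, lB r + 2 * (lam r * s.Gp r)
    + 2 * ((Rb r + lam r) * (s.Gp r * s.Gm r)) ≤ -s.Gm' r
  of : ∀ r ∈ Icc 0 τ, fA r + (fT r * s.Gm r + s.Mf r * lam r)
    + (Rb r + lam r) * (s.Pf r * s.Gp r + s.Mf r * s.Gm r) ≤ -s.Pf' r
  og : ∀ r ∈ Icc 0 τ, fB r + (fT r * s.Gp r + s.Pf r * lam r)
    + (Rb r + lam r) * (s.Mf r * s.Gp r + s.Pf r * s.Gm r) ≤ -s.Mf' r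

/-- the invariant -/
def Co (U : Finset V) (f : V → ℝ) (s : Gq) (r : ℝ) (u : Bool × V × V → ℝ) : Prop :=
  (∀ b x y, 0 ≤ u (b, x, y)) ∧ (∀ b x y, u (b, x, y) = u (b, y, x)) ∧
    (∀ b x, u (b, x, x) = 0) ∧ (∀ b x y, x ∉ U → u (b, x, y) = 0) ∧
    (∀ w v : V → ℝ, (∀ e ∈ U, 0 ≤ w e) → (∀ e ∈ U, 0 ≤ v e) →
      Bl U (fun x y => u (true, x, y)) w v ≤ s.Gp r * (nm U w * nm U v)) ∧
    (∀ w v : V → ℝ, (∀ e ∈ U, 0 ≤ w e) → (∀ e ∈ U, 0 ≤ v e) →
      Bl U (fun x y => u (false, x, y)) w v ≤ s.Gm r * (nm U w * nm U v)) ∧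
    (∀ v : V → ℝ, (∀ e ∈ U, 0 ≤ v e) →
      Bl U (fun x y => u (true, x, y)) f v ≤ s.Pf r * nm U v) ∧
    (∀ v : V → ℝ, (∀ e ∈ U, 0 ≤ v e) →
      Bl U (fun x y => u (false, x, y)) f v ≤ s.Mf r * nm U v)

variable {U : Finset V} {τ : ℝ} {T A B : ℝ → V → V → ℝ} {f : V → ℝ} {s : Gq}
  {lA lB lam Rb fA fB fT : ℝ → ℝ}

theorem Bl_continuous (b : Bool) (w v : V → ℝ) :
    Continuous fun u : Bool × V × V → ℝ => Bl U (fun x y => u (b, x, y)) w v := by
  unfold Bl
  exact continuous_finsetSum _ fun i _ => continuous_const.mul (continuous_finsetSum _ fun j _ =>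
    (continuous_apply _).mul continuous_const)

theorem Co_closed (r : ℝ) : IsClosed {u : Bool × V × V → ℝ | Co U f s r u} := by
  unfold Co
  simp only [Set.ofPred_and, Set.ofPred_forall]
  refine IsClosed.inter (isClosed_iInter fun b => isClosed_iInter fun x => isClosed_iInter fun y =>
    isClosed_le continuous_const (continuous_apply _)) (IsClosed.inter
    (isClosed_iInter fun b => isClosed_iInter fun x => isClosed_iInter fun y =>
    isClosed_eq (continuous_apply _) (continuous_apply _)) (IsClosed.inter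
    (isClosed_iInter fun b => isClosed_iInter fun x => isClosed_eq (continuous_apply _)
      continuous_const) (IsClosed.inter (isClosed_iInter fun b => isClosed_iInter fun x =>
      isClosed_iInter fun y => isClosed_iInter fun _ => isClosed_eq (continuous_apply _)
        continuous_const) (IsClosed.inter ?_ (IsClosed.inter ?_ (IsClosed.inter ?_ ?_))))))
  · exact isClosed_iInter fun w => isClosed_iInter fun v => isClosed_iInter fun _ =>
      isClosed_iInter fun _ => isClosed_le (Bl_continuous _ _ _) continuous_const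
  · exact isClosed_iInter fun w => isClosed_iInter fun v => isClosed_iInter fun _ =>
      isClosed_iInter fun _ => isClosed_le (Bl_continuous _ _ _) continuous_const
  · exact isClosed_iInter fun v => isClosed_iInter fun _ =>
      isClosed_le (Bl_continuous _ _ _) continuous_const
  · exact isClosed_iInter fun v => isClosed_iInter fun _ =>
      isClosed_le (Bl_continuous _ _ _) continuous_const

theorem Ro_continuousOn (hd : Rds τ T A B) (k : Bool × V × V) :
    ContinuousOn (fun p : ℝ × (Bool × V × V → ℝ) => Ro U T A B p.1 p.2 k)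
      (Icc 0 τ ×ˢ univ) := by
  have cT : ∀ i j, ContinuousOn (fun p : ℝ × (Bool × V × V → ℝ) => T p.1 i j)
      (Icc 0 τ ×ˢ univ) := fun i j => (hd.cT i j).comp continuousOn_fst fun p hp => hp.1
  have cA : ∀ i j, ContinuousOn (fun p : ℝ × (Bool × V × V → ℝ) => A p.1 i j)
      (Icc 0 τ ×ˢ univ) := fun i j => (hd.cA i j).comp continuousOn_fst fun p hp => hp.1
  have cB : ∀ i j, ContinuousOn (fun p : ℝ × (Bool × V × V → ℝ) => B p.1 i j)
      (Icc 0 τ ×ˢ univ) := fun i j => (hd.cB i j).comp continuousOn_fst fun p hp => hp.1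
  have cp : ∀ i j, ContinuousOn (fun p : ℝ × (Bool × V × V → ℝ) =>
      p.2 (true, i, j)) (Icc 0 τ ×ˢ univ) := fun i j =>
      ((continuous_apply _).comp continuous_snd).continuousOn
  have cm : ∀ i j, ContinuousOn (fun p : ℝ × (Bool × V × V → ℝ) =>
      p.2 (false, i, j)) (Icc 0 τ ×ˢ univ) := fun i j =>
      ((continuous_apply _).comp continuous_snd).continuousOn
  have e1 : ∀ {f : ℝ × (Bool × V × V → ℝ) → ℝ}, ContinuousOn f (Icc 0 τ ×ˢ univ) →
      ContinuousOn (fun p => 1 - Real.exp (-f p)) (Icc 0 τ ×ˢ univ) := fun hf =>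
    continuousOn_const.sub hf.neg.rexp
  unfold Ro
  by_cases hk : k.2.1 ∈ U ∧ k.2.2 ∈ U ∧ k.2.1 ≠ k.2.2
  · simp only [if_pos hk]
    by_cases hb : k.1 = true
    · simp only [if_pos hb]
      unfold Fps
      exact (cA _ _).add (((continuousOn_finsetSum _ fun b _ => (cT _ _).mul (e1 (cm _ _))).add
        (continuousOn_finsetSum _ fun b _ => (cT _ _).mul (e1 (cm _ _)))).add
        (continuousOn_const.mul (continuousOn_finsetSum _ fun x _ =>
          continuousOn_finsetSum _ fun y _ => (cT _ _).mul (ContinuousOn.sup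
            ((e1 ((cp _ _).add (cp _ _))).mul (e1 ((cp _ _).add (cp _ _))))
            ((e1 ((cm _ _).add (cm _ _))).mul (e1 ((cm _ _).add (cm _ _))))))))
    · simp only [if_neg hb]
      unfold Fms
      exact (cB _ _).add (((continuousOn_finsetSum _ fun b _ => (cT _ _).mul (e1 (cp _ _))).add
        (continuousOn_finsetSum _ fun b _ => (cT _ _).mul (e1 (cp _ _)))).add
        (continuousOn_const.mul (continuousOn_finsetSum _ fun x _ =>
          continuousOn_finsetSum _ fun y _ => (cT _ _).mul (ContinuousOn.sup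
            ((e1 ((cp _ _).add (cp _ _))).mul (e1 ((cm _ _).add (cm _ _))))
            ((e1 ((cm _ _).add (cm _ _))).mul (e1 ((cp _ _).add (cp _ _))))))))
  · simp only [if_neg hk]
    exact continuousOn_const

theorem Ro_mono (hd : Rds τ T A B) {r : ℝ} (hr : r ∈ Icc 0 τ)
    (u u' : Bool × V × V → ℝ) (u0 : ∀ k, 0 ≤ u k) (hu : ∀ k, u k ≤ u' k) (k : Bool × V × V) :
    Ro U T A B r u k ≤ Ro U T A B r u' k := by
  unfold Ro
  by_cases hk : k.2.1 ∈ U ∧ k.2.2 ∈ U ∧ k.2.1 ≠ k.2.2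
  · simp only [if_pos hk]
    by_cases hb : k.1 = true
    · simp only [if_pos hb]
      exact add_le_add le_rfl (Fps_mono (hd.T0 r hr) (fun i j => u0 _) (fun i j => u0 _)
        (fun i j => hu _) (fun i j => hu _) _ _)
    · simp only [if_neg hb]
      exact add_le_add le_rfl (Fms_mono (hd.T0 r hr) (fun i j => u0 _) (fun i j => u0 _)
        (fun i j => hu _) (fun i j => hu _) _ _)
  · simp only [if_neg hk]
    exact le_rfl

theorem Ro_nonneg (hd : Rds τ T A B) {r : ℝ} (hr : r ∈ Icc 0 τ)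
    (u : Bool × V × V → ℝ) (u0 : ∀ k, 0 ≤ u k) (k : Bool × V × V) :
    0 ≤ Ro U T A B r u k := by
  unfold Ro
  by_cases hk : k.2.1 ∈ U ∧ k.2.2 ∈ U ∧ k.2.1 ≠ k.2.2
  · simp only [if_pos hk]
    by_cases hb : k.1 = true
    · simp only [if_pos hb]
      exact add_nonneg (hd.A0 r hr _ _) (Fps_nonneg (hd.T0 r hr) (fun i j => u0 _)
        (fun i j => u0 _) _ _)
    · simp only [if_neg hb]
      exact add_nonneg (hd.B0 r hr _ _) (Fms_nonneg (hd.T0 r hr) (fun i j => u0 _)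
        (fun i j => u0 _) _ _)
  · simp only [if_neg hk]
    exact le_rfl

theorem Ro_symm (hd : Rds τ T A B) (r : ℝ) (u : Bool × V × V → ℝ) (b : Bool) (x y : V) :
    Ro U T A B r u (b, x, y) = Ro U T A B r u (b, y, x) := by
  unfold Ro
  simp only
  by_cases hk : x ∈ U ∧ y ∈ U ∧ x ≠ y
  · have hk' : y ∈ U ∧ x ∈ U ∧ y ≠ x := ⟨hk.2.1, hk.1, hk.2.2.symm⟩
    simp only [if_pos hk, if_pos hk']
    by_cases hb : b = true
    · simp only [if_pos hb]; rw [Fps_symm, hd.As]
    · simp only [if_neg hb]; rw [Fms_symm, hd.Bs]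
  · rw [if_neg hk, if_neg fun hh => hk ⟨hh.2.1, hh.1, hh.2.2.symm⟩]

theorem Ro_diag (r : ℝ) (u : Bool × V × V → ℝ) (b : Bool) (x : V) :
    Ro U T A B r u (b, x, x) = 0 := by
  unfold Ro; simp

theorem Ro_off (r : ℝ) (u : Bool × V × V → ℝ) (b : Bool) {x : V} (hx : x ∉ U) (y : V) :
    Ro U T A B r u (b, x, y) = 0 := by
  unfold Ro; simp [hx]

/-- the form of the right side -/
theorem Bl_Ro_true (hd : Rds τ T A B) {r : ℝ} (hr : r ∈ Icc 0 τ)
    {u : Bool × V × V → ℝ} (u0 : ∀ k, 0 ≤ u k) {w v : V → ℝ} (w0 : ∀ e ∈ U, 0 ≤ w e)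
    (v0 : ∀ e ∈ U, 0 ≤ v e) :
    Bl U (fun x y => Ro U T A B r u (true, x, y)) w v ≤ Bl U (A r) w v
      + Bl U (fun x y => Fps U (T r) (fun a b => u (true, a, b)) (fun a b => u (false, a, b)) x y)
        w v := by
  rw [← Bl_add]
  refine Bl_mono (fun i _ j _ => ?_) w0 v0
  have h1 : 0 ≤ A r i j + Fps U (T r) (fun a b => u (true, a, b)) (fun a b => u (false, a, b)) i j :=
    add_nonneg (hd.A0 r hr _ _) (Fps_nonneg (hd.T0 r hr) (fun i j => u0 _) (fun i j => u0 _) _ _)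
  unfold Ro
  simp only [if_true]
  split_ifs
  · exact le_rfl
  · exact h1

theorem Bl_Ro_false (hd : Rds τ T A B) {r : ℝ} (hr : r ∈ Icc 0 τ)
    {u : Bool × V × V → ℝ} (u0 : ∀ k, 0 ≤ u k) {w v : V → ℝ} (w0 : ∀ e ∈ U, 0 ≤ w e)
    (v0 : ∀ e ∈ U, 0 ≤ v e) :
    Bl U (fun x y => Ro U T A B r u (false, x, y)) w v ≤ Bl U (B r) w v
      + Bl U (fun x y => Fms U (T r) (fun a b => u (true, a, b)) (fun a b => u (false, a, b)) x y)
        w v := by
  rw [← Bl_add]
  refine Bl_mono (fun i _ j _ => ?_) w0 v0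
  have h1 : 0 ≤ B r i j + Fms U (T r) (fun a b => u (true, a, b)) (fun a b => u (false, a, b)) i j :=
    add_nonneg (hd.B0 r hr _ _) (Fms_nonneg (hd.T0 r hr) (fun i j => u0 _) (fun i j => u0 _) _ _)
  unfold Ro
  simp only [if_neg Bool.false_ne_true]
  split_ifs
  · exact le_rfl
  · exact h1

/-- the forms of a Picard step -/
theorem bl_step {R : ℝ → V → V → ℝ} {g : V → V → ℝ → ℝ} {z z' : ℝ → ℝ} {k : ℝ}
    (dz : ∀ r ∈ Icc 0 τ, HasDerivAt z (z' r) r) (zτ : 0 ≤ z τ) (k0 : 0 ≤ k)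
    (dg : ∀ x y, ∀ r ∈ Icc 0 τ, HasDerivAt (g x y) (-R r x y) r) (gτ : ∀ x y, g x y τ = 0)
    {w v : V → ℝ} (hR : ∀ r ∈ Icc 0 τ, Bl U (R r) w v ≤ (-z' r) * k) :
    ∀ r ∈ Icc 0 τ, Bl U (fun x y => g x y r) w v ≤ z r * k := by
  have d1 : ∀ r ∈ Icc 0 τ, HasDerivAt (fun r => Bl U (fun x y => g x y r) w v)
      (-Bl U (R r) w v) r := by
    intro r hr
    have h1 : HasDerivAt (fun r => ∑ i ∈ U, w i * ∑ j ∈ U, g i j r * v j)
        (∑ i ∈ U, w i * ∑ j ∈ U, -R r i j * v j) r :=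
      HasDerivAt.fun_sum fun i _ => (HasDerivAt.fun_sum fun j _ =>
        (dg i j r hr).mul_const (v j)).const_mul (w i)
    refine h1.congr_deriv ?_
    unfold Bl
    rw [← Finset.sum_neg_distrib]
    refine Finset.sum_congr rfl fun i _ => ?_
    rw [← mul_neg, ← Finset.sum_neg_distrib]
    congr 1
    exact Finset.sum_congr rfl fun j _ => by ring
  have d2 : ∀ r ∈ Icc 0 τ, HasDerivAt (fun r => z r * k) (z' r * k) r := fun r hr =>
    (dz r hr).mul_const k
  refine back_le d1 d2 (fun r hr => ?_) ?_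
  · linarith [hR r hr]
  · have : Bl U (fun x y => g x y τ) w v = 0 := by
      unfold Bl
      simp [gτ]
    rw [this]
    exact mul_nonneg zτ k0

namespace Goq

variable (h : Goq U τ T A B f lA lB lam Rb fA fB fT s) (hd : Rds τ T A B)
include h hd

/-- the inequalities of the right sides -/
theorem step {r : ℝ} (hr : r ∈ Icc 0 τ) {u : Bool × V × V → ℝ} (hu : Co U f s r u) :
    (∀ w v : V → ℝ, (∀ e ∈ U, 0 ≤ w e) → (∀ e ∈ U, 0 ≤ v e) →
      Bl U (fun x y => Ro U T A B r u (true, x, y)) w v ≤ (-s.Gp' r) * (nm U w * nm U v)) ∧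
    (∀ w v : V → ℝ, (∀ e ∈ U, 0 ≤ w e) → (∀ e ∈ U, 0 ≤ v e) →
      Bl U (fun x y => Ro U T A B r u (false, x, y)) w v ≤ (-s.Gm' r) * (nm U w * nm U v)) ∧
    (∀ v : V → ℝ, (∀ e ∈ U, 0 ≤ v e) →
      Bl U (fun x y => Ro U T A B r u (true, x, y)) f v ≤ (-s.Pf' r) * nm U v) ∧
    (∀ v : V → ℝ, (∀ e ∈ U, 0 ≤ v e) →
      Bl U (fun x y => Ro U T A B r u (false, x, y)) f v ≤ (-s.Mf' r) * nm U v) := by
  obtain ⟨u0, us, uz, uo, hp, hm, hpf, hmf⟩ := hu
  have u0' : ∀ k : Bool × V × V, 0 ≤ u k := fun k => u0 k.1 k.2.1 k.2.2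
  have T0 := hd.T0 r hr
  have lam0 := h.lam0 r hr
  have RL : 0 ≤ Rb r + lam r := add_nonneg (h.Rb0 r hr) lam0
  have Gp0 := h.Gp0 r hr
  have Gm0 := h.Gm0 r hr
  have Pf0 := h.Pf0 r hr
  have Mf0 := h.Mf0 r hr
  have oP : Op U (fun x y => u (true, x, y)) (s.Gp r) := hp
  have oM : Op U (fun x y => u (false, x, y)) (s.Gm r) := hm
  -- norms of images
  have nT : ∀ w : V → ℝ, (∀ e ∈ U, 0 ≤ w e) → nm U (Ac U (T r) w) ≤ lam r * nm U w :=
    fun w w0 => (h.oT r hr).nm_le T0 lam0 w0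
  have nP : ∀ w : V → ℝ, (∀ e ∈ U, 0 ≤ w e) →
      nm U (Ac U (fun x y => u (true, x, y)) w) ≤ s.Gp r * nm U w :=
    fun w w0 => oP.nm_le (fun x y => u0 _ _ _) Gp0 w0
  have nM : ∀ w : V → ℝ, (∀ e ∈ U, 0 ≤ w e) →
      nm U (Ac U (fun x y => u (false, x, y)) w) ≤ s.Gm r * nm U w :=
    fun w w0 => oM.nm_le (fun x y => u0 _ _ _) Gm0 w0
  have nPf : nm U (Ac U (fun x y => u (true, x, y)) f) ≤ s.Pf r :=
    nm_Ac Pf0 (fun x y => u0 _ _ _) h.f0 hpf
  have nMf : nm U (Ac U (fun x y => u (false, x, y)) f) ≤ s.Mf r :=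
    nm_Ac Mf0 (fun x y => u0 _ _ _) h.f0 hmf
  have Fpb := fun (w v : V → ℝ) (w0 : ∀ e ∈ U, 0 ≤ w e) (v0 : ∀ e ∈ U, 0 ≤ v e) =>
    Bl_Fps (U := U) (p := fun a b => u (true, a, b)) (m := fun a b => u (false, a, b)) T0
      (hd.Ts r) (h.oT r hr) (h.hR r hr) (fun _ _ => u0 _ _ _) (fun _ _ => u0 _ _ _) w0 v0
  have Fmb := fun (w v : V → ℝ) (w0 : ∀ e ∈ U, 0 ≤ w e) (v0 : ∀ e ∈ U, 0 ≤ v e) =>
    Bl_Fms (U := U) (p := fun a b => u (true, a, b)) (m := fun a b => u (false, a, b)) T0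
      (hd.Ts r) (h.oT r hr) (h.hR r hr) (fun _ _ => u0 _ _ _) (fun _ _ => u0 _ _ _) w0 v0
  have nn := fun K w => nm_nonneg U (Ac U K w)
  refine ⟨fun w v w0 v0 => ?_, fun w v w0 v0 => ?_, fun v v0 => ?_, fun v v0 => ?_⟩
  · refine (Bl_Ro_true hd hr u0' w0 v0).trans ?_
    have a1 : Bl U (A r) w v ≤ lA r * (nm U w * nm U v) := h.oA r hr w v w0 v0
    have a2 := Fpb w v w0 v0
    have b1 := mul_le_mul (nT w w0) (nM v v0) (nn _ _) (mul_nonneg lam0 (nm_nonneg _ _))
    have b2 := mul_le_mul (nM w w0) (nT v v0) (nn _ _) (mul_nonneg Gm0 (nm_nonneg _ _))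
    have b3 := mul_le_mul_of_nonneg_left (mul_le_mul (nP w w0) (nP v v0) (nn _ _)
      (mul_nonneg Gp0 (nm_nonneg _ _))) RL
    have b4 := mul_le_mul_of_nonneg_left (mul_le_mul (nM w w0)
      (nM v v0) (nn _ _) (mul_nonneg Gm0 (nm_nonneg _ _))) RL
    have e := mul_le_mul_of_nonneg_right (h.op r hr) (mul_nonneg (nm_nonneg U w) (nm_nonneg U v))
    refine le_trans ?_ e
    refine (add_le_add a1 (a2.trans (add_le_add (add_le_add (add_le_add b1 b2) b3) b4))).trans
      (le_of_eq ?_)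
    ring
  · refine (Bl_Ro_false hd hr u0' w0 v0).trans ?_
    have a1 : Bl U (B r) w v ≤ lB r * (nm U w * nm U v) := h.oB r hr w v w0 v0
    have a2 := Fmb w v w0 v0
    have b1 := mul_le_mul (nT w w0) (nP v v0) (nn _ _) (mul_nonneg lam0 (nm_nonneg _ _))
    have b2 := mul_le_mul (nP w w0) (nT v v0) (nn _ _) (mul_nonneg Gp0 (nm_nonneg _ _))
    have b3 := mul_le_mul_of_nonneg_left (mul_le_mul (nM w w0) (nP v v0) (nn _ _)
      (mul_nonneg Gm0 (nm_nonneg _ _))) RL
    have b4 := mul_le_mul_of_nonneg_left (mul_le_mul (nP w w0) (nM v v0) (nn _ _)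
      (mul_nonneg Gp0 (nm_nonneg _ _))) RL
    have e := mul_le_mul_of_nonneg_right (h.om r hr) (mul_nonneg (nm_nonneg U w) (nm_nonneg U v))
    refine le_trans ?_ e
    refine (add_le_add a1 (a2.trans (add_le_add (add_le_add (add_le_add b1 b2) b3) b4))).trans
      (le_of_eq ?_)
    ring
  · refine (Bl_Ro_true hd hr u0' h.f0 v0).trans ?_
    have a1 : Bl U (A r) f v ≤ fA r * nm U v := Bl_le_nm (h.tA r hr)
    have a2 := Fpb f v h.f0 v0
    have fT0 : 0 ≤ fT r := (nn _ _).trans (h.tT r hr)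
    have b1 := mul_le_mul (h.tT r hr) (nM v v0) (nn _ _) fT0
    have b2 := mul_le_mul nMf (nT v v0) (nn _ _) Mf0
    have b3 := mul_le_mul_of_nonneg_left (mul_le_mul nPf (nP v v0) (nn _ _) Pf0) RL
    have b4 := mul_le_mul_of_nonneg_left (mul_le_mul nMf
      (nM v v0) (nn _ _) Mf0) RL
    have e := mul_le_mul_of_nonneg_right (h.of r hr) (nm_nonneg U v)
    refine le_trans ?_ e
    refine (add_le_add a1 (a2.trans (add_le_add (add_le_add (add_le_add b1 b2) b3) b4))).trans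
      (le_of_eq ?_)
    ring
  · refine (Bl_Ro_false hd hr u0' h.f0 v0).trans ?_
    have a1 : Bl U (B r) f v ≤ fB r * nm U v := Bl_le_nm (h.tB r hr)
    have a2 := Fmb f v h.f0 v0
    have fT0 : 0 ≤ fT r := (nn _ _).trans (h.tT r hr)
    have b1 := mul_le_mul (h.tT r hr) (nP v v0) (nn _ _) fT0
    have b2 := mul_le_mul nPf (nT v v0) (nn _ _) Pf0
    have b3 := mul_le_mul_of_nonneg_left (mul_le_mul nMf (nP v v0) (nn _ _) Mf0) RL
    have b4 := mul_le_mul_of_nonneg_left (mul_le_mul nPf (nM v v0) (nn _ _) Pf0) RL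
    have e := mul_le_mul_of_nonneg_right (h.og r hr) (nm_nonneg U v)
    refine le_trans ?_ e
    refine (add_le_add a1 (a2.trans (add_le_add (add_le_add (add_le_add b1 b2) b3) b4))).trans
      (le_of_eq ?_)
    ring

theorem inv : Inv τ (Ro U T A B) (Co U f s) := by
  have τm : τ ∈ Icc 0 τ := ⟨hd.τ0, le_rfl⟩
  refine ⟨fun r _ => Co_closed r, fun r hr => ?_, fun u w hp hc r hr => ?_⟩
  · refine ⟨fun _ _ _ => le_rfl, fun _ _ _ => rfl, fun _ _ => rfl, fun _ _ _ _ => rfl, ?_, ?_, ?_,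
      ?_⟩
    · intro w v _ _
      have : Bl U (fun x y => (0 : Bool × V × V → ℝ) (true, x, y)) w v = 0 := by simp [Bl]
      rw [this]
      exact mul_nonneg (h.Gp0 r hr) (mul_nonneg (nm_nonneg _ _) (nm_nonneg _ _))
    · intro w v _ _
      have : Bl U (fun x y => (0 : Bool × V × V → ℝ) (false, x, y)) w v = 0 := by simp [Bl]
      rw [this]
      exact mul_nonneg (h.Gm0 r hr) (mul_nonneg (nm_nonneg _ _) (nm_nonneg _ _))
    · intro v _
      have : Bl U (fun x y => (0 : Bool × V × V → ℝ) (true, x, y)) f v = 0 := by simp [Bl]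
      rw [this]
      exact mul_nonneg (h.Pf0 r hr) (nm_nonneg _ _)
    · intro v _
      have : Bl U (fun x y => (0 : Bool × V × V → ℝ) (false, x, y)) f v = 0 := by simp [Bl]
      rw [this]
      exact mul_nonneg (h.Mf0 r hr) (nm_nonneg _ _)
  · obtain ⟨cu, u0, dw, wτ⟩ := hp
    have R0 : ∀ r ∈ Icc 0 τ, ∀ k, 0 ≤ Ro U T A B r (fun j => u j r) k := fun r hr k =>
      Ro_nonneg hd hr _ (fun k => u0 k r hr) k
    have z0 : ∀ r ∈ Icc 0 τ, HasDerivAt (fun _ : ℝ => (0 : ℝ)) 0 r := fun r _ =>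
      hasDerivAt_const r 0
    refine ⟨fun b x y => ?_, fun b x y => ?_, fun b x => ?_, fun b x y hx => ?_,
      fun w1 v w0 v0 => ?_, fun w1 v w0 v0 => ?_, fun v v0 => ?_, fun v v0 => ?_⟩
    · refine back_le z0 (dw (b, x, y)) (fun r hr => ?_) (wτ _).ge r hr
      have := R0 r hr (b, x, y)
      linarith
    · refine back_eq (dw (b, x, y)) (f' := fun r => -Ro U T A B r (fun j => u j r) (b, x, y))
        (g := w (b, y, x)) (fun r hr => ?_) (by rw [wτ, wτ]) r hr
      rw [Ro_symm hd]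
      exact dw (b, y, x) r hr
    · have h1 : ∀ r ∈ Icc 0 τ, HasDerivAt (w (b, x, x)) 0 r := fun r hr => by
        have := dw (b, x, x) r hr
        rwa [Ro_diag, neg_zero] at this
      exact back_eq (f' := fun _ => 0) (g := fun _ => 0) h1 z0 (wτ _) r hr
    · have h1 : ∀ r ∈ Icc 0 τ, HasDerivAt (w (b, x, y)) 0 r := fun r hr => by
        have := dw (b, x, y) r hr
        rwa [Ro_off _ _ _ hx, neg_zero] at this
      exact back_eq (f' := fun _ => 0) (g := fun _ => 0) h1 z0 (wτ _) r hr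
    · exact bl_step (R := fun r x y => Ro U T A B r (fun j => u j r) (true, x, y))
        (g := fun x y => w (true, x, y)) h.dGp (h.Gp0 τ τm)
        (mul_nonneg (nm_nonneg U w1) (nm_nonneg U v)) (fun x y r hr => dw (true, x, y) r hr)
        (fun x y => wτ _) (fun r hr => (step h hd hr (hc r hr)).1 w1 v w0 v0) r hr
    · exact bl_step (R := fun r x y => Ro U T A B r (fun j => u j r) (false, x, y))
        (g := fun x y => w (false, x, y)) h.dGm (h.Gm0 τ τm)
        (mul_nonneg (nm_nonneg U w1) (nm_nonneg U v)) (fun x y r hr => dw (false, x, y) r hr)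
        (fun x y => wτ _) (fun r hr => (step h hd hr (hc r hr)).2.1 w1 v w0 v0) r hr
    · exact bl_step (R := fun r x y => Ro U T A B r (fun j => u j r) (true, x, y))
        (g := fun x y => w (true, x, y)) h.dPf (h.Pf0 τ τm)
        (nm_nonneg U v) (fun x y r hr => dw (true, x, y) r hr)
        (fun x y => wτ _) (fun r hr => (step h hd hr (hc r hr)).2.2.1 v v0) r hr
    · exact bl_step (R := fun r x y => Ro U T A B r (fun j => u j r) (false, x, y))
        (g := fun x y => w (false, x, y)) h.dMf (h.Mf0 τ τm)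
        (nm_nonneg U v) (fun x y r hr => dw (false, x, y) r hr)
        (fun x y => wτ _) (fun r hr => (step h hd hr (hc r hr)).2.2.2 v v0) r hr

end Goq

/-- the output: the solution of level 1/2 with norms -/
structure Gop (U : Finset V) (τ : ℝ) (T A B : ℝ → V → V → ℝ) (f : V → ℝ) (s : Gq)
    (gp gm : V → V → ℝ → ℝ) : Prop where
  g : ∃ gp' gm', S12 U τ T A B gp gp' gm gm'
  ps : ∀ i j, ∀ r ∈ Icc 0 τ, gp i j r = gp j i r
  ms : ∀ i j, ∀ r ∈ Icc 0 τ, gm i j r = gm j i r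
  pz : ∀ i r, gp i i r = 0
  mz : ∀ i r, gm i i r = 0
  pe : ∀ i j, gp i j τ = 0
  me : ∀ i j, gm i j τ = 0
  cp : ∀ i j, ContinuousOn (gp i j) (Icc 0 τ)
  cm : ∀ i j, ContinuousOn (gm i j) (Icc 0 τ)
  op : ∀ r ∈ Icc 0 τ, Op U (fun i j => gp i j r) (s.Gp r)
  om : ∀ r ∈ Icc 0 τ, Op U (fun i j => gm i j r) (s.Gm r)
  tp : ∀ r ∈ Icc 0 τ, nm U (fun b => ∑ e ∈ U, f e * gp e b r) ≤ s.Pf r
  tm : ∀ r ∈ Icc 0 τ, nm U (fun b => ∑ e ∈ U, f e * gm e b r) ≤ s.Mf r

/-- **existence of level 1/2 with operator norms** -/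
theorem exists_gop (hd : Rds τ T A B)
    (h : Goq U τ T A B f lA lB lam Rb fA fB fT s) :
    ∃ gp gm : V → V → ℝ → ℝ, Gop U τ T A B f s gp gm := by
  have bd : ∃ M, ∀ r ∈ Icc 0 τ, s.Gp r ≤ M ∧ s.Gm r ≤ M ∧ 0 ≤ M := by
    have c1 : ContinuousOn s.Gp (Icc 0 τ) := fun r hr => (h.dGp r hr).continuousAt.continuousWithinAt
    have c2 : ContinuousOn s.Gm (Icc 0 τ) := fun r hr => (h.dGm r hr).continuousAt.continuousWithinAt
    obtain ⟨C1, hC1⟩ := isCompact_Icc.exists_bound_of_continuousOn c1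
    obtain ⟨C2, hC2⟩ := isCompact_Icc.exists_bound_of_continuousOn c2
    refine ⟨max (max C1 C2) 0, fun r hr => ⟨?_, ?_, le_max_right _ _⟩⟩
    · exact ((le_abs_self _).trans (hC1 r hr)).trans ((le_max_left _ _).trans (le_max_left _ _))
    · exact ((le_abs_self _).trans (hC2 r hr)).trans ((le_max_right _ _).trans (le_max_left _ _))
  obtain ⟨M, hM⟩ := bd
  obtain ⟨g, dg, gτ, g0, hC⟩ := exists_pic hd.τ0 (fun k => Ro_continuousOn (U := U) hd k)
    (fun r hr u v u0 huv k => Ro_mono hd hr u v u0 huv k)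
    (fun r hr k => Ro_nonneg hd hr 0 (fun _ => le_rfl) k) (h.inv hd) (M := M)
    (fun r hr u hu k => by
      obtain ⟨b, x, y⟩ := k
      by_cases hx : x ∈ U
      · by_cases hy : y ∈ U
        · cases b
          · exact (Op.ent1 (K := fun x y => u (false, x, y)) hu.2.2.2.2.2.1 hx hy).trans
              (hM r hr).2.1
          · exact (Op.ent1 (K := fun x y => u (true, x, y)) hu.2.2.2.2.1 hx hy).trans (hM r hr).1
        · rw [hu.2.1, hu.2.2.2.1 b y x hy]; exact (hM r hr).2.2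
      · rw [hu.2.2.2.1 b x y hx]; exact (hM r hr).2.2)
  have hc := hC _ (h.inv hd)
  let gp : V → V → ℝ → ℝ := fun i j r => if i = j then 0 else g (true, i, j) r
  let gm : V → V → ℝ → ℝ := fun i j r => if i = j then 0 else g (false, i, j) r
  have ep : ∀ r ∈ Icc 0 τ, ∀ i j, gp i j r = g (true, i, j) r := fun r hr i j => by
    by_cases hij : i = j
    · subst hij
      simp only [gp, if_true]
      exact ((hc r hr).2.2.1 true i).symm
    · simp only [gp, if_neg hij]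
  have em : ∀ r ∈ Icc 0 τ, ∀ i j, gm i j r = g (false, i, j) r := fun r hr i j => by
    by_cases hij : i = j
    · subst hij
      simp only [gm, if_true]
      exact ((hc r hr).2.2.1 false i).symm
    · simp only [gm, if_neg hij]
  have fp : ∀ r ∈ Icc 0 τ, (fun a b => gp a b r) = fun a b => g (true, a, b) r := fun r hr => by
    funext a b; rw [ep r hr]
  have fm : ∀ r ∈ Icc 0 τ, (fun a b => gm a b r) = fun a b => g (false, a, b) r := fun r hr => by
    funext a b; rw [em r hr]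
  refine ⟨gp, gm, ?_⟩
  refine
    { g := ⟨fun i j r => if i = j then 0 else -(A r i j + Fps U (T r)
          (fun a b => gp a b r) (fun a b => gm a b r) i j),
        fun i j r => if i = j then 0 else -(B r i j + Fms U (T r)
          (fun a b => gp a b r) (fun a b => gm a b r) i j), ?_⟩
      ps := fun i j r hr => by rw [ep r hr, ep r hr]; exact (hc r hr).2.1 _ _ _
      ms := fun i j r hr => by rw [em r hr, em r hr]; exact (hc r hr).2.1 _ _ _
      pz := fun i r => by simp only [gp, if_true]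
      mz := fun i r => by simp only [gm, if_true]
      pe := fun i j => by simp only [gp, gτ, ite_self]
      me := fun i j => by simp only [gm, gτ, ite_self]
      cp := fun i j => by
        by_cases hij : i = j
        · have : gp i j = fun _ => 0 := funext fun r => by simp only [gp, if_pos hij]
          rw [this]; exact continuousOn_const
        · have : gp i j = g (true, i, j) := funext fun r => by simp only [gp, if_neg hij]
          rw [this]
          exact fun r hr => (dg _ r hr).continuousAt.continuousWithinAt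
      cm := fun i j => by
        by_cases hij : i = j
        · have : gm i j = fun _ => 0 := funext fun r => by simp only [gm, if_pos hij]
          rw [this]; exact continuousOn_const
        · have : gm i j = g (false, i, j) := funext fun r => by simp only [gm, if_neg hij]
          rw [this]
          exact fun r hr => (dg _ r hr).continuousAt.continuousWithinAt
      op := fun r hr => by rw [fp r hr]; exact (hc r hr).2.2.2.2.1
      om := fun r hr => by rw [fm r hr]; exact (hc r hr).2.2.2.2.2.1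
      tp := fun r hr => by
        have h1 := nm_Ac (h.Pf0 r hr) (fun x y => (hc r hr).1 _ _ _) h.f0 (hc r hr).2.2.2.2.2.2.1
        rw [← fp r hr] at h1
        exact h1
      tm := fun r hr => by
        have h1 := nm_Ac (h.Mf0 r hr) (fun x y => (hc r hr).1 _ _ _) h.f0 (hc r hr).2.2.2.2.2.2.2
        rw [← fm r hr] at h1
        exact h1 }
  refine
    { dp := fun i hi j hj r hr => ?_
      dm := fun i hi j hj r hr => ?_
      gp0 := fun i j r hr => by rw [ep r hr]; exact (hc r hr).1 _ _ _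
      gm0 := fun i j r hr => by rw [em r hr]; exact (hc r hr).1 _ _ _
      op := fun i hi j hj hij r hr => ?_
      om := fun i hi j hj hij r hr => ?_ }
  · by_cases hij : i = j
    · have : gp i j = fun _ => 0 := funext fun r => by simp only [gp, if_pos hij]
      rw [this]; simp only [if_pos hij]; exact hasDerivAt_const r 0
    · have e : gp i j = g (true, i, j) := funext fun r => by simp only [gp, if_neg hij]
      have h1 := dg (true, i, j) r hr
      rw [e]
      simp only [if_neg hij]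
      rw [fp r hr, fm r hr]
      unfold Ro at h1
      rwa [if_pos ⟨hi, hj, hij⟩, if_pos rfl] at h1
  · by_cases hij : i = j
    · have : gm i j = fun _ => 0 := funext fun r => by simp only [gm, if_pos hij]
      rw [this]; simp only [if_pos hij]; exact hasDerivAt_const r 0
    · have e : gm i j = g (false, i, j) := funext fun r => by simp only [gm, if_neg hij]
      have h1 := dg (false, i, j) r hr
      rw [e]
      simp only [if_neg hij]
      rw [fp r hr, fm r hr]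
      unfold Ro at h1
      rwa [if_pos ⟨hi, hj, hij⟩, if_neg (by simp)] at h1
  · simp only [if_neg hij]
    unfold Fps
    refine le_of_eq ?_
    ring
  · simp only [if_neg hij]
    unfold Fms
    refine le_of_eq ?_
    ring

end Pool.Agent.RX.RCM
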