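import Pool.Agent.RX.RCM.EpC
import Pool.Agent.RX.RCM.FmE
import Pool.Agent.RX.RCM.GOp

/-! Density errors: level 1/2 of a horizon, operator norms (MP_73ccd0_lc, route M). -/

namespace Pool.Agent.RX.RCN.K

open Set Finset MeasureTheory Pool.Agent.RX.RCRSHalf Pool.Agent.RX.RCG Pool.Agent.RX.RCG.Ct

set_option linter.unusedSectionVars false

variable {V : Type*} [Fintype V] [DecidableEq V]
variable {Z : Hzd} {B E1 : ℝ → ℝ → ℝ} {s : RCM.Us} {C mb : ℝ → ℝ} {τ : ℝ}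
variable {x : V → V → ℝ} {P : V → Prop} [DecidablePred P] {sl : ℝ → ℝ → ℝ} {A D : Finset V}
variable {f : V → ℝ} {M : ℝ}

/-- the scalar functions of level 1/2 in the time variable -/
noncomputable def gq (s : RCM.Us) (C mb : ℝ → ℝ) (τ M : ℝ) : RCM.Gq where
  Gp r := s.Gp (C τ - C r)
  Gp' r := -(s.Gp' (C τ - C r) * mb r)
  Gm r := s.Gm (C τ - C r)
  Gm' r := -(s.Gm' (C τ - C r) * mb r)
  Pf r := s.Pf (C τ - C r) * Real.sqrt M
  Pf' r := -(s.Pf' (C τ - C r) * mb r) * Real.sqrt M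
  Mf r := s.Mf (C τ - C r) * Real.sqrt M
  Mf' r := -(s.Mf' (C τ - C r) * mb r) * Real.sqrt M

section

variable (hs : s.Ok) (k : Ck Z B s C mb τ) (hZ : Z.Ok sl) (hx : Wt x P 1) (hD : Dok D)
include hs k hZ hx hD

theorem goq (hf : EPS.Fw Dᶜ (RCM.kap x D) f M) :
    RCM.Goq Dᶜ τ (K1 Z (Fz s Z x P D C τ) x P) (RCM.Ab (Z.hh x P) (Fz s Z x P D C τ).y1)
      (RCM.Bw (Z.hh x P) (Fz s Z x P D C τ).n1) f
      (fun r => mb r * s.lA (C τ - C r)) (fun r => mb r * (2 * s.N (C τ - C r)))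
      (fun r => mb r * s.lam (C τ - C r)) (fun r => mb r * s.Rb (C τ - C r))
      (fun r => mb r * s.FA (C τ - C r) * Real.sqrt M)
      (fun r => mb r * s.N (C τ - C r) * Real.sqrt M)
      (fun r => mb r * (s.ss (C τ - C r) * s.sl (C τ - C r)) * Real.sqrt M)
      (gq s C mb τ M) := by
  have hx' := wt_of hx
  have M0 := Real.sqrt_nonneg M
  have hκ := hD.kap hx'
  refine
    { oA := fun r hr => ((ac1 hs k hZ hx hD hr).bds hs (k.um hr) hx' hf).1
      oB := fun r hr => ((ac1 hs k hZ hx hD hr).bds hs (k.um hr) hx' hf).2.1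
      oT := fun r hr => (kc1 hs k hZ hx hD hr).op hs (k.um hr) hx'
      hR := fun r hr e he => ((kc1 hs k hZ hx hD hr).rz hs (k.um hr) hx' hκ).1 e he
      tA := fun r hr => ((ac1 hs k hZ hx hD hr).bds hs (k.um hr) hx' hf).2.2.1
      tB := fun r hr => ((ac1 hs k hZ hx hD hr).bds hs (k.um hr) hx' hf).2.2.2
      tT := fun r hr => (kc1 hs k hZ hx hD hr).ft hs (k.um hr) hx' hf
      f0 := fun e _ => hf.f0 e
      lam0 := fun r hr => mul_nonneg (k.m0 hr) (hs.lam0 (k.um hr))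
      Rb0 := fun r hr => mul_nonneg (k.m0 hr) (hs.Rb0 (k.um hr))
      Gp0 := fun r hr => hs.Gp0 _ (k.um hr)
      Gm0 := fun r hr => hs.Gm0 _ (k.um hr)
      Pf0 := fun r hr => mul_nonneg (hs.Pf0 _ (k.um hr)) M0
      Mf0 := fun r hr => mul_nonneg (hs.Mf0 _ (k.um hr)) M0
      dGp := fun r hr => k.comp hs.dGp hr
      dGm := fun r hr => k.comp hs.dGm hr
      dPf := fun r hr => (k.comp hs.dPf hr).mul_const _
      dMf := fun r hr => (k.comp hs.dMf hr).mul_const _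
      op := fun r hr => ?_
      om := fun r hr => ?_
      of := fun r hr => ?_
      og := fun r hr => ?_ }
  · have := mul_le_mul_of_nonneg_left (hs.oGp _ (k.um hr)) (k.m0 hr)
    refine le_trans (le_of_eq ?_) (this.trans (le_of_eq ?_)) <;> simp only [gq] <;> ring
  · have := mul_le_mul_of_nonneg_left (hs.oGm _ (k.um hr)) (k.m0 hr)
    refine le_trans (le_of_eq ?_) (this.trans (le_of_eq ?_)) <;> simp only [gq] <;> ring
  · have := mul_le_mul_of_nonneg_right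
      (mul_le_mul_of_nonneg_left (hs.oPf _ (k.um hr)) (k.m0 hr)) M0
    refine le_trans (le_of_eq ?_) (this.trans (le_of_eq ?_)) <;> simp only [gq] <;> ring
  · have := mul_le_mul_of_nonneg_right
      (mul_le_mul_of_nonneg_left (hs.oMf _ (k.um hr)) (k.m0 hr)) M0
    refine le_trans (le_of_eq ?_) (this.trans (le_of_eq ?_)) <;> simp only [gq] <;> ring

/-- **level 1/2 of the horizon** -/
theorem exists_gz (hf : EPS.Fw Dᶜ (RCM.kap x D) f M) :
    ∃ gp gm : V → V → ℝ → ℝ, RCM.Gop Dᶜ τ (K1 Z (Fz s Z x P D C τ) x P)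
      (RCM.Ab (Z.hh x P) (Fz s Z x P D C τ).y1) (RCM.Bw (Z.hh x P) (Fz s Z x P D C τ).n1) f
      (gq s C mb τ M) gp gm :=
  RCM.exists_gop (rd1 hs k hZ hx hD) (goq hs k hZ hx hD hf)

end

variable {gp gm : V → V → ℝ → ℝ}

theorem gd_of
    (hG : RCM.Gop Dᶜ τ (K1 Z (Fz s Z x P D C τ) x P)
      (RCM.Ab (Z.hh x P) (Fz s Z x P D C τ).y1) (RCM.Bw (Z.hh x P) (Fz s Z x P D C τ).n1) f
      (gq s C mb τ M) gp gm) :
    Gd Z (Fz s Z x P D C τ) x P τ D gp gm gm := by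
  obtain ⟨gp', gm', hg⟩ := hG.g
  refine ⟨⟨gp', gm', hg⟩, hG.pz, hG.mz, fun i j r hr => hg.gm0 i j r hr,
    fun e he i hi j hj hij r hr => ?_, hG.cp, hG.cm, hG.cm⟩
  exact RCM.ys3 _

end Pool.Agent.RX.RCN.K
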