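import Pool.Agent.RX.RCM.FmE

/-! The families of tails with their data at the ends (MP_73ccd0_lc, route M). -/

namespace Pool.Agent.RX.RCN.K

open Set Finset MeasureTheory Pool.Agent.RX.RCRSHalf Pool.Agent.RX.RCG Pool.Agent.RX.RCG.Ct

set_option linter.unusedSectionVars false

variable {V : Type*} [Fintype V] [DecidableEq V]

/-- the tails with their data at the ends; `m`, `q` are parameters of the coefficients only -/
structure Fm.Tk (G : Fm V) (Z : Hzd) (F : Lz V) (x : V → V → ℝ) (P : V → Prop) [DecidablePred P]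
    (sg τ : ℝ) (D : Finset V) (B : ℝ → ℝ → ℝ) (m q : ℝ) : Prop where
  q0 : 0 ≤ q
  m0 : 0 ≤ m
  c1 : G.c1 = C1f Z x P τ q
  d3 : G.d3 = D3f Z x P B τ q m
  c4 : G.c4 = C4f Z x P B τ q
  gp0 : ∀ i j, ∀ r ∈ Icc 0 τ, 0 ≤ G.gp i j r
  gm0 : ∀ i j, ∀ r ∈ Icc 0 τ, 0 ≤ G.gm i j r
  gs0 : ∀ i j, ∀ r ∈ Icc 0 τ, 0 ≤ G.gs i j r
  cp : ∀ i j, ContinuousOn (G.gp i j) (Icc 0 τ)
  cs : ∀ i j, ContinuousOn (G.gs i j) (Icc 0 τ)
  tc : ∀ c ∈ Dᶜ, Tls Z F x P τ D G.gp G.gs B q m τ c (G.p c) (G.n c)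
  td : ∀ s ∈ Icc 0 sg, ∀ d ∈ Dᶜ, Tls Z F x P τ D G.gp G.gs B q m s d (G.pd s d) (G.nd s d)
  tt : ∀ s ∈ Icc 0 sg, ∀ d ∈ Dᶜ, Tls Z F x P τ D G.gp G.gs B q m s d (G.pt s d) (G.nt s d)
  ec : ∀ c, ∀ e ∈ Dᶜ.erase c, G.p c e τ = 0 ∧ G.n c e τ = 0
  pd : ∀ s ∈ Icc 0 sg, ∀ d ∈ Dᶜ, ∀ e ∈ Dᶜ.erase d, G.pd s d e s = 0
  nd : ∀ s ∈ Icc 0 sg, ∀ d ∈ Dᶜ, ∀ e ∈ Dᶜ.erase d, G.nd s d e s = 0
  ptT : ∀ s ∈ Icc 0 sg, ∀ d ∈ Dᶜ, ∀ e ∈ Dᶜ.erase d, G.pt s d e s = G.gm d e s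
  ntT : ∀ s ∈ Icc 0 sg, ∀ d ∈ Dᶜ, ∀ e ∈ Dᶜ.erase d, G.nt s d e s = G.gp d e s

variable {Z : Hzd} {x : V → V → ℝ} {P : V → Prop} [DecidablePred P] {sl : ℝ → ℝ → ℝ}
variable {α τ sg : ℝ} {A D : Finset V} {F : Lz V} {B E1 : ℝ → ℝ → ℝ} {m q : ℝ}
variable {gp gm gs : V → V → ℝ → ℝ}

/-- the families of a cell -/
theorem Fm.Ok.tk {G : Fm V} (h : G.Ok Z F x P sg τ D B m q) (hG : Gd Z F x P τ D G.gp G.gm G.gs)
    (hE : G.Ed D sg) (he : ∀ c, ∀ e ∈ Dᶜ.erase c, G.p c e τ = 0 ∧ G.n c e τ = 0) :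
    G.Tk Z F x P sg τ D B m q := by
  obtain ⟨gp', gm', hg⟩ := h.g
  exact
    { q0 := h.q0
      m0 := h.m0
      c1 := h.c1
      d3 := h.d3
      c4 := h.c4
      gp0 := hg.gp0
      gm0 := hg.gm0
      gs0 := h.s0
      cp := hG.cp
      cs := hG.cs
      tc := fun c hc => by
        have := h.tc c hc
        rw [h.d3, h.c1, h.c4] at this
        exact this
      td := fun s hs d hd => by
        have := h.td s hs d hd
        rw [h.d3, h.c1, h.c4] at this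
        exact this
      tt := fun s hs d hd => by
        have := h.tt s hs d hd
        rw [h.d3, h.c1, h.c4] at this
        exact this
      ec := he
      pd := hE.pd
      nd := hE.nd
      ptT := h.ptT
      ntT := h.ntT }

/-- **existence** for given functions of level 1/2, without a world -/
theorem exists_tk (hC : Z.Cf B E1) (hZ : Z.Ok sl) (hx : Wt x P 1) (τ1 : τ ∈ Icc (0 : ℝ) bt)
    (sgτ : sg ≤ τ) (cy : ∀ e, ContinuousOn (F.y1 e) (Icc 0 τ))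
    (cB : ContinuousOn (B τ) (Icc 0 τ)) (q0 : 0 ≤ q) (m0 : 0 ≤ m)
    (gp0 : ∀ i j, ∀ r ∈ Icc 0 τ, 0 ≤ gp i j r) (gm0 : ∀ i j, ∀ r ∈ Icc 0 τ, 0 ≤ gm i j r)
    (gs0 : ∀ i j, ∀ r ∈ Icc 0 τ, 0 ≤ gs i j r)
    (cp : ∀ i j, ContinuousOn (gp i j) (Icc 0 τ)) (cs : ∀ i j, ContinuousOn (gs i j) (Icc 0 τ)) :
    ∃ G : Fm V, G.gp = gp ∧ G.gm = gm ∧ G.gs = gs ∧ G.Tk Z F x P sg τ D B m q := by
  have τm : τ ∈ Icc 0 τ := ⟨τ1.1, le_rfl⟩
  have mτ1 : ∀ r ∈ Icc 0 τ, r ∈ Icc (0 : ℝ) bt := fun r hr => ⟨hr.1, hr.2.trans τ1.2⟩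
  have msg : ∀ s ∈ Icc 0 sg, s ∈ Icc 0 τ := fun s hs => ⟨hs.1, hs.2.trans sgτ⟩
  have cK1 : ∀ e f, ContinuousOn (fun r => K1 Z F x P r e f) (Icc 0 τ) := fun e f =>
    Tb_cont hZ hx τ1.2 cy e f
  have k1 : ∀ c e, ContinuousOn (C1f Z x P τ q c e) (Icc 0 τ) := C1f_cont hZ hx τ1.2 q
  have k4 : ∀ c e, ContinuousOn (C4f Z x P B τ q c e) (Icc 0 τ) := C4f_cont hZ hx τ1.2 cB q
  have k3 := D3f_cont2 (P := P) hZ hx τ1.2 cB q m
  have ex : ∀ s ∈ Icc 0 τ, ∀ c : V, ∀ pT nT : V → ℝ, (∀ e, 0 ≤ pT e) → (∀ e, 0 ≤ nT e) →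
      ∃ p n : V → ℝ → ℝ, Tls Z F x P τ D gp gs B q m s c p n ∧
        (∀ e ∈ Dᶜ.erase c, p e s = pT e) ∧ ∀ e ∈ Dᶜ.erase c, n e s = nT e := by
    intro s hs c pT nT hp hn
    have hsub : Icc 0 s ⊆ Icc 0 τ := Icc_subset_Icc_right hs.2
    have s1 : s ∈ Icc (0 : ℝ) bt := mτ1 s hs
    have cN : ∀ e, ContinuousOn (N1 Z F x P D s c e) (Icc 0 s) := fun e r hr =>
      (RCM.bk_deriv hs.1 (continuousOn_finsetSum _ fun f _ => ((cK1 e f).mono hsub).mul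
        ((hZ.Dd_cont hx s c f).mono (Icc_subset_Icc_right s1.2))) hr).continuousAt.continuousWithinAt
    exact RCM.exists_tail (btI s1) (Dᶜ.erase c) (fun i j => (cK1 i j).mono hsub)
      (fun i => (k3 c i).comp (f := fun r : ℝ => (s, r)) (by fun_prop)
        fun _ hr => ⟨hs, hsub hr⟩) cN
      (fun i j => (cp i j).mono hsub) (fun i j => (cs i j).mono hsub)
      (fun i => (k1 c i).mono hsub) (fun i => (k4 c i).mono hsub)
      (fun r hr i j => K1_nonneg hZ hx (mτ1 r (hsub hr)) i j)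
      (fun i r hr => D3f_nonneg hC hZ hx τ1.2 q0 m0 hs.2 c i hr)
      (fun i r hr => N1_nonneg hZ hx s1 c i hr)
      (fun i j r hr => gp0 i j r (hsub hr)) (fun i j r hr => gs0 i j r (hsub hr))
      (fun i r hr => C1f_nonneg hZ hx τ1 q0 c i (hsub hr))
      (fun i r hr => C4f_nonneg hC hZ hx τ1 q0 c i (hsub hr)) hp hn
  have hA : ∀ s c, ∃ p n : V → ℝ → ℝ, s ∈ Icc 0 τ → Tls Z F x P τ D gp gs B q m s c p n ∧
      (∀ e ∈ Dᶜ.erase c, p e s = 0) ∧ ∀ e ∈ Dᶜ.erase c, n e s = 0 := fun s c => by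
    by_cases hs : s ∈ Icc 0 τ
    · obtain ⟨p, n, h⟩ := ex s hs c (fun _ => 0) (fun _ => 0) (fun _ => le_rfl) (fun _ => le_rfl)
      exact ⟨p, n, fun _ => h⟩
    · exact ⟨fun _ _ => 0, fun _ _ => 0, fun h => absurd h hs⟩
  have hR : ∀ s c, ∃ p n : V → ℝ → ℝ, s ∈ Icc 0 τ → Tls Z F x P τ D gp gs B q m s c p n ∧
      (∀ e ∈ Dᶜ.erase c, p e s = gm c e s) ∧ ∀ e ∈ Dᶜ.erase c, n e s = gp c e s := fun s c => by
    by_cases hs : s ∈ Icc 0 τ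
    · obtain ⟨p, n, h⟩ := ex s hs c (fun e => gm c e s) (fun e => gp c e s)
        (fun e => gm0 c e s hs) (fun e => gp0 c e s hs)
      exact ⟨p, n, fun _ => h⟩
    · exact ⟨fun _ _ => 0, fun _ _ => 0, fun h => absurd h hs⟩
  choose pA nA hA using hA
  choose pR nR hR using hR
  exact ⟨⟨gp, gm, gs, C1f Z x P τ q, D3f Z x P B τ q m, C4f Z x P B τ q, fun c => pA τ c,
    fun c => nA τ c, fun s d => pA s d, fun s d => nA s d, fun s d => pR s d,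
    fun s d => nR s d⟩, rfl, rfl, rfl,
    { q0 := q0
      m0 := m0
      c1 := rfl
      d3 := rfl
      c4 := rfl
      gp0 := gp0
      gm0 := gm0
      gs0 := gs0
      cp := cp
      cs := cs
      tc := fun c _ => (hA τ c τm).1
      td := fun s hs d _ => (hA s d (msg s hs)).1
      tt := fun s hs d _ => (hR s d (msg s hs)).1
      ec := fun c e he => ⟨(hA τ c τm).2.1 e he, (hA τ c τm).2.2 e he⟩
      pd := fun s hs d _ e he => (hA s d (msg s hs)).2.1 e he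
      nd := fun s hs d _ e he => (hA s d (msg s hs)).2.2 e he
      ptT := fun s hs d _ e he => (hR s d (msg s hs)).2.1 e he
      ntT := fun s hs d _ e he => (hR s d (msg s hs)).2.2 e he }⟩

end Pool.Agent.RX.RCN.K
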