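import Pool.Agent.RX.RCM.Lin

/-! Comparison for monotone, locally Lipschitz backward systems (MP_73ccd0_lc, route M). -/

namespace Pool.Agent.RX.RCM

open Set Finset Pool.Agent.RX.RCRSHalf Pool.Agent.RX.RCG

set_option linter.unusedSectionVars false

variable {κ : Type*} [Fintype κ]

/-- a family of functions on the box `[0, K]`, nonnegative, bounded, monotone and Lipschitz -/
structure MB (S : Set ℝ) (K : ℝ) (f : ℝ → (κ → ℝ) → ℝ) : Prop where
  ex : ∃ L C : ℝ, 0 ≤ L ∧ 0 ≤ C ∧ ∀ r ∈ S, ∀ y z : κ → ℝ, (∀ j, 0 ≤ y j) → (∀ j, y j ≤ z j) →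
    (∀ j, z j ≤ K) → 0 ≤ f r y ∧ f r y ≤ f r z ∧ f r z ≤ f r y + L * ∑ j, (z j - y j) ∧
      f r z ≤ C

namespace MB

variable {S : Set ℝ} {K : ℝ} {f g : ℝ → (κ → ℝ) → ℝ}

theorem coord (hK : 0 ≤ K) (i : κ) : MB S K fun _ (y : κ → ℝ) => y i := by
  refine ⟨⟨1, K, zero_le_one, hK, fun r _ y z y0 yz zK => ⟨y0 i, yz i, ?_, zK i⟩⟩⟩
  have := Finset.single_le_sum (f := fun j => z j - y j) (fun j _ => sub_nonneg.2 (yz j))
    (Finset.mem_univ i)
  linarith

theorem time {c : ℝ → ℝ} {C : ℝ} (C0 : 0 ≤ C) (h : ∀ r ∈ S, 0 ≤ c r ∧ c r ≤ C) :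
    MB S K fun r (_ : κ → ℝ) => c r := by
  refine ⟨⟨0, C, le_rfl, C0, fun r hr y z _ _ _ => ⟨(h r hr).1, le_rfl, ?_, (h r hr).2⟩⟩⟩
  rw [zero_mul, add_zero]

theorem const {c : ℝ} (h : 0 ≤ c) : MB S K fun _ (_ : κ → ℝ) => c :=
  time h fun _ _ => ⟨h, le_rfl⟩

theorem add (hf : MB S K f) (hg : MB S K g) : MB S K fun r y => f r y + g r y := by
  obtain ⟨L, C, L0, C0, h⟩ := hf.ex
  obtain ⟨L', C', L0', C0', h'⟩ := hg.ex
  refine ⟨⟨L + L', C + C', by positivity, by positivity, fun r hr y z y0 yz zK => ?_⟩⟩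
  obtain ⟨a1, a2, a3, a4⟩ := h r hr y z y0 yz zK
  obtain ⟨b1, b2, b3, b4⟩ := h' r hr y z y0 yz zK
  exact ⟨by linarith, by linarith, by linarith [add_mul L L' (∑ j, (z j - y j))], by linarith⟩

theorem mul (hf : MB S K f) (hg : MB S K g) : MB S K fun r y => f r y * g r y := by
  obtain ⟨L, C, L0, C0, h⟩ := hf.ex
  obtain ⟨L', C', L0', C0', h'⟩ := hg.ex
  refine ⟨⟨L * C' + C * L', C * C', by positivity, by positivity, fun r hr y z y0 yz zK => ?_⟩⟩
  obtain ⟨a1, a2, a3, a4⟩ := h r hr y z y0 yz zK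
  obtain ⟨b1, b2, b3, b4⟩ := h' r hr y z y0 yz zK
  have s0 : 0 ≤ ∑ j, (z j - y j) := Finset.sum_nonneg fun j _ => sub_nonneg.2 (yz j)
  refine ⟨mul_nonneg a1 b1, mul_le_mul a2 b2 b1 (a1.trans a2), ?_,
    mul_le_mul a4 b4 (b1.trans b2) C0⟩
  have e : f r z * g r z - f r y * g r y
      = (f r z - f r y) * g r z + f r y * (g r z - g r y) := by ring
  have h1 : (f r z - f r y) * g r z ≤ (L * ∑ j, (z j - y j)) * C' :=
    mul_le_mul (by linarith) b4 (b1.trans b2) (mul_nonneg L0 s0)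
  have h2 : f r y * (g r z - g r y) ≤ C * (L' * ∑ j, (z j - y j)) :=
    mul_le_mul (a2.trans a4) (by linarith) (by linarith) C0
  nlinarith

theorem sum {ι : Type*} (s : Finset ι) {F : ι → ℝ → (κ → ℝ) → ℝ} (hF : ∀ i ∈ s, MB S K (F i)) :
    MB S K fun r y => ∑ i ∈ s, F i r y := by
  classical
  induction s using Finset.induction_on with
  | empty => simpa using (const (K := K) (S := S) (κ := κ) (c := 0) le_rfl)
  | insert a s ha ih =>
    have h1 := hF a (Finset.mem_insert_self _ _)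
    have h2 := ih fun i hi => hF i (Finset.mem_insert_of_mem hi)
    simpa [Finset.sum_insert ha] using h1.add h2

end MB

/-- **comparison**: a bounded subsolution is below a bounded supersolution -/
theorem mono_cmp {t K : ℝ} {R : ℝ → (κ → ℝ) → κ → ℝ} {u u' v v' : κ → ℝ → ℝ}
    (hR : ∀ i, MB (Icc 0 t) K fun r y => R r y i)
    (du : ∀ i, ∀ r ∈ Icc 0 t, HasDerivAt (u i) (u' i r) r)
    (dv : ∀ i, ∀ r ∈ Icc 0 t, HasDerivAt (v i) (v' i r) r)
    (u0 : ∀ i, ∀ r ∈ Icc 0 t, 0 ≤ u i r) (v0 : ∀ i, ∀ r ∈ Icc 0 t, 0 ≤ v i r)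
    (uK : ∀ i, ∀ r ∈ Icc 0 t, u i r ≤ K) (vK : ∀ i, ∀ r ∈ Icc 0 t, v i r ≤ K)
    (ou : ∀ i, ∀ r ∈ Icc 0 t, -u' i r ≤ R r (fun j => u j r) i)
    (ov : ∀ i, ∀ r ∈ Icc 0 t, R r (fun j => v j r) i ≤ -v' i r)
    (hend : ∀ i, u i t ≤ v i t) : ∀ i, ∀ r ∈ Icc 0 t, u i r ≤ v i r := by
  choose L C L0 C0 h using fun i => (hR i).ex
  set M : ℝ := ∑ i, L i with hM
  have Mi : ∀ i, L i ≤ M := fun i =>
    Finset.single_le_sum (f := L) (fun j _ => L0 j) (Finset.mem_univ i)
  have M0 : 0 ≤ M := Finset.sum_nonneg fun i _ => L0 i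
  have key := lin_nonneg (t := t) (T := fun r _ j => if v j r < u j r then M else 0) (C := M)
    (v := fun i r => v i r - u i r) (v' := fun i r => v' i r - u' i r)
    (fun r _ i j => by split_ifs; exacts [M0, le_rfl])
    (fun r _ i j => by split_ifs; exacts [le_rfl, M0])
    (fun i r hr => (dv i r hr).sub (du i r hr)) (fun i => sub_nonneg.2 (hend i))
    (fun i r hr => ?_)
  · intro i r hr
    have := key i r hr
    linarith
  · have h1 := ou i r hr
    have h2 := ov i r hr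
    let w : κ → ℝ := fun j => Max.max (u j r) (v j r)
    have a1 := (h i r hr (fun j => u j r) w (fun j => u0 j r hr) (fun j => le_max_left _ _)
      (fun j => max_le (uK j r hr) (vK j r hr))).2.1
    have a2 := (h i r hr (fun j => v j r) w (fun j => v0 j r hr) (fun j => le_max_right _ _)
      (fun j => max_le (uK j r hr) (vK j r hr))).2.2.1
    have e1 : ∀ j, (if v j r < u j r then M else 0) * (v j r - u j r) = -(M * (w j - v j r)) := by
      intro j
      split_ifs with hj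
      · have : w j = u j r := max_eq_left hj.le
        rw [this]; ring
      · have : w j = v j r := max_eq_right (not_lt.1 hj)
        rw [this]; ring
    have e2 : ∑ j, (if v j r < u j r then M else 0) * (v j r - u j r)
        = -(M * ∑ j, (w j - v j r)) := by
      rw [Finset.sum_congr rfl fun j _ => e1 j, Finset.sum_neg_distrib, Finset.mul_sum]
    have s0 : 0 ≤ ∑ j, (w j - v j r) := Finset.sum_nonneg fun j _ =>
      sub_nonneg.2 (le_max_right _ _)
    have h3 := mul_le_mul_of_nonneg_right (Mi i) s0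
    show ∑ j, (if v j r < u j r then M else 0) * (v j r - u j r) ≤ -(v' i r - u' i r)
    rw [e2]
    linarith

end Pool.Agent.RX.RCM
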