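import Pool.Agent.RX.RCM.GPa
import Pool.Agent.RX.RCM.MCmp

/-! Comparison of level 1/2 of two worlds (MP_73ccd0_lc, route M). -/

namespace Pool.Agent.RX.RCM

open Set Finset Pool.Agent.RX.RCRSHalf Pool.Agent.RX.RCG

set_option linter.unusedSectionVars false

variable {V : Type*} [Fintype V] [DecidableEq V]

/-- continuous functions are bounded -/
theorem bdd_fam {ι : Type*} [Finite ι] {τ : ℝ} {f : ι → ℝ → ℝ}
    (h : ∀ i, ContinuousOn (f i) (Icc 0 τ)) : ∃ K : ℝ, 0 ≤ K ∧ ∀ i, ∀ r ∈ Icc 0 τ, f i r ≤ K := by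
  have h1 : ∀ i, ∃ K : ℝ, ∀ r ∈ Icc 0 τ, f i r ≤ K := fun i => by
    obtain ⟨K, hK⟩ := (isCompact_Icc.bddAbove_image (h i))
    exact ⟨K, fun r hr => hK (Set.mem_image_of_mem _ hr)⟩
  choose K hK using h1
  have : Fintype ι := Fintype.ofFinite ι
  refine ⟨∑ i, |K i|, Finset.sum_nonneg fun i _ => abs_nonneg _, fun i r hr => ?_⟩
  exact (hK i r hr).trans ((le_abs_self _).trans
    (Finset.single_le_sum (f := fun i => |K i|) (fun i _ => abs_nonneg _) (Finset.mem_univ i)))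

theorem Lf1_mono_U {U U' : Finset V} (hU : U ⊆ U') {T T' p : V → V → ℝ} {i j : V}
    (T0 : ∀ i j, 0 ≤ T' i j) (TT : ∀ i ∈ U, ∀ j ∈ U, T i j ≤ T' i j)
    (p0 : ∀ i j, 0 ≤ p i j) (hi : i ∈ U) (hj : j ∈ U) : Lf1 U T p i j ≤ Lf1 U' T' p i j := by
  have hsub : (U.erase i).erase j ⊆ (U'.erase i).erase j :=
    Finset.erase_subset_erase _ (Finset.erase_subset_erase _ hU)
  have mU : ∀ {b}, b ∈ (U.erase i).erase j → b ∈ U := fun hb =>
    Finset.mem_of_mem_erase (Finset.mem_of_mem_erase hb)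
  unfold Lf1
  refine add_le_add ?_ ?_
  · refine (Finset.sum_le_sum fun b hb => mul_le_mul_of_nonneg_right (TT i hi b (mU hb))
      (p0 j b)).trans ?_
    exact Finset.sum_le_sum_of_subset_of_nonneg hsub fun b _ _ => mul_nonneg (T0 i b) (p0 j b)
  · refine (Finset.sum_le_sum fun b hb => mul_le_mul_of_nonneg_right (TT j hj b (mU hb))
      (p0 i b)).trans ?_
    exact Finset.sum_le_sum_of_subset_of_nonneg hsub fun b _ _ => mul_nonneg (T0 j b) (p0 i b)

theorem qd_mono_U {U U' : Finset V} (hU : U ⊆ U') {T T' p q : V → V → ℝ} {i j : V}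
    (T0 : ∀ i j, 0 ≤ T' i j) (TT : ∀ i ∈ U, ∀ j ∈ U, T i j ≤ T' i j)
    (p0 : ∀ i j, 0 ≤ p i j) (q0 : ∀ i j, 0 ≤ q i j) : qd U T p q i j ≤ qd U' T' p q i j := by
  have hsub : (U.erase i).erase j ⊆ (U'.erase i).erase j :=
    Finset.erase_subset_erase _ (Finset.erase_subset_erase _ hU)
  have mU : ∀ {b}, b ∈ (U.erase i).erase j → b ∈ U := fun hb =>
    Finset.mem_of_mem_erase (Finset.mem_of_mem_erase hb)
  have n1 : ∀ x y, 0 ≤ (p j x + p j y) * (q i x + q i y) := fun x y =>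
    mul_nonneg (add_nonneg (p0 _ _) (p0 _ _)) (add_nonneg (q0 _ _) (q0 _ _))
  unfold qd
  refine mul_le_mul_of_nonneg_left ?_ (by norm_num)
  refine (Finset.sum_le_sum fun x hx => (Finset.sum_le_sum fun y hy =>
    mul_le_mul_of_nonneg_right (TT x (mU hx) y (mU hy)) (n1 x y)).trans
    (Finset.sum_le_sum_of_subset_of_nonneg hsub fun y _ _ => mul_nonneg (T0 x y) (n1 x y))).trans ?_
  exact Finset.sum_le_sum_of_subset_of_nonneg hsub fun x _ _ =>
    Finset.sum_nonneg fun y _ => mul_nonneg (T0 x y) (n1 x y)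

/-- monotonicity of the right sides in the index set and the kernel -/
theorem Fp_mono_U {U U' : Finset V} (hU : U ⊆ U') {T T' p m : V → V → ℝ} {i j : V}
    (T0 : ∀ i j, 0 ≤ T' i j) (TT : ∀ i ∈ U, ∀ j ∈ U, T i j ≤ T' i j)
    (p0 : ∀ i j, 0 ≤ p i j) (m0 : ∀ i j, 0 ≤ m i j) (hi : i ∈ U) (hj : j ∈ U) :
    Fp U T p m i j ≤ Fp U' T' p m i j :=
  add_le_add (Lf1_mono_U hU T0 TT m0 hi hj) (add_le_add (qd_mono_U hU T0 TT p0 p0)
    (qd_mono_U hU T0 TT m0 m0))

theorem Fm_mono_U {U U' : Finset V} (hU : U ⊆ U') {T T' p m : V → V → ℝ} {i j : V}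
    (T0 : ∀ i j, 0 ≤ T' i j) (TT : ∀ i ∈ U, ∀ j ∈ U, T i j ≤ T' i j)
    (p0 : ∀ i j, 0 ≤ p i j) (m0 : ∀ i j, 0 ≤ m i j) (hi : i ∈ U) (hj : j ∈ U) :
    Fm U T p m i j ≤ Fm U' T' p m i j :=
  add_le_add (Lf1_mono_U hU T0 TT p0 hi hj) (add_le_add (qd_mono_U hU T0 TT p0 m0)
    (qd_mono_U hU T0 TT m0 p0))

/-- the right sides depend on the pairs of different vertices only -/
theorem Lf1_congr {U : Finset V} {T p p' : V → V → ℝ} {i j : V} (hi : i ∈ U) (hj : j ∈ U)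
    (hp : ∀ a ∈ U, ∀ b ∈ U, a ≠ b → p a b = p' a b) : Lf1 U T p i j = Lf1 U T p' i j := by
  have k1 : ∀ {b}, b ∈ (U.erase i).erase j → b ∈ U ∧ i ≠ b ∧ j ≠ b := fun hb =>
    ⟨Finset.mem_of_mem_erase (Finset.mem_of_mem_erase hb),
      (Finset.ne_of_mem_erase (Finset.mem_of_mem_erase hb)).symm, (Finset.ne_of_mem_erase hb).symm⟩
  unfold Lf1
  congr 1
  · refine Finset.sum_congr rfl fun b hb => ?_
    rw [hp j hj b (k1 hb).1 (k1 hb).2.2]
  · refine Finset.sum_congr rfl fun b hb => ?_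
    rw [hp i hi b (k1 hb).1 (k1 hb).2.1]

theorem qd_congr {U : Finset V} {T p p' q q' : V → V → ℝ} {i j : V} (hi : i ∈ U) (hj : j ∈ U)
    (hp : ∀ a ∈ U, ∀ b ∈ U, a ≠ b → p a b = p' a b)
    (hq : ∀ a ∈ U, ∀ b ∈ U, a ≠ b → q a b = q' a b) : qd U T p q i j = qd U T p' q' i j := by
  have k1 : ∀ {b}, b ∈ (U.erase i).erase j → b ∈ U ∧ i ≠ b ∧ j ≠ b := fun hb =>
    ⟨Finset.mem_of_mem_erase (Finset.mem_of_mem_erase hb),
      (Finset.ne_of_mem_erase (Finset.mem_of_mem_erase hb)).symm, (Finset.ne_of_mem_erase hb).symm⟩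
  unfold qd
  congr 1
  refine Finset.sum_congr rfl fun x hx => Finset.sum_congr rfl fun y hy => ?_
  rw [hp j hj x (k1 hx).1 (k1 hx).2.2, hp j hj y (k1 hy).1 (k1 hy).2.2,
    hq i hi x (k1 hx).1 (k1 hx).2.1, hq i hi y (k1 hy).1 (k1 hy).2.1]

theorem Fp_congr {U : Finset V} {T p m p' m' : V → V → ℝ} {i j : V} (hi : i ∈ U) (hj : j ∈ U)
    (hp : ∀ a ∈ U, ∀ b ∈ U, a ≠ b → p a b = p' a b)
    (hm : ∀ a ∈ U, ∀ b ∈ U, a ≠ b → m a b = m' a b) : Fp U T p m i j = Fp U T p' m' i j := by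
  unfold Fp
  rw [Lf1_congr hi hj hm, qd_congr hi hj hp hp, qd_congr hi hj hm hm]

theorem Fm_congr {U : Finset V} {T p m p' m' : V → V → ℝ} {i j : V} (hi : i ∈ U) (hj : j ∈ U)
    (hp : ∀ a ∈ U, ∀ b ∈ U, a ≠ b → p a b = p' a b)
    (hm : ∀ a ∈ U, ∀ b ∈ U, a ≠ b → m a b = m' a b) : Fm U T p m i j = Fm U T p' m' i j := by
  unfold Fm
  rw [Lf1_congr hi hj hp, qd_congr hi hj hp hm, qd_congr hi hj hm hp]

section MBF

variable {S : Set ℝ} {K C : ℝ} {T : ℝ → V → V → ℝ}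

theorem MB_Fp (hK : 0 ≤ K) (C0 : 0 ≤ C) (hT : ∀ r ∈ S, ∀ i j, 0 ≤ T r i j ∧ T r i j ≤ C)
    (U : Finset V) (i j : V) : MB S K fun r (y : Bool × V × V → ℝ) =>
      Fp U (T r) (fun a b => y (false, a, b)) (fun a b => y (true, a, b)) i j := by
  have c : ∀ k : Bool × V × V, MB S K fun _ (y : Bool × V × V → ℝ) => y k := fun k =>
    MB.coord hK k
  have t : ∀ a b, MB S K fun r (_ : Bool × V × V → ℝ) => T r a b := fun a b =>
    MB.time C0 fun r hr => hT r hr a b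
  unfold Fp Lf1 qd
  refine MB.add (MB.add (MB.sum _ fun b _ => (t i b).mul (c (true, j, b)))
    (MB.sum _ fun b _ => (t j b).mul (c (true, i, b)))) (MB.add ?_ ?_)
  · exact MB.mul (MB.const (by norm_num)) (MB.sum _ fun x _ => MB.sum _ fun y _ => (t x y).mul
      (MB.mul ((c (false, j, x)).add (c (false, j, y))) ((c (false, i, x)).add (c (false, i, y)))))
  · exact MB.mul (MB.const (by norm_num)) (MB.sum _ fun x _ => MB.sum _ fun y _ => (t x y).mul
      (MB.mul ((c (true, j, x)).add (c (true, j, y))) ((c (true, i, x)).add (c (true, i, y)))))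

theorem MB_Fm (hK : 0 ≤ K) (C0 : 0 ≤ C) (hT : ∀ r ∈ S, ∀ i j, 0 ≤ T r i j ∧ T r i j ≤ C)
    (U : Finset V) (i j : V) : MB S K fun r (y : Bool × V × V → ℝ) =>
      Fm U (T r) (fun a b => y (false, a, b)) (fun a b => y (true, a, b)) i j := by
  have c : ∀ k : Bool × V × V, MB S K fun _ (y : Bool × V × V → ℝ) => y k := fun k =>
    MB.coord hK k
  have t : ∀ a b, MB S K fun r (_ : Bool × V × V → ℝ) => T r a b := fun a b =>
    MB.time C0 fun r hr => hT r hr a b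
  unfold Fm Lf1 qd
  refine MB.add (MB.add (MB.sum _ fun b _ => (t i b).mul (c (false, j, b)))
    (MB.sum _ fun b _ => (t j b).mul (c (false, i, b)))) (MB.add ?_ ?_)
  · exact MB.mul (MB.const (by norm_num)) (MB.sum _ fun x _ => MB.sum _ fun y _ => (t x y).mul
      (MB.mul ((c (false, j, x)).add (c (false, j, y))) ((c (true, i, x)).add (c (true, i, y)))))
  · exact MB.mul (MB.const (by norm_num)) (MB.sum _ fun x _ => MB.sum _ fun y _ => (t x y).mul
      (MB.mul ((c (true, j, x)).add (c (true, j, y))) ((c (false, i, x)).add (c (false, i, y)))))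

end MBF

/-- a solution of the system of level 1/2 on the set `U` -/
structure Gs (U : Finset V) (τ : ℝ) (T A B : ℝ → V → V → ℝ) (gp gm : V → V → ℝ → ℝ) : Prop where
  dp : ∀ i ∈ U, ∀ j ∈ U, i ≠ j → ∀ r ∈ Icc 0 τ, HasDerivAt (gp i j)
    (-(A r i j + Fp U (T r) (fun a b => gp a b r) (fun a b => gm a b r) i j)) r
  dm : ∀ i ∈ U, ∀ j ∈ U, i ≠ j → ∀ r ∈ Icc 0 τ, HasDerivAt (gm i j)
    (-(B r i j + Fm U (T r) (fun a b => gp a b r) (fun a b => gm a b r) i j)) r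
  zp : ∀ i ∈ U, ∀ j ∈ U, i ≠ j → gp i j τ = 0
  zm : ∀ i ∈ U, ∀ j ∈ U, i ≠ j → gm i j τ = 0
  p0 : ∀ i j, ∀ r ∈ Icc 0 τ, 0 ≤ gp i j r
  m0 : ∀ i j, ∀ r ∈ Icc 0 τ, 0 ≤ gm i j r

/-- **comparison of level 1/2** -/
theorem Gs.cmp {U U' : Finset V} {τ : ℝ} {T T' A A' B B' : ℝ → V → V → ℝ}
    {gp gm gp' gm' : V → V → ℝ → ℝ} (h : Gs U τ T A B gp gm) (h' : Gs U' τ T' A' B' gp' gm')
    (hU : U ⊆ U') (cT : ∀ i j, ContinuousOn (fun r => T r i j) (Icc 0 τ))
    (T0 : ∀ r ∈ Icc 0 τ, ∀ i j, 0 ≤ T r i j) (T0' : ∀ r ∈ Icc 0 τ, ∀ i j, 0 ≤ T' r i j)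
    (TT : ∀ r ∈ Icc 0 τ, ∀ i ∈ U, ∀ j ∈ U, T r i j ≤ T' r i j)
    (cA : ∀ i j, ContinuousOn (fun r => A r i j) (Icc 0 τ))
    (cB : ∀ i j, ContinuousOn (fun r => B r i j) (Icc 0 τ))
    (A0 : ∀ r ∈ Icc 0 τ, ∀ i ∈ U, ∀ j ∈ U, i ≠ j → 0 ≤ A r i j)
    (B0 : ∀ r ∈ Icc 0 τ, ∀ i ∈ U, ∀ j ∈ U, i ≠ j → 0 ≤ B r i j)
    (AA : ∀ r ∈ Icc 0 τ, ∀ i ∈ U, ∀ j ∈ U, i ≠ j → A r i j ≤ A' r i j)
    (BB : ∀ r ∈ Icc 0 τ, ∀ i ∈ U, ∀ j ∈ U, i ≠ j → B r i j ≤ B' r i j) :
    ∀ i ∈ U, ∀ j ∈ U, i ≠ j → ∀ r ∈ Icc 0 τ, gp i j r ≤ gp' i j r ∧ gm i j r ≤ gm' i j r := by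
  classical
  -- the restricted families
  let F : (V → V → ℝ → ℝ) → (V → V → ℝ → ℝ) → Bool × V × V → ℝ → ℝ := fun p m k r =>
    if k.2.1 ∈ U ∧ k.2.2 ∈ U ∧ k.2.1 ≠ k.2.2 then (if k.1 then m k.2.1 k.2.2 r else p k.2.1 k.2.2 r)
    else 0
  let R : ℝ → (Bool × V × V → ℝ) → Bool × V × V → ℝ := fun r y k =>
    if k.2.1 ∈ U ∧ k.2.2 ∈ U ∧ k.2.1 ≠ k.2.2 then
      (if k.1 then B r k.2.1 k.2.2
        + Fm U (T r) (fun a b => y (false, a, b)) (fun a b => y (true, a, b)) k.2.1 k.2.2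
      else A r k.2.1 k.2.2
        + Fp U (T r) (fun a b => y (false, a, b)) (fun a b => y (true, a, b)) k.2.1 k.2.2)
    else 0
  have rp : ∀ p m r, ∀ a ∈ U, ∀ b ∈ U, a ≠ b → F p m (false, a, b) r = p a b r :=
    fun p m r a ha b hb hab => by
      show (if a ∈ U ∧ b ∈ U ∧ a ≠ b then _ else _) = _
      rw [if_pos ⟨ha, hb, hab⟩]; rfl
  have rm : ∀ p m r, ∀ a ∈ U, ∀ b ∈ U, a ≠ b → F p m (true, a, b) r = m a b r :=
    fun p m r a ha b hb hab => by
      show (if a ∈ U ∧ b ∈ U ∧ a ≠ b then _ else _) = _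
      rw [if_pos ⟨ha, hb, hab⟩]; rfl
  -- bounds
  obtain ⟨CT, CT0, hCT⟩ := bdd_fam (τ := τ) (f := fun (k : V × V) r => T r k.1 k.2)
    fun k => cT k.1 k.2
  obtain ⟨CA, CA0, hCA⟩ := bdd_fam (τ := τ) (f := fun (k : V × V) r => A r k.1 k.2)
    fun k => cA k.1 k.2
  obtain ⟨CB, CB0, hCB⟩ := bdd_fam (τ := τ) (f := fun (k : V × V) r => B r k.1 k.2)
    fun k => cB k.1 k.2
  have cF : ∀ {p m : V → V → ℝ → ℝ},
      (∀ i ∈ U, ∀ j ∈ U, i ≠ j → ∀ r ∈ Icc 0 τ, ∃ d, HasDerivAt (p i j) d r) →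
      (∀ i ∈ U, ∀ j ∈ U, i ≠ j → ∀ r ∈ Icc 0 τ, ∃ d, HasDerivAt (m i j) d r) →
      ∀ k, ContinuousOn (F p m k) (Icc 0 τ) := by
    intro p m hp hm k r hr
    by_cases hk : k.2.1 ∈ U ∧ k.2.2 ∈ U ∧ k.2.1 ≠ k.2.2
    · rcases k with ⟨b, i, j⟩
      cases b
      · have e : F p m (false, i, j) = p i j := by
          funext r; exact rp p m r i hk.1 j hk.2.1 hk.2.2
        rw [e]
        obtain ⟨d, hd⟩ := hp i hk.1 j hk.2.1 hk.2.2 r hr
        exact hd.continuousAt.continuousWithinAt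
      · have e : F p m (true, i, j) = m i j := by
          funext r; exact rm p m r i hk.1 j hk.2.1 hk.2.2
        rw [e]
        obtain ⟨d, hd⟩ := hm i hk.1 j hk.2.1 hk.2.2 r hr
        exact hd.continuousAt.continuousWithinAt
    · have e : F p m k = fun _ => 0 := by
        funext r
        show (if k.2.1 ∈ U ∧ k.2.2 ∈ U ∧ k.2.1 ≠ k.2.2 then _ else _) = _
        rw [if_neg hk]
      rw [e]
      exact continuousWithinAt_const
  have hcu := cF (p := gp) (m := gm) (fun i hi j hj hij r hr => ⟨_, h.dp i hi j hj hij r hr⟩)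
    (fun i hi j hj hij r hr => ⟨_, h.dm i hi j hj hij r hr⟩)
  have hcv := cF (p := gp') (m := gm')
    (fun i hi j hj hij r hr => ⟨_, h'.dp i (hU hi) j (hU hj) hij r hr⟩)
    (fun i hi j hj hij r hr => ⟨_, h'.dm i (hU hi) j (hU hj) hij r hr⟩)
  obtain ⟨K1, K10, hK1⟩ := bdd_fam hcu
  obtain ⟨K2, K20, hK2⟩ := bdd_fam hcv
  have F0 : ∀ {p m : V → V → ℝ → ℝ}, (∀ i j, ∀ r ∈ Icc 0 τ, 0 ≤ p i j r) →
      (∀ i j, ∀ r ∈ Icc 0 τ, 0 ≤ m i j r) → ∀ k, ∀ r ∈ Icc 0 τ, 0 ≤ F p m k r := by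
    intro p m hp hm k r hr
    show 0 ≤ (if k.2.1 ∈ U ∧ k.2.2 ∈ U ∧ k.2.1 ≠ k.2.2 then
      (if k.1 then m k.2.1 k.2.2 r else p k.2.1 k.2.2 r) else 0)
    split_ifs
    · exact hm _ _ r hr
    · exact hp _ _ r hr
    · exact le_rfl
  let u' : Bool × V × V → ℝ → ℝ := fun k r => -R r (fun k => F gp gm k r) k
  let v' : Bool × V × V → ℝ → ℝ := fun k r =>
    if k.2.1 ∈ U ∧ k.2.2 ∈ U ∧ k.2.1 ≠ k.2.2 then
      (if k.1 then -(B' r k.2.1 k.2.2 + Fm U' (T' r) (fun a b => gp' a b r)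
        (fun a b => gm' a b r) k.2.1 k.2.2)
      else -(A' r k.2.1 k.2.2 + Fp U' (T' r) (fun a b => gp' a b r)
        (fun a b => gm' a b r) k.2.1 k.2.2))
    else 0
  have key := mono_cmp (κ := Bool × V × V) (t := τ) (K := max K1 K2) (R := R)
    (u := F gp gm) (v := F gp' gm') (u' := u') (v' := v')
    (fun k => ?_) (fun k r hr => ?_) (fun k r hr => ?_) (F0 h.p0 h.m0) (F0 h'.p0 h'.m0)
    (fun k r hr => (hK1 k r hr).trans (le_max_left _ _))
    (fun k r hr => (hK2 k r hr).trans (le_max_right _ _))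
    (fun k r hr => le_of_eq (neg_neg _)) (fun k r hr => ?_) (fun k => ?_)
  · intro i hi j hj hij r hr
    have a1 := key (false, i, j) r hr
    have a2 := key (true, i, j) r hr
    rw [rp _ _ _ i hi j hj hij, rp _ _ _ i hi j hj hij] at a1
    rw [rm _ _ _ i hi j hj hij, rm _ _ _ i hi j hj hij] at a2
    exact ⟨a1, a2⟩
  · -- the right side is monotone and Lipschitz
    have hTb : ∀ r ∈ Icc 0 τ, ∀ i j, 0 ≤ T r i j ∧ T r i j ≤ CT := fun r hr i j =>
      ⟨T0 r hr i j, hCT (i, j) r hr⟩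
    have hKK : 0 ≤ max K1 K2 := K10.trans (le_max_left _ _)
    rcases k with ⟨b, i, j⟩
    by_cases hk : i ∈ U ∧ j ∈ U ∧ i ≠ j
    · cases b
      · have e : (fun r y => R r y (false, i, j)) = fun r (y : Bool × V × V → ℝ) => A r i j
            + Fp U (T r) (fun a b => y (false, a, b)) (fun a b => y (true, a, b)) i j := by
          funext r y
          show (if i ∈ U ∧ j ∈ U ∧ i ≠ j then _ else _) = _
          rw [if_pos hk]; rfl
        rw [e]
        exact MB.add (MB.time CA0 fun r hr => ⟨A0 r hr i hk.1 j hk.2.1 hk.2.2,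
          hCA (i, j) r hr⟩) (MB_Fp hKK CT0 hTb U i j)
      · have e : (fun r y => R r y (true, i, j)) = fun r (y : Bool × V × V → ℝ) => B r i j
            + Fm U (T r) (fun a b => y (false, a, b)) (fun a b => y (true, a, b)) i j := by
          funext r y
          show (if i ∈ U ∧ j ∈ U ∧ i ≠ j then _ else _) = _
          rw [if_pos hk]; rfl
        rw [e]
        exact MB.add (MB.time CB0 fun r hr => ⟨B0 r hr i hk.1 j hk.2.1 hk.2.2,
          hCB (i, j) r hr⟩) (MB_Fm hKK CT0 hTb U i j)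
    · have e : (fun r y => R r y (b, i, j)) = fun r (y : Bool × V × V → ℝ) => (0 : ℝ) := by
        funext r y
        show (if i ∈ U ∧ j ∈ U ∧ i ≠ j then _ else _) = _
        rw [if_neg hk]
      rw [e]
      exact MB.const le_rfl
  · -- derivative of the first family
    rcases k with ⟨b, i, j⟩
    by_cases hk : i ∈ U ∧ j ∈ U ∧ i ≠ j
    · cases b
      · have e : F gp gm (false, i, j) = gp i j := by
          funext r; exact rp gp gm r i hk.1 j hk.2.1 hk.2.2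
        have e2 : u' (false, i, j) r = -(A r i j
            + Fp U (T r) (fun a b => gp a b r) (fun a b => gm a b r) i j) := by
          show -(if i ∈ U ∧ j ∈ U ∧ i ≠ j then _ else _) = _
          rw [if_pos hk]
          show -(A r i j + Fp U (T r) _ _ i j) = _
          rw [Fp_congr hk.1 hk.2.1 (fun a ha b hb hab => rp gp gm r a ha b hb hab)
            (fun a ha b hb hab => rm gp gm r a ha b hb hab)]
        rw [e, e2]
        exact h.dp i hk.1 j hk.2.1 hk.2.2 r hr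
      · have e : F gp gm (true, i, j) = gm i j := by
          funext r; exact rm gp gm r i hk.1 j hk.2.1 hk.2.2
        have e2 : u' (true, i, j) r = -(B r i j
            + Fm U (T r) (fun a b => gp a b r) (fun a b => gm a b r) i j) := by
          show -(if i ∈ U ∧ j ∈ U ∧ i ≠ j then _ else _) = _
          rw [if_pos hk]
          show -(B r i j + Fm U (T r) _ _ i j) = _
          rw [Fm_congr hk.1 hk.2.1 (fun a ha b hb hab => rp gp gm r a ha b hb hab)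
            (fun a ha b hb hab => rm gp gm r a ha b hb hab)]
        rw [e, e2]
        exact h.dm i hk.1 j hk.2.1 hk.2.2 r hr
    · have e : F gp gm (b, i, j) = fun _ => 0 := by
        funext r
        show (if i ∈ U ∧ j ∈ U ∧ i ≠ j then _ else _) = _
        rw [if_neg hk]
      have e2 : u' (b, i, j) r = 0 := by
        show -(if i ∈ U ∧ j ∈ U ∧ i ≠ j then _ else _) = _
        rw [if_neg hk, neg_zero]
      rw [e, e2]
      exact hasDerivAt_const _ _
  · -- derivative of the second family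
    rcases k with ⟨b, i, j⟩
    by_cases hk : i ∈ U ∧ j ∈ U ∧ i ≠ j
    · cases b
      · have e : F gp' gm' (false, i, j) = gp' i j := by
          funext r; exact rp gp' gm' r i hk.1 j hk.2.1 hk.2.2
        have e2 : v' (false, i, j) r = -(A' r i j
            + Fp U' (T' r) (fun a b => gp' a b r) (fun a b => gm' a b r) i j) := by
          show (if i ∈ U ∧ j ∈ U ∧ i ≠ j then _ else _) = _
          rw [if_pos hk]; rfl
        rw [e, e2]
        exact h'.dp i (hU hk.1) j (hU hk.2.1) hk.2.2 r hr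
      · have e : F gp' gm' (true, i, j) = gm' i j := by
          funext r; exact rm gp' gm' r i hk.1 j hk.2.1 hk.2.2
        have e2 : v' (true, i, j) r = -(B' r i j
            + Fm U' (T' r) (fun a b => gp' a b r) (fun a b => gm' a b r) i j) := by
          show (if i ∈ U ∧ j ∈ U ∧ i ≠ j then _ else _) = _
          rw [if_pos hk]; rfl
        rw [e, e2]
        exact h'.dm i (hU hk.1) j (hU hk.2.1) hk.2.2 r hr
    · have e : F gp' gm' (b, i, j) = fun _ => 0 := by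
        funext r
        show (if i ∈ U ∧ j ∈ U ∧ i ≠ j then _ else _) = _
        rw [if_neg hk]
      have e2 : v' (b, i, j) r = 0 := by
        show (if i ∈ U ∧ j ∈ U ∧ i ≠ j then _ else _) = _
        rw [if_neg hk]
      rw [e, e2]
      exact hasDerivAt_const _ _
  · -- supersolution
    have p0 : ∀ i j, 0 ≤ gp' i j r := fun i j => h'.p0 i j r hr
    have m0 : ∀ i j, 0 ≤ gm' i j r := fun i j => h'.m0 i j r hr
    rcases k with ⟨b, i, j⟩
    by_cases hk : i ∈ U ∧ j ∈ U ∧ i ≠ j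
    · cases b
      · have e1 : R r (fun k => F gp' gm' k r) (false, i, j) = A r i j
            + Fp U (T r) (fun a b => gp' a b r) (fun a b => gm' a b r) i j := by
          show (if i ∈ U ∧ j ∈ U ∧ i ≠ j then _ else _) = _
          rw [if_pos hk]
          show A r i j + Fp U (T r) _ _ i j = _
          rw [Fp_congr hk.1 hk.2.1 (fun a ha b hb hab => rp gp' gm' r a ha b hb hab)
            (fun a ha b hb hab => rm gp' gm' r a ha b hb hab)]
        have e2 : -v' (false, i, j) r = A' r i j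
            + Fp U' (T' r) (fun a b => gp' a b r) (fun a b => gm' a b r) i j := by
          show -(if i ∈ U ∧ j ∈ U ∧ i ≠ j then _ else _) = _
          rw [if_pos hk]
          exact neg_neg _
        rw [e1, e2]
        exact add_le_add (AA r hr i hk.1 j hk.2.1 hk.2.2)
          (Fp_mono_U hU (T0' r hr) (TT r hr) p0 m0 hk.1 hk.2.1)
      · have e1 : R r (fun k => F gp' gm' k r) (true, i, j) = B r i j
            + Fm U (T r) (fun a b => gp' a b r) (fun a b => gm' a b r) i j := by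
          show (if i ∈ U ∧ j ∈ U ∧ i ≠ j then _ else _) = _
          rw [if_pos hk]
          show B r i j + Fm U (T r) _ _ i j = _
          rw [Fm_congr hk.1 hk.2.1 (fun a ha b hb hab => rp gp' gm' r a ha b hb hab)
            (fun a ha b hb hab => rm gp' gm' r a ha b hb hab)]
        have e2 : -v' (true, i, j) r = B' r i j
            + Fm U' (T' r) (fun a b => gp' a b r) (fun a b => gm' a b r) i j := by
          show -(if i ∈ U ∧ j ∈ U ∧ i ≠ j then _ else _) = _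
          rw [if_pos hk]
          exact neg_neg _
        rw [e1, e2]
        exact add_le_add (BB r hr i hk.1 j hk.2.1 hk.2.2)
          (Fm_mono_U hU (T0' r hr) (TT r hr) p0 m0 hk.1 hk.2.1)
    · have e1 : R r (fun k => F gp' gm' k r) (b, i, j) = 0 := by
        show (if i ∈ U ∧ j ∈ U ∧ i ≠ j then _ else _) = _
        rw [if_neg hk]
      have e2 : v' (b, i, j) r = 0 := by
        show (if i ∈ U ∧ j ∈ U ∧ i ≠ j then _ else _) = _
        rw [if_neg hk]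
      rw [e1, e2, neg_zero]
  · -- the end
    rcases k with ⟨b, i, j⟩
    by_cases hk : i ∈ U ∧ j ∈ U ∧ i ≠ j
    · cases b
      · rw [rp _ _ _ i hk.1 j hk.2.1 hk.2.2, rp _ _ _ i hk.1 j hk.2.1 hk.2.2,
          h.zp i hk.1 j hk.2.1 hk.2.2, h'.zp i (hU hk.1) j (hU hk.2.1) hk.2.2]
      · rw [rm _ _ _ i hk.1 j hk.2.1 hk.2.2, rm _ _ _ i hk.1 j hk.2.1 hk.2.2,
          h.zm i hk.1 j hk.2.1 hk.2.2, h'.zm i (hU hk.1) j (hU hk.2.1) hk.2.2]
    · have e1 : ∀ p m, F p m (b, i, j) τ = 0 := fun p m => by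
        show (if i ∈ U ∧ j ∈ U ∧ i ≠ j then _ else _) = _
        rw [if_neg hk]
      rw [e1, e1]

end Pool.Agent.RX.RCM
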