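import Pool.Agent.RX.RCM.GSa
import Pool.Agent.RX.RCM.L2b

/-! The level 1/2 of a cell in operator norms: bilinear bounds (MP_73ccd0_lc, route M, density
errors). -/

namespace Pool.Agent.RX.RCM

open Set Finset

set_option linter.unusedSectionVars false

variable {V : Type*} [Fintype V] [DecidableEq V]

/-- the image of a weight -/
noncomputable def Ac (U : Finset V) (K : V → V → ℝ) (w : V → ℝ) (b : V) : ℝ := ∑ i ∈ U, w i * K i b

variable {U : Finset V} {T p m g h K : V → V → ℝ} {w u f : V → ℝ}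

theorem Ac_nonneg (K0 : ∀ i j, 0 ≤ K i j) (w0 : ∀ e ∈ U, 0 ≤ w e) (b : V) : 0 ≤ Ac U K w b :=
  Finset.sum_nonneg fun i hi => mul_nonneg (w0 i hi) (K0 i b)

/-- the bilinear form of a kernel -/
noncomputable def Bl (U : Finset V) (K : V → V → ℝ) (w u : V → ℝ) : ℝ :=
  ∑ i ∈ U, w i * ∑ j ∈ U, K i j * u j

theorem Bl_mono {K' : V → V → ℝ} (hK : ∀ i ∈ U, ∀ j ∈ U, K i j ≤ K' i j)
    (w0 : ∀ e ∈ U, 0 ≤ w e) (u0 : ∀ e ∈ U, 0 ≤ u e) : Bl U K w u ≤ Bl U K' w u :=
  Finset.sum_le_sum fun i hi => mul_le_mul_of_nonneg_left (Finset.sum_le_sum fun j hj =>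
    mul_le_mul_of_nonneg_right (hK i hi j hj) (u0 j hj)) (w0 i hi)

theorem Bl_add (K K' : V → V → ℝ) (w u : V → ℝ) :
    Bl U (fun i j => K i j + K' i j) w u = Bl U K w u + Bl U K' w u := by
  unfold Bl
  rw [← Finset.sum_add_distrib]
  refine Finset.sum_congr rfl fun i _ => ?_
  rw [← mul_add, ← Finset.sum_add_distrib]
  congr 1
  exact Finset.sum_congr rfl fun j _ => by ring

theorem Bl_smul (c : ℝ) (K : V → V → ℝ) (w u : V → ℝ) :
    Bl U (fun i j => c * K i j) w u = c * Bl U K w u := by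
  unfold Bl
  rw [Finset.mul_sum]
  refine Finset.sum_congr rfl fun i _ => ?_
  have : ∑ j ∈ U, c * K i j * u j = c * ∑ j ∈ U, K i j * u j := by
    rw [Finset.mul_sum]; exact Finset.sum_congr rfl fun j _ => by ring
  rw [this]; ring

/-- a form with `w` tested, in terms of the image -/
theorem Bl_eq (K : V → V → ℝ) (w u : V → ℝ) : Bl U K w u = ∑ b ∈ U, Ac U K w b * u b := by
  unfold Bl Ac
  simp only [Finset.mul_sum, Finset.sum_mul]
  rw [Finset.sum_comm]
  exact Finset.sum_congr rfl fun b _ => Finset.sum_congr rfl fun i _ => by ring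

theorem nm_Ac {γ : ℝ} (γ0 : 0 ≤ γ) (K0 : ∀ i j, 0 ≤ K i j) (w0 : ∀ e ∈ U, 0 ≤ w e)
    (h : ∀ u : V → ℝ, (∀ e ∈ U, 0 ≤ u e) → Bl U K w u ≤ γ * nm U u) : nm U (Ac U K w) ≤ γ := by
  have h1 := h (Ac U K w) (fun e _ => Ac_nonneg K0 w0 e)
  rw [Bl_eq] at h1
  have e1 : ∑ b ∈ U, Ac U K w b * Ac U K w b = nm U (Ac U K w) ^ 2 := by
    rw [nm_sq]; exact Finset.sum_congr rfl fun b _ => by ring
  rw [e1, pow_two] at h1
  rcases (nm_nonneg U (Ac U K w)).eq_or_lt with h0 | h0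
  · rw [← h0]; exact γ0
  · exact le_of_mul_le_mul_right h1 h0

theorem Bl_le_nm {γ : ℝ} (h : nm U (Ac U K w) ≤ γ) :
    Bl U K w u ≤ γ * nm U u := by
  rw [Bl_eq]
  exact (ip_le U _ _).trans (mul_le_mul_of_nonneg_right h (nm_nonneg _ _))

/-- the linear terms, first kind -/
theorem Bl_lin1 (T g : V → V → ℝ) (w u : V → ℝ) :
    Bl U (fun i j => ∑ b ∈ U, T i b * g j b) w u = ∑ b ∈ U, Ac U T w b * Ac U g u b := by
  unfold Bl Ac
  simp only [Finset.mul_sum, Finset.sum_mul]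
  have : ∀ i ∈ U, ∑ j ∈ U, ∑ b ∈ U, w i * (T i b * g j b * u j)
      = ∑ b ∈ U, ∑ j ∈ U, w i * (T i b * g j b * u j) := fun i _ => Finset.sum_comm
  rw [Finset.sum_congr rfl this, Finset.sum_comm]
  refine Finset.sum_congr rfl fun b _ => ?_
  rw [Finset.sum_comm]
  exact Finset.sum_congr rfl fun j _ => Finset.sum_congr rfl fun i _ => by ring

/-- the linear terms, second kind -/
theorem Bl_lin2 (T g : V → V → ℝ) (w u : V → ℝ) :
    Bl U (fun i j => ∑ b ∈ U, T j b * g i b) w u = ∑ b ∈ U, Ac U g w b * Ac U T u b := by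
  unfold Bl Ac
  simp only [Finset.mul_sum, Finset.sum_mul]
  have : ∀ i ∈ U, ∑ j ∈ U, ∑ b ∈ U, w i * (T j b * g i b * u j)
      = ∑ b ∈ U, ∑ j ∈ U, w i * (T j b * g i b * u j) := fun i _ => Finset.sum_comm
  rw [Finset.sum_congr rfl this, Finset.sum_comm]
  refine Finset.sum_congr rfl fun b _ => ?_
  rw [Finset.sum_comm]
  exact Finset.sum_congr rfl fun j _ => Finset.sum_congr rfl fun i _ => by ring

/-- the quadratic terms -/
theorem Bl_quad (Ts : ∀ i j, T i j = T j i) (g h : V → V → ℝ) (w u : V → ℝ) :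
    Bl U (fun i j => (1 / 2) * ∑ x ∈ U, ∑ y ∈ U, T x y * ((g j x + g j y) * (h i x + h i y))) w u
      = Qo U T (Ac U h w) (Ac U g u) := by
  set H := Ac U h w with hH
  set G := Ac U g u with hG
  have e1 : Bl U (fun i j => (1 / 2) * ∑ x ∈ U, ∑ y ∈ U,
        T x y * ((g j x + g j y) * (h i x + h i y))) w u
      = (1 / 2) * ∑ x ∈ U, ∑ y ∈ U, T x y * ((G x + G y) * (H x + H y)) := by
    rw [Bl_smul]
    congr 1
    unfold Bl
    have a1 : ∀ i ∈ U, w i * ∑ j ∈ U, (∑ x ∈ U, ∑ y ∈ U,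
          T x y * ((g j x + g j y) * (h i x + h i y))) * u j
        = ∑ x ∈ U, ∑ y ∈ U, T x y * ((G x + G y) * (w i * (h i x + h i y))) := by
      intro i _
      have a2 : ∀ j ∈ U, (∑ x ∈ U, ∑ y ∈ U, T x y * ((g j x + g j y) * (h i x + h i y))) * u j
          = ∑ x ∈ U, ∑ y ∈ U, T x y * ((u j * g j x + u j * g j y) * (h i x + h i y)) := by
        intro j _
        rw [Finset.sum_mul]
        refine Finset.sum_congr rfl fun x _ => ?_
        rw [Finset.sum_mul]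
        exact Finset.sum_congr rfl fun y _ => by ring
      rw [Finset.sum_congr rfl a2, Finset.sum_comm, Finset.mul_sum]
      refine Finset.sum_congr rfl fun x _ => ?_
      rw [Finset.sum_comm, Finset.mul_sum]
      refine Finset.sum_congr rfl fun y _ => ?_
      have a3 : ∑ j ∈ U, T x y * ((u j * g j x + u j * g j y) * (h i x + h i y))
          = T x y * ((G x + G y) * (h i x + h i y)) := by
        rw [← Finset.mul_sum, ← Finset.sum_mul, Finset.sum_add_distrib]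
        rfl
      rw [a3]; ring
    rw [Finset.sum_congr rfl a1, Finset.sum_comm]
    refine Finset.sum_congr rfl fun x _ => ?_
    rw [Finset.sum_comm]
    refine Finset.sum_congr rfl fun y _ => ?_
    rw [← Finset.mul_sum, ← Finset.mul_sum]
    congr 2
    have : ∀ i ∈ U, w i * (h i x + h i y) = w i * h i x + w i * h i y := fun i _ => by ring
    rw [Finset.sum_congr rfl this, Finset.sum_add_distrib]
    rfl
  rw [e1]
  have h4 : ∑ x ∈ U, ∑ y ∈ U, T x y * ((G x + G y) * (H x + H y))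
      = ∑ x ∈ U, ∑ y ∈ U, T x y * (H x * (G x + G y))
        + ∑ x ∈ U, ∑ y ∈ U, T x y * (H y * (G x + G y)) := by
    rw [← Finset.sum_add_distrib]
    refine Finset.sum_congr rfl fun x _ => ?_
    rw [← Finset.sum_add_distrib]
    exact Finset.sum_congr rfl fun y _ => by ring
  have h5 : ∑ x ∈ U, ∑ y ∈ U, T x y * (H y * (G x + G y))
      = ∑ x ∈ U, ∑ y ∈ U, T x y * (H x * (G x + G y)) := by
    rw [Finset.sum_comm]
    refine Finset.sum_congr rfl fun x _ => Finset.sum_congr rfl fun y _ => ?_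
    rw [Ts y x]; ring
  rw [h4, h5]
  unfold Qo
  ring

theorem two_erase {i j : V} {F : V → ℝ} (F0 : ∀ b, 0 ≤ F b) :
    ∑ b ∈ (U.erase i).erase j, F b ≤ ∑ b ∈ U, F b :=
  Finset.sum_le_sum_of_subset_of_nonneg ((Finset.erase_subset _ _).trans (Finset.erase_subset _ _))
    fun b _ _ => F0 b

theorem quad_erase (T0 : ∀ i j, 0 ≤ T i j) (g0 : ∀ i j, 0 ≤ g i j) (h0 : ∀ i j, 0 ≤ h i j)
    (i j : V) :
    (1 / 2 : ℝ) * ∑ x ∈ (U.erase i).erase j, ∑ y ∈ (U.erase i).erase j,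
        T x y * ((g j x + g j y) * (h i x + h i y))
      ≤ (1 / 2) * ∑ x ∈ U, ∑ y ∈ U, T x y * ((g j x + g j y) * (h i x + h i y)) := by
  have e : ∀ x y, 0 ≤ T x y * ((g j x + g j y) * (h i x + h i y)) := fun x y =>
    mul_nonneg (T0 _ _) (mul_nonneg (add_nonneg (g0 _ _) (g0 _ _)) (add_nonneg (h0 _ _) (h0 _ _)))
  refine mul_le_mul_of_nonneg_left ?_ (by norm_num)
  exact (Finset.sum_le_sum fun x _ => two_erase fun y => e x y).trans
    (two_erase fun x => Finset.sum_nonneg fun y _ => e x y)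

variable {lam Rb : ℝ}

/-- **the form of the right side for `gp`** -/
theorem Bl_Fps (T0 : ∀ i j, 0 ≤ T i j) (Ts : ∀ i j, T i j = T j i)
    (hT : Op U T lam) (hR : ∀ e ∈ U, ∑ b ∈ U, T e b ≤ Rb)
    (p0 : ∀ i j, 0 ≤ p i j) (m0 : ∀ i j, 0 ≤ m i j)
    (w0 : ∀ e ∈ U, 0 ≤ w e) (u0 : ∀ e ∈ U, 0 ≤ u e) :
    Bl U (fun i j => Fps U T p m i j) w u
      ≤ nm U (Ac U T w) * nm U (Ac U m u) + nm U (Ac U m w) * nm U (Ac U T u)
        + (Rb + lam) * (nm U (Ac U p w) * nm U (Ac U p u))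
        + (Rb + lam) * (nm U (Ac U m w) * nm U (Ac U m u)) := by
  have h1 : Bl U (fun i j => Fps U T p m i j) w u
      ≤ Bl U (fun i j => ∑ b ∈ U, T i b * m j b) w u
        + Bl U (fun i j => ∑ b ∈ U, T j b * m i b) w u
        + Bl U (fun i j => (1 / 2) * ∑ x ∈ U, ∑ y ∈ U,
            T x y * ((p j x + p j y) * (p i x + p i y))) w u
        + Bl U (fun i j => (1 / 2) * ∑ x ∈ U, ∑ y ∈ U,
            T x y * ((m j x + m j y) * (m i x + m i y))) w u := by
    rw [← Bl_add, ← Bl_add, ← Bl_add]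
    refine Bl_mono (fun i hi j hj => ?_) w0 u0
    refine (Fps_le T0 p0 m0 i j).trans ?_
    refine add_le_add (add_le_add (add_le_add ?_ ?_) ?_) ?_
    · exact two_erase fun b => mul_nonneg (T0 _ _) (m0 _ _)
    · exact two_erase fun b => mul_nonneg (T0 _ _) (m0 _ _)
    · exact quad_erase T0 p0 p0 i j
    · exact quad_erase T0 m0 m0 i j
  refine h1.trans ?_
  rw [Bl_lin1, Bl_lin2, Bl_quad Ts, Bl_quad Ts]
  refine add_le_add (add_le_add (add_le_add (ip_le _ _ _) (ip_le _ _ _)) ?_) ?_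
  · exact Qo_nm T0 hT hR (fun x _ => Ac_nonneg p0 w0 x) (fun x _ => Ac_nonneg p0 u0 x)
  · exact Qo_nm T0 hT hR (fun x _ => Ac_nonneg m0 w0 x) (fun x _ => Ac_nonneg m0 u0 x)

/-- **the form of the right side for `gm`** -/
theorem Bl_Fms (T0 : ∀ i j, 0 ≤ T i j) (Ts : ∀ i j, T i j = T j i)
    (hT : Op U T lam) (hR : ∀ e ∈ U, ∑ b ∈ U, T e b ≤ Rb)
    (p0 : ∀ i j, 0 ≤ p i j) (m0 : ∀ i j, 0 ≤ m i j)
    (w0 : ∀ e ∈ U, 0 ≤ w e) (u0 : ∀ e ∈ U, 0 ≤ u e) :
    Bl U (fun i j => Fms U T p m i j) w u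
      ≤ nm U (Ac U T w) * nm U (Ac U p u) + nm U (Ac U p w) * nm U (Ac U T u)
        + (Rb + lam) * (nm U (Ac U m w) * nm U (Ac U p u))
        + (Rb + lam) * (nm U (Ac U p w) * nm U (Ac U m u)) := by
  have h1 : Bl U (fun i j => Fms U T p m i j) w u
      ≤ Bl U (fun i j => ∑ b ∈ U, T i b * p j b) w u
        + Bl U (fun i j => ∑ b ∈ U, T j b * p i b) w u
        + Bl U (fun i j => (1 / 2) * ∑ x ∈ U, ∑ y ∈ U,
            T x y * ((p j x + p j y) * (m i x + m i y))) w u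
        + Bl U (fun i j => (1 / 2) * ∑ x ∈ U, ∑ y ∈ U,
            T x y * ((m j x + m j y) * (p i x + p i y))) w u := by
    rw [← Bl_add, ← Bl_add, ← Bl_add]
    refine Bl_mono (fun i hi j hj => ?_) w0 u0
    refine (Fms_le T0 p0 m0 i j).trans ?_
    refine add_le_add (add_le_add (add_le_add ?_ ?_) ?_) ?_
    · exact two_erase fun b => mul_nonneg (T0 _ _) (p0 _ _)
    · exact two_erase fun b => mul_nonneg (T0 _ _) (p0 _ _)
    · exact quad_erase T0 p0 m0 i j
    · exact quad_erase T0 m0 p0 i j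
  refine h1.trans ?_
  rw [Bl_lin1, Bl_lin2, Bl_quad Ts, Bl_quad Ts]
  refine add_le_add (add_le_add (add_le_add (ip_le _ _ _) (ip_le _ _ _)) ?_) ?_
  · exact Qo_nm T0 hT hR (fun x _ => Ac_nonneg m0 w0 x) (fun x _ => Ac_nonneg p0 u0 x)
  · exact Qo_nm T0 hT hR (fun x _ => Ac_nonneg p0 w0 x) (fun x _ => Ac_nonneg m0 u0 x)

/-- entries from the norm -/
theorem Op.ent1 {γ : ℝ} (h : Op U K γ) {e x : V} (he : e ∈ U) (hx : x ∈ U) : K e x ≤ γ := by
  have h1 := h (fun i => if i = e then 1 else 0) (fun i => if i = x then 1 else 0)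
    (fun i _ => by split_ifs <;> norm_num) (fun i _ => by split_ifs <;> norm_num)
  have n : ∀ a ∈ U, nm U (fun i => if i = a then (1 : ℝ) else 0) = 1 := by
    intro a ha
    unfold nm
    have : ∑ i ∈ U, (if i = a then (1 : ℝ) else 0) ^ 2 = 1 := by
      rw [Finset.sum_eq_single a]
      · simp
      · intro b _ hb; simp [hb]
      · exact fun h => absurd ha h
    rw [this, Real.sqrt_one]
  rw [n e he, n x hx] at h1
  simp only [ite_mul, one_mul, zero_mul, mul_ite, mul_one, mul_zero, Finset.sum_ite_eq', he, hx,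
    if_true] at h1
  exact h1

end Pool.Agent.RX.RCM
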