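import Mathlib

/-! The level 1/2 of a cell: right sides and their rows (MP_73ccd0_lc, route M). -/

namespace Pool.Agent.RX.RCM

open Set Finset

set_option linter.unusedSectionVars false

variable {V : Type*} [Fintype V] [DecidableEq V]

/-- the linear part of first order -/
noncomputable def Lf1 (U : Finset V) (T p : V → V → ℝ) (i j : V) : ℝ :=
  ∑ b ∈ (U.erase i).erase j, T i b * p j b + ∑ b ∈ (U.erase i).erase j, T j b * p i b

/-- the quadratic part -/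
noncomputable def qd (U : Finset V) (T p q : V → V → ℝ) (i j : V) : ℝ :=
  (1 / 2) * ∑ x ∈ (U.erase i).erase j, ∑ y ∈ (U.erase i).erase j,
    T x y * ((p j x + p j y) * (q i x + q i y))

/-- right side of the system for `gp` without the source -/
noncomputable def Fp (U : Finset V) (T p m : V → V → ℝ) (i j : V) : ℝ :=
  Lf1 U T m i j + (qd U T p p i j + qd U T m m i j)

/-- right side of the system for `gm` without the source -/
noncomputable def Fm (U : Finset V) (T p m : V → V → ℝ) (i j : V) : ℝ :=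
  Lf1 U T p i j + (qd U T p m i j + qd U T m p i j)

variable {U : Finset V} {T P M Zp Zm p m p' m' q q' g h : V → V → ℝ} {u v w α ρ : V → ℝ}

theorem Lf1_symm (i j : V) : Lf1 U T p i j = Lf1 U T p j i := by
  unfold Lf1
  rw [Finset.erase_right_comm]
  exact add_comm _ _

theorem qd_symm (i j : V) : qd U T p q i j = qd U T q p j i := by
  unfold qd
  rw [Finset.erase_right_comm]
  congr 1
  exact Finset.sum_congr rfl fun x _ => Finset.sum_congr rfl fun y _ => by ring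

theorem Lf1_nonneg (T0 : ∀ i j, 0 ≤ T i j) (p0 : ∀ i j, 0 ≤ p i j) (i j : V) :
    0 ≤ Lf1 U T p i j :=
  add_nonneg (Finset.sum_nonneg fun b _ => mul_nonneg (T0 _ _) (p0 _ _))
    (Finset.sum_nonneg fun b _ => mul_nonneg (T0 _ _) (p0 _ _))

theorem qd_nonneg (T0 : ∀ i j, 0 ≤ T i j) (p0 : ∀ i j, 0 ≤ p i j) (q0 : ∀ i j, 0 ≤ q i j)
    (i j : V) : 0 ≤ qd U T p q i j :=
  mul_nonneg (by norm_num) (Finset.sum_nonneg fun x _ => Finset.sum_nonneg fun y _ =>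
    mul_nonneg (T0 _ _) (mul_nonneg (add_nonneg (p0 _ _) (p0 _ _))
      (add_nonneg (q0 _ _) (q0 _ _))))

theorem Lf1_mono (T0 : ∀ i j, 0 ≤ T i j) (hp : ∀ i j, p i j ≤ p' i j) (i j : V) :
    Lf1 U T p i j ≤ Lf1 U T p' i j :=
  add_le_add (Finset.sum_le_sum fun b _ => mul_le_mul_of_nonneg_left (hp _ _) (T0 _ _))
    (Finset.sum_le_sum fun b _ => mul_le_mul_of_nonneg_left (hp _ _) (T0 _ _))

theorem qd_mono (T0 : ∀ i j, 0 ≤ T i j) (p0 : ∀ i j, 0 ≤ p i j) (q0 : ∀ i j, 0 ≤ q i j)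
    (hp : ∀ i j, p i j ≤ p' i j) (hq : ∀ i j, q i j ≤ q' i j) (i j : V) :
    qd U T p q i j ≤ qd U T p' q' i j :=
  mul_le_mul_of_nonneg_left (Finset.sum_le_sum fun x _ => Finset.sum_le_sum fun y _ =>
    mul_le_mul_of_nonneg_left (mul_le_mul (add_le_add (hp _ _) (hp _ _))
      (add_le_add (hq _ _) (hq _ _)) (add_nonneg (q0 _ _) (q0 _ _))
      (add_nonneg ((p0 _ _).trans (hp _ _)) ((p0 _ _).trans (hp _ _)))) (T0 _ _)) (by norm_num)

theorem Fp_symm (i j : V) : Fp U T p m i j = Fp U T p m j i := by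
  unfold Fp
  rw [Lf1_symm, qd_symm (p := p) (q := p), qd_symm (p := m) (q := m)]

theorem Fm_symm (i j : V) : Fm U T p m i j = Fm U T p m j i := by
  unfold Fm
  rw [Lf1_symm, qd_symm (p := p) (q := m) i j, qd_symm (p := m) (q := p) i j]
  ring

theorem Fp_nonneg (T0 : ∀ i j, 0 ≤ T i j) (p0 : ∀ i j, 0 ≤ p i j) (m0 : ∀ i j, 0 ≤ m i j)
    (i j : V) : 0 ≤ Fp U T p m i j :=
  add_nonneg (Lf1_nonneg T0 m0 i j) (add_nonneg (qd_nonneg T0 p0 p0 i j) (qd_nonneg T0 m0 m0 i j))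

theorem Fp_mono (T0 : ∀ i j, 0 ≤ T i j) (p0 : ∀ i j, 0 ≤ p i j) (m0 : ∀ i j, 0 ≤ m i j)
    (hp : ∀ i j, p i j ≤ p' i j) (hm : ∀ i j, m i j ≤ m' i j) (i j : V) :
    Fp U T p m i j ≤ Fp U T p' m' i j :=
  add_le_add (Lf1_mono T0 hm i j) (add_le_add (qd_mono T0 p0 p0 hp hp i j)
    (qd_mono T0 m0 m0 hm hm i j))

theorem Fm_mono (T0 : ∀ i j, 0 ≤ T i j) (p0 : ∀ i j, 0 ≤ p i j) (m0 : ∀ i j, 0 ≤ m i j)
    (hp : ∀ i j, p i j ≤ p' i j) (hm : ∀ i j, m i j ≤ m' i j) (i j : V) :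
    Fm U T p m i j ≤ Fm U T p' m' i j :=
  add_le_add (Lf1_mono T0 hp i j) (add_le_add (qd_mono T0 p0 m0 hp hm i j)
    (qd_mono T0 m0 p0 hm hp i j))

/-- `Fm` dominates its linear part -/
theorem Lf1_le_Fm (T0 : ∀ i j, 0 ≤ T i j) (p0 : ∀ i j, 0 ≤ p i j) (m0 : ∀ i j, 0 ≤ m i j)
    (i j : V) : Lf1 U T p i j ≤ Fm U T p m i j :=
  le_add_of_nonneg_right (add_nonneg (qd_nonneg T0 p0 m0 i j) (qd_nonneg T0 m0 p0 i j))

theorem Lf1_add (i j : V) : Lf1 U T (fun a b => P a b + Zp a b) i j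
    = Lf1 U T P i j + Lf1 U T Zp i j := by
  unfold Lf1
  have e : ∀ (i j : V), ∑ b ∈ (U.erase i).erase j, T i b * (P j b + Zp j b)
      = ∑ b ∈ (U.erase i).erase j, T i b * P j b
        + ∑ b ∈ (U.erase i).erase j, T i b * Zp j b := fun i j => by
    rw [← Finset.sum_add_distrib]
    exact Finset.sum_congr rfl fun b _ => by ring
  have e' : ∑ b ∈ (U.erase i).erase j, T j b * (P i b + Zp i b)
      = ∑ b ∈ (U.erase i).erase j, T j b * P i b
        + ∑ b ∈ (U.erase i).erase j, T j b * Zp i b := by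
    rw [← Finset.sum_add_distrib]
    exact Finset.sum_congr rfl fun b _ => by ring
  rw [e, e']; ring

section elem

theorem xe1 {z : ℝ} (hz : 0 ≤ z) : 0 ≤ 1 - Real.exp (-z) := by
  have := Real.exp_le_one_iff.2 (by linarith : -z ≤ 0); linarith

theorem xg1 (z : ℝ) : 1 - Real.exp (-z) ≤ z := by
  have := Real.add_one_le_exp (-z); linarith

theorem xm1 {a b c d : ℝ} (ha : 0 ≤ a) (hb : 0 ≤ b) (hc : 0 ≤ c) (hd : 0 ≤ d) :
    max ((1 - Real.exp (-a)) * (1 - Real.exp (-b))) ((1 - Real.exp (-c)) * (1 - Real.exp (-d)))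
      ≤ a * b + c * d := by
  have h1 : (1 - Real.exp (-a)) * (1 - Real.exp (-b)) ≤ a * b :=
    mul_le_mul (xg1 a) (xg1 b) (xe1 hb) ha
  have h2 : (1 - Real.exp (-c)) * (1 - Real.exp (-d)) ≤ c * d :=
    mul_le_mul (xg1 c) (xg1 d) (xe1 hd) hc
  exact max_le (h1.trans (le_add_of_nonneg_right (mul_nonneg hc hd)))
    (h2.trans (le_add_of_nonneg_left (mul_nonneg ha hb)))

end elem

theorem qd_add (i j : V) : qd U T p q i j + qd U T p' q' i j
    = (1 / 2) * ∑ x ∈ (U.erase i).erase j, ∑ y ∈ (U.erase i).erase j,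
      T x y * ((p j x + p j y) * (q i x + q i y) + (p' j x + p' j y) * (q' i x + q' i y)) := by
  unfold qd
  rw [← mul_add, ← Finset.sum_add_distrib]
  congr 1
  refine Finset.sum_congr rfl fun x _ => ?_
  rw [← Finset.sum_add_distrib]
  exact Finset.sum_congr rfl fun y _ => by ring

/-- the right side of the closure of `gp` is below `Fp` -/
theorem le_Fp (T0 : ∀ i j, 0 ≤ T i j) (p0 : ∀ i j, 0 ≤ p i j) (m0 : ∀ i j, 0 ≤ m i j) (i j : V) :
    ∑ b ∈ (U.erase i).erase j, T i b * (1 - Real.exp (-m j b))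
      + ∑ b ∈ (U.erase i).erase j, T j b * (1 - Real.exp (-m i b))
      + (1 / 2) * ∑ x ∈ (U.erase i).erase j, ∑ y ∈ (U.erase i).erase j, T x y *
        (max ((1 - Real.exp (-(p j x + p j y))) * (1 - Real.exp (-(p i x + p i y))))
          ((1 - Real.exp (-(m j x + m j y))) * (1 - Real.exp (-(m i x + m i y)))))
      ≤ Fp U T p m i j := by
  unfold Fp Lf1
  rw [qd_add]
  refine add_le_add (add_le_add ?_ ?_) (mul_le_mul_of_nonneg_left ?_ (by norm_num))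
  · exact Finset.sum_le_sum fun b _ => mul_le_mul_of_nonneg_left (xg1 _) (T0 _ _)
  · exact Finset.sum_le_sum fun b _ => mul_le_mul_of_nonneg_left (xg1 _) (T0 _ _)
  · refine Finset.sum_le_sum fun x _ => Finset.sum_le_sum fun y _ => ?_
    exact mul_le_mul_of_nonneg_left (xm1 (add_nonneg (p0 _ _) (p0 _ _))
      (add_nonneg (p0 _ _) (p0 _ _)) (add_nonneg (m0 _ _) (m0 _ _))
      (add_nonneg (m0 _ _) (m0 _ _))) (T0 _ _)

/-- the right side of the closure of `gm` is below `Fm` -/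
theorem le_Fm (T0 : ∀ i j, 0 ≤ T i j) (p0 : ∀ i j, 0 ≤ p i j) (m0 : ∀ i j, 0 ≤ m i j) (i j : V) :
    ∑ b ∈ (U.erase i).erase j, T i b * (1 - Real.exp (-p j b))
      + ∑ b ∈ (U.erase i).erase j, T j b * (1 - Real.exp (-p i b))
      + (1 / 2) * ∑ x ∈ (U.erase i).erase j, ∑ y ∈ (U.erase i).erase j, T x y *
        (max ((1 - Real.exp (-(p j x + p j y))) * (1 - Real.exp (-(m i x + m i y))))
          ((1 - Real.exp (-(m j x + m j y))) * (1 - Real.exp (-(p i x + p i y)))))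
      ≤ Fm U T p m i j := by
  unfold Fm Lf1
  rw [qd_add]
  refine add_le_add (add_le_add ?_ ?_) (mul_le_mul_of_nonneg_left ?_ (by norm_num))
  · exact Finset.sum_le_sum fun b _ => mul_le_mul_of_nonneg_left (xg1 _) (T0 _ _)
  · exact Finset.sum_le_sum fun b _ => mul_le_mul_of_nonneg_left (xg1 _) (T0 _ _)
  · refine Finset.sum_le_sum fun x _ => Finset.sum_le_sum fun y _ => ?_
    exact mul_le_mul_of_nonneg_left (xm1 (add_nonneg (p0 _ _) (p0 _ _))
      (add_nonneg (m0 _ _) (m0 _ _)) (add_nonneg (m0 _ _) (m0 _ _))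
      (add_nonneg (p0 _ _) (p0 _ _))) (T0 _ _)

/-! ### sums -/

theorem swap_erase {S : Finset V} {F : V → V → ℝ} (F0 : ∀ j ∈ S, ∀ b ∈ S, 0 ≤ F j b) :
    ∑ j ∈ S, ∑ b ∈ S.erase j, F j b ≤ ∑ b ∈ S, ∑ j ∈ S, F j b := by
  rw [Finset.sum_comm (s := S) (t := S)]
  refine Finset.sum_le_sum fun j hj => ?_
  exact Finset.sum_le_sum_of_subset_of_nonneg (Finset.erase_subset _ _) fun b hb _ => F0 j hj b hb

theorem sum_erase_le {S : Finset V} {i : V} {F : V → ℝ} (F0 : ∀ j ∈ S, 0 ≤ F j) :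
    ∑ j ∈ S.erase i, F j ≤ ∑ j ∈ S, F j :=
  Finset.sum_le_sum_of_subset_of_nonneg (Finset.erase_subset _ _) fun b hb _ => F0 b hb

/-- rows of `T g` -/
theorem row1 (T0 : ∀ i j, 0 ≤ T i j) (g0 : ∀ i j, 0 ≤ g i j) (gs : ∀ i j, g i j = g j i)
    (v0 : ∀ i, 0 ≤ v i) (hρ : ∀ b ∈ U, ∑ j ∈ U, g b j * v j ≤ ρ b) (i : V) :
    ∑ j ∈ U.erase i, (∑ b ∈ (U.erase i).erase j, T i b * g j b) * v j
      ≤ ∑ b ∈ U.erase i, T i b * ρ b := by
  have h1 : ∑ j ∈ U.erase i, (∑ b ∈ (U.erase i).erase j, T i b * g j b) * v j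
      = ∑ j ∈ U.erase i, ∑ b ∈ (U.erase i).erase j, T i b * g j b * v j :=
    Finset.sum_congr rfl fun j _ => Finset.sum_mul _ _ _
  rw [h1]
  refine (swap_erase fun j _ b _ => mul_nonneg (mul_nonneg (T0 _ _) (g0 _ _)) (v0 _)).trans ?_
  refine Finset.sum_le_sum fun b hb => ?_
  have h2 : ∑ j ∈ U.erase i, T i b * g j b * v j = T i b * ∑ j ∈ U.erase i, g b j * v j := by
    rw [Finset.mul_sum]
    exact Finset.sum_congr rfl fun j _ => by rw [gs j b]; ring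
  rw [h2]
  exact mul_le_mul_of_nonneg_left ((sum_erase_le fun j _ => mul_nonneg (g0 _ _) (v0 _)).trans
    (hρ b (Finset.mem_of_mem_erase hb))) (T0 _ _)

/-- rows of `g T` -/
theorem row2 (T0 : ∀ i j, 0 ≤ T i j) (Ts : ∀ i j, T i j = T j i) (g0 : ∀ i j, 0 ≤ g i j)
    (v0 : ∀ i, 0 ≤ v i) (i : V) :
    ∑ j ∈ U.erase i, (∑ b ∈ (U.erase i).erase j, T j b * g i b) * v j
      ≤ ∑ b ∈ U.erase i, g i b * ∑ j ∈ U.erase i, T b j * v j := by
  have h1 : ∑ j ∈ U.erase i, (∑ b ∈ (U.erase i).erase j, T j b * g i b) * v j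
      = ∑ j ∈ U.erase i, ∑ b ∈ (U.erase i).erase j, T j b * g i b * v j :=
    Finset.sum_congr rfl fun j _ => Finset.sum_mul _ _ _
  rw [h1]
  refine (swap_erase fun j _ b _ => mul_nonneg (mul_nonneg (T0 _ _) (g0 _ _)) (v0 _)).trans ?_
  refine le_of_eq (Finset.sum_congr rfl fun b _ => ?_)
  rw [Finset.mul_sum]
  exact Finset.sum_congr rfl fun j _ => by rw [Ts j b]; ring

/-- rows of the quadratic part -/
theorem row3 (T0 : ∀ i j, 0 ≤ T i j) (Ts : ∀ i j, T i j = T j i) (g0 : ∀ i j, 0 ≤ g i j)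
    (gs : ∀ i j, g i j = g j i) (h0 : ∀ i j, 0 ≤ h i j)
    (v0 : ∀ i, 0 ≤ v i) (hρ : ∀ b ∈ U, ∑ j ∈ U, g b j * v j ≤ ρ b) (i : V) :
    ∑ j ∈ U.erase i, ((1 / 2) * ∑ x ∈ (U.erase i).erase j, ∑ y ∈ (U.erase i).erase j,
        T x y * ((g j x + g j y) * (h i x + h i y))) * v j
      ≤ ∑ x ∈ U.erase i, h i x * ∑ y ∈ U.erase i, T x y * (ρ x + ρ y) := by
  set S := U.erase i with hS
  have g00 : ∀ j x y, 0 ≤ g j x + g j y := fun j x y => add_nonneg (g0 _ _) (g0 _ _)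
  have h00 : ∀ x y, 0 ≤ h i x + h i y := fun x y => add_nonneg (h0 _ _) (h0 _ _)
  have h1 : ∀ j ∈ S, ((1 / 2) * ∑ x ∈ S.erase j, ∑ y ∈ S.erase j,
        T x y * ((g j x + g j y) * (h i x + h i y))) * v j
      ≤ (1 / 2) * ∑ x ∈ S, ∑ y ∈ S, T x y * ((h i x + h i y) * ((g j x + g j y) * v j)) := by
    intro j _
    have e : ∀ x y, 0 ≤ T x y * ((h i x + h i y) * ((g j x + g j y) * v j)) := fun x y =>
      mul_nonneg (T0 _ _) (mul_nonneg (h00 _ _) (mul_nonneg (g00 _ _ _) (v0 _)))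
    have e2 : ((1 / 2) * ∑ x ∈ S.erase j, ∑ y ∈ S.erase j,
        T x y * ((g j x + g j y) * (h i x + h i y))) * v j
        = (1 / 2) * ∑ x ∈ S.erase j, ∑ y ∈ S.erase j,
          T x y * ((h i x + h i y) * ((g j x + g j y) * v j)) := by
      rw [mul_assoc, Finset.sum_mul]
      congr 1
      refine Finset.sum_congr rfl fun x _ => ?_
      rw [Finset.sum_mul]
      exact Finset.sum_congr rfl fun y _ => by ring
    rw [e2]
    refine mul_le_mul_of_nonneg_left ?_ (by norm_num)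
    refine (Finset.sum_le_sum fun x _ => sum_erase_le fun y _ => e x y).trans ?_
    exact sum_erase_le fun x _ => Finset.sum_nonneg fun y _ => e x y
  refine (Finset.sum_le_sum h1).trans ?_
  have h2 : ∑ j ∈ S, (1 / 2 : ℝ) * ∑ x ∈ S, ∑ y ∈ S,
        T x y * ((h i x + h i y) * ((g j x + g j y) * v j))
      = (1 / 2) * ∑ x ∈ S, ∑ y ∈ S, T x y * ((h i x + h i y) *
          ∑ j ∈ S, (g j x + g j y) * v j) := by
    rw [← Finset.mul_sum, Finset.sum_comm]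
    congr 1
    refine Finset.sum_congr rfl fun x _ => ?_
    rw [Finset.sum_comm]
    refine Finset.sum_congr rfl fun y _ => ?_
    rw [Finset.mul_sum, Finset.mul_sum]
  rw [h2]
  have rb : ∀ x ∈ S, ∑ j ∈ S, g j x * v j ≤ ρ x := fun x hx => by
    have : ∑ j ∈ S, g j x * v j = ∑ j ∈ S, g x j * v j :=
      Finset.sum_congr rfl fun j _ => by rw [gs]
    rw [this]
    exact (sum_erase_le fun j _ => mul_nonneg (g0 _ _) (v0 _)).trans
      (hρ x (Finset.mem_of_mem_erase hx))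
  have h3 : ∑ x ∈ S, ∑ y ∈ S, T x y * ((h i x + h i y) * ∑ j ∈ S, (g j x + g j y) * v j)
      ≤ ∑ x ∈ S, ∑ y ∈ S, T x y * ((h i x + h i y) * (ρ x + ρ y)) := by
    refine Finset.sum_le_sum fun x hx => Finset.sum_le_sum fun y hy => ?_
    refine mul_le_mul_of_nonneg_left (mul_le_mul_of_nonneg_left ?_ (h00 _ _)) (T0 _ _)
    have : ∑ j ∈ S, (g j x + g j y) * v j = ∑ j ∈ S, g j x * v j + ∑ j ∈ S, g j y * v j := by
      rw [← Finset.sum_add_distrib]; exact Finset.sum_congr rfl fun j _ => by ring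
    rw [this]
    exact add_le_add (rb x hx) (rb y hy)
  refine (mul_le_mul_of_nonneg_left h3 (by norm_num)).trans (le_of_eq ?_)
  have h4 : ∑ x ∈ S, ∑ y ∈ S, T x y * ((h i x + h i y) * (ρ x + ρ y))
      = ∑ x ∈ S, ∑ y ∈ S, T x y * (h i x * (ρ x + ρ y))
        + ∑ x ∈ S, ∑ y ∈ S, T x y * (h i y * (ρ x + ρ y)) := by
    rw [← Finset.sum_add_distrib]
    refine Finset.sum_congr rfl fun x _ => ?_
    rw [← Finset.sum_add_distrib]
    exact Finset.sum_congr rfl fun y _ => by ring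
  have h5 : ∑ x ∈ S, ∑ y ∈ S, T x y * (h i y * (ρ x + ρ y))
      = ∑ x ∈ S, ∑ y ∈ S, T x y * (h i x * (ρ x + ρ y)) := by
    rw [Finset.sum_comm]
    refine Finset.sum_congr rfl fun x _ => Finset.sum_congr rfl fun y _ => ?_
    rw [Ts y x]; ring
  rw [h4, h5]
  have h6 : ∑ x ∈ S, h i x * ∑ y ∈ S, T x y * (ρ x + ρ y)
      = ∑ x ∈ S, ∑ y ∈ S, T x y * (h i x * (ρ x + ρ y)) := by
    refine Finset.sum_congr rfl fun x _ => ?_
    rw [Finset.mul_sum]
    exact Finset.sum_congr rfl fun y _ => by ring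
  rw [h6]
  ring

end Pool.Agent.RX.RCM
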