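import Pool.Agent.RX.RCM.GPa

/-! The level 1/2 of a cell: existence with row bounds (MP_73ccd0_lc, route M). -/

namespace Pool.Agent.RX.RCM

open Set Finset Filter Topology

set_option linter.unusedSectionVars false

variable {V : Type*} [Fintype V] [DecidableEq V]

/-- right side of the Picard iteration for the remainders -/
noncomputable def Rg (U : Finset V) (T : ℝ → V → V → ℝ) (P M : V → V → ℝ → ℝ) (r : ℝ)
    (u : Bool × V × V → ℝ) (k : Bool × V × V) : ℝ :=
  if k.2.1 ∈ U ∧ k.2.2 ∈ U ∧ k.2.1 ≠ k.2.2 then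
    if k.1 = true then
      Fp U (T r) (fun a b => P a b r + u (true, a, b)) (fun a b => M a b r + u (false, a, b))
        k.2.1 k.2.2
    else
      Fm U (T r) (fun a b => P a b r + u (true, a, b)) (fun a b => M a b r + u (false, a, b))
        k.2.1 k.2.2 - Lf1 U (T r) (fun a b => P a b r) k.2.1 k.2.2
  else 0

variable {I J : Type*}

variable {i0 : I} {j0 : J} {U : Finset V} {τ : ℝ} {T : ℝ → V → V → ℝ} {P M : V → V → ℝ → ℝ} {v : I → V → ℝ} {w : J → V → ℝ → ℝ} {α : I → V → ℝ → ℝ}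

theorem Rg_symm (r : ℝ) (u : Bool × V × V → ℝ) (b : Bool) (x y : V) :
    Rg U T P M r u (b, x, y) = Rg U T P M r u (b, y, x) := by
  unfold Rg
  simp only
  by_cases hk : x ∈ U ∧ y ∈ U ∧ x ≠ y
  · have hk' : y ∈ U ∧ x ∈ U ∧ y ≠ x := ⟨hk.2.1, hk.1, hk.2.2.symm⟩
    simp only [if_pos hk, if_pos hk']
    by_cases hb : b = true
    · simp only [if_pos hb]; rw [Fp_symm]
    · simp only [if_neg hb]; rw [Fm_symm, Lf1_symm]
  · rw [if_neg hk, if_neg fun hh => hk ⟨hh.2.1, hh.1, hh.2.2.symm⟩]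

theorem Rg_diag (r : ℝ) (u : Bool × V × V → ℝ) (b : Bool) (x : V) :
    Rg U T P M r u (b, x, x) = 0 := by
  unfold Rg; simp

theorem Rg_off (r : ℝ) (u : Bool × V × V → ℝ) (b : Bool) {x : V} (hx : x ∉ U) (y : V) :
    Rg U T P M r u (b, x, y) = 0 := by
  unfold Rg; simp [hx]

end Pool.Agent.RX.RCM
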