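import Pool.Agent.RX.RCM.GPa
import Pool.Agent.RX.RCM.MonoB

/-! The level 1/2 of a cell: the leading parts and the solution (MP_73ccd0_lc, route M). -/

namespace Pool.Agent.RX.RCM

open Set Finset Filter Topology

set_option linter.unusedSectionVars false

variable {V : Type*} [Fintype V] [DecidableEq V]

/-- leading part of `gp` -/
noncomputable def Pd (A : ℝ → V → V → ℝ) (τ : ℝ) (i j : V) : ℝ → ℝ := bk (fun r => A r i j) τ

/-- leading part of `gm` -/
noncomputable def Md (U : Finset V) (T A B : ℝ → V → V → ℝ) (τ : ℝ) (i j : V) : ℝ → ℝ :=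
  bk (fun r => if i = j then 0 else B r i j + Lf1 U (T r) (fun a b => Pd A τ a b r) i j) τ

/-- regularity of the data of a cell -/
structure Rd (τ : ℝ) (T A B : ℝ → V → V → ℝ) : Prop where
  τ0 : 0 ≤ τ
  cT : ∀ i j, ContinuousOn (fun r => T r i j) (Icc 0 τ)
  cA : ∀ i j, ContinuousOn (fun r => A r i j) (Icc 0 τ)
  cB : ∀ i j, ContinuousOn (fun r => B r i j) (Icc 0 τ)
  T0 : ∀ r ∈ Icc 0 τ, ∀ i j, 0 ≤ T r i j
  A0 : ∀ r ∈ Icc 0 τ, ∀ i j, 0 ≤ A r i j
  B0 : ∀ r ∈ Icc 0 τ, ∀ i j, 0 ≤ B r i j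
  Ts : ∀ r i j, T r i j = T r j i
  As : ∀ r i j, A r i j = A r j i
  Bs : ∀ r i j, B r i j = B r j i
  Tz : ∀ r i, T r i i = 0
  Az : ∀ r i, A r i i = 0

variable {U : Finset V} {τ : ℝ} {T A B : ℝ → V → V → ℝ}

namespace Rd

theorem dP (h : Rd τ T A B) (i j : V) {r : ℝ} (hr : r ∈ Icc 0 τ) :
    HasDerivAt (Pd A τ i j) (-A r i j) r := bk_deriv h.τ0 (h.cA i j) hr

theorem cP (h : Rd τ T A B) (i j : V) : ContinuousOn (Pd A τ i j) (Icc 0 τ) := fun _ hr =>
  (h.dP i j hr).continuousAt.continuousWithinAt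

theorem cI (h : Rd τ T A B) (i j : V) : ContinuousOn (fun r => if i = j then 0 else
    B r i j + Lf1 U (T r) (fun a b => Pd A τ a b r) i j) (Icc 0 τ) := by
  by_cases hij : i = j
  · simp only [if_pos hij]; exact continuousOn_const
  · simp only [if_neg hij]
    unfold Lf1
    exact (h.cB i j).add ((continuousOn_finsetSum _ fun b _ => (h.cT _ _).mul (h.cP _ _)).add
      (continuousOn_finsetSum _ fun b _ => (h.cT _ _).mul (h.cP _ _)))

theorem dM (h : Rd τ T A B) (i j : V) {r : ℝ} (hr : r ∈ Icc 0 τ) :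
    HasDerivAt (Md U T A B τ i j) (-(if i = j then 0 else
      B r i j + Lf1 U (T r) (fun a b => Pd A τ a b r) i j)) r := bk_deriv h.τ0 (h.cI i j) hr

theorem cM (h : Rd τ T A B) (i j : V) : ContinuousOn (Md U T A B τ i j) (Icc 0 τ) := fun _ hr =>
  (h.dM i j hr).continuousAt.continuousWithinAt

theorem P0 (h : Rd τ T A B) (i j : V) {r : ℝ} (hr : r ∈ Icc 0 τ) : 0 ≤ Pd A τ i j r :=
  bk_nonneg hr fun z hz => h.A0 z hz i j

theorem Ps (h : Rd τ T A B) (i j : V) : Pd A τ i j = Pd A τ j i := by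
  unfold Pd
  congr 1
  exact funext fun r => h.As r i j

theorem Pz (h : Rd τ T A B) (i : V) (r : ℝ) : Pd A τ i i r = 0 := by
  unfold Pd bk
  simp [h.Az]

theorem M0 (h : Rd τ T A B) (i j : V) {r : ℝ} (hr : r ∈ Icc 0 τ) : 0 ≤ Md U T A B τ i j r := by
  refine bk_nonneg hr fun z hz => ?_
  split_ifs
  · exact le_rfl
  · refine add_nonneg (h.B0 z hz i j) ?_
    unfold Lf1
    exact add_nonneg (Finset.sum_nonneg fun b _ => mul_nonneg (h.T0 z hz _ _) (h.P0 _ _ hz))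
      (Finset.sum_nonneg fun b _ => mul_nonneg (h.T0 z hz _ _) (h.P0 _ _ hz))

theorem Ms (h : Rd τ T A B) (i j : V) : Md U T A B τ i j = Md U T A B τ j i := by
  unfold Md
  congr 1
  funext r
  by_cases hij : i = j
  · rw [if_pos hij, if_pos hij.symm]
  · rw [if_neg hij, if_neg fun e => hij e.symm, h.Bs, Lf1_symm]

theorem Mz (i : V) (r : ℝ) : Md U T A B τ i i r = 0 := by
  unfold Md bk
  simp

end Rd

variable {I J : Type*} {i0 : I} {j0 : J} {v : I → V → ℝ} {w : J → V → ℝ → ℝ} {α : I → V → ℝ → ℝ}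

end Pool.Agent.RX.RCM
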