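import Pool.Agent.RX.RCM.GPa
import Pool.Agent.RX.RCM.LevZ

/-! The level 1/2 of a cell: row facts at a fixed time from functions of the weight to the base set
(MP_73ccd0_lc, route M). -/

namespace Pool.Agent.RX.RCM

open Set Finset

set_option linter.unusedSectionVars false
set_option linter.unusedVariables false

variable {V : Type*} [Fintype V] [DecidableEq V]

/-- `e k * (cap - k) = (1 - k) * g k` -/
def eK (cap : ℕ) (k : ℝ) : ℝ := if cap = 1 then 1 else 1 - k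

def gK (cap : ℕ) (k : ℝ) : ℝ := if cap = 1 then 1 else 2 - k

theorem eK_gK {cap : ℕ} (hc : cap = 1 ∨ cap = 2) (k : ℝ) :
    eK cap k * (cap - k) = (1 - k) * gK cap k := by
  unfold eK gK
  rcases hc with rfl | rfl
  · norm_num
  · norm_num

theorem eK0 {cap : ℕ} {k : ℝ} (h1 : k ≤ 1) : 0 ≤ eK cap k := by
  unfold eK; split_ifs <;> linarith

/-- the graph data: weights, base set of cardinality at most `cap` -/
structure Gr (x : V → V → ℝ) (D : Finset V) (cap : ℕ) : Prop where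
  wt : Wt x
  cd : D.card ≤ cap
  cap12 : cap = 1 ∨ cap = 2

namespace Gr

variable {x : V → V → ℝ} {D : Finset V} {cap : ℕ}

theorem k0 (h : Gr x D cap) (e : V) : 0 ≤ kx x D e := kx0 h.wt D e

theorem k1 (h : Gr x D cap) (e : V) : kx x D e ≤ 1 := kx1 h.wt D e

theorem row (h : Gr x D cap) (e : V) : ∑ b ∈ Dᶜ, x e b ≤ 1 - kx x D e := by
  linarith [row_U h.wt D e]

theorem pair (h : Gr x D cap) (e : V) {b : V} (hb : b ∈ Dᶜ) : x e b + kx x D e ≤ 1 :=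
  x_add_kx h.wt D hb

theorem pair' (h : Gr x D cap) {e : V} (b : V) (he : e ∈ Dᶜ) : x e b + kx x D b ≤ 1 := by
  rw [h.wt.symm e b]; exact h.pair b he

theorem sumk (h : Gr x D cap) {e : V} (he : e ∈ Dᶜ) :
    ∑ b ∈ Dᶜ.erase e, kx x D b ≤ cap - kx x D e := by
  have h1 := sum_kx h.wt D Dᶜ
  rw [← Finset.add_sum_erase Dᶜ _ he] at h1
  have h2 : (D.card : ℝ) ≤ cap := by exact_mod_cast h.cd
  linarith

/-- the one step linear program -/
theorem lp (h : Gr x D cap) {e : V} (he : e ∈ Dᶜ) {F : V → ℝ} {α β : ℝ} (α0 : 0 ≤ α) (β0 : 0 ≤ β)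
    (hF : ∀ b ∈ Dᶜ.erase e, F b ≤ α * x e b + eK cap (kx x D e) * β * kx x D b) :
    ∑ b ∈ Dᶜ.erase e, F b ≤ (1 - kx x D e) * (α + gK cap (kx x D e) * β) := by
  have h1 : ∑ b ∈ Dᶜ.erase e, F b
      ≤ ∑ b ∈ Dᶜ.erase e, (α * x e b + eK cap (kx x D e) * β * kx x D b) :=
    Finset.sum_le_sum hF
  rw [Finset.sum_add_distrib, ← Finset.mul_sum, ← Finset.mul_sum] at h1
  have h2 : ∑ b ∈ Dᶜ.erase e, x e b ≤ 1 - kx x D e :=
    (sum_erase_le fun b _ => h.wt.nn e b).trans (h.row e)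
  have h3 := h.sumk he
  have h4 := mul_le_mul_of_nonneg_left h2 α0
  have h5 := mul_le_mul_of_nonneg_left h3 (mul_nonneg (eK0 (cap := cap) (h.k1 e)) β0)
  have h6 := eK_gK h.cap12 (kx x D e)
  have h7 : eK cap (kx x D e) * β * (cap - kx x D e) = (1 - kx x D e) * (gK cap (kx x D e) * β) := by
    calc eK cap (kx x D e) * β * (cap - kx x D e)
        = β * (eK cap (kx x D e) * (cap - kx x D e)) := by ring
      _ = β * ((1 - kx x D e) * gK cap (kx x D e)) := by rw [h6]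
      _ = _ := by ring
  rw [h7] at h5
  have h8 : (1 - kx x D e) * (α + gK cap (kx x D e) * β)
      = α * (1 - kx x D e) + (1 - kx x D e) * (gK cap (kx x D e) * β) := by ring
  rw [h8]
  linarith

theorem erase_sum (h : Gr x D cap) (e : V) (f : V → ℝ) :
    ∑ b ∈ Dᶜ, x e b * f b = ∑ b ∈ Dᶜ.erase e, x e b * f b := by
  rw [Finset.sum_erase]
  rw [h.wt.diag, zero_mul]

end Gr

/-- scalar functions at a fixed time: functions of the weight `k` to the base set -/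
structure Fx where
  f : ℝ → ℝ
  B : ℝ → ℝ
  Pi : ℝ → ℝ → ℝ
  Pb : ℝ → ℝ
  Mb : ℝ → ℝ
  s1 : ℝ
  bB : ℝ
  r1 : ℝ
  a : ℝ
  aw : ℝ
  SE : ℝ
  k21 : ℝ
  l1s : ℝ
  l1w : ℝ

section rows

variable {x : V → V → ℝ} {D : Finset V} {cap : ℕ} {c : Fx}

theorem Gr.ks (h : Gr x D cap) (e : V) : kx x D e ∈ Icc (0 : ℝ) 1 := ⟨h.k0 e, h.k1 e⟩

/-- the kernel at a fixed time -/
structure Tk (x : V → V → ℝ) (D : Finset V) (T : V → V → ℝ) (f : ℝ → ℝ) (m : ℝ) : Prop where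
  T0 : ∀ i j, 0 ≤ T i j
  Ts : ∀ i j, T i j = T j i
  Tz : ∀ i, T i i = 0
  m0 : 0 ≤ m
  le : ∀ i ∈ Dᶜ, ∀ j ∈ Dᶜ, T i j ≤ m * x i j * (f (kx x D i) * f (kx x D j))

variable {T P M : V → V → ℝ} {m : ℝ}

/-- a bounded test function -/
theorem Gr.row_sup (h : Gr x D cap) {g : V → ℝ} {G : ℝ} (hg : ∀ b ∈ Dᶜ, g b ≤ G) (G0 : 0 ≤ G)
    (i : V) : ∑ b ∈ Dᶜ, x i b * g b ≤ (1 - kx x D i) * G := by
  calc ∑ b ∈ Dᶜ, x i b * g b ≤ ∑ b ∈ Dᶜ, x i b * G :=
        Finset.sum_le_sum fun b hb => mul_le_mul_of_nonneg_left (hg b hb) (h.wt.nn _ _)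
    _ = (∑ b ∈ Dᶜ, x i b) * G := (Finset.sum_mul _ _ _).symm
    _ ≤ _ := mul_le_mul_of_nonneg_right (h.row i) G0

end rows

end Pool.Agent.RX.RCM
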