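import Pool.Agent.RX.RCM.LevZ

/-! The level 1/2 of a cell: the static facts for the two tests and the two weights
(MP_73ccd0_lc, route M). -/

namespace Pool.Agent.RX.RCM

open Set Finset

set_option linter.unusedSectionVars false
set_option linter.unusedVariables false

variable {V : Type*} [Fintype V] [DecidableEq V]
variable {x : V → V → ℝ} {D : Finset V} {cap : ℕ} {T P M : V → V → ℝ} {m : ℝ}

/-- the leading part of `gp` at a fixed time -/
structure Pk (x : V → V → ℝ) (D : Finset V) (P : V → V → ℝ) (Pi : ℝ → ℝ → ℝ) : Prop where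
  P0 : ∀ i j, 0 ≤ P i j
  Ps : ∀ i j, P i j = P j i
  le : ∀ i ∈ Dᶜ, ∀ j ∈ Dᶜ, P i j ≤ x i j * Pi (kx x D i) (kx x D j)

end Pool.Agent.RX.RCM
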