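import Pool.Agent.RX.RCM.GQa
import Pool.Agent.RX.RCM.GQb

/-! The level 1/2 of a cell: rows of the leading part of `gm` at a fixed time
(MP_73ccd0_lc, route M). -/

namespace Pool.Agent.RX.RCM

open Set Finset

set_option linter.unusedSectionVars false
set_option linter.unusedVariables false

variable {V : Type*} [Fintype V] [DecidableEq V]
variable {x : V → V → ℝ} {D : Finset V} {cap : ℕ} {T P : V → V → ℝ} {m : ℝ}

theorem sum_swap_erase {S : Finset V} (F : V → V → ℝ) :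
    ∑ j ∈ S, ∑ b ∈ S.erase j, F j b = ∑ b ∈ S, ∑ j ∈ S.erase b, F j b := by
  refine Finset.sum_comm' fun j b => ?_
  simp only [Finset.mem_erase]
  constructor
  · rintro ⟨h1, h2, h3⟩; exact ⟨⟨h2.symm, h1⟩, h3⟩
  · rintro ⟨⟨h1, h2⟩, h3⟩; exact ⟨h2, h1.symm, h3⟩

/-- the remaining mass of a neighbour -/
theorem Gr.rem (h : Gr x D cap) {i b : V} (hi : i ∈ Dᶜ) (hb : b ∈ Dᶜ.erase i) :
    ∑ j ∈ (Dᶜ.erase i).erase b, x b j ≤ 1 - kx x D b - x i b := by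
  have h1 := h.row b
  have h2 : ∑ j ∈ Dᶜ, x b j = x b i + ∑ j ∈ Dᶜ.erase i, x b j :=
    (Finset.add_sum_erase _ _ hi).symm
  have h3 : ∑ j ∈ (Dᶜ.erase i).erase b, x b j ≤ ∑ j ∈ Dᶜ.erase i, x b j :=
    sum_erase_le fun j _ => h.wt.nn _ _
  rw [h.wt.symm i b]
  linarith

/-- **rows of `B + Lf1 U T P`** -/
theorem m1_row (h : Gr x D cap) {f : ℝ → ℝ} {Pi : ℝ → ℝ → ℝ} (hT : Tk x D T f m)
    (hP : Pk x D P Pi) (f0 : ∀ k ∈ Icc (0 : ℝ) 1, 0 ≤ f k)
    (Pi0 : ∀ k ∈ Icc (0 : ℝ) 1, ∀ l ∈ Icc (0 : ℝ) 1, 0 ≤ Pi k l)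
    {n : V → ℝ} {B : V → V → ℝ} {ψ : ℝ → ℝ} (n0 : ∀ e, 0 ≤ n e)
    (hn : ∀ e ∈ Dᶜ, n e ≤ ∑ g ∈ Dᶜ, x e g * ψ (kx x D g))
    {i : V} (hi : i ∈ Dᶜ) (hB : ∀ j ∈ Dᶜ, B i j ≤ m * x i j * (n i + n j))
    {Q : ℝ → ℝ → ℝ} {R : ℝ → ℝ} {α β : ℝ} (α0 : 0 ≤ α) (β0 : 0 ≤ β)
    (Q0 : ∀ y κ, 0 ≤ y → 0 ≤ κ → y + κ ≤ 1 → 0 ≤ Q y κ) (R0 : ∀ l ∈ Icc (0 : ℝ) 1, 0 ≤ R l)
    (hQ : ∀ κ ∈ Icc (0 : ℝ) 1, ∀ l ∈ Icc (0 : ℝ) 1, ∀ y, 0 ≤ y → y + κ ≤ 1 →
      y + kx x D i ≤ 1 → y * (ψ l + (f (kx x D i) * f κ * Pi κ l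
        + Pi (kx x D i) κ * (f κ * f l))) ≤ Q y κ + R l)
    (hF : ∀ y κ, 0 ≤ y → 0 ≤ κ → y + κ ≤ 1 → y + kx x D i ≤ 1 →
      y * ((1 - kx x D i) * ψ κ + y * ψ (kx x D i)) + (Q y κ + R κ) * (1 - κ - y)
        ≤ α * y + eK cap (kx x D i) * β * κ) :
    ∑ j ∈ Dᶜ.erase i, (B i j + Lf1 Dᶜ T P i j)
      ≤ m * ((1 - kx x D i) * (α + gK cap (kx x D i) * β)) := by
  set S := Dᶜ.erase i with hS
  set k := kx x D i with hk
  have mS : ∀ {b}, b ∈ S → b ∈ Dᶜ := fun hb => Finset.mem_of_mem_erase hb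
  have m0 := hT.m0
  have x0 : ∀ a b, 0 ≤ x a b := h.wt.nn
  have rowS : ∑ j ∈ S, x i j ≤ 1 - k := (sum_erase_le fun j _ => x0 i j).trans (h.row i)
  have n1 : 0 ≤ 1 - k := by linarith [h.k1 i]
  have ci : k ∈ Icc (0 : ℝ) 1 := h.ks i
  -- the part `B`
  have hB1 : ∑ j ∈ S, B i j ≤ m * (∑ b ∈ S, x i b * ((1 - k) * ψ (kx x D b) + x i b * ψ k)
      + ∑ b ∈ S, ∑ j ∈ S.erase b, x b j * (x i b * ψ (kx x D j))) := by
    have a1 : ∑ j ∈ S, B i j ≤ m * (∑ j ∈ S, x i j * n i + ∑ j ∈ S, x i j * n j) := by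
      rw [← Finset.sum_add_distrib, Finset.mul_sum]
      refine Finset.sum_le_sum fun j hj => (hB j (mS hj)).trans (le_of_eq (by ring))
    have a2 : ∑ j ∈ S, x i j * n i ≤ ∑ b ∈ S, x i b * ((1 - k) * ψ (kx x D b)) := by
      rw [← Finset.sum_mul]
      have b1 := mul_le_mul_of_nonneg_right rowS (n0 i)
      have b2 := mul_le_mul_of_nonneg_left (hn i hi) n1
      refine b1.trans (b2.trans (le_of_eq ?_))
      rw [h.erase_sum i fun g => ψ (kx x D g), Finset.mul_sum]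
      exact Finset.sum_congr rfl fun b _ => by ring
    have a3 : ∑ j ∈ S, x i j * n j ≤ ∑ b ∈ S, x i b * (x i b * ψ k)
        + ∑ b ∈ S, ∑ j ∈ S.erase b, x b j * (x i b * ψ (kx x D j)) := by
      rw [← Finset.sum_add_distrib]
      refine Finset.sum_le_sum fun b hb => ?_
      have b1 := mul_le_mul_of_nonneg_left (hn b (mS hb)) (x0 i b)
      refine b1.trans (le_of_eq ?_)
      rw [← Finset.add_sum_erase Dᶜ _ hi, ← hS, ← Finset.add_sum_erase S _ hb, h.wt.diag,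
        h.wt.symm b i, mul_add, mul_add, Finset.mul_sum]
      rw [zero_mul, mul_zero, zero_add]
      congr 1
      exact Finset.sum_congr rfl fun j _ => by ring
    refine a1.trans (mul_le_mul_of_nonneg_left ?_ m0)
    have a4 : ∑ b ∈ S, x i b * ((1 - k) * ψ (kx x D b) + x i b * ψ k)
        = ∑ b ∈ S, x i b * ((1 - k) * ψ (kx x D b)) + ∑ b ∈ S, x i b * (x i b * ψ k) := by
      rw [← Finset.sum_add_distrib]; exact Finset.sum_congr rfl fun b _ => by ring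
    rw [a4]
    linarith
  -- the linear part
  have hL1 : ∑ j ∈ S, Lf1 Dᶜ T P i j ≤ m * ∑ b ∈ S, ∑ j ∈ S.erase b, x b j * (x i b
      * (f k * f (kx x D b) * Pi (kx x D b) (kx x D j)
        + Pi k (kx x D b) * (f (kx x D b) * f (kx x D j)))) := by
    have a1 : ∑ j ∈ S, Lf1 Dᶜ T P i j
        = ∑ b ∈ S, ∑ j ∈ S.erase b, (T i b * P j b + T j b * P i b) := by
      rw [← sum_swap_erase fun j b => T i b * P j b + T j b * P i b]
      refine Finset.sum_congr rfl fun j _ => ?_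
      unfold Lf1
      rw [← Finset.sum_add_distrib, ← hS]
    rw [a1, Finset.mul_sum]
    refine Finset.sum_le_sum fun b hb => ?_
    rw [Finset.mul_sum]
    refine Finset.sum_le_sum fun j hj => ?_
    have hj' : j ∈ Dᶜ := mS (Finset.mem_of_mem_erase hj)
    have cb := h.ks b
    have cj := h.ks j
    have b1 := hT.le i hi b (mS hb)
    have b2 := hP.le b (mS hb) j hj'
    have b3 := hT.le b (mS hb) j hj'
    have b4 := hP.le i hi b (mS hb)
    have c1 : T i b * P j b ≤ m * x i b * (f k * f (kx x D b))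
        * (x b j * Pi (kx x D b) (kx x D j)) := by
      rw [hP.Ps j b]
      exact mul_le_mul b1 b2 (hP.P0 _ _) (mul_nonneg (mul_nonneg m0 (x0 _ _))
        (mul_nonneg (f0 _ ci) (f0 _ cb)))
    have c2 : T j b * P i b ≤ m * x b j * (f (kx x D b) * f (kx x D j))
        * (x i b * Pi k (kx x D b)) := by
      rw [hT.Ts j b]
      exact mul_le_mul b3 b4 (hP.P0 _ _) (mul_nonneg (mul_nonneg m0 (x0 _ _))
        (mul_nonneg (f0 _ cb) (f0 _ cj)))
    refine (add_le_add c1 c2).trans (le_of_eq (by ring))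
  have hsum : ∑ j ∈ S, (B i j + Lf1 Dᶜ T P i j)
      = ∑ j ∈ S, B i j + ∑ j ∈ S, Lf1 Dᶜ T P i j := Finset.sum_add_distrib
  rw [hsum]
  -- pointwise splitting
  have hpt : ∑ b ∈ S, ∑ j ∈ S.erase b, x b j * (x i b * ψ (kx x D j))
      + ∑ b ∈ S, ∑ j ∈ S.erase b, x b j * (x i b
        * (f k * f (kx x D b) * Pi (kx x D b) (kx x D j)
          + Pi k (kx x D b) * (f (kx x D b) * f (kx x D j))))
      ≤ ∑ b ∈ S, (Q (x i b) (kx x D b) + R (kx x D b)) * (1 - kx x D b - x i b) := by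
    have a1 : ∑ b ∈ S, ∑ j ∈ S.erase b, x b j * (x i b * ψ (kx x D j))
        + ∑ b ∈ S, ∑ j ∈ S.erase b, x b j * (x i b
          * (f k * f (kx x D b) * Pi (kx x D b) (kx x D j)
            + Pi k (kx x D b) * (f (kx x D b) * f (kx x D j))))
        ≤ ∑ b ∈ S, ∑ j ∈ S.erase b, (x b j * Q (x i b) (kx x D b) + x b j * R (kx x D j)) := by
      rw [← Finset.sum_add_distrib]
      refine Finset.sum_le_sum fun b hb => ?_
      rw [← Finset.sum_add_distrib]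
      refine Finset.sum_le_sum fun j hj => ?_
      have hb1 : x i b + kx x D b ≤ 1 := h.pair' b hi
      have hb2 : x i b + k ≤ 1 := h.pair i (mS hb)
      have := mul_le_mul_of_nonneg_left (hQ _ (h.ks b) _ (h.ks j) _ (x0 i b) hb1 hb2) (x0 b j)
      refine le_trans (le_of_eq (by ring)) (this.trans (le_of_eq (by ring)))
    refine a1.trans ?_
    have a2 : ∑ b ∈ S, ∑ j ∈ S.erase b, (x b j * Q (x i b) (kx x D b) + x b j * R (kx x D j))
        = ∑ b ∈ S, (∑ j ∈ S.erase b, x b j) * Q (x i b) (kx x D b)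
          + ∑ j ∈ S, (∑ b ∈ S.erase j, x b j) * R (kx x D j) := by
      have e1 : ∑ j ∈ S, (∑ b ∈ S.erase j, x b j) * R (kx x D j)
          = ∑ b ∈ S, ∑ j ∈ S.erase b, x b j * R (kx x D j) := by
        rw [sum_swap_erase fun b j => x b j * R (kx x D j)]
        exact Finset.sum_congr rfl fun j _ => Finset.sum_mul _ _ _
      rw [e1, ← Finset.sum_add_distrib]
      refine Finset.sum_congr rfl fun b _ => ?_
      rw [Finset.sum_mul, ← Finset.sum_add_distrib]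
    rw [a2, ← Finset.sum_add_distrib]
    refine Finset.sum_le_sum fun b hb => ?_
    have hb1 : x i b + kx x D b ≤ 1 := h.pair' b hi
    have c1 := h.rem hi hb
    have c2 : ∑ j ∈ S.erase b, x j b ≤ 1 - kx x D b - x i b := by
      refine le_trans (le_of_eq (Finset.sum_congr rfl fun j _ => h.wt.symm j b)) c1
    have d1 := mul_le_mul_of_nonneg_right c1 (Q0 _ _ (x0 i b) (h.k0 b) hb1)
    have d2 := mul_le_mul_of_nonneg_right c2 (R0 _ (h.ks b))
    linarith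
  have hfin : ∑ b ∈ S, x i b * ((1 - k) * ψ (kx x D b) + x i b * ψ k)
      + ∑ b ∈ S, (Q (x i b) (kx x D b) + R (kx x D b)) * (1 - kx x D b - x i b)
      ≤ (1 - k) * (α + gK cap k * β) := by
    rw [← Finset.sum_add_distrib]
    exact h.lp hi α0 β0 fun b hb => hF _ _ (x0 i b) (h.k0 b) (h.pair' b hi) (h.pair i (mS hb))
  have := mul_le_mul_of_nonneg_left (add_le_add (le_refl
    (∑ b ∈ S, x i b * ((1 - k) * ψ (kx x D b) + x i b * ψ k))) hpt) m0
  have h2 := mul_le_mul_of_nonneg_left hfin m0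
  have e : m * (∑ b ∈ S, x i b * ((1 - k) * ψ (kx x D b) + x i b * ψ k)
      + ∑ b ∈ S, ∑ j ∈ S.erase b, x b j * (x i b * ψ (kx x D j)))
      + m * ∑ b ∈ S, ∑ j ∈ S.erase b, x b j * (x i b
        * (f k * f (kx x D b) * Pi (kx x D b) (kx x D j)
          + Pi k (kx x D b) * (f (kx x D b) * f (kx x D j))))
      = m * (∑ b ∈ S, x i b * ((1 - k) * ψ (kx x D b) + x i b * ψ k)
        + (∑ b ∈ S, ∑ j ∈ S.erase b, x b j * (x i b * ψ (kx x D j))
          + ∑ b ∈ S, ∑ j ∈ S.erase b, x b j * (x i b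
            * (f k * f (kx x D b) * Pi (kx x D b) (kx x D j)
              + Pi k (kx x D b) * (f (kx x D b) * f (kx x D j)))))) := by ring
  linarith

end Pool.Agent.RX.RCM
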