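import Pool.Agent.RX.RCM.GPd
import Pool.Agent.RX.RCM.GQa
import Pool.Agent.RX.RCM.Pic
import Pool.Agent.RX.RCM.WldV

/-! The level 1/2 of a cell in the clock variable: the leading parts (MP_73ccd0_lc, route M). -/

namespace Pool.Agent.RX.RCM

open Set Finset

set_option linter.unusedSectionVars false
set_option linter.unusedVariables false

variable {V : Type*} [Fintype V] [DecidableEq V]

theorem L0s.nxc {hb : ℝ → V → V → ℝ} {x : V → V → ℝ} {D : Finset V} {t : ℝ} {mb : ℝ → ℝ}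
    {θ : V → ℝ → ℝ} {Y Y' N N' : ℝ → ℝ} (hL : L0s hb x D t mb θ Y Y' N N') (h0 : 0 ≤ t) (e : V) :
    ContinuousOn (nx hb x D θ Y t e) (Icc 0 t) := by
  by_cases he : e ∈ D
  · refine (continuousOn_const (c := (0 : ℝ))).congr fun r _ => ?_
    unfold nx
    rw [if_pos he]
  · rw [nx_eq (Finset.mem_compl.2 he)]
    exact nv_cont h0 hL.bc (hL.yx_cont h0) _ e

/-- functions for the rows of a leading part of level 1/2 -/
structure Mf where
  Mb : ℝ → ℝ → ℝ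
  Mb' : ℝ → ℝ → ℝ
  al : ℝ → ℝ → ℝ
  be : ℝ → ℝ → ℝ
  Q : ℝ → ℝ → ℝ → ℝ → ℝ
  R : ℝ → ℝ → ℝ → ℝ

/-- the clock of a cell -/
structure Ck (U : ℝ) (Yb : ℝ → ℝ) (D : Finset V) (τ : ℝ) (mb : ℝ → ℝ) (θ : V → ℝ → ℝ)
    (Y C : ℝ → ℝ) : Prop where
  dC : ∀ r ∈ Icc 0 τ, HasDerivAt C (mb r) r
  U : C τ - C 0 ≤ U
  θ : ∀ w ∈ D, ∀ r ∈ Icc 0 τ, θ w r ≤ C τ - C r
  Y : ∀ r ∈ Icc 0 τ, Y r ≤ Yb (C τ - C r)

variable {hb : ℝ → V → V → ℝ} {x : V → V → ℝ} {D : Finset V} {τ : ℝ} {mb : ℝ → ℝ} {θ : V → ℝ → ℝ} {Y Y' N N' C : ℝ → ℝ} {cap : ℕ}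

/-- symmetric majorants of the hazards -/
structure Hs (hb : ℝ → V → V → ℝ) : Prop where
  s : ∀ r u v, hb r u v = hb r v u
  z : ∀ r u, hb r u u = 0

/-- everything about a cell -/
structure Cl (hb : ℝ → V → V → ℝ) (x : V → V → ℝ) (D : Finset V) (τ : ℝ) (mb : ℝ → ℝ)
    (θ : V → ℝ → ℝ) (Y Y' N N' C : ℝ → ℝ) (cap : ℕ) (U : ℝ) (Yb : ℝ → ℝ) : Prop where
  L : L0s hb x D τ mb θ Y Y' N N'
  g : Gr x D cap
  hs : Hs hb
  τ0 : 0 ≤ τ
  ck : Ck U Yb D τ mb θ Y C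

namespace Cl

variable {U : ℝ} {Yb : ℝ → ℝ}

theorem hx (h : Cl hb x D τ mb θ Y Y' N N' C cap U Yb) : Wt x := h.g.wt

/-- the clock is increasing -/
theorem mono (h : Cl hb x D τ mb θ Y Y' N N' C cap U Yb) {r s : ℝ} (hr : r ∈ Icc 0 τ)
    (hs : s ∈ Icc 0 τ) (hrs : r ≤ s) : C r ≤ C s := by
  have m : ∀ z ∈ Icc r s, z ∈ Icc 0 τ := fun z hz => ⟨hr.1.trans hz.1, hz.2.trans hs.2⟩
  have hm : MonotoneOn C (Icc 0 τ) := by
    refine monotoneOn_of_deriv_nonneg (convex_Icc 0 τ)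
      (fun t ht => (h.ck.dC t ht).continuousAt.continuousWithinAt)
      (fun t ht => (h.ck.dC t (interior_subset ht)).differentiableAt.differentiableWithinAt) ?_
    intro t ht
    rw [(h.ck.dC t (interior_subset ht)).deriv]
    exact h.L.mb0 t (interior_subset ht)
  exact hm hr hs hrs

theorem τm (h : Cl hb x D τ mb θ Y Y' N N' C cap U Yb) : τ ∈ Icc 0 τ := ⟨h.τ0, le_rfl⟩

theorem um (h : Cl hb x D τ mb θ Y Y' N N' C cap U Yb) {r : ℝ} (hr : r ∈ Icc 0 τ) :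
    C τ - C r ∈ Icc 0 U := by
  refine ⟨by linarith [h.mono hr h.τm hr.2], ?_⟩
  have := h.mono ⟨le_rfl, h.τ0⟩ hr hr.1
  linarith [h.ck.U]

theorem U0 (h : Cl hb x D τ mb θ Y Y' N N' C cap U Yb) : 0 ≤ U := by
  have := h.um h.τm
  exact this.1.trans this.2

theorem u0m (h : Cl hb x D τ mb θ Y Y' N N' C cap U Yb) : (0 : ℝ) ∈ Icc 0 U := ⟨le_rfl, h.U0⟩

/-- derivative of a function of the clock -/
theorem dcl (h : Cl hb x D τ mb θ Y Y' N N' C cap U Yb) {F : ℝ → ℝ} {F' : ℝ → ℝ}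
    (dF : ∀ u, HasDerivAt F (F' u) u) {r : ℝ} (hr : r ∈ Icc 0 τ) :
    HasDerivAt (fun r => F (C τ - C r)) (-(mb r * F' (C τ - C r))) r := by
  have h1 : HasDerivAt (fun r => C τ - C r) (-mb r) r := by
    simpa using (h.ck.dC r hr).const_sub (C τ)
  exact ((dF (C τ - C r)).comp r h1).congr_deriv (by ring)

/-- the exponent -/
theorem yx_le' (h : Cl hb x D τ mb θ Y Y' N N' C cap U Yb) (e : V) {r : ℝ} (hr : r ∈ Icc 0 τ) :
    yx hb x D θ Y τ e r ≤ kx x D e * (C τ - C r) + (1 - kx x D e) * Yb (C τ - C r) := by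
  refine (h.L.yx_le h.hx h.τ0 e hr).trans ?_
  unfold yhat
  refine add_le_add ?_ ?_
  · unfold kx
    rw [Finset.sum_mul]
    exact Finset.sum_le_sum fun w hw => mul_le_mul_of_nonneg_left (h.ck.θ w hw r hr)
      (h.hx.nn w e)
  · exact mul_le_mul_of_nonneg_left (h.ck.Y r hr) (by linarith [h.g.k1 e, kD_nonneg h.hx D e])

theorem yc (h : Cl hb x D τ mb θ Y Y' N N' C cap U Yb) (e : V) :
    ContinuousOn (yx hb x D θ Y τ e) (Icc 0 τ) := h.L.yx_cont h.τ0 e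

theorem Ac (h : Cl hb x D τ mb θ Y Y' N N' C cap U Yb) (i j : V) :
    ContinuousOn (fun r => Ab hb (yx hb x D θ Y τ) r i j) (Icc 0 τ) := by
  unfold Ab
  exact (h.L.bc i j).mul ((Real.continuous_exp.comp_continuousOn
    ((h.yc i).add (h.yc j))).sub continuousOn_const)

/-- regularity of the data -/
theorem rd (h : Cl hb x D τ mb θ Y Y' N N' C cap U Yb) :
    Rd τ (Tb hb (yx hb x D θ Y τ)) (Ab hb (yx hb x D θ Y τ)) (Bw hb (nx hb x D θ Y τ)) where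
  τ0 := h.τ0
  cT i j := by
    unfold Tb
    exact (h.L.bc i j).mul (Real.continuous_exp.comp_continuousOn ((h.yc i).add (h.yc j)))
  cA := h.Ac
  cB i j := by
    unfold Bw
    exact (h.L.bc i j).mul (continuousOn_const.sub
      ((continuousOn_const.sub (h.L.nxc h.τ0 i)).mul
        (continuousOn_const.sub (h.L.nxc h.τ0 j))))
  T0 r hr i j := mul_nonneg (h.L.b0 i j r hr) (Real.exp_pos _).le
  A0 r hr i j := mul_nonneg (h.L.b0 i j r hr) (by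
    have := Real.one_le_exp (add_nonneg (h.L.yx_nonneg h.hx i hr) (h.L.yx_nonneg h.hx j hr))
    linarith)
  B0 r hr i j := mul_nonneg (h.L.b0 i j r hr) (by
    have n1 := h.L.nx_nonneg h.hx i hr
    have n2 := h.L.nx_nonneg h.hx j hr
    have n3 := h.L.nx_one h.hx h.τ0 i hr
    have n4 := h.L.nx_one h.hx h.τ0 j hr
    nlinarith)
  Ts r i j := by unfold Tb; rw [h.hs.s, add_comm]
  As r i j := by unfold Ab; rw [h.hs.s, add_comm]
  Bs r i j := by unfold Bw; rw [h.hs.s, mul_comm (1 - nx hb x D θ Y τ i r)]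
  Tz r i := by unfold Tb; rw [h.hs.z, zero_mul]
  Az r i := by unfold Ab; rw [h.hs.z, zero_mul]

theorem B_le (h : Cl hb x D τ mb θ Y Y' N N' C cap U Yb) (i j : V) {r : ℝ}
    (hr : r ∈ Icc 0 τ) : Bw hb (nx hb x D θ Y τ) r i j
      ≤ mb r * x i j * (nx hb x D θ Y τ i r + nx hb x D θ Y τ j r) := by
  unfold Bw
  have n1 := h.L.nx_nonneg h.hx i hr
  have n2 := h.L.nx_nonneg h.hx j hr
  have h1 := h.L.lm i j r hr
  have h2 := h.L.b0 i j r hr
  calc hb r i j * (1 - (1 - nx hb x D θ Y τ i r) * (1 - nx hb x D θ Y τ j r))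
      ≤ hb r i j * (nx hb x D θ Y τ i r + nx hb x D θ Y τ j r) :=
        mul_le_mul_of_nonneg_left (by nlinarith) h2
    _ ≤ (x i j * mb r) * (nx hb x D θ Y τ i r + nx hb x D θ Y τ j r) :=
        mul_le_mul_of_nonneg_right h1 (add_nonneg n1 n2)
    _ = _ := by ring

/-- regularity without the direct part -/
theorem rd0 (h : Cl hb x D τ mb θ Y Y' N N' C cap U Yb) :
    Rd τ (Tb hb (yx hb x D θ Y τ)) (Ab hb (yx hb x D θ Y τ)) (fun _ _ _ => 0) where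
  τ0 := h.τ0
  cT := h.rd.cT
  cA := h.rd.cA
  cB _ _ := continuousOn_const
  T0 := h.rd.T0
  A0 := h.rd.A0
  B0 _ _ _ _ := le_rfl
  Ts := h.rd.Ts
  As := h.rd.As
  Bs _ _ _ := rfl
  Tz := h.rd.Tz
  Az := h.rd.Az

/-- splitting off the direct part -/
theorem md_split (h : Cl hb x D τ mb θ Y Y' N N' C cap U Yb) {i j : V} (hij : i ≠ j) {r : ℝ}
    (hr : r ∈ Icc 0 τ) :
    Md Dᶜ (Tb hb (yx hb x D θ Y τ)) (Ab hb (yx hb x D θ Y τ)) (Bw hb (nx hb x D θ Y τ)) τ i j r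
      = bk (fun r => Bw hb (nx hb x D θ Y τ) r i j) τ r
        + Md Dᶜ (Tb hb (yx hb x D θ Y τ)) (Ab hb (yx hb x D θ Y τ)) (fun _ _ _ => 0) τ i j r := by
  refine back_eq (fun r hr => h.rd.dM i j hr)
    (fun r hr => ((bk_deriv h.τ0 (h.rd.cB i j) hr).add (h.rd0.dM i j hr)).congr_deriv ?_) ?_ r hr
  · rw [if_neg hij, if_neg hij]; ring
  · unfold Md
    simp only [Pi.add_apply, bk_self, add_zero]

end Cl

end Pool.Agent.RX.RCM
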