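import Pool.Agent.RX.RCM.GPa

/-! The level 1/2 of a cell: the row inequality with vertex functions (MP_73ccd0_lc, route M). -/

namespace Pool.Agent.RX.RCM

open Set Finset

set_option linter.unusedSectionVars false

variable {V : Type*} [Fintype V] [DecidableEq V] {I : Type*}
variable {U : Finset V} {T P M Zp Zm g h : V → V → ℝ}

/-- the static facts of a cell at a fixed time; `i1` is the index of the test which dominates the
rows of `T` -/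
structure St (i1 : I) (U : Finset V) (T P M : V → V → ℝ) (v : I → V → ℝ)
    (α μ ζp ζm am az : I → V → ℝ) (c jp jm : I → ℝ) : Prop where
  T0 : ∀ i j, 0 ≤ T i j
  Ts : ∀ i j, T i j = T j i
  Tz : ∀ i, T i i = 0
  P0 : ∀ i j, 0 ≤ P i j
  Ps : ∀ i j, P i j = P j i
  M0 : ∀ i j, 0 ≤ M i j
  Ms : ∀ i j, M i j = M j i
  v0 : ∀ i x, 0 ≤ v i x
  hα : ∀ i, ∀ x ∈ U, ∑ y ∈ U, P x y * v i y ≤ α i x
  hμ : ∀ i, ∀ x ∈ U, ∑ y ∈ U, M x y * v i y ≤ μ i x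
  hT : ∀ i, ∀ x ∈ U, ∑ y ∈ U, T x y * v i y ≤ c i * v i1 x
  ham : ∀ i, ∀ x ∈ U, ∑ b ∈ U, T x b * (μ i b + ζm i b) ≤ am i x
  haz : ∀ i, ∀ x ∈ U, ∑ b ∈ U, T x b * ζp i b ≤ az i x
  hjp : ∀ i, ∀ x ∈ U, ∑ z ∈ U, T x z * ((α i x + ζp i x) + (α i z + ζp i z)) ≤ jp i * v i1 x
  hjm : ∀ i, ∀ x ∈ U, ∑ z ∈ U, T x z * ((μ i x + ζm i x) + (μ i z + ζm i z)) ≤ jm i * v i1 x
  c0 : ∀ i, 0 ≤ c i
  jp0 : ∀ i, 0 ≤ jp i
  jm0 : ∀ i, 0 ≤ jm i

/-- the remainders -/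
structure Zt (U : Finset V) (Zp Zm : V → V → ℝ) (v : I → V → ℝ) (ζp ζm : I → V → ℝ) : Prop where
  p0 : ∀ i j, 0 ≤ Zp i j
  ps : ∀ i j, Zp i j = Zp j i
  m0 : ∀ i j, 0 ≤ Zm i j
  ms : ∀ i j, Zm i j = Zm j i
  hp : ∀ i, ∀ x ∈ U, ∑ y ∈ U, Zp x y * v i y ≤ ζp i x
  hm : ∀ i, ∀ x ∈ U, ∑ y ∈ U, Zm x y * v i y ≤ ζm i x

/-- rows of a kernel acting on a multiple of a test inside -/
theorem act_le' (g0 : ∀ i j, 0 ≤ g i j) {f v : V → ℝ} {c G : ℝ} {x : V}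
    (hf : ∀ y ∈ U, f y ≤ c * v y) (c0 : 0 ≤ c) (v0 : ∀ y, 0 ≤ v y)
    (hg : ∑ y ∈ U, g x y * v y ≤ G) : ∑ y ∈ U.erase x, g x y * f y ≤ c * G := by
  calc ∑ y ∈ U.erase x, g x y * f y ≤ ∑ y ∈ U.erase x, c * (g x y * v y) := by
        refine Finset.sum_le_sum fun y hy => ?_
        refine (mul_le_mul_of_nonneg_left (hf y (Finset.mem_of_mem_erase hy)) (g0 _ _)).trans
          (le_of_eq (by ring))
    _ = c * ∑ y ∈ U.erase x, g x y * v y := (Finset.mul_sum _ _ _).symm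
    _ ≤ c * ∑ y ∈ U, g x y * v y := mul_le_mul_of_nonneg_left
        (sum_erase_le fun y _ => mul_nonneg (g0 _ _) (v0 _)) c0
    _ ≤ c * G := mul_le_mul_of_nonneg_left hg c0

variable {i1 : I} {v : I → V → ℝ} {α μ ζp ζm am az : I → V → ℝ} {c jp jm : I → ℝ}

theorem sum_add_mul {S : Finset V} {A B : V → V → ℝ} {f : V → ℝ} {x : V} :
    ∑ y ∈ S, (A x y + B x y) * f y = ∑ y ∈ S, A x y * f y + ∑ y ∈ S, B x y * f y := by
  rw [← Finset.sum_add_distrib]; exact Finset.sum_congr rfl fun y _ => by ring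

/-- rows of `Lf1` -/
theorem St.lin (s : St i1 U T P M v α μ ζp ζm am az c jp jm) (g0 : ∀ i j, 0 ≤ g i j)
    (gs : ∀ i j, g i j = g j i) {ρ : I → V → ℝ}
    (hg : ∀ i, ∀ x ∈ U, ∑ y ∈ U, g x y * v i y ≤ ρ i x) (i : I) {x : V} (hx : x ∈ U) {a : ℝ}
    (ha : ∑ b ∈ U, T x b * ρ i b ≤ a) :
    ∑ y ∈ U.erase x, Lf1 U T g x y * v i y ≤ a + c i * ρ i1 x := by
  have ρ0 : ∀ i, ∀ b ∈ U, 0 ≤ ρ i b := fun i b hb =>
    (Finset.sum_nonneg fun y _ => mul_nonneg (g0 _ _) (s.v0 _ _)).trans (hg i b hb)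
  have e : ∑ y ∈ U.erase x, Lf1 U T g x y * v i y
      = ∑ y ∈ U.erase x, (∑ b ∈ (U.erase x).erase y, T x b * g y b) * v i y
        + ∑ y ∈ U.erase x, (∑ b ∈ (U.erase x).erase y, T y b * g x b) * v i y := by
    rw [← Finset.sum_add_distrib]
    exact Finset.sum_congr rfl fun y _ => by unfold Lf1; ring
  rw [e]
  have a1 := (row1 (v := v i) s.T0 g0 gs (s.v0 i) (hg i) x).trans
    ((sum_erase_le fun b hb => mul_nonneg (s.T0 _ _) (ρ0 i b hb)).trans ha)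
  have a2 := (row2 (v := v i) s.T0 s.Ts g0 (s.v0 i) x).trans
    (act_le' (U := U) g0 (fun y hy => (sum_erase_le fun j _ => mul_nonneg (s.T0 _ _)
      (s.v0 _ _)).trans (s.hT i y hy)) (s.c0 i) (s.v0 i1) (hg i1 x hx))
  exact add_le_add a1 a2

/-- rows of the quadratic part: inner kernel `g`, outer kernel `h` -/
theorem St.qrow (s : St i1 U T P M v α μ ζp ζm am az c jp jm) (g0 : ∀ i j, 0 ≤ g i j)
    (gs : ∀ i j, g i j = g j i) (h0 : ∀ i j, 0 ≤ h i j) {ρ : I → V → ℝ}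
    (hg : ∀ i, ∀ x ∈ U, ∑ y ∈ U, g x y * v i y ≤ ρ i x) (i : I) {x : V} (hx : x ∈ U)
    {j G : ℝ} (j0 : 0 ≤ j)
    (hj : ∀ y ∈ U, ∑ z ∈ U, T y z * (ρ i y + ρ i z) ≤ j * v i1 y)
    (hh : ∑ y ∈ U, h x y * v i1 y ≤ G) :
    ∑ y ∈ U.erase x, qd U T g h x y * v i y ≤ j * G := by
  have ρ0 : ∀ b ∈ U, 0 ≤ ρ i b := fun b hb =>
    (Finset.sum_nonneg fun y _ => mul_nonneg (g0 _ _) (s.v0 _ _)).trans (hg i b hb)
  unfold qd
  refine (row3 (v := v i) s.T0 s.Ts g0 gs h0 (s.v0 i) (hg i) x).trans ?_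
  refine act_le' (U := U) h0 (fun y hy => ?_) j0 (s.v0 i1) hh
  exact (sum_erase_le fun z hz => mul_nonneg (s.T0 _ _) (add_nonneg (ρ0 y hy) (ρ0 z hz))).trans
    (hj y hy)

theorem rows3 {A B C : V → V → ℝ} {S : Finset V} {x : V} {f : V → ℝ} {a b c : ℝ}
    (h1 : ∑ y ∈ S, A x y * f y ≤ a) (h2 : ∑ y ∈ S, B x y * f y ≤ b)
    (h3 : ∑ y ∈ S, C x y * f y ≤ c) :
    ∑ y ∈ S, (A x y + (B x y + C x y)) * f y ≤ a + (b + c) := by
  have e : ∑ y ∈ S, (A x y + (B x y + C x y)) * f y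
      = ∑ y ∈ S, A x y * f y + (∑ y ∈ S, B x y * f y + ∑ y ∈ S, C x y * f y) := by
    rw [← Finset.sum_add_distrib, ← Finset.sum_add_distrib]
    exact Finset.sum_congr rfl fun y _ => by ring
  rw [e]
  exact add_le_add h1 (add_le_add h2 h3)

section core

variable (s : St i1 U T P M v α μ ζp ζm am az c jp jm) (z : Zt U Zp Zm v ζp ζm)

include s z

theorem Zt.rp (i : I) {x : V} (hx : x ∈ U) :
    ∑ y ∈ U, (P x y + Zp x y) * v i y ≤ α i x + ζp i x := by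
  rw [sum_add_mul]; exact add_le_add (s.hα i x hx) (z.hp i x hx)

theorem Zt.rm (i : I) {x : V} (hx : x ∈ U) :
    ∑ y ∈ U, (M x y + Zm x y) * v i y ≤ μ i x + ζm i x := by
  rw [sum_add_mul]; exact add_le_add (s.hμ i x hx) (z.hm i x hx)

/-- **rows of the right side for the remainder of `gp`** -/
theorem coreP (i : I) {x : V} (hx : x ∈ U) :
    ∑ y ∈ U.erase x, Fp U T (fun a b => P a b + Zp a b) (fun a b => M a b + Zm a b) x y * v i y
      ≤ am i x + c i * (μ i1 x + ζm i1 x)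
        + (jp i * (α i1 x + ζp i1 x) + jm i * (μ i1 x + ζm i1 x)) := by
  have p0 : ∀ i j, 0 ≤ P i j + Zp i j := fun i j => add_nonneg (s.P0 _ _) (z.p0 _ _)
  have ps : ∀ i j, P i j + Zp i j = P j i + Zp j i := fun i j => by rw [s.Ps, z.ps]
  have m0 : ∀ i j, 0 ≤ M i j + Zm i j := fun i j => add_nonneg (s.M0 _ _) (z.m0 _ _)
  have ms : ∀ i j, M i j + Zm i j = M j i + Zm j i := fun i j => by rw [s.Ms, z.ms]
  have := rows3 (f := v i) (S := U.erase x) (x := x)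
    (s.lin (g := fun a b => M a b + Zm a b) m0 ms (ρ := fun i x => μ i x + ζm i x)
      (fun i x hx => Zt.rm s z i hx) i hx (s.ham i x hx))
    (s.qrow (g := fun a b => P a b + Zp a b) (h := fun a b => P a b + Zp a b) p0 ps p0
      (ρ := fun i x => α i x + ζp i x) (fun i x hx => Zt.rp s z i hx) i hx (s.jp0 i)
      (s.hjp i) (Zt.rp s z i1 hx))
    (s.qrow (g := fun a b => M a b + Zm a b) (h := fun a b => M a b + Zm a b) m0 ms m0
      (ρ := fun i x => μ i x + ζm i x) (fun i x hx => Zt.rm s z i hx) i hx (s.jm0 i)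
      (s.hjm i) (Zt.rm s z i1 hx))
  unfold Fp
  exact this

/-- **rows of the right side for the remainder of `gm`** -/
theorem coreM (i : I) {x : V} (hx : x ∈ U) :
    ∑ y ∈ U.erase x, (Fm U T (fun a b => P a b + Zp a b) (fun a b => M a b + Zm a b) x y
        - Lf1 U T P x y) * v i y
      ≤ az i x + c i * ζp i1 x
        + (jp i * (μ i1 x + ζm i1 x) + jm i * (α i1 x + ζp i1 x)) := by
  have p0 : ∀ i j, 0 ≤ P i j + Zp i j := fun i j => add_nonneg (s.P0 _ _) (z.p0 _ _)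
  have ps : ∀ i j, P i j + Zp i j = P j i + Zp j i := fun i j => by rw [s.Ps, z.ps]
  have m0 : ∀ i j, 0 ≤ M i j + Zm i j := fun i j => add_nonneg (s.M0 _ _) (z.m0 _ _)
  have ms : ∀ i j, M i j + Zm i j = M j i + Zm j i := fun i j => by rw [s.Ms, z.ms]
  have := rows3 (f := v i) (S := U.erase x) (x := x)
    (s.lin z.p0 z.ps z.hp i hx (s.haz i x hx))
    (s.qrow (g := fun a b => P a b + Zp a b) (h := fun a b => M a b + Zm a b) p0 ps m0
      (ρ := fun i x => α i x + ζp i x) (fun i x hx => Zt.rp s z i hx) i hx (s.jp0 i)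
      (s.hjp i) (Zt.rm s z i1 hx))
    (s.qrow (g := fun a b => M a b + Zm a b) (h := fun a b => P a b + Zp a b) m0 ms p0
      (ρ := fun i x => μ i x + ζm i x) (fun i x hx => Zt.rm s z i hx) i hx (s.jm0 i)
      (s.hjm i) (Zt.rp s z i1 hx))
  refine le_trans (le_of_eq (Finset.sum_congr rfl fun y _ => ?_)) this
  unfold Fm
  rw [Lf1_add]
  ring

end core

end Pool.Agent.RX.RCM
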