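import Pool.Agent.RX.RCM.GPc
import Pool.Agent.RX.RCM.GTa
import Pool.Agent.RX.RCM.Pic

/-! The level 1/2 of a cell: existence with row bounds by vertex functions (MP_73ccd0_lc, route M). -/

namespace Pool.Agent.RX.RCM

open Set Finset Filter Topology

set_option linter.unusedSectionVars false

variable {V : Type*} [Fintype V] [DecidableEq V]

/-- vertex functions of a cell -/
structure Gv (I V : Type*) where
  zp : I → V → ℝ → ℝ
  zp' : I → V → ℝ → ℝ
  zm : I → V → ℝ → ℝ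
  zm' : I → V → ℝ → ℝ
  am : I → V → ℝ → ℝ
  az : I → V → ℝ → ℝ
  c : I → ℝ → ℝ
  jp : I → ℝ → ℝ
  jm : I → ℝ → ℝ

variable {I : Type*}

/-- the facts and the inequalities of a cell -/
structure Gvc (i1 : I) (U : Finset V) (τ : ℝ) (T : ℝ → V → V → ℝ)
    (P M : V → V → ℝ → ℝ) (v : I → V → ℝ) (α μ : I → V → ℝ → ℝ) (s : Gv I V) : Prop where
  cT : ∀ i j, ContinuousOn (fun r => T r i j) (Icc 0 τ)
  cP : ∀ i j, ContinuousOn (P i j) (Icc 0 τ)
  cM : ∀ i j, ContinuousOn (M i j) (Icc 0 τ)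
  v1 : ∃ i2, ∀ x ∈ U, 1 ≤ v i2 x
  st : ∀ r ∈ Icc 0 τ, St i1 U (T r) (fun a b => P a b r) (fun a b => M a b r) v
    (fun i x => α i x r) (fun i x => μ i x r) (fun i x => s.zp i x r) (fun i x => s.zm i x r)
    (fun i x => s.am i x r) (fun i x => s.az i x r) (fun i => s.c i r) (fun i => s.jp i r)
    (fun i => s.jm i r)
  z0 : ∀ i, ∀ x ∈ U, ∀ r ∈ Icc 0 τ, 0 ≤ s.zp i x r
  z1 : ∀ i, ∀ x ∈ U, ∀ r ∈ Icc 0 τ, 0 ≤ s.zm i x r
  dzp : ∀ i, ∀ x ∈ U, ∀ r ∈ Icc 0 τ, HasDerivAt (s.zp i x) (s.zp' i x r) r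
  dzm : ∀ i, ∀ x ∈ U, ∀ r ∈ Icc 0 τ, HasDerivAt (s.zm i x) (s.zm' i x r) r
  op : ∀ i, ∀ x ∈ U, ∀ r ∈ Icc 0 τ,
    s.am i x r + s.c i r * (μ i1 x r + s.zm i1 x r)
      + (s.jp i r * (α i1 x r + s.zp i1 x r) + s.jm i r * (μ i1 x r + s.zm i1 x r))
      ≤ -s.zp' i x r
  om : ∀ i, ∀ x ∈ U, ∀ r ∈ Icc 0 τ,
    s.az i x r + s.c i r * s.zp i1 x r
      + (s.jp i r * (μ i1 x r + s.zm i1 x r) + s.jm i r * (α i1 x r + s.zp i1 x r))
      ≤ -s.zm' i x r

/-- the invariant -/
def Cv (U : Finset V) (v : I → V → ℝ) (s : Gv I V) (r : ℝ) (u : Bool × V × V → ℝ) : Prop :=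
  (∀ b x y, 0 ≤ u (b, x, y)) ∧ (∀ b x y, u (b, x, y) = u (b, y, x)) ∧
    (∀ b x, u (b, x, x) = 0) ∧ (∀ b x y, x ∉ U → u (b, x, y) = 0) ∧
    (∀ i, ∀ x ∈ U, ∑ y ∈ U, u (true, x, y) * v i y ≤ s.zp i x r) ∧
    (∀ i, ∀ x ∈ U, ∑ y ∈ U, u (false, x, y) * v i y ≤ s.zm i x r)

variable {i1 : I} {U : Finset V} {τ : ℝ} {T : ℝ → V → V → ℝ} {P M : V → V → ℝ → ℝ}
  {v : I → V → ℝ} {α μ : I → V → ℝ → ℝ} {s : Gv I V}

theorem Cv_closed (r : ℝ) : IsClosed {u : Bool × V × V → ℝ | Cv U v s r u} := by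
  unfold Cv
  simp only [Set.ofPred_and, Set.ofPred_forall]
  refine IsClosed.inter (isClosed_iInter fun b => isClosed_iInter fun x => isClosed_iInter fun y =>
    isClosed_le continuous_const (continuous_apply _)) (IsClosed.inter
    (isClosed_iInter fun b => isClosed_iInter fun x => isClosed_iInter fun y =>
    isClosed_eq (continuous_apply _) (continuous_apply _)) (IsClosed.inter
    (isClosed_iInter fun b => isClosed_iInter fun x => isClosed_eq (continuous_apply _)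
      continuous_const) (IsClosed.inter (isClosed_iInter fun b => isClosed_iInter fun x =>
      isClosed_iInter fun y => isClosed_iInter fun _ => isClosed_eq (continuous_apply _)
        continuous_const) (IsClosed.inter ?_ ?_))))
  · exact isClosed_iInter fun i => isClosed_iInter fun x =>
      isClosed_iInter fun _ => isClosed_le (continuous_finsetSum _ fun y _ =>
        (continuous_apply _).mul continuous_const) continuous_const
  · exact isClosed_iInter fun i => isClosed_iInter fun x =>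
      isClosed_iInter fun _ => isClosed_le (continuous_finsetSum _ fun y _ =>
        (continuous_apply _).mul continuous_const) continuous_const

theorem Cv.zt {r : ℝ} {u : Bool × V × V → ℝ} (hu : Cv U v s r u) :
    Zt U (fun a b => u (true, a, b)) (fun a b => u (false, a, b)) v (fun i x => s.zp i x r)
      (fun i x => s.zm i x r) :=
  { p0 := fun a b => hu.1 _ _ _
    ps := fun a b => hu.2.1 _ _ _
    m0 := fun a b => hu.1 _ _ _
    ms := fun a b => hu.2.1 _ _ _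
    hp := hu.2.2.2.2.1
    hm := hu.2.2.2.2.2 }

theorem vRg_continuousOn (h : Gvc i1 U τ T P M v α μ s) (k : Bool × V × V) :
    ContinuousOn (fun p : ℝ × (Bool × V × V → ℝ) => Rg U T P M p.1 p.2 k)
      (Icc 0 τ ×ˢ univ) := by
  have cT : ∀ i j, ContinuousOn (fun p : ℝ × (Bool × V × V → ℝ) => T p.1 i j)
      (Icc 0 τ ×ˢ univ) := fun i j => (h.cT i j).comp continuousOn_fst fun p hp => hp.1
  have cp : ∀ i j, ContinuousOn (fun p : ℝ × (Bool × V × V → ℝ) =>
      P i j p.1 + p.2 (true, i, j)) (Icc 0 τ ×ˢ univ) := fun i j =>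
    ((h.cP i j).comp continuousOn_fst fun p hp => hp.1).add
      ((continuous_apply _).comp continuous_snd).continuousOn
  have cm : ∀ i j, ContinuousOn (fun p : ℝ × (Bool × V × V → ℝ) =>
      M i j p.1 + p.2 (false, i, j)) (Icc 0 τ ×ˢ univ) := fun i j =>
    ((h.cM i j).comp continuousOn_fst fun p hp => hp.1).add
      ((continuous_apply _).comp continuous_snd).continuousOn
  have cP : ∀ i j, ContinuousOn (fun p : ℝ × (Bool × V × V → ℝ) => P i j p.1)
      (Icc 0 τ ×ˢ univ) := fun i j => (h.cP i j).comp continuousOn_fst fun p hp => hp.1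
  have cL : ∀ {f : V → V → ℝ × (Bool × V × V → ℝ) → ℝ},
      (∀ i j, ContinuousOn (f i j) (Icc 0 τ ×ˢ univ)) → ∀ i j,
      ContinuousOn (fun p => Lf1 U (T p.1) (fun a b => f a b p) i j) (Icc 0 τ ×ˢ univ) := by
    intro f hf i j
    unfold Lf1
    exact (continuousOn_finsetSum _ fun b _ => (cT _ _).mul (hf _ _)).add
      (continuousOn_finsetSum _ fun b _ => (cT _ _).mul (hf _ _))
  have cQ : ∀ {f g : V → V → ℝ × (Bool × V × V → ℝ) → ℝ},
      (∀ i j, ContinuousOn (f i j) (Icc 0 τ ×ˢ univ)) →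
      (∀ i j, ContinuousOn (g i j) (Icc 0 τ ×ˢ univ)) → ∀ i j,
      ContinuousOn (fun p => qd U (T p.1) (fun a b => f a b p) (fun a b => g a b p) i j)
        (Icc 0 τ ×ˢ univ) := by
    intro f g hf hg i j
    unfold qd
    exact continuousOn_const.mul (continuousOn_finsetSum _ fun x _ =>
      continuousOn_finsetSum _ fun y _ => (cT _ _).mul (((hf _ _).add (hf _ _)).mul
        ((hg _ _).add (hg _ _))))
  unfold Rg
  by_cases hk : k.2.1 ∈ U ∧ k.2.2 ∈ U ∧ k.2.1 ≠ k.2.2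
  · simp only [if_pos hk]
    by_cases hb : k.1 = true
    · simp only [if_pos hb]
      unfold Fp
      exact (cL cm _ _).add ((cQ cp cp _ _).add (cQ cm cm _ _))
    · simp only [if_neg hb]
      unfold Fm
      exact ((cL cp _ _).add ((cQ cp cm _ _).add (cQ cm cp _ _))).sub (cL cP _ _)
  · simp only [if_neg hk]
    exact continuousOn_const

theorem Gvc.T0 (h : Gvc i1 U τ T P M v α μ s) {r : ℝ} (hr : r ∈ Icc 0 τ) (i j : V) :
    0 ≤ T r i j := (h.st r hr).T0 i j

theorem Gvc.P0 (h : Gvc i1 U τ T P M v α μ s) {r : ℝ} (hr : r ∈ Icc 0 τ) (i j : V) :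
    0 ≤ P i j r := (h.st r hr).P0 i j

theorem Gvc.M0 (h : Gvc i1 U τ T P M v α μ s) {r : ℝ} (hr : r ∈ Icc 0 τ) (i j : V) :
    0 ≤ M i j r := (h.st r hr).M0 i j

theorem vRg_mono (h : Gvc i1 U τ T P M v α μ s) {r : ℝ} (hr : r ∈ Icc 0 τ)
    (u u' : Bool × V × V → ℝ) (u0 : ∀ k, 0 ≤ u k) (hu : ∀ k, u k ≤ u' k) (k : Bool × V × V) :
    Rg U T P M r u k ≤ Rg U T P M r u' k := by
  unfold Rg
  by_cases hk : k.2.1 ∈ U ∧ k.2.2 ∈ U ∧ k.2.1 ≠ k.2.2
  · simp only [if_pos hk]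
    by_cases hb : k.1 = true
    · simp only [if_pos hb]
      exact Fp_mono (h.T0 hr) (fun i j => add_nonneg (h.P0 hr i j) (u0 _))
        (fun i j => add_nonneg (h.M0 hr i j) (u0 _))
        (fun i j => add_le_add le_rfl (hu _)) (fun i j => add_le_add le_rfl (hu _)) _ _
    · simp only [if_neg hb]
      exact sub_le_sub_right (Fm_mono (h.T0 hr) (fun i j => add_nonneg (h.P0 hr i j) (u0 _))
        (fun i j => add_nonneg (h.M0 hr i j) (u0 _))
        (fun i j => add_le_add le_rfl (hu _)) (fun i j => add_le_add le_rfl (hu _)) _ _) _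
  · simp only [if_neg hk]
    exact le_rfl

theorem vRg_nonneg (h : Gvc i1 U τ T P M v α μ s) {r : ℝ} (hr : r ∈ Icc 0 τ)
    (u : Bool × V × V → ℝ) (u0 : ∀ k, 0 ≤ u k) (k : Bool × V × V) :
    0 ≤ Rg U T P M r u k := by
  unfold Rg
  have p0 : ∀ i j, 0 ≤ P i j r + u (true, i, j) := fun i j => add_nonneg (h.P0 hr i j) (u0 _)
  have m0 : ∀ i j, 0 ≤ M i j r + u (false, i, j) := fun i j => add_nonneg (h.M0 hr i j) (u0 _)
  by_cases hk : k.2.1 ∈ U ∧ k.2.2 ∈ U ∧ k.2.1 ≠ k.2.2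
  · simp only [if_pos hk]
    by_cases hb : k.1 = true
    · simp only [if_pos hb]
      exact Fp_nonneg (h.T0 hr) p0 m0 _ _
    · simp only [if_neg hb]
      have h1 := Lf1_le_Fm (U := U) (h.T0 hr) p0 m0 k.2.1 k.2.2
      have h2 : Lf1 U (T r) (fun a b => P a b r) k.2.1 k.2.2
          ≤ Lf1 U (T r) (fun a b => P a b r + u (true, a, b)) k.2.1 k.2.2 := by
        unfold Lf1
        exact add_le_add
          (Finset.sum_le_sum fun b _ => mul_le_mul_of_nonneg_left
            (le_add_of_nonneg_right (u0 _)) (h.T0 hr _ _))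
          (Finset.sum_le_sum fun b _ => mul_le_mul_of_nonneg_left
            (le_add_of_nonneg_right (u0 _)) (h.T0 hr _ _))
      linarith
  · simp only [if_neg hk]
    exact le_rfl


/-- the row inequalities of the right sides -/
theorem vRg_rows (h : Gvc i1 U τ T P M v α μ s) {r : ℝ} (hr : r ∈ Icc 0 τ)
    {u : Bool × V × V → ℝ} (hu : Cv U v s r u) (i : I) {x : V} (hx : x ∈ U) :
    ∑ y ∈ U, Rg U T P M r u (true, x, y) * v i y ≤ -s.zp' i x r ∧
      ∑ y ∈ U, Rg U T P M r u (false, x, y) * v i y ≤ -s.zm' i x r := by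
  have S := h.st r hr
  have Z := Cv.zt hu
  -- passing to `U.erase x`
  have red : ∀ b : Bool, ∑ y ∈ U, Rg U T P M r u (b, x, y) * v i y
      = ∑ y ∈ U.erase x, Rg U T P M r u (b, x, y) * v i y := fun b => by
    rw [← Finset.sum_erase U (a := x)]
    unfold Rg
    simp
  constructor
  · rw [red]
    refine le_trans (le_of_eq (Finset.sum_congr rfl fun y hy => ?_))
      ((coreP S Z i hx).trans (h.op i x hx r hr))
    unfold Rg
    rw [if_pos ⟨hx, Finset.mem_of_mem_erase hy, fun e => Finset.ne_of_mem_erase hy e.symm⟩]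
    rfl
  · rw [red]
    refine le_trans (le_of_eq (Finset.sum_congr rfl fun y hy => ?_))
      ((coreM S Z i hx).trans (h.om i x hx r hr))
    unfold Rg
    rw [if_pos ⟨hx, Finset.mem_of_mem_erase hy, fun e => Finset.ne_of_mem_erase hy e.symm⟩,
      if_neg (by simp)]

/-- rows of a Picard step -/
theorem vrow_step {v : V → ℝ} {z z' : ℝ → ℝ} {R : ℝ → V → V → ℝ}
    {g : V → V → ℝ → ℝ} (dz : ∀ r ∈ Icc 0 τ, HasDerivAt z (z' r) r) (zτ : 0 ≤ z τ)
    (dg : ∀ x y, ∀ r ∈ Icc 0 τ, HasDerivAt (g x y) (-R r x y) r) (gτ : ∀ x y, g x y τ = 0)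
    {x : V} (hR : ∀ r ∈ Icc 0 τ, ∑ y ∈ U, R r x y * v y ≤ -z' r) :
    ∀ r ∈ Icc 0 τ, ∑ y ∈ U, g x y r * v y ≤ z r := by
  have d1 : ∀ r ∈ Icc 0 τ, HasDerivAt (fun r => ∑ y ∈ U, g x y r * v y)
      (∑ y ∈ U, (-R r x y) * v y) r := fun r hr =>
    HasDerivAt.fun_sum fun y _ => (dg x y r hr).mul_const _
  refine back_le d1 dz (fun r hr => ?_) ?_
  · have h1 := hR r hr
    have h3 : ∑ y ∈ U, (-R r x y) * v y = -∑ y ∈ U, R r x y * v y := by
      rw [← Finset.sum_neg_distrib]; exact Finset.sum_congr rfl fun y _ => by ring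
    rw [h3]
    linarith
  · have : ∑ y ∈ U, g x y τ * v y = 0 := Finset.sum_eq_zero fun y _ => by rw [gτ, zero_mul]
    rw [this]
    exact zτ

/-- the row bounds are invariant under the Picard iteration -/
theorem Cv_inv (hτ : 0 ≤ τ) (h : Gvc i1 U τ T P M v α μ s) :
    Inv τ (Rg U T P M) (Cv U v s) := by
  have τm : τ ∈ Icc 0 τ := ⟨hτ, le_rfl⟩
  refine ⟨fun r _ => Cv_closed r, fun r hr => ?_, fun u g hp hu => ?_⟩
  · refine ⟨fun _ _ _ => le_rfl, fun _ _ _ => rfl, fun _ _ => rfl, fun _ _ _ _ => rfl,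
      fun i x hx => ?_, fun i x hx => ?_⟩
    · simp only [Pi.zero_apply, zero_mul, Finset.sum_const_zero]
      exact h.z0 i x hx r hr
    · simp only [Pi.zero_apply, zero_mul, Finset.sum_const_zero]
      exact h.z1 i x hx r hr
  · obtain ⟨-, u0, dg, gτ⟩ := hp
    have dz : ∀ r ∈ Icc 0 τ, HasDerivAt (fun _ : ℝ => (0 : ℝ)) 0 r := fun r _ =>
      hasDerivAt_const r 0
    intro r hr
    refine ⟨fun b x y => ?_, fun b x y => ?_, fun b x => ?_, fun b x y hx => ?_,
      fun i x hx => ?_, fun i x hx => ?_⟩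
    · exact back_le dz (dg (b, x, y)) (fun r hr => by
        have := vRg_nonneg h hr (fun k => u k r) (fun k => u0 k r hr) (b, x, y)
        linarith) (gτ _).ge r hr
    · exact back_eq (dg (b, x, y)) (fun r hr => by
        have := dg (b, y, x) r hr
        rwa [← Rg_symm (U := U) (T := T) (P := P) (M := M) r _ b x y] at this)
        (by rw [gτ, gτ]) r hr
    · exact back_eq (f' := fun _ => 0) (fun r hr => by
        have := dg (b, x, x) r hr
        rwa [Rg_diag, neg_zero] at this) dz (gτ _) r hr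
    · exact back_eq (f' := fun _ => 0) (fun r hr => by
        have := dg (b, x, y) r hr
        rwa [Rg_off r _ b hx, neg_zero] at this) dz (gτ _) r hr
    · exact vrow_step (U := U) (v := v i) (g := fun x y => g (true, x, y))
        (R := fun r x y => Rg U T P M r (fun k => u k r) (true, x, y)) (h.dzp i x hx)
        (h.z0 i x hx τ τm) (fun x y => dg (true, x, y)) (fun x y => gτ _)
        (fun r hr => (vRg_rows h hr (hu r hr) i hx).1) r hr
    · exact vrow_step (U := U) (v := v i) (g := fun x y => g (false, x, y))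
        (R := fun r x y => Rg U T P M r (fun k => u k r) (false, x, y)) (h.dzm i x hx)
        (h.z1 i x hx τ τm) (fun x y => dg (false, x, y)) (fun x y => gτ _)
        (fun r hr => (vRg_rows h hr (hu r hr) i hx).2) r hr

theorem ent1 {g : V → V → ℝ} {v w : V → ℝ} (g0 : ∀ i j, 0 ≤ g i j)
    (v1 : ∀ x ∈ U, 1 ≤ v x) (hr : ∀ x ∈ U, ∑ y ∈ U, g x y * v y ≤ w x) {x y : V} (hx : x ∈ U)
    (hy : y ∈ U) : g x y ≤ w x := by
  have v0 : ∀ z ∈ U, 0 ≤ g x z * v z := fun z hz =>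
    mul_nonneg (g0 _ _) (zero_le_one.trans (v1 z hz))
  have h1 := (Finset.single_le_sum (f := fun y => g x y * v y) v0 hy).trans (hr x hx)
  have h2 : g x y * 1 ≤ g x y * v y := mul_le_mul_of_nonneg_left (v1 y hy) (g0 _ _)
  linarith

/-- a uniform bound of finitely many continuous functions -/
theorem unif {f : V → ℝ → ℝ} (hf : ∀ x ∈ U, ContinuousOn (f x) (Icc 0 τ)) :
    ∃ B : ℝ, 0 ≤ B ∧ ∀ x ∈ U, ∀ r ∈ Icc 0 τ, f x r ≤ B := by
  have h1 : ∀ x : V, ∃ C : ℝ, x ∈ U → ∀ r ∈ Icc 0 τ, f x r ≤ C := fun x => by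
    by_cases hx : x ∈ U
    · obtain ⟨C, hC⟩ := isCompact_Icc.exists_bound_of_continuousOn (hf x hx)
      exact ⟨C, fun _ r hr => (le_abs_self _).trans (hC r hr)⟩
    · exact ⟨0, fun h => absurd h hx⟩
  choose C hC using h1
  refine ⟨∑ x, |C x|, Finset.sum_nonneg fun x _ => abs_nonneg _, fun x hx r hr => ?_⟩
  have h2 : |C x| ≤ ∑ x, |C x| :=
    Finset.single_le_sum (f := fun x => |C x|) (fun _ _ => abs_nonneg _) (Finset.mem_univ x)
  exact ((hC x hx r hr).trans (le_abs_self _)).trans h2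

/-- **existence of the remainders** -/
theorem exists_gv0 (hτ : 0 ≤ τ) (h : Gvc i1 U τ T P M v α μ s) :
    ∃ g : Bool × V × V → ℝ → ℝ,
      (∀ k, ∀ r ∈ Icc 0 τ, HasDerivAt (g k) (-Rg U T P M r (fun j => g j r) k) r) ∧
      (∀ k, g k τ = 0) ∧ (∀ r ∈ Icc 0 τ, Cv U v s r fun k => g k r) ∧
      ∀ C : ℝ → (Bool × V × V → ℝ) → Prop, Inv τ (Rg U T P M) C →
        ∀ r ∈ Icc 0 τ, C r fun k => g k r := by
  have τm : τ ∈ Icc 0 τ := ⟨hτ, le_rfl⟩
  obtain ⟨i2, v1⟩ := h.v1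
  obtain ⟨Bp, Bp0, hBp⟩ := unif (f := s.zp i2) fun x hx r hr =>
    (h.dzp i2 x hx r hr).continuousAt.continuousWithinAt
  obtain ⟨Bm, Bm0, hBm⟩ := unif (f := s.zm i2) fun x hx r hr =>
    (h.dzm i2 x hx r hr).continuousAt.continuousWithinAt
  obtain ⟨g, dg, gτ, -, hC⟩ := exists_pic hτ (vRg_continuousOn h) (fun r hr u u' u0 hu k =>
    vRg_mono h hr u u' u0 hu k) (fun r hr k => vRg_nonneg h hr 0 (fun _ => le_rfl) k)
    (Cv_inv hτ h) (M := Bp + Bm) (fun r hr u hu k => by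
      obtain ⟨b, x, y⟩ := k
      by_cases hx : x ∈ U
      · by_cases hy : y ∈ U
        · cases b
          · have := ent1 (g := fun a b => u (false, a, b)) (v := v i2)
              (w := fun x => s.zm i2 x r) (fun _ _ => hu.1 _ _ _) v1
              (hu.2.2.2.2.2 i2) hx hy
            have h2 := hBm x hx r hr
            linarith
          · have := ent1 (g := fun a b => u (true, a, b)) (v := v i2)
              (w := fun x => s.zp i2 x r) (fun _ _ => hu.1 _ _ _) v1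
              (hu.2.2.2.2.1 i2) hx hy
            have h2 := hBp x hx r hr
            linarith
        · rw [hu.2.1, hu.2.2.2.1 b y x hy]; linarith
      · rw [hu.2.2.2.1 b x y hx]; linarith)
  exact ⟨g, dg, gτ, hC _ (Cv_inv hτ h), hC⟩

end Pool.Agent.RX.RCM
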