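import Pool.Agent.RX.RCM.GPd
import Pool.Agent.RX.RCM.GTb

/-! The level 1/2 of a cell: the solution with rows bounded by vertex functions
(MP_73ccd0_lc, route M). -/

namespace Pool.Agent.RX.RCM

open Set Finset Filter Topology

set_option linter.unusedSectionVars false

variable {V : Type*} [Fintype V] [DecidableEq V]
variable {U : Finset V} {τ : ℝ} {T A B : ℝ → V → V → ℝ}

variable {I : Type*} {i1 : I} {v : I → V → ℝ} {α μ : I → V → ℝ → ℝ} {s : Gv I V}

/-- the solution of level 1/2: leading parts plus remainders with bounded rows -/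
structure Glv (U : Finset V) (τ : ℝ) (T A B : ℝ → V → V → ℝ) (v : I → V → ℝ)
    (s : Gv I V) (Zp Zm : V → V → ℝ → ℝ) : Prop where
  g : ∃ gp' gm', S12 U τ T A B (fun i j r => Pd A τ i j r + Zp i j r) gp'
    (fun i j r => Md U T A B τ i j r + Zm i j r) gm'
  dp : ∀ i ∈ U, ∀ j ∈ U, i ≠ j → ∀ r ∈ Icc 0 τ, HasDerivAt (Zp i j)
    (-Fp U (T r) (fun a b => Pd A τ a b r + Zp a b r) (fun a b => Md U T A B τ a b r + Zm a b r)
      i j) r
  dm : ∀ i ∈ U, ∀ j ∈ U, i ≠ j → ∀ r ∈ Icc 0 τ, HasDerivAt (Zm i j)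
    (-(Fm U (T r) (fun a b => Pd A τ a b r + Zp a b r)
      (fun a b => Md U T A B τ a b r + Zm a b r) i j
      - Lf1 U (T r) (fun a b => Pd A τ a b r) i j)) r
  p0 : ∀ i j, ∀ r ∈ Icc 0 τ, 0 ≤ Zp i j r
  m0 : ∀ i j, ∀ r ∈ Icc 0 τ, 0 ≤ Zm i j r
  ps : ∀ i j, ∀ r ∈ Icc 0 τ, Zp i j r = Zp j i r
  ms : ∀ i j, ∀ r ∈ Icc 0 τ, Zm i j r = Zm j i r
  pz : ∀ i r, Zp i i r = 0
  mz : ∀ i r, Zm i i r = 0
  pe : ∀ i j, Zp i j τ = 0
  me : ∀ i j, Zm i j τ = 0
  cp : ∀ i j, ContinuousOn (Zp i j) (Icc 0 τ)
  cm : ∀ i j, ContinuousOn (Zm i j) (Icc 0 τ)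
  rp : ∀ i, ∀ x ∈ U, ∀ r ∈ Icc 0 τ, ∑ y ∈ U, Zp x y r * v i y ≤ s.zp i x r
  rm : ∀ i, ∀ x ∈ U, ∀ r ∈ Icc 0 τ, ∑ y ∈ U, Zm x y r * v i y ≤ s.zm i x r

/-- **existence of level 1/2 with row bounds** -/
theorem exists_gv (hd : Rd τ T A B)
    (h : Gvc i1 U τ T (Pd A τ) (Md U T A B τ) v α μ s) :
    ∃ Zp Zm : V → V → ℝ → ℝ, Glv U τ T A B v s Zp Zm := by
  obtain ⟨g, dg, gτ, hC, -⟩ := exists_gv0 hd.τ0 h
  let Zp : V → V → ℝ → ℝ := fun i j r => if i = j then 0 else g (true, i, j) r
  let Zm : V → V → ℝ → ℝ := fun i j r => if i = j then 0 else g (false, i, j) r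
  have ep : ∀ r ∈ Icc 0 τ, ∀ i j, Zp i j r = g (true, i, j) r := fun r hr i j => by
    by_cases hij : i = j
    · subst hij
      simp only [Zp, if_true]
      exact ((hC r hr).2.2.1 true i).symm
    · simp only [Zp, if_neg hij]
  have em : ∀ r ∈ Icc 0 τ, ∀ i j, Zm i j r = g (false, i, j) r := fun r hr i j => by
    by_cases hij : i = j
    · subst hij
      simp only [Zm, if_true]
      exact ((hC r hr).2.2.1 false i).symm
    · simp only [Zm, if_neg hij]
  have fp : ∀ r ∈ Icc 0 τ, (fun a b => Pd A τ a b r + Zp a b r)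
      = fun a b => Pd A τ a b r + g (true, a, b) r := fun r hr => by
    funext a b; rw [ep r hr]
  have fm : ∀ r ∈ Icc 0 τ, (fun a b => Md U T A B τ a b r + Zm a b r)
      = fun a b => Md U T A B τ a b r + g (false, a, b) r := fun r hr => by
    funext a b; rw [em r hr]
  have dZp : ∀ i ∈ U, ∀ j ∈ U, i ≠ j → ∀ r ∈ Icc 0 τ, HasDerivAt (Zp i j)
      (-Fp U (T r) (fun a b => Pd A τ a b r + Zp a b r)
        (fun a b => Md U T A B τ a b r + Zm a b r) i j) r := by
    intro i hi j hj hij r hr
    have h1 := dg (true, i, j) r hr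
    have e : Zp i j = g (true, i, j) := funext fun r => by simp only [Zp, if_neg hij]
    rw [e, fp r hr, fm r hr]
    unfold Rg at h1
    rwa [if_pos ⟨hi, hj, hij⟩, if_pos rfl] at h1
  have dZm : ∀ i ∈ U, ∀ j ∈ U, i ≠ j → ∀ r ∈ Icc 0 τ, HasDerivAt (Zm i j)
      (-(Fm U (T r) (fun a b => Pd A τ a b r + Zp a b r)
        (fun a b => Md U T A B τ a b r + Zm a b r) i j
        - Lf1 U (T r) (fun a b => Pd A τ a b r) i j)) r := by
    intro i hi j hj hij r hr
    have h1 := dg (false, i, j) r hr
    have e : Zm i j = g (false, i, j) := funext fun r => by simp only [Zm, if_neg hij]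
    rw [e, fp r hr, fm r hr]
    unfold Rg at h1
    rwa [if_pos ⟨hi, hj, hij⟩, if_neg (by simp)] at h1
  have p0 : ∀ i j, ∀ r ∈ Icc 0 τ, 0 ≤ Zp i j r := fun i j r hr => by
    rw [ep r hr]; exact (hC r hr).1 _ _ _
  have m0 : ∀ i j, ∀ r ∈ Icc 0 τ, 0 ≤ Zm i j r := fun i j r hr => by
    rw [em r hr]; exact (hC r hr).1 _ _ _
  refine ⟨Zp, Zm, ?_⟩
  refine
    { g := ⟨fun i j r => if i = j then 0 else -(A r i j + Fp U (T r)
          (fun a b => Pd A τ a b r + Zp a b r) (fun a b => Md U T A B τ a b r + Zm a b r) i j),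
        fun i j r => if i = j then 0 else -(B r i j + Fm U (T r)
          (fun a b => Pd A τ a b r + Zp a b r) (fun a b => Md U T A B τ a b r + Zm a b r) i j),
        ?_⟩
      dp := dZp
      dm := dZm
      p0 := p0
      m0 := m0
      ps := fun i j r hr => by rw [ep r hr, ep r hr]; exact (hC r hr).2.1 _ _ _
      ms := fun i j r hr => by rw [em r hr, em r hr]; exact (hC r hr).2.1 _ _ _
      pz := fun i r => by simp only [Zp, if_true]
      mz := fun i r => by simp only [Zm, if_true]
      pe := fun i j => by simp only [Zp, gτ, ite_self]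
      me := fun i j => by simp only [Zm, gτ, ite_self]
      cp := fun i j => by
        by_cases hij : i = j
        · have : Zp i j = fun _ => 0 := funext fun r => by simp only [Zp, if_pos hij]
          rw [this]; exact continuousOn_const
        · have : Zp i j = g (true, i, j) := funext fun r => by simp only [Zp, if_neg hij]
          rw [this]
          exact fun r hr => (dg _ r hr).continuousAt.continuousWithinAt
      cm := fun i j => by
        by_cases hij : i = j
        · have : Zm i j = fun _ => 0 := funext fun r => by simp only [Zm, if_pos hij]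
          rw [this]; exact continuousOn_const
        · have : Zm i j = g (false, i, j) := funext fun r => by simp only [Zm, if_neg hij]
          rw [this]
          exact fun r hr => (dg _ r hr).continuousAt.continuousWithinAt
      rp := fun i x hx r hr => by
        have := (hC r hr).2.2.2.2.1 i x hx
        refine le_trans (le_of_eq (Finset.sum_congr rfl fun y _ => ?_)) this
        rw [ep r hr]
      rm := fun i x hx r hr => by
        have := (hC r hr).2.2.2.2.2 i x hx
        refine le_trans (le_of_eq (Finset.sum_congr rfl fun y _ => ?_)) this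
        rw [em r hr] }
  refine
    { dp := fun i hi j hj r hr => ?_
      dm := fun i hi j hj r hr => ?_
      gp0 := fun i j r hr => add_nonneg (hd.P0 i j hr) (p0 i j r hr)
      gm0 := fun i j r hr => add_nonneg (hd.M0 i j hr) (m0 i j r hr)
      op := fun i hi j hj hij r hr => ?_
      om := fun i hi j hj hij r hr => ?_ }
  · by_cases hij : i = j
    · subst hij
      have : (fun r => Pd A τ i i r + Zp i i r) = fun _ => 0 := funext fun r => by
        rw [hd.Pz]; simp only [Zp, if_true, add_zero]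
      simp only [if_true]
      rw [this]; exact hasDerivAt_const r 0
    · simp only [if_neg hij]
      exact ((hd.dP i j hr).add (dZp i hi j hj hij r hr)).congr_deriv (by ring)
  · by_cases hij : i = j
    · subst hij
      have : (fun r => Md U T A B τ i i r + Zm i i r) = fun _ => 0 := funext fun r => by
        rw [Rd.Mz]; simp only [Zm, if_true, add_zero]
      simp only [if_true]
      rw [this]; exact hasDerivAt_const r 0
    · simp only [if_neg hij]
      refine ((hd.dM (U := U) i j hr).add (dZm i hi j hj hij r hr)).congr_deriv ?_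
      rw [if_neg hij]; ring
  · simp only [if_neg hij, neg_neg]
    have := le_Fp (U := U) (T := T r) (p := fun a b => Pd A τ a b r + Zp a b r)
      (m := fun a b => Md U T A B τ a b r + Zm a b r) (hd.T0 r hr)
      (fun i j => add_nonneg (hd.P0 i j hr) (p0 i j r hr))
      (fun i j => add_nonneg (hd.M0 i j hr) (m0 i j r hr)) i j
    linarith
  · simp only [if_neg hij, neg_neg]
    have := le_Fm (U := U) (T := T r) (p := fun a b => Pd A τ a b r + Zp a b r)
      (m := fun a b => Md U T A B τ a b r + Zm a b r) (hd.T0 r hr)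
      (fun i j => add_nonneg (hd.P0 i j hr) (p0 i j r hr))
      (fun i j => add_nonneg (hd.M0 i j hr) (m0 i j r hr)) i j
    linarith

end Pool.Agent.RX.RCM
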