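import Pool.Agent.RX.RCM.GQc
import Pool.Agent.RX.RCM.GQd

/-! The level 1/2 of a cell in the clock variable, rows by functions of the weight to the base set:
basic functions (MP_73ccd0_lc, route M). -/

namespace Pool.Agent.RX.RCM

open Set Finset

set_option linter.unusedSectionVars false
set_option linter.unusedVariables false

variable {V : Type*} [Fintype V] [DecidableEq V]

/-- basic functions of the clock variable -/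
structure Cb where
  U : ℝ
  Yb : ℝ → ℝ
  f : ℝ → ℝ → ℝ
  Pi : ℝ → ℝ → ℝ → ℝ
  Pi' : ℝ → ℝ → ℝ → ℝ
  ps : ℝ → ℝ → ℝ
  ps' : ℝ → ℝ → ℝ

structure Cb.Ok (c : Cb) : Prop where
  ex : ∀ k ∈ Icc (0 : ℝ) 1, ∀ u ∈ Icc 0 c.U, Real.exp (k * u + (1 - k) * c.Yb u) ≤ c.f k u
  dPi : ∀ k l u, HasDerivAt (c.Pi k l) (c.Pi' k l u) u
  oPi : ∀ k ∈ Icc (0 : ℝ) 1, ∀ l ∈ Icc (0 : ℝ) 1, ∀ u ∈ Icc 0 c.U,
    c.f k u * c.f l u - 1 ≤ c.Pi' k l u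
  Pi0 : ∀ k ∈ Icc (0 : ℝ) 1, ∀ l ∈ Icc (0 : ℝ) 1, ∀ u ∈ Icc 0 c.U, 0 ≤ c.Pi k l u
  dps : ∀ k u, HasDerivAt (c.ps k) (c.ps' k u) u
  ops : ∀ k ∈ Icc (0 : ℝ) 1, ∀ u ∈ Icc 0 c.U, c.f k u - 1 ≤ c.ps' k u
  ps0 : ∀ k ∈ Icc (0 : ℝ) 1, 0 ≤ c.ps k 0

theorem Cb.Ok.f0 {c : Cb} (h : c.Ok) {k : ℝ} (hk : k ∈ Icc (0 : ℝ) 1) {u : ℝ}
    (hu : u ∈ Icc 0 c.U) : 0 ≤ c.f k u := (Real.exp_pos _).le.trans (h.ex k hk u hu)

/-- the conditions on the functions for the rows -/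
structure Mf.Okb (m : Mf) (c : Cb) (cap : ℕ) (ps : ℝ → ℝ → ℝ) : Prop where
  dMb : ∀ k u, HasDerivAt (m.Mb k) (m.Mb' k u) u
  Mb0 : ∀ k ∈ Icc (0 : ℝ) 1, 0 ≤ m.Mb k 0
  oMb : ∀ k ∈ Icc (0 : ℝ) 1, ∀ u ∈ Icc 0 c.U, m.al k u + gK cap k * m.be k u ≤ m.Mb' k u
  al0 : ∀ k ∈ Icc (0 : ℝ) 1, ∀ u ∈ Icc 0 c.U, 0 ≤ m.al k u
  be0 : ∀ k ∈ Icc (0 : ℝ) 1, ∀ u ∈ Icc 0 c.U, 0 ≤ m.be k u
  Q0 : ∀ k ∈ Icc (0 : ℝ) 1, ∀ u ∈ Icc 0 c.U, ∀ y κ, 0 ≤ y → 0 ≤ κ → y + κ ≤ 1 →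
    0 ≤ m.Q y κ k u
  R0 : ∀ k ∈ Icc (0 : ℝ) 1, ∀ u ∈ Icc 0 c.U, ∀ l ∈ Icc (0 : ℝ) 1, 0 ≤ m.R l k u
  hQ : ∀ k ∈ Icc (0 : ℝ) 1, ∀ u ∈ Icc 0 c.U, ∀ κ ∈ Icc (0 : ℝ) 1, ∀ l ∈ Icc (0 : ℝ) 1,
    ∀ y, 0 ≤ y → y + κ ≤ 1 → y + k ≤ 1 →
      y * (ps l u + (c.f k u * c.f κ u * c.Pi κ l u
        + c.Pi k κ u * (c.f κ u * c.f l u))) ≤ m.Q y κ k u + m.R l k u
  hF : ∀ k ∈ Icc (0 : ℝ) 1, ∀ u ∈ Icc 0 c.U, ∀ y κ, 0 ≤ y → 0 ≤ κ → y + κ ≤ 1 → y + k ≤ 1 →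
    y * ((1 - k) * ps κ u + y * ps k u) + (m.Q y κ k u + m.R κ k u) * (1 - κ - y)
      ≤ m.al k u * y + eK cap k * m.be k u * κ

/-- a one step linear program -/
def Lpf (cap : ℕ) (k : ℝ) (φ : ℝ → ℝ) (W : ℝ) : Prop :=
  ∃ α β : ℝ, 0 ≤ α ∧ 0 ≤ β ∧ φ 0 + α + gK cap k * β ≤ W ∧ 0 ≤ φ 0 ∧
    ∀ y κ, 0 ≤ y → 0 ≤ κ → y + κ ≤ 1 → y * (φ κ - φ 0) ≤ α * y + eK cap k * β * κ

variable {x : V → V → ℝ} {D : Finset V} {cap : ℕ}

theorem Gr.lpf (h : Gr x D cap) {i : V} (hi : i ∈ Dᶜ) {φ : ℝ → ℝ} {W : ℝ}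
    (hφ : Lpf cap (kx x D i) φ W) :
    ∑ b ∈ Dᶜ, x i b * φ (kx x D b) ≤ (1 - kx x D i) * W := by
  obtain ⟨α, β, α0, β0, hB, f0, hF⟩ := hφ
  rw [h.erase_sum i fun b => φ (kx x D b)]
  have h1 := h.lp hi (F := fun b => x i b * (φ (kx x D b) - φ 0)) α0 β0 fun b hb =>
    hF _ _ (h.wt.nn _ _) (h.k0 b) (h.pair' b hi)
  have h2 : ∑ b ∈ Dᶜ.erase i, x i b * φ (kx x D b)
      = ∑ b ∈ Dᶜ.erase i, x i b * (φ (kx x D b) - φ 0)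
        + (∑ b ∈ Dᶜ.erase i, x i b) * φ 0 := by
    rw [Finset.sum_mul, ← Finset.sum_add_distrib]
    exact Finset.sum_congr rfl fun b _ => by ring
  have h3 : ∑ b ∈ Dᶜ.erase i, x i b ≤ 1 - kx x D i :=
    (sum_erase_le fun b _ => h.wt.nn i b).trans (h.row i)
  have h4 := mul_le_mul_of_nonneg_right h3 f0
  have h5 := mul_le_mul_of_nonneg_left hB (by linarith [h.k1 i] : 0 ≤ 1 - kx x D i)
  rw [h2]
  nlinarith

variable {hb : ℝ → V → V → ℝ} {τ : ℝ} {mb : ℝ → ℝ}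
  {θ : V → ℝ → ℝ} {Y Y' N N' C : ℝ → ℝ} {c : Cb}

namespace Cl

theorem eyb (h : Cl hb x D τ mb θ Y Y' N N' C cap c.U c.Yb) (hc : c.Ok) (e : V) {r : ℝ}
    (hr : r ∈ Icc 0 τ) :
    Real.exp (yx hb x D θ Y τ e r) ≤ c.f (kx x D e) (C τ - C r) :=
  (Real.exp_le_exp.2 (h.yx_le' e hr)).trans (hc.ex _ (h.g.ks e) _ (h.um hr))

/-- the kernel -/
theorem tkb (h : Cl hb x D τ mb θ Y Y' N N' C cap c.U c.Yb) (hc : c.Ok) {r : ℝ}
    (hr : r ∈ Icc 0 τ) :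
    Tk x D (Tb hb (yx hb x D θ Y τ) r) (fun k => c.f k (C τ - C r)) (mb r) where
  T0 i j := mul_nonneg (h.L.b0 i j r hr) (Real.exp_pos _).le
  Ts i j := by unfold Tb; rw [h.hs.s, add_comm]
  Tz i := by unfold Tb; rw [h.hs.z, zero_mul]
  m0 := h.L.mb0 r hr
  le i _ j _ := by
    unfold Tb
    have h1 := h.eyb hc i hr
    have h2 := h.eyb hc j hr
    have h3 := h.L.lm i j r hr
    rw [Real.exp_add]
    have h4 : Real.exp (yx hb x D θ Y τ i r) * Real.exp (yx hb x D θ Y τ j r)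
        ≤ c.f (kx x D i) (C τ - C r) * c.f (kx x D j) (C τ - C r) :=
      mul_le_mul h1 h2 (Real.exp_pos _).le ((Real.exp_pos _).le.trans h1)
    have h5 := mul_le_mul h3 h4 (mul_nonneg (Real.exp_pos _).le (Real.exp_pos _).le)
      (mul_nonneg (h.hx.nn i j) (h.L.mb0 r hr))
    refine h5.trans (le_of_eq (by ring))

/-- the leading part of `gp` -/
theorem pkb (h : Cl hb x D τ mb θ Y Y' N N' C cap c.U c.Yb) (hc : c.Ok) {r : ℝ}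
    (hr : r ∈ Icc 0 τ) :
    Pk x D (fun i j => Pd (Ab hb (yx hb x D θ Y τ)) τ i j r)
      (fun k l => c.Pi k l (C τ - C r)) where
  P0 i j := h.rd.P0 i j hr
  Ps i j := by rw [h.rd.Ps i j]
  le i _ j _ := by
    have ki := h.g.ks i
    have kj := h.g.ks j
    refine bk_le_of (g := fun r => x i j * c.Pi (kx x D i) (kx x D j) (C τ - C r))
      (g' := fun r => x i j * -(mb r * c.Pi' (kx x D i) (kx x D j) (C τ - C r)))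
      h.τ0 (h.Ac i j) (fun r hr => (h.dcl (hc.dPi _ _) hr).const_mul _) (fun r hr => ?_)
      ?_ r hr
    · have h1 := h.eyb hc i hr
      have h2 := h.eyb hc j hr
      have h3 := h.L.lm i j r hr
      have h4 : Real.exp (yx hb x D θ Y τ i r) * Real.exp (yx hb x D θ Y τ j r)
          ≤ c.f (kx x D i) (C τ - C r) * c.f (kx x D j) (C τ - C r) :=
        mul_le_mul h1 h2 (Real.exp_pos _).le ((Real.exp_pos _).le.trans h1)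
      have h5 := hc.oPi _ ki _ kj _ (h.um hr)
      have h6 : 0 ≤ Real.exp (yx hb x D θ Y τ i r + yx hb x D θ Y τ j r) - 1 := by
        have := Real.one_le_exp (add_nonneg (h.L.yx_nonneg h.hx i hr)
          (h.L.yx_nonneg h.hx j hr))
        linarith
      have h7 : Real.exp (yx hb x D θ Y τ i r + yx hb x D θ Y τ j r) - 1
          ≤ c.Pi' (kx x D i) (kx x D j) (C τ - C r) := by
        rw [Real.exp_add]; linarith
      unfold Ab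
      have h8 := mul_le_mul h3 h7 h6 (mul_nonneg (h.hx.nn i j) (h.L.mb0 r hr))
      refine h8.trans (le_of_eq (by ring))
    · have h1 : C τ - C τ = 0 := sub_self _
      rw [h1]
      exact mul_nonneg (h.hx.nn i j) (hc.Pi0 _ ki _ kj 0 h.u0m)

/-- the lower functions -/
theorem nb_le (h : Cl hb x D τ mb θ Y Y' N N' C cap c.U c.Yb) (hc : c.Ok) {e : V}
    (he : e ∈ Dᶜ) {r : ℝ} (hr : r ∈ Icc 0 τ) :
    nx hb x D θ Y τ e r ≤ ∑ g ∈ Dᶜ, x e g * c.ps (kx x D g) (C τ - C r) := by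
  rw [nx_eq he]
  have dg : ∀ r ∈ Icc 0 τ, HasDerivAt
      (fun r => ∑ g ∈ Dᶜ, x e g * c.ps (kx x D g) (C τ - C r))
      (∑ g ∈ Dᶜ, x e g * -(mb r * c.ps' (kx x D g) (C τ - C r))) r := fun r hr =>
    HasDerivAt.fun_sum fun g _ => (h.dcl (hc.dps _) hr).const_mul _
  refine bk_le_of h.τ0 (nv_int_cont h.L.bc h.yc _ e) dg (fun r hr => ?_) ?_ r hr
  · rw [← Finset.sum_neg_distrib]
    refine Finset.sum_le_sum fun g _ => ?_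
    have h1 := h.eyb hc g hr
    have h2 := hc.ops _ (h.g.ks g) _ (h.um hr)
    have h3 : 0 ≤ Real.exp (yx hb x D θ Y τ g r) - 1 := by
      have := Real.one_le_exp (h.L.yx_nonneg h.hx g hr)
      linarith
    have h8 := mul_le_mul (h.L.lm e g r hr) (by linarith : Real.exp (yx hb x D θ Y τ g r) - 1
      ≤ c.ps' (kx x D g) (C τ - C r)) h3 (mul_nonneg (h.hx.nn e g) (h.L.mb0 r hr))
    refine h8.trans (le_of_eq (by ring))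
  · refine Finset.sum_nonneg fun g _ => mul_nonneg (h.hx.nn e g) ?_
    have h1 : C τ - C τ = 0 := sub_self _
    rw [h1]
    exact hc.ps0 _ (h.g.ks g)

/-- rows of a leading part -/
theorem mrowb (h : Cl hb x D τ mb θ Y Y' N N' C cap c.U c.Yb) (hc : c.Ok) {m : Mf}
    {ps : ℝ → ℝ → ℝ} (hm : m.Okb c cap ps) {n : V → ℝ → ℝ} {B : ℝ → V → V → ℝ}
    (hR : Rd τ (Tb hb (yx hb x D θ Y τ)) (Ab hb (yx hb x D θ Y τ)) B)
    (n0 : ∀ e, ∀ r ∈ Icc 0 τ, 0 ≤ n e r)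
    (hn : ∀ e ∈ Dᶜ, ∀ r ∈ Icc 0 τ, n e r ≤ ∑ g ∈ Dᶜ, x e g * ps (kx x D g) (C τ - C r))
    (hB : ∀ i j, ∀ r ∈ Icc 0 τ, B r i j ≤ mb r * x i j * (n i r + n j r))
    {i : V} (hi : i ∈ Dᶜ) {r : ℝ} (hr : r ∈ Icc 0 τ) :
    ∑ j ∈ Dᶜ, Md Dᶜ (Tb hb (yx hb x D θ Y τ)) (Ab hb (yx hb x D θ Y τ)) B τ i j r
      ≤ (1 - kx x D i) * m.Mb (kx x D i) (C τ - C r) := by
  have ki := h.g.ks i
  have m1 : ∀ r ∈ Icc 0 τ, ∑ j ∈ Dᶜ.erase i, (B r i j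
      + Lf1 Dᶜ (Tb hb (yx hb x D θ Y τ) r)
        (fun a b => Pd (Ab hb (yx hb x D θ Y τ)) τ a b r) i j)
      ≤ mb r * ((1 - kx x D i) * m.Mb' (kx x D i) (C τ - C r)) := by
    intro r hr
    have hu := h.um hr
    have h1 := m1_row h.g (h.tkb hc hr) (h.pkb hc hr) (fun k hk => hc.f0 hk hu)
      (fun k hk l hl => hc.Pi0 k hk l hl _ hu)
      (n := fun e => n e r) (B := B r)
      (ψ := fun k => ps k (C τ - C r)) (fun e => n0 e r hr)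
      (fun e he => hn e he r hr) hi (fun j _ => hB i j r hr)
      (Q := fun y κ => m.Q y κ (kx x D i) (C τ - C r))
      (R := fun l => m.R l (kx x D i) (C τ - C r))
      (α := m.al (kx x D i) (C τ - C r)) (β := m.be (kx x D i) (C τ - C r))
      (hm.al0 _ ki _ hu) (hm.be0 _ ki _ hu) (hm.Q0 _ ki _ hu) (hm.R0 _ ki _ hu)
      (fun κ hκ l hl y y0 h2 h3 => hm.hQ _ ki _ hu κ hκ l hl y y0 h2 h3)
      (fun y κ y0 κ0 h2 h3 => hm.hF _ ki _ hu y κ y0 κ0 h2 h3)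
    refine h1.trans (mul_le_mul_of_nonneg_left (mul_le_mul_of_nonneg_left
      (hm.oMb _ ki _ hu) (by linarith [ki.2])) (h.L.mb0 r hr))
  have d1 : ∀ r ∈ Icc 0 τ, HasDerivAt (fun r => ∑ j ∈ Dᶜ, Md Dᶜ
      (Tb hb (yx hb x D θ Y τ)) (Ab hb (yx hb x D θ Y τ)) B τ i j r)
      (∑ j ∈ Dᶜ, -(if i = j then 0 else B r i j
        + Lf1 Dᶜ (Tb hb (yx hb x D θ Y τ) r)
          (fun a b => Pd (Ab hb (yx hb x D θ Y τ)) τ a b r) i j)) r := fun r hr =>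
    HasDerivAt.fun_sum fun j _ => hR.dM i j hr
  have d2 : ∀ r ∈ Icc 0 τ, HasDerivAt
      (fun r => (1 - kx x D i) * m.Mb (kx x D i) (C τ - C r))
      ((1 - kx x D i) * -(mb r * m.Mb' (kx x D i) (C τ - C r))) r := fun r hr =>
    (h.dcl (hm.dMb _) hr).const_mul _
  refine back_le d1 d2 (fun r hr => ?_) ?_ r hr
  · have h1 := m1 r hr
    have e1 : ∑ j ∈ Dᶜ, -(if i = j then 0 else B r i j
        + Lf1 Dᶜ (Tb hb (yx hb x D θ Y τ) r)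
          (fun a b => Pd (Ab hb (yx hb x D θ Y τ)) τ a b r) i j)
        = -∑ j ∈ Dᶜ.erase i, (B r i j
          + Lf1 Dᶜ (Tb hb (yx hb x D θ Y τ) r)
            (fun a b => Pd (Ab hb (yx hb x D θ Y τ)) τ a b r) i j) := by
      rw [Finset.sum_neg_distrib, ← Finset.add_sum_erase Dᶜ _ hi, if_pos rfl, zero_add]
      congr 1
      refine Finset.sum_congr rfl fun j hj => ?_
      rw [if_neg fun e => Finset.ne_of_mem_erase hj e.symm]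
    rw [e1]
    linarith
  · have e1 : ∑ j ∈ Dᶜ, Md Dᶜ (Tb hb (yx hb x D θ Y τ)) (Ab hb (yx hb x D θ Y τ))
        B τ i j τ = 0 :=
      Finset.sum_eq_zero fun j _ => by unfold Md; rw [bk_self]
    rw [e1]
    have e2 : C τ - C τ = 0 := sub_self _
    rw [e2]
    exact mul_nonneg (by linarith [ki.2]) (hm.Mb0 _ ki)

end Cl

end Pool.Agent.RX.RCM
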