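import Pool.Agent.RX.RCM.GTb
import Pool.Agent.RX.RCM.GTd

/-! The level 1/2 of a cell in the clock variable, rows by functions of the weight to the base set:
existence and rows (MP_73ccd0_lc, route M). -/

namespace Pool.Agent.RX.RCM

open Set Finset

set_option linter.unusedSectionVars false
set_option linter.unusedVariables false

variable {V : Type*} [Fintype V] [DecidableEq V]

/-- functions of the clock variable for level 1/2; the tests are `1` (index `true`) and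
`(1 - k) h1 k` (index `false`) -/
structure Ct where
  b : Cb
  h1 : ℝ → ℝ
  B : ℝ → ℝ → ℝ
  Pb : Bool → ℝ → ℝ → ℝ
  m : Mf
  mR : Mf
  zp : Bool → ℝ → ℝ → ℝ
  zp' : Bool → ℝ → ℝ → ℝ
  zm : Bool → ℝ → ℝ → ℝ
  zm' : Bool → ℝ → ℝ → ℝ
  sf : ℝ → ℝ
  Sm : Bool → ℝ → ℝ
  Sz : Bool → ℝ → ℝ
  Sp : Bool → ℝ → ℝ
  c : Bool → ℝ → ℝ
  jp : Bool → ℝ → ℝ
  jm : Bool → ℝ → ℝ

/-- the tests -/
def Ct.h (c : Ct) (i : Bool) (k : ℝ) : ℝ := if i then 1 else (1 - k) * c.h1 k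

structure Ct.Ok (c : Ct) (cap : ℕ) : Prop where
  b : c.b.Ok
  h0 : ∀ k ∈ Icc (0 : ℝ) 1, 0 ≤ c.h1 k
  hle : ∀ k ∈ Icc (0 : ℝ) 1, (1 - k) * c.h1 k ≤ 1
  B0 : ∀ k ∈ Icc (0 : ℝ) 1, ∀ u ∈ Icc 0 c.b.U, 0 ≤ c.B k u
  hB : ∀ k ∈ Icc (0 : ℝ) 1, ∀ u ∈ Icc 0 c.b.U, Lpf cap k (fun κ => c.b.f κ u) (c.B k u)
  hP : ∀ i, ∀ k ∈ Icc (0 : ℝ) 1, ∀ u ∈ Icc 0 c.b.U,
    Lpf cap k (fun κ => c.b.Pi k κ u * c.h i κ) (c.Pb i k u)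
  Pb0 : ∀ i, ∀ k ∈ Icc (0 : ℝ) 1, ∀ u ∈ Icc 0 c.b.U, 0 ≤ c.Pb i k u
  m : c.m.Okb c.b cap c.b.ps
  mR : c.mR.Okb c.b cap fun _ _ => 0
  M0 : ∀ k ∈ Icc (0 : ℝ) 1, ∀ u ∈ Icc 0 c.b.U, 0 ≤ c.m.Mb k u
  z0 : ∀ i, ∀ k ∈ Icc (0 : ℝ) 1, ∀ u ∈ Icc 0 c.b.U, 0 ≤ c.zp i k u
  z1 : ∀ i, ∀ k ∈ Icc (0 : ℝ) 1, ∀ u ∈ Icc 0 c.b.U, 0 ≤ c.zm i k u
  dzp : ∀ i k u, HasDerivAt (c.zp i k) (c.zp' i k u) u
  dzm : ∀ i k u, HasDerivAt (c.zm i k) (c.zm' i k u) u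
  /-- the sup constants -/
  hsf : ∀ k ∈ Icc (0 : ℝ) 1, ∀ u ∈ Icc 0 c.b.U, c.b.f k u * ((1 - k) * c.h1 k) ≤ c.sf u
  sf0 : ∀ u ∈ Icc 0 c.b.U, 0 ≤ c.sf u
  hSm : ∀ i, ∀ k ∈ Icc (0 : ℝ) 1, ∀ u ∈ Icc 0 c.b.U,
    c.b.f k u * ((1 - k) * (c.m.Mb k u + c.zm i k u)) ≤ c.Sm i u
  hSz : ∀ i, ∀ k ∈ Icc (0 : ℝ) 1, ∀ u ∈ Icc 0 c.b.U,
    c.b.f k u * ((1 - k) * c.zp i k u) ≤ c.Sz i u
  hSp : ∀ i, ∀ k ∈ Icc (0 : ℝ) 1, ∀ u ∈ Icc 0 c.b.U,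
    c.b.f k u * ((1 - k) * (c.Pb i k u + c.zp i k u)) ≤ c.Sp i u
  Sm0 : ∀ i, ∀ u ∈ Icc 0 c.b.U, 0 ≤ c.Sm i u
  Sz0 : ∀ i, ∀ u ∈ Icc 0 c.b.U, 0 ≤ c.Sz i u
  Sp0 : ∀ i, ∀ u ∈ Icc 0 c.b.U, 0 ≤ c.Sp i u
  hc1 : ∀ k ∈ Icc (0 : ℝ) 1, ∀ u ∈ Icc 0 c.b.U, c.b.f k u * c.B k u ≤ c.c true u * c.h1 k
  hc2 : ∀ k ∈ Icc (0 : ℝ) 1, ∀ u ∈ Icc 0 c.b.U, c.b.f k u * c.sf u ≤ c.c false u * c.h1 k
  c0 : ∀ i, ∀ u ∈ Icc 0 c.b.U, 0 ≤ c.c i u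
  hjp : ∀ i, ∀ k ∈ Icc (0 : ℝ) 1, ∀ u ∈ Icc 0 c.b.U,
    c.b.f k u * (c.B k u * ((1 - k) * (c.Pb i k u + c.zp i k u)) + c.Sp i u)
      ≤ c.jp i u * c.h1 k
  hjm : ∀ i, ∀ k ∈ Icc (0 : ℝ) 1, ∀ u ∈ Icc 0 c.b.U,
    c.b.f k u * (c.B k u * ((1 - k) * (c.m.Mb k u + c.zm i k u)) + c.Sm i u)
      ≤ c.jm i u * c.h1 k
  jp0 : ∀ i, ∀ u ∈ Icc 0 c.b.U, 0 ≤ c.jp i u
  jm0 : ∀ i, ∀ u ∈ Icc 0 c.b.U, 0 ≤ c.jm i u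
  /-- the differential inequalities -/
  op : ∀ i, ∀ k ∈ Icc (0 : ℝ) 1, ∀ u ∈ Icc 0 c.b.U,
    c.b.f k u * c.Sm i u + (c.c i u + c.jm i u) * (c.m.Mb k u + c.zm false k u)
      + c.jp i u * (c.Pb false k u + c.zp false k u) ≤ c.zp' i k u
  om : ∀ i, ∀ k ∈ Icc (0 : ℝ) 1, ∀ u ∈ Icc 0 c.b.U,
    c.b.f k u * c.Sz i u + c.c i u * c.zp false k u
      + c.jp i u * (c.m.Mb k u + c.zm false k u)
      + c.jm i u * (c.Pb false k u + c.zp false k u) ≤ c.zm' i k u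

variable {hb : ℝ → V → V → ℝ} {x : V → V → ℝ} {D : Finset V} {τ : ℝ} {mb : ℝ → ℝ}
  {θ : V → ℝ → ℝ} {Y Y' N N' C : ℝ → ℝ} {cap : ℕ} {c : Ct}

/-- the tests at the vertices -/
noncomputable def Ct.v (c : Ct) (x : V → V → ℝ) (D : Finset V) (i : Bool) (e : V) : ℝ := c.h i (kx x D e)

/-- the vertex functions -/
noncomputable def Ct.gv (c : Ct) (x : V → V → ℝ) (D : Finset V) (mb C : ℝ → ℝ) (τ : ℝ) :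
    Gv Bool V where
  zp i e r := (1 - kx x D e) * c.zp i (kx x D e) (C τ - C r)
  zp' i e r := (1 - kx x D e) * -(mb r * c.zp' i (kx x D e) (C τ - C r))
  zm i e r := (1 - kx x D e) * c.zm i (kx x D e) (C τ - C r)
  zm' i e r := (1 - kx x D e) * -(mb r * c.zm' i (kx x D e) (C τ - C r))
  am i e r := mb r * ((1 - kx x D e) * (c.b.f (kx x D e) (C τ - C r) * c.Sm i (C τ - C r)))
  az i e r := mb r * ((1 - kx x D e) * (c.b.f (kx x D e) (C τ - C r) * c.Sz i (C τ - C r)))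
  c i r := mb r * c.c i (C τ - C r)
  jp i r := mb r * c.jp i (C τ - C r)
  jm i r := mb r * c.jm i (C τ - C r)

section fixed

variable {T : V → V → ℝ} {f : ℝ → ℝ} {m : ℝ}

/-- `T` against a row function bounded through a sup constant -/
theorem Tk.act (hT : Tk x D T f m) (h : Gr x D cap) (f0 : ∀ k ∈ Icc (0 : ℝ) 1, 0 ≤ f k)
    {ρ : V → ℝ} {S : ℝ} (ρ0 : ∀ b ∈ Dᶜ, 0 ≤ ρ b) (hS : ∀ b ∈ Dᶜ, f (kx x D b) * ρ b ≤ S)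
    (S0 : 0 ≤ S) {e : V} (he : e ∈ Dᶜ) :
    ∑ b ∈ Dᶜ, T e b * ρ b ≤ m * ((1 - kx x D e) * (f (kx x D e) * S)) := by
  have fe := f0 _ (h.ks e)
  have h1 : ∑ b ∈ Dᶜ, T e b * ρ b
      ≤ ∑ b ∈ Dᶜ, m * f (kx x D e) * (x e b * (f (kx x D b) * ρ b)) := by
    refine Finset.sum_le_sum fun b hb => ?_
    refine (mul_le_mul_of_nonneg_right (hT.le e he b hb) (ρ0 b hb)).trans (le_of_eq (by ring))
  refine h1.trans ?_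
  rw [← Finset.mul_sum]
  have h2 := h.row_sup (g := fun b => f (kx x D b) * ρ b) hS S0 e
  refine (mul_le_mul_of_nonneg_left h2 (mul_nonneg hT.m0 fe)).trans (le_of_eq (by ring))

/-- rows of `T` -/
theorem Tk.rowT (hT : Tk x D T f m) (h : Gr x D cap) (f0 : ∀ k ∈ Icc (0 : ℝ) 1, 0 ≤ f k)
    {B : ℝ} {e : V} (he : e ∈ Dᶜ) (hB : Lpf cap (kx x D e) f B) :
    ∑ b ∈ Dᶜ, T e b ≤ m * ((1 - kx x D e) * (f (kx x D e) * B)) := by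
  have fe := f0 _ (h.ks e)
  have h1 : ∑ b ∈ Dᶜ, T e b ≤ ∑ b ∈ Dᶜ, m * f (kx x D e) * (x e b * f (kx x D b)) := by
    refine Finset.sum_le_sum fun b hb => (hT.le e he b hb).trans (le_of_eq (by ring))
  refine h1.trans ?_
  rw [← Finset.mul_sum]
  refine (mul_le_mul_of_nonneg_left (h.lpf he hB) (mul_nonneg hT.m0 fe)).trans
    (le_of_eq (by ring))

/-- the double rows -/
theorem Tk.dbl (hT : Tk x D T f m) (h : Gr x D cap) (f0 : ∀ k ∈ Icc (0 : ℝ) 1, 0 ≤ f k)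
    {B S j : ℝ} {ρ : V → ℝ} {H : ℝ} (ρ0 : ∀ b ∈ Dᶜ, 0 ≤ ρ b)
    (hS : ∀ b ∈ Dᶜ, f (kx x D b) * ρ b ≤ S) (S0 : 0 ≤ S) {e : V} (he : e ∈ Dᶜ)
    (hB : Lpf cap (kx x D e) f B) (hj : f (kx x D e) * (B * ρ e + S) ≤ j * H) :
    ∑ b ∈ Dᶜ, T e b * (ρ e + ρ b) ≤ m * j * ((1 - kx x D e) * H) := by
  have e1 : ∑ b ∈ Dᶜ, T e b * (ρ e + ρ b)
      = (∑ b ∈ Dᶜ, T e b) * ρ e + ∑ b ∈ Dᶜ, T e b * ρ b := by
    rw [Finset.sum_mul, ← Finset.sum_add_distrib]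
    exact Finset.sum_congr rfl fun b _ => by ring
  rw [e1]
  have h1 := mul_le_mul_of_nonneg_right (hT.rowT h f0 he hB) (ρ0 e he)
  have h2 := hT.act h f0 ρ0 hS S0 he
  have n1 : 0 ≤ 1 - kx x D e := by linarith [h.k1 e]
  have h3 := mul_le_mul_of_nonneg_left (mul_le_mul_of_nonneg_left hj n1) hT.m0
  calc _ ≤ m * ((1 - kx x D e) * (f (kx x D e) * B)) * ρ e
        + m * ((1 - kx x D e) * (f (kx x D e) * S)) := add_le_add h1 h2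
    _ = m * ((1 - kx x D e) * (f (kx x D e) * (B * ρ e + S))) := by ring
    _ ≤ m * ((1 - kx x D e) * (j * H)) := h3
    _ = _ := by ring

end fixed

end Pool.Agent.RX.RCM
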