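import Pool.Agent.RX.RCM.GTc
import Pool.Agent.RX.RCM.GTe

/-! The level 1/2 of a cell in the clock variable for a general kernel: existence and rows
(MP_73ccd0_lc, route M). -/

namespace Pool.Agent.RX.RCM

open Set Finset

set_option linter.unusedSectionVars false
set_option linter.unusedVariables false

variable {V : Type*} [Fintype V] [DecidableEq V]

/-- the conditions without those on the rows of the leading parts -/
structure Ct.Okz (c : Ct) (cap : ℕ) : Prop where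
  f0 : ∀ k ∈ Icc (0 : ℝ) 1, ∀ u ∈ Icc 0 c.b.U, 0 ≤ c.b.f k u
  h0 : ∀ k ∈ Icc (0 : ℝ) 1, 0 ≤ c.h1 k
  hle : ∀ k ∈ Icc (0 : ℝ) 1, (1 - k) * c.h1 k ≤ 1
  B0 : ∀ k ∈ Icc (0 : ℝ) 1, ∀ u ∈ Icc 0 c.b.U, 0 ≤ c.B k u
  hB : ∀ k ∈ Icc (0 : ℝ) 1, ∀ u ∈ Icc 0 c.b.U, Lpf cap k (fun κ => c.b.f κ u) (c.B k u)
  hP : ∀ i, ∀ k ∈ Icc (0 : ℝ) 1, ∀ u ∈ Icc 0 c.b.U,
    Lpf cap k (fun κ => c.b.Pi k κ u * c.h i κ) (c.Pb i k u)
  Pb0 : ∀ i, ∀ k ∈ Icc (0 : ℝ) 1, ∀ u ∈ Icc 0 c.b.U, 0 ≤ c.Pb i k u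
  M0 : ∀ k ∈ Icc (0 : ℝ) 1, ∀ u ∈ Icc 0 c.b.U, 0 ≤ c.m.Mb k u
  z0 : ∀ i, ∀ k ∈ Icc (0 : ℝ) 1, ∀ u ∈ Icc 0 c.b.U, 0 ≤ c.zp i k u
  z1 : ∀ i, ∀ k ∈ Icc (0 : ℝ) 1, ∀ u ∈ Icc 0 c.b.U, 0 ≤ c.zm i k u
  dzp : ∀ i k u, HasDerivAt (c.zp i k) (c.zp' i k u) u
  dzm : ∀ i k u, HasDerivAt (c.zm i k) (c.zm' i k u) u
  /-- the sup constants -/
  hsf : ∀ k ∈ Icc (0 : ℝ) 1, ∀ u ∈ Icc 0 c.b.U, c.b.f k u * ((1 - k) * c.h1 k) ≤ c.sf u
  sf0 : ∀ u ∈ Icc 0 c.b.U, 0 ≤ c.sf u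
  hSm : ∀ i, ∀ k ∈ Icc (0 : ℝ) 1, ∀ u ∈ Icc 0 c.b.U,
    c.b.f k u * ((1 - k) * (c.m.Mb k u + c.zm i k u)) ≤ c.Sm i u
  hSz : ∀ i, ∀ k ∈ Icc (0 : ℝ) 1, ∀ u ∈ Icc 0 c.b.U,
    c.b.f k u * ((1 - k) * c.zp i k u) ≤ c.Sz i u
  hSp : ∀ i, ∀ k ∈ Icc (0 : ℝ) 1, ∀ u ∈ Icc 0 c.b.U,
    c.b.f k u * ((1 - k) * (c.Pb i k u + c.zp i k u)) ≤ c.Sp i u
  Sm0 : ∀ i, ∀ u ∈ Icc 0 c.b.U, 0 ≤ c.Sm i u
  Sz0 : ∀ i, ∀ u ∈ Icc 0 c.b.U, 0 ≤ c.Sz i u
  Sp0 : ∀ i, ∀ u ∈ Icc 0 c.b.U, 0 ≤ c.Sp i u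
  hc1 : ∀ k ∈ Icc (0 : ℝ) 1, ∀ u ∈ Icc 0 c.b.U, c.b.f k u * c.B k u ≤ c.c true u * c.h1 k
  hc2 : ∀ k ∈ Icc (0 : ℝ) 1, ∀ u ∈ Icc 0 c.b.U, c.b.f k u * c.sf u ≤ c.c false u * c.h1 k
  c0 : ∀ i, ∀ u ∈ Icc 0 c.b.U, 0 ≤ c.c i u
  hjp : ∀ i, ∀ k ∈ Icc (0 : ℝ) 1, ∀ u ∈ Icc 0 c.b.U,
    c.b.f k u * (c.B k u * ((1 - k) * (c.Pb i k u + c.zp i k u)) + c.Sp i u)
      ≤ c.jp i u * c.h1 k
  hjm : ∀ i, ∀ k ∈ Icc (0 : ℝ) 1, ∀ u ∈ Icc 0 c.b.U,
    c.b.f k u * (c.B k u * ((1 - k) * (c.m.Mb k u + c.zm i k u)) + c.Sm i u)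
      ≤ c.jm i u * c.h1 k
  jp0 : ∀ i, ∀ u ∈ Icc 0 c.b.U, 0 ≤ c.jp i u
  jm0 : ∀ i, ∀ u ∈ Icc 0 c.b.U, 0 ≤ c.jm i u
  /-- the differential inequalities -/
  op : ∀ i, ∀ k ∈ Icc (0 : ℝ) 1, ∀ u ∈ Icc 0 c.b.U,
    c.b.f k u * c.Sm i u + (c.c i u + c.jm i u) * (c.m.Mb k u + c.zm false k u)
      + c.jp i u * (c.Pb false k u + c.zp false k u) ≤ c.zp' i k u
  om : ∀ i, ∀ k ∈ Icc (0 : ℝ) 1, ∀ u ∈ Icc 0 c.b.U,
    c.b.f k u * c.Sz i u + c.c i u * c.zp false k u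
      + c.jp i u * (c.m.Mb k u + c.zm false k u)
      + c.jm i u * (c.Pb false k u + c.zp false k u) ≤ c.zm' i k u


theorem Ct.Ok.okz {c : Ct} {cap : ℕ} (h : c.Ok cap) : c.Okz cap where
  f0 k hk u hu := h.b.f0 hk hu
  h0 := h.h0
  hle := h.hle
  B0 := h.B0
  hB := h.hB
  hP := h.hP
  Pb0 := h.Pb0
  M0 := h.M0
  z0 := h.z0
  z1 := h.z1
  dzp := h.dzp
  dzm := h.dzm
  hsf := h.hsf
  sf0 := h.sf0
  hSm := h.hSm
  hSz := h.hSz
  hSp := h.hSp
  Sm0 := h.Sm0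
  Sz0 := h.Sz0
  Sp0 := h.Sp0
  hc1 := h.hc1
  hc2 := h.hc2
  c0 := h.c0
  hjp := h.hjp
  hjm := h.hjm
  jp0 := h.jp0
  jm0 := h.jm0
  op := h.op
  om := h.om

variable {x : V → V → ℝ} {D : Finset V} {τ : ℝ} {mb C : ℝ → ℝ} {cap : ℕ} {c : Ct}
  {T A B : ℝ → V → V → ℝ}

/-- a cell with a general kernel -/
structure Wq (x : V → V → ℝ) (D : Finset V) (τ : ℝ) (mb C : ℝ → ℝ) (cap : ℕ) (c : Ct)
    (T A B : ℝ → V → V → ℝ) : Prop where
  g : Gr x D cap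
  rd : Rd τ T A B
  mb0 : ∀ r ∈ Icc 0 τ, 0 ≤ mb r
  dC : ∀ r ∈ Icc 0 τ, HasDerivAt C (mb r) r
  U : C τ - C 0 ≤ c.b.U
  tk : ∀ r ∈ Icc 0 τ, Tk x D (T r) (fun k => c.b.f k (C τ - C r)) (mb r)
  pk : ∀ r ∈ Icc 0 τ, Pk x D (fun i j => Pd A τ i j r) (fun k l => c.b.Pi k l (C τ - C r))
  mr : ∀ e ∈ Dᶜ, ∀ r ∈ Icc 0 τ, ∑ f ∈ Dᶜ, Md Dᶜ T A B τ e f r
    ≤ (1 - kx x D e) * c.m.Mb (kx x D e) (C τ - C r)

theorem Ct.Okz.h_nn (hc : c.Okz cap) (i : Bool) {k : ℝ} (hk : k ∈ Icc (0 : ℝ) 1) :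
    0 ≤ c.h i k := by
  unfold Ct.h
  split_ifs
  · exact zero_le_one
  · exact mul_nonneg (by linarith [hk.2]) (hc.h0 k hk)

theorem Ct.Okz.h_one (hc : c.Okz cap) (i : Bool) {k : ℝ} (hk : k ∈ Icc (0 : ℝ) 1) :
    c.h i k ≤ 1 := by
  unfold Ct.h
  split_ifs
  · exact le_rfl
  · exact hc.hle k hk

namespace Wq

theorem mono (h : Wq x D τ mb C cap c T A B) {r s : ℝ} (hr : r ∈ Icc 0 τ)
    (hs : s ∈ Icc 0 τ) (hrs : r ≤ s) : C r ≤ C s := by
  have hm : MonotoneOn C (Icc 0 τ) := by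
    refine monotoneOn_of_deriv_nonneg (convex_Icc 0 τ)
      (fun t ht => (h.dC t ht).continuousAt.continuousWithinAt)
      (fun t ht => (h.dC t (interior_subset ht)).differentiableAt.differentiableWithinAt) ?_
    intro t ht
    rw [(h.dC t (interior_subset ht)).deriv]
    exact h.mb0 t (interior_subset ht)
  exact hm hr hs hrs

theorem τm (h : Wq x D τ mb C cap c T A B) : τ ∈ Icc 0 τ := ⟨h.rd.τ0, le_rfl⟩

theorem um (h : Wq x D τ mb C cap c T A B) {r : ℝ} (hr : r ∈ Icc 0 τ) :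
    C τ - C r ∈ Icc 0 c.b.U := by
  refine ⟨by linarith [h.mono hr h.τm hr.2], ?_⟩
  have := h.mono ⟨le_rfl, h.rd.τ0⟩ hr hr.1
  linarith [h.U]

theorem dcl (h : Wq x D τ mb C cap c T A B) {F : ℝ → ℝ} {F' : ℝ → ℝ}
    (dF : ∀ u, HasDerivAt F (F' u) u) {r : ℝ} (hr : r ∈ Icc 0 τ) :
    HasDerivAt (fun r => F (C τ - C r)) (-(mb r * F' (C τ - C r))) r := by
  have h1 : HasDerivAt (fun r => C τ - C r) (-mb r) r := by
    simpa using (h.dC r hr).const_sub (C τ)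
  exact ((dF (C τ - C r)).comp r h1).congr_deriv (by ring)

end Wq

theorem Wq.gvc (h : Wq x D τ mb C cap c T A B) (hc : c.Okz cap) :
    Gvc false Dᶜ τ T (Pd A τ) (Md Dᶜ T A B τ)
      (c.v x D) (fun i e r => (1 - kx x D e) * c.Pb i (kx x D e) (C τ - C r))
      (fun _ e r => (1 - kx x D e) * c.m.Mb (kx x D e) (C τ - C r)) (c.gv x D mb C τ) where
  cT := h.rd.cT
  cP := h.rd.cP
  cM := h.rd.cM
  v1 := ⟨true, fun e _ => by simp [Ct.v, Ct.h]⟩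
  st r hr := by
    have hu := h.um hr
    have hT := h.tk r hr
    have hPk := h.pk r hr
    have f0 : ∀ k ∈ Icc (0 : ℝ) 1, 0 ≤ c.b.f k (C τ - C r) := fun k hk => hc.f0 k hk _ hu
    have n1 : ∀ e, 0 ≤ 1 - kx x D e := fun e => by linarith [h.g.k1 e]
    have vf : ∀ e, c.v x D false e = (1 - kx x D e) * c.h1 (kx x D e) := fun e => by
      simp [Ct.v, Ct.h]
    have rM : ∀ e ∈ Dᶜ, ∑ f ∈ Dᶜ, Md Dᶜ T A B τ e f r
        ≤ (1 - kx x D e) * c.m.Mb (kx x D e) (C τ - C r) := fun e he => h.mr e he r hr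
    exact
      { T0 := hT.T0
        Ts := hT.Ts
        Tz := hT.Tz
        P0 := hPk.P0
        Ps := hPk.Ps
        M0 := fun i j => h.rd.M0 i j hr
        Ms := fun i j => by rw [h.rd.Ms i j]
        v0 := fun i e => hc.h_nn i (h.g.ks e)
        hα := fun i e he => by
          refine le_trans (Finset.sum_le_sum fun b hb => ?_)
            (h.g.lpf he (hc.hP i _ (h.g.ks e) _ hu))
          have := mul_le_mul_of_nonneg_right (hPk.le e he b hb) (hc.h_nn i (h.g.ks b))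
          refine this.trans (le_of_eq (by ring))
        hμ := fun i e he => by
          refine le_trans (Finset.sum_le_sum fun b hb => ?_) (rM e he)
          have := mul_le_mul_of_nonneg_left (hc.h_one i (h.g.ks b)) (h.rd.M0 (U := Dᶜ) e b hr)
          rw [mul_one] at this
          exact this
        hT := fun i e he => by
          rw [vf]
          show ∑ b ∈ Dᶜ, T r e b * c.v x D i b
            ≤ mb r * c.c i (C τ - C r) * ((1 - kx x D e) * c.h1 (kx x D e))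
          cases i
          · have h1 := hT.act h.g f0 (ρ := c.v x D false) (S := c.sf (C τ - C r))
              (fun b _ => hc.h_nn false (h.g.ks b)) (fun b _ => by
                rw [vf]; exact hc.hsf _ (h.g.ks b) _ hu) (hc.sf0 _ hu) he
            have h2 := mul_le_mul_of_nonneg_left (mul_le_mul_of_nonneg_left
              (hc.hc2 _ (h.g.ks e) _ hu) (n1 e)) hT.m0
            refine h1.trans (h2.trans (le_of_eq (by ring)))
          · have e1 : ∀ b, c.v x D true b = 1 := fun b => by simp [Ct.v, Ct.h]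
            simp only [e1, mul_one]
            have h1 := hT.rowT h.g f0 he (hc.hB _ (h.g.ks e) _ hu)
            have h2 := mul_le_mul_of_nonneg_left (mul_le_mul_of_nonneg_left
              (hc.hc1 _ (h.g.ks e) _ hu) (n1 e)) hT.m0
            refine h1.trans (h2.trans (le_of_eq (by ring)))
        ham := fun i e he => by
          have h1 := hT.act h.g f0 (S := c.Sm i (C τ - C r))
            (ρ := fun b => (1 - kx x D b) * c.m.Mb (kx x D b) (C τ - C r)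
              + (1 - kx x D b) * c.zm i (kx x D b) (C τ - C r))
            (fun b _ => add_nonneg (mul_nonneg (n1 b) (hc.M0 _ (h.g.ks b) _ hu))
              (mul_nonneg (n1 b) (hc.z1 i _ (h.g.ks b) _ hu)))
            (fun b _ => by
              refine le_trans (le_of_eq ?_) (hc.hSm i _ (h.g.ks b) _ hu)
              ring) (hc.Sm0 i _ hu) he
          exact h1
        haz := fun i e he => by
          have h1 := hT.act h.g f0 (S := c.Sz i (C τ - C r))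
            (ρ := fun b => (1 - kx x D b) * c.zp i (kx x D b) (C τ - C r))
            (fun b _ => mul_nonneg (n1 b) (hc.z0 i _ (h.g.ks b) _ hu))
            (fun b _ => hc.hSz i _ (h.g.ks b) _ hu) (hc.Sz0 i _ hu) he
          exact h1
        hjp := fun i e he => by
          rw [vf]
          refine hT.dbl h.g f0 (S := c.Sp i (C τ - C r)) (j := c.jp i (C τ - C r))
            (B := c.B (kx x D e) (C τ - C r)) (H := c.h1 (kx x D e))
            (ρ := fun b => (1 - kx x D b) * c.Pb i (kx x D b) (C τ - C r)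
              + (1 - kx x D b) * c.zp i (kx x D b) (C τ - C r))
            (fun b _ => add_nonneg (mul_nonneg (n1 b) (hc.Pb0 i _ (h.g.ks b) _ hu))
              (mul_nonneg (n1 b) (hc.z0 i _ (h.g.ks b) _ hu)))
            (fun b _ => ?_) (hc.Sp0 i _ hu) he (hc.hB _ (h.g.ks e) _ hu) ?_
          · refine le_trans (le_of_eq ?_) (hc.hSp i _ (h.g.ks b) _ hu)
            ring
          · refine le_trans (le_of_eq ?_) (hc.hjp i _ (h.g.ks e) _ hu)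
            ring
        hjm := fun i e he => by
          rw [vf]
          refine hT.dbl h.g f0 (S := c.Sm i (C τ - C r)) (j := c.jm i (C τ - C r))
            (B := c.B (kx x D e) (C τ - C r)) (H := c.h1 (kx x D e))
            (ρ := fun b => (1 - kx x D b) * c.m.Mb (kx x D b) (C τ - C r)
              + (1 - kx x D b) * c.zm i (kx x D b) (C τ - C r))
            (fun b _ => add_nonneg (mul_nonneg (n1 b) (hc.M0 _ (h.g.ks b) _ hu))
              (mul_nonneg (n1 b) (hc.z1 i _ (h.g.ks b) _ hu)))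
            (fun b _ => ?_) (hc.Sm0 i _ hu) he (hc.hB _ (h.g.ks e) _ hu) ?_
          · refine le_trans (le_of_eq ?_) (hc.hSm i _ (h.g.ks b) _ hu)
            ring
          · refine le_trans (le_of_eq ?_) (hc.hjm i _ (h.g.ks e) _ hu)
            ring
        c0 := fun i => mul_nonneg hT.m0 (hc.c0 i _ hu)
        jp0 := fun i => mul_nonneg hT.m0 (hc.jp0 i _ hu)
        jm0 := fun i => mul_nonneg hT.m0 (hc.jm0 i _ hu) }
  z0 i e _ r hr := mul_nonneg (by linarith [h.g.k1 e]) (hc.z0 i _ (h.g.ks e) _ (h.um hr))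
  z1 i e _ r hr := mul_nonneg (by linarith [h.g.k1 e]) (hc.z1 i _ (h.g.ks e) _ (h.um hr))
  dzp i e _ r hr := (h.dcl (hc.dzp i _) hr).const_mul _
  dzm i e _ r hr := (h.dcl (hc.dzm i _) hr).const_mul _
  op i e _ r hr := by
    have h1 := mul_le_mul_of_nonneg_left (mul_le_mul_of_nonneg_left
      (hc.op i _ (h.g.ks e) _ (h.um hr)) (by linarith [h.g.k1 e] : 0 ≤ 1 - kx x D e))
      (h.mb0 r hr)
    simp only [Ct.gv]
    refine le_trans (le_of_eq ?_) (h1.trans (le_of_eq ?_))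
    · ring
    · ring
  om i e _ r hr := by
    have h1 := mul_le_mul_of_nonneg_left (mul_le_mul_of_nonneg_left
      (hc.om i _ (h.g.ks e) _ (h.um hr)) (by linarith [h.g.k1 e] : 0 ≤ 1 - kx x D e))
      (h.mb0 r hr)
    simp only [Ct.gv]
    refine le_trans (le_of_eq ?_) (h1.trans (le_of_eq ?_))
    · ring
    · ring


/-- level 1/2 of a cell with exact derivatives and rows; `u = C τ - C r` -/
structure Ggq (x : V → V → ℝ) (D : Finset V) (τ : ℝ) (C : ℝ → ℝ) (c : Ct)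
    (T A B : ℝ → V → V → ℝ) (gp gm : V → V → ℝ → ℝ) : Prop where
  g : ∃ gp' gm', S12 Dᶜ τ T A B gp gp' gm gm'
  dp : ∀ i ∈ Dᶜ, ∀ j ∈ Dᶜ, i ≠ j → ∀ r ∈ Icc 0 τ, HasDerivAt (gp i j)
    (-(A r i j + Fp Dᶜ (T r) (fun a b => gp a b r) (fun a b => gm a b r) i j)) r
  dm : ∀ i ∈ Dᶜ, ∀ j ∈ Dᶜ, i ≠ j → ∀ r ∈ Icc 0 τ, HasDerivAt (gm i j)
    (-(B r i j + Fm Dᶜ (T r) (fun a b => gp a b r) (fun a b => gm a b r) i j)) r
  p0 : ∀ i j, ∀ r ∈ Icc 0 τ, 0 ≤ gp i j r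
  m0 : ∀ i j, ∀ r ∈ Icc 0 τ, 0 ≤ gm i j r
  ps : ∀ i j, ∀ r ∈ Icc 0 τ, gp i j r = gp j i r
  ms : ∀ i j, ∀ r ∈ Icc 0 τ, gm i j r = gm j i r
  pz : ∀ i r, gp i i r = 0
  mz : ∀ i r, gm i i r = 0
  pe : ∀ i j, gp i j τ = 0
  me : ∀ i j, gm i j τ = 0
  cp : ∀ i j, ContinuousOn (gp i j) (Icc 0 τ)
  cm : ∀ i j, ContinuousOn (gm i j) (Icc 0 τ)
  /-- rows with the tests `1` and `(1 - k) h1 k` -/
  rp : ∀ i, ∀ e ∈ Dᶜ, ∀ r ∈ Icc 0 τ, ∑ f ∈ Dᶜ, gp e f r * c.h i (kx x D f) ≤ (1 - kx x D e)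
    * (c.Pb i (kx x D e) (C τ - C r) + c.zp i (kx x D e) (C τ - C r))
  rm : ∀ i, ∀ e ∈ Dᶜ, ∀ r ∈ Icc 0 τ, ∑ f ∈ Dᶜ, gm e f r * c.h i (kx x D f) ≤ (1 - kx x D e)
    * (c.m.Mb (kx x D e) (C τ - C r) + c.zm i (kx x D e) (C τ - C r))

/-- **existence of level 1/2 with rows, general kernel**; the last part bounds the rows without a
part of the source -/
theorem Wq.exists_w (h : Wq x D τ mb C cap c T A B) (hc : c.Okz cap) :
    ∃ gp gm : V → V → ℝ → ℝ, Ggq x D τ C c T A B gp gm ∧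
      ∀ e ∈ Dᶜ, ∀ r ∈ Icc 0 τ, ∑ f ∈ Dᶜ, (gm e f r - Md Dᶜ T A B τ e f r)
        ≤ (1 - kx x D e) * c.zm true (kx x D e) (C τ - C r) := by
  have hg := h.gvc hc
  obtain ⟨Zp, Zm, hG⟩ := exists_gv h.rd hg
  refine ⟨fun i j r => Pd A τ i j r + Zp i j r, fun i j r => Md Dᶜ T A B τ i j r + Zm i j r,
    ?_, ?_⟩
  · refine
      { g := hG.g
        dp := fun i hi j hj hij r hr =>
          ((h.rd.dP i j hr).add (hG.dp i hi j hj hij r hr)).congr_deriv (by ring)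
        dm := fun i hi j hj hij r hr => by
          refine ((h.rd.dM (U := Dᶜ) i j hr).add (hG.dm i hi j hj hij r hr)).congr_deriv ?_
          rw [if_neg hij]; ring
        p0 := fun i j r hr => add_nonneg (h.rd.P0 i j hr) (hG.p0 i j r hr)
        m0 := fun i j r hr => add_nonneg (h.rd.M0 i j hr) (hG.m0 i j r hr)
        ps := fun i j r hr => by
          show Pd A τ i j r + Zp i j r = Pd A τ j i r + Zp j i r
          rw [h.rd.Ps i j, hG.ps i j r hr]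
        ms := fun i j r hr => by
          show Md Dᶜ T A B τ i j r + Zm i j r = Md Dᶜ T A B τ j i r + Zm j i r
          rw [h.rd.Ms i j, hG.ms i j r hr]
        pz := fun i r => by
          show Pd A τ i i r + Zp i i r = 0
          rw [h.rd.Pz, hG.pz, add_zero]
        mz := fun i r => by
          show Md Dᶜ T A B τ i i r + Zm i i r = 0
          rw [Rd.Mz, hG.mz, add_zero]
        pe := fun i j => by
          show Pd A τ i j τ + Zp i j τ = 0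
          rw [hG.pe, add_zero]
          unfold Pd
          rw [bk_self]
        me := fun i j => by
          show Md Dᶜ T A B τ i j τ + Zm i j τ = 0
          rw [hG.me, add_zero]
          unfold Md
          rw [bk_self]
        cp := fun i j => (h.rd.cP i j).add (hG.cp i j)
        cm := fun i j => (h.rd.cM i j).add (hG.cm i j)
        rp := fun i e he r hr => ?_
        rm := fun i e he r hr => ?_ }
    · have h1 := hG.rp i e he r hr
      have h2 := (hg.st r hr).hα i e he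
      have e1 : ∑ f ∈ Dᶜ, (Pd A τ e f r + Zp e f r) * c.h i (kx x D f)
          = ∑ f ∈ Dᶜ, Pd A τ e f r * c.v x D i f + ∑ f ∈ Dᶜ, Zp e f r * c.v x D i f := by
        rw [← Finset.sum_add_distrib]
        exact Finset.sum_congr rfl fun f _ => by unfold Ct.v; ring
      rw [e1, mul_add]
      exact add_le_add h2 h1
    · have h1 := hG.rm i e he r hr
      have h2 := (hg.st r hr).hμ i e he
      have e1 : ∑ f ∈ Dᶜ, (Md Dᶜ T A B τ e f r + Zm e f r) * c.h i (kx x D f)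
          = ∑ f ∈ Dᶜ, Md Dᶜ T A B τ e f r * c.v x D i f + ∑ f ∈ Dᶜ, Zm e f r * c.v x D i f := by
        rw [← Finset.sum_add_distrib]
        exact Finset.sum_congr rfl fun f _ => by unfold Ct.v; ring
      rw [e1, mul_add]
      exact add_le_add h2 h1
  · intro e he r hr
    have h1 := hG.rm true e he r hr
    have e1 : ∀ b, c.v x D true b = 1 := fun b => by simp [Ct.v, Ct.h]
    simp only [e1, mul_one] at h1
    refine le_trans (le_of_eq (Finset.sum_congr rfl fun f _ => ?_)) h1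
    show Md Dᶜ T A B τ e f r + Zm e f r - Md Dᶜ T A B τ e f r = Zm e f r
    ring

end Pool.Agent.RX.RCM
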