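import Pool.Agent.RX.RCM.GTf

/-! The level 1/2 of a cell: the instance with the level 0 of a cell (MP_73ccd0_lc, route M). -/

namespace Pool.Agent.RX.RCM

open Set Finset

set_option linter.unusedSectionVars false
set_option linter.unusedVariables false

variable {V : Type*} [Fintype V] [DecidableEq V]

variable {hb : ℝ → V → V → ℝ} {x : V → V → ℝ} {D : Finset V} {τ : ℝ} {mb : ℝ → ℝ}
  {θ : V → ℝ → ℝ} {Y Y' N N' C : ℝ → ℝ} {cap : ℕ} {c : Ct}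

theorem Cl.wq (h : Cl hb x D τ mb θ Y Y' N N' C cap c.b.U c.b.Yb) (hc : c.Ok cap) :
    Wq x D τ mb C cap c (Tb hb (yx hb x D θ Y τ)) (Ab hb (yx hb x D θ Y τ))
      (Bw hb (nx hb x D θ Y τ)) where
  g := h.g
  rd := h.rd
  mb0 := h.L.mb0
  dC := h.ck.dC
  U := h.ck.U
  tk r hr := h.tkb hc.b hr
  pk r hr := h.pkb hc.b hr
  mr e he r hr := h.mrowb hc.b hc.m h.rd (n := fun e r => nx hb x D θ Y τ e r)
    (fun e r hr => h.L.nx_nonneg h.hx e hr) (fun e he r hr => h.nb_le hc.b he hr)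
    (fun i j r hr => h.B_le i j hr) he hr

/-- **existence of level 1/2 with exact derivatives and rows** -/
theorem Cl.exists_q (h : Cl hb x D τ mb θ Y Y' N N' C cap c.b.U c.b.Yb) (hc : c.Ok cap) :
    ∃ gp gm : V → V → ℝ → ℝ,
      Ggq x D τ C c (Tb hb (yx hb x D θ Y τ)) (Ab hb (yx hb x D θ Y τ))
        (Bw hb (nx hb x D θ Y τ)) gp gm ∧
      ∀ e ∈ Dᶜ, ∀ r ∈ Icc 0 τ,
        ∑ f ∈ Dᶜ.erase e, (gm e f r - bk (fun r => Bw hb (nx hb x D θ Y τ) r e f) τ r)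
          ≤ (1 - kx x D e)
            * (c.mR.Mb (kx x D e) (C τ - C r) + c.zm true (kx x D e) (C τ - C r)) := by
  obtain ⟨gp, gm, hG, hR⟩ := (h.wq hc).exists_w hc.okz
  refine ⟨gp, gm, hG, fun e he r hr => ?_⟩
  set T := Tb hb (yx hb x D θ Y τ) with hT
  set A := Ab hb (yx hb x D θ Y τ) with hA
  set B := Bw hb (nx hb x D θ Y τ) with hB
  have h1 := hR e he r hr
  have h2 : ∑ j ∈ Dᶜ, Md Dᶜ T A (fun _ _ _ => 0) τ e j r
      ≤ (1 - kx x D e) * c.mR.Mb (kx x D e) (C τ - C r) :=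
    h.mrowb hc.b hc.mR h.rd0 (n := fun _ _ => 0) (fun _ _ _ => le_rfl)
      (fun e _ r _ => by simp) (fun i j r _ => by simp) he hr
  have e1 : ∑ f ∈ Dᶜ.erase e, (gm e f r - bk (fun r => B r e f) τ r)
      = ∑ f ∈ Dᶜ.erase e, ((gm e f r - Md Dᶜ T A B τ e f r)
        + Md Dᶜ T A (fun _ _ _ => 0) τ e f r) := by
    refine Finset.sum_congr rfl fun f hf => ?_
    rw [h.md_split (fun e' => Finset.ne_of_mem_erase hf e'.symm) hr]
    ring
  rw [e1, Finset.sum_add_distrib]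
  have h3 : ∑ f ∈ Dᶜ.erase e, Md Dᶜ T A (fun _ _ _ => 0) τ e f r
      ≤ ∑ f ∈ Dᶜ, Md Dᶜ T A (fun _ _ _ => 0) τ e f r :=
    sum_erase_le fun f _ => h.rd0.M0 e f hr
  have h4 : ∑ f ∈ Dᶜ.erase e, (gm e f r - Md Dᶜ T A B τ e f r)
      = ∑ f ∈ Dᶜ, (gm e f r - Md Dᶜ T A B τ e f r) := by
    refine Finset.sum_erase _ ?_
    rw [hG.mz, Rd.Mz]
    ring
  rw [h4]
  refine (add_le_add h1 (h3.trans h2)).trans (le_of_eq (by ring))

end Pool.Agent.RX.RCM
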