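import Pool.Agent.RX.RCM.GTf

/-! The level 1/2 of a cell in the clock variable: kernel and sources bounded by functions of the
weight to the base set (MP_73ccd0_lc, route M). -/

namespace Pool.Agent.RX.RCM

open Set Finset

set_option linter.unusedSectionVars false
set_option linter.unusedVariables false

variable {V : Type*} [Fintype V] [DecidableEq V]

/-- the conditions on the functions when the direct source is bounded by `nb` -/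
structure Ct.Oks (c : Ct) (cap : ℕ) (nb : ℝ → ℝ) : Prop where
  z : c.Okz cap
  nb0 : ∀ u ∈ Icc 0 c.b.U, 0 ≤ nb u
  dPi : ∀ k l u, HasDerivAt (c.b.Pi k l) (c.b.Pi' k l u) u
  oPi : ∀ k ∈ Icc (0 : ℝ) 1, ∀ l ∈ Icc (0 : ℝ) 1, ∀ u ∈ Icc 0 c.b.U,
    c.b.f k u * c.b.f l u - 1 ≤ c.b.Pi' k l u
  Pi0 : ∀ k ∈ Icc (0 : ℝ) 1, ∀ l ∈ Icc (0 : ℝ) 1, ∀ u ∈ Icc 0 c.b.U, 0 ≤ c.b.Pi k l u
  mR : c.mR.Okb c.b cap fun _ _ => 0
  dM : ∀ k u, HasDerivAt (c.m.Mb k) (c.m.Mb' k u) u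
  M00 : ∀ k ∈ Icc (0 : ℝ) 1, 0 ≤ c.m.Mb k 0
  oM : ∀ k ∈ Icc (0 : ℝ) 1, ∀ u ∈ Icc 0 c.b.U,
    nb u + (c.mR.al k u + gK cap k * c.mR.be k u) ≤ c.m.Mb' k u

/-- a cell with kernel and sources bounded by functions of the weight to the base set -/
structure Sgq (x : V → V → ℝ) (D : Finset V) (τ : ℝ) (mb C : ℝ → ℝ) (cap : ℕ) (U : ℝ)
    (f : ℝ → ℝ → ℝ) (nb : ℝ → ℝ) (T A B : ℝ → V → V → ℝ) : Prop where
  g : Gr x D cap
  rd : Rd τ T A B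
  mb0 : ∀ r ∈ Icc 0 τ, 0 ≤ mb r
  dC : ∀ r ∈ Icc 0 τ, HasDerivAt C (mb r) r
  U : C τ - C 0 ≤ U
  T : ∀ i ∈ Dᶜ, ∀ j ∈ Dᶜ, i ≠ j → ∀ r ∈ Icc 0 τ, T r i j
    ≤ mb r * (x i j * (f (kx x D i) (C τ - C r) * f (kx x D j) (C τ - C r)))
  A : ∀ i ∈ Dᶜ, ∀ j ∈ Dᶜ, i ≠ j → ∀ r ∈ Icc 0 τ, A r i j
    ≤ mb r * (x i j * (f (kx x D i) (C τ - C r) * f (kx x D j) (C τ - C r) - 1))
  B : ∀ i ∈ Dᶜ, ∀ j ∈ Dᶜ, i ≠ j → ∀ r ∈ Icc 0 τ, B r i j ≤ mb r * (x i j * nb (C τ - C r))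

namespace Sgq

variable {x : V → V → ℝ} {D : Finset V} {τ : ℝ} {mb C : ℝ → ℝ} {cap : ℕ} {U : ℝ} {c : Ct}
  {f : ℝ → ℝ → ℝ} {nb : ℝ → ℝ} {T A B : ℝ → V → V → ℝ}

theorem τm (h : Sgq x D τ mb C cap U f nb T A B) : τ ∈ Icc 0 τ := ⟨h.rd.τ0, le_rfl⟩

theorem mono (h : Sgq x D τ mb C cap U f nb T A B) {r s : ℝ} (hr : r ∈ Icc 0 τ)
    (hs : s ∈ Icc 0 τ) (hrs : r ≤ s) : C r ≤ C s := by
  have hm : MonotoneOn C (Icc 0 τ) := by
    refine monotoneOn_of_deriv_nonneg (convex_Icc 0 τ)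
      (fun t ht => (h.dC t ht).continuousAt.continuousWithinAt)
      (fun t ht => (h.dC t (interior_subset ht)).differentiableAt.differentiableWithinAt) ?_
    intro t ht
    rw [(h.dC t (interior_subset ht)).deriv]
    exact h.mb0 t (interior_subset ht)
  exact hm hr hs hrs

theorem um (h : Sgq x D τ mb C cap U f nb T A B) {r : ℝ} (hr : r ∈ Icc 0 τ) :
    C τ - C r ∈ Icc 0 U := by
  refine ⟨by linarith [h.mono hr h.τm hr.2], ?_⟩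
  have := h.mono ⟨le_rfl, h.rd.τ0⟩ hr hr.1
  linarith [h.U]

theorem dcl (h : Sgq x D τ mb C cap U f nb T A B) {F : ℝ → ℝ} {F' : ℝ → ℝ}
    (dF : ∀ u, HasDerivAt F (F' u) u) {r : ℝ} (hr : r ∈ Icc 0 τ) :
    HasDerivAt (fun r => F (C τ - C r)) (-(mb r * F' (C τ - C r))) r := by
  have h1 : HasDerivAt (fun r => C τ - C r) (-mb r) r := by
    simpa using (h.dC r hr).const_sub (C τ)
  exact ((dF (C τ - C r)).comp r h1).congr_deriv (by ring)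

theorem tk (h : Sgq x D τ mb C cap U f nb T A B) {r : ℝ} (hr : r ∈ Icc 0 τ) {F : ℝ → ℝ → ℝ}
    (f0 : ∀ k ∈ Icc (0 : ℝ) 1, ∀ u ∈ Icc 0 U, 0 ≤ f k u)
    (hF : ∀ k ∈ Icc (0 : ℝ) 1, ∀ u ∈ Icc 0 U, f k u ≤ F k u) :
    Tk x D (T r) (fun k => F k (C τ - C r)) (mb r) where
  T0 := h.rd.T0 r hr
  Ts := h.rd.Ts r
  Tz := h.rd.Tz r
  m0 := h.mb0 r hr
  le i hi j hj := by
    have hu := h.um hr
    by_cases hij : i = j
    · subst hij
      rw [h.rd.Tz]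
      have a1 := f0 _ (h.g.ks i) _ hu
      have a2 := hF _ (h.g.ks i) _ hu
      have a3 := h.g.wt.nn i i
      have a4 := h.mb0 r hr
      have a5 : 0 ≤ F (kx x D i) (C τ - C r) := a1.trans a2
      positivity
    · have a1 := mul_le_mul (hF _ (h.g.ks i) _ hu) (hF _ (h.g.ks j) _ hu)
        (f0 _ (h.g.ks j) _ hu) ((f0 _ (h.g.ks i) _ hu).trans (hF _ (h.g.ks i) _ hu))
      have a2 := mul_le_mul_of_nonneg_left (mul_le_mul_of_nonneg_left a1 (h.g.wt.nn i j))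
        (h.mb0 r hr)
      exact (h.T i hi j hj hij r hr).trans (a2.trans (le_of_eq (by ring)))

/-- conditions on the basic functions -/
structure Fo (c : Ct) (cap : ℕ) : Prop where
  dPi : ∀ k l u, HasDerivAt (c.b.Pi k l) (c.b.Pi' k l u) u
  oPi : ∀ k ∈ Icc (0 : ℝ) 1, ∀ l ∈ Icc (0 : ℝ) 1, ∀ u ∈ Icc 0 c.b.U,
    c.b.f k u * c.b.f l u - 1 ≤ c.b.Pi' k l u
  Pi0 : ∀ k ∈ Icc (0 : ℝ) 1, ∀ l ∈ Icc (0 : ℝ) 1, ∀ u ∈ Icc 0 c.b.U, 0 ≤ c.b.Pi k l u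
  mR : c.mR.Okb c.b cap fun _ _ => 0

/-- the leading part of `gp` -/
theorem pk (h : Sgq x D τ mb C cap c.b.U f nb T A B) (hc : Fo c cap)
    (f0 : ∀ k ∈ Icc (0 : ℝ) 1, ∀ u ∈ Icc 0 c.b.U, 0 ≤ f k u)
    (hF : ∀ k ∈ Icc (0 : ℝ) 1, ∀ u ∈ Icc 0 c.b.U, f k u ≤ c.b.f k u) {r : ℝ}
    (hr : r ∈ Icc 0 τ) :
    Pk x D (fun i j => Pd A τ i j r) (fun k l => c.b.Pi k l (C τ - C r)) where
  P0 i j := h.rd.P0 i j hr
  Ps i j := by rw [h.rd.Ps i j]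
  le i hi j hj := by
    have ki := h.g.ks i
    have kj := h.g.ks j
    by_cases hij : i = j
    · subst hij
      rw [h.rd.Pz]
      exact mul_nonneg (h.g.wt.nn i i) (hc.Pi0 _ ki _ ki _ (h.um hr))
    · refine bk_le_of (g := fun r => x i j * c.b.Pi (kx x D i) (kx x D j) (C τ - C r))
        (g' := fun r => x i j * -(mb r * c.b.Pi' (kx x D i) (kx x D j) (C τ - C r)))
        h.rd.τ0 (h.rd.cA i j) (fun r hr => (h.dcl (hc.dPi _ _) hr).const_mul _)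
        (fun r hr => ?_) ?_ r hr
      · have hu := h.um hr
        have a1 := mul_le_mul (hF _ ki _ hu) (hF _ kj _ hu)
          (f0 _ kj _ hu) ((f0 _ ki _ hu).trans (hF _ ki _ hu))
        have a2 := hc.oPi _ ki _ kj _ hu
        have a3 := mul_le_mul_of_nonneg_left (mul_le_mul_of_nonneg_left
          (by linarith : f (kx x D i) (C τ - C r) * f (kx x D j) (C τ - C r) - 1
            ≤ c.b.Pi' (kx x D i) (kx x D j) (C τ - C r)) (h.g.wt.nn i j)) (h.mb0 r hr)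
        exact (h.A i hi j hj hij r hr).trans (a3.trans (le_of_eq (by ring)))
      · have h1 : C τ - C τ = 0 := sub_self _
        have h2 := h.um h.τm
        rw [h1] at h2
        rw [h1]
        exact mul_nonneg (h.g.wt.nn i j) (hc.Pi0 _ ki _ kj 0 h2)

/-- rows of the leading part of `gm` -/
theorem mrow (h : Sgq x D τ mb C cap c.b.U f nb T A B) (hc : Fo c cap)
    (f0 : ∀ k ∈ Icc (0 : ℝ) 1, ∀ u ∈ Icc 0 c.b.U, 0 ≤ f k u)
    (hF : ∀ k ∈ Icc (0 : ℝ) 1, ∀ u ∈ Icc 0 c.b.U, f k u ≤ c.b.f k u)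
    (nb0 : ∀ u ∈ Icc 0 c.b.U, 0 ≤ nb u) {Mb Mb' : ℝ → ℝ → ℝ}
    (dM : ∀ k u, HasDerivAt (Mb k) (Mb' k u) u) (M00 : ∀ k ∈ Icc (0 : ℝ) 1, 0 ≤ Mb k 0)
    (oM : ∀ k ∈ Icc (0 : ℝ) 1, ∀ u ∈ Icc 0 c.b.U,
      nb u + (c.mR.al k u + gK cap k * c.mR.be k u) ≤ Mb' k u)
    {i : V} (hi : i ∈ Dᶜ) {r : ℝ} (hr : r ∈ Icc 0 τ) :
    ∑ j ∈ Dᶜ, Md Dᶜ T A B τ i j r ≤ (1 - kx x D i) * Mb (kx x D i) (C τ - C r) := by
  have ki := h.g.ks i
  have n1 : 0 ≤ 1 - kx x D i := by linarith [ki.2]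
  have m1 : ∀ r ∈ Icc 0 τ, ∑ j ∈ Dᶜ.erase i, (B r i j
      + Lf1 Dᶜ (T r) (fun a b => Pd A τ a b r) i j)
      ≤ mb r * ((1 - kx x D i) * Mb' (kx x D i) (C τ - C r)) := by
    intro r hr
    have hu := h.um hr
    have hm := hc.mR
    have h1 := m1_row h.g (h.tk hr f0 hF) (h.pk hc f0 hF hr)
      (fun k hk => (f0 k hk _ hu).trans (hF k hk _ hu))
      (fun k hk l hl => hc.Pi0 k hk l hl _ hu)
      (n := fun _ => 0) (B := fun _ _ => 0)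
      (ψ := fun _ => 0) (fun _ => le_rfl)
      (fun e _ => by simp) hi (fun j _ => by simp)
      (Q := fun y κ => c.mR.Q y κ (kx x D i) (C τ - C r))
      (R := fun l => c.mR.R l (kx x D i) (C τ - C r))
      (α := c.mR.al (kx x D i) (C τ - C r)) (β := c.mR.be (kx x D i) (C τ - C r))
      (hm.al0 _ ki _ hu) (hm.be0 _ ki _ hu) (hm.Q0 _ ki _ hu) (hm.R0 _ ki _ hu)
      (fun κ hκ l hl y y0 h2 h3 => hm.hQ _ ki _ hu κ hκ l hl y y0 h2 h3)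
      (fun y κ y0 κ0 h2 h3 => hm.hF _ ki _ hu y κ y0 κ0 h2 h3)
    have h2 : ∑ j ∈ Dᶜ.erase i, B r i j ≤ mb r * ((1 - kx x D i) * nb (C τ - C r)) := by
      calc ∑ j ∈ Dᶜ.erase i, B r i j
          ≤ ∑ j ∈ Dᶜ.erase i, mb r * nb (C τ - C r) * x i j := by
            refine Finset.sum_le_sum fun j hj => ?_
            refine (h.B i hi j (Finset.mem_of_mem_erase hj)
              (Finset.ne_of_mem_erase hj).symm r hr).trans (le_of_eq (by ring))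
        _ = mb r * nb (C τ - C r) * ∑ j ∈ Dᶜ.erase i, x i j := (Finset.mul_sum _ _ _).symm
        _ ≤ mb r * nb (C τ - C r) * (1 - kx x D i) := by
            refine mul_le_mul_of_nonneg_left
              ((sum_erase_le fun j _ => h.g.wt.nn i j).trans (h.g.row i))
              (mul_nonneg (h.mb0 r hr) (nb0 _ hu))
        _ = _ := by ring
    have h3 : ∑ j ∈ Dᶜ.erase i, (B r i j + Lf1 Dᶜ (T r) (fun a b => Pd A τ a b r) i j)
        = ∑ j ∈ Dᶜ.erase i, B r i j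
          + ∑ j ∈ Dᶜ.erase i, (0 + Lf1 Dᶜ (T r) (fun a b => Pd A τ a b r) i j) := by
      rw [← Finset.sum_add_distrib]
      exact Finset.sum_congr rfl fun j _ => by ring
    have h4 := mul_le_mul_of_nonneg_left (mul_le_mul_of_nonneg_left
      (oM _ ki _ hu) n1) (h.mb0 r hr)
    rw [h3]
    refine (add_le_add h2 h1).trans (le_trans (le_of_eq ?_) h4)
    ring
  have d1 : ∀ r ∈ Icc 0 τ, HasDerivAt (fun r => ∑ j ∈ Dᶜ, Md Dᶜ T A B τ i j r)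
      (∑ j ∈ Dᶜ, -(if i = j then 0 else B r i j
        + Lf1 Dᶜ (T r) (fun a b => Pd A τ a b r) i j)) r := fun r hr =>
    HasDerivAt.fun_sum fun j _ => h.rd.dM i j hr
  have d2 : ∀ r ∈ Icc 0 τ, HasDerivAt
      (fun r => (1 - kx x D i) * Mb (kx x D i) (C τ - C r))
      ((1 - kx x D i) * -(mb r * Mb' (kx x D i) (C τ - C r))) r := fun r hr =>
    (h.dcl (dM _) hr).const_mul _
  refine back_le d1 d2 (fun r hr => ?_) ?_ r hr
  · have h1 := m1 r hr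
    have e1 : ∑ j ∈ Dᶜ, -(if i = j then 0 else B r i j
        + Lf1 Dᶜ (T r) (fun a b => Pd A τ a b r) i j)
        = -∑ j ∈ Dᶜ.erase i, (B r i j
          + Lf1 Dᶜ (T r) (fun a b => Pd A τ a b r) i j) := by
      rw [Finset.sum_neg_distrib, ← Finset.add_sum_erase Dᶜ _ hi, if_pos rfl, zero_add]
      congr 1
      refine Finset.sum_congr rfl fun j hj => ?_
      rw [if_neg fun e => Finset.ne_of_mem_erase hj e.symm]
    rw [e1]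
    linarith
  · have e1 : ∑ j ∈ Dᶜ, Md Dᶜ T A B τ i j τ = 0 :=
      Finset.sum_eq_zero fun j _ => by unfold Md; rw [bk_self]
    rw [e1]
    have e2 : C τ - C τ = 0 := sub_self _
    rw [e2]
    exact mul_nonneg n1 (M00 _ ki)

end Sgq

theorem Ct.Oks.fo {c : Ct} {cap : ℕ} {nb : ℝ → ℝ} (h : c.Oks cap nb) : Sgq.Fo c cap :=
  ⟨h.dPi, h.oPi, h.Pi0, h.mR⟩

/-- regularity without the direct part -/
theorem Rd.zero {τ : ℝ} {T A B : ℝ → V → V → ℝ} (h : Rd τ T A B) :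
    Rd τ T A (fun _ _ _ => 0) where
  τ0 := h.τ0
  cT := h.cT
  cA := h.cA
  cB _ _ := continuousOn_const
  T0 := h.T0
  A0 := h.A0
  B0 _ _ _ _ := le_rfl
  Ts := h.Ts
  As := h.As
  Bs _ _ _ := rfl
  Tz := h.Tz
  Az := h.Az

/-- splitting off the direct part -/
theorem Rd.md_split {τ : ℝ} {T A B : ℝ → V → V → ℝ} {U : Finset V} (h : Rd τ T A B) {i j : V}
    (hij : i ≠ j) {r : ℝ} (hr : r ∈ Icc 0 τ) :
    Md U T A B τ i j r
      = bk (fun r => B r i j) τ r + Md U T A (fun _ _ _ => 0) τ i j r := by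
  refine back_eq (fun r hr => h.dM i j hr)
    (fun r hr => ((bk_deriv h.τ0 (h.cB i j) hr).add (h.zero.dM i j hr)).congr_deriv ?_) ?_ r hr
  · rw [if_neg hij, if_neg hij]; ring
  · unfold Md
    simp only [Pi.add_apply, bk_self, add_zero]

namespace Sgq

variable {x : V → V → ℝ} {D : Finset V} {τ : ℝ} {mb C : ℝ → ℝ} {cap : ℕ} {U : ℝ} {c : Ct}
  {f : ℝ → ℝ → ℝ} {nb : ℝ → ℝ} {T A B : ℝ → V → V → ℝ}

/-- the cell without the direct part -/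
theorem zero (h : Sgq x D τ mb C cap U f nb T A B) :
    Sgq x D τ mb C cap U f (fun _ => 0) T A (fun _ _ _ => 0) where
  g := h.g
  rd := h.rd.zero
  mb0 := h.mb0
  dC := h.dC
  U := h.U
  T := h.T
  A := h.A
  B i _ j _ _ r hr := by simp

/-- the cell -/
theorem wq (h : Sgq x D τ mb C cap c.b.U f nb T A B) (hc : c.Oks cap nb)
    (f0 : ∀ k ∈ Icc (0 : ℝ) 1, ∀ u ∈ Icc 0 c.b.U, 0 ≤ f k u)
    (hF : ∀ k ∈ Icc (0 : ℝ) 1, ∀ u ∈ Icc 0 c.b.U, f k u ≤ c.b.f k u) :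
    Wq x D τ mb C cap c T A B :=
  ⟨h.g, h.rd, h.mb0, h.dC, h.U, fun r hr => h.tk hr f0 hF, fun r hr => h.pk hc.fo f0 hF hr,
    fun i hi r hr => h.mrow hc.fo f0 hF hc.nb0 hc.dM hc.M00 hc.oM hi hr⟩

/-- **existence with rows**; the last part bounds the rows of `gm` without the direct part -/
theorem exists_s (h : Sgq x D τ mb C cap c.b.U f nb T A B) (hc : c.Oks cap nb)
    (f0 : ∀ k ∈ Icc (0 : ℝ) 1, ∀ u ∈ Icc 0 c.b.U, 0 ≤ f k u)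
    (hF : ∀ k ∈ Icc (0 : ℝ) 1, ∀ u ∈ Icc 0 c.b.U, f k u ≤ c.b.f k u) :
    ∃ gp gm : V → V → ℝ → ℝ, Ggq x D τ C c T A B gp gm ∧
      ∀ e ∈ Dᶜ, ∀ r ∈ Icc 0 τ, ∑ f ∈ Dᶜ.erase e, (gm e f r - bk (fun r => B r e f) τ r)
        ≤ (1 - kx x D e) * (c.mR.Mb (kx x D e) (C τ - C r)
          + c.zm true (kx x D e) (C τ - C r)) := by
  obtain ⟨gp, gm, hG, hR⟩ := (h.wq hc f0 hF).exists_w hc.z
  refine ⟨gp, gm, hG, fun e he r hr => ?_⟩
  have h1 := hR e he r hr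
  have h2 := h.zero.mrow hc.fo f0 hF (fun _ _ => le_rfl) hc.mR.dMb hc.mR.Mb0
    (fun k hk u hu => by rw [zero_add]; exact hc.mR.oMb k hk u hu) he hr
  have e1 : ∑ f ∈ Dᶜ, (gm e f r - Md Dᶜ T A B τ e f r)
      = ∑ f ∈ Dᶜ.erase e, (gm e f r - Md Dᶜ T A B τ e f r) := by
    rw [← Finset.add_sum_erase Dᶜ _ he, hG.mz, Rd.Mz, sub_zero, zero_add]
  have e2 : ∑ f ∈ Dᶜ.erase e, (gm e f r - bk (fun r => B r e f) τ r)
      = ∑ f ∈ Dᶜ.erase e, (gm e f r - Md Dᶜ T A B τ e f r)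
        + ∑ f ∈ Dᶜ.erase e, Md Dᶜ T A (fun _ _ _ => 0) τ e f r := by
    rw [← Finset.sum_add_distrib]
    refine Finset.sum_congr rfl fun f hf => ?_
    rw [h.rd.md_split (Finset.ne_of_mem_erase hf).symm hr]
    ring
  have h3 : ∑ f ∈ Dᶜ.erase e, Md Dᶜ T A (fun _ _ _ => 0) τ e f r
      ≤ ∑ f ∈ Dᶜ, Md Dᶜ T A (fun _ _ _ => 0) τ e f r :=
    sum_erase_le fun f _ => h.zero.rd.M0 e f hr
  rw [e2, ← e1]
  refine (add_le_add h1 (h3.trans h2)).trans (le_of_eq (by ring))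

end Sgq

end Pool.Agent.RX.RCM
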