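import Pool.Agent.RX.RCM.Lin

/-! Gauge sums and log-convexity for linear backward systems (MP_73ccd0_lc, route M). -/

namespace Pool.Agent.RX.RCM

open Set Finset Pool.Agent.RX.RCRSHalf Pool.Agent.RX.RCG

variable {ι : Type*} [Fintype ι]

/-- monotonicity: a subsolution is below a supersolution (for the larger kernel and source) -/
theorem lin_mono {t : ℝ} {T T2 : ℝ → ι → ι → ℝ} {σ σ2 : ℝ → ι → ℝ} {C : ℝ}
    {u u' v v' : ι → ℝ → ℝ}
    (T0 : ∀ r ∈ Icc 0 t, ∀ i j, 0 ≤ T r i j) (TC : ∀ r ∈ Icc 0 t, ∀ i j, T r i j ≤ C)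
    (TT : ∀ r ∈ Icc 0 t, ∀ i j, T r i j ≤ T2 r i j) (σσ : ∀ r ∈ Icc 0 t, ∀ i, σ r i ≤ σ2 r i)
    (du : ∀ i, ∀ r ∈ Icc 0 t, HasDerivAt (u i) (u' i r) r)
    (dv : ∀ i, ∀ r ∈ Icc 0 t, HasDerivAt (v i) (v' i r) r)
    (v0 : ∀ i, ∀ r ∈ Icc 0 t, 0 ≤ v i r)
    (ou : ∀ i, ∀ r ∈ Icc 0 t, -u' i r ≤ ∑ j, T r i j * u j r + σ r i)
    (ov : ∀ i, ∀ r ∈ Icc 0 t, ∑ j, T2 r i j * v j r + σ2 r i ≤ -v' i r)
    (hend : ∀ i, u i t ≤ v i t) : ∀ i, ∀ r ∈ Icc 0 t, u i r ≤ v i r := by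
  intro i r hr
  have := lin_nonneg T0 TC (v := fun i r => v i r - u i r) (v' := fun i r => v' i r - u' i r)
    (fun i r hr => (dv i r hr).sub (du i r hr)) (fun i => sub_nonneg.2 (hend i))
    (fun i r hr => ?_) i r hr
  · linarith
  · have h1 : ∑ j, T r i j * (v j r - u j r) = ∑ j, T r i j * v j r - ∑ j, T r i j * u j r := by
      rw [← Finset.sum_sub_distrib]; exact Finset.sum_congr rfl fun j _ => by ring
    have h2 : ∑ j, T r i j * v j r ≤ ∑ j, T2 r i j * v j r := Finset.sum_le_sum fun j _ =>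
      mul_le_mul_of_nonneg_right (TT r hr i j) (v0 j r hr)
    have h3 := ou i r hr
    have h4 := ov i r hr
    have h5 := σσ r hr i
    rw [h1]
    linarith

end Pool.Agent.RX.RCM
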