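import Mathlib

/-! The conditions (C) and (Ct) from the ratio closures (MP_73ccd0_lc, route M). -/

namespace Pool.Agent.RX.RCM

open Set Finset

set_option linter.unusedSectionVars false

variable {V : Type*} [Fintype V] [DecidableEq V]

/-- closure functions of level 1/2 on `[0, t]` -/
structure G12 (h : ℝ → V → V → ℝ) (U : Finset V) (t : ℝ) (W T : ℝ → V → V → ℝ)
    (gp gp' gm gm' : V → V → ℝ → ℝ) : Prop where
  dp : ∀ i ∈ U, ∀ j ∈ U, ∀ r ∈ Icc 0 t, HasDerivAt (gp i j) (gp' i j r) r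
  dm : ∀ i ∈ U, ∀ j ∈ U, ∀ r ∈ Icc 0 t, HasDerivAt (gm i j) (gm' i j r) r
  gp0 : ∀ i j, ∀ r ∈ Icc 0 t, 0 ≤ gp i j r
  gm0 : ∀ i j, ∀ r ∈ Icc 0 t, 0 ≤ gm i j r
  op : ∀ i ∈ U, ∀ j ∈ U, i ≠ j → ∀ r ∈ Icc 0 t,
      h r i j * (W r i j - 1)
        + ∑ b ∈ (U.erase i).erase j, h r i b * (W r i b * (1 - Real.exp (-gm j b r)))
        + ∑ b ∈ (U.erase i).erase j, h r j b * (W r j b * (1 - Real.exp (-gm i b r)))
        + (1 / 2) * ∑ x ∈ (U.erase i).erase j, ∑ y ∈ (U.erase i).erase j, h r x y * (W r x y *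
          (max ((1 - Real.exp (-(gp j x r + gp j y r))) * (1 - Real.exp (-(gp i x r + gp i y r))))
            ((1 - Real.exp (-(gm j x r + gm j y r))) * (1 - Real.exp (-(gm i x r + gm i y r))))))
      ≤ -gp' i j r
  om : ∀ i ∈ U, ∀ j ∈ U, i ≠ j → ∀ r ∈ Icc 0 t,
      h r i j * (1 - T r i j)
        + ∑ b ∈ (U.erase i).erase j, h r i b * (W r i b * (1 - Real.exp (-gp j b r)))
        + ∑ b ∈ (U.erase i).erase j, h r j b * (W r j b * (1 - Real.exp (-gp i b r)))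
        + (1 / 2) * ∑ x ∈ (U.erase i).erase j, ∑ y ∈ (U.erase i).erase j, h r x y * (W r x y *
          (max ((1 - Real.exp (-(gp j x r + gp j y r))) * (1 - Real.exp (-(gm i x r + gm i y r))))
            ((1 - Real.exp (-(gm j x r + gm j y r))) * (1 - Real.exp (-(gp i x r + gp i y r))))))
      ≤ -gm' i j r

variable {h : ℝ → V → V → ℝ} {H : V → V → ℝ → ℝ}
variable {U : Finset V} {t : ℝ} {W T : ℝ → V → V → ℝ} {gp gp' gm gm' : V → V → ℝ → ℝ}

theorem mem_of_le {s t r : ℝ} (hst : s ≤ t) (hr : r ∈ Icc 0 s) : r ∈ Icc 0 t :=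
  ⟨hr.1, hr.2.trans hst⟩

end Pool.Agent.RX.RCM
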