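import Pool.Agent.RX.RCM.Half_1
import Pool.Agent.RX.RCM.World

/-! Level 1/2: correlation of two removals (MP_73ccd0_lc, route M). -/

namespace Pool.Agent.RX.RCM

open Set Finset Pool.Agent.RX.RCRSHalf Pool.Agent.RX.RCG

set_option linter.unusedSectionVars false

variable {V : Type*} [Fintype V] [DecidableEq V]

set_option maxHeartbeats 4000000 in
/-- Level 1/2. -/
theorem lev12 {h : ℝ → V → V → ℝ} {κ : ℝ → V → ℝ} {s : ℝ} {Φ : Finset V → ℝ → ℝ}
    (hs : ∀ t a b, h t a b = h t b a) (haa : ∀ t a, h t a a = 0) (h0 : ∀ t a b, 0 ≤ h t a b)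
    (hΦ : Wd h κ s Φ) {U : Finset V} {W T : ℝ → V → V → ℝ} (h00 : Lv0 U s Φ W T)
    {gp gp' gm gm' : V → V → ℝ → ℝ}
    (dp : ∀ i ∈ U, ∀ j ∈ U, ∀ r ∈ Icc 0 s, HasDerivAt (gp i j) (gp' i j r) r)
    (dm : ∀ i ∈ U, ∀ j ∈ U, ∀ r ∈ Icc 0 s, HasDerivAt (gm i j) (gm' i j r) r)
    (gp0 : ∀ i j, ∀ r ∈ Icc 0 s, 0 ≤ gp i j r) (gm0 : ∀ i j, ∀ r ∈ Icc 0 s, 0 ≤ gm i j r)
    (op : ∀ i ∈ U, ∀ j ∈ U, i ≠ j → ∀ r ∈ Icc 0 s,
      h r i j * (W r i j - 1)
        + ∑ b ∈ (U.erase i).erase j, h r i b * (W r i b * (1 - Real.exp (-gm j b r)))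
        + ∑ b ∈ (U.erase i).erase j, h r j b * (W r j b * (1 - Real.exp (-gm i b r)))
        + (1 / 2) * ∑ x ∈ (U.erase i).erase j, ∑ y ∈ (U.erase i).erase j, h r x y * (W r x y *
          (max ((1 - Real.exp (-(gp j x r + gp j y r))) * (1 - Real.exp (-(gp i x r + gp i y r))))
            ((1 - Real.exp (-(gm j x r + gm j y r))) * (1 - Real.exp (-(gm i x r + gm i y r))))))
      ≤ -gp' i j r)
    (om : ∀ i ∈ U, ∀ j ∈ U, i ≠ j → ∀ r ∈ Icc 0 s,
      h r i j * (1 - T r i j)
        + ∑ b ∈ (U.erase i).erase j, h r i b * (W r i b * (1 - Real.exp (-gp j b r)))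
        + ∑ b ∈ (U.erase i).erase j, h r j b * (W r j b * (1 - Real.exp (-gp i b r)))
        + (1 / 2) * ∑ x ∈ (U.erase i).erase j, ∑ y ∈ (U.erase i).erase j, h r x y * (W r x y *
          (max ((1 - Real.exp (-(gp j x r + gp j y r))) * (1 - Real.exp (-(gm i x r + gm i y r))))
            ((1 - Real.exp (-(gm j x r + gm j y r))) * (1 - Real.exp (-(gp i x r + gp i y r))))))
      ≤ -gm' i j r)
    (hend : 0 ≤ s → ∀ F ⊆ U, ∀ i ∈ U, ∀ j ∈ U, i ∉ F → j ∉ F → i ≠ j → B12 Φ gp gm i j F s) :
    ∀ F ⊆ U, ∀ i ∈ U, ∀ j ∈ U, i ∉ F → j ∉ F → i ≠ j → ∀ r ∈ Icc 0 s, B12 Φ gp gm i j F r := by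
  intro F
  induction hn : F.card using Nat.strong_induction_on generalizing F with
  | _ n ih =>
  intro hFU i hiU j hjU hi hj hij
  have IH : ∀ G, G.card < n → G ⊆ U → ∀ i ∈ U, ∀ j ∈ U, i ∉ G → j ∉ G → i ≠ j →
      ∀ r ∈ Icc 0 s, B12 Φ gp gm i j G r := fun G hG => ih G.card hG G rfl
  have hB' : insert i (insert j F) ⊆ U :=
    Finset.insert_subset hiU (Finset.insert_subset hjU hFU)
  have hF2 : F ⊆ (U.erase i).erase j := fun z hz => Finset.mem_erase.2
    ⟨fun e => hj (e ▸ hz), Finset.mem_erase.2 ⟨fun e => hi (e ▸ hz), hFU hz⟩⟩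
  have hiF' : i ∉ insert j F := by
    rw [Finset.mem_insert]; rintro (e | e)
    · exact hij e
    · exact hi e
  have card1 : ∀ b ∈ F, (F.erase b).card < n := fun b hb => by
    rw [← hn]; exact Finset.card_lt_card (Finset.erase_ssubset hb)
  have card2 : ∀ x ∈ F, ∀ y, ((F.erase x).erase y).card < n := fun x hx y =>
    (Finset.card_le_card (Finset.erase_subset _ _)).trans_lt (card1 x hx)
  have sub1 : ∀ b, F.erase b ⊆ U := fun b => (Finset.erase_subset _ _).trans hFU
  have sub2 : ∀ x y, (F.erase x).erase y ⊆ U := fun x y =>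
    (Finset.erase_subset _ _).trans (sub1 x)
  have dA := fun r (hr : r ∈ Icc 0 s) => hΦ.d F hr
  have dB := fun r (hr : r ∈ Icc 0 s) => hΦ.d (insert i (insert j F)) hr
  have dC := fun r (hr : r ∈ Icc 0 s) => hΦ.d (insert j F) hr
  have dD := fun r (hr : r ∈ Icc 0 s) => hΦ.d (insert i F) hr
  -- the rates
  have rates : ∀ r ∈ Icc 0 s,
      (lr (h r) (fun G => Φ G r) F - ∑ a ∈ F, κ r a)
        + (lr (h r) (fun G => Φ G r) (insert i (insert j F)) - ∑ a ∈ insert i (insert j F), κ r a)
        - (lr (h r) (fun G => Φ G r) (insert j F) - ∑ a ∈ insert j F, κ r a)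
        - (lr (h r) (fun G => Φ G r) (insert i F) - ∑ a ∈ insert i F, κ r a)
      = (1 / 2) * ∑ x ∈ F, ∑ y ∈ F, h r x y * (Φ ((F.erase x).erase y) r / Φ F r
          + Φ (insert i (insert j ((F.erase x).erase y))) r / Φ (insert i (insert j F)) r
          - Φ (insert j ((F.erase x).erase y)) r / Φ (insert j F) r
          - Φ (insert i ((F.erase x).erase y)) r / Φ (insert i F) r)
        + ∑ b ∈ F, h r i b * (Φ (insert j (F.erase b)) r / Φ (insert i (insert j F)) r
          - Φ (F.erase b) r / Φ (insert i F) r)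
        + ∑ b ∈ F, h r j b * (Φ (insert i (F.erase b)) r / Φ (insert i (insert j F)) r
          - Φ (F.erase b) r / Φ (insert j F) r)
        + h r i j * (Φ F r / Φ (insert i (insert j F)) r - 1) := by
    intro r hr
    have := rsum (h r) (hs r) (haa r) (φ1 := fun G => Φ G r) (φ0 := fun G => Φ G r)
      (φc := fun G => Φ G r) (φd := fun G => Φ G r) hi hj hij (hΦ.pos _ r hr).ne'
      (hΦ.pos _ r hr).ne' (hΦ.pos _ r hr).ne'
    rw [← this, Finset.sum_insert hiF', Finset.sum_insert hj, Finset.sum_insert hi]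
    ring
  have Wij : ∀ r ∈ Icc 0 s, Φ F r / Φ (insert i (insert j F)) r ≤ W r i j ∧
      T r i j ≤ Φ F r / Φ (insert i (insert j F)) r := by
    intro r hr
    have hp := hΦ.pos (insert i (insert j F)) r hr
    have e : ((insert i (insert j F)).erase i).erase j = F := by
      rw [Finset.erase_insert hiF', Finset.erase_insert hj]
    have h1 := h00.up _ hB' i (by simp) j (by simp) hij r hr
    have h2 := h00.low _ hB' i (by simp) j (by simp) hij r hr
    rw [e] at h1 h2
    exact ⟨by rw [div_le_iff₀ hp]; exact h1, by rw [le_div_iff₀ hp]; exact h2⟩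
  have Wib : ∀ r ∈ Icc 0 s, ∀ b ∈ F,
      Φ (insert j (F.erase b)) r ≤ W r i b * Φ (insert i (insert j F)) r := by
    intro r hr b hb
    have hbi : i ≠ b := fun e => hi (e ▸ hb)
    have hbj : j ≠ b := fun e => hj (e ▸ hb)
    have h1 := h00.up _ hB' i (by simp) b (by simp [hb]) hbi r hr
    rwa [Finset.erase_insert hiF', Finset.erase_insert_of_ne hbj] at h1
  have Wjb : ∀ r ∈ Icc 0 s, ∀ b ∈ F,
      Φ (insert i (F.erase b)) r ≤ W r j b * Φ (insert i (insert j F)) r := by
    intro r hr b hb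
    have hbi : i ≠ b := fun e => hi (e ▸ hb)
    have hbj : j ≠ b := fun e => hj (e ▸ hb)
    have h1 := h00.up _ hB' j (by simp) b (by simp [hb]) hbj r hr
    rwa [Finset.erase_insert_of_ne hij, Finset.erase_insert hj,
      Finset.erase_insert_of_ne hbi] at h1
  -- bounds for the single removals
  have S : ∀ r ∈ Icc 0 s, ∀ k ∈ U, k ∉ F → ∀ b ∈ F,
      Φ F r * Φ (insert k (F.erase b)) r
          ≤ Real.exp (gm k b r) * (Φ (F.erase b) r * Φ (insert k F) r) ∧
        Φ (F.erase b) r * Φ (insert k F) r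
          ≤ Real.exp (gp k b r) * (Φ F r * Φ (insert k (F.erase b)) r) := by
    intro r hr k hk hkF b hb
    have hkb : k ≠ b := fun e => hkF (e ▸ hb)
    have h1 := IH _ (card1 b hb) (sub1 b) k hk b (hFU hb)
      (fun h => hkF (Finset.mem_of_mem_erase h)) (Finset.notMem_erase b F) hkb r hr
    unfold B12 at h1
    rwa [Finset.insert_erase hb] at h1
  have PD : ∀ r ∈ Icc 0 s, ∀ k ∈ U, k ∉ F → ∀ x ∈ F, ∀ y ∈ F, x ≠ y →
      -(1 - Real.exp (-(gp k x r + gp k y r)))
        ≤ Φ (insert k ((F.erase x).erase y)) r * Φ F r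
          / (Φ ((F.erase x).erase y) r * Φ (insert k F) r) - 1 ∧
      Φ (insert k ((F.erase x).erase y)) r * Φ F r
          / (Φ ((F.erase x).erase y) r * Φ (insert k F) r) - 1
        ≤ Real.exp (gm k x r + gm k y r) - 1 := by
    intro r hr k hk hkF x hx y hy hxy
    have hy' : y ∈ F.erase x := Finset.mem_erase.2 ⟨fun e => hxy e.symm, hy⟩
    have hkx : k ≠ x := fun e => hkF (e ▸ hx)
    have hky : k ≠ y := fun e => hkF (e ▸ hy)
    have h1 := IH _ (card1 x hx) (sub1 x) k hk x (hFU hx)
      (fun h => hkF (Finset.mem_of_mem_erase h)) (Finset.notMem_erase x F) hkx r hr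
    have h2 := IH _ (card2 x hx y) (sub2 x y) k hk y (hFU hy)
      (fun h => hkF (Finset.mem_of_mem_erase (Finset.mem_of_mem_erase h)))
      (Finset.notMem_erase y _) hky r hr
    have h3 := pair_dev (fun F => hΦ.pos F r hr) hx hy hxy h1 h2
    exact dev_bounds (hΦ.pos _ r hr) (hΦ.pos _ r hr) (hΦ.pos _ r hr) (hΦ.pos _ r hr) h3.1 h3.2
  -- the ratio of the smaller set
  have RB : ∀ r ∈ Icc 0 s, ∀ x ∈ F, ∀ y, B12 Φ gp gm i j ((F.erase x).erase y) r := by
    intro r hr x hx y
    exact IH _ (card2 x hx y) (sub2 x y) i hiU j hjU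
      (fun h => hi (Finset.mem_of_mem_erase (Finset.mem_of_mem_erase h)))
      (fun h => hj (Finset.mem_of_mem_erase (Finset.mem_of_mem_erase h))) hij r hr
  have X0 : ∀ r ∈ Icc 0 s, ∀ k x y, 0 ≤ 1 - Real.exp (-(gp k x r + gp k y r)) ∧
      0 ≤ 1 - Real.exp (-(gm k x r + gm k y r)) := fun r hr k x y =>
    ⟨one_sub_exp_nonneg (add_nonneg (gp0 k x r hr) (gp0 k y r hr)),
      one_sub_exp_nonneg (add_nonneg (gm0 k x r hr) (gm0 k y r hr))⟩
  have G0 : ∀ r ∈ Icc 0 s, ∀ k x y, 0 ≤ gp k x r + gp k y r ∧ 0 ≤ gm k x r + gm k y r :=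
    fun r hr k x y => ⟨add_nonneg (gp0 k x r hr) (gp0 k y r hr),
      add_nonneg (gm0 k x r hr) (gm0 k y r hr)⟩
  -- level 0 for the larger sets
  have Wk : ∀ r ∈ Icc 0 s, ∀ k ∈ U, k ∉ F → ∀ x ∈ F, ∀ y ∈ F, x ≠ y →
      Φ (insert k ((F.erase x).erase y)) r ≤ W r x y * Φ (insert k F) r := by
    intro r hr k hk hkF x hx y hy hxy
    have hkx : k ≠ x := fun e => hkF (e ▸ hx)
    have hky : k ≠ y := fun e => hkF (e ▸ hy)
    have h1 := h00.up (insert k F) (Finset.insert_subset hk hFU) x (Finset.mem_insert_of_mem hx) y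
      (Finset.mem_insert_of_mem hy) hxy r hr
    rwa [Finset.erase_insert_of_ne hkx, Finset.erase_insert_of_ne hky] at h1
  have Wkk : ∀ r ∈ Icc 0 s, ∀ x ∈ F, ∀ y ∈ F, x ≠ y →
      Φ (insert i (insert j ((F.erase x).erase y))) r
        ≤ W r x y * Φ (insert i (insert j F)) r := by
    intro r hr x hx y hy hxy
    have hix : i ≠ x := fun e => hi (e ▸ hx)
    have hiy : i ≠ y := fun e => hi (e ▸ hy)
    have hjx : j ≠ x := fun e => hj (e ▸ hx)
    have hjy : j ≠ y := fun e => hj (e ▸ hy)
    have h1 := h00.up _ hB' x (by simp [hx]) y (by simp [hy]) hxy r hr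
    rwa [Finset.erase_insert_of_ne hix, Finset.erase_insert_of_ne hjx,
      Finset.erase_insert_of_ne hiy, Finset.erase_insert_of_ne hjy] at h1
  have Wk1 : ∀ r ∈ Icc 0 s, ∀ k ∈ U, k ∉ F → ∀ b ∈ F,
      Φ (F.erase b) r ≤ W r k b * Φ (insert k F) r := by
    intro r hr k hk hkF b hb
    have hkb : k ≠ b := fun e => hkF (e ▸ hb)
    have h1 := h00.up (insert k F) (Finset.insert_subset hk hFU) k (by simp) b
      (Finset.mem_insert_of_mem hb) hkb r hr
    rwa [Finset.erase_insert hkF] at h1
  intro r hr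
  constructor
  · -- lower bound of the ratio
    refine step_lower (A := Φ F) (B := Φ (insert i (insert j F))) (C := Φ (insert j F))
      (D := Φ (insert i F)) dA (hΦ.pos _) dB (hΦ.pos _) dC (hΦ.pos _) dD (hΦ.pos _)
      (q := gm i j) (q' := gm' i j) (dm i hiU j hjU)
      (fun h => (hend h F hFU i hiU j hjU hi hj hij).1) ?_ r hr
    intro r hr hv
    have hv1 : Φ F r * Φ (insert i (insert j F)) r ≤ Φ (insert j F) r * Φ (insert i F) r := by
      have h1 := Real.one_le_exp (gm0 i j r hr)
      have h2 : 0 < Φ F r * Φ (insert i (insert j F)) r := mul_pos (hΦ.pos _ r hr) (hΦ.pos _ r hr)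
      nlinarith
    have t1 := sum_low (h := h r) (h0 r) hF2
      (f := fun x y => Φ ((F.erase x).erase y) r / Φ F r
          + Φ (insert i (insert j ((F.erase x).erase y))) r / Φ (insert i (insert j F)) r
          - Φ (insert j ((F.erase x).erase y)) r / Φ (insert j F) r
          - Φ (insert i ((F.erase x).erase y)) r / Φ (insert i F) r)
      (w := fun x y => W r x y *
          (max ((1 - Real.exp (-(gp j x r + gp j y r))) * (1 - Real.exp (-(gm i x r + gm i y r))))
            ((1 - Real.exp (-(gm j x r + gm j y r))) * (1 - Real.exp (-(gp i x r + gp i y r))))))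
      (fun x _ y _ => mul_nonneg (h00.W0 r hr x y) (le_max_of_le_left (mul_nonneg (X0 r hr j x y).1 (X0 r hr i x y).2)))
      (fun x hx y hy hne => by
        have hxy : x ≠ y := fun e => hne (by rw [e]; exact haa r y)
        have p0 := hΦ.pos F r hr
        have p2 := hΦ.pos ((F.erase x).erase y) r hr
        have j0 := hΦ.pos (insert j F) r hr
        have j2 := hΦ.pos (insert j ((F.erase x).erase y)) r hr
        have i0 := hΦ.pos (insert i F) r hr
        have i2 := hΦ.pos (insert i ((F.erase x).erase y)) r hr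
        have b0 := hΦ.pos (insert i (insert j F)) r hr
        have b2 := hΦ.pos (insert i (insert j ((F.erase x).erase y))) r hr
        obtain ⟨u1, u2⟩ := PD r hr j hjU hj x hx y hy hxy
        obtain ⟨v1, v2⟩ := PD r hr i hiU hi x hx y hy hxy
        refine elim_geW (t1 := _) (t2 := _) (div_pos p2 p0) ?_ ?_ ?_ (h00.W0 r hr x y) ?_ ?_
          u1 u2 v1 v2 (G0 r hr j x y).2 (G0 r hr j x y).1 (G0 r hr i x y).2 (G0 r hr i x y).1
        · -- c d ≤ a b
          have hb := (RB r hr x hx y).1
          rw [div_mul_div_comm, div_mul_div_comm, div_le_div_iff₀ (mul_pos j0 i0) (mul_pos p0 b0)]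
          have hm : (Φ (insert j ((F.erase x).erase y)) r * Φ (insert i ((F.erase x).erase y)) r)
              * (Real.exp (gm i j r) * (Φ F r * Φ (insert i (insert j F)) r))
              ≤ (Real.exp (gm i j r) * (Φ ((F.erase x).erase y) r
                * Φ (insert i (insert j ((F.erase x).erase y))) r))
              * (Φ (insert j F) r * Φ (insert i F) r) :=
            mul_le_mul hb hv.le (by positivity) (by positivity)
          have e1 := Real.exp_pos (gm i j r)
          refine le_of_mul_le_mul_left ?_ e1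
          linarith
        · rw [div_le_iff₀ j0]
          exact Wk r hr j hjU hj x hx y hy hxy
        · rw [div_le_iff₀ i0]
          exact Wk r hr i hiU hi x hx y hy hxy
        · field_simp; ring
        · field_simp; ring)
    have t2 := sum1_low (h := fun b => h r i b) (h0 r i) hF2
      (f := fun b => Φ (insert j (F.erase b)) r / Φ (insert i (insert j F)) r
          - Φ (F.erase b) r / Φ (insert i F) r)
      (w := fun b => W r i b * (1 - Real.exp (-gp j b r)))
      (fun b _ => mul_nonneg (h00.W0 r hr i b) (one_sub_exp_nonneg (gp0 j b r hr)))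
      (fun b hb => by
        have := bterm_lowW (hΦ.pos _ r hr) (hΦ.pos _ r hr) (hΦ.pos _ r hr) (hΦ.pos _ r hr)
          (Real.one_le_exp (gp0 j b r hr)) hv1 (S r hr j hjU hj b hb).2 (Wk1 r hr i hiU hi b hb)
        rwa [one_div, ← Real.exp_neg] at this)
    have t3 := sum1_low (h := fun b => h r j b) (h0 r j) hF2
      (f := fun b => Φ (insert i (F.erase b)) r / Φ (insert i (insert j F)) r
          - Φ (F.erase b) r / Φ (insert j F) r)
      (w := fun b => W r j b * (1 - Real.exp (-gp i b r)))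
      (fun b _ => mul_nonneg (h00.W0 r hr j b) (one_sub_exp_nonneg (gp0 i b r hr)))
      (fun b hb => by
        have := bterm_lowW (hΦ.pos _ r hr) (hΦ.pos (insert i F) r hr) (hΦ.pos (insert j F) r hr)
          (hΦ.pos _ r hr)
          (Real.one_le_exp (gp0 i b r hr)) (by rw [mul_comm (Φ (insert i F) r)]; exact hv1)
          (S r hr i hiU hi b hb).2 (Wk1 r hr j hjU hj b hb)
        rwa [one_div, ← Real.exp_neg] at this)
    have t4 : h r i j * (T r i j - 1) ≤ h r i j * (Φ F r / Φ (insert i (insert j F)) r - 1) :=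
      mul_le_mul_of_nonneg_left (by linarith [(Wij r hr).2]) (h0 r i j)
    have t5 := om i hiU j hjU hij r hr
    rw [rates r hr]
    linarith
  · -- upper bound of the ratio
    refine step_upper (A := Φ F) (B := Φ (insert i (insert j F))) (C := Φ (insert j F))
      (D := Φ (insert i F)) dA (hΦ.pos _) dB (hΦ.pos _) dC (hΦ.pos _) dD (hΦ.pos _)
      (q := gp i j) (q' := gp' i j) (dp i hiU j hjU)
      (fun h => (hend h F hFU i hiU j hjU hi hj hij).2) ?_ r hr
    intro r hr hv
    have hv1 : Φ (insert j F) r * Φ (insert i F) r ≤ Φ F r * Φ (insert i (insert j F)) r := by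
      have h1 := Real.one_le_exp (gp0 i j r hr)
      have h2 : 0 < Φ (insert j F) r * Φ (insert i F) r := mul_pos (hΦ.pos _ r hr) (hΦ.pos _ r hr)
      nlinarith
    have t1 := sum_up (h := h r) (h0 r) hF2
      (f := fun x y => Φ ((F.erase x).erase y) r / Φ F r
          + Φ (insert i (insert j ((F.erase x).erase y))) r / Φ (insert i (insert j F)) r
          - Φ (insert j ((F.erase x).erase y)) r / Φ (insert j F) r
          - Φ (insert i ((F.erase x).erase y)) r / Φ (insert i F) r)
      (w := fun x y => W r x y *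
          (max ((1 - Real.exp (-(gp j x r + gp j y r))) * (1 - Real.exp (-(gp i x r + gp i y r))))
            ((1 - Real.exp (-(gm j x r + gm j y r))) * (1 - Real.exp (-(gm i x r + gm i y r))))))
      (fun x _ y _ => mul_nonneg (h00.W0 r hr x y) (le_max_of_le_left (mul_nonneg (X0 r hr j x y).1 (X0 r hr i x y).1)))
      (fun x hx y hy hne => by
        have hxy : x ≠ y := fun e => hne (by rw [e]; exact haa r y)
        have p0 := hΦ.pos F r hr
        have p2 := hΦ.pos ((F.erase x).erase y) r hr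
        have j0 := hΦ.pos (insert j F) r hr
        have j2 := hΦ.pos (insert j ((F.erase x).erase y)) r hr
        have i0 := hΦ.pos (insert i F) r hr
        have i2 := hΦ.pos (insert i ((F.erase x).erase y)) r hr
        have b0 := hΦ.pos (insert i (insert j F)) r hr
        have b2 := hΦ.pos (insert i (insert j ((F.erase x).erase y))) r hr
        obtain ⟨u1, u2⟩ := PD r hr j hjU hj x hx y hy hxy
        obtain ⟨v1, v2⟩ := PD r hr i hiU hi x hx y hy hxy
        refine elim_leW (t1 := _) (t2 := _) (div_pos p2 p0) ?_ ?_ ?_ (h00.W0 r hr x y) ?_ ?_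
          u1 u2 v1 v2 (G0 r hr j x y).2 (G0 r hr j x y).1 (G0 r hr i x y).2 (G0 r hr i x y).1
        · -- a b ≤ c d
          have hb := (RB r hr x hx y).2
          rw [div_mul_div_comm, div_mul_div_comm, div_le_div_iff₀ (mul_pos p0 b0) (mul_pos j0 i0)]
          have hm : (Φ ((F.erase x).erase y) r
                * Φ (insert i (insert j ((F.erase x).erase y))) r)
              * (Real.exp (gp i j r) * (Φ (insert j F) r * Φ (insert i F) r))
              ≤ (Real.exp (gp i j r) * (Φ (insert j ((F.erase x).erase y)) r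
                * Φ (insert i ((F.erase x).erase y)) r))
              * (Φ F r * Φ (insert i (insert j F)) r) :=
            mul_le_mul hb hv.le (by positivity) (by positivity)
          have e1 := Real.exp_pos (gp i j r)
          refine le_of_mul_le_mul_left ?_ e1
          linarith
        · rw [div_le_iff₀ p0]
          exact h00.up F hFU x hx y hy hxy r hr
        · rw [div_le_iff₀ b0]
          exact Wkk r hr x hx y hy hxy
        · field_simp; ring
        · field_simp; ring)
    have t2 := sum1_up (h := fun b => h r i b) (h0 r i) hF2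
      (f := fun b => Φ (insert j (F.erase b)) r / Φ (insert i (insert j F)) r
          - Φ (F.erase b) r / Φ (insert i F) r)
      (w := fun b => W r i b * (1 - Real.exp (-gm j b r)))
      (fun b _ => mul_nonneg (h00.W0 r hr i b) (one_sub_exp_nonneg (gm0 j b r hr)))
      (fun b hb => by
        have := bterm_up (hΦ.pos _ r hr) (hΦ.pos _ r hr) (hΦ.pos _ r hr) (hΦ.pos _ r hr)
          (Real.one_le_exp (gm0 j b r hr)) hv1 (hΦ.pos _ r hr) (S r hr j hjU hj b hb).1
          (Wib r hr b hb)
        rwa [one_div, ← Real.exp_neg] at this)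
    have t3 := sum1_up (h := fun b => h r j b) (h0 r j) hF2
      (f := fun b => Φ (insert i (F.erase b)) r / Φ (insert i (insert j F)) r
          - Φ (F.erase b) r / Φ (insert j F) r)
      (w := fun b => W r j b * (1 - Real.exp (-gm i b r)))
      (fun b _ => mul_nonneg (h00.W0 r hr j b) (one_sub_exp_nonneg (gm0 i b r hr)))
      (fun b hb => by
        have := bterm_up (hΦ.pos _ r hr) (hΦ.pos (insert i F) r hr) (hΦ.pos (insert j F) r hr)
          (hΦ.pos _ r hr)
          (Real.one_le_exp (gm0 i b r hr)) (by rw [mul_comm (Φ (insert i F) r)]; exact hv1)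
          (hΦ.pos _ r hr) (S r hr i hiU hi b hb).1 (Wjb r hr b hb)
        rwa [one_div, ← Real.exp_neg] at this)
    have t4 : h r i j * (Φ F r / Φ (insert i (insert j F)) r - 1) ≤ h r i j * (W r i j - 1) :=
      mul_le_mul_of_nonneg_left (by linarith [(Wij r hr).1]) (h0 r i j)
    have t5 := op i hiU j hjU hij r hr
    rw [rates r hr]
    linarith

end Pool.Agent.RX.RCM
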