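import Pool.Agent.RX.RCG.Ctx_1
import Pool.Agent.RX.RCM.Glue_1
import Pool.Agent.RX.RCM.Half_2

/-! The conditions (C) and (Ct) from the ratio closures (MP_73ccd0_lc, route M). -/

namespace Pool.Agent.RX.RCM

open Set Finset Pool.Agent.RX.RCRSHalf Pool.Agent.RX.RCG

set_option linter.unusedSectionVars false

variable {V : Type*} [Fintype V] [DecidableEq V]

variable {h : ℝ → V → V → ℝ} {H : V → V → ℝ → ℝ}
variable {U : Finset V} {t : ℝ} {W T : ℝ → V → V → ℝ} {gp gp' gm gm' : V → V → ℝ → ℝ}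

theorem G12.run (hG : G12 h U t W T gp gp' gm gm') (hh : Haz h H) {κ : ℝ → V → ℝ} {s : ℝ}
    (hst : s ≤ t) {Φ : Finset V → ℝ → ℝ} (hΦ : Wd h κ s Φ) (h00 : Lv0 U s Φ W T)
    (hend : 0 ≤ s → ∀ F ⊆ U, ∀ i ∈ U, ∀ j ∈ U, i ∉ F → j ∉ F → i ≠ j → B12 Φ gp gm i j F s) :
    ∀ F ⊆ U, ∀ i ∈ U, ∀ j ∈ U, i ∉ F → j ∉ F → i ≠ j → ∀ r ∈ Icc 0 s, B12 Φ gp gm i j F r :=
  lev12 hh.symm hh.diag hh.nonneg hΦ h00
    (fun i hi j hj r hr => hG.dp i hi j hj r (mem_of_le hst hr))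
    (fun i hi j hj r hr => hG.dm i hi j hj r (mem_of_le hst hr))
    (fun i j r hr => hG.gp0 i j r (mem_of_le hst hr))
    (fun i j r hr => hG.gm0 i j r (mem_of_le hst hr))
    (fun i hi j hj hij r hr => hG.op i hi j hj hij r (mem_of_le hst hr))
    (fun i hi j hj hij r hr => hG.om i hi j hj hij r (mem_of_le hst hr)) hend

end Pool.Agent.RX.RCM
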