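import Pool.Agent.RX.RCM.MonoB
import Pool.Agent.RX.RCM.Mono_3

/-! The closures with the refined pair function: the direct part of the lower function of the pair
`c`, `d` with the true hazard of the pair (MP_73ccd0_lc, route M). -/

namespace Pool.Agent.RX.RCM

open Set Finset MeasureTheory Pool.Agent.RX.RCRSHalf Pool.Agent.RX.RCRSGen Pool.Agent.RX.RCG

set_option linter.unusedSectionVars false

variable {V : Type*} [Fintype V] [DecidableEq V]

/-- the family with the function of one ordered pair replaced -/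
def upd2 (g : V → V → ℝ → ℝ) (c d : V) (f : ℝ → ℝ) : V → V → ℝ → ℝ :=
  fun i j => if i = c ∧ j = d then f else g i j

theorem upd2_self (g : V → V → ℝ → ℝ) (c d : V) (f : ℝ → ℝ) : upd2 g c d f c d = f := by
  simp [upd2]

theorem upd2_ne {g : V → V → ℝ → ℝ} {c d i j : V} {f : ℝ → ℝ} (h : ¬(i = c ∧ j = d)) :
    upd2 g c d f i j = g i j := by
  simp [upd2, h]

theorem upd2_le {g : V → V → ℝ → ℝ} {c d : V} {f : ℝ → ℝ} {r : ℝ} (h : f r ≤ g c d r) (i j : V) :
    upd2 g c d f i j r ≤ g i j r := by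
  by_cases hi : i = c ∧ j = d
  · rw [hi.1, hi.2, upd2_self]; exact h
  · rw [upd2_ne hi]

theorem upd2_nonneg {g : V → V → ℝ → ℝ} {c d : V} {f : ℝ → ℝ} {r : ℝ} (h : 0 ≤ f r) {i j : V}
    (hg : 0 ≤ g i j r) : 0 ≤ upd2 g c d f i j r := by
  by_cases hi : i = c ∧ j = d
  · rw [hi.1, hi.2, upd2_self]; exact h
  · rw [upd2_ne hi]; exact hg

/-- the system of level 1/2 with the lower function of one ordered pair replaced -/
theorem S12.upd {U : Finset V} {t : ℝ} {T A B B2 : ℝ → V → V → ℝ}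
    {gp gp' gm gm' : V → V → ℝ → ℝ} (hS : S12 U t T A B gp gp' gm gm') {c d : V}
    {f f' : ℝ → ℝ} (hT : ∀ r ∈ Icc 0 t, ∀ i ∈ U, ∀ j ∈ U, 0 ≤ T r i j)
    (df : ∀ r ∈ Icc 0 t, HasDerivAt f (f' r) r) (f0 : ∀ r ∈ Icc 0 t, 0 ≤ f r)
    (fle : ∀ r ∈ Icc 0 t, f r ≤ gm c d r)
    (hB2 : ∀ r ∈ Icc 0 t, ∀ i ∈ U, ∀ j ∈ U, ¬(i = c ∧ j = d) → B2 r i j ≤ B r i j)
    (hf' : ∀ r ∈ Icc 0 t, B2 r c d - B r c d + f' r ≤ gm' c d r) :
    S12 U t T A B2 gp gp' (upd2 gm c d f) (upd2 gm' c d f') := by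
  have e1 : ∀ {z : ℝ}, 0 ≤ z → 0 ≤ 1 - Real.exp (-z) := fun {z} hz => by
    have := Real.exp_le_one_iff.2 (by linarith : -z ≤ 0); linarith
  have e2 : ∀ {z : ℝ}, 0 ≤ z → 0 ≤ Real.exp z - 1 := fun {z} hz => by
    have := Real.one_le_exp hz; linarith
  have f1 : ∀ {z w : ℝ}, z ≤ w → 1 - Real.exp (-z) ≤ 1 - Real.exp (-w) := fun {z w} h => by
    have := Real.exp_le_exp.2 (neg_le_neg h); linarith
  have f2 : ∀ {z w : ℝ}, z ≤ w → Real.exp z - 1 ≤ Real.exp w - 1 := fun {z w} h => by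
    have := Real.exp_le_exp.2 h; linarith
  have ee : ∀ {i j b : V}, b ∈ (U.erase i).erase j → b ∈ U := fun hb =>
    Finset.mem_of_mem_erase (Finset.mem_of_mem_erase hb)
  have ul : ∀ r ∈ Icc 0 t, ∀ i j, upd2 gm c d f i j r ≤ gm i j r := fun r hr i j =>
    upd2_le (fle r hr) i j
  have u0 : ∀ i j, ∀ r ∈ Icc 0 t, 0 ≤ upd2 gm c d f i j r := fun i j r hr =>
    upd2_nonneg (f0 r hr) (hS.gm0 i j r hr)
  refine ⟨hS.dp, fun i hi j hj r hr => ?_, hS.gp0, u0, fun i hi j hj hij r hr => ?_,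
    fun i hi j hj hij r hr => ?_⟩
  · by_cases h : i = c ∧ j = d
    · rw [h.1, h.2, upd2_self, upd2_self]; exact df r hr
    · rw [upd2_ne h, upd2_ne h]; exact hS.dm i hi j hj r hr
  · have p2 := fun a b => u0 a b r hr
    have pl := fun a b => ul r hr a b
    refine le_trans ?_ (hS.op i hi j hj hij r hr)
    refine add_le_add (add_le_add (add_le_add le_rfl ?_) ?_) ?_
    · exact Finset.sum_le_sum fun b hb =>
        mul_le_mul_of_nonneg_left (f1 (pl j b)) (hT r hr i hi b (ee hb))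
    · exact Finset.sum_le_sum fun b hb =>
        mul_le_mul_of_nonneg_left (f1 (pl i b)) (hT r hr j hj b (ee hb))
    · refine mul_le_mul_of_nonneg_left ?_ (by norm_num)
      refine Finset.sum_le_sum fun x hx => Finset.sum_le_sum fun y hy => ?_
      refine mul_le_mul_of_nonneg_left ?_ (hT r hr x (ee hx) y (ee hy))
      refine max_le_max le_rfl ?_
      exact mul_le_mul (f1 (add_le_add (pl j x) (pl j y))) (f1 (add_le_add (pl i x) (pl i y)))
        (e1 (add_nonneg (p2 _ _) (p2 _ _)))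
        (e1 (add_nonneg ((p2 _ _).trans (pl _ _)) ((p2 _ _).trans (pl _ _))))
  · have p1 := fun a b => hS.gp0 a b r hr
    have p2 := fun a b => u0 a b r hr
    have pl := fun a b => ul r hr a b
    have hom := hS.om i hi j hj hij r hr
    have key : (1 / 2) * ∑ x ∈ (U.erase i).erase j, ∑ y ∈ (U.erase i).erase j, T r x y *
          (max ((1 - Real.exp (-(gp j x r + gp j y r))) *
              (1 - Real.exp (-(upd2 gm c d f i x r + upd2 gm c d f i y r))))
            ((1 - Real.exp (-(upd2 gm c d f j x r + upd2 gm c d f j y r))) *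
              (1 - Real.exp (-(gp i x r + gp i y r)))))
        ≤ (1 / 2) * ∑ x ∈ (U.erase i).erase j, ∑ y ∈ (U.erase i).erase j, T r x y *
          (max ((1 - Real.exp (-(gp j x r + gp j y r))) * (1 - Real.exp (-(gm i x r + gm i y r))))
            ((1 - Real.exp (-(gm j x r + gm j y r))) * (1 - Real.exp (-(gp i x r + gp i y r))))) := by
      refine mul_le_mul_of_nonneg_left ?_ (by norm_num)
      refine Finset.sum_le_sum fun x hx => Finset.sum_le_sum fun y hy => ?_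
      refine mul_le_mul_of_nonneg_left ?_ (hT r hr x (ee hx) y (ee hy))
      refine max_le_max ?_ ?_
      · exact mul_le_mul_of_nonneg_left (f1 (add_le_add (pl i x) (pl i y)))
          (e1 (add_nonneg (p1 _ _) (p1 _ _)))
      · exact mul_le_mul_of_nonneg_right (f1 (add_le_add (pl j x) (pl j y)))
          (e1 (add_nonneg (p1 _ _) (p1 _ _)))
    by_cases h : i = c ∧ j = d
    · obtain ⟨h1, h2⟩ := h
      subst h1 h2
      rw [upd2_self] at *
      have := hf' r hr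
      linarith
    · rw [upd2_ne (g := gm') h]
      have := hB2 r hr i hi j hj h
      linarith

/-- level 1 with smaller lower functions of the pairs -/
theorem SV.mono_gm {X : Finset V} {t : ℝ} {κ : ℝ → V → ℝ} {T : ℝ → V → V → ℝ}
    {gp gm gn : V → V → ℝ → ℝ} {p p' n n' : V → ℝ → ℝ} (hS : SV X t κ T gp gm p p' n n')
    (hT : ∀ r ∈ Icc 0 t, ∀ i ∈ X, ∀ j ∈ X, 0 ≤ T r i j)
    (gp0 : ∀ i j, ∀ r ∈ Icc 0 t, 0 ≤ gp i j r) (gn0 : ∀ i j, ∀ r ∈ Icc 0 t, 0 ≤ gn i j r)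
    (hle : ∀ i j, ∀ r ∈ Icc 0 t, gn i j r ≤ gm i j r) : SV X t κ T gp gn p p' n n' := by
  have e1 : ∀ {z : ℝ}, 0 ≤ z → 0 ≤ 1 - Real.exp (-z) := fun {z} hz => by
    have := Real.exp_le_one_iff.2 (by linarith : -z ≤ 0); linarith
  have e2 : ∀ {z : ℝ}, 0 ≤ z → 0 ≤ Real.exp z - 1 := fun {z} hz => by
    have := Real.one_le_exp hz; linarith
  have f1 : ∀ {z w : ℝ}, z ≤ w → 1 - Real.exp (-z) ≤ 1 - Real.exp (-w) := fun {z w} h => by
    have := Real.exp_le_exp.2 (neg_le_neg h); linarith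
  have ee : ∀ {i b : V}, b ∈ X.erase i → b ∈ X := fun hb => Finset.mem_of_mem_erase hb
  refine ⟨hS.dp, hS.dn, hS.p0, hS.n0, fun e he r hr => ?_, fun e he r hr => ?_⟩
  · have p1 := fun a => hS.p0 a r hr
    have p2 := fun a => hS.n0 a r hr
    refine le_trans ?_ (hS.op e he r hr)
    refine add_le_add le_rfl (mul_le_mul_of_nonneg_left ?_ (by norm_num))
    refine Finset.sum_le_sum fun x hx => Finset.sum_le_sum fun y hy => ?_
    refine mul_le_mul_of_nonneg_left ?_ (hT r hr x (ee hx) y (ee hy))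
    refine max_le_max ?_ le_rfl
    exact mul_le_mul_of_nonneg_left (f1 (add_le_add (hle e x r hr) (hle e y r hr)))
      (e1 (add_nonneg (p2 _) (p2 _)))
  · have p1 := fun a => hS.p0 a r hr
    have p2 := fun a => hS.n0 a r hr
    refine le_trans ?_ (hS.on e he r hr)
    refine add_le_add le_rfl (mul_le_mul_of_nonneg_left ?_ (by norm_num))
    refine Finset.sum_le_sum fun x hx => Finset.sum_le_sum fun y hy => ?_
    refine mul_le_mul_of_nonneg_left ?_ (hT r hr x (ee hx) y (ee hy))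
    refine max_le_max le_rfl ?_
    exact mul_le_mul_of_nonneg_left (f1 (add_le_add (hle e x r hr) (hle e y r hr)))
      (e2 (add_nonneg (p1 _) (p1 _)))

variable {h : ℝ → V → V → ℝ} {H : V → V → ℝ → ℝ}

section

variable {c d : V} {A D : Finset V} {s t : ℝ} {U : Finset V} {Pa Pa' Na Na' P P' N N' : V → ℝ → ℝ}
  {T Am Bm : ℝ → V → V → ℝ} {gp gp' gm gm' : V → V → ℝ → ℝ}
  {pc pc' nc nc' pd pd' nd nd' : V → ℝ → ℝ}
  {ptca ptca' ptc ptc' ptd ptd' k k' : ℝ → ℝ} {κc κd : ℝ → V → ℝ}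

/-- the defect of the majorant at the pair -/
def dfc (h : ℝ → V → V → ℝ) (Bm : ℝ → V → V → ℝ) (N : V → ℝ → ℝ) (c d : V) (r : ℝ) : ℝ :=
  Bm r c d - h r c d * (1 - Tf N r c d)

theorem L0.Tf_cont {κ : ℝ → V → ℝ} (hL : L0 h κ U t P P' N N') (hcU : c ∈ U) (hdU : d ∈ U) :
    ContinuousOn (fun r => Tf N r c d) (Icc 0 t) := by
  have h1 : ∀ a ∈ U, ContinuousOn (N a) (Icc 0 t) := fun a ha r hr =>
    (hL.Nd a ha r hr).continuousAt.continuousWithinAt
  exact (continuousOn_const.sub (h1 c hcU)).mul (continuousOn_const.sub (h1 d hdU))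

theorem L0.Tf_le {κ : ℝ → V → ℝ} (hL : L0 h κ U t P P' N N') (c d : V) {r : ℝ}
    (hr : r ∈ Icc 0 t) : 0 ≤ 1 - Tf N r c d := by
  unfold Tf
  have h1 := hL.N0 c r hr
  have h2 := hL.N0 d r hr
  have h3 := hL.N1 c r hr
  have h4 := hL.N1 d r hr
  nlinarith

/-- **the system of both phases with the refined lower function of the pair `c`, `d`** -/
theorem Wld.toPh2R (hh : Haz h H) (hcU : c ∈ U) (hdU : d ∈ U) (hcd : c ≠ d) (hs : s ∈ Icc 0 t)
    (hw : Wld h A D s t U Pa Pa' Na Na' P P' N N' T Am Bm gp gp' gm gm')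
    (cB : ContinuousOn (fun r => Bm r c d) (Icc 0 t))
    (hκc : ∀ r ∈ Icc 0 t, ∀ e ∈ U.erase c, h r c e ≤ κc r e)
    (hκd : ∀ r ∈ Icc 0 s, ∀ e ∈ U.erase d, h r d e ≤ κd r e)
    (hc : SV (U.erase c) t κc T gp gm pc pc' nc nc')
    (hd : SV (U.erase d) s κd T gp gm pd pd' nd nd')
    (hk : Sk ((U.erase c).erase d) s T pc nc pd nd k k')
    (hIca : Ipt h (U.erase c) c d t (Wf Pa) ptca ptca') (ptca0 : ptca t = 0)
    (hIc : Ipt h (U.erase c) c d s (Wf P) ptc ptc') (mpt : ptc s ≤ ptca s)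
    (hId : Ipt h (U.erase d) d c s (Wf P) ptd ptd') (ptd0 : ptd s = 0) :
    ∃ fa fa' f f' : ℝ → ℝ,
      Ph2 h A D c d s t U Pa Pa' Na Na' gp gp' (upd2 gm c d fa) (upd2 gm' c d fa') pc pc' nc nc'
        ptca ptca' P P' N N' gp gp' (upd2 gm c d f) (upd2 gm' c d f') pc pc' nc nc' ptc ptc'
        pd pd' nd nd' ptd ptd' k k' ∧
      f 0 = gm c d 0 - (∫ r in (0 : ℝ)..s, dfc h Bm N c d r)
        - ∫ r in s..t, dfc h Bm Na c d r := by
  have h0t : 0 ≤ t := hs.1.trans hs.2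
  have m : ∀ r ∈ Icc 0 s, r ∈ Icc 0 t := fun r hr => mem_of_le hs.2 hr
  have uc : ∀ e ∈ U.erase c, e ∈ U := fun e he => Finset.mem_of_mem_erase he
  have ud : ∀ e ∈ U.erase d, e ∈ U := fun e he => Finset.mem_of_mem_erase he
  have hT : ∀ r ∈ Icc 0 t, ∀ i ∈ U, ∀ j ∈ U, 0 ≤ T r i j := fun r hr i hi j hj => by
    refine le_trans (mul_nonneg (hh.nonneg r i j) ?_) (hw.Ta r hr i hi j hj)
    unfold Wf
    exact mul_nonneg (by linarith [hw.La.P0 i r hr]) (by linarith [hw.La.P0 j r hr])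
  have ch : Continuous fun r => h r c d := hh.cont c d
  have cea : ContinuousOn (dfc h Bm Na c d) (Icc 0 t) :=
    cB.sub (ch.continuousOn.mul (continuousOn_const.sub (hw.La.Tf_cont hcU hdU)))
  have ce : ContinuousOn (dfc h Bm N c d) (Icc 0 s) :=
    (cB.mono (Icc_subset_Icc_right hs.2)).sub
      (ch.continuousOn.mul (continuousOn_const.sub (hw.L.Tf_cont hcU hdU)))
  have ea0 : ∀ r ∈ Icc 0 t, 0 ≤ dfc h Bm Na c d r := fun r hr => by
    have := hw.Ba r hr c hcU d hdU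
    unfold dfc
    linarith
  have e0 : ∀ r ∈ Icc 0 s, 0 ≤ dfc h Bm N c d r := fun r hr => by
    have := hw.Bd r hr c hcU d hdU
    unfold dfc
    linarith
  have hb : ∀ r ∈ Icc 0 t, Bm r c d ≤ -gm' c d r := fun r hr => by
    have hom := hw.g.om c hcU d hdU hcd r hr
    have e1 : ∀ {z : ℝ}, 0 ≤ z → 0 ≤ 1 - Real.exp (-z) := fun {z} hz => by
      have := Real.exp_le_one_iff.2 (by linarith : -z ≤ 0); linarith
    have e2 : ∀ {z : ℝ}, 0 ≤ z → 0 ≤ Real.exp z - 1 := fun {z} hz => by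
      have := Real.one_le_exp hz; linarith
    have ee : ∀ {i j b : V}, b ∈ (U.erase i).erase j → b ∈ U := fun hb =>
      Finset.mem_of_mem_erase (Finset.mem_of_mem_erase hb)
    have s1 : 0 ≤ ∑ b ∈ (U.erase c).erase d, T r c b * (1 - Real.exp (-gp d b r)) :=
      Finset.sum_nonneg fun b hb => mul_nonneg (hT r hr c hcU b (ee hb))
        (e1 (hw.g.gp0 d b r hr))
    have s2 : 0 ≤ ∑ b ∈ (U.erase c).erase d, T r d b * (1 - Real.exp (-gp c b r)) :=
      Finset.sum_nonneg fun b hb => mul_nonneg (hT r hr d hdU b (ee hb))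
        (e1 (hw.g.gp0 c b r hr))
    have s3 : 0 ≤ (1 / 2) * ∑ x ∈ (U.erase c).erase d, ∑ y ∈ (U.erase c).erase d, T r x y *
          (max ((1 - Real.exp (-(gp d x r + gp d y r))) * (1 - Real.exp (-(gm c x r + gm c y r))))
            ((1 - Real.exp (-(gm d x r + gm d y r))) * (1 - Real.exp (-(gp c x r + gp c y r))))) :=
      mul_nonneg (by norm_num) (Finset.sum_nonneg fun x hx => Finset.sum_nonneg fun y hy =>
        mul_nonneg (hT r hr x (ee hx) y (ee hy)) (le_max_of_le_left (mul_nonneg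
          (e1 (add_nonneg (hw.g.gp0 d x r hr) (hw.g.gp0 d y r hr)))
          (e1 (add_nonneg (hw.g.gm0 c x r hr) (hw.g.gm0 c y r hr))))))
    linarith
  -- the two functions
  set fa : ℝ → ℝ := fun r => gm c d r - bk (dfc h Bm Na c d) t r with hfa
  set fa' : ℝ → ℝ := fun r => gm' c d r - -(dfc h Bm Na c d r) with hfa'
  have dfa : ∀ r ∈ Icc 0 t, HasDerivAt fa (fa' r) r := fun r hr =>
    (hw.g.dm c hcU d hdU r hr).sub (bk_deriv h0t cea hr)
  have fat : fa t = gm c d t := by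
    show gm c d t - bk (dfc h Bm Na c d) t t = _
    rw [bk_self, sub_zero]
  have fa0 : ∀ r ∈ Icc 0 t, 0 ≤ fa r :=
    nonneg_of_backward dfa (by rw [fat]; exact hw.g.gm0 c d t ⟨h0t, le_rfl⟩) fun r hr _ => by
      have h1 := hb r hr
      have h2 := mul_nonneg (hh.nonneg r c d) (hw.La.Tf_le c d hr)
      show gm' c d r - -(dfc h Bm Na c d r) ≤ 0
      unfold dfc
      linarith
  have fale : ∀ r ∈ Icc 0 t, fa r ≤ gm c d r := fun r hr => by
    have := bk_nonneg hr ea0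
    show gm c d r - bk (dfc h Bm Na c d) t r ≤ _
    linarith
  set f : ℝ → ℝ := fun r => gm c d r - bk (dfc h Bm N c d) s r - bk (dfc h Bm Na c d) t s with hf
  set f' : ℝ → ℝ := fun r => gm' c d r - -(dfc h Bm N c d r) with hf'
  have dff : ∀ r ∈ Icc 0 s, HasDerivAt f (f' r) r := fun r hr =>
    ((hw.g.dm c hcU d hdU r (m r hr)).sub (bk_deriv hs.1 ce hr)).sub_const _
  have fs : f s = fa s := by
    show gm c d s - bk (dfc h Bm N c d) s s - bk (dfc h Bm Na c d) t s = _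
    rw [bk_self, sub_zero]
  have f0 : ∀ r ∈ Icc 0 s, 0 ≤ f r :=
    nonneg_of_backward dff (by rw [fs]; exact fa0 s hs) fun r hr _ => by
      have h1 := hb r (m r hr)
      have h2 := mul_nonneg (hh.nonneg r c d) (hw.L.Tf_le c d hr)
      show gm' c d r - -(dfc h Bm N c d r) ≤ 0
      unfold dfc
      linarith
  have fle : ∀ r ∈ Icc 0 s, f r ≤ gm c d r := fun r hr => by
    have h1 := bk_nonneg hr e0
    have h2 := bk_nonneg (t := t) hs ea0
    show gm c d r - bk (dfc h Bm N c d) s r - bk (dfc h Bm Na c d) t s ≤ _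
    linarith
  -- the systems
  set Ba2 : ℝ → V → V → ℝ := fun r i j => if i = c ∧ j = d then h r c d * (1 - Tf Na r c d)
    else Bm r i j with hBa2
  set Bd2 : ℝ → V → V → ℝ := fun r i j => if i = c ∧ j = d then h r c d * (1 - Tf N r c d)
    else Bm r i j with hBd2
  have ga : S12 U t T Am Ba2 gp gp' (upd2 gm c d fa) (upd2 gm' c d fa') := by
    refine hw.g.upd hT dfa fa0 fale (fun r hr i hi j hj hij => ?_) fun r hr => ?_
    · show (if i = c ∧ j = d then _ else _) ≤ _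
      rw [if_neg hij]
    · show (if c = c ∧ d = d then _ else _) - _ + (gm' c d r - -(dfc h Bm Na c d r)) ≤ _
      rw [if_pos ⟨rfl, rfl⟩]
      unfold dfc
      linarith
  have gt0 : S12 U s T Am Bm gp gp' gm gm' :=
    ⟨fun i hi j hj r hr => hw.g.dp i hi j hj r (m r hr),
      fun i hi j hj r hr => hw.g.dm i hi j hj r (m r hr),
      fun i j r hr => hw.g.gp0 i j r (m r hr), fun i j r hr => hw.g.gm0 i j r (m r hr),
      fun i hi j hj hij r hr => hw.g.op i hi j hj hij r (m r hr),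
      fun i hi j hj hij r hr => hw.g.om i hi j hj hij r (m r hr)⟩
  have gt : S12 U s T Am Bd2 gp gp' (upd2 gm c d f) (upd2 gm' c d f') := by
    refine gt0.upd (fun r hr => hT r (m r hr)) dff f0 fle (fun r hr i hi j hj hij => ?_)
      fun r hr => ?_
    · show (if i = c ∧ j = d then _ else _) ≤ _
      rw [if_neg hij]
    · show (if c = c ∧ d = d then _ else _) - _ + (gm' c d r - -(dfc h Bm N c d r)) ≤ _
      rw [if_pos ⟨rfl, rfl⟩]
      unfold dfc
      linarith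
  have hc2 : SV (U.erase c) t κc T gp (upd2 gm c d fa) pc pc' nc nc' :=
    hc.mono_gm (fun r hr i hi j hj => hT r hr i (uc i hi) j (uc j hj)) hw.g.gp0 ga.gm0
      (fun i j r hr => upd2_le (fale r hr) i j)
  have ct : SV (U.erase c) s κc T gp gm pc pc' nc nc' :=
    ⟨fun e he r hr => hc.dp e he r (m r hr), fun e he r hr => hc.dn e he r (m r hr),
      fun e r hr => hc.p0 e r (m r hr), fun e r hr => hc.n0 e r (m r hr),
      fun e he r hr => hc.op e he r (m r hr), fun e he r hr => hc.on e he r (m r hr)⟩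
  have hc3 : SV (U.erase c) s κc T gp (upd2 gm c d f) pc pc' nc nc' :=
    ct.mono_gm (fun r hr i hi j hj => hT r (m r hr) i (uc i hi) j (uc j hj)) gt.gp0 gt.gm0
      (fun i j r hr => upd2_le (fle r hr) i j)
  have hd3 : SV (U.erase d) s κd T gp (upd2 gm c d f) pd pd' nd nd' :=
    hd.mono_gm (fun r hr i hi j hj => hT r (m r hr) i (ud i hi) j (ud j hj)) gt.gp0 gt.gm0
      (fun i j r hr => upd2_le (fle r hr) i j)
  refine ⟨fa, fa', f, f', ⟨hw.La, ga.toG le_rfl hw.Ta hw.Aa (fun r hr i hi j hj => ?_),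
    hc2.toG le_rfl ga.gp0 ga.gm0 hκc
      (fun r hr i hi j hj => hw.Ta r hr i (uc i hi) j (uc j hj)), hIca, ptca0, hw.L,
    gt.toG le_rfl hw.Td hw.Ad (fun r hr i hi j hj => ?_),
    hc3.toG le_rfl gt.gp0 gt.gm0 (fun r hr => hκc r (m r hr))
      (fun r hr i hi j hj => hw.Td r hr i (uc i hi) j (uc j hj)), hIc,
    hd3.toG le_rfl gt.gp0 gt.gm0 hκd
      (fun r hr i hi j hj => hw.Td r hr i (ud i hi) j (ud j hj)), hId, ptd0,
    hk.toG (fun e r hr => hc.n0 e r (m r hr)) hd.p0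
      (fun r hr i hi j hj => hw.Td r hr i (uc i (Finset.mem_of_mem_erase hi)) j
        (uc j (Finset.mem_of_mem_erase hj))),
    hw.mP, hw.mN, fun _ _ _ _ => le_rfl, fun i hi j hj => ?_, fun _ _ => le_rfl,
    fun _ _ => le_rfl, mpt⟩, ?_⟩
  · show _ ≤ (if i = c ∧ j = d then _ else _)
    by_cases hij : i = c ∧ j = d
    · rw [if_pos hij, hij.1, hij.2]
    · rw [if_neg hij]; exact hw.Ba r hr i hi j hj
  · show _ ≤ (if i = c ∧ j = d then _ else _)
    by_cases hij : i = c ∧ j = d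
    · rw [if_pos hij, hij.1, hij.2]
    · rw [if_neg hij]; exact hw.Bd r hr i hi j hj
  · by_cases hij : i = c ∧ j = d
    · rw [hij.1, hij.2, upd2_self, upd2_self, fs]
    · rw [upd2_ne hij, upd2_ne hij]
  · show gm c d 0 - bk (dfc h Bm N c d) s 0 - bk (dfc h Bm Na c d) t s = _
    rw [bk_eq ⟨le_rfl, hs.1⟩, bk_eq hs]

/-- the deleted closure with the refined lower function -/
theorem Wld.cloDR (hh : Haz h H) (hca : c ∉ D) (hda : d ∉ D) (hcd : c ≠ d)
    (ht : t ∈ Icc (0 : ℝ) 1) (hs : s ∈ Icc 0 t) (hU : U = Dᶜ)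
    (hw : Wld h A D s t U Pa Pa' Na Na' P P' N N' T Am Bm gp gp' gm gm')
    (cB : ContinuousOn (fun r => Bm r c d) (Icc 0 t))
    (hκc : ∀ r ∈ Icc 0 t, ∀ e ∈ U.erase c, h r c e ≤ κc r e)
    (hκd : ∀ r ∈ Icc 0 s, ∀ e ∈ U.erase d, h r d e ≤ κd r e)
    (hc : SV (U.erase c) t κc T gp gm pc pc' nc nc')
    (hd : SV (U.erase d) s κd T gp gm pd pd' nd nd')
    (hk : Sk ((U.erase c).erase d) s T pc nc pd nd k k')
    (hIca : Ipt h (U.erase c) c d t (Wf Pa) ptca ptca') (ptca0 : ptca t = 0)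
    (hIc : Ipt h (U.erase c) c d s (Wf P) ptc ptc') (mpt : ptc s ≤ ptca s)
    (hId : Ipt h (U.erase d) d c s (Wf P) ptd ptd') (ptd0 : ptd s = 0) (k0 : 0 ≤ k s) :
    CloD h t s A D c d (Real.exp (k 0 + (gm c d 0 - (∫ r in (0 : ℝ)..s, dfc h Bm N c d r)
      - ∫ r in s..t, dfc h Bm Na c d r) + nc d 0 + nd c 0
      + (H c d s - ptc 0 * Real.exp (-nc d 0) - ptd 0 * Real.exp (-nd c 0)))) := by
  have hcU : c ∈ U := by rw [hU]; exact Finset.mem_compl.2 hca
  have hdU : d ∈ U := by rw [hU]; exact Finset.mem_compl.2 hda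
  obtain ⟨fa, fa', f, f', hp, ef⟩ := hw.toPh2R hh hcU hdU hcd hs cB hκc hκd hc hd hk hIca ptca0
    hIc mpt hId ptd0
  have z : (0 : ℝ) ∈ Icc 0 s := ⟨le_rfl, hs.1⟩
  have hn : 0 ≤ Real.exp (nd c 0) - ptd 0 := by
    have h1 := Real.one_le_exp (hd.n0 c 0 z)
    have h2 := hId.p1 0 z
    linarith
  have hC : CloD h t s A D c d (Real.exp (k 0 + upd2 gm c d f c d 0 + H c d s) *
          ((Real.exp (nc d 0) - ptc 0) * (Real.exp (nd c 0) - ptd 0))) :=
    fun _ _ hRa a1 hRac c1 => condVCD2 hh hca hda hcd ht hs hRa a1 hRac c1 hU hp k0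
  rw [upd2_self, ef] at hC
  exact hC.mono hh ht hs (K_le_exp hn)

/-- the released closure with the refined lower function -/
theorem Wld.cloDtR (hh : Haz h H) (hca : c ∉ D) (hda : d ∉ D) (hcd : c ≠ d)
    (ht : t ∈ Icc (0 : ℝ) 1) (hs : s ∈ Icc 0 t) (hU : U = Dᶜ)
    (hw : Wld h A D s t U Pa Pa' Na Na' P P' N N' T Am Bm gp gp' gm gm')
    (cB : ContinuousOn (fun r => Bm r c d) (Icc 0 t))
    (hκc : ∀ r ∈ Icc 0 t, ∀ e ∈ U.erase c, h r c e ≤ κc r e)
    (hκd : ∀ r ∈ Icc 0 s, ∀ e ∈ U.erase d, h r d e ≤ κd r e)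
    (hc : SV (U.erase c) t κc T gp gm pc pc' nc nc')
    (hd : SV (U.erase d) s κd T gp gm pd pd' nd nd')
    (hde : ∀ e ∈ U, gm d e s ≤ pd e s ∧ gp d e s ≤ nd e s)
    (hk : Sk ((U.erase c).erase d) s T pc nc pd nd k k')
    (hIca : Ipt h (U.erase c) c d t (Wf Pa) ptca ptca') (ptca0 : ptca t = 0)
    (hIc : Ipt h (U.erase c) c d s (Wf P) ptc ptc') (mpt : ptc s ≤ ptca s)
    (hId : Ipt h (U.erase d) d c s (Wf P) ptd ptd') (ptd0 : ptd s = 0) (k0 : pc d s ≤ k s) :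
    CloDt h t s A D c d (Real.exp (k 0 + (gm c d 0 - (∫ r in (0 : ℝ)..s, dfc h Bm N c d r)
      - ∫ r in s..t, dfc h Bm Na c d r) + nc d 0 + nd c 0
      + (H c d s - ptc 0 * Real.exp (-nc d 0) - ptd 0 * Real.exp (-nd c 0)))) := by
  have hcU : c ∈ U := by rw [hU]; exact Finset.mem_compl.2 hca
  have hdU : d ∈ U := by rw [hU]; exact Finset.mem_compl.2 hda
  obtain ⟨fa, fa', f, f', hp, ef⟩ := hw.toPh2R hh hcU hdU hcd hs cB hκc hκd hc hd hk hIca ptca0
    hIc mpt hId ptd0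
  have z : (0 : ℝ) ∈ Icc 0 s := ⟨le_rfl, hs.1⟩
  have hn : 0 ≤ Real.exp (nd c 0) - ptd 0 := by
    have h1 := Real.one_le_exp (hd.n0 c 0 z)
    have h2 := hId.p1 0 z
    linarith
  have hC : CloDt h t s A D c d (Real.exp (k 0 + upd2 gm c d f c d 0 + H c d s) *
          ((Real.exp (nc d 0) - ptc 0) * (Real.exp (nd c 0) - ptd 0))) :=
    fun _ _ hRa a1 hRac c1 => condVCtD2 hh hca hda hcd ht hs hRa a1 hRac c1 hU hp
      (fun e he => by
        rw [upd2_ne (fun hx => hcd hx.1.symm)]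
        exact hde e he) k0
  rw [upd2_self, ef] at hC
  exact hC.mono hh ht hs (K_le_exp hn)

end

end Pool.Agent.RX.RCM
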