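import Mathlib

/-! Graph lemmas for the sum bounds of the walk rates (MP_73ccd0_lc, route M). -/

namespace Pool.Agent.RX.RCM.Gr

open Finset

variable {V : Type*} [Fintype V] [DecidableEq V]

/-- weights: symmetric, nonnegative, zero diagonal, rows at most one -/
structure Wg (x : V → V → ℝ) : Prop where
  symm : ∀ a b, x a b = x b a
  nn : ∀ a b, 0 ≤ x a b
  diag : ∀ a, x a a = 0
  row : ∀ a, ∑ b, x a b ≤ 1

omit [Fintype V] in
/-- **G2**: chord lemma (rearrangement). Two neighbours of the same vertex, similarly ordered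
functions `f`, `g` of the weights. -/
theorem chord_le (S : Finset V) {v : V → ℝ} {R : ℝ} (v0 : ∀ d ∈ S, 0 ≤ v d)
    (hR : ∑ d ∈ S, v d ≤ R) (hR1 : R ≤ 1) {f g : ℝ → ℝ}
    (f0 : ∀ y, 0 ≤ y → y ≤ 1 → 0 ≤ f y) (g0 : ∀ y, 0 ≤ y → y ≤ 1 → 0 ≤ g y)
    (ord : ∀ y z, 0 ≤ z → z ≤ y → y + z ≤ 1 → f z ≤ f y ∧ g z ≤ g y) :
    ∑ d ∈ S, ∑ e ∈ S.erase d, (v d * f (v d)) * (v e * g (v e))
      ≤ ∑ d ∈ S, v d * (f (v d) * g (v d)) * (R - v d) := by
  have conv : ∀ F : V → V → ℝ, ∑ b ∈ S, ∑ c ∈ S.erase b, F b c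
      = ∑ b ∈ S, ∑ c ∈ S, if b ≠ c then F b c else 0 := by
    intro F
    refine Finset.sum_congr rfl fun b _ => ?_
    rw [← Finset.sum_filter]
    refine Finset.sum_congr ?_ fun _ _ => rfl
    ext c
    simp only [Finset.mem_erase, Finset.mem_filter]
    exact ⟨fun h => ⟨h.2, Ne.symm h.1⟩, fun h => ⟨Ne.symm h.2, h.1⟩⟩
  have sw : ∀ F : V → V → ℝ, ∑ b ∈ S, ∑ c ∈ S.erase b, F c b
      = ∑ b ∈ S, ∑ c ∈ S.erase b, F b c := by
    intro F
    rw [conv, conv, Finset.sum_comm]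
    refine Finset.sum_congr rfl fun b _ => Finset.sum_congr rfl fun c _ => ?_
    by_cases h : b = c
    · subst h; simp
    · rw [if_pos h, if_pos (Ne.symm h)]
  have pairle : ∀ d ∈ S, ∀ e ∈ S, d ≠ e → v d + v e ≤ 1 := by
    intro d hd e he hde
    have h1 : ∑ z ∈ ({d, e} : Finset V), v z ≤ ∑ z ∈ S, v z :=
      Finset.sum_le_sum_of_subset_of_nonneg (fun z hz => by
        rcases Finset.mem_insert.1 hz with h | h
        · rw [h]; exact hd
        · rw [Finset.mem_singleton.1 h]; exact he) fun z hz _ => v0 z hz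
    rw [Finset.sum_pair hde] at h1
    linarith
  have key : ∀ d ∈ S, ∀ e ∈ S.erase d,
      (v d * f (v d)) * (v e * g (v e)) + (v e * f (v e)) * (v d * g (v d))
        ≤ v d * (f (v d) * g (v d)) * v e + v e * (f (v e) * g (v e)) * v d := by
    intro d hd e he
    have he' := Finset.mem_of_mem_erase he
    have hde : d ≠ e := (Finset.ne_of_mem_erase he).symm
    have hs := pairle d hd e he' hde
    have vd := v0 d hd
    have ve := v0 e he'
    have h1 : 0 ≤ (f (v d) - f (v e)) * (g (v d) - g (v e)) := by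
      rcases le_total (v e) (v d) with h | h
      · obtain ⟨a1, a2⟩ := ord _ _ ve h hs
        exact mul_nonneg (by linarith) (by linarith)
      · obtain ⟨a1, a2⟩ := ord _ _ vd h (by linarith)
        exact mul_nonneg_of_nonpos_of_nonpos (by linarith) (by linarith)
    have h2 := mul_nonneg (mul_nonneg vd ve) h1
    nlinarith
  have h1 : 2 * ∑ d ∈ S, ∑ e ∈ S.erase d, (v d * f (v d)) * (v e * g (v e))
      ≤ 2 * ∑ d ∈ S, ∑ e ∈ S.erase d, v d * (f (v d) * g (v d)) * v e := by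
    have e1 := sw fun d e => (v d * f (v d)) * (v e * g (v e))
    have e2 := sw fun d e => v d * (f (v d) * g (v d)) * v e
    have h3 : ∑ d ∈ S, ∑ e ∈ S.erase d, ((v d * f (v d)) * (v e * g (v e))
        + (v e * f (v e)) * (v d * g (v d)))
        ≤ ∑ d ∈ S, ∑ e ∈ S.erase d, (v d * (f (v d) * g (v d)) * v e
          + v e * (f (v e) * g (v e)) * v d) :=
      Finset.sum_le_sum fun d hd => Finset.sum_le_sum fun e he => key d hd e he
    simp only [Finset.sum_add_distrib] at h3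
    linarith
  refine (le_of_mul_le_mul_left h1 two_pos).trans (Finset.sum_le_sum fun d hd => ?_)
  rw [← Finset.mul_sum]
  have vd := v0 d hd
  have vd1 : v d ≤ 1 := by
    have := Finset.single_le_sum v0 hd
    linarith
  refine mul_le_mul_of_nonneg_left ?_ (mul_nonneg vd (mul_nonneg (f0 _ vd vd1) (g0 _ vd vd1)))
  have := Finset.sum_erase_add S v hd
  linarith

theorem row3 {x : V → V → ℝ} (row : ∀ a, ∑ b, x a b ≤ 1)
    {a b e : V} (hab : a ≠ b) (hae : a ≠ e) (hbe : b ≠ e) (d : V) :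
    ∑ f ∈ ({a, b, e} : Finset V)ᶜ, x d f ≤ 1 - x d a - x d b - x d e := by
  have h := sum_compl_add_sum ({a, b, e} : Finset V) (x d)
  have h3 : ∑ f ∈ ({a, b, e} : Finset V), x d f = x d a + x d b + x d e := by
    rw [sum_insert (by simp [hab, hae]), sum_insert (by simp [hbe]), sum_singleton]; ring
  have := row d
  linarith

/-- **G5a** -/
theorem path_cs' {x : V → V → ℝ} (symm : ∀ a b, x a b = x b a) (nn : ∀ a b, 0 ≤ x a b)
    (row : ∀ a, ∑ b, x a b ≤ 1)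
    {a b e : V} (hab : a ≠ b) (hae : a ≠ e) (hbe : b ≠ e)
    {P1 ψ z : V → ℝ} {w : V → V → ℝ} {A B lam C Φ2 : ℝ} (A0 : 0 ≤ A) (B0 : 0 ≤ B)
    (hlam : 0 < lam) (C0 : 0 ≤ C) (Φ20 : 0 ≤ Φ2)
    (P10 : ∀ d, 0 ≤ P1 d) (w0 : ∀ d f, 0 ≤ w d f) (ψ0 : ∀ f, 0 ≤ ψ f) (z0 : ∀ f, 0 ≤ z f)
    (hw : ∀ d f, w d f ≤ Φ2 * x d f)
    (hψ : ∀ f ∈ ({a, b, e} : Finset V)ᶜ,
      ψ f ^ 2 * (1 - x e f - x a f - x b f) ≤ C * (1 - x e f)) :
    A * B * ∑ d ∈ ({a, b, e} : Finset V)ᶜ, ∑ f ∈ ({a, b, e} : Finset V)ᶜ, P1 d * w d f * ψ f * z f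
      ≤ lam / 2 * A ^ 2 * (C * Φ2 ^ 2) * ∑ d ∈ ({a, b, e} : Finset V)ᶜ,
          P1 d ^ 2 * (1 - x b d - x a d)
        + 1 / (2 * lam) * B ^ 2 * ∑ f ∈ ({a, b, e} : Finset V)ᶜ, z f ^ 2 * (1 - x e f) := by
  set S := ({a, b, e} : Finset V)ᶜ with hS
  have x1 : ∀ d f, x d f ≤ 1 := fun d f =>
    (single_le_sum (f := fun f => x d f) (fun i _ => nn d i) (mem_univ f)).trans (row d)
  have hrow : ∀ d, ∑ f ∈ S, x d f ≤ 1 - x d a - x d b - x d e := fun d => row3 row hab hae hbe d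
  have hrow' : ∀ d, 0 ≤ 1 - x b d - x a d := by
    intro d
    have h1 := hrow d
    have h2 : 0 ≤ ∑ f ∈ S, x d f := sum_nonneg fun f _ => nn d f
    rw [symm b d, symm a d]
    have := nn d e
    linarith
  have R1 : 0 ≤ lam / 2 * A ^ 2 * (C * Φ2 ^ 2) * ∑ d ∈ S, P1 d ^ 2 * (1 - x b d - x a d) :=
    mul_nonneg (by positivity) (sum_nonneg fun d _ => mul_nonneg (sq_nonneg _) (hrow' d))
  have R2 : 0 ≤ 1 / (2 * lam) * B ^ 2 * ∑ f ∈ S, z f ^ 2 * (1 - x e f) :=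
    mul_nonneg (by positivity) (sum_nonneg fun f _ => mul_nonneg (sq_nonneg _)
      (by linarith [x1 e f]))
  rcases eq_or_lt_of_le C0 with hC | hC
  · -- `C = 0`: every term vanishes
    have hz : ∑ d ∈ S, ∑ f ∈ S, P1 d * w d f * ψ f * z f = 0 := by
      refine sum_eq_zero fun d hd => sum_eq_zero fun f hf => ?_
      have h1 := hψ f hf
      rw [← hC, zero_mul] at h1
      rcases eq_or_lt_of_le (ψ0 f) with h0 | h0
      · rw [← h0]; ring
      · have h2 : 1 - x e f - x a f - x b f ≤ 0 := by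
          by_contra hcon
          push Not at hcon
          have : 0 < ψ f ^ 2 * (1 - x e f - x a f - x b f) := by positivity
          linarith
        have h3 := hrow f
        have h4 : x f d ≤ ∑ g ∈ S, x f g :=
          single_le_sum (f := fun g => x f g) (fun i _ => nn f i) hd
        have h5 : x d f = 0 := by
          refine le_antisymm ?_ (nn d f)
          rw [symm d f]
          rw [symm e f, symm a f, symm b f] at h2
          linarith
        have h6 : w d f = 0 := by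
          refine le_antisymm ?_ (w0 d f)
          have := hw d f
          rwa [h5, mul_zero] at this
        rw [h6]; ring
    rw [hz, mul_zero]
    linarith
  · have key : ∀ d ∈ S, ∀ f ∈ S, A * B * (P1 d * w d f * ψ f * z f)
        ≤ lam / 2 * A ^ 2 * (C * Φ2 ^ 2) * (P1 d ^ 2 * x d f)
          + 1 / (2 * lam) * B ^ 2 * (z f ^ 2 * (ψ f ^ 2 / C * x d f)) := by
      intro d _ f _
      have h1 : A * B * (P1 d * w d f * ψ f * z f) ≤ A * B * (P1 d * (Φ2 * x d f) * ψ f * z f) := by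
        refine mul_le_mul_of_nonneg_left ?_ (mul_nonneg A0 B0)
        refine mul_le_mul_of_nonneg_right ?_ (z0 f)
        refine mul_le_mul_of_nonneg_right ?_ (ψ0 f)
        exact mul_le_mul_of_nonneg_left (hw d f) (P10 d)
      refine h1.trans ?_
      have hs : 0 ≤ x d f * (lam * C * (A * Φ2 * P1 d) - B * (ψ f * z f)) ^ 2 / (2 * lam * C) := by
        have := nn d f
        positivity
      have he : lam / 2 * A ^ 2 * (C * Φ2 ^ 2) * (P1 d ^ 2 * x d f)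
          + 1 / (2 * lam) * B ^ 2 * (z f ^ 2 * (ψ f ^ 2 / C * x d f))
          - A * B * (P1 d * (Φ2 * x d f) * ψ f * z f)
          = x d f * (lam * C * (A * Φ2 * P1 d) - B * (ψ f * z f)) ^ 2 / (2 * lam * C) := by
        field_simp
        ring
      linarith
    calc A * B * ∑ d ∈ S, ∑ f ∈ S, P1 d * w d f * ψ f * z f
        = ∑ d ∈ S, ∑ f ∈ S, A * B * (P1 d * w d f * ψ f * z f) := by
          rw [mul_sum]; exact sum_congr rfl fun d _ => by rw [mul_sum]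
      _ ≤ ∑ d ∈ S, ∑ f ∈ S, (lam / 2 * A ^ 2 * (C * Φ2 ^ 2) * (P1 d ^ 2 * x d f)
            + 1 / (2 * lam) * B ^ 2 * (z f ^ 2 * (ψ f ^ 2 / C * x d f))) :=
          sum_le_sum fun d hd => sum_le_sum fun f hf => key d hd f hf
      _ = lam / 2 * A ^ 2 * (C * Φ2 ^ 2) * ∑ d ∈ S, P1 d ^ 2 * ∑ f ∈ S, x d f
          + 1 / (2 * lam) * B ^ 2 * ∑ f ∈ S, z f ^ 2 * (ψ f ^ 2 / C * ∑ d ∈ S, x d f) := by
          simp_rw [sum_add_distrib]
          congr 1
          · simp_rw [mul_sum]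
          · rw [sum_comm]
            simp_rw [mul_sum]
      _ ≤ _ := by
          refine add_le_add ?_ ?_
          · refine mul_le_mul_of_nonneg_left ?_ (by positivity)
            refine sum_le_sum fun d hd => mul_le_mul_of_nonneg_left ?_ (sq_nonneg _)
            have h1 := hrow d
            rw [symm b d, symm a d]
            have := nn d e
            linarith
          · refine mul_le_mul_of_nonneg_left ?_ (by positivity)
            refine sum_le_sum fun f hf => mul_le_mul_of_nonneg_left ?_ (sq_nonneg _)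
            have h1 : ∑ d ∈ S, x d f ≤ 1 - x e f - x a f - x b f := by
              have h := hrow f
              have h' : ∑ d ∈ S, x d f = ∑ d ∈ S, x f d := sum_congr rfl fun d _ => symm d f
              rw [h', symm e f, symm a f, symm b f]
              linarith
            have h2 := hψ f hf
            calc ψ f ^ 2 / C * ∑ d ∈ S, x d f ≤ ψ f ^ 2 / C * (1 - x e f - x a f - x b f) :=
                  mul_le_mul_of_nonneg_left h1 (by positivity)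
              _ = ψ f ^ 2 * (1 - x e f - x a f - x b f) / C := by ring
              _ ≤ C * (1 - x e f) / C := by gcongr
              _ = 1 - x e f := by field_simp

/-- the side conditions `b ≠ a`, `d ≠ a`, `b ≠ d` -/
def D3 (a b d : V) : Prop := b ≠ a ∧ d ≠ a ∧ b ≠ d

/-- rows without some vertices -/
theorem row_sub {x : V → V → ℝ} (hx : Wg x) (v : V) (S : Finset V) :
    ∑ z ∈ Sᶜ, x v z ≤ 1 - ∑ z ∈ S, x v z := by
  have h := sum_compl_add_sum S (x v)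
  have := hx.row v
  linarith

theorem sum_three (g : V → ℝ) {a b c : V} (hab : a ≠ b) (hac : a ≠ c) (hbc : b ≠ c) :
    ∑ z ∈ ({a, b, c} : Finset V), g z = g a + g b + g c := by
  rw [Finset.sum_insert (by simp [hab, hac]), Finset.sum_pair hbc]
  ring

theorem sum_four (g : V → ℝ) {a b c d : V} (hab : a ≠ b) (hac : a ≠ c) (had : a ≠ d)
    (hbc : b ≠ c) (hbd : b ≠ d) (hcd : c ≠ d) :
    ∑ z ∈ ({a, b, c, d} : Finset V), g z = g a + g b + g c + g d := by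
  rw [Finset.sum_insert (by simp [hab, hac, had]), sum_three g hbc hbd hcd]
  ring

/-- the order `b, d, f, e` of the sums -/
theorem sum_bdfe (T : V → V → V → V → ℝ) (a : V) :
    ∑ b ∈ ({a} : Finset V)ᶜ, ∑ d ∈ ({a, b} : Finset V)ᶜ, ∑ e ∈ ({a, b, d} : Finset V)ᶜ,
        ∑ f ∈ ({a, b, d, e} : Finset V)ᶜ, T b d e f
      = ∑ b ∈ ({a} : Finset V)ᶜ, ∑ d ∈ ({a, b} : Finset V)ᶜ, ∑ f ∈ ({a, b, d} : Finset V)ᶜ,
        ∑ e ∈ ({a, b, d, f} : Finset V)ᶜ, T b d e f := by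
  refine Finset.sum_congr rfl fun b _ => Finset.sum_congr rfl fun d _ => ?_
  refine Finset.sum_comm' fun e f => ?_
  simp only [Finset.mem_compl, Finset.mem_insert, Finset.mem_singleton, not_or]
  tauto

/-- the order `e, f, d, b` of the sums -/
theorem sum_efdb (T : V → V → V → V → ℝ) (a : V) :
    ∑ b ∈ ({a} : Finset V)ᶜ, ∑ d ∈ ({a, b} : Finset V)ᶜ, ∑ e ∈ ({a, b, d} : Finset V)ᶜ,
        ∑ f ∈ ({a, b, d, e} : Finset V)ᶜ, T b d e f
      = ∑ e ∈ ({a} : Finset V)ᶜ, ∑ f ∈ ({a, e} : Finset V)ᶜ, ∑ d ∈ ({a, e, f} : Finset V)ᶜ,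
        ∑ b ∈ ({a, e, f, d} : Finset V)ᶜ, T b d e f := by
  have h1 : ∀ b, ∑ d ∈ ({a, b} : Finset V)ᶜ, ∑ e ∈ ({a, b, d} : Finset V)ᶜ,
        ∑ f ∈ ({a, b, d, e} : Finset V)ᶜ, T b d e f
      = ∑ e ∈ ({a, b} : Finset V)ᶜ, ∑ d ∈ ({a, b, e} : Finset V)ᶜ,
        ∑ f ∈ ({a, b, d, e} : Finset V)ᶜ, T b d e f := fun b => by
    refine Finset.sum_comm' fun d e => ?_
    simp only [Finset.mem_compl, Finset.mem_insert, Finset.mem_singleton, not_or]
    tauto
  have h2 : ∑ b ∈ ({a} : Finset V)ᶜ, ∑ e ∈ ({a, b} : Finset V)ᶜ, ∑ d ∈ ({a, b, e} : Finset V)ᶜ,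
        ∑ f ∈ ({a, b, d, e} : Finset V)ᶜ, T b d e f
      = ∑ e ∈ ({a} : Finset V)ᶜ, ∑ b ∈ ({a, e} : Finset V)ᶜ, ∑ d ∈ ({a, b, e} : Finset V)ᶜ,
        ∑ f ∈ ({a, b, d, e} : Finset V)ᶜ, T b d e f := by
    refine Finset.sum_comm' fun b e => ?_
    simp only [Finset.mem_compl, Finset.mem_insert, Finset.mem_singleton, not_or]
    tauto
  have h3 : ∀ b e, ∑ d ∈ ({a, b, e} : Finset V)ᶜ, ∑ f ∈ ({a, b, d, e} : Finset V)ᶜ, T b d e f
      = ∑ f ∈ ({a, b, e} : Finset V)ᶜ, ∑ d ∈ ({a, b, e, f} : Finset V)ᶜ, T b d e f :=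
    fun b e => by
    refine Finset.sum_comm' fun d f => ?_
    simp only [Finset.mem_compl, Finset.mem_insert, Finset.mem_singleton, not_or]
    tauto
  have h4 : ∀ e, ∑ b ∈ ({a, e} : Finset V)ᶜ, ∑ f ∈ ({a, b, e} : Finset V)ᶜ,
        ∑ d ∈ ({a, b, e, f} : Finset V)ᶜ, T b d e f
      = ∑ f ∈ ({a, e} : Finset V)ᶜ, ∑ b ∈ ({a, e, f} : Finset V)ᶜ,
        ∑ d ∈ ({a, b, e, f} : Finset V)ᶜ, T b d e f := fun e => by
    refine Finset.sum_comm' fun b f => ?_
    simp only [Finset.mem_compl, Finset.mem_insert, Finset.mem_singleton, not_or]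
    tauto
  have h5 : ∀ e f, ∑ b ∈ ({a, e, f} : Finset V)ᶜ, ∑ d ∈ ({a, b, e, f} : Finset V)ᶜ, T b d e f
      = ∑ d ∈ ({a, e, f} : Finset V)ᶜ, ∑ b ∈ ({a, e, f, d} : Finset V)ᶜ, T b d e f :=
    fun e f => by
    refine Finset.sum_comm' fun b d => ?_
    simp only [Finset.mem_compl, Finset.mem_insert, Finset.mem_singleton, not_or]
    tauto
  rw [Finset.sum_congr rfl fun b _ => h1 b, h2]
  refine Finset.sum_congr rfl fun e _ => ?_
  rw [Finset.sum_congr rfl fun b _ => h3 b e, h4]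
  exact Finset.sum_congr rfl fun f _ => h5 e f

/-- the geometric mean of two expansions -/
theorem am_two {A B m : ℝ} (A0 : 0 ≤ A) (B0 : 0 ≤ B) (h : m ^ 2 ≤ A * B) :
    m ≤ 1 / 2 * A + 1 / 2 * B := by
  have h1 : m ^ 2 ≤ (1 / 2 * A + 1 / 2 * B) ^ 2 := by nlinarith [sq_nonneg (A - B)]
  exact (le_abs_self _).trans (abs_le_of_sq_le_sq h1 (by linarith))

/-- **G8**: paths `b, d, f, e` which avoid `a`, one factor `u` at `b`, the flux factor `q` at `e`;
geometric mean of two expansions (side I: sum over `e`, `f`, `d`; side II: sum over `b`, `d`, `f`). -/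
theorem path_two {x : V → V → ℝ} (hx : Wg x) {a : V} {u q : V → ℝ}
    {P PI PII w β z LI LII : V → V → ℝ} {α Ψ : V → ℝ} {Φz Φ2 Ψ2 : ℝ}
    (u0 : ∀ b, 0 ≤ u b) (q0 : ∀ e, 0 ≤ q e) (P0 : ∀ b d, 0 ≤ P b d) (PI0 : ∀ b d, 0 ≤ PI b d)
    (PII0 : ∀ b d, 0 ≤ PII b d) (w0 : ∀ d f, 0 ≤ w d f) (β0 : ∀ b f, 0 ≤ β b f)
    (z0 : ∀ f e, 0 ≤ z f e) (α0 : ∀ f, 0 ≤ α f) (Ψ0 : ∀ d, 0 ≤ Ψ d)
    (Φz0 : 0 ≤ Φz) (Φ20 : 0 ≤ Φ2) (Ψ20 : 0 ≤ Ψ2)
    (hP : ∀ b d, D3 a b d → P b d ^ 2 ≤ PI b d * PII b d)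
    -- side I
    (h1 : ∀ f e, D3 a f e → z f e ≤ Φz * x f e)
    (h2 : ∀ b d f, D3 a b d → D3 a d f → b ≠ f →
      w d f * (β b f ^ 2 * α f) * Φz * (1 - x d f - x a f - x b f) ≤ Φ2 * x d f)
    (h3 : ∀ b d, D3 a b d → PI b d * Φ2 * (1 - x b d - x a d) ≤ LI b d)
    -- side II
    (k1 : ∀ b d, D3 a b d → PII b d ≤ Ψ d * x b d)
    (k2 : ∀ d f, D3 a d f → w d f * Ψ d * (1 - x d f - x a d) ≤ Ψ2 * x d f)
    (k3 : ∀ e f, D3 a e f → z f e * α f * Ψ2 * (1 - x e f - x a f) ≤ LII e f) :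
    ∑ b ∈ ({a} : Finset V)ᶜ, ∑ d ∈ ({a, b} : Finset V)ᶜ, ∑ e ∈ ({a, b, d} : Finset V)ᶜ,
        ∑ f ∈ ({a, b, d, e} : Finset V)ᶜ, u b * P b d * (w d f * β b f * α f * z f e) * q e
      ≤ 1 / 2 * ∑ b ∈ ({a} : Finset V)ᶜ, u b ^ 2 * ∑ d ∈ ({a, b} : Finset V)ᶜ, LI b d
        + 1 / 2 * ∑ e ∈ ({a} : Finset V)ᶜ, q e ^ 2 * ∑ f ∈ ({a, e} : Finset V)ᶜ, LII e f := by
  -- pointwise
  have am : ∀ b d e f, D3 a b d → u b * P b d * (w d f * β b f * α f * z f e) * q e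
      ≤ 1 / 2 * (u b ^ 2 * (PI b d * (w d f * (β b f ^ 2 * α f) * z f e)))
        + 1 / 2 * (q e ^ 2 * (z f e * α f * (w d f * PII b d))) := by
    intro b d e f hbd
    have c0 : 0 ≤ w d f * α f * z f e := mul_nonneg (mul_nonneg (w0 d f) (α0 f)) (z0 f e)
    have i1 : u b * β b f * P b d * q e
        ≤ 1 / 2 * (u b ^ 2 * β b f ^ 2 * PI b d) + 1 / 2 * (q e ^ 2 * PII b d) := by
      refine am_two (mul_nonneg (by positivity) (PI0 b d)) (mul_nonneg (by positivity) (PII0 b d)) ?_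
      have i2 := mul_le_mul_of_nonneg_left (hP b d hbd)
        (show 0 ≤ u b ^ 2 * β b f ^ 2 * q e ^ 2 by positivity)
      calc (u b * β b f * P b d * q e) ^ 2 = u b ^ 2 * β b f ^ 2 * q e ^ 2 * P b d ^ 2 := by ring
        _ ≤ _ := i2
        _ = _ := by ring
    have i3 := mul_le_mul_of_nonneg_left i1 c0
    calc u b * P b d * (w d f * β b f * α f * z f e) * q e
        = w d f * α f * z f e * (u b * β b f * P b d * q e) := by ring
      _ ≤ _ := i3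
      _ = _ := by ring
  have hsum : ∑ b ∈ ({a} : Finset V)ᶜ, ∑ d ∈ ({a, b} : Finset V)ᶜ,
      ∑ e ∈ ({a, b, d} : Finset V)ᶜ, ∑ f ∈ ({a, b, d, e} : Finset V)ᶜ,
        u b * P b d * (w d f * β b f * α f * z f e) * q e
      ≤ 1 / 2 * ∑ b ∈ ({a} : Finset V)ᶜ, ∑ d ∈ ({a, b} : Finset V)ᶜ,
          ∑ e ∈ ({a, b, d} : Finset V)ᶜ, ∑ f ∈ ({a, b, d, e} : Finset V)ᶜ,
            u b ^ 2 * (PI b d * (w d f * (β b f ^ 2 * α f) * z f e))
        + 1 / 2 * ∑ b ∈ ({a} : Finset V)ᶜ, ∑ d ∈ ({a, b} : Finset V)ᶜ,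
          ∑ e ∈ ({a, b, d} : Finset V)ᶜ, ∑ f ∈ ({a, b, d, e} : Finset V)ᶜ,
            q e ^ 2 * (z f e * α f * (w d f * PII b d)) := by
    simp only [Finset.mul_sum, ← Finset.sum_add_distrib]
    refine Finset.sum_le_sum fun b hb => Finset.sum_le_sum fun d hd =>
      Finset.sum_le_sum fun e _ => Finset.sum_le_sum fun f _ => am b d e f ?_
    simp only [Finset.mem_compl, Finset.mem_insert, Finset.mem_singleton, not_or] at hb hd
    exact ⟨hb, hd.1, Ne.symm hd.2⟩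
  refine hsum.trans (add_le_add (mul_le_mul_of_nonneg_left ?_ (by norm_num))
    (mul_le_mul_of_nonneg_left ?_ (by norm_num)))
  · -- side I
    rw [sum_bdfe (fun b d e f => u b ^ 2 * (PI b d * (w d f * (β b f ^ 2 * α f) * z f e)))]
    refine Finset.sum_le_sum fun b hb => ?_
    simp only [Finset.mem_compl, Finset.mem_singleton] at hb
    rw [Finset.mul_sum]
    refine Finset.sum_le_sum fun d hd => ?_
    simp only [Finset.mem_compl, Finset.mem_insert, Finset.mem_singleton, not_or] at hd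
    have hbd : D3 a b d := ⟨hb, hd.1, Ne.symm hd.2⟩
    have hf : ∀ f ∈ ({a, b, d} : Finset V)ᶜ, ∑ e ∈ ({a, b, d, f} : Finset V)ᶜ,
        u b ^ 2 * (PI b d * (w d f * (β b f ^ 2 * α f) * z f e))
        ≤ u b ^ 2 * (PI b d * (Φ2 * x d f)) := by
      intro f hf
      simp only [Finset.mem_compl, Finset.mem_insert, Finset.mem_singleton, not_or] at hf
      have hz : ∑ e ∈ ({a, b, d, f} : Finset V)ᶜ, z f e
          ≤ Φz * (1 - x d f - x a f - x b f) := by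
        have r1 := row_sub hx f {a, b, d, f}
        rw [sum_four (x f) (Ne.symm hb) (Ne.symm hd.1) (Ne.symm hf.1) (Ne.symm hd.2)
          (Ne.symm hf.2.1) (Ne.symm hf.2.2), hx.diag f, hx.symm f a, hx.symm f b,
          hx.symm f d] at r1
        have r2 : ∑ e ∈ ({a, b, d, f} : Finset V)ᶜ, z f e
            ≤ ∑ e ∈ ({a, b, d, f} : Finset V)ᶜ, Φz * x f e := by
          refine Finset.sum_le_sum fun e he => h1 f e ?_
          simp only [Finset.mem_compl, Finset.mem_insert, Finset.mem_singleton, not_or] at he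
          exact ⟨hf.1, he.1, Ne.symm he.2.2.2⟩
        rw [← Finset.mul_sum] at r2
        refine r2.trans (mul_le_mul_of_nonneg_left (by linarith) Φz0)
      have c0 : 0 ≤ w d f * (β b f ^ 2 * α f) :=
        mul_nonneg (w0 d f) (mul_nonneg (sq_nonneg _) (α0 f))
      have r3 := mul_le_mul_of_nonneg_left hz c0
      have r4 := h2 b d f hbd ⟨hd.1, hf.1, Ne.symm hf.2.2⟩ (Ne.symm hf.2.1)
      have r5 : w d f * (β b f ^ 2 * α f) * ∑ e ∈ ({a, b, d, f} : Finset V)ᶜ, z f e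
          ≤ Φ2 * x d f := by linarith
      have r6 := mul_le_mul_of_nonneg_left (mul_le_mul_of_nonneg_left r5 (PI0 b d))
        (sq_nonneg (u b))
      refine le_trans (le_of_eq ?_) r6
      simp only [Finset.mul_sum]
    refine (Finset.sum_le_sum hf).trans ?_
    have r1 := row_sub hx d {a, b, d}
    rw [sum_three (x d) (Ne.symm hb) (Ne.symm hd.1) (Ne.symm hd.2), hx.diag d, hx.symm d a,
      hx.symm d b] at r1
    have r2 : ∑ f ∈ ({a, b, d} : Finset V)ᶜ, u b ^ 2 * (PI b d * (Φ2 * x d f))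
        = u b ^ 2 * (PI b d * Φ2 * ∑ f ∈ ({a, b, d} : Finset V)ᶜ, x d f) := by
      simp only [Finset.mul_sum]
      exact Finset.sum_congr rfl fun f _ => by ring
    rw [r2]
    refine mul_le_mul_of_nonneg_left ?_ (sq_nonneg _)
    refine le_trans (mul_le_mul_of_nonneg_left ?_ (mul_nonneg (PI0 b d) Φ20)) (h3 b d hbd)
    linarith
  · -- side II
    rw [sum_efdb (fun b d e f => q e ^ 2 * (z f e * α f * (w d f * PII b d)))]
    refine Finset.sum_le_sum fun e he => ?_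
    simp only [Finset.mem_compl, Finset.mem_singleton] at he
    rw [Finset.mul_sum]
    refine Finset.sum_le_sum fun f hf => ?_
    simp only [Finset.mem_compl, Finset.mem_insert, Finset.mem_singleton, not_or] at hf
    have hef : D3 a e f := ⟨he, hf.1, Ne.symm hf.2⟩
    have hd : ∀ d ∈ ({a, e, f} : Finset V)ᶜ, ∑ b ∈ ({a, e, f, d} : Finset V)ᶜ,
        q e ^ 2 * (z f e * α f * (w d f * PII b d))
        ≤ q e ^ 2 * (z f e * α f * (Ψ2 * x d f)) := by
      intro d hd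
      simp only [Finset.mem_compl, Finset.mem_insert, Finset.mem_singleton, not_or] at hd
      have hz : ∑ b ∈ ({a, e, f, d} : Finset V)ᶜ, PII b d
          ≤ Ψ d * (1 - x d f - x a d) := by
        have r1 := row_sub hx d {a, e, f, d}
        rw [sum_four (x d) (Ne.symm he) (Ne.symm hf.1) (Ne.symm hd.1) (Ne.symm hf.2)
          (Ne.symm hd.2.1) (Ne.symm hd.2.2), hx.diag d, hx.symm d a] at r1
        have r2 : ∑ b ∈ ({a, e, f, d} : Finset V)ᶜ, PII b d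
            ≤ ∑ b ∈ ({a, e, f, d} : Finset V)ᶜ, Ψ d * x d b := by
          refine Finset.sum_le_sum fun b hb => ?_
          simp only [Finset.mem_compl, Finset.mem_insert, Finset.mem_singleton, not_or] at hb
          rw [hx.symm d b]
          exact k1 b d ⟨hb.1, hd.1, hb.2.2.2⟩
        rw [← Finset.mul_sum] at r2
        refine r2.trans (mul_le_mul_of_nonneg_left ?_ (Ψ0 d))
        have := hx.nn d e
        linarith
      have r3 := mul_le_mul_of_nonneg_left hz (w0 d f)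
      have r4 := k2 d f ⟨hd.1, hf.1, hd.2.2⟩
      have r5 : w d f * ∑ b ∈ ({a, e, f, d} : Finset V)ᶜ, PII b d ≤ Ψ2 * x d f := by
        linarith
      have r6 := mul_le_mul_of_nonneg_left (mul_le_mul_of_nonneg_left r5
        (mul_nonneg (z0 f e) (α0 f))) (sq_nonneg (q e))
      refine le_trans (le_of_eq ?_) r6
      simp only [Finset.mul_sum]
    refine (Finset.sum_le_sum hd).trans ?_
    have r1 := row_sub hx f {a, e, f}
    rw [sum_three (x f) (Ne.symm he) (Ne.symm hf.1) (Ne.symm hf.2), hx.diag f, hx.symm f a,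
      hx.symm f e] at r1
    have r2 : ∑ d ∈ ({a, e, f} : Finset V)ᶜ, q e ^ 2 * (z f e * α f * (Ψ2 * x d f))
        = q e ^ 2 * (z f e * α f * Ψ2 * ∑ d ∈ ({a, e, f} : Finset V)ᶜ, x f d) := by
      simp only [Finset.mul_sum]
      exact Finset.sum_congr rfl fun d _ => by rw [hx.symm f d]; ring
    rw [r2]
    refine mul_le_mul_of_nonneg_left ?_ (sq_nonneg _)
    refine le_trans (mul_le_mul_of_nonneg_left ?_ (mul_nonneg (mul_nonneg (z0 f e) (α0 f)) Ψ20))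
      (k3 e f hef)
    linarith

/-- the order `b, e, d, f` of the sums -/
theorem sum_bedf (T : V → V → V → V → ℝ) (a : V) :
    ∑ b ∈ ({a} : Finset V)ᶜ, ∑ d ∈ ({a, b} : Finset V)ᶜ, ∑ e ∈ ({a, b, d} : Finset V)ᶜ,
        ∑ f ∈ ({a, b, d, e} : Finset V)ᶜ, T b d e f
      = ∑ b ∈ ({a} : Finset V)ᶜ, ∑ e ∈ ({a, b} : Finset V)ᶜ, ∑ d ∈ ({a, b, e} : Finset V)ᶜ,
        ∑ f ∈ ({a, b, d, e} : Finset V)ᶜ, T b d e f := by
  refine Finset.sum_congr rfl fun b _ => ?_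
  refine Finset.sum_comm' fun d e => ?_
  simp only [Finset.mem_compl, Finset.mem_insert, Finset.mem_singleton, not_or]
  tauto

/-- **G9**: the same paths with the chord `b, e`: additional factor `x b e * g (x b e)` (by G5a =
`path_cs'` for fixed `b`, `e` and G2 = `chord_le` at `b` and at `e`) -/
theorem path_chord {x : V → V → ℝ} (hx : Wg x) {a : V} {u q : V → ℝ}
    {P w ψ z : V → V → ℝ} {g r : ℝ → ℝ} {p : V → ℝ → ℝ} {lam C Φ2 : ℝ}
    (u0 : ∀ b, 0 ≤ u b) (q0 : ∀ e, 0 ≤ q e) (P0 : ∀ b d, 0 ≤ P b d)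
    (w0 : ∀ d f, 0 ≤ w d f) (ψ0 : ∀ b f, 0 ≤ ψ b f) (z0 : ∀ f e, 0 ≤ z f e)
    (hlam : 0 < lam) (C0 : 0 ≤ C) (Φ20 : 0 ≤ Φ2)
    (g0 : ∀ y, 0 ≤ y → y ≤ 1 → 0 ≤ g y) (r0 : ∀ y, 0 ≤ y → y ≤ 1 → 0 ≤ r y)
    (p0 : ∀ b y, 0 ≤ y → y ≤ 1 → 0 ≤ p b y)
    (hw : ∀ d f, w d f ≤ Φ2 * x d f)
    (hψ : ∀ b e f, D3 a b e → D3 a e f → b ≠ f →
      ψ b f ^ 2 * (1 - x e f - x a f - x b f) ≤ C * (1 - x e f))
    (hP : ∀ b d, D3 a b d → P b d ^ 2 * (1 - x b d - x a d) ≤ x b d * p b (x b d))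
    (hz : ∀ e f, D3 a e f → z f e ^ 2 * (1 - x e f) ≤ x e f * r (x e f))
    (ordp : ∀ b y z, 0 ≤ z → z ≤ y → y + z ≤ 1 → g z ≤ g y ∧ p b z ≤ p b y)
    (ordr : ∀ y z, 0 ≤ z → z ≤ y → y + z ≤ 1 → r z ≤ r y) :
    ∑ b ∈ ({a} : Finset V)ᶜ, ∑ d ∈ ({a, b} : Finset V)ᶜ, ∑ e ∈ ({a, b, d} : Finset V)ᶜ,
        ∑ f ∈ ({a, b, d, e} : Finset V)ᶜ,
          u b * P b d * (w d f * ψ b f * z f e) * (x b e * g (x b e)) * q e
      ≤ lam / 2 * (C * Φ2 ^ 2) * ∑ b ∈ ({a} : Finset V)ᶜ, u b ^ 2 *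
          ∑ d ∈ ({a, b} : Finset V)ᶜ, x b d * (g (x b d) * p b (x b d)) * (1 - x a b - x b d)
        + 1 / (2 * lam) * ∑ e ∈ ({a} : Finset V)ᶜ, q e ^ 2 *
          ∑ f ∈ ({a, e} : Finset V)ᶜ, x e f * (g (x e f) * r (x e f)) * (1 - x a e - x e f) := by
  have x1 : ∀ c d, x c d ≤ 1 := fun c d =>
    (Finset.single_le_sum (f := fun f => x c f) (fun i _ => hx.nn c i) (Finset.mem_univ d)).trans
      (hx.row c)
  have xg0 : ∀ c d, 0 ≤ x c d * g (x c d) := fun c d =>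
    mul_nonneg (hx.nn c d) (g0 _ (hx.nn c d) (x1 c d))
  rw [sum_bedf (fun b d e f =>
    u b * P b d * (w d f * ψ b f * z f e) * (x b e * g (x b e)) * q e)]
  -- fixed ends
  have key : ∀ b ∈ ({a} : Finset V)ᶜ, ∀ e ∈ ({a, b} : Finset V)ᶜ,
      ∑ d ∈ ({a, b, e} : Finset V)ᶜ, ∑ f ∈ ({a, b, d, e} : Finset V)ᶜ,
        u b * P b d * (w d f * ψ b f * z f e) * (x b e * g (x b e)) * q e
      ≤ lam / 2 * (C * Φ2 ^ 2) * (u b ^ 2 * (x b e * g (x b e) *
          ∑ d ∈ ({a, b, e} : Finset V)ᶜ, x b d * p b (x b d)))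
        + 1 / (2 * lam) * (q e ^ 2 * (x b e * g (x b e) *
          ∑ f ∈ ({a, b, e} : Finset V)ᶜ, x e f * r (x e f))) := by
    intro b hb e he
    simp only [Finset.mem_compl, Finset.mem_insert, Finset.mem_singleton, not_or] at hb he
    have hab : a ≠ b := Ne.symm hb
    have hae : a ≠ e := Ne.symm he.1
    have hbe : b ≠ e := Ne.symm he.2
    have h1 := path_cs' hx.symm hx.nn hx.row hab hae hbe (P1 := P b) (ψ := ψ b)
      (z := fun f => z f e) (w := w) (u0 b) (q0 e) hlam C0 Φ20 (P0 b) w0 (ψ0 b)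
      (fun f => z0 f e) hw (fun f hf => by
        simp only [Finset.mem_compl, Finset.mem_insert, Finset.mem_singleton, not_or] at hf
        exact hψ b e f ⟨hb, he.1, hbe⟩ ⟨he.1, hf.1, Ne.symm hf.2.2⟩ (Ne.symm hf.2.1))
    have h2 := mul_le_mul_of_nonneg_left h1 (xg0 b e)
    have h3 : ∑ d ∈ ({a, b, e} : Finset V)ᶜ, ∑ f ∈ ({a, b, d, e} : Finset V)ᶜ,
          u b * P b d * (w d f * ψ b f * z f e) * (x b e * g (x b e)) * q e
        ≤ x b e * g (x b e) * (u b * q e * ∑ d ∈ ({a, b, e} : Finset V)ᶜ,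
          ∑ f ∈ ({a, b, e} : Finset V)ᶜ, P b d * w d f * ψ b f * z f e) := by
      simp only [Finset.mul_sum]
      refine Finset.sum_le_sum fun d _ => ?_
      have e1 : ∀ f, u b * P b d * (w d f * ψ b f * z f e) * (x b e * g (x b e)) * q e
          = x b e * g (x b e) * (u b * q e * (P b d * w d f * ψ b f * z f e)) := fun f => by
        ring
      simp only [e1]
      refine Finset.sum_le_sum_of_subset_of_nonneg (fun f hf => ?_) fun f _ _ => ?_
      · simp only [Finset.mem_compl, Finset.mem_insert, Finset.mem_singleton, not_or] at hf ⊢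
        tauto
      · exact mul_nonneg (xg0 b e) (mul_nonneg (mul_nonneg (u0 b) (q0 e))
          (mul_nonneg (mul_nonneg (mul_nonneg (P0 b d) (w0 d f)) (ψ0 b f)) (z0 f e)))
    refine h3.trans (h2.trans ?_)
    have h4 : ∑ d ∈ ({a, b, e} : Finset V)ᶜ, P b d ^ 2 * (1 - x b d - x a d)
        ≤ ∑ d ∈ ({a, b, e} : Finset V)ᶜ, x b d * p b (x b d) := by
      refine Finset.sum_le_sum fun d hd => hP b d ?_
      simp only [Finset.mem_compl, Finset.mem_insert, Finset.mem_singleton, not_or] at hd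
      exact ⟨hb, hd.1, Ne.symm hd.2.1⟩
    have h5 : ∑ f ∈ ({a, b, e} : Finset V)ᶜ, z f e ^ 2 * (1 - x e f)
        ≤ ∑ f ∈ ({a, b, e} : Finset V)ᶜ, x e f * r (x e f) := by
      refine Finset.sum_le_sum fun f hf => hz e f ?_
      simp only [Finset.mem_compl, Finset.mem_insert, Finset.mem_singleton, not_or] at hf
      exact ⟨he.1, hf.1, Ne.symm hf.2.2⟩
    have h6 := mul_le_mul_of_nonneg_left h4
      (show 0 ≤ x b e * g (x b e) * (lam / 2 * u b ^ 2 * (C * Φ2 ^ 2)) from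
        mul_nonneg (xg0 b e) (by positivity))
    have h7 := mul_le_mul_of_nonneg_left h5
      (show 0 ≤ x b e * g (x b e) * (1 / (2 * lam) * q e ^ 2) from
        mul_nonneg (xg0 b e) (by positivity))
    calc _ = x b e * g (x b e) * (lam / 2 * u b ^ 2 * (C * Φ2 ^ 2)) *
            ∑ d ∈ ({a, b, e} : Finset V)ᶜ, P b d ^ 2 * (1 - x b d - x a d)
          + x b e * g (x b e) * (1 / (2 * lam) * q e ^ 2) *
            ∑ f ∈ ({a, b, e} : Finset V)ᶜ, z f e ^ 2 * (1 - x e f) := by ring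
      _ ≤ _ := add_le_add h6 h7
      _ = _ := by ring
  refine (Finset.sum_le_sum fun b hb => Finset.sum_le_sum fun e he => key b hb e he).trans ?_
  simp only [Finset.sum_add_distrib, ← Finset.mul_sum]
  have er : ∀ b e : V, ({a, b, e} : Finset V)ᶜ = (({a, b} : Finset V)ᶜ).erase e := fun b e => by
    ext z
    simp only [Finset.mem_compl, Finset.mem_insert, Finset.mem_singleton, not_or,
      Finset.mem_erase]
    tauto
  have row2 : ∀ b : V, b ≠ a → ∑ d ∈ ({a, b} : Finset V)ᶜ, x b d ≤ 1 - x a b := fun b hb => by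
    have h := row_sub hx b {a, b}
    rw [Finset.sum_pair (Ne.symm hb), hx.diag b, hx.symm b a] at h
    linarith
  have R1 : ∀ b, 1 - x a b ≤ 1 := fun b => by linarith [hx.nn a b]
  refine add_le_add (mul_le_mul_of_nonneg_left ?_ (by positivity))
    (mul_le_mul_of_nonneg_left ?_ (by positivity))
  · refine Finset.sum_le_sum fun b hb => mul_le_mul_of_nonneg_left ?_ (sq_nonneg _)
    simp only [Finset.mem_compl, Finset.mem_singleton] at hb
    have h1 := chord_le (({a, b} : Finset V)ᶜ) (v := fun d => x b d) (R := 1 - x a b)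
      (fun d _ => hx.nn b d) (row2 b hb) (R1 b) (f := g) (g := p b) g0 (p0 b)
      (fun y z h0 h1 h2 => ordp b y z h0 h1 h2)
    refine le_trans (le_of_eq ?_) h1
    refine Finset.sum_congr rfl fun e _ => ?_
    rw [er b e, Finset.mul_sum]
  · have sw : ∑ b ∈ ({a} : Finset V)ᶜ, ∑ e ∈ ({a, b} : Finset V)ᶜ, q e ^ 2 *
          (x b e * g (x b e) * ∑ f ∈ ({a, b, e} : Finset V)ᶜ, x e f * r (x e f))
        = ∑ e ∈ ({a} : Finset V)ᶜ, ∑ b ∈ ({a, e} : Finset V)ᶜ, q e ^ 2 *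
          (x b e * g (x b e) * ∑ f ∈ ({a, b, e} : Finset V)ᶜ, x e f * r (x e f)) := by
      refine Finset.sum_comm' fun b e => ?_
      simp only [Finset.mem_compl, Finset.mem_insert, Finset.mem_singleton, not_or]
      tauto
    rw [sw]
    refine Finset.sum_le_sum fun e he => ?_
    rw [← Finset.mul_sum]
    refine mul_le_mul_of_nonneg_left ?_ (sq_nonneg _)
    simp only [Finset.mem_compl, Finset.mem_singleton] at he
    have h1 := chord_le (({a, e} : Finset V)ᶜ) (v := fun d => x e d) (R := 1 - x a e)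
      (fun d _ => hx.nn e d) (row2 e he) (R1 e) (f := g) (g := r) g0 r0
      (fun y z h0 h1 h2 => ⟨(ordp e y z h0 h1 h2).1, ordr y z h0 h1 h2⟩)
    refine le_trans (le_of_eq ?_) h1
    refine Finset.sum_congr rfl fun b _ => ?_
    have e2 : ({a, b, e} : Finset V)ᶜ = (({a, e} : Finset V)ᶜ).erase b := by
      ext z
      simp only [Finset.mem_compl, Finset.mem_insert, Finset.mem_singleton, not_or,
        Finset.mem_erase]
      tauto
    rw [e2, Finset.mul_sum, hx.symm b e]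

namespace B39

theorem row3b {x : V → V → ℝ} (hx : Wg x) {a b d : V} (h : D3 a b d) :
    ∑ e ∈ ({a, b, d} : Finset V)ᶜ, x d e ≤ 1 - x b d - x a d := by
  obtain ⟨h1, h2, h3⟩ := h
  have h4 := Finset.sum_add_sum_compl ({a, b, d} : Finset V) (fun e => x d e)
  have h5 : ∑ e ∈ ({a, b, d} : Finset V), x d e = x d a + x d b := by
    rw [Finset.sum_insert (by simp [h1.symm, h2.symm]), Finset.sum_insert (by simp [h3]),
      Finset.sum_singleton, hx.diag d, add_zero]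
  have h6 := hx.row d
  rw [h5] at h4
  rw [hx.symm b d, hx.symm a d]
  linarith

/-- swap the two sums of distinct elements outside `s` -/
theorem swap1 (a : V) (F : V → V → ℝ) :
    ∑ b ∈ ({a} : Finset V)ᶜ, ∑ d ∈ ({a, b} : Finset V)ᶜ, F b d
      = ∑ d ∈ ({a} : Finset V)ᶜ, ∑ b ∈ ({a, d} : Finset V)ᶜ, F b d := by
  apply Finset.sum_comm'
  intro b d
  simp only [Finset.mem_compl, Finset.mem_insert, Finset.mem_singleton, not_or]
  tauto

theorem swap2 (a b : V) (F : V → V → ℝ) :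
    ∑ d ∈ ({a, b} : Finset V)ᶜ, ∑ e ∈ ({a, b, d} : Finset V)ᶜ, F d e
      = ∑ e ∈ ({a, b} : Finset V)ᶜ, ∑ d ∈ ({a, b, e} : Finset V)ᶜ, F d e := by
  apply Finset.sum_comm'
  intro b d
  simp only [Finset.mem_compl, Finset.mem_insert, Finset.mem_singleton, not_or]
  tauto

omit [Fintype V] in
theorem set3 (a b d : V) : ({a, b, d} : Finset V) = {a, d, b} := by
  ext z; simp only [Finset.mem_insert, Finset.mem_singleton]; tauto

theorem swap3 (a : V) (F : V → V → V → ℝ) :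
    ∑ b ∈ ({a} : Finset V)ᶜ, ∑ d ∈ ({a, b} : Finset V)ᶜ, ∑ e ∈ ({a, b, d} : Finset V)ᶜ, F b d e
      = ∑ e ∈ ({a} : Finset V)ᶜ, ∑ d ∈ ({a, e} : Finset V)ᶜ, ∑ b ∈ ({a, e, d} : Finset V)ᶜ,
          F b d e := by
  calc _ = ∑ b ∈ ({a} : Finset V)ᶜ, ∑ e ∈ ({a, b} : Finset V)ᶜ,
            ∑ d ∈ ({a, b, e} : Finset V)ᶜ, F b d e :=
        Finset.sum_congr rfl fun b _ => swap2 a b _
    _ = ∑ e ∈ ({a} : Finset V)ᶜ, ∑ b ∈ ({a, e} : Finset V)ᶜ,
            ∑ d ∈ ({a, b, e} : Finset V)ᶜ, F b d e := swap1 a _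
    _ = ∑ e ∈ ({a} : Finset V)ᶜ, ∑ b ∈ ({a, e} : Finset V)ᶜ,
            ∑ d ∈ ({a, e, b} : Finset V)ᶜ, F b d e := by
        refine Finset.sum_congr rfl fun e _ => Finset.sum_congr rfl fun b _ => ?_
        rw [set3]
    _ = _ := Finset.sum_congr rfl fun e _ => swap2 a e (fun b d => F b d e)

theorem mem1 {a b : V} (h : b ∈ ({a} : Finset V)ᶜ) : b ≠ a := by simpa using h

theorem mem2 {a b d : V} (hb : b ∈ ({a} : Finset V)ᶜ) (h : d ∈ ({a, b} : Finset V)ᶜ) :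
    D3 a b d := by
  simp only [Finset.mem_compl, Finset.mem_insert, Finset.mem_singleton, not_or] at hb h
  exact ⟨hb, h.1, fun h' => h.2 h'.symm⟩

theorem mem3 {a b d e : V} (h : e ∈ ({a, b, d} : Finset V)ᶜ) : e ≠ a ∧ e ≠ b ∧ e ≠ d := by
  simpa only [Finset.mem_compl, Finset.mem_insert, Finset.mem_singleton, not_or] using h

/-- `u P q ≤ (u² PI + q² PII) / 2` if `P² ≤ PI PII` -/
theorem amgm {u P q A B : ℝ} (hu : 0 ≤ u) (hP : 0 ≤ P) (hq : 0 ≤ q) (hA : 0 ≤ A) (hB : 0 ≤ B)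
    (h : P ^ 2 ≤ A * B) : u * P * q ≤ 1 / 2 * (u ^ 2 * A + q ^ 2 * B) := by
  have h1 : (2 * (u * P * q)) ^ 2 ≤ (u ^ 2 * A + q ^ 2 * B) ^ 2 := by
    have h2 : (u * q) ^ 2 * P ^ 2 ≤ (u * q) ^ 2 * (A * B) :=
      mul_le_mul_of_nonneg_left h (sq_nonneg _)
    nlinarith [sq_nonneg (u ^ 2 * A - q ^ 2 * B)]
  have h3 : 0 ≤ u ^ 2 * A + q ^ 2 * B := by positivity
  have h4 := (sq_le_sq₀ (by positivity) h3).1 h1
  linarith

end B39

open B39

/-- **G10**: two-step paths `b, d, e` (direct hazard of the pair `d`, `e`), geometric mean of two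
expansions -/
theorem path_one {x : V → V → ℝ} (hx : Wg x) {a : V} {u q : V → ℝ}
    {P PI PII z LI LII : V → V → ℝ} {Ψ : V → ℝ} {Φz : ℝ}
    (u0 : ∀ b, 0 ≤ u b) (q0 : ∀ e, 0 ≤ q e) (P0 : ∀ b d, 0 ≤ P b d) (PI0 : ∀ b d, 0 ≤ PI b d)
    (PII0 : ∀ b d, 0 ≤ PII b d) (z0 : ∀ d e, 0 ≤ z d e) (Ψ0 : ∀ d, 0 ≤ Ψ d) (Φz0 : 0 ≤ Φz)
    (hP : ∀ b d, D3 a b d → P b d ^ 2 ≤ PI b d * PII b d)
    (h1 : ∀ d e, D3 a d e → z d e ≤ Φz * x d e)
    (h3 : ∀ b d, D3 a b d → PI b d * Φz * (1 - x b d - x a d) ≤ LI b d)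
    (k1 : ∀ b d, D3 a b d → PII b d ≤ Ψ d * x b d)
    (k3 : ∀ e d, D3 a e d → z d e * Ψ d * (1 - x e d - x a d) ≤ LII e d) :
    ∑ b ∈ ({a} : Finset V)ᶜ, ∑ d ∈ ({a, b} : Finset V)ᶜ, ∑ e ∈ ({a, b, d} : Finset V)ᶜ,
        u b * P b d * z d e * q e
      ≤ 1 / 2 * ∑ b ∈ ({a} : Finset V)ᶜ, u b ^ 2 * ∑ d ∈ ({a, b} : Finset V)ᶜ, LI b d
        + 1 / 2 * ∑ e ∈ ({a} : Finset V)ᶜ, q e ^ 2 * ∑ d ∈ ({a, e} : Finset V)ᶜ, LII e d := by
  have e1 : ∑ b ∈ ({a} : Finset V)ᶜ, ∑ d ∈ ({a, b} : Finset V)ᶜ,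
      ∑ e ∈ ({a, b, d} : Finset V)ᶜ, u b ^ 2 * PI b d * z d e
      ≤ ∑ b ∈ ({a} : Finset V)ᶜ, u b ^ 2 * ∑ d ∈ ({a, b} : Finset V)ᶜ, LI b d := by
    refine Finset.sum_le_sum fun b hb => ?_
    rw [Finset.mul_sum]
    refine Finset.sum_le_sum fun d hd => ?_
    have hD := mem2 hb hd
    calc ∑ e ∈ ({a, b, d} : Finset V)ᶜ, u b ^ 2 * PI b d * z d e
        ≤ ∑ e ∈ ({a, b, d} : Finset V)ᶜ, u b ^ 2 * PI b d * Φz * x d e := by
          refine Finset.sum_le_sum fun e he => ?_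
          obtain ⟨g1, g2, g3⟩ := mem3 he
          have := h1 d e ⟨hD.2.1, g1, g3.symm⟩
          have h0 : 0 ≤ u b ^ 2 * PI b d := mul_nonneg (sq_nonneg _) (PI0 b d)
          calc u b ^ 2 * PI b d * z d e ≤ u b ^ 2 * PI b d * (Φz * x d e) :=
                mul_le_mul_of_nonneg_left this h0
            _ = _ := by ring
      _ = u b ^ 2 * PI b d * Φz * ∑ e ∈ ({a, b, d} : Finset V)ᶜ, x d e := by
          rw [Finset.mul_sum]
      _ ≤ u b ^ 2 * PI b d * Φz * (1 - x b d - x a d) :=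
          mul_le_mul_of_nonneg_left (row3b hx hD)
            (mul_nonneg (mul_nonneg (sq_nonneg _) (PI0 b d)) Φz0)
      _ = u b ^ 2 * (PI b d * Φz * (1 - x b d - x a d)) := by ring
      _ ≤ u b ^ 2 * LI b d := mul_le_mul_of_nonneg_left (h3 b d hD) (sq_nonneg _)
  have e2 : ∑ e ∈ ({a} : Finset V)ᶜ, ∑ d ∈ ({a, e} : Finset V)ᶜ,
      ∑ b ∈ ({a, e, d} : Finset V)ᶜ, q e ^ 2 * PII b d * z d e
      ≤ ∑ e ∈ ({a} : Finset V)ᶜ, q e ^ 2 * ∑ d ∈ ({a, e} : Finset V)ᶜ, LII e d := by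
    refine Finset.sum_le_sum fun e he => ?_
    rw [Finset.mul_sum]
    refine Finset.sum_le_sum fun d hd => ?_
    have hD := mem2 he hd
    calc ∑ b ∈ ({a, e, d} : Finset V)ᶜ, q e ^ 2 * PII b d * z d e
        ≤ ∑ b ∈ ({a, e, d} : Finset V)ᶜ, q e ^ 2 * (z d e * Ψ d) * x d b := by
          refine Finset.sum_le_sum fun b hb => ?_
          obtain ⟨g1, g2, g3⟩ := mem3 hb
          have := k1 b d ⟨g1, hD.2.1, g3⟩
          rw [hx.symm d b]
          have h0 : 0 ≤ q e ^ 2 * z d e := mul_nonneg (sq_nonneg _) (z0 d e)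
          calc q e ^ 2 * PII b d * z d e = q e ^ 2 * z d e * PII b d := by ring
            _ ≤ q e ^ 2 * z d e * (Ψ d * x b d) := mul_le_mul_of_nonneg_left this h0
            _ = _ := by ring
      _ = q e ^ 2 * (z d e * Ψ d) * ∑ b ∈ ({a, e, d} : Finset V)ᶜ, x d b := by
          rw [Finset.mul_sum]
      _ ≤ q e ^ 2 * (z d e * Ψ d) * (1 - x e d - x a d) :=
          mul_le_mul_of_nonneg_left (row3b hx hD)
            (mul_nonneg (sq_nonneg _) (mul_nonneg (z0 d e) (Ψ0 d)))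
      _ = q e ^ 2 * (z d e * Ψ d * (1 - x e d - x a d)) := by ring
      _ ≤ q e ^ 2 * LII e d := mul_le_mul_of_nonneg_left (k3 e d hD) (sq_nonneg _)
  calc _ ≤ ∑ b ∈ ({a} : Finset V)ᶜ, ∑ d ∈ ({a, b} : Finset V)ᶜ,
            ∑ e ∈ ({a, b, d} : Finset V)ᶜ,
              (1 / 2 * (u b ^ 2 * PI b d * z d e) + 1 / 2 * (q e ^ 2 * PII b d * z d e)) := by
        refine Finset.sum_le_sum fun b hb => Finset.sum_le_sum fun d hd =>
          Finset.sum_le_sum fun e he => ?_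
        have hD := mem2 hb hd
        have h5 := amgm (u0 b) (P0 b d) (q0 e) (PI0 b d) (PII0 b d) (hP b d hD)
        have h6 := mul_le_mul_of_nonneg_right h5 (z0 d e)
        calc u b * P b d * z d e * q e = u b * P b d * q e * z d e := by ring
          _ ≤ _ := h6
          _ = _ := by ring
    _ = 1 / 2 * ∑ b ∈ ({a} : Finset V)ᶜ, ∑ d ∈ ({a, b} : Finset V)ᶜ,
            ∑ e ∈ ({a, b, d} : Finset V)ᶜ, u b ^ 2 * PI b d * z d e
        + 1 / 2 * ∑ b ∈ ({a} : Finset V)ᶜ, ∑ d ∈ ({a, b} : Finset V)ᶜ,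
            ∑ e ∈ ({a, b, d} : Finset V)ᶜ, q e ^ 2 * PII b d * z d e := by
        simp only [Finset.sum_add_distrib, Finset.mul_sum]
    _ ≤ _ := by
        rw [swap3 a (fun b d e => q e ^ 2 * PII b d * z d e)]
        linarith

/-- **G12**: triangles `a, b, d` -/
theorem tri_le {x : V → V → ℝ} (hx : Wg x) {a : V} {M G : V → V → ℝ}
    (h : ∀ b d, D3 a b d → x a b * x a d * (M b d + M d b) ≤ x a b ^ 2 * G b d + x a d ^ 2 * G d b)
    : ∑ b ∈ ({a} : Finset V)ᶜ, ∑ d ∈ ({a, b} : Finset V)ᶜ, x a b * x a d * x b d * M b d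
      ≤ ∑ b ∈ ({a} : Finset V)ᶜ, x a b ^ 2 * ∑ d ∈ ({a, b} : Finset V)ᶜ, x b d * G b d := by
  have s1 := swap1 a (fun b d => x a b * x a d * x b d * M b d)
  have s2 := swap1 a (fun b d => x a b ^ 2 * (x b d * G b d))
  have key : ∑ b ∈ ({a} : Finset V)ᶜ, ∑ d ∈ ({a, b} : Finset V)ᶜ,
      (x a b * x a d * x b d * M b d + x a d * x a b * x d b * M d b)
      ≤ ∑ b ∈ ({a} : Finset V)ᶜ, ∑ d ∈ ({a, b} : Finset V)ᶜ,
        (x a b ^ 2 * (x b d * G b d) + x a d ^ 2 * (x d b * G d b)) := by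
    refine Finset.sum_le_sum fun b hb => Finset.sum_le_sum fun d hd => ?_
    have h1 := mul_le_mul_of_nonneg_left (h b d (mem2 hb hd)) (hx.nn b d)
    rw [hx.symm d b]
    nlinarith [h1]
  simp only [Finset.sum_add_distrib] at key
  simp only [Finset.mul_sum]
  rw [← s1, ← s2] at key
  linarith

/-- **G13**: rearrangement of the common neighbours, `χ_b = ∑ x_be x_ae` -/
theorem chi_le {x : V → V → ℝ} (hx : Wg x) {a : V} {F : ℝ → ℝ}
    (F0 : ∀ y, 0 ≤ y → y ≤ 1 → 0 ≤ F y)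
    (ord : ∀ y z, 0 ≤ z → z ≤ y → y + z ≤ 1 → z ^ 2 * F z ≤ y ^ 2 * F y) :
    ∑ b ∈ ({a} : Finset V)ᶜ, x a b ^ 2 * F (x a b) * ∑ e ∈ ({a, b} : Finset V)ᶜ, x b e * x a e
      ≤ ∑ b ∈ ({a} : Finset V)ᶜ, x a b ^ 3 * F (x a b) * (1 - x a b) := by
  have x1 : ∀ b, x a b ≤ 1 := fun b =>
    le_trans (Finset.single_le_sum (f := fun b => x a b) (fun c _ => hx.nn a c)
      (Finset.mem_univ b)) (hx.row a)
  have x2 : ∀ b d, b ≠ d → x a b + x a d ≤ 1 := by
    intro b d hbd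
    have : ∑ c ∈ ({b, d} : Finset V), x a c ≤ ∑ c, x a c :=
      Finset.sum_le_sum_of_subset_of_nonneg (Finset.subset_univ _) fun c _ _ => hx.nn a c
    rw [Finset.sum_pair hbd] at this
    linarith [hx.row a]
  have ord2 : ∀ b d, b ≠ d → x a b ^ 2 * F (x a b) * x a d + x a d ^ 2 * F (x a d) * x a b
      ≤ x a b ^ 3 * F (x a b) + x a d ^ 3 * F (x a d) := by
    intro b d hbd
    rcases le_total (x a d) (x a b) with hle | hle
    · have := ord (x a b) (x a d) (hx.nn a d) hle (x2 b d hbd)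
      nlinarith [mul_nonneg (sub_nonneg.2 hle) (sub_nonneg.2 this)]
    · have := ord (x a d) (x a b) (hx.nn a b) hle (x2 d b hbd.symm)
      nlinarith [mul_nonneg (sub_nonneg.2 hle) (sub_nonneg.2 this)]
  have row2 : ∀ b ∈ ({a} : Finset V)ᶜ, ∑ e ∈ ({a, b} : Finset V)ᶜ, x b e ≤ 1 - x a b := by
    intro b hb
    have hb := mem1 hb
    have h4 := Finset.sum_add_sum_compl ({a, b} : Finset V) (fun e => x b e)
    rw [Finset.sum_pair hb.symm, hx.diag b, add_zero] at h4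
    have h6 := hx.row b
    rw [hx.symm a b]
    linarith
  have s1 := swap1 a (fun b d => x a b ^ 2 * F (x a b) * (x b d * x a d))
  have s2 := swap1 a (fun b d => x a b ^ 3 * F (x a b) * x b d)
  have key : ∑ b ∈ ({a} : Finset V)ᶜ, ∑ d ∈ ({a, b} : Finset V)ᶜ,
      (x a b ^ 2 * F (x a b) * (x b d * x a d) + x a d ^ 2 * F (x a d) * (x d b * x a b))
      ≤ ∑ b ∈ ({a} : Finset V)ᶜ, ∑ d ∈ ({a, b} : Finset V)ᶜ,
        (x a b ^ 3 * F (x a b) * x b d + x a d ^ 3 * F (x a d) * x d b) := by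
    refine Finset.sum_le_sum fun b hb => Finset.sum_le_sum fun d hd => ?_
    have h1 := mul_le_mul_of_nonneg_left (ord2 b d (mem2 hb hd).2.2) (hx.nn b d)
    rw [hx.symm d b]
    nlinarith [h1]
  simp only [Finset.sum_add_distrib] at key
  rw [← s1, ← s2] at key
  calc _ = ∑ b ∈ ({a} : Finset V)ᶜ, ∑ d ∈ ({a, b} : Finset V)ᶜ,
        x a b ^ 2 * F (x a b) * (x b d * x a d) := by simp only [Finset.mul_sum]
    _ ≤ ∑ b ∈ ({a} : Finset V)ᶜ, ∑ d ∈ ({a, b} : Finset V)ᶜ,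
        x a b ^ 3 * F (x a b) * x b d := by linarith
    _ = ∑ b ∈ ({a} : Finset V)ᶜ, x a b ^ 3 * F (x a b) * ∑ d ∈ ({a, b} : Finset V)ᶜ, x b d := by
        simp only [Finset.mul_sum]
    _ ≤ _ := Finset.sum_le_sum fun b hb => mul_le_mul_of_nonneg_left (row2 b hb)
        (mul_nonneg (pow_nonneg (hx.nn a b) 3) (F0 _ (hx.nn a b) (x1 b)))

end Pool.Agent.RX.RCM.Gr
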