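import Pool.Agent.RX.RCM.GrX

/-! The path sums of the second type at fixed times (MP_73ccd0_lc, route M). -/

namespace Pool.Agent.RX.RCM.Gr

open Finset

variable {V : Type*} [Fintype V] [DecidableEq V]

/-- the sum of the targets of the inequality -/
noncomputable def S0 (y : V → V → ℝ) (a : V) : ℝ :=
  ∑ b ∈ ({a} : Finset V)ᶜ, y a b ^ 2 * (1 - y a b)

theorem S0_nonneg {y : V → V → ℝ} (hy : Wg y) (a : V) : 0 ≤ S0 y a :=
  Finset.sum_nonneg fun b _ => mul_nonneg (sq_nonneg _) (sub_nonneg.2 (hy.le_one a b))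

/-- main part and chord part together -/
theorem ab_both {y : V → V → ℝ} (hy : Wg y) {a : V} {u q : V → ℝ} {p w z : V → V → ℝ}
    {T' t' ζ lam ν Wd W Zd Z Am Ac σ lm γ : ℝ} {Pc : ℝ → ℝ} (hE : Ex T' t' ζ lam ν)
    (hK : Kc y w z Wd W Zd Z) (hσ : 0 < σ) (hlm : 0 < lm) (hγ : 0 ≤ γ) (hA0 : 0 ≤ Am)
    (hAc : 0 ≤ Ac)
    (u0 : ∀ b, 0 ≤ u b) (q0 : ∀ e, 0 ≤ q e) (p0 : ∀ b d, 0 ≤ p b d)
    (Pc0 : ∀ v ∈ Set.Icc (0 : ℝ) 1, 0 ≤ Pc v)
    (Pcm : ∀ v ∈ Set.Icc (0 : ℝ) 1, ∀ z ∈ Set.Icc (0 : ℝ) 1, z ≤ v → Pc z ≤ Pc v)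
    (PcA : ∀ v ∈ Set.Icc (0 : ℝ) 1, Pc v * Real.exp (v * ζ) * (1 - v) ≤ Ac)
    (hp : ∀ b d, D3 a b d → (p b d * (1 - y a d)) ^ 2 * (1 - y b d) ≤ Am)
    (hpc : ∀ b d, D3 a b d → (p b d * (1 - y a d)) ^ 2 ≤ Pc (y b d)) :
    ∑ b ∈ ({a} : Finset V)ᶜ, ∑ d ∈ ({a, b} : Finset V)ᶜ, ∑ e ∈ ({a, b, d} : Finset V)ᶜ,
        ∑ f ∈ ({a, b, d, e} : Finset V)ᶜ, u b * (y b d * p b d)
          * (w d f * (Real.exp (y b f * T') * Real.exp (y a f * t')) * z f e)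
          * (1 + y b e * (γ * Real.exp (y b e * ζ))) * q e
      ≤ 1 / 2 * (σ * Am * (lam * Wd * Z) + lm * (lam * W ^ 2) * (γ * Ac / 4))
          * (∑ b ∈ ({a} : Finset V)ᶜ, u b ^ 2 * (1 - y a b))
        + 1 / 2 * (Wd * Zd / σ + γ * ν * Z * Zd / lm)
          * ∑ e ∈ ({a} : Finset V)ᶜ, q e ^ 2 * (1 - y a e) := by
  have h1 := ab_main hy hE hK hσ hA0 u0 q0 p0 hp
  have h2 := ab_chord hy hE hK hlm hγ hAc u0 q0 p0 Pc0 Pcm PcA hpc
  have e : ∑ b ∈ ({a} : Finset V)ᶜ, ∑ d ∈ ({a, b} : Finset V)ᶜ, ∑ e ∈ ({a, b, d} : Finset V)ᶜ,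
        ∑ f ∈ ({a, b, d, e} : Finset V)ᶜ, u b * (y b d * p b d)
          * (w d f * (Real.exp (y b f * T') * Real.exp (y a f * t')) * z f e)
          * (1 + y b e * (γ * Real.exp (y b e * ζ))) * q e
      = ∑ b ∈ ({a} : Finset V)ᶜ, ∑ d ∈ ({a, b} : Finset V)ᶜ, ∑ e ∈ ({a, b, d} : Finset V)ᶜ,
        ∑ f ∈ ({a, b, d, e} : Finset V)ᶜ, u b * (y b d * p b d)
          * (w d f * Real.exp (y b f * T') * Real.exp (y a f * t') * z f e) * q e
        + ∑ b ∈ ({a} : Finset V)ᶜ, ∑ d ∈ ({a, b} : Finset V)ᶜ, ∑ e ∈ ({a, b, d} : Finset V)ᶜ,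
        ∑ f ∈ ({a, b, d, e} : Finset V)ᶜ, u b * (y b d * p b d)
          * (w d f * (Real.exp (y b f * T') * Real.exp (y a f * t')) * z f e)
          * (y b e * (γ * Real.exp (y b e * ζ))) * q e := by
    simp only [← Finset.sum_add_distrib]
    exact Finset.sum_congr rfl fun b _ => Finset.sum_congr rfl fun d _ =>
      Finset.sum_congr rfl fun e _ => Finset.sum_congr rfl fun f _ => by ring
  rw [e]
  linarith

theorem exp_chord {v t T' : ℝ} (hv : 0 ≤ v) :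
    (1 + v * t) * Real.exp (v * T') ≤ 1 + v * ((t + T') * Real.exp (v * T')) := by
  have h1 : 1 - v * T' ≤ Real.exp (-(v * T')) := by
    have := Real.add_one_le_exp (-(v * T'))
    linarith
  have h2 := mul_le_mul_of_nonneg_right h1 (Real.exp_pos (v * T')).le
  rw [← Real.exp_add, neg_add_cancel, Real.exp_zero] at h2
  nlinarith

/-- the constants at fixed times -/
structure Pt (y : V → V → ℝ) (w z : V → V → ℝ) (T' τ lam ν Wd W Zd Z : ℝ) : Prop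
    extends Kc y w z Wd W Zd Z where
  T0 : 0 ≤ τ
  tT : τ ≤ T'
  t1 : τ ≤ 1
  l0 : 0 ≤ lam
  n0 : 0 ≤ ν
  lam : ∀ g ∈ Set.Icc (0 : ℝ) 1, (1 - g) * Real.exp (2 * g * T') ≤ lam
  ν : ∀ g ∈ Set.Icc (0 : ℝ) 1, g * (1 - g) * Real.exp (g * T') ≤ ν

theorem quarter {g : ℝ} (_ : g ∈ Set.Icc (0 : ℝ) 1) : g * (1 - g) * Real.exp (g * 0) ≤ 1 / 4 := by
  rw [mul_zero, Real.exp_zero, mul_one]
  nlinarith [sq_nonneg (2 * g - 1)]

theorem sq_exp_sum {y : V → V → ℝ} (hy : Wg y) (a : V) {τ : ℝ} (hτ : 0 ≤ τ) :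
    ∑ e ∈ ({a} : Finset V)ᶜ, (y a e * Real.exp (y a e * τ)) ^ 2 * (1 - y a e)
      ≤ Real.exp (2 * τ) * S0 y a := by
  unfold S0
  rw [Finset.mul_sum]
  refine Finset.sum_le_sum fun e _ => ?_
  have h3 : 0 ≤ y a e ^ 2 * (1 - y a e) :=
    mul_nonneg (sq_nonneg _) (sub_nonneg.2 (hy.le_one a e))
  have h4 : Real.exp (y a e * τ) ^ 2 ≤ Real.exp (2 * τ) := by
    rw [pow_two, ← Real.exp_add]
    refine Real.exp_le_exp.2 ?_
    have := mul_le_mul_of_nonneg_right (hy.le_one a e) hτ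
    linarith
  calc _ = Real.exp (y a e * τ) ^ 2 * (y a e ^ 2 * (1 - y a e)) := by ring
    _ ≤ _ := mul_le_mul_of_nonneg_right h4 h3

/-- **the first chain** `b, d, f, e`: kernel `w d f` (clock of the target), `z f e` with exponents -/
theorem ptA {y : V → V → ℝ} (hy : Wg y) {a : V} {g : V → V → ℝ} {w z : V → V → ℝ}
    {T' τ lam ν Wd W Zd Z Am Ac σ lm t ρ : ℝ} (hP : Pt y w z T' τ lam ν Wd W Zd Z)
    (hσ : 0 < σ) (hlm : 0 < lm) (ht : 0 ≤ t) (h0 : 0 ≤ ρ) (h1 : ρ ≤ 1)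
    (hA0 : 0 ≤ Am) (hAc : 0 ≤ Ac) (hT1 : T' ≤ 1) (g0 : ∀ b d, 0 ≤ g b d)
    (hp : ∀ b d, D3 a b d →
      (g b d * (1 + y a b * t) * (1 - y a d)) ^ 2 * (1 - y b d) ≤ Am)
    (hpc : ∀ b d, D3 a b d → (g b d * (1 + y a b * t) * (1 - y a d)) ^ 2 ≤ Ac) :
    ∑ b ∈ ({a} : Finset V)ᶜ, ∑ d ∈ ({a, b} : Finset V)ᶜ, ∑ e ∈ ({a, b, d} : Finset V)ᶜ,
        ∑ f ∈ ({a, b, d, e} : Finset V)ᶜ, (y a b * wfac y t ρ a b)
          * (y b d * (g b d * (1 + y a b * t))) * ((1 + y b e * t) * y a e)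
          * (z f e * Real.exp ((y b e + y b f) * T' + (y a e + y a f) * τ) * w d f)
      ≤ 1 / 2 * ((σ * Am * (lam * Wd * Z) + lm * (lam * W ^ 2) * ((t + T') * Ac / 4))
          * (1 + ρ * (4 / 27 * (2 * t + t ^ 2 / 2)))
        + (Wd * Zd / σ + (t + T') * ν * Z * Zd / lm) * Real.exp (2 * τ)) * S0 y a := by
  have n0 := hy.nn
  have hT0 : 0 ≤ T' := hP.T0.trans hP.tT
  have hγ : 0 ≤ t + T' := add_nonneg ht hT0
  have hc : ∀ v ∈ Set.Icc (0 : ℝ) 1, Ac * Real.exp (v * T') * (1 - v) ≤ Ac := by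
    intro v hv
    have h2 : (1 - v) * Real.exp (v * T') ≤ 1 := by
      have h3 : 1 - v ≤ Real.exp (-(v * T')) := by
        have h4 := Real.add_one_le_exp (-(v * T'))
        have h5 := mul_le_mul_of_nonneg_left hT1 hv.1
        linarith
      have h6 := mul_le_mul_of_nonneg_right h3 (Real.exp_pos (v * T')).le
      rwa [← Real.exp_add, neg_add_cancel, Real.exp_zero] at h6
    calc Ac * Real.exp (v * T') * (1 - v) = Ac * ((1 - v) * Real.exp (v * T')) := by ring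
      _ ≤ Ac * 1 := mul_le_mul_of_nonneg_left h2 hAc
      _ = Ac := mul_one _
  have key := ab_both hy (a := a) (u := fun b => y a b * wfac y t ρ a b)
    (q := fun e => y a e * Real.exp (y a e * τ)) (p := fun b d => g b d * (1 + y a b * t))
    (w := w) (z := z) (T' := T') (t' := τ) (ζ := T') (lam := lam) (ν := ν) (Am := Am) (Ac := Ac)
    (γ := t + T') (Pc := fun _ => Ac)
    ⟨hP.T0, hP.tT, hP.t1, hT0, hP.l0, hP.n0, hP.lam, hP.ν⟩ hP.toKc hσ hlm hγ hA0 hAc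
    (fun b => mul_nonneg (n0 a b) (zero_le_one.trans (one_le_wfac h0)))
    (fun e => mul_nonneg (n0 a e) (Real.exp_pos _).le)
    (fun b d => mul_nonneg (g0 b d) (by have := mul_nonneg (n0 a b) ht; linarith))
    (fun _ _ => hAc) (fun _ _ _ _ _ => le_rfl) hc hp hpc
  have s1 := wfac_sum hy a (ρ := ρ) ht h0 h1
  have s2 := sq_exp_sum hy a hP.T0
  have hW0 := hP.Wd0
  have hZ0 := hP.Z0
  have hZd := hP.Zd0
  have c1 : 0 ≤ 1 / 2 * (σ * Am * (lam * Wd * Z) + lm * (lam * W ^ 2) * ((t + T') * Ac / 4)) := by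
    have i1 : 0 ≤ σ * Am * (lam * Wd * Z) :=
      mul_nonneg (mul_nonneg hσ.le hA0) (mul_nonneg (mul_nonneg hP.l0 hW0) hZ0)
    have i2 : 0 ≤ lm * (lam * W ^ 2) * ((t + T') * Ac / 4) :=
      mul_nonneg (mul_nonneg hlm.le (mul_nonneg hP.l0 (sq_nonneg _)))
        (div_nonneg (mul_nonneg hγ hAc) (by norm_num))
    linarith
  have c2 : 0 ≤ 1 / 2 * (Wd * Zd / σ + (t + T') * ν * Z * Zd / lm) := by
    have i1 : 0 ≤ Wd * Zd / σ := div_nonneg (mul_nonneg hW0 hZd) hσ.le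
    have i2 : 0 ≤ (t + T') * ν * Z * Zd / lm :=
      div_nonneg (mul_nonneg (mul_nonneg (mul_nonneg hγ hP.n0) hZ0) hZd) hlm.le
    linarith
  have j1 := mul_le_mul_of_nonneg_left s1 c1
  have j2 := mul_le_mul_of_nonneg_left s2 c2
  have step : ∑ b ∈ ({a} : Finset V)ᶜ, ∑ d ∈ ({a, b} : Finset V)ᶜ, ∑ e ∈ ({a, b, d} : Finset V)ᶜ,
        ∑ f ∈ ({a, b, d, e} : Finset V)ᶜ, (y a b * wfac y t ρ a b)
          * (y b d * (g b d * (1 + y a b * t))) * ((1 + y b e * t) * y a e)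
          * (z f e * Real.exp ((y b e + y b f) * T' + (y a e + y a f) * τ) * w d f)
      ≤ ∑ b ∈ ({a} : Finset V)ᶜ, ∑ d ∈ ({a, b} : Finset V)ᶜ, ∑ e ∈ ({a, b, d} : Finset V)ᶜ,
        ∑ f ∈ ({a, b, d, e} : Finset V)ᶜ, (y a b * wfac y t ρ a b)
          * (y b d * (g b d * (1 + y a b * t)))
          * (w d f * (Real.exp (y b f * T') * Real.exp (y a f * τ)) * z f e)
          * (1 + y b e * ((t + T') * Real.exp (y b e * T'))) * (y a e * Real.exp (y a e * τ)) := by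
    refine Finset.sum_le_sum fun b _ => Finset.sum_le_sum fun d _ => Finset.sum_le_sum fun e _ =>
      Finset.sum_le_sum fun f _ => ?_
    have e1 : Real.exp ((y b e + y b f) * T' + (y a e + y a f) * τ)
        = Real.exp (y b e * T') * Real.exp (y b f * T') * Real.exp (y a e * τ)
          * Real.exp (y a f * τ) := by
      rw [← Real.exp_add, ← Real.exp_add, ← Real.exp_add]; congr 1; ring
    have h5 := exp_chord (v := y b e) (t := t) (T' := T') (n0 b e)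
    have h6 : 0 ≤ (y a b * wfac y t ρ a b) * (y b d * (g b d * (1 + y a b * t)))
          * (w d f * (Real.exp (y b f * T') * Real.exp (y a f * τ)) * z f e)
          * (y a e * Real.exp (y a e * τ)) := by
      have a1 := mul_nonneg (n0 a b) (zero_le_one.trans (one_le_wfac (y := y) (t := t) (a := a)
        (b := b) h0))
      have a2 := mul_nonneg (n0 b d) (mul_nonneg (g0 b d)
        (show 0 ≤ 1 + y a b * t by have := mul_nonneg (n0 a b) ht; linarith))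
      have a3 := mul_nonneg (mul_nonneg (hP.w0 d f) (mul_nonneg (Real.exp_pos (y b f * T')).le
        (Real.exp_pos (y a f * τ)).le)) (hP.z0 f e)
      exact mul_nonneg (mul_nonneg (mul_nonneg a1 a2) a3)
        (mul_nonneg (n0 a e) (Real.exp_pos _).le)
    have h7 := mul_le_mul_of_nonneg_left h5 h6
    rw [e1]
    calc _ = (y a b * wfac y t ρ a b) * (y b d * (g b d * (1 + y a b * t)))
          * (w d f * (Real.exp (y b f * T') * Real.exp (y a f * τ)) * z f e)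
          * (y a e * Real.exp (y a e * τ)) * ((1 + y b e * t) * Real.exp (y b e * T')) := by ring
      _ ≤ _ := h7
      _ = _ := by ring
  refine step.trans (key.trans ?_)
  unfold S0 at *
  linarith

/-- **the second chain** `b, d, f, e`: kernel `w d f` with exponents, `z f e` (short clock) -/
theorem ptB {y : V → V → ℝ} (hy : Wg y) {a : V} {g : V → V → ℝ} {w z : V → V → ℝ}
    {T' τ lam ν Wd W Zd Z Am Ac σ lm t ρ : ℝ} {Pc : ℝ → ℝ}
    (hP : Pt y w z T' τ lam ν Wd W Zd Z)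
    (hσ : 0 < σ) (hlm : 0 < lm) (ht : 0 ≤ t) (h0 : 0 ≤ ρ) (h1 : ρ ≤ 1)
    (hA0 : 0 ≤ Am) (hAc : 0 ≤ Ac) (g0 : ∀ b d, 0 ≤ g b d)
    (Pc0 : ∀ v ∈ Set.Icc (0 : ℝ) 1, 0 ≤ Pc v)
    (Pcm : ∀ v ∈ Set.Icc (0 : ℝ) 1, ∀ z ∈ Set.Icc (0 : ℝ) 1, z ≤ v → Pc z ≤ Pc v)
    (PcA : ∀ v ∈ Set.Icc (0 : ℝ) 1, Pc v * (1 - v) ≤ Ac)
    (hp : ∀ b d, D3 a b d → (g b d * (1 + y a b * t) * Real.exp (y b d * T' + y a d * τ)
      * (1 - y a d)) ^ 2 * (1 - y b d) ≤ Am)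
    (hpc : ∀ b d, D3 a b d → (g b d * (1 + y a b * t) * Real.exp (y b d * T' + y a d * τ)
      * (1 - y a d)) ^ 2 ≤ Pc (y b d)) :
    ∑ b ∈ ({a} : Finset V)ᶜ, ∑ d ∈ ({a, b} : Finset V)ᶜ, ∑ e ∈ ({a, b, d} : Finset V)ᶜ,
        ∑ f ∈ ({a, b, d, e} : Finset V)ᶜ, (y a b * wfac y t ρ a b)
          * (y b d * (g b d * (1 + y a b * t))) * ((1 + y b e * t) * y a e)
          * (w d f * Real.exp ((y b d + y b f) * T' + (y a d + y a f) * τ) * z f e)
      ≤ 1 / 2 * ((σ * Am * (lam * Wd * Z) + lm * (lam * W ^ 2) * (t * Ac / 4))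
          * (1 + ρ * (4 / 27 * (2 * t + t ^ 2 / 2)))
        + (Wd * Zd / σ + t * (1 / 4) * Z * Zd / lm)) * S0 y a := by
  have n0 := hy.nn
  have hT0 : 0 ≤ T' := hP.T0.trans hP.tT
  have key := ab_both hy (a := a) (u := fun b => y a b * wfac y t ρ a b)
    (q := fun e => y a e) (p := fun b d => g b d * (1 + y a b * t)
      * Real.exp (y b d * T' + y a d * τ))
    (w := w) (z := z) (T' := T') (t' := τ) (ζ := 0) (lam := lam) (ν := 1 / 4) (Am := Am)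
    (Ac := Ac) (γ := t) (Pc := Pc)
    ⟨hP.T0, hP.tT, hP.t1, le_rfl, hP.l0, by norm_num, hP.lam, fun g hg => quarter hg⟩
    hP.toKc hσ hlm ht hA0 hAc
    (fun b => mul_nonneg (n0 a b) (zero_le_one.trans (one_le_wfac h0)))
    (fun e => n0 a e)
    (fun b d => mul_nonneg (mul_nonneg (g0 b d) (by have := mul_nonneg (n0 a b) ht; linarith))
      (Real.exp_pos _).le)
    Pc0 Pcm (fun v hv => by rw [mul_zero, Real.exp_zero, mul_one]; exact PcA v hv) hp hpc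
  have s1 := wfac_sum hy a (ρ := ρ) ht h0 h1
  have hW0 := hP.Wd0
  have hZ0 := hP.Z0
  have c1 : 0 ≤ 1 / 2 * (σ * Am * (lam * Wd * Z) + lm * (lam * W ^ 2) * (t * Ac / 4)) := by
    have i1 : 0 ≤ σ * Am * (lam * Wd * Z) :=
      mul_nonneg (mul_nonneg hσ.le hA0) (mul_nonneg (mul_nonneg hP.l0 hW0) hZ0)
    have i2 : 0 ≤ lm * (lam * W ^ 2) * (t * Ac / 4) :=
      mul_nonneg (mul_nonneg hlm.le (mul_nonneg hP.l0 (sq_nonneg _)))
        (div_nonneg (mul_nonneg ht hAc) (by norm_num))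
    linarith
  have j1 := mul_le_mul_of_nonneg_left s1 c1
  have step : ∑ b ∈ ({a} : Finset V)ᶜ, ∑ d ∈ ({a, b} : Finset V)ᶜ, ∑ e ∈ ({a, b, d} : Finset V)ᶜ,
        ∑ f ∈ ({a, b, d, e} : Finset V)ᶜ, (y a b * wfac y t ρ a b)
          * (y b d * (g b d * (1 + y a b * t))) * ((1 + y b e * t) * y a e)
          * (w d f * Real.exp ((y b d + y b f) * T' + (y a d + y a f) * τ) * z f e)
      = ∑ b ∈ ({a} : Finset V)ᶜ, ∑ d ∈ ({a, b} : Finset V)ᶜ, ∑ e ∈ ({a, b, d} : Finset V)ᶜ,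
        ∑ f ∈ ({a, b, d, e} : Finset V)ᶜ, (y a b * wfac y t ρ a b)
          * (y b d * (g b d * (1 + y a b * t) * Real.exp (y b d * T' + y a d * τ)))
          * (w d f * (Real.exp (y b f * T') * Real.exp (y a f * τ)) * z f e)
          * (1 + y b e * (t * Real.exp (y b e * 0))) * y a e := by
    refine Finset.sum_congr rfl fun b _ => Finset.sum_congr rfl fun d _ =>
      Finset.sum_congr rfl fun e _ => Finset.sum_congr rfl fun f _ => ?_
    have e1 : Real.exp ((y b d + y b f) * T' + (y a d + y a f) * τ)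
        = Real.exp (y b d * T' + y a d * τ) * Real.exp (y b f * T')
          * Real.exp (y a f * τ) := by
      rw [← Real.exp_add, ← Real.exp_add]; congr 1; ring
    rw [e1, mul_zero, Real.exp_zero]
    ring
  rw [step]
  refine key.trans ?_
  unfold S0 at *
  linarith

end Pool.Agent.RX.RCM.Gr
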