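import Pool.Agent.RX.RCM.GrL

/-! The path sums of the second type with constants (MP_73ccd0_lc, route M). -/

namespace Pool.Agent.RX.RCM.Gr

open Finset

variable {V : Type*} [Fintype V] [DecidableEq V]

theorem Wg.le_one {x : V → V → ℝ} (hx : Wg x) (c d : V) : x c d ≤ 1 :=
  (Finset.single_le_sum (f := fun f => x c f) (fun i _ => hx.nn c i) (Finset.mem_univ d)).trans
    (hx.row c)

theorem Wg.two_le {x : V → V → ℝ} (hx : Wg x) {a b d : V} (hbd : b ≠ d) :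
    x a b + x a d ≤ 1 := by
  have : ∑ c ∈ ({b, d} : Finset V), x a c ≤ ∑ c, x a c :=
    Finset.sum_le_sum_of_subset_of_nonneg (Finset.subset_univ _) fun c _ _ => hx.nn a c
  rw [Finset.sum_pair hbd] at this
  linarith [hx.row a]

theorem Wg.row2 {x : V → V → ℝ} (hx : Wg x) {a b : V} (hab : a ≠ b) :
    ∑ e ∈ ({a, b} : Finset V)ᶜ, x b e ≤ 1 - x a b := by
  have h4 := Finset.sum_add_sum_compl ({a, b} : Finset V) (fun e => x b e)
  rw [Finset.sum_pair hab, hx.diag b, add_zero] at h4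
  have h6 := hx.row b
  rw [hx.symm a b]
  linarith

/-- elementary facts about the constants of the exponents -/
structure Ex (T' t' ζ lam ν : ℝ) : Prop where
  T0 : 0 ≤ t'
  tT : t' ≤ T'
  t1 : t' ≤ 1
  ζ0 : 0 ≤ ζ
  l0 : 0 ≤ lam
  n0 : 0 ≤ ν
  lam : ∀ g ∈ Set.Icc (0 : ℝ) 1, (1 - g) * Real.exp (2 * g * T') ≤ lam
  ν : ∀ g ∈ Set.Icc (0 : ℝ) 1, g * (1 - g) * Real.exp (g * ζ) ≤ ν

/-- constants of the two kernels -/
structure Kc (x w z : V → V → ℝ) (Wd W Zd Z : ℝ) : Prop where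
  w0 : ∀ d f, 0 ≤ w d f
  z0 : ∀ f e, 0 ≤ z f e
  Wd0 : 0 ≤ Wd
  W0 : 0 ≤ W
  Zd0 : 0 ≤ Zd
  Z0 : 0 ≤ Z
  wd : ∀ d f, w d f * (1 - x d f) ≤ Wd * x d f
  w : ∀ d f, w d f ≤ W * x d f
  zd : ∀ f e, z f e * (1 - x f e) ≤ Zd * x f e
  z : ∀ f e, z f e ≤ Z * x f e

theorem exp_m_le {T' lam : ℝ} (hlam : ∀ g ∈ Set.Icc (0 : ℝ) 1,
    (1 - g) * Real.exp (2 * g * T') ≤ lam) {y g h m : ℝ} (hy : 0 ≤ y) (hg : 0 ≤ g) (hh : 0 ≤ h)
    (h1 : y + g + h ≤ 1) (hm : m ≤ 2 * (g + h) * T') :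
    Real.exp m * (1 - y - h - g) ≤ lam * (1 - y) := by
  have e2 : Real.exp m ≤ Real.exp (2 * (g + h) * T') := Real.exp_le_exp.2 hm
  have k := hlam (g + h) ⟨by linarith, by linarith⟩
  have k1 : Real.exp m * (1 - (g + h)) ≤ lam := by
    refine le_trans (mul_le_mul_of_nonneg_right e2 (by linarith)) ?_
    linarith
  have k2 : Real.exp m * (1 - y - h - g) ≤ Real.exp m * (1 - (g + h)) * (1 - y) := by
    have : 1 - y - h - g ≤ (1 - (g + h)) * (1 - y) := by nlinarith [mul_nonneg hy (add_nonneg hg hh)]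
    calc _ ≤ Real.exp m * ((1 - (g + h)) * (1 - y)) :=
          mul_le_mul_of_nonneg_left this (Real.exp_pos _).le
      _ = _ := by ring
  exact k2.trans (mul_le_mul_of_nonneg_right k1 (by linarith))

theorem exp_two_le {T' t' lam : ℝ} (hlam : ∀ g ∈ Set.Icc (0 : ℝ) 1,
    (1 - g) * Real.exp (2 * g * T') ≤ lam) (h0 : 0 ≤ t') (htT : t' ≤ T')
    {y g h : ℝ} (hy : 0 ≤ y) (hg : 0 ≤ g) (hh : 0 ≤ h) (h1 : y + g + h ≤ 1) :
    Real.exp (g * T') ^ 2 * Real.exp (h * t') * (1 - y - h - g) ≤ lam * (1 - y) := by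
  have e1 : Real.exp (g * T') ^ 2 * Real.exp (h * t') = Real.exp (2 * g * T' + h * t') := by
    rw [pow_two, ← Real.exp_add, ← Real.exp_add]; congr 1; ring
  rw [e1]
  refine exp_m_le hlam hy hg hh h1 ?_
  have i1 := mul_nonneg hh (sub_nonneg.2 htT)
  have i2 := mul_nonneg hh (h0.trans htT)
  linarith

/-- **the two-step paths, main part**: kernels `w`, `z`, amplitude `p`, constants `σ` -/
theorem ab_main {x : V → V → ℝ} (hx : Wg x) {a : V} {u q : V → ℝ} {p w z : V → V → ℝ}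
    {T' t' ζ lam ν Wd W Zd Z Am σ : ℝ} (hE : Ex T' t' ζ lam ν)
    (hK : Kc x w z Wd W Zd Z) (hσ : 0 < σ) (hA0 : 0 ≤ Am)
    (u0 : ∀ b, 0 ≤ u b) (q0 : ∀ e, 0 ≤ q e) (p0 : ∀ b d, 0 ≤ p b d)
    (hp : ∀ b d, D3 a b d → (p b d * (1 - x a d)) ^ 2 * (1 - x b d) ≤ Am) :
    ∑ b ∈ ({a} : Finset V)ᶜ, ∑ d ∈ ({a, b} : Finset V)ᶜ, ∑ e ∈ ({a, b, d} : Finset V)ᶜ,
        ∑ f ∈ ({a, b, d, e} : Finset V)ᶜ, u b * (x b d * p b d)
          * (w d f * Real.exp (x b f * T') * Real.exp (x a f * t') * z f e) * q e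
      ≤ 1 / 2 * (σ * Am * (lam * Wd * Z)) * ∑ b ∈ ({a} : Finset V)ᶜ,
          u b ^ 2 * (1 - x a b)
        + 1 / 2 * (Wd * Zd / σ) * ∑ e ∈ ({a} : Finset V)ᶜ, q e ^ 2 * (1 - x a e) := by
  have n0 := hx.nn
  have x1 := hx.le_one
  have key := path_two hx (a := a) (u := u) (q := q) (P := fun b d => x b d * p b d)
    (PI := fun b d => x b d * p b d ^ 2 * (1 - x a d) * σ)
    (PII := fun b d => x b d * ((1 - x a d)⁻¹ * σ⁻¹)) (w := w)
    (β := fun b f => Real.exp (x b f * T')) (z := z) (α := fun f => Real.exp (x a f * t'))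
    (Ψ := fun d => (1 - x a d)⁻¹ * σ⁻¹) (Φz := Z) (Φ2 := lam * Wd * Z) (Ψ2 := Wd * σ⁻¹)
    (LI := fun b d => x b d * (σ * Am * (lam * Wd * Z)))
    (LII := fun e f => x e f * (Wd * Zd / σ))
    u0 q0 (fun b d => mul_nonneg (n0 b d) (p0 b d))
    (fun b d => mul_nonneg (mul_nonneg (mul_nonneg (n0 b d) (sq_nonneg _))
      (sub_nonneg.2 (x1 a d))) hσ.le)
    (fun b d => mul_nonneg (n0 b d) (mul_nonneg (inv_nonneg.2 (sub_nonneg.2 (x1 a d)))
      (inv_nonneg.2 hσ.le)))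
    hK.w0 (fun b f => (Real.exp_pos _).le) hK.z0 (fun f => (Real.exp_pos _).le)
    (fun d => mul_nonneg (inv_nonneg.2 (sub_nonneg.2 (x1 a d))) (inv_nonneg.2 hσ.le))
    hK.Z0 (mul_nonneg (mul_nonneg hE.l0 hK.Wd0) hK.Z0)
    (mul_nonneg hK.Wd0 (inv_nonneg.2 hσ.le)) ?_ ?_ ?_ ?_ ?_ ?_ ?_
  · have i1 : ∑ b ∈ ({a} : Finset V)ᶜ, u b ^ 2 * ∑ d ∈ ({a, b} : Finset V)ᶜ,
        x b d * (σ * Am * (lam * Wd * Z))
        ≤ (σ * Am * (lam * Wd * Z)) * ∑ b ∈ ({a} : Finset V)ᶜ,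
          u b ^ 2 * (1 - x a b) := by
      rw [Finset.mul_sum]
      refine Finset.sum_le_sum fun b hb => ?_
      rw [← Finset.sum_mul]
      have r := hx.row2 (Ne.symm (B39.mem1 hb))
      have c0 : 0 ≤ σ * Am * (lam * Wd * Z) := mul_nonneg (mul_nonneg hσ.le hA0)
        (mul_nonneg (mul_nonneg hE.l0 hK.Wd0) hK.Z0)
      calc u b ^ 2 * ((∑ d ∈ ({a, b} : Finset V)ᶜ, x b d) * (σ * Am * (lam * Wd * Z)))
          ≤ u b ^ 2 * ((1 - x a b) * (σ * Am * (lam * Wd * Z))) :=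
            mul_le_mul_of_nonneg_left (mul_le_mul_of_nonneg_right r c0) (sq_nonneg _)
        _ = _ := by ring
    have i2 : ∑ e ∈ ({a} : Finset V)ᶜ, q e ^ 2 * ∑ f ∈ ({a, e} : Finset V)ᶜ,
        x e f * (Wd * Zd / σ)
        ≤ (Wd * Zd / σ) * ∑ e ∈ ({a} : Finset V)ᶜ, q e ^ 2 * (1 - x a e) := by
      rw [Finset.mul_sum]
      refine Finset.sum_le_sum fun b hb => ?_
      rw [← Finset.sum_mul]
      have r := hx.row2 (Ne.symm (B39.mem1 hb))
      have c0 : 0 ≤ Wd * Zd / σ := div_nonneg (mul_nonneg hK.Wd0 hK.Zd0) hσ.le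
      calc q b ^ 2 * ((∑ d ∈ ({a, b} : Finset V)ᶜ, x b d) * (Wd * Zd / σ))
          ≤ q b ^ 2 * ((1 - x a b) * (Wd * Zd / σ)) :=
            mul_le_mul_of_nonneg_left (mul_le_mul_of_nonneg_right r c0) (sq_nonneg _)
        _ = _ := by ring
    linarith
  · -- hP
    intro b d hD
    rcases eq_or_lt_of_le (x1 a d) with h | h
    · have h1 : x b d = 0 := by
        have := hx.two_le (a := d) (b := a) (d := b) hD.1.symm
        rw [hx.symm d a, hx.symm d b, h] at this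
        exact le_antisymm (by linarith) (n0 b d)
      simp [h1]
    · have h2 : (1 - x a d) * (1 - x a d)⁻¹ = 1 := mul_inv_cancel₀ (by linarith)
      have h3 : σ * σ⁻¹ = 1 := mul_inv_cancel₀ hσ.ne'
      refine le_of_eq ?_
      calc (x b d * p b d) ^ 2 = x b d * p b d ^ 2 * x b d * 1 * 1 := by ring
        _ = x b d * p b d ^ 2 * x b d * ((1 - x a d) * (1 - x a d)⁻¹) * (σ * σ⁻¹) := by
            rw [h2, h3]
        _ = _ := by ring
  · -- h1
    intro f e _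
    exact hK.z f e
  · -- h2
    intro b d f hbd hdf hbf
    have hf := exp_two_le (y := x d f) (g := x b f) (h := x a f) hE.lam hE.T0 hE.tT
      (n0 d f) (n0 b f) (n0 a f) (by
        have h5 := Finset.sum_le_univ_sum_of_nonneg (s := ({a, b, d} : Finset V))
          (f := fun e => x f e) fun e => n0 f e
        rw [sum_three (fun e => x f e) hbd.1.symm hbd.2.1.symm hbd.2.2] at h5
        have h6 := hx.row f
        rw [hx.symm f a, hx.symm f b, hx.symm f d] at h5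
        linarith)
    have hz := hK.Z0
    calc w d f * (Real.exp (x b f * T') ^ 2 * Real.exp (x a f * t')) * Z
          * (1 - x d f - x a f - x b f)
        = w d f * Z * (Real.exp (x b f * T') ^ 2 * Real.exp (x a f * t')
          * (1 - x d f - x a f - x b f)) := by ring
      _ ≤ w d f * Z * (lam * (1 - x d f)) :=
          mul_le_mul_of_nonneg_left hf (mul_nonneg (hK.w0 d f) hz)
      _ = lam * Z * (w d f * (1 - x d f)) := by ring
      _ ≤ lam * Z * (Wd * x d f) :=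
          mul_le_mul_of_nonneg_left (hK.wd d f) (mul_nonneg hE.l0 hz)
      _ = _ := by ring
  · -- h3
    intro b d hD
    have hv0 := n0 b d
    have hw0 := n0 a d
    have hvw : x b d + x a d ≤ 1 := by
      have := hx.two_le (a := d) (b := a) (d := b) hD.1.symm
      rw [hx.symm d a, hx.symm d b] at this
      linarith
    have h4 : (1 - x a d) * (1 - x b d - x a d) ≤ (1 - x a d) ^ 2 * (1 - x b d) := by
      have : 1 - x b d - x a d ≤ (1 - x a d) * (1 - x b d) := by nlinarith [mul_nonneg hv0 hw0]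
      calc (1 - x a d) * (1 - x b d - x a d) ≤ (1 - x a d) * ((1 - x a d) * (1 - x b d)) :=
            mul_le_mul_of_nonneg_left this (sub_nonneg.2 (x1 a d))
        _ = _ := by ring
    have c0 : 0 ≤ lam * Wd * Z := mul_nonneg (mul_nonneg hE.l0 hK.Wd0) hK.Z0
    calc x b d * p b d ^ 2 * (1 - x a d) * σ * (lam * Wd * Z) * (1 - x b d - x a d)
        = x b d * σ * (lam * Wd * Z) * (p b d ^ 2 * ((1 - x a d) * (1 - x b d - x a d))) := by ring
      _ ≤ x b d * σ * (lam * Wd * Z) * (p b d ^ 2 * ((1 - x a d) ^ 2 * (1 - x b d))) :=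
          mul_le_mul_of_nonneg_left (mul_le_mul_of_nonneg_left h4 (sq_nonneg _))
            (mul_nonneg (mul_nonneg hv0 hσ.le) c0)
      _ = x b d * σ * (lam * Wd * Z) * ((p b d * (1 - x a d)) ^ 2 * (1 - x b d)) := by ring
      _ ≤ x b d * σ * (lam * Wd * Z) * Am :=
          mul_le_mul_of_nonneg_left (hp b d hD) (mul_nonneg (mul_nonneg hv0 hσ.le) c0)
      _ = _ := by ring
  · -- k1
    intro b d _
    refine le_of_eq ?_
    ring
  · -- k2
    intro d f hD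
    have hv0 := n0 d f
    have hw0 := n0 a d
    have s0 : 0 ≤ σ⁻¹ := inv_nonneg.2 hσ.le
    rcases eq_or_lt_of_le (x1 a d) with h | h
    · rw [h, sub_self, inv_zero, zero_mul, mul_zero, zero_mul]
      exact mul_nonneg (mul_nonneg hK.Wd0 s0) hv0
    · have h2 : (1 - x a d)⁻¹ * (1 - x d f - x a d) ≤ 1 - x d f := by
        rw [inv_mul_le_iff₀ (by linarith)]
        nlinarith [mul_nonneg hv0 hw0]
      calc w d f * ((1 - x a d)⁻¹ * σ⁻¹) * (1 - x d f - x a d)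
          = w d f * σ⁻¹ * ((1 - x a d)⁻¹ * (1 - x d f - x a d)) := by ring
        _ ≤ w d f * σ⁻¹ * (1 - x d f) :=
            mul_le_mul_of_nonneg_left h2 (mul_nonneg (hK.w0 d f) s0)
        _ = σ⁻¹ * (w d f * (1 - x d f)) := by ring
        _ ≤ σ⁻¹ * (Wd * x d f) := mul_le_mul_of_nonneg_left (hK.wd d f) s0
        _ = _ := by ring
  · -- k3
    intro e f hD
    have hy0 := n0 e f
    have hh0 := n0 a f
    have s0 : 0 ≤ σ⁻¹ := inv_nonneg.2 hσ.le
    have hyh : x e f + x a f ≤ 1 := by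
      have := hx.two_le (a := f) (b := e) (d := a) hD.1
      rw [hx.symm f e, hx.symm f a] at this
      exact this
    -- `exp (h t') (1 - y - h) ≤ 1 - y`
    have h1 : Real.exp (x a f * t') * (1 - x e f - x a f) ≤ 1 - x e f := by
      have h2 : 1 - x e f - x a f ≤ (1 - x a f) * (1 - x e f) := by nlinarith [mul_nonneg hy0 hh0]
      have h3 : 1 - x a f ≤ Real.exp (-(x a f * t')) := by
        have h4 := Real.add_one_le_exp (-(x a f * t'))
        have h5 : x a f * t' ≤ x a f := by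
          have := mul_le_mul_of_nonneg_left hE.t1 hh0
          linarith
        linarith
      calc Real.exp (x a f * t') * (1 - x e f - x a f)
          ≤ Real.exp (x a f * t') * ((1 - x a f) * (1 - x e f)) :=
            mul_le_mul_of_nonneg_left h2 (Real.exp_pos _).le
        _ ≤ Real.exp (x a f * t') * (Real.exp (-(x a f * t')) * (1 - x e f)) :=
            mul_le_mul_of_nonneg_left (mul_le_mul_of_nonneg_right h3 (sub_nonneg.2 (x1 e f)))
              (Real.exp_pos _).le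
        _ = 1 - x e f := by
            rw [← mul_assoc, ← Real.exp_add, add_neg_cancel, Real.exp_zero, one_mul]
    have hz := hK.zd f e
    rw [hx.symm f e] at hz
    calc z f e * Real.exp (x a f * t') * (Wd * σ⁻¹) * (1 - x e f - x a f)
        = z f e * (Wd * σ⁻¹) * (Real.exp (x a f * t') * (1 - x e f - x a f)) := by ring
      _ ≤ z f e * (Wd * σ⁻¹) * (1 - x e f) :=
          mul_le_mul_of_nonneg_left h1 (mul_nonneg (hK.z0 f e) (mul_nonneg hK.Wd0 s0))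
      _ = Wd * σ⁻¹ * (z f e * (1 - x e f)) := by ring
      _ ≤ Wd * σ⁻¹ * (Zd * x e f) := mul_le_mul_of_nonneg_left hz (mul_nonneg hK.Wd0 s0)
      _ = x e f * (Wd * Zd / σ) := by rw [div_eq_mul_inv]; ring

/-- **the two-step paths with the chord of the ends** -/
theorem ab_chord {x : V → V → ℝ} (hx : Wg x) {a : V} {u q : V → ℝ} {p w z : V → V → ℝ}
    {T' t' ζ lam ν Wd W Zd Z Am lm γ : ℝ} {Pc : ℝ → ℝ} (hE : Ex T' t' ζ lam ν)
    (hK : Kc x w z Wd W Zd Z) (hlm : 0 < lm) (hγ : 0 ≤ γ) (hA0 : 0 ≤ Am)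
    (u0 : ∀ b, 0 ≤ u b) (q0 : ∀ e, 0 ≤ q e) (p0 : ∀ b d, 0 ≤ p b d)
    (Pc0 : ∀ y ∈ Set.Icc (0 : ℝ) 1, 0 ≤ Pc y)
    (Pcm : ∀ y ∈ Set.Icc (0 : ℝ) 1, ∀ z ∈ Set.Icc (0 : ℝ) 1, z ≤ y → Pc z ≤ Pc y)
    (PcA : ∀ y ∈ Set.Icc (0 : ℝ) 1, Pc y * Real.exp (y * ζ) * (1 - y) ≤ Am)
    (hp : ∀ b d, D3 a b d → (p b d * (1 - x a d)) ^ 2 ≤ Pc (x b d)) :
    ∑ b ∈ ({a} : Finset V)ᶜ, ∑ d ∈ ({a, b} : Finset V)ᶜ, ∑ e ∈ ({a, b, d} : Finset V)ᶜ,
        ∑ f ∈ ({a, b, d, e} : Finset V)ᶜ, u b * (x b d * p b d)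
          * (w d f * (Real.exp (x b f * T') * Real.exp (x a f * t')) * z f e)
          * (x b e * (γ * Real.exp (x b e * ζ))) * q e
      ≤ 1 / 2 * (lm * (lam * W ^ 2) * (γ * Am / 4)) * ∑ b ∈ ({a} : Finset V)ᶜ,
          u b ^ 2 * (1 - x a b)
        + 1 / 2 * (γ * ν * Z * Zd / lm) * ∑ e ∈ ({a} : Finset V)ᶜ, q e ^ 2 * (1 - x a e) := by
  have n0 := hx.nn
  have x1 := hx.le_one
  have hZZ : 0 ≤ Z * Zd := mul_nonneg hK.Z0 hK.Zd0
  have key := path_chord hx (a := a) (u := u) (q := q) (P := fun b d => x b d * p b d)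
    (w := w) (ψ := fun b f => Real.exp (x b f * T') * Real.exp (x a f * t')) (z := z)
    (g := fun y => γ * Real.exp (y * ζ)) (r := fun y => y * (Z * Zd))
    (p := fun _ y => Pc y / 4) (lam := lm) (C := lam) (Φ2 := W)
    u0 q0 (fun b d => mul_nonneg (n0 b d) (p0 b d)) hK.w0
    (fun b f => mul_nonneg (Real.exp_pos _).le (Real.exp_pos _).le) hK.z0 hlm hE.l0 hK.W0
    (fun y _ _ => mul_nonneg hγ (Real.exp_pos _).le)
    (fun y hy _ => mul_nonneg hy hZZ)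
    (fun _ y h0 h1 => div_nonneg (Pc0 y ⟨h0, h1⟩) (by norm_num))
    hK.w ?_ ?_ ?_ ?_ ?_
  · have i1 : ∑ b ∈ ({a} : Finset V)ᶜ, u b ^ 2 *
          ∑ d ∈ ({a, b} : Finset V)ᶜ, x b d * (γ * Real.exp (x b d * ζ)
            * (Pc (x b d) / 4)) * (1 - x a b - x b d)
        ≤ (γ * Am / 4) * ∑ b ∈ ({a} : Finset V)ᶜ, u b ^ 2 * (1 - x a b) := by
      rw [Finset.mul_sum]
      refine Finset.sum_le_sum fun b hb => ?_
      have c0 : 0 ≤ γ / 4 := by positivity
      have r := hx.row2 (Ne.symm (B39.mem1 hb))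
      have i3 : ∑ d ∈ ({a, b} : Finset V)ᶜ, x b d * (γ * Real.exp (x b d * ζ)
            * (Pc (x b d) / 4)) * (1 - x a b - x b d)
          ≤ ∑ d ∈ ({a, b} : Finset V)ᶜ, x b d * (γ / 4 * Am) := by
        refine Finset.sum_le_sum fun d _ => ?_
        have hm : x b d ∈ Set.Icc (0 : ℝ) 1 := ⟨n0 b d, x1 b d⟩
        have h5 := PcA (x b d) hm
        have h7 : Pc (x b d) * Real.exp (x b d * ζ) * (1 - x a b - x b d) ≤ Am := by
          refine le_trans ?_ h5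
          exact mul_le_mul_of_nonneg_left (by linarith [n0 a b])
            (mul_nonneg (Pc0 _ hm) (Real.exp_pos _).le)
        calc _ = x b d * (γ / 4 * (Pc (x b d) * Real.exp (x b d * ζ)
              * (1 - x a b - x b d))) := by ring
          _ ≤ _ := mul_le_mul_of_nonneg_left (mul_le_mul_of_nonneg_left h7 c0) (n0 b d)
      have i4 : ∑ d ∈ ({a, b} : Finset V)ᶜ, x b d * (γ / 4 * Am)
          ≤ (1 - x a b) * (γ / 4 * Am) := by
        rw [← Finset.sum_mul]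
        exact mul_le_mul_of_nonneg_right r (mul_nonneg c0 hA0)
      calc _ ≤ u b ^ 2 * ((1 - x a b) * (γ / 4 * Am)) :=
            mul_le_mul_of_nonneg_left (i3.trans i4) (sq_nonneg _)
        _ = _ := by ring
    have i2 : ∑ e ∈ ({a} : Finset V)ᶜ, q e ^ 2 *
          ∑ f ∈ ({a, e} : Finset V)ᶜ, x e f * (γ * Real.exp (x e f * ζ)
            * (x e f * (Z * Zd))) * (1 - x a e - x e f)
        ≤ (γ * ν * Z * Zd) * ∑ e ∈ ({a} : Finset V)ᶜ, q e ^ 2 * (1 - x a e) := by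
      rw [Finset.mul_sum]
      refine Finset.sum_le_sum fun e he => ?_
      have r := hx.row2 (Ne.symm (B39.mem1 he))
      have c0 : 0 ≤ γ * (Z * Zd) := mul_nonneg hγ hZZ
      have i3 : ∑ f ∈ ({a, e} : Finset V)ᶜ, x e f * (γ * Real.exp (x e f * ζ)
            * (x e f * (Z * Zd))) * (1 - x a e - x e f)
          ≤ ∑ f ∈ ({a, e} : Finset V)ᶜ, x e f * (γ * (Z * Zd) * ν) := by
        refine Finset.sum_le_sum fun f _ => ?_
        have h5 := hE.ν (x e f) ⟨n0 e f, x1 e f⟩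
        have h7 : x e f * Real.exp (x e f * ζ) * (1 - x a e - x e f) ≤ ν := by
          refine le_trans ?_ h5
          rw [mul_assoc (x e f) (1 - x e f), mul_comm (1 - x e f), ← mul_assoc]
          exact mul_le_mul_of_nonneg_left (by linarith [n0 a e])
            (mul_nonneg (n0 e f) (Real.exp_pos _).le)
        calc _ = x e f * (γ * (Z * Zd) * (x e f * Real.exp (x e f * ζ)
              * (1 - x a e - x e f))) := by ring
          _ ≤ _ := mul_le_mul_of_nonneg_left (mul_le_mul_of_nonneg_left h7 c0) (n0 e f)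
      have i4 : ∑ f ∈ ({a, e} : Finset V)ᶜ, x e f * (γ * (Z * Zd) * ν)
          ≤ (1 - x a e) * (γ * (Z * Zd) * ν) := by
        rw [← Finset.sum_mul]
        exact mul_le_mul_of_nonneg_right r (mul_nonneg c0 hE.n0)
      calc _ ≤ q e ^ 2 * ((1 - x a e) * (γ * (Z * Zd) * ν)) :=
            mul_le_mul_of_nonneg_left (i3.trans i4) (sq_nonneg _)
        _ = _ := by ring
    have c1 : 0 ≤ lm / 2 * (lam * W ^ 2) :=
      mul_nonneg (by positivity) (mul_nonneg hE.l0 (sq_nonneg _))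
    have c2 : 0 ≤ 1 / (2 * lm) := by positivity
    have j1 := mul_le_mul_of_nonneg_left i1 c1
    have j2 := mul_le_mul_of_nonneg_left i2 c2
    refine key.trans ((add_le_add j1 j2).trans (le_of_eq ?_))
    field_simp
  · -- hψ
    intro b e f hbe hef hbf
    have h5 := Finset.sum_le_univ_sum_of_nonneg (s := ({a, b, e} : Finset V))
      (f := fun e => x f e) fun e => n0 f e
    rw [sum_three (fun e => x f e) hbe.1.symm hbe.2.1.symm hbe.2.2] at h5
    have h6 := hx.row f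
    rw [hx.symm f a, hx.symm f b, hx.symm f e] at h5
    have e1 : (Real.exp (x b f * T') * Real.exp (x a f * t')) ^ 2
        = Real.exp (2 * x b f * T' + 2 * x a f * t') := by
      rw [pow_two, ← Real.exp_add, ← Real.exp_add]; congr 1; ring
    rw [e1]
    refine exp_m_le hE.lam (n0 e f) (n0 b f) (n0 a f) (by linarith) ?_
    have i1 := mul_nonneg (n0 a f) (sub_nonneg.2 hE.tT)
    linarith
  · -- hP
    intro b d hD
    have hv0 := n0 b d
    have h3 := hp b d hD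
    have h5 : 4 * x b d * (1 - x b d - x a d) ≤ (1 - x a d) ^ 2 := by
      have := sq_nonneg (1 - x a d - 2 * x b d)
      linarith [show (1 - x a d) ^ 2 - 4 * x b d * (1 - x b d - x a d)
        = (1 - x a d - 2 * x b d) ^ 2 by ring]
    have h6 : p b d ^ 2 * (4 * x b d * (1 - x b d - x a d)) ≤ Pc (x b d) := by
      refine le_trans (mul_le_mul_of_nonneg_left h5 (sq_nonneg _)) ?_
      calc p b d ^ 2 * (1 - x a d) ^ 2 = (p b d * (1 - x a d)) ^ 2 := by ring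
        _ ≤ _ := h3
    calc (x b d * p b d) ^ 2 * (1 - x b d - x a d)
        = x b d * (1 / 4) * (p b d ^ 2 * (4 * x b d * (1 - x b d - x a d))) := by ring
      _ ≤ x b d * (1 / 4) * Pc (x b d) :=
          mul_le_mul_of_nonneg_left h6 (by positivity)
      _ = _ := by ring
  · -- hz
    intro e f _
    have hy := n0 e f
    have z1 := hK.z f e
    have z2 := hK.zd f e
    rw [hx.symm f e] at z1 z2
    calc z f e ^ 2 * (1 - x e f) = z f e * (z f e * (1 - x e f)) := by ring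
      _ ≤ (Z * x e f) * (Zd * x e f) :=
          mul_le_mul z1 z2 (mul_nonneg (hK.z0 f e) (sub_nonneg.2 (x1 e f)))
            (mul_nonneg hK.Z0 hy)
      _ = _ := by ring
  · -- ordp
    intro b y z hz0 hzy _
    refine ⟨mul_le_mul_of_nonneg_left (Real.exp_le_exp.2
      (mul_le_mul_of_nonneg_right hzy hE.ζ0)) hγ, ?_⟩
    have := Pcm y ⟨hz0.trans hzy, by linarith⟩ z ⟨hz0, by linarith⟩ hzy
    linarith
  · -- ordr
    intro y z hz0 hzy _
    exact mul_le_mul_of_nonneg_right hzy hZZ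

/-- **the one-step paths** (direct hazard of the pair `d`, `e`) -/
theorem ab_dir {x : V → V → ℝ} (hx : Wg x) {a : V} {u q : V → ℝ} {p z : V → V → ℝ}
    {Zd Z Am σ : ℝ} (z0 : ∀ d e, 0 ≤ z d e) (Z0 : 0 ≤ Z) (Zd0 : 0 ≤ Zd)
    (hz : ∀ d e, z d e ≤ Z * x d e) (hzd : ∀ d e, z d e * (1 - x d e) ≤ Zd * x d e) (hσ : 0 < σ)
    (hA0 : 0 ≤ Am)
    (u0 : ∀ b, 0 ≤ u b) (q0 : ∀ e, 0 ≤ q e) (p0 : ∀ b d, 0 ≤ p b d)
    (hp : ∀ b d, D3 a b d → (p b d * (1 - x a d)) ^ 2 * (1 - x b d) ≤ Am) :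
    ∑ b ∈ ({a} : Finset V)ᶜ, ∑ d ∈ ({a, b} : Finset V)ᶜ, ∑ e ∈ ({a, b, d} : Finset V)ᶜ,
        u b * (x b d * p b d) * z d e * q e
      ≤ 1 / 2 * (σ * Am * Z) * ∑ b ∈ ({a} : Finset V)ᶜ, u b ^ 2 * (1 - x a b)
        + 1 / 2 * (Zd / σ) * ∑ e ∈ ({a} : Finset V)ᶜ, q e ^ 2 * (1 - x a e) := by
  have n0 := hx.nn
  have x1 := hx.le_one
  have key := path_one hx (a := a) (u := u) (q := q) (P := fun b d => x b d * p b d)
    (PI := fun b d => x b d * p b d ^ 2 * (1 - x a d) * σ)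
    (PII := fun b d => x b d * ((1 - x a d)⁻¹ * σ⁻¹)) (z := z)
    (Ψ := fun d => (1 - x a d)⁻¹ * σ⁻¹) (Φz := Z)
    (LI := fun b d => x b d * (σ * Am * Z))
    (LII := fun e f => x e f * (Zd / σ))
    u0 q0 (fun b d => mul_nonneg (n0 b d) (p0 b d))
    (fun b d => mul_nonneg (mul_nonneg (mul_nonneg (n0 b d) (sq_nonneg _))
      (sub_nonneg.2 (x1 a d))) hσ.le)
    (fun b d => mul_nonneg (n0 b d) (mul_nonneg (inv_nonneg.2 (sub_nonneg.2 (x1 a d)))
      (inv_nonneg.2 hσ.le)))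
    z0 (fun d => mul_nonneg (inv_nonneg.2 (sub_nonneg.2 (x1 a d))) (inv_nonneg.2 hσ.le))
    Z0 ?_ ?_ ?_ ?_ ?_
  · have i1 : ∑ b ∈ ({a} : Finset V)ᶜ, u b ^ 2 * ∑ d ∈ ({a, b} : Finset V)ᶜ,
        x b d * (σ * Am * Z)
        ≤ (σ * Am * Z) * ∑ b ∈ ({a} : Finset V)ᶜ, u b ^ 2 * (1 - x a b) := by
      rw [Finset.mul_sum]
      refine Finset.sum_le_sum fun b hb => ?_
      rw [← Finset.sum_mul]
      have r := hx.row2 (Ne.symm (B39.mem1 hb))
      have c0 : 0 ≤ σ * Am * Z := mul_nonneg (mul_nonneg hσ.le hA0) Z0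
      calc u b ^ 2 * ((∑ d ∈ ({a, b} : Finset V)ᶜ, x b d) * (σ * Am * Z))
          ≤ u b ^ 2 * ((1 - x a b) * (σ * Am * Z)) :=
            mul_le_mul_of_nonneg_left (mul_le_mul_of_nonneg_right r c0) (sq_nonneg _)
        _ = _ := by ring
    have i2 : ∑ e ∈ ({a} : Finset V)ᶜ, q e ^ 2 * ∑ f ∈ ({a, e} : Finset V)ᶜ,
        x e f * (Zd / σ)
        ≤ (Zd / σ) * ∑ e ∈ ({a} : Finset V)ᶜ, q e ^ 2 * (1 - x a e) := by
      rw [Finset.mul_sum]
      refine Finset.sum_le_sum fun b hb => ?_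
      rw [← Finset.sum_mul]
      have r := hx.row2 (Ne.symm (B39.mem1 hb))
      have c0 : 0 ≤ Zd / σ := div_nonneg Zd0 hσ.le
      calc q b ^ 2 * ((∑ d ∈ ({a, b} : Finset V)ᶜ, x b d) * (Zd / σ))
          ≤ q b ^ 2 * ((1 - x a b) * (Zd / σ)) :=
            mul_le_mul_of_nonneg_left (mul_le_mul_of_nonneg_right r c0) (sq_nonneg _)
        _ = _ := by ring
    linarith
  · -- hP
    intro b d hD
    rcases eq_or_lt_of_le (x1 a d) with h | h
    · have h1 : x b d = 0 := by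
        have := hx.two_le (a := d) (b := a) (d := b) hD.1.symm
        rw [hx.symm d a, hx.symm d b, h] at this
        exact le_antisymm (by linarith) (n0 b d)
      simp [h1]
    · have h2 : (1 - x a d) * (1 - x a d)⁻¹ = 1 := mul_inv_cancel₀ (by linarith)
      have h3 : σ * σ⁻¹ = 1 := mul_inv_cancel₀ hσ.ne'
      refine le_of_eq ?_
      calc (x b d * p b d) ^ 2 = x b d * p b d ^ 2 * x b d * 1 * 1 := by ring
        _ = x b d * p b d ^ 2 * x b d * ((1 - x a d) * (1 - x a d)⁻¹) * (σ * σ⁻¹) := by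
            rw [h2, h3]
        _ = _ := by ring
  · -- h1
    intro d e _
    exact hz d e
  · -- h3
    intro b d hD
    have hv0 := n0 b d
    have hw0 := n0 a d
    have h3 := hp b d hD
    have h4 : (1 - x a d) * (1 - x b d - x a d) ≤ (1 - x a d) ^ 2 * (1 - x b d) := by
      have : 1 - x b d - x a d ≤ (1 - x a d) * (1 - x b d) := by nlinarith [mul_nonneg hv0 hw0]
      calc (1 - x a d) * (1 - x b d - x a d) ≤ (1 - x a d) * ((1 - x a d) * (1 - x b d)) :=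
            mul_le_mul_of_nonneg_left this (sub_nonneg.2 (x1 a d))
        _ = _ := by ring
    calc x b d * p b d ^ 2 * (1 - x a d) * σ * Z * (1 - x b d - x a d)
        = x b d * σ * Z * (p b d ^ 2 * ((1 - x a d) * (1 - x b d - x a d))) := by ring
      _ ≤ x b d * σ * Z * (p b d ^ 2 * ((1 - x a d) ^ 2 * (1 - x b d))) :=
          mul_le_mul_of_nonneg_left (mul_le_mul_of_nonneg_left h4 (sq_nonneg _))
            (mul_nonneg (mul_nonneg hv0 hσ.le) Z0)
      _ = x b d * σ * Z * ((p b d * (1 - x a d)) ^ 2 * (1 - x b d)) := by ring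
      _ ≤ x b d * σ * Z * Am :=
          mul_le_mul_of_nonneg_left h3 (mul_nonneg (mul_nonneg hv0 hσ.le) Z0)
      _ = _ := by ring
  · -- k1
    intro b d _
    refine le_of_eq ?_
    ring
  · -- k3
    intro e d hD
    have hv0 := n0 e d
    have hw0 := n0 a d
    have s0 : 0 ≤ σ⁻¹ := inv_nonneg.2 hσ.le
    rcases eq_or_lt_of_le (x1 a d) with h | h
    · rw [h, sub_self, inv_zero, zero_mul, mul_zero, zero_mul]
      exact mul_nonneg hv0 (div_nonneg Zd0 hσ.le)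
    · have h2 : (1 - x a d)⁻¹ * (1 - x e d - x a d) ≤ 1 - x e d := by
        rw [inv_mul_le_iff₀ (by linarith)]
        nlinarith [mul_nonneg hv0 hw0]
      have h3 := hzd d e
      rw [hx.symm d e] at h3
      calc z d e * ((1 - x a d)⁻¹ * σ⁻¹) * (1 - x e d - x a d)
          = z d e * σ⁻¹ * ((1 - x a d)⁻¹ * (1 - x e d - x a d)) := by ring
        _ ≤ z d e * σ⁻¹ * (1 - x e d) :=
            mul_le_mul_of_nonneg_left h2 (mul_nonneg (z0 d e) s0)
        _ = σ⁻¹ * (z d e * (1 - x e d)) := by ring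
        _ ≤ σ⁻¹ * (Zd * x e d) := mul_le_mul_of_nonneg_left h3 s0
        _ = x e d * (Zd / σ) := by rw [div_eq_mul_inv]; ring

/-- **general pair functions**: side I row sums over `e`, side II a majorant free of `b` -/
theorem ab_gen {x : V → V → ℝ} (hx : Wg x) {a : V} {u q : V → ℝ} {p : V → V → ℝ}
    {M : V → V → V → ℝ} {Ms : V → V → ℝ} {rI rII σ : ℝ} (M0 : ∀ b d e, 0 ≤ M b d e)
    (rI0 : 0 ≤ rI) (hσ : 0 < σ)
    (hI : ∀ b d, D3 a b d → p b d ^ 2 * (1 - x a d)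
      * ∑ e ∈ ({a, b, d} : Finset V)ᶜ, M b d e ≤ rI)
    (hMs : ∀ b d e, D3 a b d → D3 a d e → b ≠ e → M b d e ≤ Ms d e) (Ms0 : ∀ d e, 0 ≤ Ms d e)
    (hII : ∀ e, e ≠ a → ∑ d ∈ ({a, e} : Finset V)ᶜ, Ms d e ≤ rII * (1 - x a e)) :
    ∑ b ∈ ({a} : Finset V)ᶜ, ∑ d ∈ ({a, b} : Finset V)ᶜ, ∑ e ∈ ({a, b, d} : Finset V)ᶜ,
        u b * (x b d * p b d) * M b d e * q e
      ≤ 1 / 2 * (σ * rI) * ∑ b ∈ ({a} : Finset V)ᶜ, u b ^ 2 * (1 - x a b)
        + 1 / 2 * (rII / σ) * ∑ e ∈ ({a} : Finset V)ᶜ, q e ^ 2 * (1 - x a e) := by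
  have n0 := hx.nn
  have x1 := hx.le_one
  have s0 : 0 ≤ σ⁻¹ := inv_nonneg.2 hσ.le
  -- pointwise
  have am : ∀ b d e, D3 a b d → u b * (x b d * p b d) * M b d e * q e
      ≤ 1 / 2 * (u b ^ 2 * (x b d * p b d ^ 2 * (1 - x a d) * σ) * M b d e)
        + 1 / 2 * (q e ^ 2 * (x b d * ((1 - x a d)⁻¹ * σ⁻¹)) * M b d e) := by
    intro b d e hD
    rcases eq_or_lt_of_le (x1 a d) with h | h
    · have h1 : x b d = 0 := by
        have := hx.two_le (a := d) (b := a) (d := b) hD.1.symm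
        rw [hx.symm d a, hx.symm d b, h] at this
        exact le_antisymm (by linarith) (n0 b d)
      simp [h1]
    · have hw : 0 < 1 - x a d := by linarith
      have i1 : u b * p b d * q e
          ≤ 1 / 2 * (u b ^ 2 * (p b d ^ 2 * (1 - x a d) * σ))
            + 1 / 2 * (q e ^ 2 * ((1 - x a d)⁻¹ * σ⁻¹)) := by
        refine am_two (mul_nonneg (sq_nonneg _) (mul_nonneg (mul_nonneg (sq_nonneg _) hw.le)
          hσ.le)) (mul_nonneg (sq_nonneg _) (mul_nonneg (inv_nonneg.2 hw.le) s0)) ?_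
        refine le_of_eq ?_
        have h2 : (1 - x a d) * (1 - x a d)⁻¹ = 1 := mul_inv_cancel₀ hw.ne'
        have h3 : σ * σ⁻¹ = 1 := mul_inv_cancel₀ hσ.ne'
        calc (u b * p b d * q e) ^ 2 = u b ^ 2 * p b d ^ 2 * q e ^ 2 * 1 * 1 := by ring
          _ = u b ^ 2 * p b d ^ 2 * q e ^ 2 * ((1 - x a d) * (1 - x a d)⁻¹) * (σ * σ⁻¹) := by
              rw [h2, h3]
          _ = _ := by ring
      have := mul_le_mul_of_nonneg_left i1 (mul_nonneg (n0 b d) (M0 b d e))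
      calc _ = x b d * M b d e * (u b * p b d * q e) := by ring
        _ ≤ _ := this
        _ = _ := by ring
  have step : ∑ b ∈ ({a} : Finset V)ᶜ, ∑ d ∈ ({a, b} : Finset V)ᶜ,
        ∑ e ∈ ({a, b, d} : Finset V)ᶜ, u b * (x b d * p b d) * M b d e * q e
      ≤ 1 / 2 * (∑ b ∈ ({a} : Finset V)ᶜ, ∑ d ∈ ({a, b} : Finset V)ᶜ,
          ∑ e ∈ ({a, b, d} : Finset V)ᶜ,
            u b ^ 2 * (x b d * p b d ^ 2 * (1 - x a d) * σ) * M b d e)
        + 1 / 2 * (∑ b ∈ ({a} : Finset V)ᶜ, ∑ d ∈ ({a, b} : Finset V)ᶜ,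
          ∑ e ∈ ({a, b, d} : Finset V)ᶜ,
            q e ^ 2 * (x b d * ((1 - x a d)⁻¹ * σ⁻¹)) * M b d e) := by
    simp only [Finset.mul_sum, ← Finset.sum_add_distrib]
    exact Finset.sum_le_sum fun b hb => Finset.sum_le_sum fun d hd =>
      Finset.sum_le_sum fun e _ => am b d e (B39.mem2 hb hd)
  -- side I
  have e1 : ∑ b ∈ ({a} : Finset V)ᶜ, ∑ d ∈ ({a, b} : Finset V)ᶜ,
        ∑ e ∈ ({a, b, d} : Finset V)ᶜ,
            u b ^ 2 * (x b d * p b d ^ 2 * (1 - x a d) * σ) * M b d e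
      ≤ (σ * rI) * ∑ b ∈ ({a} : Finset V)ᶜ, u b ^ 2 * (1 - x a b) := by
    rw [Finset.mul_sum]
    refine Finset.sum_le_sum fun b hb => ?_
    have r := hx.row2 (Ne.symm (B39.mem1 hb))
    have c0 : 0 ≤ σ * rI := mul_nonneg hσ.le rI0
    have i3 : ∑ d ∈ ({a, b} : Finset V)ᶜ, ∑ e ∈ ({a, b, d} : Finset V)ᶜ,
            u b ^ 2 * (x b d * p b d ^ 2 * (1 - x a d) * σ) * M b d e
        ≤ ∑ d ∈ ({a, b} : Finset V)ᶜ, x b d * (u b ^ 2 * (σ * rI)) := by
      refine Finset.sum_le_sum fun d hd => ?_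
      have hD := B39.mem2 hb hd
      rw [← Finset.mul_sum]
      calc _ = u b ^ 2 * x b d * σ * (p b d ^ 2 * (1 - x a d)
              * ∑ e ∈ ({a, b, d} : Finset V)ᶜ, M b d e) := by ring
        _ ≤ u b ^ 2 * x b d * σ * rI :=
            mul_le_mul_of_nonneg_left (hI b d hD) (mul_nonneg (mul_nonneg
              (sq_nonneg _) (n0 b d)) hσ.le)
        _ = _ := by ring
    refine i3.trans ?_
    rw [← Finset.sum_mul]
    calc (∑ d ∈ ({a, b} : Finset V)ᶜ, x b d) * (u b ^ 2 * (σ * rI))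
        ≤ (1 - x a b) * (u b ^ 2 * (σ * rI)) :=
          mul_le_mul_of_nonneg_right r (mul_nonneg (sq_nonneg _) c0)
      _ = _ := by ring
  -- side II
  have e2 : ∑ b ∈ ({a} : Finset V)ᶜ, ∑ d ∈ ({a, b} : Finset V)ᶜ,
        ∑ e ∈ ({a, b, d} : Finset V)ᶜ,
            q e ^ 2 * (x b d * ((1 - x a d)⁻¹ * σ⁻¹)) * M b d e
      ≤ (rII / σ) * ∑ e ∈ ({a} : Finset V)ᶜ, q e ^ 2 * (1 - x a e) := by
    rw [B39.swap3 a (fun b d e => q e ^ 2 * (x b d * ((1 - x a d)⁻¹ * σ⁻¹)) * M b d e),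
      Finset.mul_sum]
    refine Finset.sum_le_sum fun e he => ?_
    have hea := B39.mem1 he
    have i3 : ∑ d ∈ ({a, e} : Finset V)ᶜ, ∑ b ∈ ({a, e, d} : Finset V)ᶜ,
            q e ^ 2 * (x b d * ((1 - x a d)⁻¹ * σ⁻¹)) * M b d e
        ≤ ∑ d ∈ ({a, e} : Finset V)ᶜ, q e ^ 2 * σ⁻¹ * Ms d e := by
      refine Finset.sum_le_sum fun d hd => ?_
      have hD := B39.mem2 he hd
      have hM0 := Ms0 d e
      have i4 : ∑ b ∈ ({a, e, d} : Finset V)ᶜ, x b d ≤ 1 - x a d := by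
        have h1 := Finset.sum_le_univ_sum_of_nonneg (s := insert a (({a, e, d} : Finset V)ᶜ))
          (f := fun b => x d b) fun b => n0 d b
        rw [Finset.sum_insert (by simp)] at h1
        have h2 := hx.row d
        rw [hx.symm a d]
        have h3 : ∑ b ∈ ({a, e, d} : Finset V)ᶜ, x b d
            = ∑ b ∈ ({a, e, d} : Finset V)ᶜ, x d b :=
          Finset.sum_congr rfl fun b _ => hx.symm b d
        rw [h3]
        linarith
      calc ∑ b ∈ ({a, e, d} : Finset V)ᶜ,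
            q e ^ 2 * (x b d * ((1 - x a d)⁻¹ * σ⁻¹)) * M b d e
          ≤ ∑ b ∈ ({a, e, d} : Finset V)ᶜ,
            x b d * (q e ^ 2 * ((1 - x a d)⁻¹ * σ⁻¹) * Ms d e) := by
            refine Finset.sum_le_sum fun b hb => ?_
            obtain ⟨g1, g2, g3⟩ := B39.mem3 hb
            have h5 := hMs b d e ⟨g1, hD.2.1, g3⟩ ⟨hD.2.1, hD.1, hD.2.2.symm⟩ g2
            have h6 : 0 ≤ q e ^ 2 * (x b d * ((1 - x a d)⁻¹ * σ⁻¹)) :=
              mul_nonneg (sq_nonneg _) (mul_nonneg (n0 b d)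
                (mul_nonneg (inv_nonneg.2 (sub_nonneg.2 (x1 a d))) s0))
            calc _ ≤ q e ^ 2 * (x b d * ((1 - x a d)⁻¹ * σ⁻¹)) * Ms d e :=
                  mul_le_mul_of_nonneg_left h5 h6
              _ = _ := by ring
        _ = (∑ b ∈ ({a, e, d} : Finset V)ᶜ, x b d)
              * (q e ^ 2 * ((1 - x a d)⁻¹ * σ⁻¹) * Ms d e) := by rw [Finset.sum_mul]
        _ ≤ (1 - x a d) * (q e ^ 2 * ((1 - x a d)⁻¹ * σ⁻¹) * Ms d e) :=
            mul_le_mul_of_nonneg_right i4 (mul_nonneg (mul_nonneg (sq_nonneg _)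
              (mul_nonneg (inv_nonneg.2 (sub_nonneg.2 (x1 a d))) s0)) hM0)
        _ = ((1 - x a d) * (1 - x a d)⁻¹) * (q e ^ 2 * σ⁻¹ * Ms d e) := by ring
        _ ≤ 1 * (q e ^ 2 * σ⁻¹ * Ms d e) := by
            refine mul_le_mul_of_nonneg_right ?_ (mul_nonneg (mul_nonneg (sq_nonneg _) s0) hM0)
            by_cases h0 : 1 - x a d = 0
            · rw [h0, zero_mul]; exact zero_le_one
            · rw [mul_inv_cancel₀ h0]
        _ = _ := one_mul _
    refine i3.trans ?_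
    rw [← Finset.mul_sum]
    calc q e ^ 2 * σ⁻¹ * ∑ d ∈ ({a, e} : Finset V)ᶜ, Ms d e
        ≤ q e ^ 2 * σ⁻¹ * (rII * (1 - x a e)) :=
          mul_le_mul_of_nonneg_left (hII e hea) (mul_nonneg (sq_nonneg _) s0)
      _ = _ := by rw [div_eq_mul_inv]; ring
  refine step.trans ?_
  have j1 := mul_le_mul_of_nonneg_left e1 (show (0 : ℝ) ≤ 1 / 2 by norm_num)
  have j2 := mul_le_mul_of_nonneg_left e2 (show (0 : ℝ) ≤ 1 / 2 by norm_num)
  linarith

end Pool.Agent.RX.RCM.Gr
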