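import Pool.Agent.RX.RCM.GrT

/-! The factors of the common neighbours (MP_73ccd0_lc, route M). -/

namespace Pool.Agent.RX.RCM.Gr

open Finset

variable {V : Type*} [Fintype V] [DecidableEq V]

/-- common neighbours of `a` and `b` -/
noncomputable def chi (y : V → V → ℝ) (a b : V) : ℝ :=
  ∑ e ∈ ({a, b} : Finset V)ᶜ, y b e * y a e

/-- the factor of the mass of the fluxes -/
noncomputable def mfac (y : V → V → ℝ) (t : ℝ) (a b : V) : ℝ := (1 - y a b) + t * chi y a b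

/-- the factor of the weights -/
noncomputable def wfac (y : V → V → ℝ) (t ρ : ℝ) (a b : V) : ℝ :=
  1 + ρ * max 0 (mfac y t a b - 1)

variable {y : V → V → ℝ}

theorem chi_nonneg (hy : Wg y) (a b : V) : 0 ≤ chi y a b :=
  Finset.sum_nonneg fun e _ => mul_nonneg (hy.nn b e) (hy.nn a e)

theorem chi_half (hy : Wg y) {a b : V} (hab : a ≠ b) : chi y a b ≤ (1 - y a b) / 2 := by
  have h1 : chi y a b ≤ ∑ e ∈ ({a, b} : Finset V)ᶜ, (y b e + y a e) / 4 := by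
    refine Finset.sum_le_sum fun e he => ?_
    have hab2 : y b e + y a e ≤ 1 := by
      have := hy.two_le (a := e) (b := b) (d := a) hab.symm
      rw [hy.symm e b, hy.symm e a] at this
      exact this
    have h0 := add_nonneg (hy.nn b e) (hy.nn a e)
    nlinarith [sq_nonneg (y b e - y a e)]
  refine h1.trans ?_
  have r1 := hy.row2 hab
  have r2 := hy.row2 hab.symm
  rw [Finset.pair_comm b a, hy.symm b a] at r2
  rw [← Finset.sum_div, Finset.sum_add_distrib]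
  linarith

theorem mfac_nonneg (hy : Wg y) {a b : V} {t : ℝ} (ht : 0 ≤ t) : 0 ≤ mfac y t a b :=
  add_nonneg (sub_nonneg.2 (hy.le_one a b)) (mul_nonneg ht (chi_nonneg hy a b))

/-- the square of the mass factor -/
theorem mfac_sq (hy : Wg y) {a b : V} (hab : a ≠ b) {t : ℝ} (ht : 0 ≤ t) :
    mfac y t a b ^ 2 ≤ (1 - y a b) ^ 2 + (2 * t + t ^ 2 / 2) * ((1 - y a b) * chi y a b) := by
  have h1 := chi_half hy hab
  have h0 := chi_nonneg hy a b
  have h2 : t ^ 2 * (chi y a b * chi y a b) ≤ t ^ 2 * (chi y a b * ((1 - y a b) / 2)) :=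
    mul_le_mul_of_nonneg_left (mul_le_mul_of_nonneg_left h1 h0) (sq_nonneg t)
  unfold mfac
  nlinarith [h2]

/-- the square of the weight factor -/
theorem wfac_sq (hy : Wg y) {a b : V} (hab : a ≠ b) {t ρ : ℝ} (ht : 0 ≤ t) (h0 : 0 ≤ ρ)
    (h1 : ρ ≤ 1) : wfac y t ρ a b ^ 2
      ≤ 1 + ρ * ((2 * t + t ^ 2 / 2) * ((1 - y a b) * chi y a b)) := by
  have hc := chi_nonneg hy a b
  have hu := sub_nonneg.2 (hy.le_one a b)
  have hu1 := hy.nn a b
  have hC : 0 ≤ 2 * t + t ^ 2 / 2 := by positivity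
  have hx : 0 ≤ ρ * ((2 * t + t ^ 2 / 2) * ((1 - y a b) * chi y a b)) :=
    mul_nonneg h0 (mul_nonneg hC (mul_nonneg hu hc))
  unfold wfac
  rcases le_total (mfac y t a b - 1) 0 with h | h
  · rw [max_eq_left h, mul_zero, add_zero]
    linarith
  · rw [max_eq_right h]
    have h2 := mfac_sq hy hab ht
    set m := mfac y t a b with hm
    have h3 : (1 + ρ * (m - 1)) ^ 2 ≤ 1 + ρ * (m ^ 2 - 1) := by
      have h4 : 0 ≤ ρ * ((1 - ρ) * (m - 1) ^ 2) :=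
        mul_nonneg h0 (mul_nonneg (sub_nonneg.2 h1) (sq_nonneg _))
      nlinarith [h4]
    have h5 : m ^ 2 - 1 ≤ (2 * t + t ^ 2 / 2) * ((1 - y a b) * chi y a b) := by
      nlinarith [h2]
    have h6 := mul_le_mul_of_nonneg_left h5 h0
    linarith

theorem one_le_wfac {a b : V} {t ρ : ℝ} (h0 : 0 ≤ ρ) : 1 ≤ wfac y t ρ a b := by
  unfold wfac
  have := mul_nonneg h0 (le_max_left 0 (mfac y t a b - 1))
  linarith

theorem ord_F {y z : ℝ} (hz : 0 ≤ z) (hzy : z ≤ y) (h1 : y + z ≤ 1) :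
    z ^ 2 * (1 - z) ^ 2 ≤ y ^ 2 * (1 - y) ^ 2 := by
  have h2 : z * (1 - z) ≤ y * (1 - y) := by nlinarith
  have h3 : 0 ≤ z * (1 - z) := mul_nonneg hz (by linarith)
  have := pow_le_pow_left₀ h3 h2 2
  nlinarith [this]

/-- the sum of the common neighbours -/
theorem chi_sum (hy : Wg y) (a : V) :
    ∑ b ∈ ({a} : Finset V)ᶜ, y a b ^ 2 * (1 - y a b) * ((1 - y a b) * chi y a b)
      ≤ ∑ b ∈ ({a} : Finset V)ᶜ, y a b ^ 2 * (1 - y a b) * (y a b * (1 - y a b) ^ 2) := by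
  have h := chi_le hy (a := a) (F := fun z => (1 - z) ^ 2) (fun z _ _ => sq_nonneg _)
    (fun u z hz hzu h1 => ord_F hz hzu h1)
  calc _ = ∑ b ∈ ({a} : Finset V)ᶜ, y a b ^ 2 * (1 - y a b) ^ 2
        * ∑ e ∈ ({a, b} : Finset V)ᶜ, y b e * y a e :=
        Finset.sum_congr rfl fun b _ => by unfold chi; ring
    _ ≤ _ := h
    _ = _ := Finset.sum_congr rfl fun b _ => by ring

theorem cub_le {z : ℝ} (h0 : 0 ≤ z) : z * (1 - z) ^ 2 ≤ 4 / 27 ∨ 1 < z := by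
  by_cases h : z ≤ 1
  · left
    nlinarith [mul_nonneg (sq_nonneg (3 * z - 1)) (show (0 : ℝ) ≤ 4 - 3 * z by linarith)]
  · right
    exact not_le.1 h

/-- **the weights with the factor `wfac`** -/
theorem wfac_sum (hy : Wg y) (a : V) {t ρ : ℝ} (ht : 0 ≤ t) (h0 : 0 ≤ ρ) (h1 : ρ ≤ 1) :
    ∑ b ∈ ({a} : Finset V)ᶜ, (y a b * wfac y t ρ a b) ^ 2 * (1 - y a b)
      ≤ (1 + ρ * (4 / 27 * (2 * t + t ^ 2 / 2)))
        * ∑ b ∈ ({a} : Finset V)ᶜ, y a b ^ 2 * (1 - y a b) := by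
  have hC : 0 ≤ 2 * t + t ^ 2 / 2 := by positivity
  have s1 : ∑ b ∈ ({a} : Finset V)ᶜ, (y a b * wfac y t ρ a b) ^ 2 * (1 - y a b)
      ≤ ∑ b ∈ ({a} : Finset V)ᶜ, (y a b ^ 2 * (1 - y a b)
        + ρ * (2 * t + t ^ 2 / 2) * (y a b ^ 2 * (1 - y a b) * ((1 - y a b) * chi y a b))) := by
    refine Finset.sum_le_sum fun b hb => ?_
    have h2 := wfac_sq hy (Ne.symm (B39.mem1 hb)) ht h0 h1
    have h3 : 0 ≤ y a b ^ 2 * (1 - y a b) :=
      mul_nonneg (sq_nonneg _) (sub_nonneg.2 (hy.le_one a b))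
    calc _ = y a b ^ 2 * (1 - y a b) * wfac y t ρ a b ^ 2 := by ring
      _ ≤ y a b ^ 2 * (1 - y a b)
          * (1 + ρ * ((2 * t + t ^ 2 / 2) * ((1 - y a b) * chi y a b))) :=
          mul_le_mul_of_nonneg_left h2 h3
      _ = _ := by ring
  refine s1.trans ?_
  rw [Finset.sum_add_distrib, ← Finset.mul_sum]
  have s2 := mul_le_mul_of_nonneg_left (chi_sum hy a) (mul_nonneg h0 hC)
  have s3 : ∑ b ∈ ({a} : Finset V)ᶜ, y a b ^ 2 * (1 - y a b) * (y a b * (1 - y a b) ^ 2)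
      ≤ 4 / 27 * ∑ b ∈ ({a} : Finset V)ᶜ, y a b ^ 2 * (1 - y a b) := by
    rw [Finset.mul_sum]
    refine Finset.sum_le_sum fun b _ => ?_
    have h3 : 0 ≤ y a b ^ 2 * (1 - y a b) :=
      mul_nonneg (sq_nonneg _) (sub_nonneg.2 (hy.le_one a b))
    have h4 : y a b * (1 - y a b) ^ 2 ≤ 4 / 27 := by
      rcases cub_le (hy.nn a b) with h | h
      · exact h
      · exact absurd (hy.le_one a b) (not_le.2 h)
    calc _ ≤ y a b ^ 2 * (1 - y a b) * (4 / 27) := mul_le_mul_of_nonneg_left h4 h3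
      _ = _ := by ring
  have s4 := mul_le_mul_of_nonneg_left s3 (mul_nonneg h0 hC)
  linarith

/-- **the weights with the factor `mfac`** -/
theorem mfac_sum (hy : Wg y) (a : V) {t : ℝ} (ht : 0 ≤ t) (h2 : 2 * t + t ^ 2 / 2 ≤ 2) :
    ∑ b ∈ ({a} : Finset V)ᶜ, (y a b * mfac y t a b) ^ 2 * (1 - y a b)
      ≤ ∑ b ∈ ({a} : Finset V)ᶜ, y a b ^ 2 * (1 - y a b) := by
  have hC : 0 ≤ 2 * t + t ^ 2 / 2 := by positivity
  have s1 : ∑ b ∈ ({a} : Finset V)ᶜ, (y a b * mfac y t a b) ^ 2 * (1 - y a b)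
      ≤ ∑ b ∈ ({a} : Finset V)ᶜ, (y a b ^ 2 * (1 - y a b) * (1 - y a b) ^ 2
        + (2 * t + t ^ 2 / 2) * (y a b ^ 2 * (1 - y a b) * ((1 - y a b) * chi y a b))) := by
    refine Finset.sum_le_sum fun b hb => ?_
    have h2 := mfac_sq hy (Ne.symm (B39.mem1 hb)) ht
    have h3 : 0 ≤ y a b ^ 2 * (1 - y a b) :=
      mul_nonneg (sq_nonneg _) (sub_nonneg.2 (hy.le_one a b))
    calc _ = y a b ^ 2 * (1 - y a b) * mfac y t a b ^ 2 := by ring
      _ ≤ y a b ^ 2 * (1 - y a b)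
          * ((1 - y a b) ^ 2 + (2 * t + t ^ 2 / 2) * ((1 - y a b) * chi y a b)) :=
          mul_le_mul_of_nonneg_left h2 h3
      _ = _ := by ring
  refine s1.trans ?_
  rw [Finset.sum_add_distrib, ← Finset.mul_sum]
  have s2 := mul_le_mul_of_nonneg_left (chi_sum hy a) hC
  have s3 : ∑ b ∈ ({a} : Finset V)ᶜ, y a b ^ 2 * (1 - y a b) * (1 - y a b) ^ 2
      + (2 * t + t ^ 2 / 2) * ∑ b ∈ ({a} : Finset V)ᶜ,
        y a b ^ 2 * (1 - y a b) * (y a b * (1 - y a b) ^ 2)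
      ≤ ∑ b ∈ ({a} : Finset V)ᶜ, y a b ^ 2 * (1 - y a b) := by
    rw [Finset.mul_sum, ← Finset.sum_add_distrib]
    refine Finset.sum_le_sum fun b _ => ?_
    have h3 : 0 ≤ y a b ^ 2 * (1 - y a b) :=
      mul_nonneg (sq_nonneg _) (sub_nonneg.2 (hy.le_one a b))
    have u0 := hy.nn a b
    have u1 := hy.le_one a b
    have h4 : (1 - y a b) ^ 2 + (2 * t + t ^ 2 / 2) * (y a b * (1 - y a b) ^ 2) ≤ 1 := by
      have h5 : (2 * t + t ^ 2 / 2) * (y a b * (1 - y a b) ^ 2) ≤ 2 * (y a b * (1 - y a b) ^ 2) :=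
        mul_le_mul_of_nonneg_right h2 (mul_nonneg u0 (sq_nonneg _))
      nlinarith [mul_nonneg (mul_nonneg u0 u0) (sub_nonneg.2 u1), mul_nonneg u0 u0]
    calc _ = y a b ^ 2 * (1 - y a b) * ((1 - y a b) ^ 2
          + (2 * t + t ^ 2 / 2) * (y a b * (1 - y a b) ^ 2)) := by ring
      _ ≤ y a b ^ 2 * (1 - y a b) * 1 := mul_le_mul_of_nonneg_left h4 h3
      _ = _ := mul_one _
  linarith

end Pool.Agent.RX.RCM.Gr
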