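import Pool.Agent.RX.RCM.Half_1

/-! (C) and (Ct) from the closures in the deleted form (MP_73ccd0_lc, route M). -/

namespace Pool.Agent.RX.RCM

open Set Finset

set_option linter.unusedSectionVars false

variable {V : Type*} [Fintype V] [DecidableEq V]
variable {h : ℝ → V → V → ℝ} {H : V → V → ℝ → ℝ}

/-- insertion function of `e` for the target `c` on the set `X` -/
structure Ipt (h : ℝ → V → V → ℝ) (X : Finset V) (c e : V) (t : ℝ) (W : ℝ → V → V → ℝ)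
    (pt pt' : ℝ → ℝ) : Prop where
  d : ∀ r ∈ Icc 0 t, HasDerivAt pt (pt' r) r
  p0 : ∀ r ∈ Icc 0 t, 0 ≤ pt r
  p1 : ∀ r ∈ Icc 0 t, pt r < 1
  o : ∀ r ∈ Icc 0 t, -pt' r ≤ h r c e - (h r c e + ∑ b ∈ X.erase e, h r e b * W r e b) * pt r

/-- closure function of level 2 in the deleted form -/
structure Gk (h : ℝ → V → V → ℝ) (X : Finset V) (s : ℝ) (W : ℝ → V → V → ℝ)
    (pc nc pd nd : V → ℝ → ℝ) (k k' : ℝ → ℝ) : Prop where
  d : ∀ r ∈ Icc 0 s, HasDerivAt k (k' r) r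
  o : ∀ r ∈ Icc 0 s,
      (1 / 2) * ∑ x ∈ X, ∑ y ∈ X, h r x y * (W r x y *
          (max ((1 - Real.exp (-(nc x r + nc y r))) * (Real.exp (pd x r + pd y r) - 1))
            ((Real.exp (pc x r + pc y r) - 1) * (1 - Real.exp (-(nd x r + nd y r))))))
      ≤ -k' r

theorem Lv0.sub {U X : Finset V} (hXU : X ⊆ U) {s : ℝ} {Φ : Finset V → ℝ → ℝ}
    {W T : ℝ → V → V → ℝ} (h00 : Lv0 U s Φ W T) : Lv0 X s Φ W T :=
  ⟨fun F hF => h00.up F (hF.trans hXU), fun F hF => h00.low F (hF.trans hXU), h00.W0⟩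

section

variable {a b c d : V} {s t : ℝ} {U : Finset V} {P P' N N' : V → ℝ → ℝ}
  {gp gp' gm gm' : V → V → ℝ → ℝ} {pc pc' nc nc' pd pd' nd nd' : V → ℝ → ℝ}
  {ptc ptc' ptd ptd' k k' : ℝ → ℝ} {Ra Rac : Finset V → ℝ → ℝ}

end

end Pool.Agent.RX.RCM
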