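import Mathlib

/-! The concavity of the closure error pays for the amplification (MP_73ccd0_lc, route M). -/

namespace Pool.Agent.RX.RCM.Jen

open Set

/-- a function with nonnegative derivative on the half line -/
theorem nonneg_of_deriv {f f' : ℝ → ℝ} (h0 : 0 ≤ f 0) (hd : ∀ x, HasDerivAt f (f' x) x)
    (hp : ∀ x, 0 ≤ x → 0 ≤ f' x) {x : ℝ} (hx : 0 ≤ x) : 0 ≤ f x := by
  have hm : MonotoneOn f (Ici 0) := by
    refine monotoneOn_of_deriv_nonneg (convex_Ici 0)
      (fun x _ => (hd x).continuousAt.continuousWithinAt)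
      (fun x _ => (hd x).differentiableAt.differentiableWithinAt) fun x hx => ?_
    rw [interior_Ici] at hx
    rw [(hd x).deriv]
    exact hp x (mem_Ioi.1 hx).le
  exact h0.trans (hm (mem_Ici.2 le_rfl) (mem_Ici.2 hx) hx)

/-- `3 sinh x ≤ x (2 + cosh x)` -/
theorem sinh_le {x : ℝ} (hx : 0 ≤ x) : 3 * Real.sinh x ≤ x * (2 + Real.cosh x) := by
  have d1 : ∀ x : ℝ, HasDerivAt (fun x => x * Real.cosh x - Real.sinh x) (x * Real.sinh x) x := by
    intro x
    have := ((hasDerivAt_id x).mul (Real.hasDerivAt_cosh x)).sub (Real.hasDerivAt_sinh x)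
    refine this.congr_deriv ?_
    simp
  have k1 : ∀ x : ℝ, 0 ≤ x → 0 ≤ x * Real.cosh x - Real.sinh x := fun x hx =>
    nonneg_of_deriv (by simp) d1 (fun y hy => mul_nonneg hy (Real.sinh_nonneg_iff.2 hy)) hx
  have d2 : ∀ x : ℝ, HasDerivAt (fun x => 2 - 2 * Real.cosh x + x * Real.sinh x)
      (x * Real.cosh x - Real.sinh x) x := by
    intro x
    have := (((hasDerivAt_const x (2 : ℝ)).sub ((Real.hasDerivAt_cosh x).const_mul 2))).add
      ((hasDerivAt_id x).mul (Real.hasDerivAt_sinh x))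
    refine this.congr_deriv ?_
    simp
    ring
  have k2 : ∀ x : ℝ, 0 ≤ x → 0 ≤ 2 - 2 * Real.cosh x + x * Real.sinh x := fun x hx =>
    nonneg_of_deriv (by simp) d2 k1 hx
  have d3 : ∀ x : ℝ, HasDerivAt (fun x => x * (2 + Real.cosh x) - 3 * Real.sinh x)
      (2 - 2 * Real.cosh x + x * Real.sinh x) x := by
    intro x
    have := ((hasDerivAt_id x).mul ((Real.hasDerivAt_cosh x).const_add 2)).sub
      ((Real.hasDerivAt_sinh x).const_mul 3)
    refine this.congr_deriv ?_
    simp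
    ring
  have := nonneg_of_deriv (by simp) d3 k2 hx
  linarith

/-- the Padé bound of the logarithm -/
theorem pade {x : ℝ} (hx : 0 ≤ x) :
    3 * (1 - Real.exp (-x) ^ 2) ≤ x * (1 + 4 * Real.exp (-x) + Real.exp (-x) ^ 2) := by
  have h := sinh_le hx
  rw [Real.sinh_eq, Real.cosh_eq] at h
  have e0 := Real.exp_pos (-x)
  have e1 : Real.exp x * Real.exp (-x) = 1 := by rw [← Real.exp_add]; simp
  have h2 := mul_le_mul_of_nonneg_right h e0.le
  have l : 3 * ((Real.exp x - Real.exp (-x)) / 2) * Real.exp (-x)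
      = 3 / 2 * (Real.exp x * Real.exp (-x) - Real.exp (-x) ^ 2) := by ring
  have r : x * (2 + (Real.exp x + Real.exp (-x)) / 2) * Real.exp (-x)
      = x / 2 * (4 * Real.exp (-x) + Real.exp x * Real.exp (-x) + Real.exp (-x) ^ 2) := by ring
  rw [l, r, e1] at h2
  nlinarith

/-- the constant `C` belongs to the mass ratio `m` -/
def CJ (C m : ℝ) : Prop :=
  ∀ p ∈ Icc (0 : ℝ) 1, 6 - 6 * p + p ^ 2 ≤ C * ((6 - 3 * p) * (1 - m * p))

theorem CJ.exp {C m : ℝ} (h : CJ C m) {x : ℝ} (hx : 0 ≤ x) :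
    1 - Real.exp (-x) ≤ C * x * (1 - m * (1 - Real.exp (-x))) := by
  have e0 := Real.exp_pos (-x)
  have e1 : Real.exp (-x) ≤ 1 := by rw [Real.exp_le_one_iff]; linarith
  have h1 := pade hx
  have h2 := mul_le_mul_of_nonneg_left (h (1 - Real.exp (-x)) ⟨by linarith, by linarith⟩) hx
  have h3 : (3 * (1 + Real.exp (-x))) * (1 - Real.exp (-x))
      ≤ (3 * (1 + Real.exp (-x))) * (C * x * (1 - m * (1 - Real.exp (-x)))) := by
    nlinarith
  exact le_of_mul_le_mul_left h3 (by linarith)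

/-- the tangent lines of `1 - e^{-l}` -/
theorem nu_tangent (l l0 : ℝ) :
    1 - Real.exp (-l) ≤ 1 - Real.exp (-l0) + Real.exp (-l0) * (l - l0) := by
  have h := Real.add_one_le_exp (l0 - l)
  have e : Real.exp (-l) = Real.exp (-l0) * Real.exp (l0 - l) := by
    rw [← Real.exp_add]; congr 1; ring
  rw [e]
  nlinarith [Real.exp_pos (-l0)]

theorem tangent_coef {l : ℝ} : 0 ≤ 1 - Real.exp (-l) - Real.exp (-l) * l := by
  have h := Real.add_one_le_exp l
  have e1 : Real.exp l * Real.exp (-l) = 1 := by rw [← Real.exp_add]; simp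
  nlinarith [Real.exp_pos (-l)]

/-- **the concavity pays for the amplification**: `E'` is a mass `mu` of errors `1 - e^{-l}` with
the linear form `Lam` -/
theorem amp_le {C mt M mu Lam E' : ℝ} (hC : CJ C mt) (C0 : 0 ≤ C) (mt1 : mt < 1)
    (M0 : 0 < M) (mu0 : 0 ≤ mu) (hmu : mu ≤ mt * M) (Lam0 : 0 ≤ Lam)
    (hE : ∀ l, 0 ≤ l → E' ≤ mu * (1 - Real.exp (-l)) + Real.exp (-l) * (Lam - mu * l)) :
    E' < M ∧ E' * M ≤ C * Lam * (M - E') := by
  rcases eq_or_lt_of_le (mu0.trans hmu) with h0 | h0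
  · have hmu' : mu = 0 := le_antisymm (by rw [h0]; exact hmu) mu0
    subst hmu'
    -- the tangent lines far away
    have h1 : E' ≤ 0 := by
      refine le_of_forall_pos_le_add fun ε hε => ?_
      have h2 : ∃ l : ℝ, 0 ≤ l ∧ Real.exp (-l) * Lam ≤ ε := by
        refine ⟨Lam / ε, div_nonneg Lam0 hε.le, ?_⟩
        have h3 := Real.add_one_le_exp (Lam / ε)
        have e1 : Real.exp (Lam / ε) * Real.exp (-(Lam / ε)) = 1 := by
          rw [← Real.exp_add]; simp
        have e0 := Real.exp_pos (-(Lam / ε))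
        have h4 : Lam / ε * Real.exp (-(Lam / ε)) ≤ 1 := by nlinarith
        calc Real.exp (-(Lam / ε)) * Lam = ε * (Lam / ε * Real.exp (-(Lam / ε))) := by
              field_simp
          _ ≤ ε * 1 := mul_le_mul_of_nonneg_left h4 hε.le
          _ = ε := mul_one ε
      obtain ⟨l, l0, hl⟩ := h2
      have := hE l l0
      rw [zero_mul, zero_mul, sub_zero] at this
      linarith
    refine ⟨by linarith, ?_⟩
    have : 0 ≤ C * Lam * (M - E') := mul_nonneg (mul_nonneg C0 Lam0) (by linarith)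
    nlinarith
  · set μ := mt * M with hμ
    set x := Lam / μ with hx
    have x0 : 0 ≤ x := div_nonneg Lam0 h0.le
    have e0 := Real.exp_pos (-x)
    have e1 : Real.exp (-x) ≤ 1 := by rw [Real.exp_le_one_iff]; linarith
    have hL : Lam = μ * x := by rw [hx]; field_simp
    have h1 : E' ≤ μ * (1 - Real.exp (-x)) := by
      have h2 := hE x x0
      have h3 := mul_le_mul_of_nonneg_right hmu (tangent_coef (l := x))
      rw [hL] at h2
      nlinarith
    have h4 := hC.exp x0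
    have h5 : μ * (1 - Real.exp (-x)) < M := by
      have : μ * (1 - Real.exp (-x)) ≤ μ := by nlinarith
      have : μ < M := by rw [hμ]; nlinarith
      linarith
    refine ⟨by linarith, ?_⟩
    -- monotone in `E'`
    have h6 : μ * (1 - Real.exp (-x)) * M ≤ C * Lam * (M - μ * (1 - Real.exp (-x))) := by
      rw [hL, hμ]
      have := mul_le_mul_of_nonneg_left h4 (mul_nonneg (mul_nonneg (show 0 ≤ mt by
        by_contra hneg
        push Not at hneg
        have : mt * M < 0 := mul_neg_of_neg_of_pos hneg M0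
        linarith) M0.le) M0.le)
      nlinarith
    have h7 : E' * M ≤ μ * (1 - Real.exp (-x)) * M := mul_le_mul_of_nonneg_right h1 M0.le
    have h8 : C * Lam * (M - μ * (1 - Real.exp (-x))) ≤ C * Lam * (M - E') :=
      mul_le_mul_of_nonneg_left (by linarith) (mul_nonneg C0 Lam0)
    linarith

/-- **the amplified error**: `e ≤ e0 + E'`, `mb` the majorant of the flux of the pair -/
theorem amp_bound {C mt mb e0 mu Lam E' e : ℝ} (hC : CJ C mt) (C0 : 0 ≤ C) (mt1 : mt < 1)
    (mb0 : 0 ≤ mb) (e00 : 0 ≤ e0) (hM : mb + e0 < 1) (mu0 : 0 ≤ mu)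
    (hmu : mu ≤ mt * (1 - mb - e0)) (Lam0 : 0 ≤ Lam)
    (hE : ∀ l, 0 ≤ l → E' ≤ mu * (1 - Real.exp (-l)) + Real.exp (-l) * (Lam - mu * l))
    (he0 : 0 ≤ e) (he : e ≤ e0 + E') :
    e * ((1 - mb) * (1 - mb - e))⁻¹
      ≤ e0 / ((1 - mb) * (1 - mb - e0)) + C * Lam / (1 - mb - e0) ^ 2 := by
  set M := 1 - mb - e0 with hMd
  have M0 : 0 < M := by rw [hMd]; linarith
  obtain ⟨h1, h2⟩ := amp_le hC C0 mt1 M0 mu0 hmu Lam0 hE
  have h3 : 0 < 1 - mb - e := by linarith
  have h4 : 0 < 1 - mb := by linarith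
  have h5 : 0 < M - E' := by linarith
  -- monotone in `e`
  have h6 : e * ((1 - mb) * (1 - mb - e))⁻¹ ≤ (e0 + E') * ((1 - mb) * (M - E'))⁻¹ := by
    rw [← div_eq_mul_inv, ← div_eq_mul_inv]
    rw [div_le_div_iff₀ (mul_pos h4 h3) (mul_pos h4 h5)]
    have : e * (M - E') ≤ (e0 + E') * (1 - mb - e) := by
      rw [hMd]
      nlinarith
    nlinarith
  refine h6.trans ?_
  rw [← div_eq_mul_inv]
  have hCL : 0 ≤ C * Lam := mul_nonneg C0 Lam0
  have k1 : E' / (M - E') ≤ C * Lam / M := by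
    rw [div_le_div_iff₀ h5 M0]
    linarith
  have k2 : (e0 + E') / ((1 - mb) * (M - E'))
      = (1 / (1 - mb)) * (e0 / M + (e0 / M + 1) * (E' / (M - E'))) := by
    field_simp
    ring
  have k3 : 1 - mb = M + e0 := by rw [hMd]; ring
  rw [k2]
  have k4 : (1 / (1 - mb)) * (e0 / M + (e0 / M + 1) * (E' / (M - E')))
      ≤ (1 / (1 - mb)) * (e0 / M + (e0 / M + 1) * (C * Lam / M)) := by
    refine mul_le_mul_of_nonneg_left ?_ (by positivity)
    have : 0 ≤ e0 / M + 1 := by positivity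
    have := mul_le_mul_of_nonneg_left k1 this
    linarith
  refine k4.trans (le_of_eq ?_)
  rw [k3]
  have : M + e0 ≠ 0 := by positivity
  field_simp
  ring

end Pool.Agent.RX.RCM.Jen
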