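import Pool.Agent.RX.RCM.Kw
import Pool.Agent.RX.RCM.L2b

/-! A kernel with explicit exponentials: rows in three gauges, and the coefficients of the pair
operator (MP_73ccd0_lc, route M). -/

namespace Pool.Agent.RX.RCM

open Set Finset Pool.Agent.RX.RCRSHalf Pool.Agent.RX.RCG

set_option linter.unusedSectionVars false

variable {V : Type*} [Fintype V] [DecidableEq V]

/-- a kernel at a fixed time: `ρ` damping, `E` the gauge, `κ` the exponentials, `m` the bound of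
the hazards -/
structure Kv (U : Finset V) (x : V → V → ℝ) (ρ E κ : V → ℝ) (T : V → V → ℝ)
    (m μ1 μk μ2 R : ℝ) : Prop where
  xs : ∀ e f, x e f = x f e
  x0 : ∀ e f, 0 ≤ x e f
  row : ∀ e ∈ U, ∑ f ∈ U, x e f ≤ ρ e
  ρ0 : ∀ e ∈ U, 0 ≤ ρ e
  κ1 : ∀ e ∈ U, 1 ≤ κ e
  κE : ∀ e ∈ U, κ e ≤ E e
  T0 : ∀ e f, 0 ≤ T e f
  Ts : ∀ e f, T e f = T f e
  m0 : 0 ≤ m
  Tle : ∀ e ∈ U, ∀ f ∈ U, T e f ≤ m * (x e f * (κ e * κ f))
  h1 : ∀ e ∈ U, κ e * ρ e ≤ μ1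
  hk : ∀ e ∈ U, κ e * (ρ e * κ e) ≤ μk
  h2 : ∀ e ∈ U, κ e * (ρ e * E e) ≤ μ2
  hR : ∀ e ∈ U, κ e * ∑ f ∈ U, x e f * κ f ≤ R

variable {U : Finset V} {x : V → V → ℝ} {ρ E κ : V → ℝ} {T : V → V → ℝ} {m μ1 μk μ2 R : ℝ}

theorem Kv.κ0 (H : Kv U x ρ E κ T m μ1 μk μ2 R) {e : V} (he : e ∈ U) : 0 ≤ κ e :=
  zero_le_one.trans (H.κ1 e he)

theorem Kv.E1 (H : Kv U x ρ E κ T m μ1 μk μ2 R) {e : V} (he : e ∈ U) : 1 ≤ E e :=
  (H.κ1 e he).trans (H.κE e he)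

theorem Kv.E0 (H : Kv U x ρ E κ T m μ1 μk μ2 R) {e : V} (he : e ∈ U) : 0 ≤ E e :=
  zero_le_one.trans (H.E1 he)

theorem Kv.w0 (H : Kv U x ρ E κ T m μ1 μk μ2 R) {e : V} (he : e ∈ U) : 0 ≤ ρ e * E e :=
  mul_nonneg (H.ρ0 e he) (H.E0 he)

theorem Kv.wk0 (H : Kv U x ρ E κ T m μ1 μk μ2 R) {e : V} (he : e ∈ U) : 0 ≤ ρ e * κ e :=
  mul_nonneg (H.ρ0 e he) (H.κ0 he)

/-- rows against a weight `w` with `κ w ≤ F` -/
theorem Kv.sum_gen (H : Kv U x ρ E κ T m μ1 μk μ2 R) {w : V → ℝ} {F : ℝ}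
    (w0 : ∀ e ∈ U, 0 ≤ w e) (hF : ∀ e ∈ U, κ e * w e ≤ F) {e : V} (he : e ∈ U) :
    ∑ f ∈ U, T e f * w f ≤ m * F * (ρ e * κ e) := by
  have e0 := H.κ0 he
  have F0 : 0 ≤ F := (mul_nonneg e0 (w0 e he)).trans (hF e he)
  have h : ∀ f ∈ U, T e f * w f ≤ (m * κ e * F) * x e f := fun f hf => by
    have h1 := mul_le_mul_of_nonneg_right (H.Tle e he f hf) (w0 f hf)
    have h2 := mul_le_mul_of_nonneg_left (hF f hf)
      (mul_nonneg H.m0 (mul_nonneg (H.x0 e f) e0))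
    have e1 : m * (x e f * (κ e * κ f)) * w f = m * (x e f * κ e) * (κ f * w f) := by ring
    rw [e1] at h1
    exact h1.trans (h2.trans (le_of_eq (by ring)))
  refine (Finset.sum_le_sum h).trans ?_
  rw [← Finset.mul_sum]
  have h3 := mul_le_mul_of_nonneg_left (H.row e he) (mul_nonneg (mul_nonneg H.m0 e0) F0)
  exact h3.trans (le_of_eq (by ring))

/-- rows in the gauge `ρ E` -/
theorem Kv.sum_w (H : Kv U x ρ E κ T m μ1 μk μ2 R) {e : V} (he : e ∈ U) :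
    ∑ f ∈ U, T e f * (ρ f * E f) ≤ m * μ2 * (ρ e * E e) := by
  refine (H.sum_gen (fun f hf => H.w0 hf) H.h2 he).trans ?_
  have μ0 : 0 ≤ μ2 := (mul_nonneg (H.κ0 he) (H.w0 he)).trans (H.h2 e he)
  exact mul_le_mul_of_nonneg_left (mul_le_mul_of_nonneg_left (H.κE e he) (H.ρ0 e he))
    (mul_nonneg H.m0 μ0)

/-- rows in the gauge `ρ κ` -/
theorem Kv.sum_k (H : Kv U x ρ E κ T m μ1 μk μ2 R) {e : V} (he : e ∈ U) :
    ∑ f ∈ U, T e f * (ρ f * κ f) ≤ m * μk * (ρ e * E e) := by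
  refine (H.sum_gen (fun f hf => H.wk0 hf) H.hk he).trans ?_
  have μ0 : 0 ≤ μk := (mul_nonneg (H.κ0 he) (H.wk0 he)).trans (H.hk e he)
  exact mul_le_mul_of_nonneg_left (mul_le_mul_of_nonneg_left (H.κE e he) (H.ρ0 e he))
    (mul_nonneg H.m0 μ0)

/-- rows of the damping alone -/
theorem Kv.sum_ρ (H : Kv U x ρ E κ T m μ1 μk μ2 R) {e : V} (he : e ∈ U) :
    ∑ f ∈ U, T e f * ρ f ≤ m * μ1 * (ρ e * κ e) :=
  H.sum_gen H.ρ0 H.h1 he

/-- plain rows -/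
theorem Kv.row_e (H : Kv U x ρ E κ T m μ1 μk μ2 R) {e : V} (he : e ∈ U) :
    ∑ f ∈ U, T e f ≤ m * (κ e * ∑ f ∈ U, x e f * κ f) := by
  rw [Finset.mul_sum, Finset.mul_sum]
  exact Finset.sum_le_sum fun f hf => (H.Tle e he f hf).trans (le_of_eq (by ring))

theorem Kv.row_R (H : Kv U x ρ E κ T m μ1 μk μ2 R) {e : V} (he : e ∈ U) :
    ∑ f ∈ U, T e f ≤ m * R :=
  (H.row_e he).trans (mul_le_mul_of_nonneg_left (H.hR e he) H.m0)

/-- **the coefficients of the pair operator with a weight** -/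
theorem Kv.qc_gen (H : Kv U x ρ E κ T m μ1 μk μ2 R) {w : V → ℝ} {F K : ℝ}
    (w0 : ∀ e ∈ U, 0 ≤ w e) (hF : ∀ e ∈ U, κ e * w e ≤ F)
    (hK : ∀ e ∈ U, w e * (κ e * ∑ f ∈ U, x e f * κ f) + F * (ρ e * κ e) ≤ K) {z : V}
    (hz : z ∈ U) : qc U T w z ≤ m * K := by
  have h1 := mul_le_mul_of_nonneg_left (H.row_e hz) (w0 z hz)
  have h2 := H.sum_gen w0 hF hz
  have h3 : ∑ e ∈ U, T e z * w e = ∑ e ∈ U, T z e * w e :=
    Finset.sum_congr rfl fun e _ => by rw [H.Ts e z]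
  have h4 := mul_le_mul_of_nonneg_left (hK z hz) H.m0
  unfold qc
  rw [h3]
  nlinarith [h1, h2, h4]

theorem qc_smul {U : Finset V} {T : V → V → ℝ} (G : ℝ) (w : V → ℝ) (z : V) :
    qc U T (fun e => G * w e) z = G * qc U T w z := by
  unfold qc
  rw [mul_add]
  congr 1
  · ring
  · rw [Finset.mul_sum]
    exact Finset.sum_congr rfl fun y _ => by ring

theorem qc_add {U : Finset V} {T : V → V → ℝ} (w v : V → ℝ) (z : V) :
    qc U T (fun e => w e + v e) z = qc U T w z + qc U T v z := by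
  unfold qc
  have : ∑ x ∈ U, T x z * (w x + v x) = ∑ x ∈ U, T x z * w x + ∑ x ∈ U, T x z * v x := by
    rw [← Finset.sum_add_distrib]
    exact Finset.sum_congr rfl fun y _ => by ring
  rw [this]
  ring

/-- the coefficients of the pair operator grow with the set and the weight -/
theorem qc_mono2 {X U : Finset V} (hXU : X ⊆ U) {T : V → V → ℝ} {g w : V → ℝ}
    (hT : ∀ x y, 0 ≤ T x y) (w0 : ∀ x ∈ U, 0 ≤ w x) (hg : ∀ x ∈ X, g x ≤ w x)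
    {z : V} (hz : z ∈ X) : qc X T g z ≤ qc U T w z := by
  unfold qc
  have r0 : ∀ Y : Finset V, 0 ≤ ∑ y ∈ Y, T z y := fun Y => Finset.sum_nonneg fun y _ => hT z y
  refine add_le_add ?_ ?_
  · exact mul_le_mul (hg z hz) (Finset.sum_le_sum_of_subset_of_nonneg hXU fun y _ _ => hT z y)
      (r0 X) (w0 z (hXU hz))
  · refine (Finset.sum_le_sum fun x hx => mul_le_mul_of_nonneg_left (hg x hx) (hT x z)).trans ?_
    exact Finset.sum_le_sum_of_subset_of_nonneg hXU fun x hx _ => mul_nonneg (hT x z) (w0 x hx)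

/-- **the pair operator of a vector below a weight with bounded coefficients** -/
theorem Qo_le_of {X U : Finset V} (hXU : X ⊆ U) {T : V → V → ℝ} {g w a : V → ℝ} {K : ℝ}
    (hT : ∀ x y, 0 ≤ T x y) (w0 : ∀ x ∈ U, 0 ≤ w x) (hg : ∀ x ∈ X, g x ≤ w x)
    (hK : ∀ z ∈ U, qc U T w z ≤ K) (ha : ∀ e ∈ X, 0 ≤ a e) :
    Qo X T g a ≤ K * ∑ e ∈ X, a e := by
  rw [Qo_eq, Finset.mul_sum]
  exact Finset.sum_le_sum fun z hz => mul_le_mul_of_nonneg_right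
    ((qc_mono2 hXU hT w0 hg hz).trans (hK z (hXU hz))) (ha z hz)

/-- one half of level 2: the family in the second argument -/
theorem Kpt1' {U : Finset V} {T : V → V → ℝ} (T0 : ∀ e f, 0 ≤ T e f) (Ts : ∀ e f, T e f = T f e)
    {v : V} {a w : V → ℝ} {A : V → V → ℝ} {K : ℝ}
    (a0 : ∀ z, 0 ≤ a z) (A0 : ∀ c z, 0 ≤ A c z) (w0 : ∀ z ∈ U, 0 ≤ w z)
    (hA : ∀ z ∈ U, ∑ c ∈ U.erase z, A c z ≤ w z) (hK : ∀ z ∈ U, qc U T w z ≤ K) :
    ∑ c ∈ U.erase v, Qo ((U.erase c).erase v) T a (A c) ≤ K * ∑ z ∈ U.erase v, a z := by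
  have h1 := Qo_swap_tg (U := U.erase v) (e := v) T0 (g := a) (f := fun _ => (1 : ℝ)) a0
    (fun _ => zero_le_one) (a := A) A0
  simp only [one_mul, Finset.erase_idem] at h1
  have h2 : ∑ c ∈ U.erase v, Qo ((U.erase c).erase v) T a (A c)
      = ∑ c ∈ U.erase v, Qo ((U.erase v).erase c) T a (A c) :=
    Finset.sum_congr rfl fun c _ => by rw [Finset.erase_right_comm]
  rw [h2]
  refine h1.trans ?_
  rw [Qo_symm Ts]
  refine Qo_le_of (Finset.erase_subset _ _) T0 w0 (fun e he => ?_) hK fun e _ => a0 e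
  refine le_trans ?_ (hA e (Finset.mem_of_mem_erase he))
  exact Finset.sum_le_sum_of_subset_of_nonneg (Finset.erase_subset_erase _
    (Finset.erase_subset _ _)) fun c _ _ => A0 c e

end Pool.Agent.RX.RCM
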