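import Pool.Agent.RX.RCM.Tail_1

/-! A kernel with vertex weights: row sums in the gauge of the damped weights, and the coefficients
of the pair operator (MP_73ccd0_lc, route M). -/

namespace Pool.Agent.RX.RCM

open Set Finset

set_option linter.unusedSectionVars false

variable {V : Type*} [Fintype V] [DecidableEq V]

variable {U : Finset V} {x : V → V → ℝ} {ρ E : V → ℝ} {T : V → V → ℝ} {m μ1 μ2 ex R : ℝ}

/-- the pair operator is symmetric for a symmetric kernel -/
theorem Qo_symm {X : Finset V} {T : V → V → ℝ} (Ts : ∀ x y, T x y = T y x) (g a : V → ℝ) :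
    Qo X T g a = Qo X T a g := by
  unfold Qo
  have h : ∀ g a : V → ℝ, ∑ x ∈ X, ∑ y ∈ X, T x y * (g x * (a x + a y))
      = ∑ x ∈ X, ∑ y ∈ X, T x y * (g x * a x) + ∑ x ∈ X, ∑ y ∈ X, T x y * (g x * a y) :=
    fun g a => by
      rw [← Finset.sum_add_distrib]
      refine Finset.sum_congr rfl fun x _ => ?_
      rw [← Finset.sum_add_distrib]
      exact Finset.sum_congr rfl fun y _ => by ring
  rw [h g a, h a g]
  congr 1
  · exact Finset.sum_congr rfl fun x _ => Finset.sum_congr rfl fun y _ => by ring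
  · rw [Finset.sum_comm]
    exact Finset.sum_congr rfl fun x _ => Finset.sum_congr rfl fun y _ => by rw [Ts y x]; ring

theorem Qo_nonneg' {X : Finset V} {T : V → V → ℝ} {g a : V → ℝ} (hT : ∀ x y, 0 ≤ T x y)
    (hg : ∀ x ∈ X, 0 ≤ g x) (ha : ∀ x ∈ X, 0 ≤ a x) : 0 ≤ Qo X T g a :=
  Finset.sum_nonneg fun x hx => Finset.sum_nonneg fun y hy =>
    mul_nonneg (hT x y) (mul_nonneg (hg x hx) (add_nonneg (ha x hx) (ha y hy)))

end Pool.Agent.RX.RCM
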