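import Pool.Agent.RX.RCM.LevZ

/-! Level 0 with different horizons for the vertices of the base set (MP_73ccd0_lc, route M). -/

namespace Pool.Agent.RX.RCM

open Set Finset

set_option linter.unusedSectionVars false

/-- the sup lemma with two exponents -/
theorem exp_row2 {ι : Type*} (S : Finset ι) {δ ε : ℝ} {x u v : ι → ℝ}
    (hδ : δ ≤ 2) (ε0 : 0 ≤ ε) (hε : ε ≤ δ)
    (x0 : ∀ b ∈ S, 0 ≤ x b) (u0 : ∀ b ∈ S, 0 ≤ u b) (v0 : ∀ b ∈ S, 0 ≤ v b)
    (hx : ∀ b ∈ S, x b + u b + v b ≤ 1) (hX : ∑ b ∈ S, x b ≤ 1) (hu : ∑ b ∈ S, u b ≤ 1)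
    (hv : ∑ b ∈ S, v b ≤ 1) :
    ∑ b ∈ S, x b * Real.exp (δ * u b + ε * v b) + (1 - ∑ b ∈ S, x b)
      ≤ Real.exp (δ / 2 + ε / 6) := by
  have δ0 : 0 ≤ δ := ε0.trans hε
  rcases δ0.eq_or_lt with h0 | h0
  · have e0 : ε = 0 := le_antisymm (h0 ▸ hε) ε0
    rw [← h0, e0]
    simp
  have h1 := exp_row S (c := 1 / 3) (δ := δ) (x := x) (k := fun b => u b + v b) (by norm_num) δ0
    (by linarith) x0 (fun b hb => add_nonneg (u0 b hb) (v0 b hb))
    (fun b hb => by linarith [hx b hb]) hX (by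
      rw [Finset.sum_add_distrib]; linarith)
  have h2 := exp_row S (c := 1 / 2) (δ := δ) (x := x) (k := u) (by norm_num) δ0
    (by linarith) x0 u0 (fun b hb => by linarith [hx b hb, v0 b hb]) hX (by linarith)
  set l : ℝ := ε / δ with hl
  have l0 : 0 ≤ l := div_nonneg ε0 δ0
  have l1 : l ≤ 1 := (div_le_one h0).2 hε
  have ld : l * δ = ε := by rw [hl]; field_simp
  set X : ℝ := ∑ b ∈ S, x b with hXd
  have cvx : ∀ p q : ℝ, Real.exp (l * p + (1 - l) * q) ≤ l * Real.exp p + (1 - l) * Real.exp q :=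
    fun p q => by
      have := convexOn_exp.2 (Set.mem_univ p) (Set.mem_univ q) l0 (sub_nonneg.2 l1) (by ring)
      simpa [smul_eq_mul] using this
  set A : ℝ := Real.exp (δ / 2 + ε / 6) with hA
  have A0 : 0 < A := Real.exp_pos _
  -- divide by the right side
  have g1 : ∀ b ∈ S, x b * Real.exp (δ * u b + ε * v b)
      ≤ A * (l * (Real.exp (-(2 * δ / 3)) * (x b * Real.exp ((u b + v b) * δ)))
        + (1 - l) * (Real.exp (-(δ / 2)) * (x b * Real.exp (u b * δ)))) := by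
    intro b hb
    have c1 := cvx ((u b + v b) * δ - 2 * δ / 3) (u b * δ - δ / 2)
    have e1 : Real.exp (δ * u b + ε * v b)
        = A * Real.exp (l * ((u b + v b) * δ - 2 * δ / 3) + (1 - l) * (u b * δ - δ / 2)) := by
      rw [hA, ← Real.exp_add]
      congr 1
      have : l * ((u b + v b) * δ - 2 * δ / 3) = (u b + v b) * ε - 2 * ε / 3 := by
        linear_combination ((u b + v b) - 2 / 3) * ld
      have t2 : (1 - l) * (u b * δ - δ / 2) = (u b * δ - δ / 2) - (u b * ε - ε / 2) := by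
        linear_combination (-(u b) + 1 / 2) * ld
      rw [this, t2]; ring
    have e2 : Real.exp ((u b + v b) * δ - 2 * δ / 3)
        = Real.exp (-(2 * δ / 3)) * Real.exp ((u b + v b) * δ) := by
      rw [← Real.exp_add]; congr 1; ring
    have e3 : Real.exp (u b * δ - δ / 2) = Real.exp (-(δ / 2)) * Real.exp (u b * δ) := by
      rw [← Real.exp_add]; congr 1; ring
    rw [e2, e3] at c1
    rw [e1]
    have m := mul_le_mul_of_nonneg_left c1 (mul_nonneg (x0 b hb) A0.le)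
    calc _ = x b * A * Real.exp (l * ((u b + v b) * δ - 2 * δ / 3)
          + (1 - l) * (u b * δ - δ / 2)) := by ring
      _ ≤ _ := m
      _ = _ := by ring
  have g2 : (1 - X) ≤ A * (l * (Real.exp (-(2 * δ / 3)) * (1 - X))
      + (1 - l) * (Real.exp (-(δ / 2)) * (1 - X))) := by
    have c1 := cvx (-(2 * δ / 3)) (-(δ / 2))
    have e1 : (1 : ℝ) = A * Real.exp (l * (-(2 * δ / 3)) + (1 - l) * (-(δ / 2))) := by
      rw [hA, ← Real.exp_add]
      have : δ / 2 + ε / 6 + (l * (-(2 * δ / 3)) + (1 - l) * (-(δ / 2))) = 0 := by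
        linear_combination (-(2 / 3) + 1 / 2) * ld
      rw [this, Real.exp_zero]
    have X1 : 0 ≤ 1 - X := by linarith
    have m := mul_le_mul_of_nonneg_left c1 (mul_nonneg X1 A0.le)
    calc (1 - X) = (1 - X) * (A * Real.exp (l * (-(2 * δ / 3)) + (1 - l) * (-(δ / 2)))) := by
          rw [← e1, mul_one]
      _ = (1 - X) * A * Real.exp (l * (-(2 * δ / 3)) + (1 - l) * (-(δ / 2))) := by ring
      _ ≤ _ := m
      _ = _ := by ring
  have g3 : ∑ b ∈ S, x b * Real.exp (δ * u b + ε * v b)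
      ≤ A * (l * (Real.exp (-(2 * δ / 3)) * ∑ b ∈ S, x b * Real.exp ((u b + v b) * δ))
        + (1 - l) * (Real.exp (-(δ / 2)) * ∑ b ∈ S, x b * Real.exp (u b * δ))) := by
    refine (Finset.sum_le_sum g1).trans (le_of_eq ?_)
    rw [← Finset.mul_sum, Finset.sum_add_distrib, ← Finset.mul_sum, ← Finset.mul_sum,
      ← Finset.mul_sum, ← Finset.mul_sum]
  have k1 : Real.exp (-(2 * δ / 3)) * (∑ b ∈ S, x b * Real.exp ((u b + v b) * δ) + (1 - X))
      ≤ 1 := by
    have := mul_le_mul_of_nonneg_left h1 (Real.exp_pos (-(2 * δ / 3))).le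
    refine this.trans (le_of_eq ?_)
    rw [← Real.exp_add]
    have : -(2 * δ / 3) + (1 - 1 / 3) * δ = 0 := by ring
    rw [this, Real.exp_zero]
  have k2 : Real.exp (-(δ / 2)) * (∑ b ∈ S, x b * Real.exp (u b * δ) + (1 - X)) ≤ 1 := by
    have := mul_le_mul_of_nonneg_left h2 (Real.exp_pos (-(δ / 2))).le
    refine this.trans (le_of_eq ?_)
    rw [← Real.exp_add]
    have : -(δ / 2) + (1 - 1 / 2) * δ = 0 := by ring
    rw [this, Real.exp_zero]
  have k3 := mul_le_mul_of_nonneg_left k1 l0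
  have k4 := mul_le_mul_of_nonneg_left k2 (sub_nonneg.2 l1)
  have k5 := mul_le_mul_of_nonneg_left (add_le_add k3 k4) A0.le
  nlinarith [k5, g2, g3]

variable {V : Type*} [Fintype V] [DecidableEq V]
variable {h : ℝ → V → V → ℝ} {H : V → V → ℝ → ℝ}

/-- the row bound for one vertex in the base set -/
theorem row_one {x : V → V → ℝ} (hx : Wt x) {a : V} {U : Finset V} (haU : a ∉ U) {θ Y : ℝ}
    (Y0 : 0 ≤ Y) (hY : Y ≤ θ) (hθ : θ - Y ≤ 2) (v : V) (hv : v ∈ U) :
    ∑ b ∈ U, x v b * (Real.exp (∑ w ∈ ({a} : Finset V), x w b * θ + (1 - kx x {a} b) * Y) - 1)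
      ≤ Real.exp (θ / 2 + Y / 2) - 1 := by
  have hs : ∑ b ∈ U, x v b + x v a ≤ 1 := by
    have h1 := hx.row v
    have h2 : ∑ b ∈ insert a U, x v b ≤ ∑ b, x v b :=
      Finset.sum_le_sum_of_subset_of_nonneg (Finset.subset_univ _) fun b _ _ => hx.nn v b
    rw [Finset.sum_insert haU] at h2
    linarith
  have ha : ∑ b ∈ U, x a b ≤ 1 :=
    (Finset.sum_le_sum_of_subset_of_nonneg (Finset.subset_univ _) fun b _ _ => hx.nn a b).trans
      (hx.row a)
  have hp : ∀ b ∈ U, x v b + x a b ≤ 1 := fun b hb => by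
    have h1 := hx.row b
    have hav : a ≠ v := fun e => haU (e ▸ hv)
    have h2 : x b v + x b a ≤ ∑ z, x b z := by
      have : ∑ z ∈ ({v, a} : Finset V), x b z ≤ ∑ z, x b z :=
        Finset.sum_le_sum_of_subset_of_nonneg (Finset.subset_univ _) fun z _ _ => hx.nn b z
      rwa [Finset.sum_pair hav.symm] at this
    rw [hx.symm v b, hx.symm a b]; linarith
  have key := exp_row U (c := 1 / 2) (δ := θ - Y) (x := fun b => x v b) (k := fun b => x a b)
    (by norm_num) (by linarith) (by linarith) (fun b _ => hx.nn v b) (fun b _ => hx.nn a b)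
    hp (by linarith [hx.nn v a]) (by linarith)
  have e1 : ∀ b, Real.exp (∑ w ∈ ({a} : Finset V), x w b * θ + (1 - kx x {a} b) * Y)
      = Real.exp Y * Real.exp (x a b * (θ - Y)) := fun b => by
    rw [← Real.exp_add, kx, Finset.sum_singleton, Finset.sum_singleton]
    congr 1; ring
  have e2 : Real.exp (θ / 2 + Y / 2) = Real.exp Y * Real.exp ((1 - 1 / 2) * (θ - Y)) := by
    rw [← Real.exp_add]; congr 1; ring
  have e3 : ∑ b ∈ U, x v b * (Real.exp (∑ w ∈ ({a} : Finset V), x w b * θ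
        + (1 - kx x {a} b) * Y) - 1)
      = Real.exp Y * (∑ b ∈ U, x v b * Real.exp (x a b * (θ - Y))) - ∑ b ∈ U, x v b := by
    rw [Finset.mul_sum, ← Finset.sum_sub_distrib]
    exact Finset.sum_congr rfl fun b _ => by rw [e1]; ring
  have e4 := Real.one_le_exp Y0
  have e5 := mul_le_mul_of_nonneg_left key (Real.exp_pos Y).le
  have hX : 0 ≤ 1 - ∑ b ∈ U, x v b := by linarith [hx.nn v a]
  rw [e3, e2]
  nlinarith [mul_nonneg (sub_nonneg.2 e4) hX]

/-- the row bound for two vertices in the base set -/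
theorem row_two {x : V → V → ℝ} (hx : Wt x) {a b : V} (hab : a ≠ b) {U : Finset V} (haU : a ∉ U)
    (hbU : b ∉ U) {θa θb Y : ℝ} (Y0 : 0 ≤ Y) (hY : Y ≤ θb) (hθb : θb ≤ θa) (hθ : θa - Y ≤ 2)
    (θ : V → ℝ) (h1 : θ a = θa) (h2 : θ b = θb) (v : V) (hv : v ∈ U) :
    ∑ z ∈ U, x v z * (Real.exp (∑ w ∈ ({a, b} : Finset V), x w z * θ w
        + (1 - kx x {a, b} z) * Y) - 1)
      ≤ Real.exp (θa / 2 + θb / 6 + Y / 3) - 1 := by
  have sub : ∀ (f : V → ℝ) (S : Finset V), (∀ z, 0 ≤ f z) → ∑ z ∈ S, f z ≤ ∑ z, f z :=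
    fun f S hf => Finset.sum_le_sum_of_subset_of_nonneg (Finset.subset_univ _) fun z _ _ => hf z
  have hs : ∑ z ∈ U, x v z ≤ 1 := (sub _ _ (hx.nn v)).trans (hx.row v)
  have ha : ∑ z ∈ U, x a z ≤ 1 := (sub _ _ (hx.nn a)).trans (hx.row a)
  have hb : ∑ z ∈ U, x b z ≤ 1 := (sub _ _ (hx.nn b)).trans (hx.row b)
  have hp : ∀ z ∈ U, x v z + x a z + x b z ≤ 1 := fun z hz => by
    have hva : v ≠ a := fun e => haU (e ▸ hv)
    have hvb : v ≠ b := fun e => hbU (e ▸ hv)
    have h3 := (sub (x z) {v, a, b} (hx.nn z)).trans (hx.row z)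
    rw [Finset.sum_insert (by simp [hva, hvb]), Finset.sum_pair hab] at h3
    rw [hx.symm v z, hx.symm a z, hx.symm b z]; linarith
  have key := exp_row2 U (δ := θa - Y) (ε := θb - Y) (x := fun z => x v z) (u := fun z => x a z)
    (v := fun z => x b z) hθ (by linarith) (by linarith) (fun z _ => hx.nn v z)
    (fun z _ => hx.nn a z) (fun z _ => hx.nn b z) hp hs ha hb
  have e1 : ∀ z, Real.exp (∑ w ∈ ({a, b} : Finset V), x w z * θ w + (1 - kx x {a, b} z) * Y)
      = Real.exp Y * Real.exp ((θa - Y) * x a z + (θb - Y) * x b z) := fun z => by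
    rw [← Real.exp_add, kx, Finset.sum_pair hab, Finset.sum_pair hab, h1, h2]
    congr 1; ring
  have e2 : Real.exp (θa / 2 + θb / 6 + Y / 3)
      = Real.exp Y * Real.exp ((θa - Y) / 2 + (θb - Y) / 6) := by
    rw [← Real.exp_add]; congr 1; ring
  have e3 : ∑ z ∈ U, x v z * (Real.exp (∑ w ∈ ({a, b} : Finset V), x w z * θ w
        + (1 - kx x {a, b} z) * Y) - 1)
      = Real.exp Y * (∑ z ∈ U, x v z * Real.exp ((θa - Y) * x a z + (θb - Y) * x b z))
        - ∑ z ∈ U, x v z := by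
    rw [Finset.mul_sum, ← Finset.sum_sub_distrib]
    exact Finset.sum_congr rfl fun z _ => by rw [e1]; ring
  have e4 := Real.one_le_exp Y0
  have e5 := mul_le_mul_of_nonneg_left key (Real.exp_pos Y).le
  have hX : 0 ≤ 1 - ∑ z ∈ U, x v z := by linarith
  rw [e3, e2]
  nlinarith [mul_nonneg (sub_nonneg.2 e4) hX]

end Pool.Agent.RX.RCM
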