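import Pool.Agent.RX.RCG.Base_1

/-! Linear backward systems: existence, comparison (MP_73ccd0_lc, route M). -/

namespace Pool.Agent.RX.RCM

open Set Finset Pool.Agent.RX.RCRSHalf Pool.Agent.RX.RCG

variable {ι : Type*} [Fintype ι]

/-- existence of nonnegative solutions of `-u' = T u + σ` -/
theorem exists_lin {t : ℝ} (ht : t ∈ Icc (0 : ℝ) 1) {T : ℝ → ι → ι → ℝ} {σ : ℝ → ι → ℝ}
    (cT : ∀ i j, ContinuousOn (fun r => T r i j) (Icc 0 t))
    (cσ : ∀ i, ContinuousOn (fun r => σ r i) (Icc 0 t))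
    (T0 : ∀ r ∈ Icc 0 t, ∀ i j, 0 ≤ T r i j) (σ0 : ∀ r ∈ Icc 0 t, ∀ i, 0 ≤ σ r i)
    {u1 : ι → ℝ} (u10 : ∀ i, 0 ≤ u1 i) :
    ∃ u : ι → ℝ → ℝ, (∀ i, u i t = u1 i) ∧
      (∀ i, ∀ r ∈ Icc 0 t, HasDerivAt (u i) (-(∑ j, T r i j * u j r + σ r i)) r) ∧
      ∀ i, ∀ r ∈ Icc 0 t, 0 ≤ u i r := by
  let c : ℝ → ℝ := fun r => max 0 (min t r)
  have cc : Continuous c := by fun_prop
  have cm : ∀ r, c r ∈ Icc 0 t := fun r => ⟨le_max_left _ _, max_le ht.1 (min_le_left _ _)⟩
  have cid : ∀ r ∈ Icc 0 t, c r = r := fun r hr => by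
    simp only [c]; rw [min_eq_right hr.2, max_eq_right hr.1]
  have cT' : ∀ i j, Continuous fun r => T (c r) i j := fun i j =>
    (cT i j).comp_continuous cc cm
  have cσ' : ∀ i, Continuous fun r => σ (c r) i := fun i => (cσ i).comp_continuous cc cm
  -- the bound
  obtain ⟨C, hC⟩ : ∃ C : ℝ, ∀ r ∈ Icc 0 t, ∑ i, ∑ j, T r i j + ∑ i, σ r i ≤ C := by
    have h1 : ContinuousOn (fun r => ∑ i, ∑ j, T r i j + ∑ i, σ r i) (Icc 0 t) :=
      (continuousOn_finsetSum _ fun i _ => continuousOn_finsetSum _ fun j _ => cT i j).add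
        (continuousOn_finsetSum _ fun i _ => cσ i)
    obtain ⟨C, hC⟩ := isCompact_Icc.exists_bound_of_continuousOn h1
    exact ⟨C, fun r hr => (le_abs_self _).trans (hC r hr)⟩
  have t0 : (0 : ℝ) ∈ Icc 0 t := ⟨le_rfl, ht.1⟩
  have hT : ∀ r ∈ Icc 0 t, ∀ i, ∑ j, T r i j ≤ C := fun r hr i => by
    have h1 : ∑ j, T r i j ≤ ∑ i, ∑ j, T r i j :=
      Finset.single_le_sum (f := fun i => ∑ j, T r i j)
        (fun i _ => Finset.sum_nonneg fun j _ => T0 r hr i j) (Finset.mem_univ i)
    have h2 : 0 ≤ ∑ i, σ r i := Finset.sum_nonneg fun i _ => σ0 r hr i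
    linarith [hC r hr]
  have hTij : ∀ r ∈ Icc 0 t, ∀ i j, T r i j ≤ C := fun r hr i j =>
    (Finset.single_le_sum (f := fun j => T r i j) (fun j _ => T0 r hr i j)
      (Finset.mem_univ j)).trans (hT r hr i)
  have hσ : ∀ r ∈ Icc 0 t, ∀ i, σ r i ≤ C := fun r hr i => by
    have h1 : σ r i ≤ ∑ i, σ r i := Finset.single_le_sum (f := fun i => σ r i)
        (fun i _ => σ0 r hr i) (Finset.mem_univ i)
    have h2 : 0 ≤ ∑ i, ∑ j, T r i j := Finset.sum_nonneg fun i _ =>
      Finset.sum_nonneg fun j _ => T0 r hr i j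
    linarith [hC r hr]
  have hC0 : 0 ≤ C := le_trans (add_nonneg (Finset.sum_nonneg fun i _ =>
    Finset.sum_nonneg fun j _ => T0 0 t0 i j) (Finset.sum_nonneg fun i _ => σ0 0 t0 i)) (hC 0 t0)
  set L : ℝ := C + 1 with hL
  have hL0 : 0 ≤ L := by rw [hL]; linarith
  set B : ℝ := ∑ i, u1 i + C + 1 with hB
  have hu1 : 0 ≤ ∑ i, u1 i := Finset.sum_nonneg fun i _ => u10 i
  have hB0 : 0 < B := by rw [hB]; linarith
  have hBi : 0 < B⁻¹ := inv_pos.2 hB0
  have hu1B : ∀ i, u1 i * B⁻¹ ≤ 1 := fun i => by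
    rw [← div_eq_mul_inv, div_le_one hB0, hB]
    linarith [Finset.single_le_sum (f := u1) (fun i _ => u10 i) (Finset.mem_univ i)]
  have hCB : C * B⁻¹ ≤ 1 := by
    rw [← div_eq_mul_inv, div_le_one hB0, hB]; linarith
  let e : ℝ → ℝ := fun r => Real.exp (-(L * (t - c r)))
  have ce : Continuous e := by
    simp only [e]; exact Real.continuous_exp.comp (by fun_prop)
  have e0 : ∀ r, 0 ≤ e r := fun r => (Real.exp_pos _).le
  have e1 : ∀ r, e r ≤ 1 := fun r => by
    simp only [e]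
    rw [Real.exp_le_one_iff]
    have := mul_nonneg hL0 (sub_nonneg.2 (cm r).2)
    linarith
  let cl : (ι → ℝ) → ι → ℝ := fun y i => max 0 (min 1 (y i))
  let f : ℝ → (ι → ℝ) → (ι → ℝ) := fun r y i =>
    -(∑ j, T (c r) i j * cl y j - L * cl y i + e r * σ (c r) i * B⁻¹)
  have hf : ∀ i, UBL fun r y => f r y i := by
    intro i
    have h1 : UBL fun (r : ℝ) (y : ι → ℝ) => ∑ j, T (c r) i j * cl y j :=
      UBL.sum _ fun j _ => (UBL.ofTime (cT' i j) (C := C) fun r => by
        rw [abs_of_nonneg (T0 _ (cm r) i j)]; exact hTij _ (cm r) i j).mul (UBL.coord j)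
    have h2 : UBL fun (r : ℝ) (y : ι → ℝ) => L * cl y i := (UBL.const L).mul (UBL.coord i)
    have h3 : UBL fun (r : ℝ) (y : ι → ℝ) => e r * σ (c r) i * B⁻¹ :=
      ((UBL.ofTime ce (C := 1) fun r => by rw [abs_of_nonneg (e0 r)]; exact e1 r).mul
        (UBL.ofTime (cσ' i) (C := C) fun r => by
          rw [abs_of_nonneg (σ0 _ (cm r) i)]; exact hσ _ (cm r) i)).mul (UBL.const _)
    exact ((h1.sub h2).add h3).neg
  obtain ⟨α, hα0, hα⟩ := exists_sol2 f hf (t0 := t) ⟨by linarith [ht.1], by linarith [ht.2]⟩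
    (fun i => u1 i * B⁻¹)
  have hmem : ∀ r ∈ Icc 0 t, r ∈ Ioo (-1 : ℝ) 2 := fun r hr =>
    ⟨by linarith [hr.1], by linarith [hr.2, ht.2]⟩
  have cl0 : ∀ y i, 0 ≤ cl y i := fun y i => le_max_left _ _
  have cl1 : ∀ y i, cl y i ≤ 1 := fun y i => max_le zero_le_one (min_le_left _ _)
  have hge : ∀ i, ∀ r ∈ Icc 0 t, 0 ≤ α r i := by
    intro i
    refine nonneg_of_backward (fun r hr => hα r (hmem r hr) i)
      (by rw [hα0]; exact mul_nonneg (u10 i) hBi.le) ?_
    intro r hr hlt
    have hcl : cl (α r) i = 0 := by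
      simp only [cl]; exact max_eq_left ((min_le_right _ _).trans hlt.le)
    have h1 : 0 ≤ ∑ j, T (c r) i j * cl (α r) j :=
      Finset.sum_nonneg fun j _ => mul_nonneg (T0 _ (cm r) i j) (cl0 _ _)
    have h2 : 0 ≤ e r * σ (c r) i * B⁻¹ :=
      mul_nonneg (mul_nonneg (e0 r) (σ0 _ (cm r) i)) hBi.le
    simp only [f]
    rw [hcl]
    linarith
  have hle : ∀ i, ∀ r ∈ Icc 0 t, α r i ≤ 1 := by
    intro i r hr
    have := nonneg_of_backward (U := fun r => 1 - α r i) (U' := fun r => -f r (α r) i)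
      (a := 0) (s := t)
      (fun r hr => by simpa using (hα r (hmem r hr) i).const_sub 1)
      (by simp only [hα0]; linarith [hu1B i]) ?_ r hr
    · linarith
    · intro r hr hlt
      have hgt : 1 < α r i := by linarith
      have hcl : cl (α r) i = 1 := by
        simp only [cl]; rw [min_eq_left hgt.le]; exact max_eq_right zero_le_one
      have h1 : ∑ j, T (c r) i j * cl (α r) j ≤ C := by
        refine le_trans (Finset.sum_le_sum fun j _ => ?_) (hT _ (cm r) i)
        have := mul_le_mul_of_nonneg_left (cl1 (α r) j) (T0 _ (cm r) i j)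
        linarith
      have h2 : e r * σ (c r) i * B⁻¹ ≤ 1 := by
        have h3 : e r * σ (c r) i ≤ C := by
          have := mul_le_mul (e1 r) (hσ _ (cm r) i) (σ0 _ (cm r) i) zero_le_one
          linarith
        exact (mul_le_mul_of_nonneg_right h3 hBi.le).trans hCB
      simp only [f]
      rw [hcl, hL]
      linarith
  have hcl : ∀ r ∈ Icc 0 t, cl (α r) = α r := by
    intro r hr
    funext i
    simp only [cl]
    rw [min_eq_right (hle i r hr), max_eq_right (hge i r hr)]
  refine ⟨fun i r => B * Real.exp (L * (t - r)) * α r i, fun i => ?_, fun i r hr => ?_,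
    fun i r hr => mul_nonneg (mul_nonneg hB0.le (Real.exp_pos _).le) (hge i r hr)⟩
  · simp only [hα0, sub_self, mul_zero, Real.exp_zero, mul_one]
    field_simp
  · have h1 : HasDerivAt (fun r => B * Real.exp (L * (t - r)))
        (B * (Real.exp (L * (t - r)) * (L * -1))) r := by
      exact ((((hasDerivAt_id' r).const_sub t).const_mul L).exp).const_mul B
    have h2 := h1.mul (hα r (hmem r hr) i)
    refine h2.congr_deriv ?_
    simp only [f, e]
    rw [hcl r hr, cid r hr]
    have hBB : B * B⁻¹ = 1 := mul_inv_cancel₀ hB0.ne'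
    have hee : Real.exp (L * (t - r)) * Real.exp (-(L * (t - r))) = 1 := by
      rw [← Real.exp_add]; simp
    have e3 : ∑ j, T r i j * (B * Real.exp (L * (t - r)) * α r j)
        = B * Real.exp (L * (t - r)) * ∑ j, T r i j * α r j := by
      rw [Finset.mul_sum]; exact Finset.sum_congr rfl fun j _ => by ring
    rw [e3]
    have e4 : B * Real.exp (L * (t - r)) * (Real.exp (-(L * (t - r))) * σ r i * B⁻¹) = σ r i := by
      calc _ = (B * B⁻¹) * (Real.exp (L * (t - r)) * Real.exp (-(L * (t - r)))) * σ r i := by ring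
        _ = σ r i := by rw [hBB, hee, one_mul, one_mul]
    linear_combination (-1 : ℝ) * e4

/-- derivative of the square of the positive part -/
theorem hasDerivAt_sq_max (x : ℝ) : HasDerivAt (fun x : ℝ => (max x 0) ^ 2) (2 * max x 0) x := by
  rcases lt_trichotomy x 0 with hx | hx | hx
  · have h1 : (fun x : ℝ => (max x 0) ^ 2) =ᶠ[nhds x] fun _ => 0 := by
      filter_upwards [Iio_mem_nhds hx] with y hy
      rw [max_eq_right (le_of_lt hy)]; ring
    rw [max_eq_right hx.le, mul_zero]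
    exact (hasDerivAt_const x (0 : ℝ)).congr_of_eventuallyEq h1
  · subst hx
    rw [max_self, mul_zero]
    rw [hasDerivAt_iff_isLittleO_nhds_zero]
    simp only [zero_add, max_self, smul_zero, sub_zero]
    have h1 : (fun h : ℝ => (max h 0) ^ 2 - 0 ^ 2) =O[nhds 0] fun h : ℝ => h ^ 2 := by
      refine Asymptotics.isBigO_of_le _ fun h => ?_
      have e0 : (max h 0) ^ 2 - 0 ^ 2 = (max h 0) ^ 2 := by ring
      rw [Real.norm_eq_abs, Real.norm_eq_abs, e0, abs_of_nonneg (sq_nonneg _),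
        abs_of_nonneg (sq_nonneg _)]
      rcases le_total h 0 with hh | hh
      · rw [max_eq_right hh]; nlinarith [sq_nonneg h]
      · rw [max_eq_left hh]
    refine h1.trans_isLittleO ?_
    have := Asymptotics.isLittleO_pow_id (𝕜 := ℝ) (n := 2) (by norm_num)
    exact this
  · have h1 : (fun x : ℝ => (max x 0) ^ 2) =ᶠ[nhds x] fun x => x ^ 2 := by
      filter_upwards [Ioi_mem_nhds hx] with y hy
      rw [max_eq_left (le_of_lt hy)]
    rw [max_eq_left hx.le]
    have h2 : HasDerivAt (fun x : ℝ => x ^ 2) (2 * x) x := by simpa using hasDerivAt_pow 2 x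
    exact h2.congr_of_eventuallyEq h1

/-- comparison for linear backward systems -/
theorem lin_nonneg {t : ℝ} {T : ℝ → ι → ι → ℝ} {C : ℝ}
    (T0 : ∀ r ∈ Icc 0 t, ∀ i j, 0 ≤ T r i j) (TC : ∀ r ∈ Icc 0 t, ∀ i j, T r i j ≤ C)
    {v v' : ι → ℝ → ℝ} (hv : ∀ i, ∀ r ∈ Icc 0 t, HasDerivAt (v i) (v' i r) r)
    (hvt : ∀ i, 0 ≤ v i t) (o : ∀ i, ∀ r ∈ Icc 0 t, ∑ j, T r i j * v j r ≤ -v' i r) :
    ∀ i, ∀ r ∈ Icc 0 t, 0 ≤ v i r := by
  intro i r hr
  set D : ℝ := 2 * (C * Fintype.card ι) with hD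
  -- the negative parts
  let m : ι → ℝ → ℝ := fun i r => max (-v i r) 0
  have m0 : ∀ i r, 0 ≤ m i r := fun i r => le_max_right _ _
  have hN : ∀ r ∈ Icc 0 t, HasDerivAt (fun r => -(∑ i, (m i r) ^ 2) * Real.exp (D * r))
      (-(∑ i, 2 * m i r * -v' i r) * Real.exp (D * r)
        + -(∑ i, (m i r) ^ 2) * (Real.exp (D * r) * D)) r := by
    intro r hr
    have h1 : HasDerivAt (fun r => ∑ i, (m i r) ^ 2) (∑ i, 2 * m i r * -v' i r) r :=
      HasDerivAt.fun_sum fun i _ => by
        have h2 := (hasDerivAt_sq_max (-v i r)).comp r (hv i r hr).neg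
        exact h2
    have h3 : HasDerivAt (fun r => Real.exp (D * r)) (Real.exp (D * r) * D) r := by
      simpa using ((hasDerivAt_id' r).const_mul D).exp
    exact h1.neg.mul h3
  have key := nonneg_of_backward hN (by
    have : ∑ i, (m i t) ^ 2 = 0 := Finset.sum_eq_zero fun i _ => by
      simp only [m]; rw [max_eq_right (by linarith [hvt i])]; ring
    rw [this]; simp) (fun r hr _ => ?_) r hr
  · have h1 : ∑ i, (m i r) ^ 2 ≤ 0 := by
      by_contra hlt
      push Not at hlt
      have := mul_pos hlt (Real.exp_pos (D * r))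
      linarith
    have h2 : (m i r) ^ 2 ≤ 0 := (Finset.single_le_sum (f := fun i => (m i r) ^ 2)
      (fun i _ => sq_nonneg _) (Finset.mem_univ i)).trans h1
    have h3 : m i r = 0 := by nlinarith [sq_nonneg (m i r)]
    have h4 : -v i r ≤ m i r := le_max_left _ _
    linarith
  · -- the derivative is nonpositive
    have ht0 : 0 ≤ t := hr.1.trans hr.2
    by_cases hne : Nonempty ι
    · obtain ⟨i0⟩ := hne
      have hC0 : 0 ≤ C := (T0 r hr i0 i0).trans (TC r hr i0 i0)
      have h1 : -(D * ∑ i, (m i r) ^ 2) ≤ ∑ i, 2 * m i r * -v' i r := by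
        have h2 : ∀ i, -(∑ j, C * ((m i r) ^ 2 + (m j r) ^ 2)) ≤ 2 * m i r * -v' i r := by
          intro i
          have h3 : -(∑ j, T r i j * m j r) ≤ -v' i r := by
            refine le_trans ?_ (o i r hr)
            rw [← Finset.sum_neg_distrib]
            refine Finset.sum_le_sum fun j _ => ?_
            have h4 : -v j r ≤ m j r := le_max_left _ _
            nlinarith [T0 r hr i j]
          have h5 := mul_le_mul_of_nonneg_left h3 (mul_nonneg (by norm_num : (0 : ℝ) ≤ 2) (m0 i r))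
          refine le_trans ?_ h5
          rw [mul_neg, neg_le_neg_iff, Finset.mul_sum]
          refine Finset.sum_le_sum fun j _ => ?_
          have h6 := T0 r hr i j
          have h7 := TC r hr i j
          have h8 : 2 * m i r * (T r i j * m j r) ≤ T r i j * ((m i r) ^ 2 + (m j r) ^ 2) := by
            nlinarith [sq_nonneg (m i r - m j r)]
          have h9 : T r i j * ((m i r) ^ 2 + (m j r) ^ 2) ≤ C * ((m i r) ^ 2 + (m j r) ^ 2) :=
            mul_le_mul_of_nonneg_right h7 (by positivity)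
          linarith
        have h3 := Finset.sum_le_sum fun i (_ : i ∈ Finset.univ) => h2 i
        refine le_trans (le_of_eq ?_) h3
        rw [Finset.sum_neg_distrib]
        congr 1
        simp only [← Finset.mul_sum, Finset.sum_add_distrib, Finset.sum_const, Finset.card_univ,
          nsmul_eq_mul, hD]
        ring
      have h2 := mul_le_mul_of_nonneg_right h1 (Real.exp_pos (D * r)).le
      linarith
    · have : IsEmpty ι := not_nonempty_iff.1 hne
      simp

end Pool.Agent.RX.RCM
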