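import Pool.Agent.RX.RCM.Tail_1
import Pool.Agent.RX.RCM.WldV
import Pool.Agent.RX.RCN.Hz_1

/-! The closures of a pair `c`, `d` in the world of the removed set `D` with explicit constants
(MP_73ccd0_lc, route M). -/

namespace Pool.Agent.RX.RCN.K

open Set Finset MeasureTheory Pool.Agent.RX.RCRSHalf Pool.Agent.RX.RCG Pool.Agent.RX.RCG.Ct

set_option linter.unusedSectionVars false

variable {V : Type*} [Fintype V] [DecidableEq V]

/-- the exponents and lower functions of level 0 in one cell: `y2 t s e r`, `n2 t s e r` for the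
times `t`, `s`, and their majorants `y1`, `n1` with the horizon of the cell -/
structure Lz (V : Type*) where
  y2 : ℝ → ℝ → V → ℝ → ℝ
  n2 : ℝ → ℝ → V → ℝ → ℝ
  y1 : V → ℝ → ℝ
  n1 : V → ℝ → ℝ

/-- the number `θ` bounds the clock from `r` to `t` -/
structure Clt (Z : Hzd) (r t θ : ℝ) : Prop where
  re : ∀ y ∈ Icc (0 : ℝ) 1, Real.log (1 - y * Z.S y r) - Real.log (1 - y * Z.S y t) ≤ y * θ
  pe : t - r ≤ θ

/-- level 0 in the cell `[α, τ]` for the removed set `D`, of which `A` has the time `t`, and for the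
second time `s ≤ sg` -/
structure Lz.Ok (F : Lz V) (Z : Hzd) (x : V → V → ℝ) (P : V → Prop) [DecidablePred P]
    (A D : Finset V) (sg α τ : ℝ) : Prop where
  α0 : 0 ≤ α
  ατ : α ≤ τ
  τ1 : τ ≤ bt
  sg0 : 0 ≤ sg
  sgτ : sg ≤ τ
  ym : ∀ t ∈ Icc α τ, ∀ s ∈ Icc 0 t, s ≤ sg → ∀ e, ∀ r ∈ Icc 0 t, F.y2 t s e r ≤ F.y1 e r
  nm : ∀ t ∈ Icc α τ, ∀ s ∈ Icc 0 t, s ≤ sg → ∀ e, ∀ r ∈ Icc 0 t, F.n2 t s e r ≤ F.n1 e r
  n11 : ∀ e, ∀ r ∈ Icc 0 τ, F.n1 e r ≤ 1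
  w0 : ∀ (h : ℝ → V → V → ℝ) (H : V → V → ℝ → ℝ), Haz h H → ∀ t ∈ Icc α τ, ∀ s ∈ Icc 0 t,
    s ≤ sg →
    (∀ u v, ∀ r ∈ Icc 0 t, h r u v ≤ Z.hh x P r u v) →
    (∀ u v, ∀ σ ∈ Icc 0 t, ∀ r ∈ Icc 0 σ, H u v σ - H u v r ≤ Z.Hh x P σ u v r) →
    ∃ Pa Pa' Na Na' Q Q' N N' : V → ℝ → ℝ,
      RCM.W0 h A D s t Dᶜ Pa Pa' Na Na' Q Q' N N' (RCM.Tb (Z.hh x P) (F.y2 t s))
        (RCM.Ab (Z.hh x P) (F.y2 t s)) (RCM.Bw (Z.hh x P) (F.n2 t s))

variable (Z : Hzd) (F : Lz V) (x : V → V → ℝ) (P : V → Prop) [DecidablePred P]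

/-- the kernel of the world with the times `t`, `s` -/
noncomputable def K2 (t s : ℝ) : ℝ → V → V → ℝ := RCM.Tb (Z.hh x P) (F.y2 t s)

/-- the kernel of the cell -/
noncomputable def K1 : ℝ → V → V → ℝ := RCM.Tb (Z.hh x P) F.y1

/-- leading part of the lower function -/
noncomputable def N2 (D : Finset V) (t s : ℝ) (σ : ℝ) (c e : V) : ℝ → ℝ :=
  RCM.bk (fun ρ => ∑ f ∈ Dᶜ.erase c, K2 Z F x P t s ρ e f * Z.Dd x P σ c f ρ) σ

/-- its majorant with the kernel of the cell -/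
noncomputable def N1 (D : Finset V) (σ : ℝ) (c e : V) : ℝ → ℝ :=
  RCM.bk (fun ρ => ∑ f ∈ Dᶜ.erase c, K1 Z F x P ρ e f * Z.Dd x P σ c f ρ) σ

/-- the insertion term -/
noncomputable def Di (D : Finset V) (c d : V) (t s n1 n2 : ℝ) : ℝ :=
  ∫ r in (0 : ℝ)..s, Z.hh x P r c d * max 0
    (1 - Real.exp (-(n1 + Z.Hh x P r c d 0
        + ∫ ρ in (0 : ℝ)..r, ∑ f ∈ (Dᶜ.erase c).erase d, K2 Z F x P t s ρ d f))
      - Real.exp (-(n2 + Z.Hh x P r c d 0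
        + ∫ ρ in (0 : ℝ)..r, ∑ f ∈ (Dᶜ.erase d).erase c, K2 Z F x P t s ρ c f)))

/-- level 2; `d3`, `c4` are the bounds of two exponents -/
noncomputable def Kdd (D : Finset V) (c d : V) (τ s : ℝ) (d3 : ℝ → V → V → ℝ → ℝ)
    (c4 : V → V → ℝ → ℝ) (pc nc pd nd : V → ℝ → ℝ) : ℝ :=
  ∫ z in (0 : ℝ)..s,
    (RCM.Qo ((Dᶜ.erase c).erase d) (K1 Z F x P z)
        (fun e => N1 Z F x P D τ c e z + nc e z)
        (fun e => d3 s d e z + c4 d e z * pd e z)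
      + RCM.Qo ((Dᶜ.erase c).erase d) (K1 Z F x P z)
        (fun e => N1 Z F x P D s d e z + nd e z)
        (fun e => d3 τ c e z + c4 c e z * pc e z))

/-- bound of two exponents, the part without tails -/
noncomputable def D3f (B : ℝ → ℝ → ℝ) (τ q m σ : ℝ) (c e : V) (r : ℝ) : ℝ :=
  Z.Dd x P σ c e r + ((1 + q * m) * B τ r ^ 2 * (x c e ^ 2 * (1 - x c e))
    + q * m * B τ r * x c e ^ 2)

/-- bound of two exponents, the coefficient of the tail -/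
noncomputable def C4f (B : ℝ → ℝ → ℝ) (τ q : ℝ) (c e : V) (r : ℝ) : ℝ :=
  q * (1 + Z.Dd x P τ c e r + B τ r / 4)

/-- bound of one exponent, the coefficient of the tail -/
noncomputable def C1f (τ q : ℝ) (c e : V) (r : ℝ) : ℝ :=
  q * (1 + Z.Dd x P τ c e r)

variable {Z F x P}
variable {sl : ℝ → ℝ → ℝ} {α τ sg : ℝ} {A D : Finset V}

/-! ### monotonicity in the horizon -/

theorem Hzd.Ok.Hh_mono (hZ : Z.Ok sl) (hx : Wt x P 1) {s t : ℝ} (hst : s ≤ t)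
    (ht : t ≤ bt) (u v : V) {r : ℝ} (hr : r ∈ Icc 0 s) : Z.Hh x P s u v r ≤ Z.Hh x P t u v r := by
  have hm := xw_mem hx u v
  have h0 : 0 ≤ s := hr.1.trans hr.2
  unfold Hzd.Hh
  split_ifs
  · have h1 := Real.log_le_log (hZ.den _ hm t ⟨h0.trans hst, ht⟩)
      (show 1 - x u v * Z.S (x u v) t ≤ 1 - x u v * Z.S (x u v) s by
        have := mul_le_mul_of_nonneg_left (hZ.S_mono hm h0 hst ht) hm.1
        linarith)
    linarith
  · refine mul_le_mul_of_nonneg_left ?_ hm.1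
    have := Real.log_le_log (show 0 < 1 + s by linarith) (show 1 + s ≤ 1 + t by linarith)
    linarith

theorem Hzd.Ok.Dd_mono (hZ : Z.Ok sl) (hx : Wt x P 1) {s t : ℝ} (hst : s ≤ t)
    (ht : t ≤ bt) (u v : V) {r : ℝ} (hr : r ∈ Icc 0 s) : Z.Dd x P s u v r ≤ Z.Dd x P t u v r := by
  have hm := xw_mem hx u v
  have h0 : 0 ≤ s := hr.1.trans hr.2
  unfold Hzd.Dd
  split_ifs
  · have h1 := hZ.S_mono hm h0 hst ht
    have h2 := hZ.S_mono hm hr.1 hr.2 (hst.trans ht)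
    have h3 := hZ.den _ hm t ⟨h0.trans hst, ht⟩
    refine div_le_div₀ (mul_nonneg hm.1 (by linarith))
      (mul_le_mul_of_nonneg_left (by linarith) hm.1) h3 ?_
    have := mul_le_mul_of_nonneg_left h1 hm.1
    linarith
  · refine mul_le_mul_of_nonneg_left ?_ hm.1
    exact mul_le_mul_of_nonneg_right (by linarith) (inv_nonneg.2 (by linarith [hr.1]))

theorem Clt.Hh_le {r t θ : ℝ} (h : Clt Z r t θ) (hx : Wt x P 1) (hr : 0 ≤ r) (hrt : r ≤ t)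
    (u v : V) : Z.Hh x P t u v r ≤ x u v * θ := by
  have hm := xw_mem hx u v
  unfold Hzd.Hh
  split_ifs
  · exact h.re _ hm
  · refine mul_le_mul_of_nonneg_left (le_trans ?_ h.pe) hm.1
    have h0 : 0 < 1 + r := by linarith
    have h1 : 0 < 1 + t := by linarith
    have h2 : Real.log (1 + t) - Real.log (1 + r) = Real.log ((1 + t) / (1 + r)) := by
      rw [Real.log_div h1.ne' h0.ne']
    rw [h2]
    refine (Real.log_le_sub_one_of_pos (div_pos h1 h0)).trans ?_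
    have h3 : (1 + t) / (1 + r) - 1 = (t - r) / (1 + r) := by
      field_simp
      ring
    rw [h3, div_le_iff₀ h0]
    nlinarith

/-! ### the kernels -/

theorem Tb_le {hb : ℝ → V → V → ℝ} {y y' : V → ℝ → ℝ} {r : ℝ} {e f : V} (h0 : 0 ≤ hb r e f)
    (h1 : y e r ≤ y' e r) (h2 : y f r ≤ y' f r) : RCM.Tb hb y r e f ≤ RCM.Tb hb y' r e f :=
  mul_le_mul_of_nonneg_left (Real.exp_le_exp.2 (add_le_add h1 h2)) h0

theorem Tb_nonneg {hb : ℝ → V → V → ℝ} {y : V → ℝ → ℝ} {r : ℝ} {e f : V} (h0 : 0 ≤ hb r e f) :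
    0 ≤ RCM.Tb hb y r e f := mul_nonneg h0 (Real.exp_pos _).le

theorem K1_nonneg (hZ : Z.Ok sl) (hx : Wt x P 1) {r : ℝ} (hr : r ∈ Icc (0 : ℝ) bt)
    (e f : V) : 0 ≤ K1 Z F x P r e f := Tb_nonneg (hZ.hh_nonneg hx hr e f)

theorem K2_nonneg (hZ : Z.Ok sl) (hx : Wt x P 1) (t s : ℝ) {r : ℝ}
    (hr : r ∈ Icc (0 : ℝ) bt) (e f : V) : 0 ≤ K2 Z F x P t s r e f :=
  Tb_nonneg (hZ.hh_nonneg hx hr e f)

theorem K1_symm (hx : Wt x P 1) (r : ℝ) (e f : V) :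
    K1 Z F x P r e f = K1 Z F x P r f e := by
  unfold K1 RCM.Tb
  rw [Hzd.hh_symm hx r e f, add_comm]

theorem K1_diag (hx : Wt x P 1) (r : ℝ) (e : V) : K1 Z F x P r e e = 0 := by
  unfold K1 RCM.Tb
  rw [Hzd.hh_zero (hx.diag e), zero_mul]

theorem K2_diag (hx : Wt x P 1) (t s r : ℝ) (e : V) : K2 Z F x P t s r e e = 0 := by
  unfold K2 RCM.Tb
  rw [Hzd.hh_zero (hx.diag e), zero_mul]

theorem K2_le (hF : F.Ok Z x P A D sg α τ) (hZ : Z.Ok sl) (hx : Wt x P 1) {t s r : ℝ}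
    (ht : t ∈ Icc α τ) (hs : s ∈ Icc 0 t) (hsg : s ≤ sg) (hr : r ∈ Icc 0 t) (e f : V) :
    K2 Z F x P t s r e f ≤ K1 Z F x P r e f := by
  have hr1 : r ∈ Icc (0 : ℝ) bt := ⟨hr.1, (hr.2.trans ht.2).trans hF.τ1⟩
  exact Tb_le (hZ.hh_nonneg hx hr1 e f) (hF.ym t ht s hs hsg e r hr)
    (hF.ym t ht s hs hsg f r hr)

theorem Tb_cont (hZ : Z.Ok sl) (hx : Wt x P 1) {y : V → ℝ → ℝ} {t : ℝ} (ht : t ≤ bt)
    (hy : ∀ e, ContinuousOn (y e) (Icc 0 t)) (e f : V) :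
    ContinuousOn (fun r => RCM.Tb (Z.hh x P) y r e f) (Icc 0 t) :=
  ((hZ.hh_cont hx e f).mono (Icc_subset_Icc_right ht)).mul
    (Real.continuous_exp.comp_continuousOn ((hy e).add (hy f)))

theorem Hzd.Ok.Dd_cont (hZ : Z.Ok sl) (hx : Wt x P 1) (σ : ℝ) (c f : V) :
    ContinuousOn (Z.Dd x P σ c f) (Icc 0 bt) := by
  have hm := xw_mem hx c f
  unfold Hzd.Dd
  split_ifs
  · refine ContinuousOn.div_const (continuousOn_const.mul (continuousOn_const.sub ?_)) _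
    exact fun s hs => (hZ.d _ hm s hs).continuousAt.continuousWithinAt
  · refine continuousOn_const.mul ((by fun_prop : ContinuousOn (fun r : ℝ => σ - r) _).mul
      (ContinuousOn.inv₀ (by fun_prop) fun s hs => ?_))
    linarith [hs.1]

end Pool.Agent.RX.RCN.K
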