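import Pool.Agent.RX.RCM.NuB_2

/-! The closures with the refined constants: the direct part of the pair function with the true
hazard of the pair, combined with the insertion term (MP_73ccd0_lc, route M). -/

namespace Pool.Agent.RX.RCM

open Set Finset MeasureTheory Pool.Agent.RX.RCRSHalf Pool.Agent.RX.RCG

set_option linter.unusedSectionVars false

variable {V : Type*} [Fintype V] [DecidableEq V]

section

variable {hb : ℝ → V → V → ℝ} {x : V → V → ℝ} {D : Finset V} {t : ℝ} {mb : ℝ → ℝ}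
  {θ : V → ℝ → ℝ} {Y Y' N N' : ℝ → ℝ}

/-- **level 0 of the world with vector functions**, the lower functions named -/
theorem L0s.w0N (hL : L0s hb x D t mb θ Y Y' N N') (hx : Wt x) {h : ℝ → V → V → ℝ}
    {H : V → V → ℝ → ℝ} (hh : Haz h H)
    (hle : ∀ u v, ∀ r ∈ Icc 0 t, h r u v ≤ hb r u v) {A : Finset V} (hAD : A ⊆ D) {s : ℝ}
    (hs : s ∈ Icc 0 t)
    (hθa : ∀ w ∈ A, ∀ e, ∀ r ∈ Icc 0 t, H w e t - H w e r ≤ x w e * θ w r)
    (hθs : ∀ w ∈ D, w ∉ A → ∀ e, ∀ r ∈ Icc 0 s, H w e s - H w e r ≤ x w e * θ w r) :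
    ∃ Pa Pa' Na' P P' N' : V → ℝ → ℝ,
      W0 h A D s t Dᶜ Pa Pa' (nx hb x D θ Y t) Na' P P' (nx hb x D θ Y t) N'
        (Tb hb (yx hb x D θ Y t))
        (Ab hb (yx hb x D θ Y t)) (Bw hb (nx hb x D θ Y t)) := by
  have h0 : 0 ≤ t := hs.1.trans hs.2
  have m : ∀ r ∈ Icc 0 s, r ∈ Icc 0 t := fun r hr => ⟨hr.1, hr.2.trans hs.2⟩
  obtain ⟨Pa, Pa', La, ea, ba⟩ := hL.phase hx hh h0 hle hAD le_rfl (τ := fun _ => t)
    (fun _ _ => le_rfl) hθa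
  obtain ⟨P, P', Ld, ed, bd⟩ := hL.phase hx hh h0 hle (Finset.Subset.refl D) hs.2
    (τ := fun w => if w ∈ A then t else s)
    (fun w _ => by split_ifs; exacts [hs.2, le_rfl])
    (fun w hw e r hr => by
      by_cases hA : w ∈ A
      · rw [if_pos hA]; exact hθa w hA e r (m r hr)
      · rw [if_neg hA]; exact hθs w hw hA e r hr)
  have key : ∀ {Q : V → ℝ → ℝ} {r : ℝ}, r ∈ Icc 0 t → (∀ e, 0 ≤ Q e r ∧
      Q e r ≤ Real.exp (yx hb x D θ Y t e r) - 1) → ∀ i j,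
      h r i j * Wf Q r i j ≤ Tb hb (yx hb x D θ Y t) r i j ∧
      h r i j * (Wf Q r i j - 1) ≤ Ab hb (yx hb x D θ Y t) r i j := by
    intro Q r hr hQ i j
    have a1 : Wf Q r i j ≤ Real.exp (yx hb x D θ Y t i r + yx hb x D θ Y t j r) := by
      unfold Wf
      rw [Real.exp_add]
      exact mul_le_mul (by linarith [(hQ i).2]) (by linarith [(hQ j).2])
        (by linarith [(hQ j).1]) (Real.exp_pos _).le
    have a2 : 1 ≤ Wf Q r i j := by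
      unfold Wf
      nlinarith [(hQ i).1, (hQ j).1]
    unfold Tb Ab
    exact ⟨mul_le_mul (hle i j r hr) a1 (by linarith) (hL.b0 i j r hr),
      mul_le_mul (hle i j r hr) (by linarith) (by linarith) (hL.b0 i j r hr)⟩
  have kB : ∀ r ∈ Icc 0 t, ∀ i j, h r i j * (1 - Tf (nx hb x D θ Y t) r i j)
      ≤ Bw hb (nx hb x D θ Y t) r i j := by
    intro r hr i j
    unfold Bw Tf
    have n1 := hL.nx_nonneg hx i hr
    have n2 := hL.nx_nonneg hx j hr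
    have n3 := hL.nx_one hx h0 i hr
    have n4 := hL.nx_one hx h0 j hr
    exact mul_le_mul_of_nonneg_right (hle i j r hr) (by nlinarith)
  refine ⟨Pa, Pa', _, P, P', _, La, Ld, fun e _ => ?_, fun e _ => le_rfl,
    fun r hr i _ j _ => (key hr (fun e => ba e r hr) i j).1,
    fun r hr i _ j _ => (key hr (fun e => ba e r hr) i j).2,
    fun r hr i _ j _ => kB r hr i j,
    fun r hr i _ j _ => (key (m r hr) (fun e => bd e r hr) i j).1,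
    fun r hr i _ j _ => (key (m r hr) (fun e => bd e r hr) i j).2,
    fun r hr i _ j _ => kB r (m r hr) i j⟩
  have hss : s ∈ Icc 0 s := ⟨hs.1, le_rfl⟩
  rw [ea e s hs, ed e s hss]
  have e1 : ∑ w ∈ A, (H w e t - H w e s)
      ≤ ∑ w ∈ D, (H w e (if w ∈ A then t else s) - H w e s) := by
    refine le_trans (le_of_eq ?_) (Finset.sum_le_sum_of_subset_of_nonneg hAD fun w _ hw => ?_)
    · exact Finset.sum_congr rfl fun w hw => by rw [if_pos hw]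
    · rw [if_neg hw, sub_self]
  have := Real.exp_le_exp.2 (add_le_add_left e1
    (yv hb Dᶜ (nv hb Dᶜ (yhat x D θ Y) t) t e s))
  linarith


end

end Pool.Agent.RX.RCM

namespace Pool.Agent.RX.RCN.K

open Set Finset MeasureTheory Pool.Agent.RX.RCRSHalf Pool.Agent.RX.RCG Pool.Agent.RX.RCG.Ct

set_option linter.unusedSectionVars false

variable {V : Type*} [Fintype V] [DecidableEq V]

/-- level 0 of the cell with the lower functions of both phases -/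
structure Lz.OkN (F : Lz V) (Z : Hzd) (x : V → V → ℝ) (P : V → Prop) [DecidablePred P]
    (A D : Finset V) (sg α τ : ℝ) : Prop extends F.Ok Z x P A D sg α τ where
  n20 : ∀ t ∈ Icc α τ, ∀ s ∈ Icc 0 t, ∀ e, ∀ r ∈ Icc 0 t, 0 ≤ F.n2 t s e r
  n2c : ∀ t ∈ Icc α τ, ∀ s ∈ Icc 0 t, ∀ e, ContinuousOn (F.n2 t s e) (Icc 0 t)
  n1c : ∀ e, ContinuousOn (F.n1 e) (Icc 0 τ)
  w0N : ∀ (h : ℝ → V → V → ℝ) (H : V → V → ℝ → ℝ), Haz h H → ∀ t ∈ Icc α τ, ∀ s ∈ Icc 0 t,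
    s ≤ sg →
    (∀ u v, ∀ r ∈ Icc 0 t, h r u v ≤ Z.hh x P r u v) →
    (∀ u v, ∀ σ ∈ Icc 0 t, ∀ r ∈ Icc 0 σ, H u v σ - H u v r ≤ Z.Hh x P σ u v r) →
    ∃ Pa Pa' Na' Q Q' N' : V → ℝ → ℝ,
      RCM.W0 h A D s t Dᶜ Pa Pa' (F.n2 t s) Na' Q Q' (F.n2 t s) N'
        (RCM.Tb (Z.hh x P) (F.y2 t s))
        (RCM.Ab (Z.hh x P) (F.y2 t s)) (RCM.Bw (Z.hh x P) (F.n2 t s))

/-- the majorant of `1 - T` of the pair -/
def wN (F : Lz V) (t s : ℝ) (c d : V) (r : ℝ) : ℝ :=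
  1 - (1 - F.n2 t s c r) * (1 - F.n2 t s d r)

variable (Z : Hzd) (F : Lz V) (x : V → V → ℝ) (P : V → Prop) [DecidablePred P]

/-- the pair function without its direct part -/
noncomputable def gmR (G : Fm V) (c d : V) (t : ℝ) : ℝ :=
  G.gm c d 0 - ∫ r in (0 : ℝ)..t, RCM.Bw (Z.hh x P) F.n1 r c d

variable {Z F x P}
variable {sl : ℝ → ℝ → ℝ} {α τ sg : ℝ} {B E1 : ℝ → ℝ → ℝ} {m q : ℝ} {A D : Finset V} {G : Fm V}
variable {h : ℝ → V → V → ℝ} {H : V → V → ℝ → ℝ} {t s : ℝ}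

theorem Lz.OkN.B_cont (hF : F.OkN Z x P A D sg α τ) (hZ : Z.Ok sl) (hx : Wt x P 1)
    (ht : t ∈ Icc α τ) (c d : V) :
    ContinuousOn (fun r => RCM.Bw (Z.hh x P) F.n1 r c d) (Icc 0 t) :=
  ((hZ.hh_cont hx c d).mono (Icc_subset_Icc_right (ht.2.trans hF.τ1))).mul
    (continuousOn_const.sub
      ((continuousOn_const.sub ((hF.n1c c).mono (Icc_subset_Icc_right ht.2))).mul
        (continuousOn_const.sub ((hF.n1c d).mono (Icc_subset_Icc_right ht.2)))))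

theorem Bw_n21 (hF : F.Ok Z x P A D sg α τ) (hZ : Z.Ok sl) (hx : Wt x P 1)
    (ht : t ∈ Icc α τ) (hs : s ∈ Icc 0 t) (hsg : s ≤ sg) {r : ℝ} (hr : r ∈ Icc 0 t) (i j : V) :
    RCM.Bw (Z.hh x P) (F.n2 t s) r i j ≤ RCM.Bw (Z.hh x P) F.n1 r i j := by
  have mτ : r ∈ Icc 0 τ := ⟨hr.1, hr.2.trans ht.2⟩
  unfold RCM.Bw
  refine mul_le_mul_of_nonneg_left ?_ (hZ.hh_nonneg hx ⟨hr.1, mτ.2.trans hF.τ1⟩ i j)
  have h1 := hF.nm t ht s hs hsg i r hr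
  have h2 := hF.nm t ht s hs hsg j r hr
  have h3 := hF.n11 i r mτ
  have h4 := hF.n11 j r mτ
  nlinarith

theorem Lz.OkN.w0_up (hF : F.OkN Z x P A D sg α τ) (hZ : Z.Ok sl) (hx : Wt x P 1)
    (ht : t ∈ Icc α τ) (hs : s ∈ Icc 0 t) (hsg : s ≤ sg) {Pa Pa' Na Na' Q Q' N N' : V → ℝ → ℝ}
    {T Am : ℝ → V → V → ℝ}
    (w : RCM.W0 h A D s t Dᶜ Pa Pa' Na Na' Q Q' N N' T Am (RCM.Bw (Z.hh x P) (F.n2 t s))) :
    RCM.W0 h A D s t Dᶜ Pa Pa' Na Na' Q Q' N N' T Am (RCM.Bw (Z.hh x P) F.n1) :=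
  ⟨w.La, w.L, w.mP, w.mN, w.Ta, w.Aa, fun r hr i hi j hj => (w.Ba r hr i hi j hj).trans
    (Bw_n21 hF.toOk hZ hx ht hs hsg hr i j), w.Td, w.Ad, fun r hr i hi j hj =>
    (w.Bd r hr i hi j hj).trans (Bw_n21 hF.toOk hZ hx ht hs hsg ⟨hr.1, hr.2.trans hs.2⟩ i j)⟩

/-- level 1/2 in the world of the two times, with the direct part of the cell -/
theorem Fm.Ok.g2R (hG : G.Ok Z F x P sg τ D B m q) (hF : F.Ok Z x P A D sg α τ) (hZ : Z.Ok sl)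
    (hx : Wt x P 1) (ht : t ∈ Icc α τ) (hs : s ∈ Icc 0 t) (hsg : s ≤ sg) :
    ∃ gp' gm', RCM.S12 Dᶜ t (K2 Z F x P t s)
      (RCM.Ab (Z.hh x P) (F.y2 t s))
      (RCM.Bw (Z.hh x P) F.n1) G.gp gp' G.gm gm' := by
  obtain ⟨gp', gm', hg⟩ := hG.g
  have mτ : ∀ r ∈ Icc 0 t, r ∈ Icc 0 τ := fun r hr => ⟨hr.1, hr.2.trans ht.2⟩
  have m1 : ∀ r ∈ Icc 0 t, r ∈ Icc (0 : ℝ) bt := fun r hr => ⟨hr.1, (mτ r hr).2.trans hF.τ1⟩
  refine ⟨gp', gm', hg.mono ht.2 (fun r hr i _ j _ => K2_le hF hZ hx ht hs hsg hr i j)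
    (fun r hr i _ j _ => ?_) (fun r hr i _ j _ => le_rfl)⟩
  unfold RCM.Ab
  refine mul_le_mul_of_nonneg_left ?_ (hZ.hh_nonneg hx (m1 r hr) i j)
  linarith [Real.exp_le_exp.2 (add_le_add (hF.ym t ht s hs hsg i r hr)
    (hF.ym t ht s hs hsg j r hr))]

end Pool.Agent.RX.RCN.K
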