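import Pool.Agent.RX.RCM.LzI
import Pool.Agent.RX.RCM.NuR

/-! Joint continuity of the refined exponents; level 0 of the cell with the lower functions
(MP_73ccd0_lc, route M). -/

namespace Pool.Agent.RX.RCM

open Set Finset MeasureTheory Pool.Agent.RX.RCRSHalf Pool.Agent.RX.RCG

variable {V : Type*} [Fintype V] [DecidableEq V]

theorem L0s.nx_cont {hb : ℝ → V → V → ℝ} {x : V → V → ℝ} {D : Finset V} {t : ℝ} {mb : ℝ → ℝ}
    {θ : V → ℝ → ℝ} {Y Y' N N' : ℝ → ℝ} (hL : L0s hb x D t mb θ Y Y' N N') (h0 : 0 ≤ t) (e : V) :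
    ContinuousOn (nx hb x D θ Y t e) (Icc 0 t) := by
  by_cases he : e ∈ D
  · refine (continuousOn_const (c := (0 : ℝ))).congr fun r _ => ?_
    unfold nx
    rw [if_pos he]
  · rw [nx_eq (Finset.mem_compl.2 he)]
    exact nv_cont h0 hL.bc (hL.yx_cont h0) _ e

end Pool.Agent.RX.RCM

namespace Pool.Agent.RX.RCN.K

open Set Finset MeasureTheory Pool.Agent.RX.RCRSHalf Pool.Agent.RX.RCG Pool.Agent.RX.RCG.Ct

set_option linter.unusedSectionVars false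

variable {V : Type*} [Fintype V] [DecidableEq V]

section

variable {Z : Hzd} {x : V → V → ℝ} {P : V → Prop} [DecidablePred P] {sl : ℝ → ℝ → ℝ}
variable {α τ sg : ℝ} {A D : Finset V} {θ2 : ℝ → ℝ → V → ℝ → ℝ} {Y2 : ℝ → ℝ → ℝ → ℝ}
variable {θ1 : V → ℝ → ℝ} {Y1 mb : ℝ → ℝ}

/-- **level 0 of the cell, with the lower functions of both phases** -/
theorem lz_okN (hx : Wt x P 1) (hAD : A ⊆ D) (α0 : 0 ≤ α) (ατ : α ≤ τ) (τ1 : τ ≤ bt)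
    (sg0 : 0 ≤ sg) (sgτ : sg ≤ τ)
    (h2 : ∀ t ∈ Icc α τ, ∀ s ∈ Icc 0 t, Sy Z x P D mb t (θ2 t s) (Y2 t s))
    (h1 : Sy Z x P D mb τ θ1 Y1)
    (hθ : ∀ t ∈ Icc α τ, ∀ s ∈ Icc 0 t, s ≤ sg → ∀ w ∈ D, ∀ r ∈ Icc 0 t, θ2 t s w r ≤ θ1 w r)
    (hY : ∀ t ∈ Icc α τ, ∀ s ∈ Icc 0 t, ∀ r ∈ Icc 0 t, Y2 t s r ≤ Y1 r)
    (ca : ∀ t ∈ Icc α τ, ∀ s ∈ Icc 0 t, ∀ w ∈ A, ∀ r ∈ Icc 0 t, Clt Z r t (θ2 t s w r))
    (cs : ∀ t ∈ Icc α τ, ∀ s ∈ Icc 0 t, ∀ w ∈ D, w ∉ A → ∀ r ∈ Icc 0 s,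
      Clt Z r s (θ2 t s w r)) :
    (lz Z x P D θ2 Y2 θ1 Y1 τ).OkN Z x P A D sg α τ := by
  have hx' := wt_of hx
  have τ0 : 0 ≤ τ := α0.trans ατ
  refine ⟨lz_ok hx hAD α0 ατ τ1 sg0 sgτ h2 h1 hθ hY ca cs, fun t ht s hs e r hr => ?_,
    fun t ht s hs e => ?_, fun e => ?_, fun h H hh t ht s hs _ hle hHle => ?_⟩
  · obtain ⟨Y2', N2, N2', hL2⟩ := h2 t ht s hs
    exact hL2.nx_nonneg hx' e hr
  · obtain ⟨Y2', N2, N2', hL2⟩ := h2 t ht s hs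
    exact hL2.nx_cont (α0.trans ht.1) e
  · obtain ⟨Y1', N1, N1', hL1⟩ := h1
    exact hL1.nx_cont τ0 e
  · obtain ⟨Y2', N2, N2', hL2⟩ := h2 t ht s hs
    have ht0 : t ∈ Icc 0 t := ⟨α0.trans ht.1, le_rfl⟩
    exact hL2.w0N hx' hh hle hAD hs
      (fun w hw e r hr => (hHle w e t ht0 r hr).trans
        ((ca t ht s hs w hw r hr).Hh_le hx hr.1 hr.2 w e))
      (fun w hw hA e r hr => (hHle w e s hs r hr).trans
        ((cs t ht s hs w hw hA r hr).Hh_le hx hr.1 hr.2 w e))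

/-- joint continuity of the lower functions -/
theorem lz_n2c3 (hZ : Z.Ok sl) (hx : Wt x P 1) (α0 : 0 ≤ α) (ατ : α ≤ τ) (τ1 : τ ≤ bt)
    (cθ : ∀ w ∈ D, C3 α τ fun t s r => θ2 t s w r) (cY : C3 α τ Y2) (e : V) :
    C3 α τ fun t s r => (lz Z x P D θ2 Y2 θ1 Y1 τ).n2 t s e r := by
  by_cases he : e ∈ D
  · refine (continuousOn_const (c := (0 : ℝ))).congr fun p _ => ?_
    show RCM.nx (Z.hh x P) x D (θ2 p.1 p.2.1) (Y2 p.1 p.2.1) p.1 e p.2.2 = 0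
    unfold RCM.nx
    rw [if_pos he]
  · have ch : ∀ e f, C3 α τ fun _ _ r => Z.hh x P r e f := hh_c3 hZ hx τ1
    have c1 := fun f => lz_c3 (Z := Z) (P := P) (D := D) (θ1 := θ1) (Y1 := Y1) (θ2 := θ2) (Y2 := Y2)
      hZ hx α0 ατ τ1 cθ cY f
    refine (bk_c3 (f := fun t s ρ => ∑ g ∈ Dᶜ, Z.hh x P ρ e g
      * (Real.exp ((lz Z x P D θ2 Y2 θ1 Y1 τ).y2 t s g ρ) - 1))
      (continuousOn_finsetSum _ fun g _ => (ch e g).mul
        ((Real.continuous_exp.comp_continuousOn (c1 g)).sub continuousOn_const)) α0 ατ).congr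
      fun p _ => ?_
    show RCM.nx (Z.hh x P) x D (θ2 p.1 p.2.1) (Y2 p.1 p.2.1) p.1 e p.2.2 = _
    rw [RCM.nx_eq (Finset.mem_compl.2 he)]
    rfl

end

variable {Z : Hzd} {F : Lz V} {x : V → V → ℝ} {P : V → Prop} [DecidablePred P]
variable {sl : ℝ → ℝ → ℝ} {α τ sg : ℝ} {B E1 : ℝ → ℝ → ℝ} {m q : ℝ} {A D : Finset V} {G : Fm V}

/-- continuity of the pair function without its direct part -/
theorem gmR_cont (hF : F.OkN Z x P A D sg α τ) (hZ : Z.Ok sl) (hx : Wt x P 1) (c d : V) :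
    ContinuousOn (fun p : ℝ × ℝ => gmR Z F x P G c d p.1) (Wg α τ) := by
  have τ0 : 0 ≤ τ := hF.α0.trans hF.ατ
  have cB := hF.B_cont hZ hx ⟨hF.ατ, le_rfl⟩ c d
  have h1 : ContinuousOn (fun r => ∫ ρ in (0 : ℝ)..r, RCM.Bw (Z.hh x P) F.n1 ρ c d)
      (Icc 0 τ) := by
    have := intervalIntegral.continuousOn_primitive_interval (μ := volume) (a := (0 : ℝ))
      (b := τ) (f := fun ρ => RCM.Bw (Z.hh x P) F.n1 ρ c d)
      (by rw [uIcc_of_le τ0]; exact cB.integrableOn_Icc)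
    rwa [uIcc_of_le τ0] at this
  exact continuousOn_const.sub (wg_fst hF.α0 h1)

end Pool.Agent.RX.RCN.K
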