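import Pool.Agent.RX.RCM.NuR

/-! The closures with the signed direct part: the true hazard of the pair `c`, `d` also in the
target function of `c`, and a lower bound of the hazards (MP_73ccd0_lc, route M). -/

namespace Pool.Agent.RX.RCM

open Set Finset MeasureTheory Pool.Agent.RX.RCRSHalf Pool.Agent.RX.RCG

set_option linter.unusedSectionVars false

variable {V : Type*} [Fintype V] [DecidableEq V]

/-! ### signed products -/

/-- majorant of `h' z` for `l ≤ h' ≤ h` -/
noncomputable def sp (h l z : ℝ) : ℝ := h * max 0 z - l * max 0 (-z)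

theorem le_sp {h l h' z : ℝ} (h1 : l ≤ h') (h2 : h' ≤ h) : h' * z ≤ sp h l z := by
  unfold sp
  rcases le_total 0 z with hz | hz
  · rw [max_eq_right hz, max_eq_left (by linarith : -z ≤ 0), mul_zero, sub_zero]
    exact mul_le_mul_of_nonneg_right h2 hz
  · rw [max_eq_left hz, max_eq_right (by linarith : 0 ≤ -z), mul_zero, zero_sub]
    nlinarith

theorem sp_mono {h l z z' : ℝ} (h0 : 0 ≤ h) (l0 : 0 ≤ l) (hz : z ≤ z') : sp h l z ≤ sp h l z' := by
  unfold sp
  have h1 := mul_le_mul_of_nonneg_left (max_le_max (le_refl (0 : ℝ)) hz) h0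
  have h2 := mul_le_mul_of_nonneg_left (max_le_max (le_refl (0 : ℝ)) (neg_le_neg hz)) l0
  linarith

theorem sp_cont {A : Set ℝ} {f g z : ℝ → ℝ} (hf : ContinuousOn f A) (hg : ContinuousOn g A)
    (hz : ContinuousOn z A) : ContinuousOn (fun r => sp (f r) (g r) (z r)) A :=
  (hf.mul (continuousOn_const.sup hz)).sub (hg.mul (continuousOn_const.sup hz.neg))

/-! ### the function of one vertex replaced -/

/-- the function of one vertex replaced -/
def updv (p : V → ℝ → ℝ) (d : V) (f : ℝ → ℝ) : V → ℝ → ℝ := fun e => if e = d then f else p e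

theorem updv_self (p : V → ℝ → ℝ) (d : V) (f : ℝ → ℝ) : updv p d f d = f := by simp [updv]

theorem updv_ne {p : V → ℝ → ℝ} {d e : V} {f : ℝ → ℝ} (h : e ≠ d) : updv p d f e = p e := by
  simp [updv, h]

theorem updv_le {p : V → ℝ → ℝ} {d : V} {f : ℝ → ℝ} {r : ℝ} (h : f r ≤ p d r) (e : V) :
    updv p d f e r ≤ p e r := by
  by_cases he : e = d
  · rw [he, updv_self]; exact h
  · rw [updv_ne he]

theorem updv_nonneg {p : V → ℝ → ℝ} {d : V} {f : ℝ → ℝ} {r : ℝ} (h : 0 ≤ f r) {e : V}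
    (hp : 0 ≤ p e r) : 0 ≤ updv p d f e r := by
  by_cases he : e = d
  · rw [he, updv_self]; exact h
  · rwa [updv_ne he]

/-- **level 1 with the target function of one vertex replaced** -/
theorem SV.upd {X : Finset V} {t : ℝ} {κ : ℝ → V → ℝ} {T : ℝ → V → V → ℝ}
    {gp gm : V → V → ℝ → ℝ} {p p' n n' : V → ℝ → ℝ} (hS : SV X t κ T gp gm p p' n n') {d : V}
    {f f' k : ℝ → ℝ} (hT : ∀ r ∈ Icc 0 t, ∀ i ∈ X, ∀ j ∈ X, 0 ≤ T r i j)
    (gp0 : ∀ i j, ∀ r ∈ Icc 0 t, 0 ≤ gp i j r) (gm0 : ∀ i j, ∀ r ∈ Icc 0 t, 0 ≤ gm i j r)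
    (df : ∀ r ∈ Icc 0 t, HasDerivAt f (f' r) r) (f0 : ∀ r ∈ Icc 0 t, 0 ≤ f r)
    (fle : ∀ r ∈ Icc 0 t, f r ≤ p d r)
    (hf' : ∀ r ∈ Icc 0 t, k r - κ r d + f' r ≤ p' d r) :
    SV X t (fun r e => if e = d then k r else κ r e) T gp gm (updv p d f) (updv p' d f') n n' := by
  have e1 : ∀ {z : ℝ}, 0 ≤ z → 0 ≤ 1 - Real.exp (-z) := fun {z} hz => by
    have := Real.exp_le_one_iff.2 (by linarith : -z ≤ 0); linarith
  have f2 : ∀ {z w : ℝ}, z ≤ w → Real.exp z - 1 ≤ Real.exp w - 1 := fun {z w} h => by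
    have := Real.exp_le_exp.2 h; linarith
  have ee : ∀ {i b : V}, b ∈ X.erase i → b ∈ X := fun hb => Finset.mem_of_mem_erase hb
  have ul : ∀ r ∈ Icc 0 t, ∀ e, updv p d f e r ≤ p e r := fun r hr e => updv_le (fle r hr) e
  refine ⟨fun e he r hr => ?_, hS.dn, fun e r hr => updv_nonneg (f0 r hr) (hS.p0 e r hr), hS.n0,
    fun e he r hr => ?_, fun e he r hr => ?_⟩
  · by_cases h : e = d
    · rw [h, updv_self, updv_self]; exact df r hr
    · rw [updv_ne h, updv_ne h]; exact hS.dp e he r hr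
  · have key : (1 / 2) * ∑ x ∈ X.erase e, ∑ y ∈ X.erase e, T r x y *
          (max ((1 - Real.exp (-(n x r + n y r))) * (1 - Real.exp (-(gm e x r + gm e y r))))
            ((Real.exp (updv p d f x r + updv p d f y r) - 1)
              * (1 - Real.exp (-(gp e x r + gp e y r)))))
        ≤ (1 / 2) * ∑ x ∈ X.erase e, ∑ y ∈ X.erase e, T r x y *
          (max ((1 - Real.exp (-(n x r + n y r))) * (1 - Real.exp (-(gm e x r + gm e y r))))
            ((Real.exp (p x r + p y r) - 1) * (1 - Real.exp (-(gp e x r + gp e y r))))) := by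
      refine mul_le_mul_of_nonneg_left ?_ (by norm_num)
      refine Finset.sum_le_sum fun x hx => Finset.sum_le_sum fun y hy => ?_
      refine mul_le_mul_of_nonneg_left ?_ (hT r hr x (ee hx) y (ee hy))
      refine max_le_max le_rfl ?_
      exact mul_le_mul_of_nonneg_right (f2 (add_le_add (ul r hr x) (ul r hr y)))
        (e1 (add_nonneg (gp0 e x r hr) (gp0 e y r hr)))
    have ho := hS.op e he r hr
    by_cases h : e = d
    · subst h
      rw [updv_self (p := p')]
      simp only [if_true]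
      have := hf' r hr
      linarith
    · rw [updv_ne (p := p') h]
      simp only [if_neg h]
      linarith
  · have ho := hS.on e he r hr
    have k1 : ∑ b ∈ X.erase e, T r e b * (Real.exp (updv p d f b r) - 1)
        ≤ ∑ b ∈ X.erase e, T r e b * (Real.exp (p b r) - 1) :=
      Finset.sum_le_sum fun b hb => mul_le_mul_of_nonneg_left (f2 (ul r hr b))
        (hT r hr e he b (ee hb))
    have k2 : (1 / 2) * ∑ x ∈ X.erase e, ∑ y ∈ X.erase e, T r x y *
          (max ((1 - Real.exp (-(n x r + n y r))) * (1 - Real.exp (-(gp e x r + gp e y r))))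
            ((Real.exp (updv p d f x r + updv p d f y r) - 1)
              * (1 - Real.exp (-(gm e x r + gm e y r)))))
        ≤ (1 / 2) * ∑ x ∈ X.erase e, ∑ y ∈ X.erase e, T r x y *
          (max ((1 - Real.exp (-(n x r + n y r))) * (1 - Real.exp (-(gp e x r + gp e y r))))
            ((Real.exp (p x r + p y r) - 1) * (1 - Real.exp (-(gm e x r + gm e y r))))) := by
      refine mul_le_mul_of_nonneg_left ?_ (by norm_num)
      refine Finset.sum_le_sum fun x hx => Finset.sum_le_sum fun y hy => ?_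
      refine mul_le_mul_of_nonneg_left ?_ (hT r hr x (ee hx) y (ee hy))
      refine max_le_max le_rfl ?_
      exact mul_le_mul_of_nonneg_right (f2 (add_le_add (ul r hr x) (ul r hr y)))
        (e1 (add_nonneg (gm0 e x r hr) (gm0 e y r hr)))
    linarith

/-- level 2 does not see the replaced function -/
theorem Sk.updv {X : Finset V} {s : ℝ} {T : ℝ → V → V → ℝ} {pc nc pd nd : V → ℝ → ℝ}
    {k k' : ℝ → ℝ} (hk : Sk X s T pc nc pd nd k k') {d : V} (hd : d ∉ X) (f : ℝ → ℝ) :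
    Sk X s T (RCM.updv pc d f) nc pd nd k k' := by
  refine ⟨hk.d, fun r hr => le_trans (le_of_eq ?_) (hk.o r hr)⟩
  refine congrArg _ (Finset.sum_congr rfl fun x hx => Finset.sum_congr rfl fun y hy => ?_)
  have hx' : x ≠ d := fun h => hd (by rw [← h]; exact hx)
  have hy' : y ≠ d := fun h => hd (by rw [← h]; exact hy)
  rw [updv_ne hx', updv_ne hy']

variable {h : ℝ → V → V → ℝ} {H : V → V → ℝ → ℝ}

end Pool.Agent.RX.RCM

namespace Pool.Agent.RX.RCN.K

open Set Finset MeasureTheory Pool.Agent.RX.RCRSHalf Pool.Agent.RX.RCG Pool.Agent.RX.RCG.Ct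

set_option linter.unusedSectionVars false

variable {V : Type*} [Fintype V] [DecidableEq V]

/-- the lower bound of the hazard of a pair -/
noncomputable def lx (x : V → V → ℝ) (P : V → Prop) [DecidablePred P] (lo : ℝ → ℝ) (c d : V)
    (r : ℝ) : ℝ := if P c ∧ P d then x c d * lo r else 0

variable (Z : Hzd) (F : Lz V) (x : V → V → ℝ) (P : V → Prop) [DecidablePred P] (lo : ℝ → ℝ)

/-- **the signed direct part** -/
noncomputable def DiS (D : Finset V) (c d : V) (t s ε n1 n2 : ℝ) : ℝ :=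
  (∫ r in s..t, RCM.sp (Z.hh x P r c d) (lx x P lo c d r)
    (ε + wN F t s c d r - Real.exp (-(n1 + Z.Hh x P r c d 0
        + ∫ ρ in (0 : ℝ)..r, ∑ f ∈ (Dᶜ.erase c).erase d, K2 Z F x P t s ρ d f))))
    + ∫ r in (0 : ℝ)..s, RCM.sp (Z.hh x P r c d) (lx x P lo c d r)
    (1 + wN F t s c d r - Real.exp (-(n1 + Z.Hh x P r c d 0
        + ∫ ρ in (0 : ℝ)..r, ∑ f ∈ (Dᶜ.erase c).erase d, K2 Z F x P t s ρ d f))
      - Real.exp (-(n2 + Z.Hh x P r c d 0
        + ∫ ρ in (0 : ℝ)..r, ∑ f ∈ (Dᶜ.erase d).erase c, K2 Z F x P t s ρ c f)))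

/-- the exponent of the deleted closure, signed direct part -/
noncomputable def LdS (G : Fm V) (τ : ℝ) (D : Finset V) (c d : V) (t s : ℝ) : ℝ :=
  Kdd Z F x P D c d τ s G.d3 G.c4 (G.p c) (G.n c) (G.pd s d) (G.nd s d)
    + gmR Z F x P G c d t + (N2 Z F x P D t s t c d 0 + G.n c d 0)
    + (N2 Z F x P D t s s d c 0 + G.nd s d c 0)
    + DiS Z F x P lo D c d t s 0 (N2 Z F x P D t s t c d 0 + G.n c d 0)
      (N2 Z F x P D t s s d c 0 + G.nd s d c 0)

/-- the exponent of the released closure, signed direct part -/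
noncomputable def LtS (G : Fm V) (τ : ℝ) (D : Finset V) (c d : V) (t s : ℝ) : ℝ :=
  G.p c d s
    + Kdd Z F x P D c d τ s G.d3 G.c4 (G.p c) (G.n c) (G.pt s d) (G.nt s d)
    + gmR Z F x P G c d t + (N2 Z F x P D t s t c d 0 + G.n c d 0)
    + (N2 Z F x P D t s s d c 0 + G.nt s d c 0)
    + DiS Z F x P lo D c d t s 1 (N2 Z F x P D t s t c d 0 + G.n c d 0)
      (N2 Z F x P D t s s d c 0 + G.nt s d c 0)

variable {Z F x P lo}
variable {sl : ℝ → ℝ → ℝ} {α τ sg : ℝ} {B E1 : ℝ → ℝ → ℝ} {m q : ℝ} {A D : Finset V} {G : Fm V}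
variable {h : ℝ → V → V → ℝ} {H : V → V → ℝ → ℝ} {t s : ℝ}

theorem lx_cont {A : Set ℝ} (cl : ContinuousOn lo A) (c d : V) :
    ContinuousOn (lx x P lo c d) A := by
  unfold lx
  split_ifs
  · exact continuousOn_const.mul cl
  · exact continuousOn_const

theorem lx_le {t : ℝ} (hn : ∀ r u v, 0 ≤ h r u v)
    (hlo : ∀ u v, P u → P v → ∀ r ∈ Icc 0 t, x u v * lo r ≤ h r u v) (c d : V) {r : ℝ}
    (hr : r ∈ Icc 0 t) : lx x P lo c d r ≤ h r c d := by
  unfold lx
  split_ifs with hP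
  · exact hlo c d hP.1 hP.2 r hr
  · exact hn r c d

end Pool.Agent.RX.RCN.K
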