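import Pool.Agent.RX.RCM.GmR
import Pool.Agent.RX.RCM.Ins
import Pool.Agent.RX.RCM.Kt
import Pool.Agent.RX.RCM.NuC
import Pool.Agent.RX.RCM.NuS_1

/-! The closures with the signed direct part: the true hazard of the pair `c`, `d` also in the
target function of `c`, and a lower bound of the hazards (MP_73ccd0_lc, route M). -/

namespace Pool.Agent.RX.RCM

open Set Finset MeasureTheory Pool.Agent.RX.RCRSHalf Pool.Agent.RX.RCRSGen Pool.Agent.RX.RCG

set_option linter.unusedSectionVars false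

variable {V : Type*} [Fintype V] [DecidableEq V]

/-! ### signed products -/

/-! ### the function of one vertex replaced -/

variable {h : ℝ → V → V → ℝ} {H : V → V → ℝ → ℝ}

/-- **the signed contribution of the direct pair**: `ε` is `0` for the deleted and `1` for the
released closure; `w` majorises `1 - T`, `B` is the majorant of `h (1 - T)` contained in the pair
function, `lb ≤ h ≤ hb` -/
theorem ins_boundS (hh : Haz h H) {c d : V} {s t : ℝ} (hs : s ∈ Icc 0 t) {Rc Rd : ℝ → ℝ}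
    (cRc : ContinuousOn Rc (Icc 0 s)) (cRd : ContinuousOn Rd (Icc 0 t))
    {pc pd n1 n2 ε : ℝ}
    (hpc : pc = ∫ r in (0 : ℝ)..t, h r c d * Real.exp (-(H c d r + ∫ ρ in (0 : ℝ)..r, Rd ρ)))
    (hpd : pd = ∫ r in (0 : ℝ)..s, h r c d * Real.exp (-(H c d r + ∫ ρ in (0 : ℝ)..r, Rc ρ)))
    {hb lb Hb w : ℝ → ℝ}
    (chb : ContinuousOn hb (Icc 0 t)) (clb : ContinuousOn lb (Icc 0 t))
    (cHb : ContinuousOn Hb (Icc 0 t)) (cw : ContinuousOn w (Icc 0 t))
    (hhb : ∀ r ∈ Icc 0 t, h r c d ≤ hb r) (hlb : ∀ r ∈ Icc 0 t, lb r ≤ h r c d)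
    (hHb : ∀ r ∈ Icc 0 t, H c d r ≤ Hb r)
    {Bm : ℝ → V → V → ℝ} {N Na : V → ℝ → ℝ}
    (cB : ContinuousOn (fun r => Bm r c d) (Icc 0 t))
    (cN : ContinuousOn (fun r => Tf N r c d) (Icc 0 s))
    (cNa : ContinuousOn (fun r => Tf Na r c d) (Icc 0 t))
    (hN : ∀ r ∈ Icc 0 s, 1 - Tf N r c d ≤ w r) (hNa : ∀ r ∈ Icc s t, 1 - Tf Na r c d ≤ w r) :
    -(∫ r in (0 : ℝ)..s, dfc h Bm N c d r) - (∫ r in s..t, dfc h Bm Na c d r)
        + (H c d s - pc * Real.exp (-n1) - pd * Real.exp (-n2)) + ε * (H c d t - H c d s)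
      ≤ -(∫ r in (0 : ℝ)..t, Bm r c d)
        + (∫ r in s..t, sp (hb r) (lb r)
            (ε + w r - Real.exp (-(n1 + Hb r + ∫ ρ in (0 : ℝ)..r, Rd ρ))))
        + ∫ r in (0 : ℝ)..s, sp (hb r) (lb r)
            (1 + w r - Real.exp (-(n1 + Hb r + ∫ ρ in (0 : ℝ)..r, Rd ρ))
              - Real.exp (-(n2 + Hb r + ∫ ρ in (0 : ℝ)..r, Rc ρ))) := by
  have h0t : 0 ≤ t := hs.1.trans hs.2
  have sub : Icc s t ⊆ Icc 0 t := Icc_subset_Icc_left hs.1
  have sub' : Icc 0 s ⊆ Icc 0 t := Icc_subset_Icc_right hs.2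
  -- continuity of the integrands
  have prim : ∀ {R : ℝ → ℝ} {τ : ℝ}, 0 ≤ τ → ContinuousOn R (Icc 0 τ) →
      ContinuousOn (fun r => ∫ ρ in (0 : ℝ)..r, R ρ) (Icc 0 τ) := by
    intro R τ hτ cR
    have := intervalIntegral.continuousOn_primitive_interval (μ := volume) (a := (0 : ℝ))
      (b := τ) (f := R) (by rw [uIcc_of_le hτ]; exact cR.integrableOn_Icc)
    rwa [uIcc_of_le hτ] at this
  have cH : Continuous (H c d) := continuous_iff_continuousAt.2 fun r => (hh.Hd c d r).continuousAt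
  have ch : Continuous fun r => h r c d := hh.cont c d
  have cE : ∀ {R : ℝ → ℝ} {τ : ℝ}, 0 ≤ τ → ContinuousOn R (Icc 0 τ) →
      ContinuousOn (fun r => h r c d * Real.exp (-(H c d r + ∫ ρ in (0 : ℝ)..r, R ρ)))
        (Icc 0 τ) := fun {R τ} hτ cR =>
    ch.continuousOn.mul
      (Real.continuous_exp.comp_continuousOn ((cH.continuousOn.add (prim hτ cR)).neg))
  have ii : ∀ {f : ℝ → ℝ} {a b τ : ℝ}, ContinuousOn f (Icc 0 τ) → 0 ≤ a → a ≤ b → b ≤ τ →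
      IntervalIntegrable f volume a b := fun {f a b τ} hf ha hab hb =>
    (hf.mono (by rw [uIcc_of_le hab]; exact Icc_subset_Icc ha hb)).intervalIntegrable
  -- the defect on `[0, s]`
  have cTN : ContinuousOn (fun r => h r c d * (1 - Tf N r c d)) (Icc 0 s) :=
    ch.continuousOn.mul (continuousOn_const.sub cN)
  have cTNa : ContinuousOn (fun r => h r c d * (1 - Tf Na r c d)) (Icc 0 t) :=
    ch.continuousOn.mul (continuousOn_const.sub cNa)
  have iB1 : IntervalIntegrable (fun r => Bm r c d) volume 0 s := ii cB le_rfl hs.1 hs.2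
  have iB2 : IntervalIntegrable (fun r => Bm r c d) volume s t := ii cB hs.1 hs.2 le_rfl
  have d1 : ∫ r in (0 : ℝ)..s, dfc h Bm N c d r
      = (∫ r in (0 : ℝ)..s, Bm r c d) - ∫ r in (0 : ℝ)..s, h r c d * (1 - Tf N r c d) :=
    intervalIntegral.integral_sub iB1 (ii cTN le_rfl hs.1 le_rfl)
  have d2 : ∫ r in s..t, dfc h Bm Na c d r
      = (∫ r in s..t, Bm r c d) - ∫ r in s..t, h r c d * (1 - Tf Na r c d) :=
    intervalIntegral.integral_sub iB2 (ii cTNa hs.1 hs.2 le_rfl)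
  have d3 : (∫ r in (0 : ℝ)..s, Bm r c d) + (∫ r in s..t, Bm r c d)
      = ∫ r in (0 : ℝ)..t, Bm r c d :=
    intervalIntegral.integral_add_adjacent_intervals iB1 iB2
  have d4 : ∫ r in s..t, h r c d * (1 - Tf Na r c d) ≤ ∫ r in s..t, h r c d * w r := by
    refine intervalIntegral.integral_mono_on hs.2 (ii cTNa hs.1 hs.2 le_rfl)
      (ii (ch.continuousOn.mul cw) hs.1 hs.2 le_rfl) fun r hr => ?_
    exact mul_le_mul_of_nonneg_left (hNa r hr) (hh.nonneg r c d)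
  have d5 : ∫ r in (0 : ℝ)..s, h r c d * (1 - Tf N r c d) ≤ ∫ r in (0 : ℝ)..s, h r c d * w r := by
    refine intervalIntegral.integral_mono_on hs.1 (ii cTN le_rfl hs.1 le_rfl)
      (ii (ch.continuousOn.mul cw) le_rfl hs.1 hs.2) fun r hr => ?_
    exact mul_le_mul_of_nonneg_left (hN r hr) (hh.nonneg r c d)
  -- the insertion functions
  set fd : ℝ → ℝ := fun r => h r c d * Real.exp (-(H c d r + ∫ ρ in (0 : ℝ)..r, Rd ρ)) with hfd
  set fc : ℝ → ℝ := fun r => h r c d * Real.exp (-(H c d r + ∫ ρ in (0 : ℝ)..r, Rc ρ)) with hfc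
  have cfd : ContinuousOn fd (Icc 0 t) := cE h0t cRd
  have cfc : ContinuousOn fc (Icc 0 s) := cE hs.1 cRc
  have e1 : (∫ r in (0 : ℝ)..s, fd r) + ∫ r in s..t, fd r = pc := by
    rw [hpc, intervalIntegral.integral_add_adjacent_intervals (ii cfd le_rfl hs.1 hs.2)
      (ii cfd hs.1 hs.2 le_rfl)]
  have e2 : H c d s = ∫ r in (0 : ℝ)..s, h r c d := by
    rw [intervalIntegral.integral_eq_sub_of_hasDerivAt (f := H c d) (fun r _ => hh.Hd c d r)
      (ch.intervalIntegrable _ _), hh.H0, sub_zero]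
  have e2' : H c d t - H c d s = ∫ r in s..t, h r c d := by
    rw [intervalIntegral.integral_eq_sub_of_hasDerivAt (f := H c d) (fun r _ => hh.Hd c d r)
      (ch.intervalIntegrable _ _)]
  have i1 : IntervalIntegrable fd volume 0 s := ii cfd le_rfl hs.1 hs.2
  have i1' : IntervalIntegrable fd volume s t := ii cfd hs.1 hs.2 le_rfl
  have i2 : IntervalIntegrable fc volume 0 s := ii cfc le_rfl hs.1 le_rfl
  have ih : IntervalIntegrable (fun r => h r c d) volume 0 s := ch.intervalIntegrable _ _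
  have ih' : IntervalIntegrable (fun r => h r c d) volume s t := ch.intervalIntegrable _ _
  have iw : IntervalIntegrable (fun r => h r c d * w r) volume 0 s :=
    ii (ch.continuousOn.mul cw) le_rfl hs.1 hs.2
  have iw' : IntervalIntegrable (fun r => h r c d * w r) volume s t :=
    ii (ch.continuousOn.mul cw) hs.1 hs.2 le_rfl
  have e4 : (∫ r in (0 : ℝ)..s, h r c d * w r) + (∫ r in s..t, h r c d * w r)
        + (H c d s - pc * Real.exp (-n1) - pd * Real.exp (-n2)) + ε * (H c d t - H c d s)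
      = (∫ r in s..t, (h r c d * w r + ε * h r c d - fd r * Real.exp (-n1)))
        + ∫ r in (0 : ℝ)..s, (h r c d * w r + h r c d - fd r * Real.exp (-n1)
        - fc r * Real.exp (-n2)) := by
    rw [intervalIntegral.integral_sub ((iw.add ih).sub (i1.mul_const _)) (i2.mul_const _),
      intervalIntegral.integral_sub (iw.add ih) (i1.mul_const _),
      intervalIntegral.integral_add iw ih,
      intervalIntegral.integral_sub (iw'.add (ih'.const_mul ε)) (i1'.mul_const _),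
      intervalIntegral.integral_add iw' (ih'.const_mul ε),
      intervalIntegral.integral_mul_const, intervalIntegral.integral_mul_const,
      intervalIntegral.integral_mul_const, intervalIntegral.integral_const_mul, ← e2, ← e2', hpd,
      ← e1]
    ring
  have cS1 : ContinuousOn (fun r => ∫ ρ in (0 : ℝ)..r, Rd ρ) (Icc 0 t) := prim h0t cRd
  have cS2 : ContinuousOn (fun r => ∫ ρ in (0 : ℝ)..r, Rc ρ) (Icc 0 s) := prim hs.1 cRc
  have cA1 : ContinuousOn (fun r => Real.exp (-(n1 + Hb r + ∫ ρ in (0 : ℝ)..r, Rd ρ)))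
      (Icc 0 t) :=
    Real.continuous_exp.comp_continuousOn ((continuousOn_const.add cHb).add cS1).neg
  have cA2 : ContinuousOn (fun r => Real.exp (-(n2 + Hb r + ∫ ρ in (0 : ℝ)..r, Rc ρ)))
      (Icc 0 s) :=
    Real.continuous_exp.comp_continuousOn
      ((continuousOn_const.add (cHb.mono sub')).add cS2).neg
  have a1 : ∀ r ∈ Icc 0 t, Real.exp (-(n1 + Hb r + ∫ ρ in (0 : ℝ)..r, Rd ρ))
      ≤ Real.exp (-(H c d r + ∫ ρ in (0 : ℝ)..r, Rd ρ)) * Real.exp (-n1) := fun r hr => by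
    rw [← Real.exp_add, Real.exp_le_exp]
    linarith [hHb r hr]
  have a2 : ∀ r ∈ Icc 0 s, Real.exp (-(n2 + Hb r + ∫ ρ in (0 : ℝ)..r, Rc ρ))
      ≤ Real.exp (-(H c d r + ∫ ρ in (0 : ℝ)..r, Rc ρ)) * Real.exp (-n2) := fun r hr => by
    rw [← Real.exp_add, Real.exp_le_exp]
    linarith [hHb r (sub' hr)]
  have e5 : ∫ r in s..t, (h r c d * w r + ε * h r c d - fd r * Real.exp (-n1))
      ≤ ∫ r in s..t, sp (hb r) (lb r)
          (ε + w r - Real.exp (-(n1 + Hb r + ∫ ρ in (0 : ℝ)..r, Rd ρ))) := by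
    refine intervalIntegral.integral_mono_on hs.2
      ((iw'.add (ih'.const_mul ε)).sub (i1'.mul_const _))
      (ii (sp_cont chb clb ((continuousOn_const.add cw).sub cA1)) hs.1 hs.2 le_rfl)
      fun r hr => ?_
    have hr' := sub hr
    have hn := hh.nonneg r c d
    have e5 : h r c d * w r + ε * h r c d - fd r * Real.exp (-n1)
        = h r c d * (ε + w r - Real.exp (-(H c d r + ∫ ρ in (0 : ℝ)..r, Rd ρ))
          * Real.exp (-n1)) := by
      rw [hfd]; ring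
    rw [e5]
    refine (mul_le_mul_of_nonneg_left ?_ hn).trans (le_sp (hlb r hr') (hhb r hr'))
    linarith [a1 r hr']
  have e6 : ∫ r in (0 : ℝ)..s, (h r c d * w r + h r c d - fd r * Real.exp (-n1)
        - fc r * Real.exp (-n2))
      ≤ ∫ r in (0 : ℝ)..s, sp (hb r) (lb r)
          (1 + w r - Real.exp (-(n1 + Hb r + ∫ ρ in (0 : ℝ)..r, Rd ρ))
            - Real.exp (-(n2 + Hb r + ∫ ρ in (0 : ℝ)..r, Rc ρ))) := by
    refine intervalIntegral.integral_mono_on hs.1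
      (((iw.add ih).sub (i1.mul_const _)).sub (i2.mul_const _))
      (ii (sp_cont (chb.mono sub') (clb.mono sub')
        (((continuousOn_const.add (cw.mono sub')).sub (cA1.mono sub')).sub cA2))
        le_rfl hs.1 le_rfl) fun r hr => ?_
    have hr' := sub' hr
    have hn := hh.nonneg r c d
    have e5 : h r c d * w r + h r c d - fd r * Real.exp (-n1) - fc r * Real.exp (-n2)
        = h r c d * (1 + w r - Real.exp (-(H c d r + ∫ ρ in (0 : ℝ)..r, Rd ρ)) * Real.exp (-n1)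
          - Real.exp (-(H c d r + ∫ ρ in (0 : ℝ)..r, Rc ρ)) * Real.exp (-n2)) := by
      rw [hfd, hfc]; ring
    rw [e5]
    refine (mul_le_mul_of_nonneg_left ?_ hn).trans (le_sp (hlb r hr') (hhb r hr'))
    linarith [a1 r hr', a2 r hr]
  rw [d1, d2]
  linarith

end Pool.Agent.RX.RCM

namespace Pool.Agent.RX.RCN.K

open Set Finset MeasureTheory Pool.Agent.RX.RCRSHalf Pool.Agent.RX.RCG Pool.Agent.RX.RCG.Ct

set_option linter.unusedSectionVars false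

variable {V : Type*} [Fintype V] [DecidableEq V]

variable (Z : Hzd) (F : Lz V) (x : V → V → ℝ) (P : V → Prop) [DecidablePred P] (lo : ℝ → ℝ)

variable {Z F x P lo}
variable {sl : ℝ → ℝ → ℝ} {α τ sg : ℝ} {B E1 : ℝ → ℝ → ℝ} {m q : ℝ} {A D : Finset V} {G : Fm V}
variable {h : ℝ → V → V → ℝ} {H : V → V → ℝ → ℝ} {t s : ℝ}

/-- the parts of the closures with the signed direct part -/
theorem partsS (hh : Haz h H) (hC : Z.Cf B E1) (hG : G.Ok Z F x P sg τ D B m q)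
    (hc : Ctn F G α τ) (hF : F.OkN Z x P A D sg α τ) (hZ : Z.Ok sl) (hx : Wt x P 1)
    (ht : t ∈ Icc α τ) (hs : s ∈ Icc 0 t) (hsg : s ≤ sg)
    (hle : ∀ u v, ∀ r ∈ Icc 0 t, h r u v ≤ Z.hh x P r u v)
    (hHle : ∀ u v, ∀ σ ∈ Icc 0 t, ∀ r ∈ Icc 0 σ, H u v σ - H u v r ≤ Z.Hh x P σ u v r)
    (cl : ContinuousOn lo (Icc 0 t))
    (hlo : ∀ u v, P u → P v → ∀ r ∈ Icc 0 t, x u v * lo r ≤ h r u v)
    {c d : V} (hcU : c ∈ Dᶜ) (hdU : d ∈ Dᶜ) {pm nm : V → ℝ → ℝ}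
    (hl : RCM.Tl (Dᶜ.erase d) s (K1 Z F x P)
      (G.d3 s d) (N1 Z F x P D s d) G.gp G.gs (G.c1 d) (G.c4 d) pm nm)
    (hm : ∀ e f, e ≠ f → ∀ r ∈ Icc 0 s, pm e r + pm f r ≤ m)
    (cpm : ∀ e, ContinuousOn (pm e) (Icc 0 s)) (cnm : ∀ e, ContinuousOn (nm e) (Icc 0 s))
    (cp : ∀ e, ContinuousOn (G.p c e) (Icc 0 τ)) (cn : ∀ e, ContinuousOn (G.n c e) (Icc 0 τ))
    (kT ε : ℝ) :
    ∃ (Pa Pa' Na' Q Q' N' : V → ℝ → ℝ) (gp' gm' : V → V → ℝ → ℝ)
      (pc pc' nc' pd' nd' : V → ℝ → ℝ) (k k' ptca ptca' ptc ptc' ptd ptd' : ℝ → ℝ),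
      RCM.Wld h A D s t Dᶜ Pa Pa' (F.n2 t s) Na' Q Q' (F.n2 t s) N'
        (K2 Z F x P t s)
        (RCM.Ab (Z.hh x P) (F.y2 t s))
        (RCM.Bw (Z.hh x P) F.n1) G.gp gp' G.gm gm' ∧
      RCM.SV (Dᶜ.erase c) t (fun r e => if e = d then h r c d else Z.hh x P r c e)
        (K2 Z F x P t s) G.gp G.gm pc pc'
        (fun e r => N2 Z F x P D t s t c e r + G.n c e r) nc' ∧
      pc d s = H c d t - H c d s + G.p c d s ∧
      RCM.SV (Dᶜ.erase d) s (fun r e => Z.hh x P r d e)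
        (K2 Z F x P t s) G.gp G.gm (fun e r => Z.Hh x P s d e r + pm e r) pd'
        (fun e r => N2 Z F x P D t s s d e r + nm e r) nd' ∧
      RCM.Sk ((Dᶜ.erase c).erase d) s (K2 Z F x P t s) pc
        (fun e r => N2 Z F x P D t s t c e r + G.n c e r)
        (fun e r => Z.Hh x P s d e r + pm e r)
        (fun e r => N2 Z F x P D t s s d e r + nm e r) k k' ∧
      k s = kT + ε * (H c d t - H c d s) ∧
      RCM.Ipt h (Dᶜ.erase c) c d t (RCM.Wf Pa) ptca ptca' ∧ ptca t = 0 ∧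
      RCM.Ipt h (Dᶜ.erase c) c d s (RCM.Wf Q) ptc ptc' ∧ ptc s ≤ ptca s ∧
      RCM.Ipt h (Dᶜ.erase d) d c s (RCM.Wf Q) ptd ptd' ∧ ptd s = 0 ∧
      k 0 + (G.gm c d 0
            - (∫ r in (0 : ℝ)..s, RCM.dfc h (RCM.Bw (Z.hh x P) F.n1) (F.n2 t s) c d r)
            - ∫ r in s..t, RCM.dfc h (RCM.Bw (Z.hh x P) F.n1) (F.n2 t s) c d r)
        + (N2 Z F x P D t s t c d 0 + G.n c d 0)
        + (N2 Z F x P D t s s d c 0 + nm c 0)
        + (H c d s - ptc 0 * Real.exp (-(N2 Z F x P D t s t c d 0 + G.n c d 0))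
          - ptd 0 * Real.exp (-(N2 Z F x P D t s s d c 0 + nm c 0)))
      ≤ kT + Kdd Z F x P D c d τ s G.d3 G.c4 (G.p c) (G.n c) pm nm
        + gmR Z F x P G c d t + (N2 Z F x P D t s t c d 0 + G.n c d 0)
        + (N2 Z F x P D t s s d c 0 + nm c 0)
        + DiS Z F x P lo D c d t s ε (N2 Z F x P D t s t c d 0 + G.n c d 0)
          (N2 Z F x P D t s s d c 0 + nm c 0) := by
  have h0t : 0 ≤ t := hs.1.trans hs.2
  have hsτ : s ≤ τ := hs.2.trans ht.2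
  have hτ0 : 0 ≤ τ := hs.1.trans hsτ
  have τ1 : τ ∈ Icc (0 : ℝ) bt := ⟨hτ0, hF.τ1⟩
  have t1 : t ∈ Icc (0 : ℝ) bt := ⟨h0t, ht.2.trans hF.τ1⟩
  have s1 : s ∈ Icc (0 : ℝ) bt := ⟨hs.1, hs.2.trans t1.2⟩
  have mst : ∀ r ∈ Icc 0 s, r ∈ Icc 0 t := fun r hr => ⟨hr.1, hr.2.trans hs.2⟩
  have msτ : ∀ r ∈ Icc 0 s, r ∈ Icc 0 τ := fun r hr => ⟨hr.1, hr.2.trans hsτ⟩
  have ms1 : ∀ r ∈ Icc 0 s, r ∈ Icc (0 : ℝ) bt := fun r hr => ⟨hr.1, hr.2.trans s1.2⟩
  have mt1 : ∀ r ∈ Icc 0 t, r ∈ Icc (0 : ℝ) bt := fun r hr => ⟨hr.1, hr.2.trans t1.2⟩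
  have mtτ : ∀ r ∈ Icc 0 t, r ∈ Icc 0 τ := fun r hr => ⟨hr.1, hr.2.trans ht.2⟩
  have mτ1 : ∀ r ∈ Icc 0 τ, r ∈ Icc (0 : ℝ) bt := fun r hr => ⟨hr.1, hr.2.trans hF.τ1⟩
  obtain ⟨gp', gm', hg2⟩ := hG.g2R hF.toOk hZ hx ht hs hsg
  obtain ⟨Pa, Pa', Na', Q, Q', N', hw0⟩ := hF.w0N h H hh t ht s hs hsg hle hHle
  have hw := (hF.w0_up hZ hx ht hs hsg hw0).wld hg2
  have hlc := hG.tc c hcU
  obtain ⟨pc', nc', hSc⟩ := level1 hC hG hc hF.toOk hZ hx ht hs hsg (c := c) (σ := t) (σ' := τ)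
    ⟨h0t, le_rfl⟩ ht.2 le_rfl hlc (fun e f hef r hr => hG.bc c hcU e f hef r hr)
  obtain ⟨pd', nd', hSd⟩ := level1 hC hG hc hF.toOk hZ hx ht hs hsg (c := d) (σ := s) (σ' := s)
    hs le_rfl hsτ hl hm
  -- the true hazard of the pair in the target function of `c`
  set fH : ℝ → ℝ := fun r => H c d t - H c d r + G.p c d r with hfH
  have hSc2 : ∃ pc2 : V → ℝ → ℝ, RCM.SV (Dᶜ.erase c) t
      (fun r e => if e = d then h r c d else Z.hh x P r c e) (K2 Z F x P t s) G.gp G.gm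
      (RCM.updv (fun e r => Z.Hh x P t c e r + G.p c e r) d fH) pc2
      (fun e r => N2 Z F x P D t s t c e r + G.n c e r) nc' := by
    by_cases hdc : d ∈ Dᶜ.erase c
    · refine ⟨_, hSc.upd (d := d) (f := fH)
        (f' := fun r => pc' d r + Z.hh x P r c d - h r c d) (k := fun r => h r c d)
        (fun r hr i _ j _ => K2_nonneg hZ hx t s (mt1 r hr) i j) hg2.gp0 hg2.gm0
        (fun r hr => ?_) (fun r hr => ?_) (fun r hr => ?_) fun r hr => le_of_eq (by ring)⟩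
      · have a1 := hSc.dp d hdc r hr
        have a2 := hZ.Hh_deriv (t := t) hx c d (mt1 r hr)
        have a3 := (a1.fun_sub a2).fun_sub (hh.Hd c d r)
        have a4 := a3.const_add (H c d t)
        refine (a4.congr_deriv (by ring)).congr_of_eventuallyEq
          (Filter.Eventually.of_forall fun z => ?_)
        show H c d t - H c d z + G.p c d z = H c d t
          + (Z.Hh x P t c d z + G.p c d z - Z.Hh x P t c d z - H c d z)
        ring
      · have a1 := hh.Hmono c d hr.2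
        have a2 := hlc.p0 d r (mtτ r hr)
        show 0 ≤ H c d t - H c d r + G.p c d r
        linarith
      · have a1 := hHle c d t ⟨h0t, le_rfl⟩ r hr
        show H c d t - H c d r + G.p c d r ≤ Z.Hh x P t c d r + G.p c d r
        linarith
    · refine ⟨pc', ?_⟩
      have e0 : ∀ e ∈ Dᶜ.erase c, e ≠ d := fun e he h => hdc (h ▸ he)
      have ep : ∀ e ∈ Dᶜ.erase c, ∀ r, RCM.updv (fun e r => Z.Hh x P t c e r + G.p c e r) d fH
          e r = Z.Hh x P t c e r + G.p c e r := fun e he r => by rw [RCM.updv_ne (e0 e he)]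
      refine ⟨fun e he r hr => ?_, hSc.dn, fun e r hr => ?_, hSc.n0, fun e he r hr => ?_,
        fun e he r hr => ?_⟩
      · rw [RCM.updv_ne (e0 e he)]; exact hSc.dp e he r hr
      · refine RCM.updv_nonneg ?_ (hSc.p0 e r hr)
        have a1 := hh.Hmono c d hr.2
        have a2 := hlc.p0 d r (mtτ r hr)
        show 0 ≤ H c d t - H c d r + G.p c d r
        linarith
      · refine le_trans (le_of_eq ?_) (hSc.op e he r hr)
        rw [if_neg (e0 e he)]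
        congr 2
        refine Finset.sum_congr rfl fun u hu => Finset.sum_congr rfl fun v hv => ?_
        rw [ep u (Finset.mem_of_mem_erase hu), ep v (Finset.mem_of_mem_erase hv)]
      · refine le_trans (le_of_eq ?_) (hSc.on e he r hr)
        congr 1
        · refine Finset.sum_congr rfl fun u hu => ?_
          rw [ep u (Finset.mem_of_mem_erase hu)]
        · congr 1
          refine Finset.sum_congr rfl fun u hu => Finset.sum_congr rfl fun v hv => ?_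
          rw [ep u (Finset.mem_of_mem_erase hu), ep v (Finset.mem_of_mem_erase hv)]
  obtain ⟨pc2, hSc2⟩ := hSc2
  -- continuity
  have cK2 : ∀ e f, ContinuousOn (fun r => K2 Z F x P t s r e f) (Icc 0 t) :=
    hc.K2 hF.toOk hZ hx ht hs
  have cK1 : ∀ e f, ContinuousOn (fun r => K1 Z F x P r e f) (Icc 0 τ) := hc.K1 hF.toOk hZ hx
  have cD : ∀ ς c f, ContinuousOn (Z.Dd x P ς c f) (Icc 0 bt) := hZ.Dd_cont hx
  have cN1 : ∀ {σ : ℝ}, 0 ≤ σ → σ ≤ τ → ∀ c e, ContinuousOn (N1 Z F x P D σ c e) (Icc 0 σ) :=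
    fun {σ} h0 h1 c e r hr => (RCM.bk_deriv h0 (continuousOn_finsetSum _ fun f _ =>
      ((cK1 e f).mono (Icc_subset_Icc_right h1)).mul
      ((cD σ c f).mono (Icc_subset_Icc_right (h1.trans hF.τ1)))) hr).continuousAt.continuousWithinAt
  have D0 : ∀ {ς : ℝ}, ς ∈ Icc (0 : ℝ) bt → ∀ c f, ∀ r ∈ Icc 0 ς, 0 ≤ Z.Dd x P ς c f r :=
    fun hς c f r hr => hZ.Dd_nonneg hx hς c f hr
  have N10 : ∀ {σ : ℝ}, 0 ≤ σ → σ ≤ τ → ∀ c e, ∀ r ∈ Icc 0 σ, 0 ≤ N1 Z F x P D σ c e r :=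
    fun {σ} h0 h1 c e r hr => RCM.bk_nonneg hr fun z hz => Finset.sum_nonneg fun f _ =>
      mul_nonneg (K1_nonneg hZ hx ⟨hz.1, hz.2.trans (h1.trans hF.τ1)⟩ e f)
        (D0 ⟨h0, h1.trans hF.τ1⟩ c f z hz)
  have N20 : ∀ {σ : ℝ}, σ ∈ Icc 0 t → ∀ c e, ∀ r ∈ Icc 0 σ, 0 ≤ N2 Z F x P D t s σ c e r :=
    fun {σ} hσ c e r hr => RCM.bk_nonneg hr fun z hz => Finset.sum_nonneg fun f _ =>
      mul_nonneg (K2_nonneg hZ hx t s ⟨hz.1, (hz.2.trans hσ.2).trans t1.2⟩ e f)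
        (D0 ⟨hσ.1, hσ.2.trans t1.2⟩ c f z hz)
  have N21 : ∀ {σ σ' : ℝ}, σ ∈ Icc 0 t → σ ≤ σ' → σ' ≤ τ → ∀ c e, ∀ r ∈ Icc 0 σ,
      N2 Z F x P D t s σ c e r ≤ N1 Z F x P D σ' c e r := fun {σ σ'} hσ h1 h2 c e r hr => by
    have hσ1 : σ ∈ Icc (0 : ℝ) bt := ⟨hσ.1, hσ.2.trans t1.2⟩
    have hσ'1 : σ' ∈ Icc (0 : ℝ) bt := ⟨hσ.1.trans h1, h2.trans hF.τ1⟩
    refine RCM.bk_le hr h1
      (continuousOn_finsetSum _ fun f _ => ((cK2 e f).mono (Icc_subset_Icc_right hσ.2)).mul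
        ((cD σ c f).mono (Icc_subset_Icc_right hσ1.2)))
      (continuousOn_finsetSum _ fun f _ => ((cK1 e f).mono (Icc_subset_Icc_right h2)).mul
        ((cD σ' c f).mono (Icc_subset_Icc_right hσ'1.2)))
      (fun z hz => Finset.sum_le_sum fun f _ => ?_)
      (fun z hz => Finset.sum_nonneg fun f _ => mul_nonneg
        (K1_nonneg hZ hx ⟨hz.1, hz.2.trans hσ'1.2⟩ e f) (D0 hσ'1 c f z hz))
    exact mul_le_mul (K2_le hF.toOk hZ hx ht hs hsg ⟨hz.1, hz.2.trans hσ.2⟩ e f)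
      (hZ.Dd_mono hx h1 hσ'1.2 c f hz) (D0 hσ1 c f z hz)
      (K1_nonneg hZ hx ⟨hz.1, hz.2.trans hσ1.2⟩ e f)
  have d30 : ∀ {ς : ℝ}, ς ∈ Icc 0 τ → ∀ c f, ∀ r ∈ Icc 0 ς, 0 ≤ G.d3 ς c f r :=
    fun {ς} hς c f r hr => by
      rw [hG.d3]
      exact D3f_nonneg hC hZ hx hF.τ1 hG.q0 hG.m0 hς.2 c f hr
  have c40 : ∀ c f, ∀ r ∈ Icc 0 τ, 0 ≤ G.c4 c f r := fun c f r hr => by
    rw [hG.c4]
    exact C4f_nonneg hC hZ hx τ1 hG.q0 c f hr
  -- level 2
  obtain ⟨k, k', hk, ks, k0⟩ := RCM.exists_k (X := (Dᶜ.erase c).erase d)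
    hs.1 (T := K1 Z F x P) (fun r _ e f => K1_symm hx r e f)
    (fun r hr e f => K1_nonneg hZ hx (ms1 r hr) e f) (fun r _ e => K1_diag hx r e)
    (fun e f => (cK1 e f).mono (Icc_subset_Icc_right hsτ))
    (pc := fun e r => Z.Hh x P τ c e r + G.p c e r)
    (nc := fun e r => N1 Z F x P D τ c e r + G.n c e r)
    (pd := fun e r => Z.Hh x P s d e r + pm e r)
    (nd := fun e r => N1 Z F x P D s d e r + nm e r)
    (Ec := fun e r => G.d3 τ c e r + G.c4 c e r * G.p c e r)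
    (Ed := fun e r => G.d3 s d e r + G.c4 d e r * pm e r)
    (fun e => ((cN1 hτ0 le_rfl c e).add (cn e)).mono (Icc_subset_Icc_right hsτ))
    (fun e => (cN1 hs.1 hsτ d e).add (cnm e))
    (fun e => ((hc.d3 τ ⟨hτ0, le_rfl⟩ c e).add
      ((hc.c4 c e).mul (cp e))).mono (Icc_subset_Icc_right hsτ))
    (fun e => ((hc.d3 s ⟨hs.1, hsτ⟩ d e).mono (Icc_subset_Icc_right hsτ)).add
      (((hc.c4 d e).mono (Icc_subset_Icc_right hsτ)).mul (cpm e)))
    (fun e r hr => add_nonneg (N10 hτ0 le_rfl c e r (msτ r hr)) (hlc.n0 e r (msτ r hr)))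
    (fun e r hr => add_nonneg (N10 hs.1 hsτ d e r hr) (hl.n0 e r hr))
    (fun e r hr => add_nonneg (hZ.Hh_nonneg hx s1 d e hr) (hl.p0 e r hr))
    (fun e r hr => add_nonneg (d30 ⟨hτ0, le_rfl⟩ c e r (msτ r hr))
      (mul_nonneg (c40 c e r (msτ r hr)) (hlc.p0 e r (msτ r hr))))
    (fun e r hr => add_nonneg (d30 ⟨hs.1, hsτ⟩ d e r hr)
      (mul_nonneg (c40 d e r (msτ r hr)) (hl.p0 e r hr)))
    (fun e _ f _ hef r hr => by
      rw [hG.d3, hG.c4]
      exact hC.two' hZ hx le_rfl hF.τ1 hef (msτ r hr) (hlc.p0 e r (msτ r hr))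
        (hlc.p0 f r (msτ r hr)) (hG.bc c hcU e f hef r (msτ r hr)) hG.q0 hG.hq)
    (fun e _ f _ hef r hr => by
      rw [hG.d3, hG.c4]
      exact hC.two' hZ hx hsτ hF.τ1 hef hr (hl.p0 e r hr) (hl.p0 f r hr)
        (hm e f hef r hr) hG.q0 hG.hq) (kT + ε * (H c d t - H c d s))
  have hk2 : RCM.Sk ((Dᶜ.erase c).erase d) s (K2 Z F x P t s)
        (fun e r => Z.Hh x P t c e r + G.p c e r)
        (fun e r => N2 Z F x P D t s t c e r + G.n c e r)
        (fun e r => Z.Hh x P s d e r + pm e r)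
        (fun e r => N2 Z F x P D t s s d e r + nm e r) k k' :=
    hk.mono (fun r hr e f => K2_nonneg hZ hx t s (ms1 r hr) e f)
      (fun r hr e _ f _ => K2_le hF.toOk hZ hx ht hs hsg (mst r hr) e f)
      (fun e r hr => add_nonneg (N20 ⟨h0t, le_rfl⟩ c e r (mst r hr)) (hlc.n0 e r (msτ r hr)))
      (fun e r hr => add_nonneg (hZ.Hh_nonneg hx s1 d e hr) (hl.p0 e r hr))
      (fun e r hr => add_nonneg (N20 hs d e r hr) (hl.n0 e r hr))
      (fun e r hr => add_nonneg (hZ.Hh_nonneg hx t1 c e (mst r hr)) (hlc.p0 e r (msτ r hr)))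
      (fun e _ r hr => add_le_add (hZ.Hh_mono hx ht.2 hF.τ1 c e (mst r hr)) le_rfl)
      (fun e _ r hr => add_le_add (N21 ⟨h0t, le_rfl⟩ ht.2 le_rfl c e r (mst r hr)) le_rfl)
      (fun e _ r _ => le_rfl)
      (fun e _ r hr => add_le_add (N21 hs le_rfl hsτ d e r hr) le_rfl)
  have hk3 := hk2.updv (d := d) (Finset.notMem_erase d _) fH
  -- insertion functions
  set Rc : ℝ → ℝ := fun r => ∑ f ∈ (Dᶜ.erase d).erase c,
    K2 Z F x P t s r c f with hRc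
  set Rd : ℝ → ℝ := fun r => ∑ f ∈ (Dᶜ.erase c).erase d,
    K2 Z F x P t s r d f with hRd
  have cRc : ContinuousOn Rc (Icc 0 s) :=
    continuousOn_finsetSum _ fun f _ => (cK2 c f).mono (Icc_subset_Icc_right hs.2)
  have cRd : ContinuousOn Rd (Icc 0 t) := continuousOn_finsetSum _ fun f _ => cK2 d f
  have Rc0 : ∀ r ∈ Icc 0 t, 0 ≤ Rc r := fun r hr => Finset.sum_nonneg fun f _ =>
    K2_nonneg hZ hx t s (mt1 r hr) c f
  have Rd0 : ∀ r ∈ Icc 0 t, 0 ≤ Rd r := fun r hr => Finset.sum_nonneg fun f _ =>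
    K2_nonneg hZ hx t s (mt1 r hr) d f
  have uu : ∀ {f e e' : V}, f ∈ (Dᶜ.erase e).erase e' →
      f ∈ Dᶜ := fun hf =>
    Finset.mem_of_mem_erase (Finset.mem_of_mem_erase hf)
  obtain ⟨ptca, ptca', ptc, ptc', ptd, ptd', hIca, ptca0, hIc, mpt, hId, ptd0, epc, epd⟩ :=
    RCM.ins_exists hh (c := c) (d := d) (U := Dᶜ) hs (Pa := Pa) (P := Q)
      cRc cRd (fun r hr => Rc0 r (mst r hr)) Rd0
      (fun r hr => Finset.sum_le_sum fun f hf => hw.Ta r hr d hdU f (uu hf))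
      (fun r hr => Finset.sum_le_sum fun f hf => hw.Td r hr d hdU f (uu hf))
      (fun r hr => Finset.sum_le_sum fun f hf => hw.Td r hr c hcU f (uu hf))
  refine ⟨Pa, Pa', Na', Q, Q', N', gp', gm', _, pc2, nc', pd', nd', k, k', ptca, ptca', ptc,
    ptc', ptd, ptd', hw, hSc2, ?_, hSd, hk3, ks, hIca, ptca0, hIc, mpt, hId, ptd0, ?_⟩
  · rw [RCM.updv_self]
  have e0 : k 0 = kT + ε * (H c d t - H c d s)
      + Kdd Z F x P D c d τ s G.d3 G.c4 (G.p c) (G.n c) pm nm := k0 0 ⟨le_rfl, hs.1⟩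
  have t01 : Icc 0 t ⊆ Icc (0 : ℝ) bt := Icc_subset_Icc_right t1.2
  have cw : ContinuousOn (wN F t s c d) (Icc 0 t) :=
    continuousOn_const.sub ((continuousOn_const.sub (hF.n2c t ht s hs c)).mul
      (continuousOn_const.sub (hF.n2c t ht s hs d)))
  have cT : ContinuousOn (fun r => RCM.Tf (F.n2 t s) r c d) (Icc 0 t) :=
    (continuousOn_const.sub (hF.n2c t ht s hs c)).mul
      (continuousOn_const.sub (hF.n2c t ht s hs d))
  have cB : ContinuousOn (fun r => RCM.Bw (Z.hh x P) F.n1 r c d) (Icc 0 t) :=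
    ((hZ.hh_cont hx c d).mono t01).mul (continuousOn_const.sub
      ((continuousOn_const.sub ((hF.n1c c).mono (Icc_subset_Icc_right ht.2))).mul
        (continuousOn_const.sub ((hF.n1c d).mono (Icc_subset_Icc_right ht.2)))))
  have hD := RCM.ins_boundS hh hs cRc cRd epc epd (ε := ε)
    (n1 := N2 Z F x P D t s t c d 0 + G.n c d 0) (n2 := N2 Z F x P D t s s d c 0 + nm c 0)
    (hb := fun r => Z.hh x P r c d) (lb := lx x P lo c d) (Hb := fun r => Z.Hh x P r c d 0)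
    (w := wN F t s c d) ((hZ.hh_cont hx c d).mono t01) (lx_cont cl c d)
    ((hZ.Hh0_cont hx c d).mono t01) cw
    (fun r hr => hle c d r hr) (fun r hr => lx_le hh.nonneg hlo c d hr)
    (fun r hr => by
      have := hHle c d r hr 0 ⟨le_rfl, hr.1⟩
      rw [hh.H0, sub_zero] at this
      exact this)
    (Bm := RCM.Bw (Z.hh x P) F.n1) (N := F.n2 t s) (Na := F.n2 t s) cB
    (cT.mono (Icc_subset_Icc_right hs.2)) cT (fun _ _ => le_rfl) (fun _ _ => le_rfl)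
  rw [e0]
  have hD' : -(∫ r in (0 : ℝ)..s, RCM.dfc h (RCM.Bw (Z.hh x P) F.n1) (F.n2 t s) c d r)
        - (∫ r in s..t, RCM.dfc h (RCM.Bw (Z.hh x P) F.n1) (F.n2 t s) c d r)
        + (H c d s - ptc 0 * Real.exp (-(N2 Z F x P D t s t c d 0 + G.n c d 0))
          - ptd 0 * Real.exp (-(N2 Z F x P D t s s d c 0 + nm c 0))) + ε * (H c d t - H c d s)
      ≤ -(∫ r in (0 : ℝ)..t, RCM.Bw (Z.hh x P) F.n1 r c d)
        + DiS Z F x P lo D c d t s ε (N2 Z F x P D t s t c d 0 + G.n c d 0)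
          (N2 Z F x P D t s s d c 0 + nm c 0) := by
    refine hD.trans (le_of_eq ?_)
    unfold DiS
    rw [add_assoc]
  unfold gmR
  linarith

/-- **the deleted closure with the signed direct part** -/
theorem clo_delS (hh : Haz h H) (hC : Z.Cf B E1) (hG : G.Ok Z F x P sg τ D B m q)
    (hc : Ctn F G α τ) (hct : Ctl G sg τ) (hF : F.OkN Z x P A D sg α τ) (hZ : Z.Ok sl) (hx : Wt x P 1)
    (ht : t ∈ Icc α τ) (hs : s ∈ Icc 0 t) (hsg : s ≤ sg)
    (hle : ∀ u v, ∀ r ∈ Icc 0 t, h r u v ≤ Z.hh x P r u v)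
    (hHle : ∀ u v, ∀ σ ∈ Icc 0 t, ∀ r ∈ Icc 0 σ, H u v σ - H u v r ≤ Z.Hh x P σ u v r)
    (cl : ContinuousOn lo (Icc 0 t))
    (hlo : ∀ u v, P u → P v → ∀ r ∈ Icc 0 t, x u v * lo r ≤ h r u v)
    {c d : V} (hcU : c ∈ Dᶜ) (hdU : d ∈ Dᶜ) (hcd : c ≠ d) :
    RCM.CloD h t s A D c d (Real.exp (LdS Z F x P lo G τ D c d t s)) := by
  have hsτ : s ∈ Icc 0 sg := ⟨hs.1, hsg⟩
  have t1 : t ∈ Icc (0 : ℝ) bt := ⟨hs.1.trans hs.2, ht.2.trans hF.τ1⟩
  obtain ⟨Pa, Pa', Na', Q, Q', N', gp', gm', pc, pc', nc', pd', nd', k, k', ptca, ptca', ptc,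
    ptc', ptd, ptd', hw, hSc, -, hSd, hk2, ks, hIca, ptca0, hIc, mpt, hId, ptd0, hL⟩ :=
    partsS hh hC hG hc hF hZ hx ht hs hsg hle hHle cl hlo hcU hdU (hG.td s hsτ d hdU)
      (fun e f hef r hr => hG.bd s hsτ d hdU e f hef r hr) (hct.pd s hsτ d) (hct.nd s hsτ d)
      (hct.p c) (hct.n c) 0 0
  have hC1 := hw.cloDR hh (Finset.mem_compl.1 hcU) (Finset.mem_compl.1 hdU) hcd (btI t1) hs rfl
    (hF.B_cont hZ hx ht c d)
    (κd := fun r e => Z.hh x P r d e)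
    (fun r hr e _ => by
      by_cases he : e = d
      · rw [if_pos he, he]
      · rw [if_neg he]; exact hle c e r hr)
    (fun r hr e _ => hle d e r ⟨hr.1, hr.2.trans hs.2⟩)
    hSc hSd hk2 hIca ptca0 hIc mpt hId ptd0 (by rw [ks, zero_mul, add_zero])
  refine hC1.mono hh (btI t1) hs (Real.exp_le_exp.2 (hL.trans (le_of_eq ?_)))
  unfold LdS
  ring

/-- **the released closure with the signed direct part** -/
theorem clo_relS (hh : Haz h H) (hC : Z.Cf B E1) (hG : G.Ok Z F x P sg τ D B m q)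
    (hc : Ctn F G α τ) (hct : Ctl G sg τ) (hF : F.OkN Z x P A D sg α τ) (hZ : Z.Ok sl) (hx : Wt x P 1)
    (ht : t ∈ Icc α τ) (hs : s ∈ Icc 0 t) (hsg : s ≤ sg)
    (hle : ∀ u v, ∀ r ∈ Icc 0 t, h r u v ≤ Z.hh x P r u v)
    (hHle : ∀ u v, ∀ σ ∈ Icc 0 t, ∀ r ∈ Icc 0 σ, H u v σ - H u v r ≤ Z.Hh x P σ u v r)
    (cl : ContinuousOn lo (Icc 0 t))
    (hlo : ∀ u v, P u → P v → ∀ r ∈ Icc 0 t, x u v * lo r ≤ h r u v)
    {c d : V} (hcU : c ∈ Dᶜ) (hdU : d ∈ Dᶜ) (hcd : c ≠ d) :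
    RCM.CloDt h t s A D c d (Real.exp (LtS Z F x P lo G τ D c d t s)) := by
  have hsτ : s ∈ Icc 0 sg := ⟨hs.1, hsg⟩
  have t1 : t ∈ Icc (0 : ℝ) bt := ⟨hs.1.trans hs.2, ht.2.trans hF.τ1⟩
  have s1 : s ∈ Icc (0 : ℝ) bt := ⟨hs.1, hs.2.trans t1.2⟩
  have htd := hG.tt s hsτ d hdU
  obtain ⟨Pa, Pa', Na', Q, Q', N', gp', gm', pc, pc', nc', pd', nd', k, k', ptca, ptca', ptc,
    ptc', ptd, ptd', hw, hSc, epc, hSd, hk2, ks, hIca, ptca0, hIc, mpt, hId, ptd0, hL⟩ :=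
    partsS hh hC hG hc hF hZ hx ht hs hsg hle hHle cl hlo hcU hdU htd
      (fun e f hef r hr => hG.btm s hsτ d hdU e f hef r hr) (hct.pt s hsτ d) (hct.nt s hsτ d)
      (hct.p c) (hct.n c) (G.p c d s) 1
  have hss : s ∈ Icc 0 s := ⟨hs.1, le_rfl⟩
  have hC1 := hw.cloDtR hh (Finset.mem_compl.1 hcU) (Finset.mem_compl.1 hdU) hcd (btI t1) hs rfl
    (hF.B_cont hZ hx ht c d)
    (κd := fun r e => Z.hh x P r d e)
    (fun r hr e _ => by
      by_cases he : e = d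
      · rw [if_pos he, he]
      · rw [if_neg he]; exact hle c e r hr)
    (fun r hr e _ => hle d e r ⟨hr.1, hr.2.trans hs.2⟩)
    hSc hSd (fun e he => by
      have z1 : Z.Hh x P s d e s = 0 := Hzd.Hh_self d e
      have z2 : N2 Z F x P D t s s d e s = 0 := RCM.bk_self _ _
      show G.gm d e s ≤ Z.Hh x P s d e s + G.pt s d e s ∧
        G.gp d e s ≤ N2 Z F x P D t s s d e s + G.nt s d e s
      rw [z1, z2, zero_add, zero_add]
      by_cases hed : e = d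
      · subst hed
        rw [hG.mz, hG.pz]
        exact ⟨htd.p0 e s hss, htd.n0 e s hss⟩
      · have he' : e ∈ Dᶜ.erase d := Finset.mem_erase.2 ⟨hed, he⟩
        rw [hG.ptT s hsτ d hdU e he', hG.ntT s hsτ d hdU e he']
        exact ⟨le_rfl, le_rfl⟩)
    hk2 hIca ptca0 hIc mpt hId ptd0 (by rw [ks, epc]; exact le_of_eq (by ring))
  refine hC1.mono hh (btI t1) hs (Real.exp_le_exp.2 (hL.trans (le_of_eq ?_)))
  unfold LtS
  ring

end Pool.Agent.RX.RCN.K
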