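import Pool.Agent.RX.RCM.NuC
import Pool.Agent.RX.RCM.NuD_2
import Pool.Agent.RX.RCM.NuRc
import Pool.Agent.RX.RCM.NuS_1

/-! Joint continuity of the exponents with the signed direct part (MP_73ccd0_lc, route M). -/

namespace Pool.Agent.RX.RCN.K

open Set Finset MeasureTheory Pool.Agent.RX.RCRSHalf Pool.Agent.RX.RCG Pool.Agent.RX.RCG.Ct

set_option linter.unusedSectionVars false

variable {V : Type*} [Fintype V] [DecidableEq V]
variable {Z : Hzd} {F : Lz V} {x : V → V → ℝ} {P : V → Prop} [DecidablePred P] {lo : ℝ → ℝ}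
variable {sl : ℝ → ℝ → ℝ} {α τ sg : ℝ} {B E1 : ℝ → ℝ → ℝ} {m q : ℝ} {A D : Finset V} {G : Fm V}

/-- joint continuity of the signed product -/
theorem sp_c3 {f g z : ℝ → ℝ → ℝ → ℝ} (hf : C3 α τ f) (hg : C3 α τ g) (hz : C3 α τ z) :
    C3 α τ fun t s r => RCM.sp (f t s r) (g t s r) (z t s r) :=
  (hf.mul (continuousOn_const.sup hz)).sub (hg.mul (continuousOn_const.sup hz.neg))

/-- continuity of the signed direct part -/
theorem DiS_cont (hc : Cj F G α τ) (hn : ∀ e, C3 α τ fun t s r => F.n2 t s e r)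
    (hF : F.Ok Z x P A D sg α τ) (hZ : Z.Ok sl) (hx : Wt x P 1)
    (cl : ContinuousOn lo (Icc 0 bt))
    (c d : V) {n1 n2 : ℝ → ℝ → ℝ} (h1 : ContinuousOn (fun p : ℝ × ℝ => n1 p.1 p.2) (Wg α τ))
    (h2 : ContinuousOn (fun p : ℝ × ℝ => n2 p.1 p.2) (Wg α τ)) (ε : ℝ) :
    ContinuousOn (fun p : ℝ × ℝ => DiS Z F x P lo D c d p.1 p.2 ε (n1 p.1 p.2) (n2 p.1 p.2))
      (Wg α τ) := by
  have k1 : C3 α τ fun t s r => ∫ ρ in (0 : ℝ)..r, ∑ f ∈ (Dᶜ.erase c).erase d,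
      K2 Z F x P t s ρ d f :=
    C3.int (F := fun t s ρ => ∑ f ∈ (Dᶜ.erase c).erase d,
      K2 Z F x P t s ρ d f) (continuousOn_finsetSum _ fun f _ => K2_c3 hc hF hZ hx d f)
      hF.α0 hF.ατ
  have k2 : C3 α τ fun t s r => ∫ ρ in (0 : ℝ)..r, ∑ f ∈ (Dᶜ.erase d).erase c,
      K2 Z F x P t s ρ c f :=
    C3.int (F := fun t s ρ => ∑ f ∈ (Dᶜ.erase d).erase c,
      K2 Z F x P t s ρ c f) (continuousOn_finsetSum _ fun f _ => K2_c3 hc hF hZ hx c f)
      hF.α0 hF.ατ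
  have k3 : C3 α τ fun _ _ r => Z.Hh x P r c d 0 :=
    C3.of_r ((hZ.Hh0_cont hx c d).mono (Icc_subset_Icc_right hF.τ1))
  have k4 : C3 α τ fun _ _ r => Z.hh x P r c d :=
    C3.of_r ((hZ.hh_cont hx c d).mono (Icc_subset_Icc_right hF.τ1))
  have kl : C3 α τ fun _ _ r => lx x P lo c d r :=
    C3.of_r (lx_cont (cl.mono (Icc_subset_Icc_right hF.τ1)) c d)
  have kw : C3 α τ fun t s r => wN F t s c d r :=
    continuousOn_const.sub ((continuousOn_const.sub (hn c)).mul (continuousOn_const.sub (hn d)))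
  have k5 : C3 α τ fun t s r => RCM.sp (Z.hh x P r c d) (lx x P lo c d r)
      (ε + wN F t s c d r - Real.exp (-(n1 t s + Z.Hh x P r c d 0
        + ∫ ρ in (0 : ℝ)..r, ∑ f ∈ (Dᶜ.erase c).erase d,
          K2 Z F x P t s ρ d f))) :=
    sp_c3 k4 kl ((continuousOn_const.add kw).sub
      (Real.continuous_exp.comp_continuousOn (((C3.of_w h1).add k3).add k1).neg))
  have k6 : C3 α τ fun t s r => RCM.sp (Z.hh x P r c d) (lx x P lo c d r)
      (1 + wN F t s c d r - Real.exp (-(n1 t s + Z.Hh x P r c d 0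
        + ∫ ρ in (0 : ℝ)..r, ∑ f ∈ (Dᶜ.erase c).erase d,
          K2 Z F x P t s ρ d f))
      - Real.exp (-(n2 t s + Z.Hh x P r c d 0
        + ∫ ρ in (0 : ℝ)..r, ∑ f ∈ (Dᶜ.erase d).erase c,
          K2 Z F x P t s ρ c f))) :=
    sp_c3 k4 kl (((continuousOn_const.add kw).sub
      (Real.continuous_exp.comp_continuousOn (((C3.of_w h1).add k3).add k1).neg)).sub
      (Real.continuous_exp.comp_continuousOn (((C3.of_w h2).add k3).add k2).neg))
  refine (((k5.int_t hF.α0 hF.ατ).sub (k5.int_s hF.α0 hF.ατ)).add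
    (k6.int_s hF.α0 hF.ατ)).congr fun p hp => ?_
  have ht0 : 0 ≤ p.1 := hp.2.1.trans hp.2.2
  have cf := k5.slice hp.1 hp.2
  have ii : ∀ {u v : ℝ}, 0 ≤ u → u ≤ v → v ≤ p.1 →
      IntervalIntegrable (fun r => RCM.sp (Z.hh x P r c d) (lx x P lo c d r)
      (ε + wN F p.1 p.2 c d r - Real.exp (-(n1 p.1 p.2 + Z.Hh x P r c d 0
        + ∫ ρ in (0 : ℝ)..r, ∑ f ∈ (Dᶜ.erase c).erase d,
          K2 Z F x P p.1 p.2 ρ d f)))) volume u v :=
    fun {u v} hu huv hv =>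
    (cf.mono (by rw [uIcc_of_le huv]; exact Icc_subset_Icc hu hv)).intervalIntegrable
  have e1 := (intervalIntegral.integral_interval_sub_left (ii le_rfl ht0 le_rfl)
      (ii le_rfl hp.2.1 hp.2.2)).symm
  show DiS Z F x P lo D c d p.1 p.2 ε (n1 p.1 p.2) (n2 p.1 p.2) = _
  unfold DiS
  rw [e1]
  rfl

/-- **joint continuity of the exponent of the deleted closure** -/
theorem LdS_cont (hC : Z.Cf B E1) (hG : G.Ok Z F x P sg τ D B m q) (hE : G.Ed D sg)
    (hc : Cj F G α τ) (hn : ∀ e, C3 α τ fun t s r => F.n2 t s e r)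
    (hF : F.OkN Z x P A D sg α τ) (hZ : Z.Ok sl) (hx : Wt x P 1)
    (cl : ContinuousOn lo (Icc 0 bt)) {c d : V}
    (hcU : c ∈ Dᶜ) (hdU : d ∈ Dᶜ) (hcd : c ≠ d) :
    ContinuousOn (fun p : ℝ × ℝ => LdS Z F x P lo G τ D c d p.1 p.2) (Ws α τ sg) := by
  have k := tails_cont hC hG hc hF.toOk hZ hx (c := c) (d := d) hcU (pd := fun s => G.pd s d)
    (nd := fun s => G.nd s d) (pT := fun _ _ => 0) (nT := fun _ _ => 0)
    (fun s hs => hG.td s hs d hdU) (fun s hs => hE.pd s hs d hdU) (fun s hs => hE.nd s hs d hdU)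
    (fun _ => continuousOn_const) (fun _ => continuousOn_const)
  have hce : c ∈ Dᶜ.erase d := Finset.mem_erase.2 ⟨hcd, hcU⟩
  have k1 := wg_min (α := α) (τ := τ) hF.sg0 (k.1 c hce)
  have k2 := wg_min (α := α) (τ := τ) hF.sg0 k.2
  have c1 := (N2t_cont hc hF.toOk hZ hx c d).add (continuousOn_const (c := G.n c d 0))
  have c2 := (N2s_cont hc hF.toOk hZ hx d c).add k1
  refine ((((k2.add (gmR_cont (G := G) hF hZ hx c d)).add c1).add c2).add
    (DiS_cont hc hn hF.toOk hZ hx cl c d (n1 := fun t s => N2 Z F x P D t s t c d 0 + G.n c d 0)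
      (n2 := fun t s => N2 Z F x P D t s s d c 0 + G.nd (min s sg) d c 0) c1 c2 0)).mono
    (fun p hp => hp.1) |>.congr fun p hp => ?_
  show LdS Z F x P lo G τ D c d p.1 p.2 = _
  have e1 : min p.2 sg = p.2 := min_eq_left hp.2
  simp only [Pi.add_apply]
  rw [e1]
  rfl

/-- **joint continuity of the exponent of the released closure** -/
theorem LtS_cont (hC : Z.Cf B E1) (hG : G.Ok Z F x P sg τ D B m q)
    (hc : Cj F G α τ) (hn : ∀ e, C3 α τ fun t s r => F.n2 t s e r)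
    (hF : F.OkN Z x P A D sg α τ) (hZ : Z.Ok sl) (hx : Wt x P 1)
    (cl : ContinuousOn lo (Icc 0 bt)) {c d : V}
    (hcU : c ∈ Dᶜ) (hdU : d ∈ Dᶜ) (hcd : c ≠ d) :
    ContinuousOn (fun p : ℝ × ℝ => LtS Z F x P lo G τ D c d p.1 p.2) (Ws α τ sg) := by
  have hsub : Icc 0 sg ⊆ Icc 0 τ := Icc_subset_Icc_right hF.sgτ
  have k := tails_cont hC hG hc hF.toOk hZ hx (c := c) (d := d) hcU (pd := fun s => G.pt s d)
    (nd := fun s => G.nt s d) (pT := fun e s => G.gm d e s) (nT := fun e s => G.gp d e s)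
    (fun s hs => hG.tt s hs d hdU) (fun s hs => hG.ptT s hs d hdU)
    (fun s hs => hG.ntT s hs d hdU) (fun e => (hc.gm d e).mono hsub)
    (fun e => (hc.gp d e).mono hsub)
  have hce : c ∈ Dᶜ.erase d := Finset.mem_erase.2 ⟨hcd, hcU⟩
  have k1 := wg_min (α := α) (τ := τ) hF.sg0 (k.1 c hce)
  have k2 := wg_min (α := α) (τ := τ) hF.sg0 k.2
  have c1 := (N2t_cont hc hF.toOk hZ hx c d).add (continuousOn_const (c := G.n c d 0))
  have c2 := (N2s_cont hc hF.toOk hZ hx d c).add k1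
  have h2 : ContinuousOn (fun p : ℝ × ℝ => G.p c d p.2) (Wg α τ) :=
    wg_snd (tl_cont (hG.tc c hcU) d).1
  refine (((((h2.add k2).add (gmR_cont (G := G) hF hZ hx c d)).add c1).add c2).add
    (DiS_cont hc hn hF.toOk hZ hx cl c d (n1 := fun t s => N2 Z F x P D t s t c d 0 + G.n c d 0)
      (n2 := fun t s => N2 Z F x P D t s s d c 0 + G.nt (min s sg) d c 0) c1 c2 1)).mono
    (fun p hp => hp.1) |>.congr fun p hp => ?_
  show LtS Z F x P lo G τ D c d p.1 p.2 = _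
  have e1 : min p.2 sg = p.2 := min_eq_left hp.2
  simp only [Pi.add_apply]
  rw [e1]
  rfl

end Pool.Agent.RX.RCN.K
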