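import Pool.Agent.RX.RCM.NuS_1
import Pool.Agent.RX.RCN.XrD

/-! Bounds of the exponents with the signed direct part (MP_73ccd0_lc, route M). -/

namespace Pool.Agent.RX.RCN.K

open Set Finset MeasureTheory Pool.Agent.RX.RCRSHalf Pool.Agent.RX.RCG Pool.Agent.RX.RCG.Ct

set_option linter.unusedSectionVars false

variable {V : Type*} [Fintype V] [DecidableEq V]
variable {Z : Hzd} {F : Lz V} {x : V → V → ℝ} {P : V → Prop} [DecidablePred P] {lo : ℝ → ℝ}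
variable {sl : ℝ → ℝ → ℝ} {α τ sg : ℝ} {B E1 : ℝ → ℝ → ℝ} {m q : ℝ} {A D : Finset V} {G : Fm V}

/-- continuity of the parts of the direct part -/
structure Dc (Z : Hzd) (F : Lz V) (x : V → V → ℝ) (P : V → Prop) [DecidablePred P] (lo : ℝ → ℝ)
    (D : Finset V) (t s : ℝ) (c d : V) : Prop where
  ch : ContinuousOn (fun r => Z.hh x P r c d) (Icc 0 t)
  cl : ContinuousOn (lx x P lo c d) (Icc 0 t)
  cw : ContinuousOn (wN F t s c d) (Icc 0 t)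
  cH : ContinuousOn (fun r => Z.Hh x P r c d 0) (Icc 0 t)
  c1 : ContinuousOn (fun r => ∫ ρ in (0 : ℝ)..r, ∑ f ∈ (Dᶜ.erase c).erase d,
    K2 Z F x P t s ρ d f) (Icc 0 t)
  c2 : ContinuousOn (fun r => ∫ ρ in (0 : ℝ)..r, ∑ f ∈ (Dᶜ.erase d).erase c,
    K2 Z F x P t s ρ c f) (Icc 0 t)

theorem dc_of (hc : Ctn F G α τ) (hF : F.OkN Z x P A D sg α τ) (hZ : Z.Ok sl) (hx : Wt x P 1)
    {t s : ℝ} (ht : t ∈ Icc α τ) (hs : s ∈ Icc 0 t) (cl : ContinuousOn lo (Icc 0 t)) (c d : V) :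
    Dc Z F x P lo D t s c d := by
  have h0t : 0 ≤ t := hs.1.trans hs.2
  have t1 : t ∈ Icc (0 : ℝ) bt := ⟨h0t, ht.2.trans hF.τ1⟩
  have t01 : Icc 0 t ⊆ Icc (0 : ℝ) bt := Icc_subset_Icc_right t1.2
  have prim : ∀ {R : ℝ → ℝ}, ContinuousOn R (Icc 0 t) →
      ContinuousOn (fun r => ∫ ρ in (0 : ℝ)..r, R ρ) (Icc 0 t) := by
    intro R cR
    have := intervalIntegral.continuousOn_primitive_interval (μ := volume) (a := (0 : ℝ))
      (b := t) (f := R) (by rw [uIcc_of_le h0t]; exact cR.integrableOn_Icc)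
    rwa [uIcc_of_le h0t] at this
  have cK2 : ∀ e f, ContinuousOn (fun r => K2 Z F x P t s r e f) (Icc 0 t) :=
    hc.K2 hF.toOk hZ hx ht hs
  exact
    { ch := (hZ.hh_cont hx c d).mono t01
      cl := lx_cont cl c d
      cw := continuousOn_const.sub ((continuousOn_const.sub (hF.n2c t ht s hs c)).mul
        (continuousOn_const.sub (hF.n2c t ht s hs d)))
      cH := (hZ.Hh0_cont hx c d).mono t01
      c1 := prim (continuousOn_finsetSum _ fun f _ => cK2 d f)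
      c2 := prim (continuousOn_finsetSum _ fun f _ => cK2 c f) }

section cont

variable {t s : ℝ} {c d : V}

theorem Dc.e1 (h : Dc Z F x P lo D t s c d) (n1 : ℝ) :
    ContinuousOn (fun r => Real.exp (-(n1 + Z.Hh x P r c d 0
      + ∫ ρ in (0 : ℝ)..r, ∑ f ∈ (Dᶜ.erase c).erase d, K2 Z F x P t s ρ d f))) (Icc 0 t) :=
  Real.continuous_exp.comp_continuousOn ((continuousOn_const.add h.cH).add h.c1).neg

theorem Dc.e2 (h : Dc Z F x P lo D t s c d) (n2 : ℝ) :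
    ContinuousOn (fun r => Real.exp (-(n2 + Z.Hh x P r c d 0
      + ∫ ρ in (0 : ℝ)..r, ∑ f ∈ (Dᶜ.erase d).erase c, K2 Z F x P t s ρ c f))) (Icc 0 t) :=
  Real.continuous_exp.comp_continuousOn ((continuousOn_const.add h.cH).add h.c2).neg

theorem Dc.z1 (h : Dc Z F x P lo D t s c d) (ε n1 : ℝ) :
    ContinuousOn (fun r => ε + wN F t s c d r - Real.exp (-(n1 + Z.Hh x P r c d 0
      + ∫ ρ in (0 : ℝ)..r, ∑ f ∈ (Dᶜ.erase c).erase d, K2 Z F x P t s ρ d f))) (Icc 0 t) :=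
  (continuousOn_const.add h.cw).sub (h.e1 n1)

theorem Dc.z2 (h : Dc Z F x P lo D t s c d) (n1 n2 : ℝ) :
    ContinuousOn (fun r => 1 + wN F t s c d r - Real.exp (-(n1 + Z.Hh x P r c d 0
      + ∫ ρ in (0 : ℝ)..r, ∑ f ∈ (Dᶜ.erase c).erase d, K2 Z F x P t s ρ d f))
      - Real.exp (-(n2 + Z.Hh x P r c d 0
      + ∫ ρ in (0 : ℝ)..r, ∑ f ∈ (Dᶜ.erase d).erase c, K2 Z F x P t s ρ c f))) (Icc 0 t) :=
  ((continuousOn_const.add h.cw).sub (h.e1 n1)).sub (h.e2 n2)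

end cont

/-- an integral from the derivative -/
theorem int_le_prim' {f g g' : ℝ → ℝ} {a b : ℝ} (hab : a ≤ b) (cf : ContinuousOn f (Icc a b))
    (dg : ∀ r ∈ Icc a b, HasDerivAt g (g' r) r) (h : ∀ r ∈ Icc a b, f r ≤ g' r) :
    ∫ r in a..b, f r ≤ g b - g a := by
  refine intervalIntegral.integral_le_sub_of_hasDeriv_right_of_le hab
    (fun r hr => (dg r hr).continuousAt.continuousWithinAt)
    (fun r hr => (dg r ⟨hr.1.le, hr.2.le⟩).hasDerivWithinAt) ?_ fun r hr => h r ⟨hr.1.le, hr.2.le⟩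
  exact cf.integrableOn_Icc

/-! ### the scalar bound -/

/-- the scalar data of the direct part at the times `t`, `s`: `e` is a lower bound of the
insertion factors, `ω` a majorant of `1 - T`, `k1`, `k2` lower bounds of the factors at time 0 -/
structure Sx (Z : Hzd) (F : Lz V) (x : V → V → ℝ) (P : V → Prop) [DecidablePred P] (lo : ℝ → ℝ)
    (D : Finset V) (t s ε : ℝ) (mb e ω : ℝ → ℝ) (k1 k2 : ℝ) (j1 j1' j2 j2' : ℝ → ℝ)
    (c d : V) : Prop where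
  hm : ∀ r ∈ Icc 0 t, Z.hh x P r c d ≤ x c d * mb r
  hP : (P c ∧ P d) ∨ x c d = 0
  l0 : ∀ r ∈ Icc 0 t, 0 ≤ lo r
  hω : ∀ r ∈ Icc 0 t, wN F t s c d r ≤ ω r
  he1 : ∀ r ∈ Icc 0 t, e r ≤ Real.exp (-(Z.Hh x P r c d 0
    + ∫ ρ in (0 : ℝ)..r, ∑ f ∈ (Dᶜ.erase c).erase d, K2 Z F x P t s ρ d f))
  he2 : ∀ r ∈ Icc 0 t, e r ≤ Real.exp (-(Z.Hh x P r c d 0
    + ∫ ρ in (0 : ℝ)..r, ∑ f ∈ (Dᶜ.erase d).erase c, K2 Z F x P t s ρ c f))
  e0 : ∀ r ∈ Icc 0 t, 0 ≤ e r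
  d1 : ∀ r ∈ Icc 0 s, HasDerivAt j1 (j1' r) r
  d2 : ∀ r ∈ Icc s t, HasDerivAt j2 (j2' r) r
  a1 : ∀ r ∈ Icc 0 s, mb r * (1 + ω r - 2 * k2 * e r) ≤ j1' r
  b1 : ∀ r ∈ Icc 0 s, lo r * (1 + ω r - 2 * k2 * e r) ≤ j1' r
  a2 : ∀ r ∈ Icc s t, mb r * (ε + ω r - k1 * e r) ≤ j2' r
  b2 : ∀ r ∈ Icc s t, lo r * (ε + ω r - k1 * e r) ≤ j2' r

/-- a scalar bound of the signed product -/
theorem sp_le_x {h l m y z z' J : ℝ} (y0 : 0 ≤ y) (l0 : 0 ≤ l) (h0 : 0 ≤ h) (hm : h ≤ y * m)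
    (hz : z ≤ z') (h1 : m * z' ≤ J) (h2 : l * z' ≤ J) : RCM.sp h (y * l) z ≤ y * J := by
  refine (RCM.sp_mono h0 (mul_nonneg y0 l0) hz).trans ?_
  unfold RCM.sp
  rcases le_total 0 z' with h3 | h3
  · rw [max_eq_right h3, max_eq_left (by linarith : -z' ≤ 0), mul_zero, sub_zero]
    have i1 := mul_le_mul_of_nonneg_right hm h3
    have i2 := mul_le_mul_of_nonneg_left h1 y0
    rw [mul_assoc] at i1
    exact i1.trans i2
  · rw [max_eq_left h3, max_eq_right (by linarith : 0 ≤ -z'), mul_zero, zero_sub]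
    have i2 := mul_le_mul_of_nonneg_left h2 y0
    linarith

/-- the lower bound of the hazard of an admissible pair -/
theorem lx_eq {c d : V} (h : (P c ∧ P d) ∨ x c d = 0) (r : ℝ) :
    lx x P lo c d r = x c d * lo r := by
  unfold lx
  by_cases h1 : P c ∧ P d
  · rw [if_pos h1]
  · rw [if_neg h1]
    rcases h with h | h
    · exact absurd h h1
    · rw [h, zero_mul]

/-- **the scalar bound of the direct part** -/
theorem Sx.DiS_le (hc : Ctn F G α τ) (hF : F.OkN Z x P A D sg α τ) (hZ : Z.Ok sl) (hx : Wt x P 1)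
    {t s : ℝ} (ht : t ∈ Icc α τ) (hs : s ∈ Icc 0 t)
    (cl : ContinuousOn lo (Icc 0 t)) {ε : ℝ} {mb e ω : ℝ → ℝ} {k1 k2 : ℝ}
    {j1 j1' j2 j2' : ℝ → ℝ} {c d : V}
    (h : Sx Z F x P lo D t s ε mb e ω k1 k2 j1 j1' j2 j2' c d) {n1 n2 : ℝ}
    (hn1 : k1 ≤ Real.exp (-n1)) (hn2 : 2 * k2 ≤ Real.exp (-n1) + Real.exp (-n2)) :
    DiS Z F x P lo D c d t s ε n1 n2 ≤ x c d * ((j1 s - j1 0) + (j2 t - j2 s)) := by
  have h0t : 0 ≤ t := hs.1.trans hs.2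
  have t1 : t ∈ Icc (0 : ℝ) bt := ⟨h0t, ht.2.trans hF.τ1⟩
  have hd := dc_of hc hF hZ hx ht hs cl (D := D) c d
  have x0 := (xw_mem hx c d).1
  have ii : ∀ {f : ℝ → ℝ} {a b : ℝ}, ContinuousOn f (Icc 0 t) → 0 ≤ a → a ≤ b → b ≤ t →
      IntervalIntegrable f volume a b := fun {f a b} hf ha hab hb =>
    (hf.mono (by rw [uIcc_of_le hab]; exact Icc_subset_Icc ha hb)).intervalIntegrable
  have split : ∀ n I : ℝ, Real.exp (-(n + I)) = Real.exp (-n) * Real.exp (-I) := fun n I => by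
    rw [← Real.exp_add]; congr 1; ring
  have k1 := int_le_prim (f := fun r => RCM.sp (Z.hh x P r c d) (lx x P lo c d r)
    (1 + wN F t s c d r - Real.exp (-(n1 + Z.Hh x P r c d 0
        + ∫ ρ in (0 : ℝ)..r, ∑ f ∈ (Dᶜ.erase c).erase d, K2 Z F x P t s ρ d f))
      - Real.exp (-(n2 + Z.Hh x P r c d 0
        + ∫ ρ in (0 : ℝ)..r, ∑ f ∈ (Dᶜ.erase d).erase c, K2 Z F x P t s ρ c f))))
    (g := fun r => x c d * j1 r) (g' := fun r => x c d * j1' r) hs.1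
    ((RCM.sp_cont hd.ch hd.cl (hd.z2 n1 n2)).mono (Icc_subset_Icc_right hs.2))
    (fun r hr => (h.d1 r hr).const_mul _) fun r hr => ?_
  · have k2 : ∫ r in s..t, RCM.sp (Z.hh x P r c d) (lx x P lo c d r)
        (ε + wN F t s c d r - Real.exp (-(n1 + Z.Hh x P r c d 0
        + ∫ ρ in (0 : ℝ)..r, ∑ f ∈ (Dᶜ.erase c).erase d, K2 Z F x P t s ρ d f)))
        ≤ x c d * j2 t - x c d * j2 s := by
      refine int_le_prim' (g := fun r => x c d * j2 r) (g' := fun r => x c d * j2' r) hs.2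
        ((RCM.sp_cont hd.ch hd.cl (hd.z1 ε n1)).mono (Icc_subset_Icc_left hs.1))
        (fun r hr => (h.d2 r hr).const_mul _) fun r hr => ?_
      have hr' : r ∈ Icc 0 t := ⟨hs.1.trans hr.1, hr.2⟩
      have h0 := hZ.hh_nonneg hx ⟨hr'.1, hr'.2.trans t1.2⟩ c d
      rw [lx_eq h.hP]
      refine sp_le_x x0 (h.l0 r hr') h0 (h.hm r hr') ?_ (h.a2 r hr) (h.b2 r hr)
      have i1 := h.hω r hr'
      have i2 := mul_le_mul hn1 (h.he1 r hr') (h.e0 r hr') (Real.exp_pos _).le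
      rw [← split] at i2
      have e3 : n1 + (Z.Hh x P r c d 0
        + ∫ ρ in (0 : ℝ)..r, ∑ f ∈ (Dᶜ.erase c).erase d, K2 Z F x P t s ρ d f)
        = n1 + Z.Hh x P r c d 0
        + ∫ ρ in (0 : ℝ)..r, ∑ f ∈ (Dᶜ.erase c).erase d, K2 Z F x P t s ρ d f := by ring
      rw [e3] at i2
      linarith
    unfold DiS
    linarith
  · have hr' : r ∈ Icc 0 t := ⟨hr.1, hr.2.trans hs.2⟩
    have h0 := hZ.hh_nonneg hx ⟨hr'.1, hr'.2.trans t1.2⟩ c d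
    show RCM.sp _ _ _ ≤ _
    rw [lx_eq h.hP]
    refine sp_le_x x0 (h.l0 r hr') h0 (h.hm r hr') ?_ (h.a1 r hr) (h.b1 r hr)
    have i1 := h.hω r hr'
    have i2 := mul_le_mul_of_nonneg_left (h.he1 r hr') (Real.exp_pos (-n1)).le
    have i3 := mul_le_mul_of_nonneg_left (h.he2 r hr') (Real.exp_pos (-n2)).le
    have i4 := mul_le_mul_of_nonneg_right hn2 (h.e0 r hr')
    rw [← split] at i2 i3
    have e3 : n1 + (Z.Hh x P r c d 0
        + ∫ ρ in (0 : ℝ)..r, ∑ f ∈ (Dᶜ.erase c).erase d, K2 Z F x P t s ρ d f)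
        = n1 + Z.Hh x P r c d 0
        + ∫ ρ in (0 : ℝ)..r, ∑ f ∈ (Dᶜ.erase c).erase d, K2 Z F x P t s ρ d f := by ring
    have e4 : n2 + (Z.Hh x P r c d 0
        + ∫ ρ in (0 : ℝ)..r, ∑ f ∈ (Dᶜ.erase d).erase c, K2 Z F x P t s ρ c f)
        = n2 + Z.Hh x P r c d 0
        + ∫ ρ in (0 : ℝ)..r, ∑ f ∈ (Dᶜ.erase d).erase c, K2 Z F x P t s ρ c f := by ring
    rw [e3] at i2
    rw [e4] at i3
    linarith

/-- two factors with a bound of the sum of the exponents -/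
theorem exp_two_ge {n1 n2 ν : ℝ} (h : n1 + n2 ≤ 2 * ν) :
    2 * Real.exp (-ν) ≤ Real.exp (-n1) + Real.exp (-n2) := by
  have h1 : Real.exp (-n1) = Real.exp (-n1 / 2) ^ 2 := by
    rw [← Real.exp_nat_mul]; congr 1; push_cast; ring
  have h2 : Real.exp (-n2) = Real.exp (-n2 / 2) ^ 2 := by
    rw [← Real.exp_nat_mul]; congr 1; push_cast; ring
  have h3 : Real.exp (-ν) ≤ Real.exp (-n1 / 2) * Real.exp (-n2 / 2) := by
    rw [← Real.exp_add]
    refine Real.exp_le_exp.2 ?_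
    linarith
  rw [h1, h2]
  nlinarith [sq_nonneg (Real.exp (-n1 / 2) - Real.exp (-n2 / 2))]

end Pool.Agent.RX.RCN.K
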