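import Pool.Agent.RX.RCM.BEps
import Pool.Agent.RX.RCM.BMl

/-! The closures at a pendant vertex are exact (MP_73ccd0_lc, all weights). -/

namespace Pool.Agent.RX.RCM

open Set Finset Pool.Agent.RX.RCRSHalf Pool.Agent.RX.RCRSGen Pool.Agent.RX.RCG

set_option linter.unusedSectionVars false

variable {V : Type*} [Fintype V] [DecidableEq V]
variable {h : ℝ → V → V → ℝ} {H : V → V → ℝ → ℝ} {a e : V} {t : ℝ}

/-- a pendant vertex that is not killed does not matter for the backward functions -/
theorem ev_pend (h0 : ∀ t a b, 0 ≤ h t a b) (hs : ∀ t a b, h t a b = h t b a) {κ : ℝ → V → ℝ}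
    (k0 : ∀ r ∈ Icc 0 t, ∀ a, 0 ≤ κ r a) (hp : ∀ r ∈ Icc 0 t, ∀ v, v ≠ a → h r e v = 0)
    (ke : ∀ r ∈ Icc 0 t, κ r e = 0) {R : Finset V → ℝ → ℝ}
    (hR : IsEv h κ (fun _ => 0) (fun _ => 0) t R) (h1 : ∀ F, R F t = 1) (hea : e ≠ a) :
    ∀ F : Finset V, a ∉ F → e ∉ F → ∀ r ∈ Icc 0 t, R (insert e F) r = R F r := by
  intro F
  induction hn : F.card using Nat.strong_induction_on generalizing F with
  | _ n ih =>
  intro haF heF
  have hih : ∀ r ∈ Icc 0 t, ∀ u ∈ F, ∀ v ∈ F,
      R (((insert e F).erase u).erase v) r = R ((F.erase u).erase v) r := by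
    intro r hr u hu v hv
    have hcard : ((F.erase u).erase v).card < n := by
      rw [← hn]
      exact (Finset.card_le_card (Finset.erase_subset _ _)).trans_lt
        (Finset.card_erase_lt_of_mem hu)
    have hue : u ≠ e := fun h => heF (h ▸ hu)
    have hve : v ≠ e := fun h => heF (h ▸ hv)
    have e1 : ((insert e F).erase u).erase v = insert e ((F.erase u).erase v) := by
      rw [Finset.erase_insert_of_ne hue.symm, Finset.erase_insert_of_ne hve.symm]
    rw [e1]
    refine ih _ hcard _ rfl (fun h => haF ?_) (fun h => heF ?_) r hr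
    · exact Finset.mem_of_mem_erase (Finset.mem_of_mem_erase h)
    · exact Finset.mem_of_mem_erase (Finset.mem_of_mem_erase h)
  have hgen : ∀ r ∈ Icc 0 t, gen (h r) (fun G => R G r) (insert e F)
      - gen (h r) (fun G => R G r) F = -(rate (h r) F * (R (insert e F) r - R F r)) := by
    intro r hr
    have z1 : ∀ v ∈ insert e F, h r e v = 0 := fun v hv => hp r hr v fun hva => by
      rcases Finset.mem_insert.1 hv with h2 | h2
      · exact hea (h2 ▸ hva)
      · exact haF (hva ▸ h2)
    have e0 : gen (h r) (fun G => R G r) (insert e F)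
        = (1 / 2) * ∑ u ∈ F, ∑ v ∈ F, h r u v * (R ((F.erase u).erase v) r - R (insert e F) r) := by
      unfold gen
      congr 1
      rw [Finset.sum_insert heF]
      have z2 : ∑ b ∈ insert e F, h r e b * (R (((insert e F).erase e).erase b) r
          - R (insert e F) r) = 0 :=
        Finset.sum_eq_zero fun b hb => by rw [z1 b hb, zero_mul]
      rw [z2, zero_add]
      refine Finset.sum_congr rfl fun u hu => ?_
      rw [Finset.sum_insert heF]
      have z3 : h r u e = 0 := by rw [hs]; exact z1 u (Finset.mem_insert_of_mem hu)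
      rw [z3, zero_mul, zero_add]
      refine Finset.sum_congr rfl fun v hv => ?_
      beta_reduce
      rw [hih r hr u hu v hv]
    rw [e0]
    unfold gen rate
    rw [← mul_sub, ← Finset.sum_sub_distrib, mul_assoc, Finset.sum_mul, ← mul_neg,
      ← Finset.sum_neg_distrib]
    congr 1
    refine Finset.sum_congr rfl fun u hu => ?_
    rw [← Finset.sum_sub_distrib, Finset.sum_mul, ← Finset.sum_neg_distrib]
    refine Finset.sum_congr rfl fun v hv => ?_
    beta_reduce
    ring
  have main : ∀ σ : ℝ, ∀ r ∈ Icc 0 t, 0 ≤ σ * (R (insert e F) r - R F r) := by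
    intro σ
    refine nonneg_of_backward (U' := fun r => σ *
      (-(gen (h r) (fun G => R G r) (insert e F) - (∑ a ∈ insert e F, κ r a) * R (insert e F) r
        - 0 * R (insert e F) r + 0)
      - -(gen (h r) (fun G => R G r) F - (∑ a ∈ F, κ r a) * R F r - 0 * R F r + 0)))
      (fun r hr => ((hR.deriv (insert e F) r hr).sub (hR.deriv F r hr)).const_mul σ) ?_ ?_
    · rw [h1, h1]; simp
    · intro r hr hlt
      have e2 := hgen r hr
      have h4 := rate_nonneg (h0 r) F
      have h5 : 0 ≤ ∑ a ∈ F, κ r a := Finset.sum_nonneg fun a _ => k0 r hr a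
      have e3 : ∑ a ∈ insert e F, κ r a = ∑ a ∈ F, κ r a := by
        rw [Finset.sum_insert heF, ke r hr, zero_add]
      rw [e3]
      have h6 : σ * (-(gen (h r) (fun G => R G r) (insert e F)
          - (∑ a ∈ F, κ r a) * R (insert e F) r - 0 * R (insert e F) r + 0)
          - -(gen (h r) (fun G => R G r) F - (∑ a ∈ F, κ r a) * R F r - 0 * R F r + 0))
          = (rate (h r) F + ∑ a ∈ F, κ r a) * (σ * (R (insert e F) r - R F r)) := by
        linear_combination (-σ) * e2
      rw [h6]
      exact mul_nonpos_of_nonneg_of_nonpos (by positivity) hlt.le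
  intro r hr
  have m1 := main 1 r hr
  have m2 := main (-1) r hr
  linarith

/-- a pendant vertex is free if its neighbour is free -/
theorem law_pend {μ : ℝ → Finset V → ℝ} {T : ℝ} (hμ : IsLaw h (Finset.univ : Finset V) T μ)
    (h0 : ∀ t a b, 0 ≤ h t a b) (hs : ∀ t a b, h t a b = h t b a)
    (hp : ∀ r ∈ Icc 0 t, ∀ v, v ≠ a → h r e v = 0) (htT : t ≤ T) {s : ℝ} (hst : s ∈ Icc 0 t)
    (F : Finset V) (ha : a ∈ F) (he : e ∉ F) : μ s F = 0 := by
  set φ : Finset V → ℝ := fun G => if a ∈ G ∧ e ∉ G then 1 else 0 with hφ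
  have mT : ∀ r ∈ Icc 0 t, r ∈ Icc 0 T := fun r hr => ⟨hr.1, hr.2.trans htT⟩
  have g0 : ∀ r ∈ Icc 0 t, ∀ G, gen (h r) φ G ≤ 0 := by
    intro r hr G
    unfold gen
    refine mul_nonpos_of_nonneg_of_nonpos (by norm_num)
      (Finset.sum_nonpos fun u hu => Finset.sum_nonpos fun v hv => ?_)
    by_cases hz : h r u v = 0
    · rw [hz, zero_mul]
    · refine mul_nonpos_of_nonneg_of_nonpos (h0 r u v) (sub_nonpos.2 ?_)
      rw [hφ]
      beta_reduce
      by_cases h1 : a ∈ (G.erase u).erase v ∧ e ∉ (G.erase u).erase v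
      · have h2 : a ∈ G := Finset.mem_of_mem_erase (Finset.mem_of_mem_erase h1.1)
        have h3 : e ∉ G := by
          intro heG
          have hav : a ≠ v := (Finset.mem_erase.1 h1.1).1
          have hau : a ≠ u := (Finset.mem_erase.1 (Finset.mem_erase.1 h1.1).2).1
          by_cases hev : e = v
          · exact hz (by rw [hs, ← hev]; exact hp r hr u (Ne.symm hau))
          · by_cases heu : e = u
            · exact hz (by rw [← heu]; exact hp r hr v (Ne.symm hav))
            · exact h1.2 (Finset.mem_erase.2 ⟨hev, Finset.mem_erase.2 ⟨heu, heG⟩⟩)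
        rw [if_pos h1, if_pos ⟨h2, h3⟩]
      · rw [if_neg h1]
        split_ifs <;> norm_num
  have key := nonneg_of_forward (a := 0) (s := t) (U := fun s => -∑ G : Finset V, μ s G * φ G)
    (fun r hr => (hμ.deriv_sum (φ := fun _ => φ) (φ' := fun _ _ => 0) (mT r hr)
      (fun _ => hasDerivAt_const _ _)).neg)
    (by
      rw [hμ.start]
      have : ∑ G : Finset V, pt (Finset.univ : Finset V) G * φ G = 0 := by
        refine Finset.sum_eq_zero fun G _ => ?_
        by_cases hG : G = (Finset.univ : Finset V)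
        · subst hG
          rw [hφ]
          simp
        · unfold pt; rw [if_neg hG, zero_mul]
      rw [this]; simp)
    (fun r hr _ => by
      rw [neg_nonneg]
      refine Finset.sum_nonpos fun G _ => ?_
      rw [add_zero]
      exact mul_nonpos_of_nonneg_of_nonpos (hμ.nonneg G r (mT r hr)) (g0 r hr G)) s hst
  have n0 := fun G => hμ.nonneg G s (mT s hst)
  have f0 : ∀ G ∈ (Finset.univ : Finset (Finset V)), 0 ≤ μ s G * φ G := fun G _ =>
    mul_nonneg (n0 G) (by rw [hφ]; beta_reduce; split_ifs <;> norm_num)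
  have le1 := Finset.single_le_sum f0 (Finset.mem_univ F)
  have e1 : φ F = 1 := by rw [hφ]; beta_reduce; rw [if_pos ⟨ha, he⟩]
  rw [e1, mul_one] at le1
  have := n0 F
  linarith

/-- expectations with a pendant vertex -/
theorem ex_pend {y : Finset V → ℝ} (hy : ∀ F, a ∈ F → e ∉ F → y F = 0) {W : Finset V}
    (haW : a ∈ W) (heW : e ∉ W) {ψ ψ' : Finset V → ℝ}
    (h1 : ∀ F, a ∉ F → e ∉ F → ψ' (insert e F) = ψ F) :
    ex y (insert e W) ψ = ex y W ψ' := by
  unfold ex
  refine Finset.sum_congr rfl fun F _ => ?_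
  by_cases hW : W ⊆ F
  · rw [if_pos hW]
    by_cases heF : e ∈ F
    · have h2 : insert e W ⊆ F := Finset.insert_subset heF hW
      rw [if_pos h2]
      have e1 : F \ W = insert e (F \ insert e W) := by
        ext z
        simp only [Finset.mem_sdiff, Finset.mem_insert, not_or]
        constructor
        · rintro ⟨h3, h4⟩
          by_cases hz : z = e
          · exact Or.inl hz
          · exact Or.inr ⟨h3, hz, h4⟩
        · rintro (h3 | ⟨h3, _, h4⟩)
          · subst h3; exact ⟨heF, heW⟩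
          · exact ⟨h3, h4⟩
      rw [e1, h1]
      · simp [haW]
      · simp
    · rw [hy F (hW haW) heF, zero_mul, zero_mul]
  · rw [if_neg hW, if_neg fun h => hW ((Finset.subset_insert e W).trans h)]

/-- **the closures at a pendant vertex are exact** -/
theorem clo_pend (hh : Haz h H) (ht : t ∈ Icc (0 : ℝ) 1)
    (hp : ∀ r ∈ Icc 0 t, ∀ v, v ≠ a → h r e v = 0) {b c : V} (hab : b ≠ a) (hea : e ≠ a)
    (heb : e ≠ b) (hec : e ≠ c) (hca : c ≠ a) {s : ℝ} (hs : s ∈ Icc 0 t) :
    CloD h t s {b} {b, a} c e 1 ∧ CloDt h t s {b} {b, a} c e 1 := by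
  have hsub : ∀ F, a ∈ F → e ∉ F → lw h ∅ s F = 0 := by
    have hμ := hh.lw (∅ : Finset V)
    rw [Finset.compl_empty] at hμ
    exact fun F h1 h2 => law_pend hμ hh.nonneg hh.symm hp ht.2 hs F h1 h2
  have heW1 : e ∉ ({b, a} : Finset V) := by simp [hea, heb]
  have heW2 : e ∉ insert c ({b, a} : Finset V) := by simp [hea, heb, hec]
  have haW1 : a ∈ ({b, a} : Finset V) := by simp
  have haW2 : a ∈ insert c ({b, a} : Finset V) := by simp
  have eU : ({c, e} : Finset V) ∪ {b, a} = insert e (insert c {b, a}) := by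
    ext z; simp only [Finset.mem_union, Finset.mem_insert, Finset.mem_singleton]; tauto
  have k1 : ∀ {Ra : Finset V → ℝ → ℝ}, Wd h (fun r v => ∑ w ∈ ({b} : Finset V), h r w v) t Ra →
      (∀ F, Ra F t = 1) → ∀ F : Finset V, a ∉ F → e ∉ F → Ra (insert e F) s = Ra F s :=
    fun hRa a1 F h1 h2 => ev_pend hh.nonneg hh.symm
      (fun r _ v => Finset.sum_nonneg fun w _ => hh.nonneg _ _ _) hp
      (fun r hr => by
        rw [Finset.sum_singleton, hh.symm]; exact hp r hr b hab) hRa.ev a1 hea F h1 h2 s hs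
  have k2 : ∀ {Rac : Finset V → ℝ → ℝ},
      Wd h (fun r v => ∑ w ∈ ({b} : Finset V), h r w v + h r c v) t Rac →
      (∀ F, Rac F t = 1) → ∀ F : Finset V, a ∉ F → e ∉ F → Rac (insert e F) s = Rac F s :=
    fun hRa a1 F h1 h2 => ev_pend hh.nonneg hh.symm
      (fun r _ v => add_nonneg (Finset.sum_nonneg fun w _ => hh.nonneg _ _ _) (hh.nonneg _ _ _)) hp
      (fun r hr => by
        rw [Finset.sum_singleton, hh.symm, hh.symm r c e, hp r hr b hab, hp r hr c hca, add_zero])
      hRa.ev a1 hea F h1 h2 s hs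
  constructor
  · intro Ra Rac hRa a1 hRac c1
    rw [eU, one_mul, ex_pend hsub haW1 heW1 (ψ := fun F => Ra F s) (ψ' := fun F => Ra F s)
      (k1 hRa a1), ex_pend hsub haW2 heW2 (ψ := fun F => Rac F s) (ψ' := fun F => Rac F s)
      (k2 hRac c1)]
    exact le_of_eq (mul_comm _ _)
  · intro Ra Rac hRa a1 hRac c1
    rw [eU, one_mul, ex_pend hsub haW1 heW1 (ψ := fun F => Ra (insert e F) s)
      (ψ' := fun F => Ra F s) (fun F _ _ => rfl),
      ex_pend hsub haW2 heW2 (ψ := fun F => Rac (insert e F) s) (ψ' := fun F => Rac F s)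
      (fun F _ _ => rfl)]
    exact le_of_eq (mul_comm _ _)

end Pool.Agent.RX.RCM
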