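import Pool.Agent.RX.RCM.LevZ

/-! Rows of weights with the weight of the removed set (MP_73ccd0_lc, route M). -/

namespace Pool.Agent.RX.RCM

open Set Finset

set_option linter.unusedSectionVars false

variable {V : Type*} [Fintype V] [DecidableEq V]
variable {x : V → V → ℝ} {D : Finset V} {c e : V}

theorem row_erase (hx : Wt x) (hc : c ∈ Dᶜ) (e : V) :
    ∑ f ∈ Dᶜ.erase c, x e f ≤ 1 - kx x D e - x e c := by
  have h1 := row_U hx D e
  rw [← Finset.add_sum_erase Dᶜ (fun f => x e f) hc] at h1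
  linarith

/-- **plain row with the exponents of the removed set** -/
theorem rowK (hx : Wt x) (hD : D.card ≤ 2) (hc : c ∈ Dᶜ) (he : e ∈ Dᶜ.erase c) {δ : ℝ}
    (δ0 : 0 ≤ δ) (δ1 : δ ≤ 1) :
    ∑ f ∈ Dᶜ.erase c, x e f * Real.exp (kx x D f * δ)
      ≤ Real.exp ((2 + kx x D e) * δ / 3) * ((1 - kx x D e) - x e c * (1 - 2 / 9 * δ)) := by
  have heD := Finset.mem_of_mem_erase he
  have hk0 := kx0 hx D e
  have hk1 := kx1 hx D e
  have hxc : x e c + kx x D e ≤ 1 := by
    exact x_add_kx hx (v := e) (b := c) D hc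
  have xc0 := hx.nn e c
  have hrow := row_erase hx hc e
  have hs0 : 0 ≤ ∑ f ∈ Dᶜ.erase c, x e f := Finset.sum_nonneg fun f _ => hx.nn e f
  rcases eq_or_lt_of_le hk1 with h1 | h1
  · have z : ∑ f ∈ Dᶜ.erase c, x e f = 0 := le_antisymm (by linarith) hs0
    have z2 : x e c = 0 := by linarith
    have z3 : ∀ f ∈ Dᶜ.erase c, x e f = 0 := (Finset.sum_eq_zero_iff_of_nonneg
      fun f _ => hx.nn e f).1 z
    rw [Finset.sum_eq_zero fun f hf => by rw [z3 f hf, zero_mul], h1, z2]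
    simp
  · set k : ℝ := kx x D e with hk
    set cc : ℝ := (1 - k) / (3 - 2 * k) with hcc
    have d0 : 0 < 3 - 2 * k := by linarith
    have hcm : cc * (3 - 2 * k) = 1 - k := by
      rw [hcc]; exact div_mul_cancel₀ _ d0.ne'
    have c0 : 0 < cc := div_pos (by linarith) d0
    have c3 : cc ≤ 1 / 3 := by
      rw [hcc, div_le_iff₀ d0]; linarith
    have hcδ : cc * δ ≤ 1 := by nlinarith
    have c2 : cc * (2 - k) = (1 - cc) * (1 - k) := by nlinarith
    -- pointwise
    have hpt : ∀ f ∈ Dᶜ.erase c, x e f * Real.exp ((kx x D f - (1 - cc)) * δ)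
        ≤ (1 - (1 - cc) * cc * δ) * x e f + cc ^ 2 * δ * (if f = e then 0 else kx x D f) := by
      intro f hf
      by_cases hfe : f = e
      · rw [if_pos hfe, hfe, hx.diag]; simp
      · rw [if_neg hfe]
        exact exp_row_pt c0 δ0 hcδ (hx.nn e f) (kx0 hx D f)
          (by rw [hx.symm e f]; exact x_add_kx hx D heD)
    have hksum : ∑ f ∈ Dᶜ.erase c, (if f = e then 0 else kx x D f) ≤ 2 - k := by
      have h2 := sum_kx hx D (Dᶜ.erase c)
      have h3 : ∑ f ∈ Dᶜ.erase c, kx x D f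
          = kx x D e + ∑ f ∈ Dᶜ.erase c, (if f = e then 0 else kx x D f) := by
        rw [← Finset.add_sum_erase _ _ he, ← Finset.add_sum_erase _
          (fun f => if f = e then 0 else kx x D f) he, if_pos rfl, zero_add]
        congr 1
        exact Finset.sum_congr rfl fun f hf => by rw [if_neg (Finset.ne_of_mem_erase hf)]
      have h4 : (D.card : ℝ) ≤ 2 := by exact_mod_cast hD
      rw [h3] at h2
      linarith
    have hsum : ∑ f ∈ Dᶜ.erase c, x e f * Real.exp ((kx x D f - (1 - cc)) * δ)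
        ≤ (1 - (1 - cc) * cc * δ) * (1 - k - x e c) + cc ^ 2 * δ * (2 - k) := by
      refine (Finset.sum_le_sum hpt).trans ?_
      rw [Finset.sum_add_distrib, ← Finset.mul_sum, ← Finset.mul_sum]
      have q0 : 0 ≤ 1 - (1 - cc) * cc * δ := by
        have : (1 - cc) * cc ≤ 1 := by nlinarith
        nlinarith [mul_nonneg (by linarith : (0 : ℝ) ≤ 1 - cc) c0.le]
      exact add_le_add (mul_le_mul_of_nonneg_left hrow q0)
        (mul_le_mul_of_nonneg_left hksum (by positivity))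
    have e1 : ∑ f ∈ Dᶜ.erase c, x e f * Real.exp (kx x D f * δ)
        = Real.exp ((1 - cc) * δ) * ∑ f ∈ Dᶜ.erase c, x e f
          * Real.exp ((kx x D f - (1 - cc)) * δ) := by
      rw [Finset.mul_sum]
      refine Finset.sum_congr rfl fun f _ => ?_
      rw [mul_left_comm, ← Real.exp_add]
      congr 2
      ring
    rw [e1]
    have e2 : (1 - (1 - cc) * cc * δ) * (1 - k - x e c) + cc ^ 2 * δ * (2 - k)
        = (1 - k) - x e c * (1 - cc * (1 - cc) * δ) := by
      have : cc ^ 2 * δ * (2 - k) = cc * δ * ((1 - cc) * (1 - k)) := by rw [← c2]; ring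
      rw [this]; ring
    rw [e2] at hsum
    have cc2 : cc * (1 - cc) ≤ 2 / 9 := by nlinarith
    have hb : (1 - k) - x e c * (1 - cc * (1 - cc) * δ) ≤ (1 - k) - x e c * (1 - 2 / 9 * δ) := by
      have h5 : cc * (1 - cc) * δ ≤ 2 / 9 * δ := mul_le_mul_of_nonneg_right cc2 δ0
      have := mul_le_mul_of_nonneg_left h5 xc0
      nlinarith
    have he3 : Real.exp ((1 - cc) * δ) ≤ Real.exp ((2 + k) * δ / 3) := by
      refine Real.exp_le_exp.2 ?_
      have h6 : 1 - cc ≤ (2 + k) / 3 := by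
        have h7 : (1 - k) / 3 ≤ cc := by
          rw [hcc, div_le_div_iff₀ (by norm_num) d0]
          nlinarith
        linarith
      have := mul_le_mul_of_nonneg_right h6 δ0
      linarith
    have hpos : 0 ≤ (1 - k) - x e c * (1 - 2 / 9 * δ) := by nlinarith
    exact mul_le_mul he3 (hsum.trans hb) (Finset.sum_nonneg fun f _ =>
      mul_nonneg (hx.nn e f) (Real.exp_pos _).le) (Real.exp_pos _).le

theorem two_kx (hx : Wt x) (hc : c ∈ Dᶜ) (he : e ∈ Dᶜ.erase c) (b : V) :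
    x e b + x c b + kx x D b ≤ 1 := by
  have h1 := row_erase hx hc b
  have h2 : x b e ≤ ∑ f ∈ Dᶜ.erase c, x b f := Finset.single_le_sum (f := fun f => x b f)
    (fun f _ => hx.nn b f) he
  rw [hx.symm e b, hx.symm c b]
  linarith

/-- products of two rows, relative to the first -/
theorem halfK (hx : Wt x) (hc : c ∈ Dᶜ) (he : e ∈ Dᶜ.erase c) {h : V → ℝ} {H : ℝ}
    (h0 : ∀ b ∈ Dᶜ.erase c, 0 ≤ h b) (hH : ∀ b ∈ Dᶜ.erase c, (1 - kx x D b) * h b ≤ H)
    (H0 : 0 ≤ H) :
    ∑ b ∈ Dᶜ.erase c, x e b * x c b * h b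
      ≤ H * ((1 - kx x D e) * (1 / 2 + 3 / 4 * kx x D e)) ∧
    ∑ b ∈ Dᶜ.erase c, x e b * x c b * h b ≤ H * ((2 - kx x D e) / 4) := by
  have hrow : ∑ b ∈ Dᶜ.erase c, x e b ≤ 1 - kx x D e := by
    have := row_erase hx hc e
    linarith [hx.nn e c]
  have hrc : ∑ b ∈ Dᶜ.erase c, x c b ≤ 1 :=
    (Finset.sum_le_univ_sum_of_nonneg fun b => hx.nn c b).trans (hx.row c)
  have hk0 := kx0 hx D e
  have hk1 := kx1 hx D e
  have A : ∑ b ∈ Dᶜ.erase c, x e b * x c b * h b ≤ H * (1 - kx x D e) := by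
    refine le_trans (Finset.sum_le_sum (g := fun b => H * x e b) fun b hb => ?_)
      (by rw [← Finset.mul_sum]; exact mul_le_mul_of_nonneg_left hrow H0)
    have h1 : x c b ≤ 1 - kx x D b := by
      have := two_kx hx hc he b
      linarith [hx.nn e b]
    have h2 := mul_le_mul_of_nonneg_right h1 (h0 b hb)
    have h3 := mul_le_mul_of_nonneg_left (h2.trans (hH b hb)) (hx.nn e b)
    linarith
  have B : ∑ b ∈ Dᶜ.erase c, x e b * x c b * h b ≤ H * ((2 - kx x D e) / 4) := by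
    refine le_trans (Finset.sum_le_sum (g := fun b => H / 4 * (x e b + x c b)) fun b hb => ?_) ?_
    · have h1 := two_kx hx hc he b
      have a0 := hx.nn e b
      have a1 := hx.nn c b
      have h2 : x e b * x c b ≤ (x e b + x c b) / 4 * (1 - kx x D b) := by
        nlinarith [sq_nonneg (x e b - x c b), mul_le_mul_of_nonneg_left
          (show x e b + x c b ≤ 1 - kx x D b by linarith) (add_nonneg a0 a1)]
      have h3 := mul_le_mul_of_nonneg_right h2 (h0 b hb)
      have h4 := mul_le_mul_of_nonneg_left (hH b hb) (by positivity : 0 ≤ (x e b + x c b) / 4)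
      linarith
    · rw [← Finset.mul_sum, Finset.sum_add_distrib]
      have : (∑ b ∈ Dᶜ.erase c, x e b + ∑ b ∈ Dᶜ.erase c, x c b) ≤ 2 - kx x D e := by linarith
      have := mul_le_mul_of_nonneg_left this (by positivity : 0 ≤ H / 4)
      linarith
  refine ⟨?_, B⟩
  rcases le_total (kx x D e) (2 / 3) with h2 | h2
  · refine B.trans (mul_le_mul_of_nonneg_left ?_ H0)
    nlinarith
  · refine A.trans (mul_le_mul_of_nonneg_left ?_ H0)
    have : 1 ≤ 1 / 2 + 3 / 4 * kx x D e := by linarith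
    nlinarith [mul_le_mul_of_nonneg_left this (by linarith : (0 : ℝ) ≤ 1 - kx x D e)]

/-- products of two rows, one squared -/
theorem thirdK (hx : Wt x) (hc : c ∈ Dᶜ) (he : e ∈ Dᶜ.erase c) {h : V → ℝ} {H : ℝ}
    (h0 : ∀ b ∈ Dᶜ.erase c, 0 ≤ h b) (hH : ∀ b ∈ Dᶜ.erase c, (1 - kx x D b) ^ 2 * h b ≤ H)
    (H0 : 0 ≤ H) :
    ∑ b ∈ Dᶜ.erase c, x e b * x c b ^ 2 * h b ≤ H * (4 / 27 * (2 - kx x D e)) := by
  have hrow : ∑ b ∈ Dᶜ.erase c, x e b ≤ 1 - kx x D e := by
    have := row_erase hx hc e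
    linarith [hx.nn e c]
  have hrc : ∑ b ∈ Dᶜ.erase c, x c b ≤ 1 :=
    (Finset.sum_le_univ_sum_of_nonneg fun b => hx.nn c b).trans (hx.row c)
  refine le_trans (Finset.sum_le_sum (g := fun b => 4 / 27 * H * (x e b + x c b))
    fun b hb => ?_) ?_
  · have h1 := two_kx hx hc he b
    have a0 := hx.nn e b
    have a1 := hx.nn c b
    have k0 : 0 ≤ 1 - kx x D b := by linarith
    set v : ℝ := x e b + x c b with hv
    have v0 : 0 ≤ v := add_nonneg a0 a1
    have h2 : x e b * x c b ^ 2 ≤ 4 / 27 * v ^ 3 := by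
      have : 4 / 27 * v ^ 3 - x e b * x c b ^ 2
          = (x c b - 2 / 3 * v) ^ 2 * (x c b + v / 3) := by
        rw [hv]; ring
      nlinarith [mul_nonneg (sq_nonneg (x c b - 2 / 3 * v)) (by positivity : 0 ≤ x c b + v / 3)]
    have h3 : v ^ 3 ≤ v * (1 - kx x D b) ^ 2 := by
      have : v ^ 2 ≤ (1 - kx x D b) ^ 2 := pow_le_pow_left₀ v0 (by linarith) 2
      nlinarith [mul_le_mul_of_nonneg_left this v0]
    have h4 : x e b * x c b ^ 2 ≤ 4 / 27 * (v * (1 - kx x D b) ^ 2) := by linarith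
    have h5 := mul_le_mul_of_nonneg_right h4 (h0 b hb)
    have h6 := mul_le_mul_of_nonneg_left (hH b hb) (by positivity : 0 ≤ 4 / 27 * v)
    linarith
  · rw [← Finset.mul_sum, Finset.sum_add_distrib]
    have : (∑ b ∈ Dᶜ.erase c, x e b + ∑ b ∈ Dᶜ.erase c, x c b) ≤ 2 - kx x D e := by linarith
    have := mul_le_mul_of_nonneg_left this (by positivity : 0 ≤ 4 / 27 * H)
    linarith

end Pool.Agent.RX.RCM
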