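import Pool.Agent.RX.RCM.Row

/-! Sup bounds of the tails of one target with vertex functions (MP_73ccd0_lc, route M). -/

namespace Pool.Agent.RX.RCM

open Set Finset Pool.Agent.RX.RCRSHalf Pool.Agent.RX.RCG

set_option linter.unusedSectionVars false

variable {V : Type*} [Fintype V] [DecidableEq V]

/-- bound of the pair operator from a bound of both parts -/
theorem Qo_supV {X : Finset V} {T : V → V → ℝ} {g v : V → ℝ} (g0 : ∀ x ∈ X, 0 ≤ g x)
    {A G : ℝ} (h : ∀ x ∈ X, (∑ y ∈ X, T x y) * v x + ∑ z ∈ X, T x z * v z ≤ A) (A0 : 0 ≤ A)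
    (hg : ∑ x ∈ X, g x ≤ G) : Qo X T g v ≤ G * A := by
  have e1 : Qo X T g v = ∑ x ∈ X, g x * ((∑ y ∈ X, T x y) * v x + ∑ z ∈ X, T x z * v z) := by
    unfold Qo
    refine Finset.sum_congr rfl fun x _ => ?_
    rw [Finset.sum_mul, ← Finset.sum_add_distrib, Finset.mul_sum]
    exact Finset.sum_congr rfl fun y _ => by ring
  rw [e1]
  refine (Finset.sum_le_sum fun x hx => mul_le_mul_of_nonneg_left (h x hx) (g0 x hx)).trans ?_
  rw [← Finset.sum_mul]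
  exact mul_le_mul_of_nonneg_right hg A0

/-- majorants `P`, `M` of the tail `p` and of the whole lower function `n1 + n` of one target:
`AM`, `AP`, `AD` bound the pair operator on `M`, `c4 P` and the direct part -/
structure SgV (X : Finset V) (t : ℝ) (T : ℝ → V → V → ℝ) (D n1 n1' : V → ℝ → ℝ)
    (gp gs : V → V → ℝ → ℝ) (c1 c4 : V → ℝ → ℝ) (P P' M M' Gp Gs : V → ℝ → ℝ)
    (AM AP AD : ℝ → ℝ) : Prop where
  dP : ∀ e ∈ X, ∀ r ∈ Icc 0 t, HasDerivAt (P e) (P' e r) r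
  dM : ∀ e ∈ X, ∀ r ∈ Icc 0 t, HasDerivAt (M e) (M' e r) r
  P0 : ∀ e ∈ X, ∀ r ∈ Icc 0 t, 0 ≤ P e r
  M0 : ∀ e ∈ X, ∀ r ∈ Icc 0 t, 0 ≤ M e r
  AM0 : ∀ r ∈ Icc 0 t, 0 ≤ AM r
  AP0 : ∀ r ∈ Icc 0 t, 0 ≤ AP r
  AD0 : ∀ r ∈ Icc 0 t, 0 ≤ AD r
  hM : ∀ x ∈ X, ∀ r ∈ Icc 0 t, (∑ y ∈ X, T r x y) * M x r + ∑ z ∈ X, T r x z * M z r ≤ AM r
  hD : ∀ x ∈ X, ∀ r ∈ Icc 0 t, (∑ y ∈ X, T r x y) * D x r + ∑ z ∈ X, T r x z * D z r ≤ AD r
  hP : ∀ x ∈ X, ∀ r ∈ Icc 0 t, (∑ y ∈ X, T r x y) * (c4 x r * P x r)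
    + ∑ z ∈ X, T r x z * (c4 z r * P z r) ≤ AP r
  hs : ∀ e ∈ X, ∀ r ∈ Icc 0 t, ∑ x ∈ X, gs e x r ≤ Gs e r
  hp : ∀ e ∈ X, ∀ r ∈ Icc 0 t, ∑ x ∈ X, gp e x r ≤ Gp e r
  dn : ∀ e ∈ X, ∀ r ∈ Icc 0 t, HasDerivAt (n1 e) (n1' e r) r
  oP : ∀ e ∈ X, ∀ r ∈ Icc 0 t, ∑ b ∈ X, T r e b * M b r + Gs e r * AM r
    + Gp e r * (AD r + AP r) ≤ -P' e r
  oM : ∀ e ∈ X, ∀ r ∈ Icc 0 t, -n1' e r + ∑ b ∈ X, T r e b * (c1 b r * P b r)
    + Gp e r * AM r + Gs e r * (AD r + AP r) ≤ -M' e r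

/-- **sup bounds of the tails of one target**, with the whole lower function `n1 + n` -/
theorem tail_supV {X : Finset V} {t : ℝ} {T : ℝ → V → V → ℝ} {D n1 n1' : V → ℝ → ℝ}
    {gp gs : V → V → ℝ → ℝ} {c1 c4 p n : V → ℝ → ℝ}
    (hl : Tl X t T D n1 gp gs c1 c4 p n) (T0 : ∀ r ∈ Icc 0 t, ∀ i j, 0 ≤ T r i j)
    (cT : ∀ i j, ContinuousOn (fun r => T r i j) (Icc 0 t))
    (cgp : ∀ i j, ContinuousOn (gp i j) (Icc 0 t)) (cgs : ∀ i j, ContinuousOn (gs i j) (Icc 0 t))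
    (cc1 : ∀ i, ContinuousOn (c1 i) (Icc 0 t)) (cc4 : ∀ i, ContinuousOn (c4 i) (Icc 0 t))
    (gp0 : ∀ i j, ∀ r ∈ Icc 0 t, 0 ≤ gp i j r) (gs0 : ∀ i j, ∀ r ∈ Icc 0 t, 0 ≤ gs i j r)
    (c10 : ∀ i, ∀ r ∈ Icc 0 t, 0 ≤ c1 i r) (c40 : ∀ i, ∀ r ∈ Icc 0 t, 0 ≤ c4 i r)
    {P P' M M' Gp Gs : V → ℝ → ℝ} {AM AP AD : ℝ → ℝ}
    (hg : SgV X t T D n1 n1' gp gs c1 c4 P P' M M' Gp Gs AM AP AD)
    (ep : ∀ e ∈ X, p e t ≤ P e t) (en : ∀ e ∈ X, n1 e t + n e t ≤ M e t) :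
    ∀ e ∈ X, ∀ r ∈ Icc 0 t, p e r ≤ P e r ∧ n1 e r + n e r ≤ M e r := by
  have cT1 : ∀ z, ContinuousOn (fun r => ∑ y ∈ X, T r z y) (Icc 0 t) := fun z =>
    continuousOn_finsetSum _ fun y _ => cT z y
  have cq : ∀ (g : V → V → ℝ → ℝ), (∀ i j, ContinuousOn (g i j) (Icc 0 t)) → ∀ e z,
      ContinuousOn (fun r => qc X (T r) (fun x => g e x r) z) (Icc 0 t) := fun g hg e z => by
    unfold qc
    exact ((hg e z).mul (cT1 z)).add (continuousOn_finsetSum _ fun x _ => (cT x z).mul (hg e x))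
  have qn : ∀ (g : V → V → ℝ → ℝ), (∀ i j, ∀ r ∈ Icc 0 t, 0 ≤ g i j r) → ∀ r ∈ Icc 0 t, ∀ e z,
      0 ≤ qc X (T r) (fun x => g e x r) z := fun g hg r hr e z =>
    qc_nonneg (T0 r hr) (fun x => hg e x r hr) z
  -- the coefficients
  let a11 : ℝ → V → V → ℝ := fun r e z => c4 z r * qc X (T r) (fun x => gp e x r) z
  let a12 : ℝ → V → V → ℝ := fun r e z => T r e z + qc X (T r) (fun x => gs e x r) z
  let a21 : ℝ → V → V → ℝ := fun r e z => c1 z r * T r e z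
    + c4 z r * qc X (T r) (fun x => gs e x r) z
  let a22 : ℝ → V → V → ℝ := fun r e z => qc X (T r) (fun x => gp e x r) z
  let s1 : ℝ → V → ℝ := fun r e => Qo X (T r) (fun x => gp e x r) (fun x => D x r)
  let s2 : ℝ → V → ℝ := fun r e => -n1' e r + Qo X (T r) (fun x => gs e x r) (fun x => D x r)
  obtain ⟨C, _, hC⟩ := exists_bound (κ := Fin 4 × V × V) (t := t)
    (f := fun k r => ![a11 r k.2.1 k.2.2, a12 r k.2.1 k.2.2, a21 r k.2.1 k.2.2,
      a22 r k.2.1 k.2.2] k.1) (fun k => by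
      obtain ⟨i, e, z⟩ := k
      fin_cases i <;> simp [a11, a12, a21, a22]
      · exact (cc4 z).mul (cq gp cgp e z)
      · exact (cT e z).add (cq gs cgs e z)
      · exact ((cc1 z).mul (cT e z)).add ((cc4 z).mul (cq gs cgs e z))
      · exact cq gp cgp e z)
  have g1 := qn gp gp0
  have g2 := qn gs gs0
  have Qa : ∀ (g a b : V → ℝ) (r : ℝ), Qo X (T r) g (fun x => a x + b x)
      = Qo X (T r) g a + Qo X (T r) g b := fun g a b r => Qo_add X (T r) g a b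
  refine two_le (U := X) (t := t) (a11 := a11) (a12 := a12) (a21 := a21) (a22 := a22)
    (s1 := s1) (s2 := s2) (C := C) (p := p) (p' := fun e r => -(∑ b ∈ X, T r e b * (n1 b r + n b r)
    + Qo X (T r) (fun x => gs e x r) (fun x => n1 x r + n x r)
    + Qo X (T r) (fun x => gp e x r) (fun x => D x r + c4 x r * p x r)))
    (n := fun e r => n1 e r + n e r) (n' := fun e r => n1' e r + -(∑ b ∈ X, T r e b * (c1 b r * p b r)
    + Qo X (T r) (fun x => gp e x r) (fun x => n1 x r + n x r)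
    + Qo X (T r) (fun x => gs e x r) (fun x => D x r + c4 x r * p x r)))
    (P := P) (P' := P') (N := M) (N' := M')
    (fun r hr e _ z _ => ⟨⟨mul_nonneg (c40 z r hr) (g1 r hr e z),
      add_nonneg (T0 r hr e z) (g2 r hr e z)⟩,
      add_nonneg (mul_nonneg (c10 z r hr) (T0 r hr e z)) (mul_nonneg (c40 z r hr) (g2 r hr e z)),
      g1 r hr e z⟩)
    (fun r hr e _ z _ => ⟨⟨by simpa using hC (0, e, z) r hr, by simpa using hC (1, e, z) r hr⟩,
      by simpa using hC (2, e, z) r hr, by simpa using hC (3, e, z) r hr⟩)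
    hl.dp (fun e he r hr => (hg.dn e he r hr).add (hl.dn e he r hr)) hg.dP hg.dM hg.P0 hg.M0
    (fun e he r hr => ?_) (fun e he r hr => ?_) (fun e he r hr => ?_) (fun e he r hr => ?_) ep en
  · rw [neg_neg]
    refine le_of_eq ?_
    simp only [Qa, a11, a12, s1, Qo_eq, mul_add, add_mul, Finset.sum_add_distrib]
    have e1 : ∑ z ∈ X, qc X (T r) (fun x => gp e x r) z * (c4 z r * p z r)
        = ∑ z ∈ X, c4 z r * qc X (T r) (fun x => gp e x r) z * p z r :=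
      Finset.sum_congr rfl fun z _ => by ring
    rw [e1]
    ring
  · rw [neg_add, neg_neg]
    refine le_of_eq ?_
    simp only [Qa, a21, a22, s2, Qo_eq, mul_add, add_mul, Finset.sum_add_distrib]
    have e1 : ∑ z ∈ X, qc X (T r) (fun x => gs e x r) z * (c4 z r * p z r)
        = ∑ z ∈ X, c4 z r * qc X (T r) (fun x => gs e x r) z * p z r :=
      Finset.sum_congr rfl fun z _ => by ring
    have e2 : ∑ z ∈ X, T r e z * (c1 z r * p z r) = ∑ z ∈ X, c1 z r * T r e z * p z r :=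
      Finset.sum_congr rfl fun z _ => by ring
    rw [e1, e2]
    ring
  · have b2 : Qo X (T r) (fun x => gs e x r) (fun x => M x r) ≤ Gs e r * AM r :=
      Qo_supV (fun x _ => gs0 e x r hr) (fun x hx => hg.hM x hx r hr) (hg.AM0 r hr)
        (hg.hs e he r hr)
    have b3 : Qo X (T r) (fun x => gp e x r) (fun x => D x r) ≤ Gp e r * AD r :=
      Qo_supV (fun x _ => gp0 e x r hr) (fun x hx => hg.hD x hx r hr) (hg.AD0 r hr)
        (hg.hp e he r hr)
    have b4 : Qo X (T r) (fun x => gp e x r) (fun x => c4 x r * P x r) ≤ Gp e r * AP r :=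
      Qo_supV (fun x _ => gp0 e x r hr) (fun x hx => hg.hP x hx r hr) (hg.AP0 r hr)
        (hg.hp e he r hr)
    have e0 : ∑ z ∈ X, (a11 r e z * P z r + a12 r e z * M z r) + s1 r e
        = ∑ b ∈ X, T r e b * M b r + Qo X (T r) (fun x => gs e x r) (fun x => M x r)
          + (Qo X (T r) (fun x => gp e x r) (fun x => D x r)
            + Qo X (T r) (fun x => gp e x r) (fun x => c4 x r * P x r)) := by
      simp only [a11, a12, s1, Qo_eq, add_mul, Finset.sum_add_distrib]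
      have e1 : ∑ z ∈ X, qc X (T r) (fun x => gp e x r) z * (c4 z r * P z r)
          = ∑ z ∈ X, c4 z r * qc X (T r) (fun x => gp e x r) z * P z r :=
        Finset.sum_congr rfl fun z _ => by ring
      rw [e1]
      ring
    rw [e0]
    have o := hg.oP e he r hr
    rw [mul_add] at o
    linarith
  · have b2 : Qo X (T r) (fun x => gp e x r) (fun x => M x r) ≤ Gp e r * AM r :=
      Qo_supV (fun x _ => gp0 e x r hr) (fun x hx => hg.hM x hx r hr) (hg.AM0 r hr)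
        (hg.hp e he r hr)
    have b3 : Qo X (T r) (fun x => gs e x r) (fun x => D x r) ≤ Gs e r * AD r :=
      Qo_supV (fun x _ => gs0 e x r hr) (fun x hx => hg.hD x hx r hr) (hg.AD0 r hr)
        (hg.hs e he r hr)
    have b4 : Qo X (T r) (fun x => gs e x r) (fun x => c4 x r * P x r) ≤ Gs e r * AP r :=
      Qo_supV (fun x _ => gs0 e x r hr) (fun x hx => hg.hP x hx r hr) (hg.AP0 r hr)
        (hg.hs e he r hr)
    have e0 : ∑ z ∈ X, (a21 r e z * P z r + a22 r e z * M z r) + s2 r e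
        = -n1' e r + ∑ b ∈ X, T r e b * (c1 b r * P b r)
          + Qo X (T r) (fun x => gp e x r) (fun x => M x r)
          + (Qo X (T r) (fun x => gs e x r) (fun x => D x r)
            + Qo X (T r) (fun x => gs e x r) (fun x => c4 x r * P x r)) := by
      simp only [a21, a22, s2, Qo_eq, add_mul, Finset.sum_add_distrib]
      have e1 : ∑ z ∈ X, qc X (T r) (fun x => gs e x r) z * (c4 z r * P z r)
          = ∑ z ∈ X, c4 z r * qc X (T r) (fun x => gs e x r) z * P z r :=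
        Finset.sum_congr rfl fun z _ => by ring
      have e2 : ∑ z ∈ X, T r e z * (c1 z r * P z r) = ∑ z ∈ X, c1 z r * T r e z * P z r :=
        Finset.sum_congr rfl fun z _ => by ring
      rw [e1, e2]
      ring
    rw [e0]
    have o := hg.oM e he r hr
    rw [mul_add] at o
    linarith

end Pool.Agent.RX.RCM
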