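import Pool.Agent.RX.RCM.Tail_1

/-! The adjoint functional of the sums of the tails of one target (MP_73ccd0_lc, route M). -/

namespace Pool.Agent.RX.RCM

open Set Finset

set_option linter.unusedSectionVars false

variable {V : Type*} [Fintype V] [DecidableEq V]

/-- the scalar inequality of the adjoint functional -/
theorem adj_scalar {V N W S V' N' W' be be' xx lam As Ap c1 c4 gV gV' gW gW' gw gw' g1' α β : ℝ}
    (V0 : 0 ≤ V) (N0 : 0 ≤ N) (W0 : 0 ≤ W) (be0 : 0 ≤ be) (α0 : 0 ≤ α)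
    (Ap0 : 0 ≤ Ap) (As0 : 0 ≤ As)
    (gV0 : 0 ≤ gV) (gW0 : 0 ≤ gW)
    (hV : -V' ≤ (lam + As) * (W + N) + Ap * (S + c4 * V))
    (hN : -N' ≤ lam * (c1 * V) + Ap * (W + N) + As * (S + c4 * V))
    (hW : -W' ≤ lam * be) (hS : S ≤ be + xx)
    (oV : Ap * c4 * gV + (lam * c1 + As * c4) * (1 + gW) + c4 * α ≤ gV')
    (oW : (lam + As) * gV + Ap * (1 + gW) + β ≤ gW')
    (ow : Ap * gV + As * (1 + gW) + lam * gW + α ≤ gw')
    (o1 : -be' * gw + xx * (Ap * gV + As * (1 + gW) + α) ≤ g1') :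
    α * (S + c4 * V) + β * (W + N) ≤ gV' * V + gV * V' + (gW' * N + (1 + gW) * N')
      + (gW' * W + gW * W') + (gw' * be + gw * be') + g1' := by
  have a1 := mul_le_mul_of_nonneg_right oV V0
  have a2 := mul_le_mul_of_nonneg_right oW (add_nonneg W0 N0)
  have a3 := mul_le_mul_of_nonneg_right ow be0
  have b1 := mul_le_mul_of_nonneg_left hV gV0
  have b2 := mul_le_mul_of_nonneg_left hN (by linarith : 0 ≤ 1 + gW)
  have b3 := mul_le_mul_of_nonneg_left hW gW0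
  have c0 : 0 ≤ Ap * gV + As * (1 + gW) + α := by
    have := mul_nonneg Ap0 gV0
    have := mul_nonneg As0 (by linarith : 0 ≤ 1 + gW)
    linarith
  have c1 := mul_le_mul_of_nonneg_right hS c0
  nlinarith [a1, a2, a3, b1, b2, b3, c1, o1]

/-- **the adjoint functional of the position sums** -/
theorem tl_adj {X : Finset V} {t : ℝ} {T : ℝ → V → V → ℝ}
    {D n1 n1' p p' n n' : V → ℝ → ℝ} {gp gs : V → V → ℝ → ℝ} {c1 c4 : ℝ → ℝ}
    (hl : Tu X t T D (fun _ _ => 0) n1 gp gs c1 c4 p p' n n')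
    (dn1 : ∀ e ∈ X, ∀ r ∈ Icc 0 t, HasDerivAt (n1 e) (n1' e r) r)
    (D0 : ∀ i, ∀ r ∈ Icc 0 t, 0 ≤ D i r) (n10 : ∀ i, ∀ r ∈ Icc 0 t, 0 ≤ n1 i r)
    (c10 : ∀ r ∈ Icc 0 t, 0 ≤ c1 r) (c40 : ∀ r ∈ Icc 0 t, 0 ≤ c4 r)
    {lam As Ap be be' xx : ℝ → ℝ}
    (As0 : ∀ r ∈ Icc 0 t, 0 ≤ As r) (Ap0 : ∀ r ∈ Icc 0 t, 0 ≤ Ap r)
    (hT : ∀ r ∈ Icc 0 t, ∀ b ∈ X, ∑ e ∈ X, T r e b ≤ lam r)
    (hs : ∀ r ∈ Icc 0 t, ∀ a : V → ℝ, (∀ x ∈ X, 0 ≤ a x) →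
      ∑ e ∈ X, Qo X (T r) (fun x => gs e x r) a ≤ As r * ∑ x ∈ X, a x)
    (hp : ∀ r ∈ Icc 0 t, ∀ a : V → ℝ, (∀ x ∈ X, 0 ≤ a x) →
      ∑ e ∈ X, Qo X (T r) (fun x => gp e x r) a ≤ Ap r * ∑ x ∈ X, a x)
    (dbe : ∀ r ∈ Icc 0 t, HasDerivAt be (be' r) r) (be0 : ∀ r ∈ Icc 0 t, 0 ≤ be r)
    (hW : ∀ r ∈ Icc 0 t, -∑ e ∈ X, n1' e r ≤ lam r * be r)
    (hD : ∀ r ∈ Icc 0 t, ∑ e ∈ X, D e r ≤ be r + xx r)
    {gV gV' gW gW' gw gw' g1 g1' α β : ℝ → ℝ}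
    (dV : ∀ r ∈ Icc 0 t, HasDerivAt gV (gV' r) r) (dW : ∀ r ∈ Icc 0 t, HasDerivAt gW (gW' r) r)
    (dw : ∀ r ∈ Icc 0 t, HasDerivAt gw (gw' r) r) (d1 : ∀ r ∈ Icc 0 t, HasDerivAt g1 (g1' r) r)
    (gV0 : ∀ r ∈ Icc 0 t, 0 ≤ gV r) (gW0 : ∀ r ∈ Icc 0 t, 0 ≤ gW r)
    (α0 : ∀ r ∈ Icc 0 t, 0 ≤ α r)
    (oV : ∀ r ∈ Icc 0 t, Ap r * c4 r * gV r + (lam r * c1 r + As r * c4 r) * (1 + gW r)
      + c4 r * α r ≤ gV' r)
    (oW : ∀ r ∈ Icc 0 t, (lam r + As r) * gV r + Ap r * (1 + gW r) + β r ≤ gW' r)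
    (ow : ∀ r ∈ Icc 0 t, Ap r * gV r + As r * (1 + gW r) + lam r * gW r + α r ≤ gw' r)
    (o1 : ∀ r ∈ Icc 0 t, -be' r * gw r + xx r * (Ap r * gV r + As r * (1 + gW r) + α r)
      ≤ g1' r) :
    ∃ φ : ℝ → ℝ, (∀ r ∈ Icc 0 t, HasDerivAt (fun r => gV r * ∑ e ∈ X, p e r
        + (1 + gW r) * ∑ e ∈ X, n e r + gW r * ∑ e ∈ X, n1 e r + gw r * be r + g1 r) (φ r) r) ∧
      ∀ r ∈ Icc 0 t, α r * ∑ e ∈ X, (D e r + c4 r * p e r) + β r * ∑ e ∈ X, (n1 e r + n e r)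
        ≤ φ r := by
  refine ⟨fun r => gV' r * ∑ e ∈ X, p e r + gV r * ∑ e ∈ X, p' e r
      + (gW' r * ∑ e ∈ X, n e r + (1 + gW r) * ∑ e ∈ X, n' e r)
      + (gW' r * ∑ e ∈ X, n1 e r + gW r * ∑ e ∈ X, n1' e r)
      + (gw' r * be r + gw r * be' r) + g1' r, fun r hr => ?_, fun r hr => ?_⟩
  · have h1 := (dV r hr).mul (HasDerivAt.fun_sum fun e he => hl.dp e he r hr)
    have h2 := ((dW r hr).const_add 1).mul (HasDerivAt.fun_sum fun e he => hl.dn e he r hr)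
    have h3 := (dW r hr).mul (HasDerivAt.fun_sum fun e he => dn1 e he r hr)
    have h4 := (dw r hr).mul (dbe r hr)
    exact (((h1.add h2).add h3).add h4).add (d1 r hr)
  · have a0 : ∀ x ∈ X, 0 ≤ n1 x r + n x r := fun x _ => add_nonneg (n10 x r hr) (hl.n0 x r hr)
    have b0 : ∀ x ∈ X, 0 ≤ D x r + c4 r * p x r := fun x _ =>
      add_nonneg (D0 x r hr) (mul_nonneg (c40 r hr) (hl.p0 x r hr))
    have d0 : ∀ x ∈ X, 0 ≤ (0 : ℝ) + c1 r * p x r := fun x _ =>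
      add_nonneg le_rfl (mul_nonneg (c10 r hr) (hl.p0 x r hr))
    have sN : ∑ b ∈ X, (n1 b r + n b r) = ∑ b ∈ X, n1 b r + ∑ b ∈ X, n b r :=
      Finset.sum_add_distrib
    have sD : ∑ x ∈ X, (D x r + c4 r * p x r) = ∑ x ∈ X, D x r + c4 r * ∑ x ∈ X, p x r := by
      rw [Finset.sum_add_distrib, ← Finset.mul_sum]
    have e3 := hs r hr _ a0
    have e4 := hp r hr _ b0
    have e3' := hp r hr _ a0
    have e4' := hs r hr _ b0
    have hV : -∑ e ∈ X, p' e r ≤ (lam r + As r) * (∑ e ∈ X, n1 e r + ∑ e ∈ X, n e r)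
        + Ap r * (∑ e ∈ X, D e r + c4 r * ∑ e ∈ X, p e r) := by
      have e1 : -∑ e ∈ X, p' e r ≤ ∑ e ∈ X, ∑ b ∈ X, T r e b * (n1 b r + n b r)
          + ∑ e ∈ X, Qo X (T r) (fun x => gs e x r) (fun x => n1 x r + n x r)
          + ∑ e ∈ X, Qo X (T r) (fun x => gp e x r) (fun x => D x r + c4 r * p x r) := by
        rw [← Finset.sum_neg_distrib, ← Finset.sum_add_distrib, ← Finset.sum_add_distrib]
        exact Finset.sum_le_sum fun e he => hl.op e he r hr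
      have e2 : ∑ e ∈ X, ∑ b ∈ X, T r e b * (n1 b r + n b r)
          ≤ lam r * ∑ b ∈ X, (n1 b r + n b r) := by
        rw [Finset.sum_comm, Finset.mul_sum]
        refine Finset.sum_le_sum fun b hb => ?_
        rw [← Finset.sum_mul]
        exact mul_le_mul_of_nonneg_right (hT r hr b hb) (a0 b hb)
      rw [← sN, ← sD]
      linarith
    have hN : -∑ e ∈ X, n' e r ≤ lam r * (c1 r * ∑ e ∈ X, p e r)
        + Ap r * (∑ e ∈ X, n1 e r + ∑ e ∈ X, n e r)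
        + As r * (∑ e ∈ X, D e r + c4 r * ∑ e ∈ X, p e r) := by
      have e1 : -∑ e ∈ X, n' e r ≤ ∑ e ∈ X, ∑ b ∈ X, T r e b * ((0 : ℝ) + c1 r * p b r)
          + ∑ e ∈ X, Qo X (T r) (fun x => gp e x r) (fun x => n1 x r + n x r)
          + ∑ e ∈ X, Qo X (T r) (fun x => gs e x r) (fun x => D x r + c4 r * p x r) := by
        rw [← Finset.sum_neg_distrib, ← Finset.sum_add_distrib, ← Finset.sum_add_distrib]
        exact Finset.sum_le_sum fun e he => hl.on e he r hr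
      have e2 : ∑ e ∈ X, ∑ b ∈ X, T r e b * ((0 : ℝ) + c1 r * p b r)
          ≤ lam r * ∑ b ∈ X, ((0 : ℝ) + c1 r * p b r) := by
        rw [Finset.sum_comm, Finset.mul_sum]
        refine Finset.sum_le_sum fun b hb => ?_
        rw [← Finset.sum_mul]
        exact mul_le_mul_of_nonneg_right (hT r hr b hb) (d0 b hb)
      have e5 : ∑ b ∈ X, ((0 : ℝ) + c1 r * p b r) = c1 r * ∑ e ∈ X, p e r := by
        rw [Finset.mul_sum]
        exact Finset.sum_congr rfl fun b _ => zero_add _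
      rw [e5] at e2
      rw [← sN, ← sD]
      linarith
    have V0 : 0 ≤ ∑ e ∈ X, p e r := Finset.sum_nonneg fun e _ => hl.p0 e r hr
    have N0 : 0 ≤ ∑ e ∈ X, n e r := Finset.sum_nonneg fun e _ => hl.n0 e r hr
    have W0 : 0 ≤ ∑ e ∈ X, n1 e r := Finset.sum_nonneg fun e _ => n10 e r hr
    have key := adj_scalar V0 N0 W0 (be0 r hr) (α0 r hr) (Ap0 r hr) (As0 r hr) (gV0 r hr)
      (gW0 r hr) hV hN (hW r hr) (hD r hr) (oV r hr) (oW r hr) (ow r hr) (o1 r hr)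
    rw [sN, sD]
    exact key

end Pool.Agent.RX.RCM
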