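import Pool.Agent.RX.RCM.Row

/-! Comparison of tail systems (MP_73ccd0_lc, route M). -/

namespace Pool.Agent.RX.RCM

open Set Finset Pool.Agent.RX.RCRSHalf Pool.Agent.RX.RCG

set_option linter.unusedSectionVars false

variable {V : Type*} [Fintype V] [DecidableEq V]

/-- monotonicity of the pair operator in all arguments -/
theorem Qo_mono5 {X X' : Finset V} (hX : X ⊆ X') {T T' : V → V → ℝ} {g g' a a' : V → ℝ}
    (T0 : ∀ x ∈ X, ∀ y ∈ X, 0 ≤ T x y) (T0' : ∀ x y, 0 ≤ T' x y)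
    (TT : ∀ x ∈ X, ∀ y ∈ X, T x y ≤ T' x y) (g0 : ∀ x ∈ X, 0 ≤ g x) (g0' : ∀ x ∈ X', 0 ≤ g' x)
    (gg : ∀ x ∈ X, g x ≤ g' x) (a0 : ∀ x ∈ X, 0 ≤ a x) (a0' : ∀ x ∈ X', 0 ≤ a' x)
    (aa : ∀ x ∈ X, a x ≤ a' x) : Qo X T g a ≤ Qo X' T' g' a' := by
  unfold Qo
  have nn : ∀ x ∈ X', ∀ y ∈ X', 0 ≤ T' x y * (g' x * (a' x + a' y)) := fun x hx y hy =>
    mul_nonneg (T0' x y) (mul_nonneg (g0' x hx) (add_nonneg (a0' x hx) (a0' y hy)))
  refine (Finset.sum_le_sum fun x hx => (Finset.sum_le_sum fun y hy => ?_).trans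
    (Finset.sum_le_sum_of_subset_of_nonneg hX fun y hy _ => nn x (hX hx) y hy)).trans
    (Finset.sum_le_sum_of_subset_of_nonneg hX fun x hx _ => Finset.sum_nonneg fun y hy =>
      nn x hx y hy)
  exact mul_le_mul (TT x hx y hy) (mul_le_mul (gg x hx) (add_le_add (aa x hx) (aa y hy))
    (add_nonneg (a0 x hx) (a0 y hy)) (g0' x (hX hx))) (mul_nonneg (g0 x hx)
    (add_nonneg (a0 x hx) (a0 y hy))) (T0' x y)

/-- **comparison of two tail systems** -/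
theorem Tl.cmp {X X' : Finset V} (hX : X ⊆ X') {t : ℝ} {T T' : ℝ → V → V → ℝ}
    {D D' n1 n1' : V → ℝ → ℝ} {gp gs gp' gs' : V → V → ℝ → ℝ} {c1 c4 c1' c4' p n p' n' : V → ℝ → ℝ}
    (h : Tl X t T D n1 gp gs c1 c4 p n) (h' : Tl X' t T' D' n1' gp' gs' c1' c4' p' n')
    (cT : ∀ i j, ContinuousOn (fun r => T r i j) (Icc 0 t))
    (cgp : ∀ i j, ContinuousOn (gp i j) (Icc 0 t)) (cgs : ∀ i j, ContinuousOn (gs i j) (Icc 0 t))
    (cc1 : ∀ i, ContinuousOn (c1 i) (Icc 0 t)) (cc4 : ∀ i, ContinuousOn (c4 i) (Icc 0 t))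
    (T0 : ∀ r ∈ Icc 0 t, ∀ i j, 0 ≤ T r i j) (T0' : ∀ r ∈ Icc 0 t, ∀ i j, 0 ≤ T' r i j)
    (TT : ∀ r ∈ Icc 0 t, ∀ i ∈ X, ∀ j ∈ X, T r i j ≤ T' r i j)
    (D0 : ∀ i ∈ X', ∀ r ∈ Icc 0 t, 0 ≤ D' i r) (DD : ∀ i ∈ X, ∀ r ∈ Icc 0 t, D i r ≤ D' i r)
    (D00 : ∀ i ∈ X, ∀ r ∈ Icc 0 t, 0 ≤ D i r)
    (n10 : ∀ i ∈ X', ∀ r ∈ Icc 0 t, 0 ≤ n1' i r)
    (n100 : ∀ i ∈ X, ∀ r ∈ Icc 0 t, 0 ≤ n1 i r)
    (nn : ∀ i ∈ X, ∀ r ∈ Icc 0 t, n1 i r ≤ n1' i r)
    (gp0 : ∀ i j, ∀ r ∈ Icc 0 t, 0 ≤ gp i j r) (gs0 : ∀ i j, ∀ r ∈ Icc 0 t, 0 ≤ gs i j r)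
    (gp0' : ∀ i j, ∀ r ∈ Icc 0 t, 0 ≤ gp' i j r) (gs0' : ∀ i j, ∀ r ∈ Icc 0 t, 0 ≤ gs' i j r)
    (gpp : ∀ i ∈ X, ∀ j ∈ X, ∀ r ∈ Icc 0 t, gp i j r ≤ gp' i j r)
    (gss : ∀ i ∈ X, ∀ j ∈ X, ∀ r ∈ Icc 0 t, gs i j r ≤ gs' i j r)
    (c10 : ∀ i, ∀ r ∈ Icc 0 t, 0 ≤ c1 i r) (c40 : ∀ i, ∀ r ∈ Icc 0 t, 0 ≤ c4 i r)
    (c10' : ∀ i, ∀ r ∈ Icc 0 t, 0 ≤ c1' i r) (c40' : ∀ i, ∀ r ∈ Icc 0 t, 0 ≤ c4' i r)
    (cc1' : ∀ i ∈ X, ∀ r ∈ Icc 0 t, c1 i r ≤ c1' i r)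
    (cc4' : ∀ i ∈ X, ∀ r ∈ Icc 0 t, c4 i r ≤ c4' i r)
    (ep : ∀ e ∈ X, p e t ≤ p' e t) (en : ∀ e ∈ X, n e t ≤ n' e t) :
    ∀ e ∈ X, ∀ r ∈ Icc 0 t, p e r ≤ p' e r ∧ n e r ≤ n' e r := by
  -- a bound of the coefficients
  have cT1 : ∀ z, ContinuousOn (fun r => ∑ y ∈ X, T r z y) (Icc 0 t) := fun z =>
    continuousOn_finsetSum _ fun y _ => cT z y
  have cq : ∀ (g : V → V → ℝ → ℝ), (∀ i j, ContinuousOn (g i j) (Icc 0 t)) → ∀ e z,
      ContinuousOn (fun r => qc X (T r) (fun x => g e x r) z) (Icc 0 t) := fun g hg e z => by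
    unfold qc
    exact ((hg e z).mul (cT1 z)).add (continuousOn_finsetSum _ fun x _ => (cT x z).mul (hg e x))
  obtain ⟨C1, C10, hC1⟩ := exists_bound (κ := V × V) (t := t)
    (f := fun k r => c4 k.2 r * qc X (T r) (fun x => gp k.1 x r) k.2)
    fun k => (cc4 k.2).mul (cq gp cgp k.1 k.2)
  obtain ⟨C2, C20, hC2⟩ := exists_bound (κ := V × V) (t := t)
    (f := fun k r => T r k.1 k.2 + qc X (T r) (fun x => gs k.1 x r) k.2)
    fun k => (cT k.1 k.2).add (cq gs cgs k.1 k.2)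
  obtain ⟨C3, C30, hC3⟩ := exists_bound (κ := V × V) (t := t)
    (f := fun k r => c1 k.2 r * T r k.1 k.2 + c4 k.2 r * qc X (T r) (fun x => gs k.1 x r) k.2)
    fun k => ((cc1 k.2).mul (cT k.1 k.2)).add ((cc4 k.2).mul (cq gs cgs k.1 k.2))
  obtain ⟨C4, C40, hC4⟩ := exists_bound (κ := V × V) (t := t)
    (f := fun k r => qc X (T r) (fun x => gp k.1 x r) k.2) fun k => cq gp cgp k.1 k.2
  have qn : ∀ r ∈ Icc 0 t, ∀ (g : V → V → ℝ → ℝ), (∀ i j, 0 ≤ g i j r) → ∀ e z,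
      0 ≤ qc X (T r) (fun x => g e x r) z := fun r hr g hg e z =>
    qc_nonneg (T0 r hr) (fun x => hg e x) z
  -- the equations
  have e1 : ∀ e r, ∑ b ∈ X, T r e b * (n1 b r + n b r)
      + Qo X (T r) (fun x => gs e x r) (fun x => n1 x r + n x r)
      + Qo X (T r) (fun x => gp e x r) (fun x => D x r + c4 x r * p x r)
      = ∑ z ∈ X, (c4 z r * qc X (T r) (fun x => gp e x r) z * p z r
          + (T r e z + qc X (T r) (fun x => gs e x r) z) * n z r)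
        + ∑ z ∈ X, (T r e z * n1 z r + qc X (T r) (fun x => gs e x r) z * n1 z r
          + qc X (T r) (fun x => gp e x r) z * D z r) := by
    intro e r
    rw [Qo_eq, Qo_eq, ← Finset.sum_add_distrib, ← Finset.sum_add_distrib,
      ← Finset.sum_add_distrib]
    exact Finset.sum_congr rfl fun z _ => by ring
  have e2 : ∀ e r, ∑ b ∈ X, T r e b * (c1 b r * p b r)
      + Qo X (T r) (fun x => gp e x r) (fun x => n1 x r + n x r)
      + Qo X (T r) (fun x => gs e x r) (fun x => D x r + c4 x r * p x r)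
      = ∑ z ∈ X, ((c1 z r * T r e z + c4 z r * qc X (T r) (fun x => gs e x r) z) * p z r
          + qc X (T r) (fun x => gp e x r) z * n z r)
        + ∑ z ∈ X, (qc X (T r) (fun x => gp e x r) z * n1 z r
          + qc X (T r) (fun x => gs e x r) z * D z r) := by
    intro e r
    rw [Qo_eq, Qo_eq, ← Finset.sum_add_distrib, ← Finset.sum_add_distrib,
      ← Finset.sum_add_distrib]
    exact Finset.sum_congr rfl fun z _ => by ring
  have e1' : ∀ e r, ∑ b ∈ X, T r e b * (n1 b r + n' b r)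
      + Qo X (T r) (fun x => gs e x r) (fun x => n1 x r + n' x r)
      + Qo X (T r) (fun x => gp e x r) (fun x => D x r + c4 x r * p' x r)
      = ∑ z ∈ X, (c4 z r * qc X (T r) (fun x => gp e x r) z * p' z r
          + (T r e z + qc X (T r) (fun x => gs e x r) z) * n' z r)
        + ∑ z ∈ X, (T r e z * n1 z r + qc X (T r) (fun x => gs e x r) z * n1 z r
          + qc X (T r) (fun x => gp e x r) z * D z r) := by
    intro e r
    rw [Qo_eq, Qo_eq, ← Finset.sum_add_distrib, ← Finset.sum_add_distrib,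
      ← Finset.sum_add_distrib]
    exact Finset.sum_congr rfl fun z _ => by ring
  have e2' : ∀ e r, ∑ b ∈ X, T r e b * (c1 b r * p' b r)
      + Qo X (T r) (fun x => gp e x r) (fun x => n1 x r + n' x r)
      + Qo X (T r) (fun x => gs e x r) (fun x => D x r + c4 x r * p' x r)
      = ∑ z ∈ X, ((c1 z r * T r e z + c4 z r * qc X (T r) (fun x => gs e x r) z) * p' z r
          + qc X (T r) (fun x => gp e x r) z * n' z r)
        + ∑ z ∈ X, (qc X (T r) (fun x => gp e x r) z * n1 z r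
          + qc X (T r) (fun x => gs e x r) z * D z r) := by
    intro e r
    rw [Qo_eq, Qo_eq, ← Finset.sum_add_distrib, ← Finset.sum_add_distrib,
      ← Finset.sum_add_distrib]
    exact Finset.sum_congr rfl fun z _ => by ring
  -- monotonicity of the pair operators
  have qm : ∀ r ∈ Icc 0 t, ∀ e ∈ X, ∀ (g g' : V → V → ℝ → ℝ), (∀ i j, 0 ≤ g i j r) →
      (∀ i j, 0 ≤ g' i j r) → (∀ j ∈ X, g e j r ≤ g' e j r) → ∀ a a' : V → ℝ,
      (∀ x ∈ X, 0 ≤ a x) → (∀ x ∈ X', 0 ≤ a' x) → (∀ x ∈ X, a x ≤ a' x) →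
      Qo X (T r) (fun x => g e x r) a ≤ Qo X' (T' r) (fun x => g' e x r) a' :=
    fun r hr e _ g g' g0 g0' gg a a' a0 a0' aa => Qo_mono5 hX (fun x _ y _ => T0 r hr x y)
      (T0' r hr) (TT r hr) (fun x _ => g0 e x) (fun x _ => g0' e x) gg a0 a0' aa
  have lm : ∀ r ∈ Icc 0 t, ∀ e ∈ X, ∀ a a' : V → ℝ, (∀ x ∈ X, 0 ≤ a x) → (∀ x ∈ X', 0 ≤ a' x) →
      (∀ x ∈ X, a x ≤ a' x) → ∑ b ∈ X, T r e b * a b ≤ ∑ b ∈ X', T' r e b * a' b :=
    fun r hr e he a a' a0 a0' aa => (Finset.sum_le_sum fun b hb =>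
      mul_le_mul (TT r hr e he b hb) (aa b hb) (a0 b hb) (T0' r hr e b)).trans
      (Finset.sum_le_sum_of_subset_of_nonneg hX fun b hb _ => mul_nonneg (T0' r hr e b) (a0' b hb))
  refine two_le (U := X) (t := t)
    (a11 := fun r e z => c4 z r * qc X (T r) (fun x => gp e x r) z)
    (a12 := fun r e z => T r e z + qc X (T r) (fun x => gs e x r) z)
    (a21 := fun r e z => c1 z r * T r e z + c4 z r * qc X (T r) (fun x => gs e x r) z)
    (a22 := fun r e z => qc X (T r) (fun x => gp e x r) z)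
    (s1 := fun r e => ∑ z ∈ X, (T r e z * n1 z r + qc X (T r) (fun x => gs e x r) z * n1 z r
          + qc X (T r) (fun x => gp e x r) z * D z r))
    (s2 := fun r e => ∑ z ∈ X, (qc X (T r) (fun x => gp e x r) z * n1 z r
          + qc X (T r) (fun x => gs e x r) z * D z r))
    (C := C1 + C2 + C3 + C4) (fun r hr e _ z _ => ?_) (fun r hr e _ z _ => ?_)
    h.dp h.dn (fun e he => h'.dp e (hX he)) (fun e he => h'.dn e (hX he))
    (fun e _ => h'.p0 e) (fun e _ => h'.n0 e)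
    (fun e he r hr => ?_) (fun e he r hr => ?_) (fun e he r hr => ?_) (fun e he r hr => ?_) ep en
  · have q1 := qn r hr gp (fun i j => gp0 i j r hr) e z
    have q2 := qn r hr gs (fun i j => gs0 i j r hr) e z
    exact ⟨⟨mul_nonneg (c40 z r hr) q1, add_nonneg (T0 r hr e z) q2⟩,
      add_nonneg (mul_nonneg (c10 z r hr) (T0 r hr e z)) (mul_nonneg (c40 z r hr) q2), q1⟩
  · have h1 := hC1 (e, z) r hr
    have h2 := hC2 (e, z) r hr
    have h3 := hC3 (e, z) r hr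
    have h4 := hC4 (e, z) r hr
    dsimp only at h1 h2 h3 h4 ⊢
    exact ⟨⟨by linarith, by linarith⟩, by linarith, by linarith⟩
  · rw [neg_neg]
    exact le_of_eq (e1 e r)
  · rw [neg_neg]
    exact le_of_eq (e2 e r)
  · rw [neg_neg]
    rw [← e1' e r]
    have b0 : ∀ x ∈ X, 0 ≤ n1 x r + n' x r := fun x hx =>
      add_nonneg (n100 x hx r hr) (h'.n0 x r hr)
    have b0' : ∀ x ∈ X', 0 ≤ n1' x r + n' x r := fun x hx =>
      add_nonneg (n10 x hx r hr) (h'.n0 x r hr)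
    have bb : ∀ x ∈ X, n1 x r + n' x r ≤ n1' x r + n' x r := fun x hx => by
      have := nn x hx r hr; linarith
    have d0 : ∀ x ∈ X, 0 ≤ D x r + c4 x r * p' x r := fun x hx =>
      add_nonneg (D00 x hx r hr) (mul_nonneg (c40 x r hr) (h'.p0 x r hr))
    have d0' : ∀ x ∈ X', 0 ≤ D' x r + c4' x r * p' x r := fun x hx =>
      add_nonneg (D0 x hx r hr) (mul_nonneg (c40' x r hr) (h'.p0 x r hr))
    have dd : ∀ x ∈ X, D x r + c4 x r * p' x r ≤ D' x r + c4' x r * p' x r := fun x hx =>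
      add_le_add (DD x hx r hr) (mul_le_mul_of_nonneg_right (cc4' x hx r hr) (h'.p0 x r hr))
    exact add_le_add (add_le_add (lm r hr e he _ _ b0 b0' bb)
      (qm r hr e he gs gs' (fun i j => gs0 i j r hr) (fun i j => gs0' i j r hr)
        (fun j hj => gss e he j hj r hr) _ _ b0 b0' bb))
      (qm r hr e he gp gp' (fun i j => gp0 i j r hr) (fun i j => gp0' i j r hr)
        (fun j hj => gpp e he j hj r hr) _ _ d0 d0' dd)
  · rw [neg_neg]
    rw [← e2' e r]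
    have b0 : ∀ x ∈ X, 0 ≤ n1 x r + n' x r := fun x hx =>
      add_nonneg (n100 x hx r hr) (h'.n0 x r hr)
    have b0' : ∀ x ∈ X', 0 ≤ n1' x r + n' x r := fun x hx =>
      add_nonneg (n10 x hx r hr) (h'.n0 x r hr)
    have bb : ∀ x ∈ X, n1 x r + n' x r ≤ n1' x r + n' x r := fun x hx => by
      have := nn x hx r hr; linarith
    have d0 : ∀ x ∈ X, 0 ≤ D x r + c4 x r * p' x r := fun x hx =>
      add_nonneg (D00 x hx r hr) (mul_nonneg (c40 x r hr) (h'.p0 x r hr))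
    have d0' : ∀ x ∈ X', 0 ≤ D' x r + c4' x r * p' x r := fun x hx =>
      add_nonneg (D0 x hx r hr) (mul_nonneg (c40' x r hr) (h'.p0 x r hr))
    have dd : ∀ x ∈ X, D x r + c4 x r * p' x r ≤ D' x r + c4' x r * p' x r := fun x hx =>
      add_le_add (DD x hx r hr) (mul_le_mul_of_nonneg_right (cc4' x hx r hr) (h'.p0 x r hr))
    exact add_le_add (add_le_add (lm r hr e he _ _
      (fun x hx => mul_nonneg (c10 x r hr) (h'.p0 x r hr))
      (fun x hx => mul_nonneg (c10' x r hr) (h'.p0 x r hr))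
      (fun x hx => mul_le_mul_of_nonneg_right (cc1' x hx r hr) (h'.p0 x r hr)))
      (qm r hr e he gp gp' (fun i j => gp0 i j r hr) (fun i j => gp0' i j r hr)
        (fun j hj => gpp e he j hj r hr) _ _ b0 b0' bb))
      (qm r hr e he gs gs' (fun i j => gs0 i j r hr) (fun i j => gs0' i j r hr)
        (fun j hj => gss e he j hj r hr) _ _ d0 d0' dd)

end Pool.Agent.RX.RCM
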