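import Pool.Agent.RX.RCM.Row

/-! Sums over the positions of the tails of one target (MP_73ccd0_lc, route M). -/

namespace Pool.Agent.RX.RCM

open Set Finset Pool.Agent.RX.RCRSHalf Pool.Agent.RX.RCG

set_option linter.unusedSectionVars false

variable {V : Type*} [Fintype V] [DecidableEq V]

/-- comparison of two functions from the right end -/
theorem tback_le {t : ℝ} {f f' g g' : ℝ → ℝ} (df : ∀ r ∈ Icc 0 t, HasDerivAt f (f' r) r)
    (dg : ∀ r ∈ Icc 0 t, HasDerivAt g (g' r) r) (h : ∀ r ∈ Icc 0 t, -f' r ≤ -g' r)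
    (e : f t ≤ g t) : ∀ r ∈ Icc 0 t, f r ≤ g r := by
  intro r hr
  have cf : ContinuousOn (fun r => f r - g r) (Icc r t) := fun z hz =>
    ((df z ⟨hr.1.trans hz.1, hz.2⟩).continuousAt.sub
      (dg z ⟨hr.1.trans hz.1, hz.2⟩).continuousAt).continuousWithinAt
  have hm : MonotoneOn (fun r => f r - g r) (Icc r t) := by
    refine monotoneOn_of_deriv_nonneg (convex_Icc _ _) cf (fun z hz => ?_) fun z hz => ?_
    · rw [interior_Icc] at hz
      have hz' : z ∈ Icc 0 t := ⟨hr.1.trans hz.1.le, hz.2.le⟩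
      exact ((df z hz').sub (dg z hz')).differentiableAt.differentiableWithinAt
    · rw [interior_Icc] at hz
      have hz' : z ∈ Icc 0 t := ⟨hr.1.trans hz.1.le, hz.2.le⟩
      have h1 : HasDerivAt (fun r => f r - g r) (f' z - g' z) z := (df z hz').sub (dg z hz')
      rw [h1.deriv]
      linarith [h z hz']
  have := hm ⟨le_rfl, hr.2⟩ ⟨hr.2, le_rfl⟩ hr.2
  simp only at this
  linarith

/-- **sums of the tails of one target over the positions** -/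
theorem tl_pos {X : Finset V} {t : ℝ} {T : ℝ → V → V → ℝ}
    {D E n1 p p' n n' : V → ℝ → ℝ} {gp gs : V → V → ℝ → ℝ} {c1 c4 : ℝ → ℝ}
    (hl : Tu X t T D E n1 gp gs c1 c4 p p' n n')
    (D0 : ∀ i, ∀ r ∈ Icc 0 t, 0 ≤ D i r) (E0 : ∀ i, ∀ r ∈ Icc 0 t, 0 ≤ E i r)
    (n10 : ∀ i, ∀ r ∈ Icc 0 t, 0 ≤ n1 i r)
    (c10 : ∀ r ∈ Icc 0 t, 0 ≤ c1 r) (c40 : ∀ r ∈ Icc 0 t, 0 ≤ c4 r)
    {lam As Ap W Dl Ee Vv Vv' Uu Uu' : ℝ → ℝ}
    (lam0 : ∀ r ∈ Icc 0 t, 0 ≤ lam r) (As0 : ∀ r ∈ Icc 0 t, 0 ≤ As r)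
    (Ap0 : ∀ r ∈ Icc 0 t, 0 ≤ Ap r)
    (cl : ContinuousOn lam (Icc 0 t)) (cAs : ContinuousOn As (Icc 0 t))
    (cAp : ContinuousOn Ap (Icc 0 t))
    (cc1 : ContinuousOn c1 (Icc 0 t)) (cc4 : ContinuousOn c4 (Icc 0 t))
    (hT : ∀ r ∈ Icc 0 t, ∀ b ∈ X, ∑ e ∈ X, T r e b ≤ lam r)
    (hs : ∀ r ∈ Icc 0 t, ∀ a : V → ℝ, (∀ x ∈ X, 0 ≤ a x) →
      ∑ e ∈ X, Qo X (T r) (fun x => gs e x r) a ≤ As r * ∑ x ∈ X, a x)
    (hp : ∀ r ∈ Icc 0 t, ∀ a : V → ℝ, (∀ x ∈ X, 0 ≤ a x) →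
      ∑ e ∈ X, Qo X (T r) (fun x => gp e x r) a ≤ Ap r * ∑ x ∈ X, a x)
    (hW : ∀ r ∈ Icc 0 t, ∑ e ∈ X, n1 e r ≤ W r) (hD : ∀ r ∈ Icc 0 t, ∑ e ∈ X, D e r ≤ Dl r)
    (hE : ∀ r ∈ Icc 0 t, ∑ e ∈ X, E e r ≤ Ee r)
    (hsc : Sc t lam As Ap W Dl Ee c1 c4 Vv Vv' Uu Uu')
    (ep : ∑ e ∈ X, p e t ≤ Vv t) (en : ∑ e ∈ X, n e t ≤ Uu t) :
    ∀ r ∈ Icc 0 t, ∑ e ∈ X, p e r ≤ Vv r ∧ ∑ e ∈ X, n e r ≤ Uu r := by
  have cM : ContinuousOn (fun r => Ap r * c4 r + (lam r + As r) + (lam r * c1 r + As r * c4 r)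
      + Ap r) (Icc 0 t) :=
    (((cAp.mul cc4).add (cl.add cAs)).add ((cl.mul cc1).add (cAs.mul cc4))).add cAp
  obtain ⟨C, hC⟩ := isCompact_Icc.exists_bound_of_continuousOn cM
  have hC' : ∀ r ∈ Icc 0 t, Ap r * c4 r + (lam r + As r) + (lam r * c1 r + As r * c4 r)
      + Ap r ≤ C := fun r hr => (le_abs_self _).trans (hC r hr)
  have key := two_le (V := Unit) (U := {()}) (t := t)
    (a11 := fun r _ _ => Ap r * c4 r) (a12 := fun r _ _ => lam r + As r)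
    (a21 := fun r _ _ => lam r * c1 r + As r * c4 r) (a22 := fun r _ _ => Ap r)
    (s1 := fun r _ => (lam r + As r) * W r + Ap r * Dl r)
    (s2 := fun r _ => lam r * Ee r + Ap r * W r + As r * Dl r) (C := C)
    (p := fun _ r => ∑ e ∈ X, p e r) (p' := fun _ r => ∑ e ∈ X, p' e r)
    (n := fun _ r => ∑ e ∈ X, n e r) (n' := fun _ r => ∑ e ∈ X, n' e r)
    (P := fun _ => Vv) (P' := fun _ => Vv') (N := fun _ => Uu) (N' := fun _ => Uu')
    (fun r hr _ _ _ _ => ⟨⟨mul_nonneg (Ap0 r hr) (c40 r hr), add_nonneg (lam0 r hr) (As0 r hr)⟩,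
      add_nonneg (mul_nonneg (lam0 r hr) (c10 r hr)) (mul_nonneg (As0 r hr) (c40 r hr)),
      Ap0 r hr⟩)
    (fun r hr _ _ _ _ => by
      have h1 := hC' r hr
      have h2 := mul_nonneg (Ap0 r hr) (c40 r hr)
      have h3 := add_nonneg (lam0 r hr) (As0 r hr)
      have h4 := add_nonneg (mul_nonneg (lam0 r hr) (c10 r hr)) (mul_nonneg (As0 r hr) (c40 r hr))
      have h5 := Ap0 r hr
      refine ⟨⟨?_, ?_⟩, ?_, ?_⟩ <;> linarith)
    (fun _ _ r hr => HasDerivAt.fun_sum fun e he => hl.dp e he r hr)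
    (fun _ _ r hr => HasDerivAt.fun_sum fun e he => hl.dn e he r hr)
    (fun _ _ r hr => hsc.dV r hr) (fun _ _ r hr => hsc.dU r hr)
    (fun _ _ r hr => hsc.V0 r hr) (fun _ _ r hr => hsc.U0 r hr)
    (fun _ _ r hr => ?_) (fun _ _ r hr => ?_) (fun _ _ r hr => ?_) (fun _ _ r hr => ?_)
    (fun _ _ => ep) (fun _ _ => en)
  · exact key () (Finset.mem_singleton_self _)
  all_goals simp only [Finset.sum_singleton]
  · have a0 : ∀ x ∈ X, 0 ≤ n1 x r + n x r := fun x _ => add_nonneg (n10 x r hr) (hl.n0 x r hr)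
    have b0 : ∀ x ∈ X, 0 ≤ D x r + c4 r * p x r := fun x _ =>
      add_nonneg (D0 x r hr) (mul_nonneg (c40 r hr) (hl.p0 x r hr))
    have e1 : -∑ e ∈ X, p' e r ≤ ∑ e ∈ X, ∑ b ∈ X, T r e b * (n1 b r + n b r)
        + ∑ e ∈ X, Qo X (T r) (fun x => gs e x r) (fun x => n1 x r + n x r)
        + ∑ e ∈ X, Qo X (T r) (fun x => gp e x r) (fun x => D x r + c4 r * p x r) := by
      rw [← Finset.sum_neg_distrib, ← Finset.sum_add_distrib, ← Finset.sum_add_distrib]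
      exact Finset.sum_le_sum fun e he => hl.op e he r hr
    have e2 : ∑ e ∈ X, ∑ b ∈ X, T r e b * (n1 b r + n b r)
        ≤ lam r * ∑ b ∈ X, (n1 b r + n b r) := by
      rw [Finset.sum_comm, Finset.mul_sum]
      refine Finset.sum_le_sum fun b hb => ?_
      rw [← Finset.sum_mul]
      exact mul_le_mul_of_nonneg_right (hT r hr b hb) (a0 b hb)
    have e3 := hs r hr _ a0
    have e4 := hp r hr _ b0
    have s1 : ∑ b ∈ X, (n1 b r + n b r) ≤ W r + ∑ b ∈ X, n b r := by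
      rw [Finset.sum_add_distrib]; linarith [hW r hr]
    have s2 : ∑ x ∈ X, (D x r + c4 r * p x r) ≤ Dl r + c4 r * ∑ x ∈ X, p x r := by
      rw [Finset.sum_add_distrib, ← Finset.mul_sum]; linarith [hD r hr]
    have m1 := mul_le_mul_of_nonneg_left s1 (add_nonneg (lam0 r hr) (As0 r hr))
    have m2 := mul_le_mul_of_nonneg_left s2 (Ap0 r hr)
    nlinarith [e1, e2, e3, e4, m1, m2]
  · have a0 : ∀ x ∈ X, 0 ≤ n1 x r + n x r := fun x _ => add_nonneg (n10 x r hr) (hl.n0 x r hr)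
    have b0 : ∀ x ∈ X, 0 ≤ D x r + c4 r * p x r := fun x _ =>
      add_nonneg (D0 x r hr) (mul_nonneg (c40 r hr) (hl.p0 x r hr))
    have d0 : ∀ x ∈ X, 0 ≤ E x r + c1 r * p x r := fun x _ =>
      add_nonneg (E0 x r hr) (mul_nonneg (c10 r hr) (hl.p0 x r hr))
    have e1 : -∑ e ∈ X, n' e r ≤ ∑ e ∈ X, ∑ b ∈ X, T r e b * (E b r + c1 r * p b r)
        + ∑ e ∈ X, Qo X (T r) (fun x => gp e x r) (fun x => n1 x r + n x r)
        + ∑ e ∈ X, Qo X (T r) (fun x => gs e x r) (fun x => D x r + c4 r * p x r) := by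
      rw [← Finset.sum_neg_distrib, ← Finset.sum_add_distrib, ← Finset.sum_add_distrib]
      exact Finset.sum_le_sum fun e he => hl.on e he r hr
    have e2 : ∑ e ∈ X, ∑ b ∈ X, T r e b * (E b r + c1 r * p b r)
        ≤ lam r * ∑ b ∈ X, (E b r + c1 r * p b r) := by
      rw [Finset.sum_comm, Finset.mul_sum]
      refine Finset.sum_le_sum fun b hb => ?_
      rw [← Finset.sum_mul]
      exact mul_le_mul_of_nonneg_right (hT r hr b hb) (d0 b hb)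
    have e3 := hp r hr _ a0
    have e4 := hs r hr _ b0
    have s1 : ∑ b ∈ X, (n1 b r + n b r) ≤ W r + ∑ b ∈ X, n b r := by
      rw [Finset.sum_add_distrib]; linarith [hW r hr]
    have s2 : ∑ x ∈ X, (D x r + c4 r * p x r) ≤ Dl r + c4 r * ∑ x ∈ X, p x r := by
      rw [Finset.sum_add_distrib, ← Finset.mul_sum]; linarith [hD r hr]
    have s3 : ∑ x ∈ X, (E x r + c1 r * p x r) ≤ Ee r + c1 r * ∑ x ∈ X, p x r := by
      rw [Finset.sum_add_distrib, ← Finset.mul_sum]; linarith [hE r hr]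
    have m1 := mul_le_mul_of_nonneg_left s1 (Ap0 r hr)
    have m2 := mul_le_mul_of_nonneg_left s2 (As0 r hr)
    have m3 := mul_le_mul_of_nonneg_left s3 (lam0 r hr)
    nlinarith [e1, e2, e3, e4, m1, m2, m3]
  · have := hsc.oV r hr
    nlinarith [this]
  · have := hsc.oU r hr
    nlinarith [this]

end Pool.Agent.RX.RCM
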