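import Pool.Agent.RX.RCM.Row

/-! Weighted sums over the targets of the tails: general comparison functions
(MP_73ccd0_lc, route M). -/

namespace Pool.Agent.RX.RCM

open Set Finset Pool.Agent.RX.RCRSHalf Pool.Agent.RX.RCG

set_option linter.unusedSectionVars false

variable {V : Type*} [Fintype V] [DecidableEq V]

/-- **weighted target sums of the tails**, general comparison functions -/
theorem tail_sum_gen {U : Finset V} {t : ℝ} {T : ℝ → V → V → ℝ}
    {D E n1 p p' n n' : V → V → ℝ → ℝ} {gp gs : V → V → ℝ → ℝ} {c1 c4 : ℝ → ℝ}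
    (hl : ∀ c ∈ U, Tu (U.erase c) t T (D c) (E c) (n1 c) gp gs c1 c4 (p c) (p' c) (n c) (n' c))
    (cT : ∀ i j, ContinuousOn (fun r => T r i j) (Icc 0 t))
    (cgp : ∀ i j, ContinuousOn (gp i j) (Icc 0 t)) (cgs : ∀ i j, ContinuousOn (gs i j) (Icc 0 t))
    (cc1 : ContinuousOn c1 (Icc 0 t)) (cc4 : ContinuousOn c4 (Icc 0 t))
    (T0 : ∀ r ∈ Icc 0 t, ∀ i j, 0 ≤ T r i j) (D0 : ∀ c i, ∀ r ∈ Icc 0 t, 0 ≤ D c i r)
    (E0 : ∀ c i, ∀ r ∈ Icc 0 t, 0 ≤ E c i r) (n10 : ∀ c i, ∀ r ∈ Icc 0 t, 0 ≤ n1 c i r)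
    (gp0 : ∀ i j, ∀ r ∈ Icc 0 t, 0 ≤ gp i j r) (gs0 : ∀ i j, ∀ r ∈ Icc 0 t, 0 ≤ gs i j r)
    (c10 : ∀ r ∈ Icc 0 t, 0 ≤ c1 r) (c40 : ∀ r ∈ Icc 0 t, 0 ≤ c4 r)
    {f : V → ℝ} (f0 : ∀ c, 0 ≤ f c) {wa wd we P P' N N' : V → ℝ → ℝ}
    (dP : ∀ e ∈ U, ∀ r ∈ Icc 0 t, HasDerivAt (P e) (P' e r) r)
    (dN : ∀ e ∈ U, ∀ r ∈ Icc 0 t, HasDerivAt (N e) (N' e r) r)
    (P0 : ∀ e ∈ U, ∀ r ∈ Icc 0 t, 0 ≤ P e r) (N0 : ∀ e ∈ U, ∀ r ∈ Icc 0 t, 0 ≤ N e r)
    (oP : ∀ e ∈ U, ∀ r ∈ Icc 0 t, ∑ z ∈ U, T r e z * (wa z r + N z r)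
      + Qo U (T r) (fun x => gs e x r) (fun x => wa x r + N x r)
      + Qo U (T r) (fun x => gp e x r) (fun x => wd x r + c4 r * P x r) ≤ -P' e r)
    (oN : ∀ e ∈ U, ∀ r ∈ Icc 0 t, ∑ z ∈ U, T r e z * (we z r + c1 r * P z r)
      + Qo U (T r) (fun x => gp e x r) (fun x => wa x r + N x r)
      + Qo U (T r) (fun x => gs e x r) (fun x => wd x r + c4 r * P x r) ≤ -N' e r)
    (hW : ∀ e ∈ U, ∀ r ∈ Icc 0 t, ∑ c ∈ U.erase e, f c * n1 c e r ≤ wa e r)
    (hD : ∀ e ∈ U, ∀ r ∈ Icc 0 t, ∑ c ∈ U.erase e, f c * D c e r ≤ wd e r)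
    (hE : ∀ e ∈ U, ∀ r ∈ Icc 0 t, ∑ c ∈ U.erase e, f c * E c e r ≤ we e r)
    (ep : ∀ e ∈ U, ∑ c ∈ U.erase e, f c * p c e t ≤ P e t)
    (en : ∀ e ∈ U, ∑ c ∈ U.erase e, f c * n c e t ≤ N e t) :
    ∀ e ∈ U, ∀ r ∈ Icc 0 t, ∑ c ∈ U.erase e, f c * p c e r ≤ P e r ∧
      ∑ c ∈ U.erase e, f c * n c e r ≤ N e r := by
  have cT1 : ∀ z, ContinuousOn (fun r => ∑ y ∈ U, T r z y) (Icc 0 t) := fun z =>
    continuousOn_finsetSum _ fun y _ => cT z y
  have cq : ∀ (g : V → V → ℝ → ℝ), (∀ i j, ContinuousOn (g i j) (Icc 0 t)) → ∀ e z,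
      ContinuousOn (fun r => qc U (T r) (fun x => g e x r) z) (Icc 0 t) := fun g hg e z => by
    unfold qc
    exact ((hg e z).mul (cT1 z)).add (continuousOn_finsetSum _ fun x _ => (cT x z).mul (hg e x))
  have qn : ∀ (g : V → V → ℝ → ℝ), (∀ i j, ∀ r ∈ Icc 0 t, 0 ≤ g i j r) → ∀ r ∈ Icc 0 t, ∀ e z,
      0 ≤ qc U (T r) (fun x => g e x r) z := fun g hg r hr e z =>
    qc_nonneg (T0 r hr) (fun x => hg e x r hr) z
  -- the coefficients
  let a11 : ℝ → V → V → ℝ := fun r e z => c4 r * qc U (T r) (fun x => gp e x r) z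
  let a12 : ℝ → V → V → ℝ := fun r e z => T r e z + qc U (T r) (fun x => gs e x r) z
  let a21 : ℝ → V → V → ℝ := fun r e z => c1 r * T r e z + c4 r * qc U (T r) (fun x => gs e x r) z
  let a22 : ℝ → V → V → ℝ := fun r e z => qc U (T r) (fun x => gp e x r) z
  let s1 : ℝ → V → ℝ := fun r e => ∑ z ∈ U, (a12 r e z * (wa z r)
    + qc U (T r) (fun x => gp e x r) z * (wd z r))
  let s2 : ℝ → V → ℝ := fun r e => ∑ z ∈ U, (a22 r e z * (wa z r)
    + (qc U (T r) (fun x => gs e x r) z * (wd z r) + T r e z * (we z r)))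
  obtain ⟨C, _, hC⟩ := exists_bound (κ := Fin 4 × V × V) (t := t)
    (f := fun k r => ![a11 r k.2.1 k.2.2, a12 r k.2.1 k.2.2, a21 r k.2.1 k.2.2,
      a22 r k.2.1 k.2.2] k.1) (fun k => by
      obtain ⟨i, e, z⟩ := k
      fin_cases i <;> simp [a11, a12, a21, a22]
      · exact cc4.mul (cq gp cgp e z)
      · exact (cT e z).add (cq gs cgs e z)
      · exact (cc1.mul (cT e z)).add (cc4.mul (cq gs cgs e z))
      · exact cq gp cgp e z)
  have g1 := qn gp gp0
  have g2 := qn gs gs0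
  -- the sums over the targets
  have swp : ∀ (e : V) (r : ℝ), r ∈ Icc 0 t → ∀ (q : V → V → ℝ) (a : V → V → ℝ → ℝ),
      (∀ c z, 0 ≤ a c z r) → ∀ Q : V → ℝ, (∀ z, 0 ≤ Q z) → (∀ c ∈ U, ∀ z, q c z ≤ Q z) →
      ∑ c ∈ U.erase e, f c * ∑ z ∈ U.erase c, q c z * a c z r
        ≤ ∑ z ∈ U, Q z * ∑ c ∈ U.erase z, f c * a c z r := by
    intro e r hr q a ha Q hQ hqQ
    refine le_trans (Finset.sum_le_sum fun c hc => mul_le_mul_of_nonneg_left
      (Finset.sum_le_sum fun z _ => mul_le_mul_of_nonneg_right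
        (hqQ c (Finset.mem_of_mem_erase hc) z) (ha c z)) (f0 c)) ?_
    exact sum_swap f0 hQ (a := fun c z => a c z r) ha
  have sub : ∀ c : V, U.erase c ⊆ U := fun c => Finset.erase_subset _ _
  have Nn0 : ∀ c ∈ U, ∀ z, ∀ r ∈ Icc 0 t, 0 ≤ n c z r := fun c hc z r hr => (hl c hc).n0 z r hr
  have Pn0 : ∀ c ∈ U, ∀ z, ∀ r ∈ Icc 0 t, 0 ≤ p c z r := fun c hc z r hr => (hl c hc).p0 z r hr
  -- zero extension in the target
  let pp : V → V → ℝ → ℝ := fun c z r => if c ∈ U then p c z r else 0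
  let nn : V → V → ℝ → ℝ := fun c z r => if c ∈ U then n c z r else 0
  have pp0 : ∀ c z, ∀ r ∈ Icc 0 t, 0 ≤ pp c z r := fun c z r hr => by
    simp only [pp]; split_ifs with hc
    · exact Pn0 c hc z r hr
    · exact le_rfl
  have nn0 : ∀ c z, ∀ r ∈ Icc 0 t, 0 ≤ nn c z r := fun c z r hr => by
    simp only [nn]; split_ifs with hc
    · exact Nn0 c hc z r hr
    · exact le_rfl
  have ppe : ∀ c ∈ U, pp c = p c := fun c hc => by funext z r; simp [pp, hc]
  have nne : ∀ c ∈ U, nn c = n c := fun c hc => by funext z r; simp [nn, hc]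
  have key := two_le (U := U) (t := t) (a11 := a11) (a12 := a12) (a21 := a21) (a22 := a22)
    (s1 := s1) (s2 := s2) (C := C)
    (p := fun e r => ∑ c ∈ U.erase e, f c * p c e r)
    (p' := fun e r => ∑ c ∈ U.erase e, f c * p' c e r)
    (n := fun e r => ∑ c ∈ U.erase e, f c * n c e r)
    (n' := fun e r => ∑ c ∈ U.erase e, f c * n' c e r)
    (P := P) (P' := P') (N := N) (N' := N')
    (fun r hr e _ z _ => ⟨⟨mul_nonneg (c40 r hr) (g1 r hr e z),
      add_nonneg (T0 r hr e z) (g2 r hr e z)⟩,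
      add_nonneg (mul_nonneg (c10 r hr) (T0 r hr e z)) (mul_nonneg (c40 r hr) (g2 r hr e z)),
      g1 r hr e z⟩)
    (fun r hr e _ z _ => ⟨⟨by simpa using hC (0, e, z) r hr, by simpa using hC (1, e, z) r hr⟩,
      by simpa using hC (2, e, z) r hr, by simpa using hC (3, e, z) r hr⟩)
    (fun e he r hr => HasDerivAt.fun_sum fun c hc => ((hl c (Finset.mem_of_mem_erase hc)).dp e
      (Finset.mem_erase.2 ⟨(Finset.ne_of_mem_erase hc).symm, he⟩) r hr).const_mul (f c))
    (fun e he r hr => HasDerivAt.fun_sum fun c hc => ((hl c (Finset.mem_of_mem_erase hc)).dn e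
      (Finset.mem_erase.2 ⟨(Finset.ne_of_mem_erase hc).symm, he⟩) r hr).const_mul (f c))
    dP dN P0 N0
    (fun e he r hr => ?_) (fun e he r hr => ?_) (fun e he r hr => ?_) (fun e he r hr => ?_) ep en
  · exact key
  · -- subsolution, upper
    have qU : ∀ (g : V → V → ℝ → ℝ), (∀ i j, ∀ r ∈ Icc 0 t, 0 ≤ g i j r) → ∀ c ∈ U, ∀ z,
        qc (U.erase c) (T r) (fun x => g e x r) z ≤ qc U (T r) (fun x => g e x r) z :=
      fun g hg c _ z => qc_mono (sub c) (T0 r hr) (fun x => hg e x r hr) z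
    have h0 : -(∑ c ∈ U.erase e, f c * p' c e r)
      ≤ ∑ c ∈ U.erase e, f c * (∑ b ∈ U.erase c, T r e b * (n1 c b r + n c b r)
      + Qo (U.erase c) (T r) (fun x => gs e x r) (fun x => n1 c x r + n c x r)
      + Qo (U.erase c) (T r) (fun x => gp e x r) (fun x => D c x r + c4 r * p c x r)) := by
      rw [← Finset.sum_neg_distrib]
      refine Finset.sum_le_sum fun c hc => ?_
      have := mul_le_mul_of_nonneg_left ((hl c (Finset.mem_of_mem_erase hc)).op e
        (Finset.mem_erase.2 ⟨(Finset.ne_of_mem_erase hc).symm, he⟩) r hr) (f0 c)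
      linarith
    refine h0.trans ?_
    have h1 : ∑ c ∈ U.erase e, f c * (∑ b ∈ U.erase c, T r e b * (n1 c b r + n c b r)
      + Qo (U.erase c) (T r) (fun x => gs e x r) (fun x => n1 c x r + n c x r)
      + Qo (U.erase c) (T r) (fun x => gp e x r) (fun x => D c x r + c4 r * p c x r))
      = ∑ c ∈ U.erase e, f c * ∑ z ∈ U.erase c,
          (T r e z + qc (U.erase c) (T r) (fun x => gs e x r) z) * n1 c z r
        + ∑ c ∈ U.erase e, f c * ∑ z ∈ U.erase c,
          (T r e z + qc (U.erase c) (T r) (fun x => gs e x r) z) * nn c z r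
        + ∑ c ∈ U.erase e, f c * ∑ z ∈ U.erase c,
          (qc (U.erase c) (T r) (fun x => gp e x r) z) * D c z r
        + ∑ c ∈ U.erase e, f c * ∑ z ∈ U.erase c,
          (c4 r * qc (U.erase c) (T r) (fun x => gp e x r) z) * pp c z r := by
      rw [← Finset.sum_add_distrib, ← Finset.sum_add_distrib,
        ← Finset.sum_add_distrib]
      refine Finset.sum_congr rfl fun c hc => ?_
      rw [ppe c (Finset.mem_of_mem_erase hc), nne c (Finset.mem_of_mem_erase hc), Qo_eq, Qo_eq,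
        ← mul_add, ← mul_add, ← mul_add]
      congr 1
      rw [← Finset.sum_add_distrib, ← Finset.sum_add_distrib, ← Finset.sum_add_distrib,
        ← Finset.sum_add_distrib, ← Finset.sum_add_distrib]
      exact Finset.sum_congr rfl fun z _ => by ring
    rw [h1]
    have b1 := swp e r hr (fun c z => T r e z + qc (U.erase c) (T r) (fun x => gs e x r) z) n1
      (fun c z => n10 c z r hr) (a12 r e) (fun z => add_nonneg (T0 r hr e z) (g2 r hr e z))
      (fun c hc z => add_le_add_right (qU gs gs0 c hc z) _)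
    have b2 := swp e r hr (fun c z => T r e z + qc (U.erase c) (T r) (fun x => gs e x r) z) nn
      (fun c z => nn0 c z r hr) (a12 r e) (fun z => add_nonneg (T0 r hr e z) (g2 r hr e z))
      (fun c hc z => add_le_add_right (qU gs gs0 c hc z) _)
    have b3 := swp e r hr (fun c z => qc (U.erase c) (T r) (fun x => gp e x r) z) D
      (fun c z => D0 c z r hr) (fun z => qc U (T r) (fun x => gp e x r) z)
      (fun z => g1 r hr e z) (fun c hc z => qU gp gp0 c hc z)
    have b4 := swp e r hr (fun c z => c4 r * qc (U.erase c) (T r) (fun x => gp e x r) z) pp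
      (fun c z => pp0 c z r hr) (a11 r e) (fun z => mul_nonneg (c40 r hr) (g1 r hr e z))
      (fun c hc z => mul_le_mul_of_nonneg_left (qU gp gp0 c hc z) (c40 r hr))
    have c1' : ∑ z ∈ U, a12 r e z * ∑ c ∈ U.erase z, f c * n1 c z r
        ≤ ∑ z ∈ U, a12 r e z * (wa z r) := Finset.sum_le_sum fun z hz =>
      mul_le_mul_of_nonneg_left (hW z hz r hr) (add_nonneg (T0 r hr e z) (g2 r hr e z))
    have c3' : ∑ z ∈ U, (qc U (T r) (fun x => gp e x r) z) * ∑ c ∈ U.erase z, f c * D c z r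
        ≤ ∑ z ∈ U, qc U (T r) (fun x => gp e x r) z * (wd z r) :=
      Finset.sum_le_sum fun z hz => mul_le_mul_of_nonneg_left (hD z hz r hr) (g1 r hr e z)
    have d2 : ∑ z ∈ U, a12 r e z * ∑ c ∈ U.erase z, f c * nn c z r
        = ∑ z ∈ U, a12 r e z * ∑ c ∈ U.erase z, f c * n c z r :=
      Finset.sum_congr rfl fun z _ => by
        congr 1
        exact Finset.sum_congr rfl fun c hc => by rw [nne c (Finset.mem_of_mem_erase hc)]
    have d4 : ∑ z ∈ U, a11 r e z * ∑ c ∈ U.erase z, f c * pp c z r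
        = ∑ z ∈ U, a11 r e z * ∑ c ∈ U.erase z, f c * p c z r :=
      Finset.sum_congr rfl fun z _ => by
        congr 1
        exact Finset.sum_congr rfl fun c hc => by rw [ppe c (Finset.mem_of_mem_erase hc)]
    have e1 : ∑ z ∈ U, (a11 r e z * (∑ c ∈ U.erase z, f c * p c z r)
          + a12 r e z * (∑ c ∈ U.erase z, f c * n c z r)) + s1 r e
        = ∑ z ∈ U, a11 r e z * (∑ c ∈ U.erase z, f c * p c z r)
          + ∑ z ∈ U, a12 r e z * (∑ c ∈ U.erase z, f c * n c z r)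
          + (∑ z ∈ U, a12 r e z * (wa z r)
            + ∑ z ∈ U, qc U (T r) (fun x => gp e x r) z * (wd z r)) := by
      simp only [s1, Finset.sum_add_distrib]
    show _ ≤ ∑ z ∈ U, (a11 r e z * (∑ c ∈ U.erase z, f c * p c z r)
          + a12 r e z * (∑ c ∈ U.erase z, f c * n c z r)) + s1 r e
    rw [e1]
    linarith
  · -- subsolution, lower
    have qU : ∀ (g : V → V → ℝ → ℝ), (∀ i j, ∀ r ∈ Icc 0 t, 0 ≤ g i j r) → ∀ c ∈ U, ∀ z,
        qc (U.erase c) (T r) (fun x => g e x r) z ≤ qc U (T r) (fun x => g e x r) z :=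
      fun g hg c _ z => qc_mono (sub c) (T0 r hr) (fun x => hg e x r hr) z
    have h0 : -(∑ c ∈ U.erase e, f c * n' c e r)
      ≤ ∑ c ∈ U.erase e, f c * (∑ b ∈ U.erase c, T r e b * (E c b r + c1 r * p c b r)
      + Qo (U.erase c) (T r) (fun x => gp e x r) (fun x => n1 c x r + n c x r)
      + Qo (U.erase c) (T r) (fun x => gs e x r) (fun x => D c x r + c4 r * p c x r)) := by
      rw [← Finset.sum_neg_distrib]
      refine Finset.sum_le_sum fun c hc => ?_
      have := mul_le_mul_of_nonneg_left ((hl c (Finset.mem_of_mem_erase hc)).on e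
        (Finset.mem_erase.2 ⟨(Finset.ne_of_mem_erase hc).symm, he⟩) r hr) (f0 c)
      linarith
    refine h0.trans ?_
    have h1 : ∑ c ∈ U.erase e, f c * (∑ b ∈ U.erase c, T r e b * (E c b r + c1 r * p c b r)
      + Qo (U.erase c) (T r) (fun x => gp e x r) (fun x => n1 c x r + n c x r)
      + Qo (U.erase c) (T r) (fun x => gs e x r) (fun x => D c x r + c4 r * p c x r))
      = ∑ c ∈ U.erase e, f c * ∑ z ∈ U.erase c, T r e z * E c z r
        + ∑ c ∈ U.erase e, f c * ∑ z ∈ U.erase c,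
          (qc (U.erase c) (T r) (fun x => gp e x r) z) * n1 c z r
        + ∑ c ∈ U.erase e, f c * ∑ z ∈ U.erase c,
          (qc (U.erase c) (T r) (fun x => gp e x r) z) * nn c z r
        + ∑ c ∈ U.erase e, f c * ∑ z ∈ U.erase c,
          (qc (U.erase c) (T r) (fun x => gs e x r) z) * D c z r
        + ∑ c ∈ U.erase e, f c * ∑ z ∈ U.erase c,
          (c1 r * T r e z + c4 r * qc (U.erase c) (T r) (fun x => gs e x r) z) * pp c z r := by
      rw [← Finset.sum_add_distrib, ← Finset.sum_add_distrib, ← Finset.sum_add_distrib,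
        ← Finset.sum_add_distrib]
      refine Finset.sum_congr rfl fun c hc => ?_
      rw [ppe c (Finset.mem_of_mem_erase hc), nne c (Finset.mem_of_mem_erase hc), Qo_eq, Qo_eq,
        ← mul_add, ← mul_add, ← mul_add, ← mul_add]
      congr 1
      rw [← Finset.sum_add_distrib, ← Finset.sum_add_distrib, ← Finset.sum_add_distrib,
        ← Finset.sum_add_distrib, ← Finset.sum_add_distrib, ← Finset.sum_add_distrib]
      exact Finset.sum_congr rfl fun z _ => by ring
    rw [h1]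
    have b1 := swp e r hr (fun c z => qc (U.erase c) (T r) (fun x => gp e x r) z) n1
      (fun c z => n10 c z r hr) (a22 r e) (fun z => g1 r hr e z) (fun c hc z => qU gp gp0 c hc z)
    have b2 := swp e r hr (fun c z => qc (U.erase c) (T r) (fun x => gp e x r) z) nn
      (fun c z => nn0 c z r hr) (a22 r e) (fun z => g1 r hr e z) (fun c hc z => qU gp gp0 c hc z)
    have b0 := swp e r hr (fun _ z => T r e z) E (fun c z => E0 c z r hr) (fun z => T r e z)
      (fun z => T0 r hr e z) (fun _ _ _ => le_rfl)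
    have b3 := swp e r hr (fun c z => qc (U.erase c) (T r) (fun x => gs e x r) z) D
      (fun c z => D0 c z r hr) (fun z => qc U (T r) (fun x => gs e x r) z)
      (fun z => g2 r hr e z) (fun c hc z => qU gs gs0 c hc z)
    have b4 := swp e r hr (fun c z => c1 r * T r e z
        + c4 r * qc (U.erase c) (T r) (fun x => gs e x r) z) pp
      (fun c z => pp0 c z r hr) (a21 r e) (fun z => add_nonneg (mul_nonneg (c10 r hr)
        (T0 r hr e z)) (mul_nonneg (c40 r hr) (g2 r hr e z)))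
      (fun c hc z => add_le_add_right
        (mul_le_mul_of_nonneg_left (qU gs gs0 c hc z) (c40 r hr)) _)
    have c1' : ∑ z ∈ U, a22 r e z * ∑ c ∈ U.erase z, f c * n1 c z r
        ≤ ∑ z ∈ U, a22 r e z * (wa z r) := Finset.sum_le_sum fun z hz =>
      mul_le_mul_of_nonneg_left (hW z hz r hr) (g1 r hr e z)
    have c0' : ∑ z ∈ U, T r e z * ∑ c ∈ U.erase z, f c * E c z r
        ≤ ∑ z ∈ U, T r e z * (we z r) :=
      Finset.sum_le_sum fun z hz => mul_le_mul_of_nonneg_left (hE z hz r hr) (T0 r hr e z)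
    have c3' : ∑ z ∈ U, (qc U (T r) (fun x => gs e x r) z) * ∑ c ∈ U.erase z, f c * D c z r
        ≤ ∑ z ∈ U, qc U (T r) (fun x => gs e x r) z * (wd z r) :=
      Finset.sum_le_sum fun z hz => mul_le_mul_of_nonneg_left (hD z hz r hr) (g2 r hr e z)
    have d2 : ∑ z ∈ U, a22 r e z * ∑ c ∈ U.erase z, f c * nn c z r
        = ∑ z ∈ U, a22 r e z * ∑ c ∈ U.erase z, f c * n c z r :=
      Finset.sum_congr rfl fun z _ => by
        congr 1
        exact Finset.sum_congr rfl fun c hc => by rw [nne c (Finset.mem_of_mem_erase hc)]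
    have d4 : ∑ z ∈ U, a21 r e z * ∑ c ∈ U.erase z, f c * pp c z r
        = ∑ z ∈ U, a21 r e z * ∑ c ∈ U.erase z, f c * p c z r :=
      Finset.sum_congr rfl fun z _ => by
        congr 1
        exact Finset.sum_congr rfl fun c hc => by rw [ppe c (Finset.mem_of_mem_erase hc)]
    have e1 : ∑ z ∈ U, (a21 r e z * (∑ c ∈ U.erase z, f c * p c z r)
          + a22 r e z * (∑ c ∈ U.erase z, f c * n c z r)) + s2 r e
        = ∑ z ∈ U, a21 r e z * (∑ c ∈ U.erase z, f c * p c z r)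
          + ∑ z ∈ U, a22 r e z * (∑ c ∈ U.erase z, f c * n c z r)
          + (∑ z ∈ U, a22 r e z * (wa z r)
            + (∑ z ∈ U, qc U (T r) (fun x => gs e x r) z * (wd z r)
              + ∑ z ∈ U, T r e z * (we z r))) := by
      simp only [s2, Finset.sum_add_distrib]
    show _ ≤ ∑ z ∈ U, (a21 r e z * (∑ c ∈ U.erase z, f c * p c z r)
          + a22 r e z * (∑ c ∈ U.erase z, f c * n c z r)) + s2 r e
    rw [e1]
    linarith
  · -- supersolution, upper
    refine le_trans (le_of_eq ?_) (oP e he r hr)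
    rw [Qo_eq, Qo_eq]
    simp only [s1, a11, a12, ← Finset.sum_add_distrib]
    exact Finset.sum_congr rfl fun z _ => by ring
  · -- supersolution, lower
    refine le_trans (le_of_eq ?_) (oN e he r hr)
    rw [Qo_eq, Qo_eq]
    simp only [s2, a21, a22, ← Finset.sum_add_distrib]
    exact Finset.sum_congr rfl fun z _ => by ring

end Pool.Agent.RX.RCM
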