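import Pool.Agent.RX.RCM.VOne

/-! Insertion and level 2 in the deleted form (MP_73ccd0_lc, route M). -/

namespace Pool.Agent.RX.RCM

open Set Finset Pool.Agent.RX.RCRSHalf Pool.Agent.RX.RCG

set_option linter.unusedSectionVars false

variable {V : Type*} [Fintype V] [DecidableEq V]

section

variable {h : ℝ → V → V → ℝ} {κ : ℝ → V → ℝ} {s t : ℝ} {Φ Ψ : Finset V → ℝ → ℝ} {c : V}
  {X : Finset V} {W T : ℝ → V → V → ℝ} {gp gm : V → V → ℝ → ℝ} {p p' n n' : V → ℝ → ℝ}

set_option maxHeartbeats 4000000 in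
/-- Insertion: `v(F + e) ≤ (exp n_e - pt) v(F)`. -/
theorem insV (hs : ∀ t a b, h t a b = h t b a) (haa : ∀ t a, h t a a = 0)
    (h0 : ∀ t a b, 0 ≤ h t a b) (hΦ : Wd h κ s Φ)
    (hΨ : Wd h (fun r a => κ r a + h r c a) s Ψ) (h00 : Lv0 X s Φ W T)
    (gp0 : ∀ i j, ∀ r ∈ Icc 0 s, 0 ≤ gp i j r) (gm0 : ∀ i j, ∀ r ∈ Icc 0 s, 0 ≤ gm i j r)
    (h12 : ∀ F ⊆ X, ∀ i ∈ X, ∀ j ∈ X, i ∉ F → j ∉ F → i ≠ j → ∀ r ∈ Icc 0 s,
      B12 Φ gp gm i j F r)
    (hG : GV h X c s W gp gm p p' n n')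
    (hV : ∀ F ⊆ X, ∀ e ∈ X, e ∉ F → ∀ r ∈ Icc 0 s, Bv Φ Ψ p n e F r)
    {e : V} (heX : e ∈ X) {pt pt' : ℝ → ℝ} (dpt : ∀ r ∈ Icc 0 s, HasDerivAt pt (pt' r) r)
    (pt0 : ∀ r ∈ Icc 0 s, 0 ≤ pt r) (pt1 : ∀ r ∈ Icc 0 s, pt r < 1)
    (opt : ∀ r ∈ Icc 0 s,
      -pt' r ≤ h r c e - (h r c e + ∑ b ∈ X.erase e, h r e b * W r e b) * pt r)
    (hend : 0 ≤ s → ∀ F ⊆ X, e ∉ F →
      Ψ (insert e F) s * Φ F s ≤ (Real.exp (n e s) - pt s) * (Ψ F s * Φ (insert e F) s)) :
    ∀ F ⊆ X, e ∉ F → ∀ r ∈ Icc 0 s,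
      Ψ (insert e F) r * Φ F r ≤ (Real.exp (n e r) - pt r) * (Ψ F r * Φ (insert e F) r) := by
  intro F
  induction hn : F.card using Nat.strong_induction_on generalizing F with
  | _ m ih =>
  intro hFX he
  have hB' : insert e F ⊆ X := Finset.insert_subset heX hFX
  have hF2 : F ⊆ X.erase e := fun z hz => Finset.mem_erase.2 ⟨fun h => he (h ▸ hz), hFX hz⟩
  have card1 : ∀ b ∈ F, (F.erase b).card < m := fun b hb => by
    rw [← hn]; exact Finset.card_lt_card (Finset.erase_ssubset hb)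
  have card2 : ∀ x ∈ F, ∀ y, ((F.erase x).erase y).card < m := fun x hx y =>
    (Finset.card_le_card (Finset.erase_subset _ _)).trans_lt (card1 x hx)
  have sub1 : ∀ b, F.erase b ⊆ X := fun b => (Finset.erase_subset _ _).trans hFX
  have sub2 : ∀ x y, (F.erase x).erase y ⊆ X := fun x y =>
    (Finset.erase_subset _ _).trans (sub1 x)
  have dA := fun r (hr : r ∈ Icc 0 s) => hΨ.d F hr
  have dB := fun r (hr : r ∈ Icc 0 s) => hΦ.d (insert e F) hr
  have dC := fun r (hr : r ∈ Icc 0 s) => hΨ.d (insert e F) hr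
  have dD := fun r (hr : r ∈ Icc 0 s) => hΦ.d F hr
  have Q0 : ∀ r ∈ Icc 0 s, 0 < Real.exp (n e r) - pt r := fun r hr => by
    have := Real.one_le_exp (hG.n0 e r hr)
    linarith [pt1 r hr]
  have Web : ∀ r ∈ Icc 0 s, ∀ b ∈ F, Φ (F.erase b) r ≤ W r e b * Φ (insert e F) r := by
    intro r hr b hb
    have hbe : e ≠ b := fun h => he (h ▸ hb)
    have h1 := h00.up _ hB' e (by simp) b (by simp [hb]) hbe r hr
    rwa [Finset.erase_insert he] at h1
  have S : ∀ r ∈ Icc 0 s, ∀ b ∈ F,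
      Ψ F r * Φ (F.erase b) r ≤ Real.exp (n b r) * (Ψ (F.erase b) r * Φ F r) ∧
        Ψ (F.erase b) r * Φ F r ≤ Real.exp (p b r) * (Ψ F r * Φ (F.erase b) r) := by
    intro r hr b hb
    have h1 := hV _ (sub1 b) b (hFX hb) (Finset.notMem_erase b F) r hr
    unfold Bv at h1
    rwa [Finset.insert_erase hb] at h1
  have PD1 : ∀ r ∈ Icc 0 s, ∀ x ∈ F, ∀ y ∈ F, x ≠ y →
      -(1 - Real.exp (-(n x r + n y r)))
        ≤ Ψ ((F.erase x).erase y) r * Φ F r / (Φ ((F.erase x).erase y) r * Ψ F r) - 1 ∧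
      Ψ ((F.erase x).erase y) r * Φ F r / (Φ ((F.erase x).erase y) r * Ψ F r) - 1
        ≤ Real.exp (p x r + p y r) - 1 := by
    intro r hr x hx y hy hxy
    have h1 := hV _ (sub1 x) x (hFX hx) (Finset.notMem_erase x F) r hr
    have h2 := hV _ (sub2 x y) y (hFX hy) (Finset.notMem_erase y _) r hr
    have h3 := pair_devV (fun F => hΦ.pos F r hr) (fun F => hΨ.pos F r hr) hx hy hxy h1 h2
    exact dev_bounds (hΦ.pos _ r hr) (hΦ.pos _ r hr) (hΨ.pos _ r hr) (hΨ.pos _ r hr) h3.1 h3.2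
  have PD2 := fun r (hr : r ∈ Icc 0 s) x (hx : x ∈ F) y (hy : y ∈ F) (hxy : x ≠ y) =>
    devE hΦ h12 heX he hFX hr hx hy hxy
  have X1 : ∀ r ∈ Icc 0 s, ∀ x y, 0 ≤ 1 - Real.exp (-(n x r + n y r)) ∧
      0 ≤ Real.exp (p x r + p y r) - 1 := fun r hr x y =>
    ⟨one_sub_exp_nonneg (add_nonneg (hG.n0 x r hr) (hG.n0 y r hr)),
      exp_sub_one_nonneg (add_nonneg (hG.p0 x r hr) (hG.p0 y r hr))⟩
  have X2 : ∀ r ∈ Icc 0 s, ∀ x y, 0 ≤ 1 - Real.exp (-(gp e x r + gp e y r)) ∧
      0 ≤ 1 - Real.exp (-(gm e x r + gm e y r)) := fun r hr x y =>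
    ⟨one_sub_exp_nonneg (add_nonneg (gp0 e x r hr) (gp0 e y r hr)),
      one_sub_exp_nonneg (add_nonneg (gm0 e x r hr) (gm0 e y r hr))⟩
  have We : ∀ r ∈ Icc 0 s, ∀ x ∈ F, ∀ y ∈ F, x ≠ y →
      Φ (insert e ((F.erase x).erase y)) r ≤ W r x y * Φ (insert e F) r := by
    intro r hr x hx y hy hxy
    have hex : e ≠ x := fun h => he (h ▸ hx)
    have hey : e ≠ y := fun h => he (h ▸ hy)
    have h1 := h00.up (insert e F) hB' x (Finset.mem_insert_of_mem hx) y
      (Finset.mem_insert_of_mem hy) hxy r hr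
    rwa [Finset.erase_insert_of_ne hex, Finset.erase_insert_of_ne hey] at h1
  intro r hr
  have hmain := step_lower (A := Ψ F) (B := Φ (insert e F)) (C := Ψ (insert e F))
      (D := Φ F) dA (hΨ.pos _) dB (hΦ.pos _) dC (hΨ.pos _) dD (hΦ.pos _)
      (q := fun r => Real.log (Real.exp (n e r) - pt r))
      (q' := fun r => (Real.exp (n e r) * n' e r - pt' r) / (Real.exp (n e r) - pt r))
      (fun r hr => (((hG.dn e heX r hr).exp).sub (dpt r hr)).log (Q0 r hr).ne')
      (fun h => by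
        rw [Real.exp_log (Q0 s ⟨h, le_rfl⟩)]
        exact hend h F hFX he) ?_ r hr
  · rwa [Real.exp_log (Q0 r hr)] at hmain
  · intro r hr hv
    rw [Real.exp_log (Q0 r hr)] at hv
    have hQ := Q0 r hr
    set Q : ℝ := Real.exp (n e r) - pt r with hQd
    have en := Real.one_le_exp (hG.n0 e r hr)
    have p0 := pt0 r hr
    rw [div_le_iff₀ hQ, ratesV hs haa hΦ hΨ he hr]
    have t1 := sum_low (h := h r) (h0 r) hF2
      (f := fun x y => Ψ ((F.erase x).erase y) r / Ψ F r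
          + Φ (insert e ((F.erase x).erase y)) r / Φ (insert e F) r
          - Ψ (insert e ((F.erase x).erase y)) r / Ψ (insert e F) r
          - Φ ((F.erase x).erase y) r / Φ F r)
      (w := fun x y => W r x y *
          (max ((1 - Real.exp (-(n x r + n y r))) * (1 - Real.exp (-(gp e x r + gp e y r))))
            ((Real.exp (p x r + p y r) - 1) * (1 - Real.exp (-(gm e x r + gm e y r))))))
      (fun x _ y _ => mul_nonneg (h00.W0 r hr x y) (le_max_of_le_left (mul_nonneg (X1 r hr x y).1 (X2 r hr x y).1)))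
      (fun x hx y hy hne => by
        have hxy : x ≠ y := fun h => hne (by rw [h]; exact haa r y)
        have a0 := hΨ.pos F r hr
        have a2 := hΨ.pos ((F.erase x).erase y) r hr
        have c0 := hΨ.pos (insert e F) r hr
        have c2 := hΨ.pos (insert e ((F.erase x).erase y)) r hr
        have d0 := hΦ.pos F r hr
        have d2 := hΦ.pos ((F.erase x).erase y) r hr
        have b0 := hΦ.pos (insert e F) r hr
        have b2 := hΦ.pos (insert e ((F.erase x).erase y)) r hr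
        obtain ⟨u1, u2⟩ := PD1 r hr x hx y hy hxy
        obtain ⟨v1, v2⟩ := PD2 r hr x hx y hy hxy
        have := elim_leV (a := Φ ((F.erase x).erase y) r / Φ F r)
          (b := Ψ (insert e ((F.erase x).erase y)) r / Ψ (insert e F) r)
          (c := Ψ ((F.erase x).erase y) r / Ψ F r)
          (d := Φ (insert e ((F.erase x).erase y)) r / Φ (insert e F) r)
          (w := W r x y)
          (div_pos d2 d0) (by
            have hb := ih _ (card2 x hx y) ((F.erase x).erase y) rfl (sub2 x y)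
              (fun h => he (Finset.mem_of_mem_erase (Finset.mem_of_mem_erase h))) r hr
            rw [← hQd] at hb
            rw [div_mul_div_comm, div_mul_div_comm, div_le_div_iff₀ (mul_pos d0 c0) (mul_pos a0 b0)]
            have hm : (Ψ (insert e ((F.erase x).erase y)) r * Φ ((F.erase x).erase y) r)
                * (Q * (Ψ F r * Φ (insert e F) r))
                ≤ (Q * (Ψ ((F.erase x).erase y) r
                  * Φ (insert e ((F.erase x).erase y)) r))
                * (Ψ (insert e F) r * Φ F r) :=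
              mul_le_mul hb hv.le (by positivity) (by positivity)
            refine le_of_mul_le_mul_left ?_ hQ
            linarith) (by
            rw [div_le_iff₀ d0]
            exact h00.up F hFX x hx y hy hxy r hr) (by
            rw [div_le_iff₀ b0]
            exact We r hr x hx y hy hxy) (h00.W0 r hr x y)
          (by field_simp; ring) (by field_simp; ring) u1 u2 v1 v2
          (add_nonneg (hG.p0 x r hr) (hG.p0 y r hr)) (add_nonneg (hG.n0 x r hr) (hG.n0 y r hr))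
          (add_nonneg (gm0 e x r hr) (gm0 e y r hr)) (add_nonneg (gp0 e x r hr) (gp0 e y r hr))
        linarith)
    -- the sum over `b`
    have t3 := sum1_low (h := fun b => h r e b) (h0 r e) hF2
      (f := fun b => Q * (Φ (F.erase b) r / Φ (insert e F) r
        - Ψ (F.erase b) r / Ψ (insert e F) r))
      (w := fun b => W r e b * (pt r + (Real.exp (p b r) - 1)))
      (fun b _ => mul_nonneg (h00.W0 r hr e b)
        (add_nonneg p0 (exp_sub_one_nonneg (hG.p0 b r hr))))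
      (fun b hb => by
        have hB := hΦ.pos (insert e F) r hr
        have hC := hΨ.pos (insert e F) r hr
        have hD := hΦ.pos F r hr
        have hA := hΨ.pos F r hr
        have hq := hΦ.pos (F.erase b) r hr
        have hp := hΨ.pos (F.erase b) r hr
        have E1 := Real.one_le_exp (hG.p0 b r hr)
        have e1 : Q * Ψ (F.erase b) r * Φ (insert e F) r
            ≤ Real.exp (p b r) * Φ (F.erase b) r * Ψ (insert e F) r := by
          have := (S r hr b hb).2
          refine le_of_mul_le_mul_left ?_ hA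
          calc Ψ F r * (Q * Ψ (F.erase b) r * Φ (insert e F) r)
              = (Q * (Ψ F r * Φ (insert e F) r)) * Ψ (F.erase b) r := by ring
            _ ≤ (Ψ (insert e F) r * Φ F r) * Ψ (F.erase b) r :=
                mul_le_mul_of_nonneg_right hv.le hp.le
            _ = Ψ (insert e F) r * (Ψ (F.erase b) r * Φ F r) := by ring
            _ ≤ Ψ (insert e F) r * (Real.exp (p b r) * (Ψ F r * Φ (F.erase b) r)) :=
                mul_le_mul_of_nonneg_left this hC.le
            _ = Ψ F r * (Real.exp (p b r) * Φ (F.erase b) r * Ψ (insert e F) r) := by ring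
        have e2 : Q * (Ψ (F.erase b) r / Ψ (insert e F) r)
            ≤ Real.exp (p b r) * (Φ (F.erase b) r / Φ (insert e F) r) := by
          rw [← mul_div_assoc, ← mul_div_assoc, div_le_div_iff₀ hC hB]
          linarith
        have e3 : Φ (F.erase b) r / Φ (insert e F) r ≤ W r e b := by
          rw [div_le_iff₀ hB]; exact Web r hr b hb
        have e4 : 0 < Φ (F.erase b) r / Φ (insert e F) r := div_pos hq hB
        have e5 : (pt r + (Real.exp (p b r) - 1)) * (Φ (F.erase b) r / Φ (insert e F) r)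
            ≤ (pt r + (Real.exp (p b r) - 1)) * W r e b :=
          mul_le_mul_of_nonneg_left e3 (by linarith)
        have e6 : 0 ≤ (Real.exp (n e r) - 1) * (Φ (F.erase b) r / Φ (insert e F) r) :=
          mul_nonneg (by linarith) e4.le
        have e7 : Q * (Φ (F.erase b) r / Φ (insert e F) r)
            = (Real.exp (n e r) - 1) * (Φ (F.erase b) r / Φ (insert e F) r)
              - pt r * (Φ (F.erase b) r / Φ (insert e F) r)
              + Φ (F.erase b) r / Φ (insert e F) r := by rw [hQd]; ring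
        rw [mul_sub, e7]
        linarith)
    have t3' : ∑ b ∈ F, h r e b * (Q * (Φ (F.erase b) r / Φ (insert e F) r
        - Ψ (F.erase b) r / Ψ (insert e F) r))
        = Q * ∑ b ∈ F, h r e b * (Φ (F.erase b) r / Φ (insert e F) r
          - Ψ (F.erase b) r / Ψ (insert e F) r) := by
      rw [Finset.mul_sum]
      exact Finset.sum_congr rfl fun b _ => by ring
    have t3'' : ∑ b ∈ X.erase e, h r e b * (W r e b * (pt r + (Real.exp (p b r) - 1)))
        = (∑ b ∈ X.erase e, h r e b * W r e b) * pt r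
          + ∑ b ∈ X.erase e, h r e b * (W r e b * (Real.exp (p b r) - 1)) := by
      rw [Finset.sum_mul, ← Finset.sum_add_distrib]
      exact Finset.sum_congr rfl fun b _ => by ring
    rw [t3', t3''] at t3
    have t5 := hG.on e heX r hr
    have t6 := opt r hr
    have t7 := h0 r c e
    set S4 : ℝ := (1 / 2) * ∑ x ∈ F, ∑ y ∈ F, h r x y * (Ψ ((F.erase x).erase y) r / Ψ F r
          + Φ (insert e ((F.erase x).erase y)) r / Φ (insert e F) r
          - Ψ (insert e ((F.erase x).erase y)) r / Ψ (insert e F) r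
          - Φ ((F.erase x).erase y) r / Φ F r) with hS4
    set Xs : ℝ := (1 / 2) * ∑ x ∈ X.erase e, ∑ y ∈ X.erase e, h r x y * (W r x y *
          (max ((1 - Real.exp (-(n x r + n y r))) * (1 - Real.exp (-(gp e x r + gp e y r))))
            ((Real.exp (p x r + p y r) - 1) * (1 - Real.exp (-(gm e x r + gm e y r)))))) with hXs
    set Sb : ℝ := ∑ b ∈ F, h r e b * (Φ (F.erase b) r / Φ (insert e F) r
          - Ψ (F.erase b) r / Ψ (insert e F) r) with hSb
    set Sw : ℝ := ∑ b ∈ X.erase e, h r e b * W r e b with hSw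
    set Sp : ℝ := ∑ b ∈ X.erase e, h r e b * (W r e b * (Real.exp (p b r) - 1)) with hSp
    have hSp0 : 0 ≤ Sp := Finset.sum_nonneg fun b _ => mul_nonneg (h0 _ _ _)
      (mul_nonneg (h00.W0 r hr e b) (exp_sub_one_nonneg (hG.p0 b r hr)))
    have hXs0 : 0 ≤ Xs := by
      rw [hXs]
      exact mul_nonneg (by norm_num) (Finset.sum_nonneg fun x _ => Finset.sum_nonneg fun y _ =>
        mul_nonneg (h0 _ _ _) (mul_nonneg (h00.W0 r hr x y) (le_max_of_le_left (mul_nonneg (X1 r hr x y).1 (X2 r hr x y).1))))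
    have u1 : Q * (-Xs) ≤ Q * S4 := mul_le_mul_of_nonneg_left t1 hQ.le
    have u2 : Q * Xs ≤ Real.exp (n e r) * Xs := mul_le_mul_of_nonneg_right (by linarith) hXs0
    have u3 : (1 - pt r) * h r c e ≤ Q * h r c e :=
      mul_le_mul_of_nonneg_right (by rw [hQd]; linarith) t7
    have u4 : Real.exp (n e r) * (Sp + Xs) ≤ Real.exp (n e r) * (-n' e r) :=
      mul_le_mul_of_nonneg_left t5 (Real.exp_pos _).le
    have u5 : Sp ≤ Real.exp (n e r) * Sp := by nlinarith
    nlinarith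

end

set_option maxHeartbeats 4000000 in
/-- Level 2, deleted form: `v_c v_d ≤ exp k v_cd`. -/
theorem lev2V {h : ℝ → V → V → ℝ} {κ : ℝ → V → ℝ} {s : ℝ} {Φ Ψc Ψd Θ : Finset V → ℝ → ℝ}
    (haa : ∀ t a, h t a a = 0) (h0 : ∀ t a b, 0 ≤ h t a b)
    {c d : V} (hΦ : Wd h κ s Φ) (hΨc : Wd h (fun r a => κ r a + h r c a) s Ψc)
    (hΨd : Wd h (fun r a => κ r a + h r d a) s Ψd)
    (hΘ : Wd h (fun r a => κ r a + h r c a + h r d a) s Θ)
    {X : Finset V} {W T : ℝ → V → V → ℝ} (h00 : Lv0 X s Φ W T)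
    {pc nc pd nd : V → ℝ → ℝ}
    (pc0 : ∀ e, ∀ r ∈ Icc 0 s, 0 ≤ pc e r) (nc0 : ∀ e, ∀ r ∈ Icc 0 s, 0 ≤ nc e r)
    (pd0 : ∀ e, ∀ r ∈ Icc 0 s, 0 ≤ pd e r) (nd0 : ∀ e, ∀ r ∈ Icc 0 s, 0 ≤ nd e r)
    (hc1 : ∀ F ⊆ X, ∀ e ∈ X, e ∉ F → ∀ r ∈ Icc 0 s, Bv Φ Ψc pc nc e F r)
    (hd1 : ∀ F ⊆ X, ∀ e ∈ X, e ∉ F → ∀ r ∈ Icc 0 s, Bv Φ Ψd pd nd e F r)
    {k k' : ℝ → ℝ} (dk : ∀ r ∈ Icc 0 s, HasDerivAt k (k' r) r)
    (ok : ∀ r ∈ Icc 0 s,
      (1 / 2) * ∑ x ∈ X, ∑ y ∈ X, h r x y * (W r x y *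
          (max ((1 - Real.exp (-(nc x r + nc y r))) * (Real.exp (pd x r + pd y r) - 1))
            ((Real.exp (pc x r + pc y r) - 1) * (1 - Real.exp (-(nd x r + nd y r))))))
      ≤ -k' r)
    (hend : 0 ≤ s → ∀ F ⊆ X, Ψc F s * Ψd F s ≤ Real.exp (k s) * (Θ F s * Φ F s)) :
    ∀ F ⊆ X, ∀ r ∈ Icc 0 s, Ψc F r * Ψd F r ≤ Real.exp (k r) * (Θ F r * Φ F r) := by
  intro F
  induction hn : F.card using Nat.strong_induction_on generalizing F with
  | _ m ih =>
  intro hFX
  have card1 : ∀ b ∈ F, (F.erase b).card < m := fun b hb => by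
    rw [← hn]; exact Finset.card_lt_card (Finset.erase_ssubset hb)
  have card2 : ∀ x ∈ F, ∀ y, ((F.erase x).erase y).card < m := fun x hx y =>
    (Finset.card_le_card (Finset.erase_subset _ _)).trans_lt (card1 x hx)
  have sub1 : ∀ b, F.erase b ⊆ X := fun b => (Finset.erase_subset _ _).trans hFX
  have sub2 : ∀ x y, (F.erase x).erase y ⊆ X := fun x y =>
    (Finset.erase_subset _ _).trans (sub1 x)
  have dA := fun r (hr : r ∈ Icc 0 s) => hΘ.d F hr
  have dB := fun r (hr : r ∈ Icc 0 s) => hΦ.d F hr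
  have dC := fun r (hr : r ∈ Icc 0 s) => hΨc.d F hr
  have dD := fun r (hr : r ∈ Icc 0 s) => hΨd.d F hr
  have rates : ∀ r ∈ Icc 0 s,
      (lr (h r) (fun G => Θ G r) F - ∑ a ∈ F, (κ r a + h r c a + h r d a))
        + (lr (h r) (fun G => Φ G r) F - ∑ a ∈ F, κ r a)
        - (lr (h r) (fun G => Ψc G r) F - ∑ a ∈ F, (κ r a + h r c a))
        - (lr (h r) (fun G => Ψd G r) F - ∑ a ∈ F, (κ r a + h r d a))
      = (1 / 2) * ∑ x ∈ F, ∑ y ∈ F, h r x y * (Θ ((F.erase x).erase y) r / Θ F r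
          + Φ ((F.erase x).erase y) r / Φ F r
          - Ψc ((F.erase x).erase y) r / Ψc F r
          - Ψd ((F.erase x).erase y) r / Ψd F r) := by
    intro r _
    have e2 : ∑ a ∈ F, (κ r a + h r c a + h r d a)
        = ∑ a ∈ F, (κ r a + h r c a) + ∑ a ∈ F, (κ r a + h r d a) - ∑ a ∈ F, κ r a := by
      rw [← Finset.sum_add_distrib, ← Finset.sum_sub_distrib]
      exact Finset.sum_congr rfl fun a _ => by ring
    have e3 : (1 / 2) * ∑ x ∈ F, ∑ y ∈ F, h r x y * (Θ ((F.erase x).erase y) r / Θ F r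
          + Φ ((F.erase x).erase y) r / Φ F r
          - Ψc ((F.erase x).erase y) r / Ψc F r
          - Ψd ((F.erase x).erase y) r / Ψd F r)
        = lr (h r) (fun G => Θ G r) F + lr (h r) (fun G => Φ G r) F
          - lr (h r) (fun G => Ψc G r) F - lr (h r) (fun G => Ψd G r) F := by
      unfold lr
      rw [← mul_add, ← mul_sub, ← mul_sub]
      congr 1
      rw [← Finset.sum_add_distrib, ← Finset.sum_sub_distrib, ← Finset.sum_sub_distrib]
      refine Finset.sum_congr rfl fun x _ => ?_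
      rw [← Finset.sum_add_distrib, ← Finset.sum_sub_distrib, ← Finset.sum_sub_distrib]
      exact Finset.sum_congr rfl fun y _ => by ring
    rw [e3, e2]
    ring
  have PD : ∀ {Ψ : Finset V → ℝ → ℝ} {p n : V → ℝ → ℝ}, (∀ F, ∀ r ∈ Icc 0 s, 0 < Ψ F r) →
      (∀ F ⊆ X, ∀ e ∈ X, e ∉ F → ∀ r ∈ Icc 0 s, Bv Φ Ψ p n e F r) →
      ∀ r ∈ Icc 0 s, ∀ x ∈ F, ∀ y ∈ F, x ≠ y →
      -(1 - Real.exp (-(n x r + n y r)))
        ≤ Ψ ((F.erase x).erase y) r * Φ F r / (Φ ((F.erase x).erase y) r * Ψ F r) - 1 ∧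
      Ψ ((F.erase x).erase y) r * Φ F r / (Φ ((F.erase x).erase y) r * Ψ F r) - 1
        ≤ Real.exp (p x r + p y r) - 1 := by
    intro Ψ p n pos hV r hr x hx y hy hxy
    have h1 := hV _ (sub1 x) x (hFX hx) (Finset.notMem_erase x F) r hr
    have h2 := hV _ (sub2 x y) y (hFX hy) (Finset.notMem_erase y _) r hr
    have h3 := pair_devV (fun F => hΦ.pos F r hr) (fun F => pos F r hr) hx hy hxy h1 h2
    exact dev_bounds (hΦ.pos _ r hr) (hΦ.pos _ r hr) (pos _ r hr) (pos _ r hr) h3.1 h3.2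
  have Xc : ∀ r ∈ Icc 0 s, ∀ x y, 0 ≤ 1 - Real.exp (-(nc x r + nc y r)) ∧
      0 ≤ Real.exp (pc x r + pc y r) - 1 := fun r hr x y =>
    ⟨one_sub_exp_nonneg (add_nonneg (nc0 x r hr) (nc0 y r hr)),
      exp_sub_one_nonneg (add_nonneg (pc0 x r hr) (pc0 y r hr))⟩
  have Xd : ∀ r ∈ Icc 0 s, ∀ x y, 0 ≤ 1 - Real.exp (-(nd x r + nd y r)) ∧
      0 ≤ Real.exp (pd x r + pd y r) - 1 := fun r hr x y =>
    ⟨one_sub_exp_nonneg (add_nonneg (nd0 x r hr) (nd0 y r hr)),
      exp_sub_one_nonneg (add_nonneg (pd0 x r hr) (pd0 y r hr))⟩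
  refine step_lower (A := Θ F) (B := Φ F) (C := Ψc F)
    (D := Ψd F) dA (hΘ.pos _) dB (hΦ.pos _) dC (hΨc.pos _) dD (hΨd.pos _)
    dk (fun h => hend h F hFX) ?_
  intro r hr hv
  have t1 := sum_low (h := h r) (h0 r) hFX
    (f := fun x y => Θ ((F.erase x).erase y) r / Θ F r
        + Φ ((F.erase x).erase y) r / Φ F r
        - Ψc ((F.erase x).erase y) r / Ψc F r
        - Ψd ((F.erase x).erase y) r / Ψd F r)
    (w := fun x y => W r x y *
        (max ((1 - Real.exp (-(nc x r + nc y r))) * (Real.exp (pd x r + pd y r) - 1))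
          ((Real.exp (pc x r + pc y r) - 1) * (1 - Real.exp (-(nd x r + nd y r))))))
    (fun x _ y _ => mul_nonneg (h00.W0 r hr x y) (le_max_of_le_left (mul_nonneg (Xc r hr x y).1 (Xd r hr x y).2)))
    (fun x hx y hy hne => by
      have hxy : x ≠ y := fun h => hne (by rw [h]; exact haa r y)
      have a0 := hΘ.pos F r hr
      have a2 := hΘ.pos ((F.erase x).erase y) r hr
      have c0 := hΨc.pos F r hr
      have c2 := hΨc.pos ((F.erase x).erase y) r hr
      have d0 := hΨd.pos F r hr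
      have d2 := hΨd.pos ((F.erase x).erase y) r hr
      have b0 := hΦ.pos F r hr
      have b2 := hΦ.pos ((F.erase x).erase y) r hr
      obtain ⟨u1, u2⟩ := PD hΨc.pos hc1 r hr x hx y hy hxy
      obtain ⟨v1, v2⟩ := PD hΨd.pos hd1 r hr x hx y hy hxy
      have := elim_ge
        (a := Φ ((F.erase x).erase y) r / Φ F r)
        (b := Θ ((F.erase x).erase y) r / Θ F r)
        (c := Ψc ((F.erase x).erase y) r / Ψc F r)
        (d := Ψd ((F.erase x).erase y) r / Ψd F r)
        (w := W r x y)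
        (div_pos b2 b0) (by
          have hb := ih _ (card2 x hx y) ((F.erase x).erase y) rfl (sub2 x y) r hr
          rw [div_mul_div_comm, div_mul_div_comm, div_le_div_iff₀ (mul_pos c0 d0) (mul_pos b0 a0)]
          have hm : (Ψc ((F.erase x).erase y) r * Ψd ((F.erase x).erase y) r)
              * (Real.exp (k r) * (Θ F r * Φ F r))
              ≤ (Real.exp (k r) * (Θ ((F.erase x).erase y) r
                * Φ ((F.erase x).erase y) r))
              * (Ψc F r * Ψd F r) :=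
            mul_le_mul hb hv.le (by positivity) (by positivity)
          have e1 := Real.exp_pos (k r)
          refine le_of_mul_le_mul_left ?_ e1
          linarith) (by
          rw [div_le_iff₀ b0]
          exact h00.up F hFX x hx y hy hxy r hr)
        (le_max_of_le_left (mul_nonneg (Xc r hr x y).1 (Xd r hr x y).2))
        (by field_simp; ring) (by field_simp; ring)
        (dev_mul_geM u1 u2 v1 v2 (Xc r hr x y).1 (Xc r hr x y).2 (Xd r hr x y).1
          (Xd r hr x y).2)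
      linarith)
  have t5 := ok r hr
  rw [rates r hr]
  linarith

end Pool.Agent.RX.RCM
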