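import Pool.Agent.RX.RCM.Half_1
import Pool.Agent.RX.RCM.World

/-! Level 1 in the deleted form: `v_c(F) = Ψ(F) / Φ(F)` (MP_73ccd0_lc, route M). -/

namespace Pool.Agent.RX.RCM

open Set Finset Pool.Agent.RX.RCRSHalf Pool.Agent.RX.RCG

set_option linter.unusedSectionVars false

variable {V : Type*} [Fintype V] [DecidableEq V]

/-- the rate identity with one inserted vertex -/
theorem rsum1 (h : V → V → ℝ) (hs : ∀ a b, h a b = h b a) (haa : ∀ a, h a a = 0)
    {φ1 φ0 φc φd : Finset V → ℝ} {e : V} {F : Finset V} (he : e ∉ F)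
    (hB : φ0 (insert e F) ≠ 0) (hC : φc (insert e F) ≠ 0) :
    lr h φ1 F + lr h φ0 (insert e F) - lr h φc (insert e F) - lr h φd F
      = (1 / 2) * ∑ x ∈ F, ∑ y ∈ F, h x y * (φ1 ((F.erase x).erase y) / φ1 F
          + φ0 (insert e ((F.erase x).erase y)) / φ0 (insert e F)
          - φc (insert e ((F.erase x).erase y)) / φc (insert e F)
          - φd ((F.erase x).erase y) / φd F)
        + ∑ b ∈ F, h e b * (φ0 (F.erase b) / φ0 (insert e F) - φc (F.erase b) / φc (insert e F)) := by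
  rw [lr_insert h hs haa he hB, lr_insert h hs haa he hC]
  have e1 : ∑ b ∈ F, h e b * (φ0 (F.erase b) / φ0 (insert e F) - φc (F.erase b) / φc (insert e F))
      = ∑ b ∈ F, h e b * (φ0 (F.erase b) / φ0 (insert e F) - 1)
        - ∑ b ∈ F, h e b * (φc (F.erase b) / φc (insert e F) - 1) := by
    rw [← Finset.sum_sub_distrib]
    exact Finset.sum_congr rfl fun b _ => by ring
  rw [e1]
  unfold lr
  have e3 : (1 / 2) * ∑ x ∈ F, ∑ y ∈ F, h x y * (φ1 ((F.erase x).erase y) / φ1 F
          + φ0 (insert e ((F.erase x).erase y)) / φ0 (insert e F)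
          - φc (insert e ((F.erase x).erase y)) / φc (insert e F)
          - φd ((F.erase x).erase y) / φd F)
      = (1 / 2) * ∑ x ∈ F, ∑ y ∈ F, h x y * (φ1 ((F.erase x).erase y) / φ1 F - 1)
        + (1 / 2) * ∑ x ∈ F, ∑ y ∈ F, h x y *
          (φ0 (insert e ((F.erase x).erase y)) / φ0 (insert e F) - 1)
        - (1 / 2) * ∑ x ∈ F, ∑ y ∈ F, h x y *
          (φc (insert e ((F.erase x).erase y)) / φc (insert e F) - 1)
        - (1 / 2) * ∑ x ∈ F, ∑ y ∈ F, h x y *
          (φd ((F.erase x).erase y) / φd F - 1) := by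
    rw [← mul_add, ← mul_sub, ← mul_sub]
    congr 1
    rw [← Finset.sum_add_distrib, ← Finset.sum_sub_distrib, ← Finset.sum_sub_distrib]
    refine Finset.sum_congr rfl fun x _ => ?_
    rw [← Finset.sum_add_distrib, ← Finset.sum_sub_distrib, ← Finset.sum_sub_distrib]
    exact Finset.sum_congr rfl fun y _ => by ring
  rw [e3]
  ring

/-- bounds of `v(F) / v(F + e)`, `v = Ψ / Φ` -/
def Bv (Φ Ψ : Finset V → ℝ → ℝ) (p n : V → ℝ → ℝ) (e : V) (F : Finset V) (r : ℝ) : Prop :=
  Ψ (insert e F) r * Φ F r ≤ Real.exp (n e r) * (Ψ F r * Φ (insert e F) r) ∧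
    Ψ F r * Φ (insert e F) r ≤ Real.exp (p e r) * (Ψ (insert e F) r * Φ F r)

/-- closure functions of level 1 in the deleted form on the set `X` -/
structure GV (h : ℝ → V → V → ℝ) (X : Finset V) (c : V) (t : ℝ) (W : ℝ → V → V → ℝ)
    (gp gm : V → V → ℝ → ℝ) (p p' n n' : V → ℝ → ℝ) : Prop where
  dp : ∀ e ∈ X, ∀ r ∈ Icc 0 t, HasDerivAt (p e) (p' e r) r
  dn : ∀ e ∈ X, ∀ r ∈ Icc 0 t, HasDerivAt (n e) (n' e r) r
  p0 : ∀ e, ∀ r ∈ Icc 0 t, 0 ≤ p e r
  n0 : ∀ e, ∀ r ∈ Icc 0 t, 0 ≤ n e r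
  op : ∀ e ∈ X, ∀ r ∈ Icc 0 t,
      h r c e
        + ∑ b ∈ X.erase e, h r e b * (W r e b * (1 - Real.exp (-n b r)))
        + (1 / 2) * ∑ x ∈ X.erase e, ∑ y ∈ X.erase e, h r x y * (W r x y *
          (max ((1 - Real.exp (-(n x r + n y r))) * (1 - Real.exp (-(gm e x r + gm e y r))))
            ((Real.exp (p x r + p y r) - 1) * (1 - Real.exp (-(gp e x r + gp e y r))))))
      ≤ -p' e r
  on : ∀ e ∈ X, ∀ r ∈ Icc 0 t,
      ∑ b ∈ X.erase e, h r e b * (W r e b * (Real.exp (p b r) - 1))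
        + (1 / 2) * ∑ x ∈ X.erase e, ∑ y ∈ X.erase e, h r x y * (W r x y *
          (max ((1 - Real.exp (-(n x r + n y r))) * (1 - Real.exp (-(gp e x r + gp e y r))))
            ((Real.exp (p x r + p y r) - 1) * (1 - Real.exp (-(gm e x r + gm e y r))))))
      ≤ -n' e r

/-- the deviation of the removal factor of `x y` under the extra target -/
theorem pair_devV {Φ Ψ : Finset V → ℝ → ℝ} {p n : V → ℝ → ℝ} {x y : V} {G : Finset V} {r : ℝ}
    (pos : ∀ F, 0 < Φ F r) (pos' : ∀ F, 0 < Ψ F r) (hx : x ∈ G) (hy : y ∈ G) (hxy : x ≠ y)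
    (h1 : Bv Φ Ψ p n x (G.erase x) r) (h2 : Bv Φ Ψ p n y ((G.erase x).erase y) r) :
    Ψ ((G.erase x).erase y) r * Φ G r
        ≤ Real.exp (p x r + p y r) * (Φ ((G.erase x).erase y) r * Ψ G r) ∧
      Φ ((G.erase x).erase y) r * Ψ G r
        ≤ Real.exp (n x r + n y r) * (Ψ ((G.erase x).erase y) r * Φ G r) := by
  have hy' : y ∈ G.erase x := Finset.mem_erase.2 ⟨fun h => hxy h.symm, hy⟩
  obtain ⟨a1, a2⟩ := h1
  obtain ⟨b1, b2⟩ := h2
  rw [Finset.insert_erase hx] at a1 a2
  rw [Finset.insert_erase hy'] at b1 b2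
  constructor
  · rw [Real.exp_add]
    exact chain (P0 := Φ G r) (P1 := Φ (G.erase x) r)
      (P2 := Φ ((G.erase x).erase y) r) (J0 := Ψ G r) (J1 := Ψ (G.erase x) r)
      (J2 := Ψ ((G.erase x).erase y) r) (pos _) (pos' _) (pos _)
      (pos' _) (Real.exp_pos _) (Real.exp_pos _) (by linarith) (by linarith)
  · rw [Real.exp_add]
    exact chain (P0 := Ψ G r) (P1 := Ψ (G.erase x) r)
      (P2 := Ψ ((G.erase x).erase y) r) (J0 := Φ G r) (J1 := Φ (G.erase x) r)
      (J2 := Φ ((G.erase x).erase y) r) (pos' _) (pos _)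
      (pos' _) (pos _) (Real.exp_pos _) (Real.exp_pos _) (by linarith) (by linarith)

section

variable {h : ℝ → V → V → ℝ} {κ : ℝ → V → ℝ} {s t : ℝ} {Φ Ψ : Finset V → ℝ → ℝ} {c : V}
  {X : Finset V} {W T : ℝ → V → V → ℝ} {gp gm : V → V → ℝ → ℝ} {p p' n n' : V → ℝ → ℝ}

/-- the rates in the deleted form -/
theorem ratesV (hs : ∀ t a b, h t a b = h t b a) (haa : ∀ t a, h t a a = 0)
    (hΦ : Wd h κ s Φ) (hΨ : Wd h (fun r a => κ r a + h r c a) s Ψ) {e : V} {F : Finset V}
    (he : e ∉ F) {r : ℝ} (hr : r ∈ Icc 0 s) :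
    (lr (h r) (fun G => Ψ G r) F - ∑ a ∈ F, (κ r a + h r c a))
        + (lr (h r) (fun G => Φ G r) (insert e F) - ∑ a ∈ insert e F, κ r a)
        - (lr (h r) (fun G => Ψ G r) (insert e F) - ∑ a ∈ insert e F, (κ r a + h r c a))
        - (lr (h r) (fun G => Φ G r) F - ∑ a ∈ F, κ r a)
      = (1 / 2) * ∑ x ∈ F, ∑ y ∈ F, h r x y * (Ψ ((F.erase x).erase y) r / Ψ F r
          + Φ (insert e ((F.erase x).erase y)) r / Φ (insert e F) r
          - Ψ (insert e ((F.erase x).erase y)) r / Ψ (insert e F) r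
          - Φ ((F.erase x).erase y) r / Φ F r)
        + ∑ b ∈ F, h r e b * (Φ (F.erase b) r / Φ (insert e F) r
          - Ψ (F.erase b) r / Ψ (insert e F) r)
        + h r c e := by
  have := rsum1 (h r) (hs r) (haa r) (φ1 := fun G => Ψ G r) (φ0 := fun G => Φ G r)
    (φc := fun G => Ψ G r) (φd := fun G => Φ G r) he (hΦ.pos _ r hr).ne' (hΨ.pos _ r hr).ne'
  rw [← this, Finset.sum_insert he, Finset.sum_insert he, Finset.sum_add_distrib]
  ring

/-- deviation of the removal factor of `x y` under the removal of `e` -/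
theorem devE (hΦ : Wd h κ s Φ)
    (h12 : ∀ F ⊆ X, ∀ i ∈ X, ∀ j ∈ X, i ∉ F → j ∉ F → i ≠ j → ∀ r ∈ Icc 0 s,
      B12 Φ gp gm i j F r) {e : V} {F : Finset V} (heX : e ∈ X) (he : e ∉ F) (hFX : F ⊆ X)
    {r : ℝ} (hr : r ∈ Icc 0 s) {x y : V} (hx : x ∈ F) (hy : y ∈ F) (hxy : x ≠ y) :
    -(1 - Real.exp (-(gp e x r + gp e y r)))
        ≤ Φ (insert e ((F.erase x).erase y)) r * Φ F r
          / (Φ ((F.erase x).erase y) r * Φ (insert e F) r) - 1 ∧
      Φ (insert e ((F.erase x).erase y)) r * Φ F r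
          / (Φ ((F.erase x).erase y) r * Φ (insert e F) r) - 1
        ≤ Real.exp (gm e x r + gm e y r) - 1 := by
  have hex : e ≠ x := fun h => he (h ▸ hx)
  have hey : e ≠ y := fun h => he (h ▸ hy)
  have h1 := h12 (F.erase x) ((Finset.erase_subset _ _).trans hFX) e heX x (hFX hx)
    (fun h => he (Finset.mem_of_mem_erase h)) (Finset.notMem_erase x F) hex r hr
  have h2 := h12 ((F.erase x).erase y)
    ((Finset.erase_subset _ _).trans ((Finset.erase_subset _ _).trans hFX)) e heX y (hFX hy)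
    (fun h => he (Finset.mem_of_mem_erase (Finset.mem_of_mem_erase h)))
    (Finset.notMem_erase y _) hey r hr
  have h3 := pair_dev (fun F => hΦ.pos F r hr) hx hy hxy h1 h2
  exact dev_bounds (hΦ.pos _ r hr) (hΦ.pos _ r hr) (hΦ.pos _ r hr) (hΦ.pos _ r hr) h3.1 h3.2

set_option maxHeartbeats 4000000 in
/-- Level 1, deleted form. -/
theorem levV (hs : ∀ t a b, h t a b = h t b a) (haa : ∀ t a, h t a a = 0)
    (h0 : ∀ t a b, 0 ≤ h t a b) (hΦ : Wd h κ s Φ)
    (hΨ : Wd h (fun r a => κ r a + h r c a) s Ψ) (h00 : Lv0 X s Φ W T)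
    (gp0 : ∀ i j, ∀ r ∈ Icc 0 s, 0 ≤ gp i j r) (gm0 : ∀ i j, ∀ r ∈ Icc 0 s, 0 ≤ gm i j r)
    (h12 : ∀ F ⊆ X, ∀ i ∈ X, ∀ j ∈ X, i ∉ F → j ∉ F → i ≠ j → ∀ r ∈ Icc 0 s,
      B12 Φ gp gm i j F r)
    (hG : GV h X c s W gp gm p p' n n')
    (hend : 0 ≤ s → ∀ F ⊆ X, ∀ e ∈ X, e ∉ F → Bv Φ Ψ p n e F s) :
    ∀ F ⊆ X, ∀ e ∈ X, e ∉ F → ∀ r ∈ Icc 0 s, Bv Φ Ψ p n e F r := by
  intro F
  induction hn : F.card using Nat.strong_induction_on generalizing F with
  | _ m ih =>
  intro hFX e heX he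
  have IH : ∀ G, G.card < m → G ⊆ X → ∀ e ∈ X, e ∉ G → ∀ r ∈ Icc 0 s, Bv Φ Ψ p n e G r :=
    fun G hG => ih G.card hG G rfl
  have hB' : insert e F ⊆ X := Finset.insert_subset heX hFX
  have hF2 : F ⊆ X.erase e := fun z hz => Finset.mem_erase.2 ⟨fun h => he (h ▸ hz), hFX hz⟩
  have card1 : ∀ b ∈ F, (F.erase b).card < m := fun b hb => by
    rw [← hn]; exact Finset.card_lt_card (Finset.erase_ssubset hb)
  have card2 : ∀ x ∈ F, ∀ y, ((F.erase x).erase y).card < m := fun x hx y =>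
    (Finset.card_le_card (Finset.erase_subset _ _)).trans_lt (card1 x hx)
  have sub1 : ∀ b, F.erase b ⊆ X := fun b => (Finset.erase_subset _ _).trans hFX
  have sub2 : ∀ x y, (F.erase x).erase y ⊆ X := fun x y =>
    (Finset.erase_subset _ _).trans (sub1 x)
  have dA := fun r (hr : r ∈ Icc 0 s) => hΨ.d F hr
  have dB := fun r (hr : r ∈ Icc 0 s) => hΦ.d (insert e F) hr
  have dC := fun r (hr : r ∈ Icc 0 s) => hΨ.d (insert e F) hr
  have dD := fun r (hr : r ∈ Icc 0 s) => hΦ.d F hr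
  have Web : ∀ r ∈ Icc 0 s, ∀ b ∈ F, Φ (F.erase b) r ≤ W r e b * Φ (insert e F) r := by
    intro r hr b hb
    have hbe : e ≠ b := fun h => he (h ▸ hb)
    have h1 := h00.up _ hB' e (by simp) b (by simp [hb]) hbe r hr
    rwa [Finset.erase_insert he] at h1
  have S : ∀ r ∈ Icc 0 s, ∀ b ∈ F,
      Ψ F r * Φ (F.erase b) r ≤ Real.exp (n b r) * (Ψ (F.erase b) r * Φ F r) ∧
        Ψ (F.erase b) r * Φ F r ≤ Real.exp (p b r) * (Ψ F r * Φ (F.erase b) r) := by
    intro r hr b hb
    have h1 := IH _ (card1 b hb) (sub1 b) b (hFX hb) (Finset.notMem_erase b F) r hr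
    unfold Bv at h1
    rwa [Finset.insert_erase hb] at h1
  have PD1 : ∀ r ∈ Icc 0 s, ∀ x ∈ F, ∀ y ∈ F, x ≠ y →
      -(1 - Real.exp (-(n x r + n y r)))
        ≤ Ψ ((F.erase x).erase y) r * Φ F r / (Φ ((F.erase x).erase y) r * Ψ F r) - 1 ∧
      Ψ ((F.erase x).erase y) r * Φ F r / (Φ ((F.erase x).erase y) r * Ψ F r) - 1
        ≤ Real.exp (p x r + p y r) - 1 := by
    intro r hr x hx y hy hxy
    have h1 := IH _ (card1 x hx) (sub1 x) x (hFX hx) (Finset.notMem_erase x F) r hr
    have h2 := IH _ (card2 x hx y) (sub2 x y) y (hFX hy) (Finset.notMem_erase y _) r hr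
    have h3 := pair_devV (fun F => hΦ.pos F r hr) (fun F => hΨ.pos F r hr) hx hy hxy h1 h2
    exact dev_bounds (hΦ.pos _ r hr) (hΦ.pos _ r hr) (hΨ.pos _ r hr) (hΨ.pos _ r hr) h3.1 h3.2
  have PD2 := fun r (hr : r ∈ Icc 0 s) x (hx : x ∈ F) y (hy : y ∈ F) (hxy : x ≠ y) =>
    devE hΦ h12 heX he hFX hr hx hy hxy
  have RB : ∀ r ∈ Icc 0 s, ∀ x ∈ F, ∀ y, Bv Φ Ψ p n e ((F.erase x).erase y) r := by
    intro r hr x hx y
    exact IH _ (card2 x hx y) (sub2 x y) e heX
      (fun h => he (Finset.mem_of_mem_erase (Finset.mem_of_mem_erase h))) r hr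
  have X1 : ∀ r ∈ Icc 0 s, ∀ x y, 0 ≤ 1 - Real.exp (-(n x r + n y r)) ∧
      0 ≤ Real.exp (p x r + p y r) - 1 := fun r hr x y =>
    ⟨one_sub_exp_nonneg (add_nonneg (hG.n0 x r hr) (hG.n0 y r hr)),
      exp_sub_one_nonneg (add_nonneg (hG.p0 x r hr) (hG.p0 y r hr))⟩
  have X2 : ∀ r ∈ Icc 0 s, ∀ x y, 0 ≤ 1 - Real.exp (-(gp e x r + gp e y r)) ∧
      0 ≤ 1 - Real.exp (-(gm e x r + gm e y r)) := fun r hr x y =>
    ⟨one_sub_exp_nonneg (add_nonneg (gp0 e x r hr) (gp0 e y r hr)),
      one_sub_exp_nonneg (add_nonneg (gm0 e x r hr) (gm0 e y r hr))⟩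
  have We : ∀ r ∈ Icc 0 s, ∀ x ∈ F, ∀ y ∈ F, x ≠ y →
      Φ (insert e ((F.erase x).erase y)) r ≤ W r x y * Φ (insert e F) r := by
    intro r hr x hx y hy hxy
    have hex : e ≠ x := fun h => he (h ▸ hx)
    have hey : e ≠ y := fun h => he (h ▸ hy)
    have h1 := h00.up (insert e F) hB' x (Finset.mem_insert_of_mem hx) y
      (Finset.mem_insert_of_mem hy) hxy r hr
    rwa [Finset.erase_insert_of_ne hex, Finset.erase_insert_of_ne hey] at h1
  intro r hr
  constructor
  · -- lower bound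
    refine step_lower (A := Ψ F) (B := Φ (insert e F)) (C := Ψ (insert e F))
      (D := Φ F) dA (hΨ.pos _) dB (hΦ.pos _) dC (hΨ.pos _) dD (hΦ.pos _)
      (q := n e) (q' := n' e) (hG.dn e heX) (fun h => (hend h F hFX e heX he).1) ?_ r hr
    intro r hr hv
    have hv1 : Ψ F r * Φ (insert e F) r ≤ Ψ (insert e F) r * Φ F r := by
      have h1 := Real.one_le_exp (hG.n0 e r hr)
      have h2 : 0 < Ψ F r * Φ (insert e F) r := mul_pos (hΨ.pos _ r hr) (hΦ.pos _ r hr)
      nlinarith
    have t1 := sum_low (h := h r) (h0 r) hF2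
      (f := fun x y => Ψ ((F.erase x).erase y) r / Ψ F r
          + Φ (insert e ((F.erase x).erase y)) r / Φ (insert e F) r
          - Ψ (insert e ((F.erase x).erase y)) r / Ψ (insert e F) r
          - Φ ((F.erase x).erase y) r / Φ F r)
      (w := fun x y => W r x y *
          (max ((1 - Real.exp (-(n x r + n y r))) * (1 - Real.exp (-(gp e x r + gp e y r))))
            ((Real.exp (p x r + p y r) - 1) * (1 - Real.exp (-(gm e x r + gm e y r))))))
      (fun x _ y _ => mul_nonneg (h00.W0 r hr x y) (le_max_of_le_left (mul_nonneg (X1 r hr x y).1 (X2 r hr x y).1)))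
      (fun x hx y hy hne => by
        have hxy : x ≠ y := fun h => hne (by rw [h]; exact haa r y)
        have a0 := hΨ.pos F r hr
        have a2 := hΨ.pos ((F.erase x).erase y) r hr
        have c0 := hΨ.pos (insert e F) r hr
        have c2 := hΨ.pos (insert e ((F.erase x).erase y)) r hr
        have d0 := hΦ.pos F r hr
        have d2 := hΦ.pos ((F.erase x).erase y) r hr
        have b0 := hΦ.pos (insert e F) r hr
        have b2 := hΦ.pos (insert e ((F.erase x).erase y)) r hr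
        obtain ⟨u1, u2⟩ := PD1 r hr x hx y hy hxy
        obtain ⟨v1, v2⟩ := PD2 r hr x hx y hy hxy
        have := elim_leV (a := Φ ((F.erase x).erase y) r / Φ F r)
          (b := Ψ (insert e ((F.erase x).erase y)) r / Ψ (insert e F) r)
          (c := Ψ ((F.erase x).erase y) r / Ψ F r)
          (d := Φ (insert e ((F.erase x).erase y)) r / Φ (insert e F) r)
          (w := W r x y)
          (div_pos d2 d0) (by
            have hb := (RB r hr x hx y).1
            rw [div_mul_div_comm, div_mul_div_comm, div_le_div_iff₀ (mul_pos d0 c0) (mul_pos a0 b0)]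
            have hm : (Ψ (insert e ((F.erase x).erase y)) r * Φ ((F.erase x).erase y) r)
                * (Real.exp (n e r) * (Ψ F r * Φ (insert e F) r))
                ≤ (Real.exp (n e r) * (Ψ ((F.erase x).erase y) r
                  * Φ (insert e ((F.erase x).erase y)) r))
                * (Ψ (insert e F) r * Φ F r) :=
              mul_le_mul hb hv.le (by positivity) (by positivity)
            have e1 := Real.exp_pos (n e r)
            refine le_of_mul_le_mul_left ?_ e1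
            linarith) (by
            rw [div_le_iff₀ d0]
            exact h00.up F hFX x hx y hy hxy r hr) (by
            rw [div_le_iff₀ b0]
            exact We r hr x hx y hy hxy) (h00.W0 r hr x y)
          (by field_simp; ring) (by field_simp; ring) u1 u2 v1 v2
          (add_nonneg (hG.p0 x r hr) (hG.p0 y r hr)) (add_nonneg (hG.n0 x r hr) (hG.n0 y r hr))
          (add_nonneg (gm0 e x r hr) (gm0 e y r hr)) (add_nonneg (gp0 e x r hr) (gp0 e y r hr))
        linarith)
    have t3 := sum1_low (h := fun b => h r e b) (h0 r e) hF2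
      (f := fun b => Φ (F.erase b) r / Φ (insert e F) r - Ψ (F.erase b) r / Ψ (insert e F) r)
      (w := fun b => W r e b * (Real.exp (p b r) - 1))
      (fun b _ => mul_nonneg (h00.W0 r hr e b) (exp_sub_one_nonneg (hG.p0 b r hr)))
      (fun b hb => bterm_low (hΦ.pos _ r hr) (hΦ.pos _ r hr) (hΨ.pos _ r hr) (hΦ.pos _ r hr)
        (Real.one_le_exp (hG.p0 b r hr)) (by rw [mul_comm (Φ F r)]; exact hv1)
        (S r hr b hb).2 (Web r hr b hb))
    have t5 := hG.on e heX r hr
    have t6 := h0 r c e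
    rw [ratesV hs haa hΦ hΨ he hr]
    linarith
  · -- upper bound
    refine step_upper (A := Ψ F) (B := Φ (insert e F)) (C := Ψ (insert e F))
      (D := Φ F) dA (hΨ.pos _) dB (hΦ.pos _) dC (hΨ.pos _) dD (hΦ.pos _)
      (q := p e) (q' := p' e) (hG.dp e heX) (fun h => (hend h F hFX e heX he).2) ?_ r hr
    intro r hr hv
    have hv1 : Ψ (insert e F) r * Φ F r ≤ Ψ F r * Φ (insert e F) r := by
      have h1 := Real.one_le_exp (hG.p0 e r hr)
      have h2 : 0 < Ψ (insert e F) r * Φ F r := mul_pos (hΨ.pos _ r hr) (hΦ.pos _ r hr)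
      nlinarith
    have t1 := sum_up (h := h r) (h0 r) hF2
      (f := fun x y => Ψ ((F.erase x).erase y) r / Ψ F r
          + Φ (insert e ((F.erase x).erase y)) r / Φ (insert e F) r
          - Ψ (insert e ((F.erase x).erase y)) r / Ψ (insert e F) r
          - Φ ((F.erase x).erase y) r / Φ F r)
      (w := fun x y => W r x y *
          (max ((1 - Real.exp (-(n x r + n y r))) * (1 - Real.exp (-(gm e x r + gm e y r))))
            ((Real.exp (p x r + p y r) - 1) * (1 - Real.exp (-(gp e x r + gp e y r))))))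
      (fun x _ y _ => mul_nonneg (h00.W0 r hr x y) (le_max_of_le_left (mul_nonneg (X1 r hr x y).1 (X2 r hr x y).2)))
      (fun x hx y hy hne => by
        have hxy : x ≠ y := fun h => hne (by rw [h]; exact haa r y)
        have a0 := hΨ.pos F r hr
        have a2 := hΨ.pos ((F.erase x).erase y) r hr
        have c0 := hΨ.pos (insert e F) r hr
        have c2 := hΨ.pos (insert e ((F.erase x).erase y)) r hr
        have d0 := hΦ.pos F r hr
        have d2 := hΦ.pos ((F.erase x).erase y) r hr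
        have b0 := hΦ.pos (insert e F) r hr
        have b2 := hΦ.pos (insert e ((F.erase x).erase y)) r hr
        obtain ⟨u1, u2⟩ := PD1 r hr x hx y hy hxy
        obtain ⟨v1, v2⟩ := PD2 r hr x hx y hy hxy
        have := elim_geV (a := Φ ((F.erase x).erase y) r / Φ F r)
          (b := Ψ (insert e ((F.erase x).erase y)) r / Ψ (insert e F) r)
          (c := Ψ ((F.erase x).erase y) r / Ψ F r)
          (d := Φ (insert e ((F.erase x).erase y)) r / Φ (insert e F) r)
          (w := W r x y)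
          (div_pos d2 d0) (by
            have hb := (RB r hr x hx y).2
            rw [div_mul_div_comm, div_mul_div_comm, div_le_div_iff₀ (mul_pos a0 b0) (mul_pos d0 c0)]
            have hm : (Ψ ((F.erase x).erase y) r * Φ (insert e ((F.erase x).erase y)) r)
                * (Real.exp (p e r) * (Ψ (insert e F) r * Φ F r))
                ≤ (Real.exp (p e r) * (Ψ (insert e ((F.erase x).erase y)) r
                  * Φ ((F.erase x).erase y) r))
                * (Ψ F r * Φ (insert e F) r) :=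
              mul_le_mul hb hv.le (by positivity) (by positivity)
            have e1 := Real.exp_pos (p e r)
            refine le_of_mul_le_mul_left ?_ e1
            linarith) (by
            rw [div_le_iff₀ d0]
            exact h00.up F hFX x hx y hy hxy r hr) (by
            rw [div_le_iff₀ b0]
            exact We r hr x hx y hy hxy) (h00.W0 r hr x y)
          (by field_simp; ring) (by field_simp; ring) u1 u2 v1 v2
          (add_nonneg (hG.p0 x r hr) (hG.p0 y r hr)) (add_nonneg (hG.n0 x r hr) (hG.n0 y r hr))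
          (add_nonneg (gm0 e x r hr) (gm0 e y r hr)) (add_nonneg (gp0 e x r hr) (gp0 e y r hr))
        linarith)
    have t3 := sum1_up (h := fun b => h r e b) (h0 r e) hF2
      (f := fun b => Φ (F.erase b) r / Φ (insert e F) r - Ψ (F.erase b) r / Ψ (insert e F) r)
      (w := fun b => W r e b * (1 - Real.exp (-n b r)))
      (fun b _ => mul_nonneg (h00.W0 r hr e b) (one_sub_exp_nonneg (hG.n0 b r hr)))
      (fun b hb => by
        have := bterm_up (hΦ.pos _ r hr) (hΦ.pos F r hr) (hΨ.pos (insert e F) r hr)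
          (hΨ.pos _ r hr)
          (Real.one_le_exp (hG.n0 b r hr)) (by rw [mul_comm (Φ F r)]; exact hv1)
          (hΦ.pos _ r hr) (S r hr b hb).1 (Web r hr b hb)
        rwa [one_div, ← Real.exp_neg] at this)
    have t5 := hG.op e heX r hr
    rw [ratesV hs haa hΦ hΨ he hr]
    linarith

end

end Pool.Agent.RX.RCM
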